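import Pool.Agent.H374.Defs

/-!
# Statements of the modules of the proof of S19505 (each is a `Prop`; the modules prove them,
possibly from other ones)
-/

set_option autoImplicit false
open MeasureTheory ProbabilityTheory Filter Topology

namespace Pool.Agent.H374

/-! ## Abstract probability -/

/-- Exponential maximal inequality, upward. -/
def RWUp : Prop := ∀ (Ω : Type) [MeasurableSpace Ω] (P : Measure Ω) [IsProbabilityMeasure P]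
  (k : ℕ) (g : ℕ → Ω → ℝ) (p s c θ y : ℝ), IIDExp P k g p → 0 < s → s < p → 0 ≤ θ →
  p / (p - s) * Real.exp (-(s * c)) ≤ Real.exp θ →
  P.real {ω | ∃ z ≤ k, y ≤ ∑ i ∈ Finset.range z, (g i ω - c)} ≤ Real.exp (-(s * y) + k * θ)

/-- Exponential maximal inequality, downward. -/
def RWDown : Prop := ∀ (Ω : Type) [MeasurableSpace Ω] (P : Measure Ω) [IsProbabilityMeasure P]
  (k : ℕ) (g : ℕ → Ω → ℝ) (p s c θ y : ℝ), IIDExp P k g p → 0 < s → 0 < p → 0 ≤ θ →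
  p / (p + s) * Real.exp (s * c) ≤ Real.exp θ →
  P.real {ω | ∃ z ≤ k, y ≤ ∑ i ∈ Finset.range z, (c - g i ω)} ≤ Real.exp (-(s * y) + k * θ)

/-- Survival bound for the walk with increments `Exp(1/2+δ) - Exp(1/2-δ)`, `δ = K0 n^{-1/3}`. -/
def RWSurv : Prop := ∀ K0 : ℝ, 0 < K0 → ∃ C > 0, ∃ n0 : ℕ, ∀ n : ℕ, n0 ≤ n → ∀ k : ℕ, n ≤ 4 * k →
  ∀ (Ω : Type) [MeasurableSpace Ω] (P : Measure Ω) [IsProbabilityMeasure P] (ξ η : ℕ → Ω → ℝ),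
  IIDPair P k ξ η (1 / 2 + K0 * (n : ℝ) ^ (-(1 : ℝ) / 3)) (1 / 2 - K0 * (n : ℝ) ^ (-(1 : ℝ) / 3)) →
  ∀ x : ℝ, 0 ≤ x →
  P.real {ω | ∀ z ≤ k, ∑ i ∈ Finset.range z, (ξ i ω - η i ω) ≤ x}
    ≤ C * (n : ℝ) ^ (-(1 : ℝ) / 3) * (1 + x)

/-- Dyadic chaining for subadditive arrays. -/
def DyadicStmt : Prop := ∀ A : ℝ, 0 < A → ∃ B > 0,
  ∀ (Ω : Type) [MeasurableSpace Ω] (P : Measure Ω) [IsProbabilityMeasure P] (g : ℕ)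
    (Y : ℕ → ℕ → Ω → ℝ),
  (∀ ω s t v, s < t → t < v → v ≤ g → Y s v ω ≤ Y s t ω + Y t v ω) →
  (∀ s t, s < t → t ≤ g → ∀ τ : ℝ, 0 ≤ τ →
    P.real {ω | τ * ((t : ℝ) - s) ^ ((1 : ℝ) / 3) ≤ Y s t ω} ≤ A * Real.exp (-τ / A)) →
  ∀ τ : ℝ, 0 ≤ τ →
    P.real {ω | ∃ s t, s < t ∧ t ≤ g ∧ τ * (g : ℝ) ^ ((1 : ℝ) / 3) ≤ Y s t ω}
      ≤ B * Real.exp (-τ / B)

/-! ## Burke property and exponential moments -/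

/-- Burke property along the staircase `ℓ`: vertical increments on column `ℓ k + p` (rows `1..k`) and
horizontal increments on row `k` (columns `ℓ k + 1 .. ℓ k + p`). -/
def BurkeGen : Prop := ∀ (Ω : Type) [MeasurableSpace Ω] (P : Measure Ω) (E : ℤ × ℤ → Ω → ℝ),
  Env P E → ∀ (ℓ : ℤ → ℤ), Monotone ℓ → ℓ 0 = 0 → ∀ lam α : ℝ, 0 < lam → 0 < α → lam + α = 1 →
  ∀ k p : ℕ,
  Measure.map (fun ω =>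
      ((fun j : Fin k =>
          L (Dl ℓ) (wgt (cRow ℓ lam α) E ω) (0, 0) (ℓ k + p, (j : ℤ) + 1)
            - L (Dl ℓ) (wgt (cRow ℓ lam α) E ω) (0, 0) (ℓ k + p, (j : ℤ))),
       (fun i : Fin p =>
          L (Dl ℓ) (wgt (cRow ℓ lam α) E ω) (0, 0) (ℓ k + i + 1, (k : ℤ))
            - L (Dl ℓ) (wgt (cRow ℓ lam α) E ω) (0, 0) (ℓ k + i, (k : ℤ))))) P
    = (Measure.pi fun _ : Fin k => expMeasure α).prod (Measure.pi fun _ : Fin p => expMeasure lam)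

/-- Exponential moments, general staircase (`lam, α ∈ (0,1)` arbitrary, `a = lam + α - 1`). -/
def ExpMom : Prop := ∀ (Ω : Type) [MeasurableSpace Ω] (P : Measure Ω) (E : ℤ × ℤ → Ω → ℝ),
  Env P E → ∀ (ℓ : ℤ → ℤ), Monotone ℓ → ℓ 0 = 0 → ∀ lam α : ℝ, 0 < lam → lam < 1 → 0 < α → α < 1 →
  ∀ m k : ℕ, ℓ k ≤ m →
  ∫⁻ ω, ENNReal.ofReal (Real.exp ((lam + α - 1) *
      L (Dl ℓ) (wgt (cRow ℓ lam α) E ω) (0, 0) ((m : ℤ), (k : ℤ)))) ∂P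
    ≤ ENNReal.ofReal ((lam / (1 - α)) ^ m * (α / (1 - lam)) ^ k)

/-- Upper tail with curvature for the half-space model, from the corner `(1,1)` to `(M,k)`. -/
def UpperCurv : Prop := ∃ C : ℝ, 1 ≤ C ∧
  ∀ (Ω : Type) [MeasurableSpace Ω] (P : Measure Ω) (E : ℤ × ℤ → Ω → ℝ), Env P E →
  ∀ M k : ℕ, 1 ≤ k → k ≤ M → ∀ α : ℝ, |α - 1 / 2| ≤ (M : ℝ) ^ (-(1 : ℝ) / 3) / 8 →
  ∀ s : ℝ, 0 ≤ s →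
  P.real {ω | 2 * (M : ℝ) + 2 * k - ((M : ℝ) - k) * (M : ℝ) ^ (-(1 : ℝ) / 3) / C + s
      ≤ L Hs (wgt (cH α) E ω) (1, 1) ((M : ℤ), (k : ℤ))}
    ≤ C * Real.exp (-(s * (M : ℝ) ^ (-(1 : ℝ) / 3)) / C
        - ((M : ℝ) - k) * (M : ℝ) ^ (-(2 : ℝ) / 3) / C)

/-- The reflected form of `UpperCurv`: from `(z,1)` to `(m,m)`. -/
def UpperRev : Prop := ∃ C : ℝ, 1 ≤ C ∧
  ∀ (Ω : Type) [MeasurableSpace Ω] (P : Measure Ω) (E : ℤ × ℤ → Ω → ℝ), Env P E →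
  ∀ m z : ℕ, 1 ≤ z → z ≤ m → ∀ α : ℝ, |α - 1 / 2| ≤ (m : ℝ) ^ (-(1 : ℝ) / 3) / 8 →
  ∀ s : ℝ, 0 ≤ s →
  P.real {ω | 4 * (m : ℝ) - 2 * z - (z : ℝ) * (m : ℝ) ^ (-(1 : ℝ) / 3) / C + s
      ≤ G1 (wgt (cH α) E ω) m z}
    ≤ C * Real.exp (-(s * (m : ℝ) ^ (-(1 : ℝ) / 3)) / C - (z : ℝ) * (m : ℝ) ^ (-(2 : ℝ) / 3) / C)

/-- Heavy row data force a large value: `P(max_z [f(z) + G1 z] ≤ 4m - x) ≤ e^{-bx}`, row rate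
`1 - α - b`. -/
def HeavyRow : Prop :=
  ∀ (Ω : Type) [MeasurableSpace Ω] (P : Measure Ω) (E : ℤ × ℤ → Ω → ℝ), Env P E →
  ∀ m : ℕ, 1 ≤ m → ∀ α b : ℝ, 0 < α → 0 < b → α + b < 1 → ∀ x : ℝ,
  P.real {ω | ∀ z : ℕ, 1 ≤ z → z ≤ m →
      ∑ i ∈ Finset.range z, (1 - α - b)⁻¹ * E ((i : ℤ) + 1, 0) ω + G1 (wgt (cH α) E ω) m z
        ≤ 4 * (m : ℝ) - x}
    ≤ Real.exp (-(b * x))

/-- Reversed increments in the half-space are bounded below by iid `Exp(α)` variables. -/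
def RevIncr : Prop :=
  ∀ (Ω : Type) [MeasurableSpace Ω] (P : Measure Ω) (E : ℤ × ℤ → Ω → ℝ), Env P E →
  ∀ m : ℕ, 1 ≤ m → ∀ α : ℝ, 0 < α → α < 1 → ∃ g : ℕ → Ω → ℝ, IIDExp P m g α ∧
    ∀ᵐ ω ∂P, ∀ z : ℕ, 1 ≤ z → z + 1 ≤ m →
      g (z - 1) ω ≤ G1 (wgt (cH α) E ω) m z - G1 (wgt (cH α) E ω) m (z + 1)

/-! ## Half-space one-pair estimates -/

/-- Exit tail (5.1), for any row data. -/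
def ExitTail : Prop := ∃ κ > 0, ∃ C > 0,
  ∀ (Ω : Type) [MeasurableSpace Ω] (P : Measure Ω) (E : ℤ × ℤ → Ω → ℝ), Env P E →
  ∀ m : ℕ, 1 ≤ m → ∀ α lam : ℝ, |α - 1 / 2| ≤ κ * (m : ℝ) ^ (-(1 : ℝ) / 3) →
  |lam - 1 / 2| ≤ 2 * κ * (m : ℝ) ^ (-(1 : ℝ) / 3) → ∀ ξ : ℕ → Ω → ℝ, IIDExp P m ξ lam →
  ∀ K : ℝ, 0 ≤ K →
  P.real {ω | ∃ z : ℕ, 1 ≤ z ∧ z ≤ m ∧ K * (m : ℝ) ^ ((2 : ℝ) / 3) ≤ z ∧
      4 * (m : ℝ) - (z : ℝ) * (m : ℝ) ^ (-(1 : ℝ) / 3) / C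
        ≤ ∑ i ∈ Finset.range z, ξ i ω + G1 (wgt (cH α) E ω) m z}
    ≤ C * Real.exp (-K / C)

/-- Lower tail for diagonal pairs (5.2). -/
def LowerTail : Prop := ∃ κ > 0, ∃ C > 0,
  ∀ (Ω : Type) [MeasurableSpace Ω] (P : Measure Ω) (E : ℤ × ℤ → Ω → ℝ), Env P E →
  ∀ s t : ℤ, s < t → ∀ α : ℝ, |α - 1 / 2| ≤ κ * ((t : ℝ) - s) ^ (-(1 : ℝ) / 3) →
  ∀ θ : ℝ, 0 ≤ θ →
  P.real {ω | X (wgt (cH α) E ω) s t ≤ 4 * ((t : ℝ) - s) - θ * ((t : ℝ) - s) ^ ((1 : ℝ) / 3)}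
    ≤ C * Real.exp (-θ / C)

/-- Upper tail for critical row data (5.3). -/
def StatUpper : Prop := ∃ κ > 0, ∃ C > 0,
  ∀ (Ω : Type) [MeasurableSpace Ω] (P : Measure Ω) (E : ℤ × ℤ → Ω → ℝ), Env P E →
  ∀ m : ℕ, 1 ≤ m → ∀ α lam : ℝ, |α - 1 / 2| ≤ κ * (m : ℝ) ^ (-(1 : ℝ) / 3) →
  |lam - 1 / 2| ≤ 2 * κ * (m : ℝ) ^ (-(1 : ℝ) / 3) → ∀ ξ : ℕ → Ω → ℝ, IIDExp P m ξ lam →
  ∀ θ : ℝ, 0 ≤ θ →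
  P.real {ω | ∃ z : ℕ, 1 ≤ z ∧ z ≤ m ∧ 4 * (m : ℝ) + θ * (m : ℝ) ^ ((1 : ℝ) / 3)
        ≤ ∑ i ∈ Finset.range z, ξ i ω + G1 (wgt (cH α) E ω) m z}
    ≤ C * Real.exp (-θ / C)

/-- Diagonal increments of the stationary process started at row `r` (5.4). -/
def DiagMinus : Prop := ∃ κ > 0, ∃ C > 0,
  ∀ (Ω : Type) [MeasurableSpace Ω] (P : Measure Ω) (E : ℤ × ℤ → Ω → ℝ), Env P E →
  ∀ r s t : ℤ, r ≤ s → s < t → ∀ α : ℝ, |α - 1 / 2| ≤ κ * ((t : ℝ) - s) ^ (-(1 : ℝ) / 3) →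
  ∀ θ : ℝ, 0 ≤ θ →
  P.real {ω | 4 * ((t : ℝ) - s) + θ * ((t : ℝ) - s) ^ ((1 : ℝ) / 3)
      ≤ L Hs (wgt (cMinus r (1 - α) α) E ω) (r, r) (t, t)
        - L Hs (wgt (cMinus r (1 - α) α) E ω) (r, r) (s, s)}
    ≤ C * Real.exp (-θ / C)

/-- Diagonal increments of the reversed stationary process ended at column `N` (5.4). -/
def DiagPlus : Prop := ∃ κ > 0, ∃ C > 0,
  ∀ (Ω : Type) [MeasurableSpace Ω] (P : Measure Ω) (E : ℤ × ℤ → Ω → ℝ), Env P E →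
  ∀ N s t : ℤ, s < t → t < N → ∀ α : ℝ, |α - 1 / 2| ≤ κ * ((t : ℝ) - s) ^ (-(1 : ℝ) / 3) →
  ∀ θ : ℝ, 0 ≤ θ →
  P.real {ω | 4 * ((t : ℝ) - s) + θ * ((t : ℝ) - s) ^ ((1 : ℝ) / 3)
      ≤ L Hs (wgt (cPlus N (1 - α) α) E ω) (s + 1, s + 1) (N, N)
        - L Hs (wgt (cPlus N (1 - α) α) E ω) (t + 1, t + 1) (N, N)}
    ≤ C * Real.exp (-θ / C)

/-! ## Full space -/

/-- Lower tail in the full space (6). -/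
def FullLower : Prop := ∃ C > 0,
  ∀ (Ω : Type) [MeasurableSpace Ω] (P : Measure Ω) (E : ℤ × ℤ → Ω → ℝ), Env P E →
  ∀ s t : ℤ, s < t → ∀ θ : ℝ, 0 ≤ θ →
  P.real {ω | TF (fun z => E z ω) s t ≤ 4 * ((t : ℝ) - s) - θ * ((t : ℝ) - s) ^ ((1 : ℝ) / 3)}
    ≤ C * Real.exp (-θ / C)

/-- Upper tail in the full space (3.4). -/
def FullUpper : Prop := ∃ C > 0,
  ∀ (Ω : Type) [MeasurableSpace Ω] (P : Measure Ω) (E : ℤ × ℤ → Ω → ℝ), Env P E →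
  ∀ s t : ℤ, s < t → ∀ θ : ℝ, 0 ≤ θ →
  P.real {ω | 4 * ((t : ℝ) - s) + θ * ((t : ℝ) - s) ^ ((1 : ℝ) / 3) ≤ TF (fun z => E z ω) s t}
    ≤ C * Real.exp (-θ / C)

/-- Far pairs in the strict half-space (8). -/
def FarPairs : Prop := ∃ C > 0,
  ∀ (Ω : Type) [MeasurableSpace Ω] (P : Measure Ω) (E : ℤ × ℤ → Ω → ℝ), Env P E →
  ∀ m x : ℕ, 1 ≤ m → 1 ≤ x → ∀ θ : ℝ, 0 ≤ θ →
  P.real {ω | L St (fun z => E z ω) ((x : ℤ) + 1, 1) ((x : ℤ) + m, (m : ℤ))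
      ≤ 4 * (m : ℝ) - θ * (m : ℝ) ^ ((1 : ℝ) / 3)}
    ≤ C * (Real.exp (-θ / C) + Real.exp (-((x : ℝ) * (m : ℝ) ^ (-(2 : ℝ) / 3)) / C))

/-! ## The block estimate -/

/-- Abstract block lemma (9), no percolation in it. `ξ η` are the walk increments (length `n'`), `σ`
is the slab variable, `Ups` and `T x` are as in the paper. -/
def JAbstract : Prop := ∀ K0 : ℝ, 0 < K0 → ∀ C1 : ℝ, 0 < C1 → ∃ C > 0, ∀ m : ℕ, 1 ≤ m → ∃ n0 : ℕ,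
  ∀ n : ℕ, n0 ≤ n → ∀ n' : ℕ, n ≤ 3 * n' → n' ≤ n →
  ∀ (Sl : Type) [MeasurableSpace Sl] (ν : Measure Sl) [IsProbabilityMeasure ν]
    (Ups Z : ((Fin n' → ℝ) × (Fin n' → ℝ)) × Sl → ℝ) (T : ℕ → Sl → ℝ),
  Measurable Ups → Measurable Z → (∀ x, Measurable (T x)) →
  (∀ ξ ξ' η η' : Fin n' → ℝ, ∀ σ : Sl, ξ ≤ ξ' → η' ≤ η → Ups ((ξ, η), σ) ≤ Ups ((ξ', η'), σ)) →
  let μ := ((Measure.pi fun _ : Fin n' => expMeasure (1 / 2 + K0 * (n : ℝ) ^ (-(1 : ℝ) / 3))).prod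
      (Measure.pi fun _ : Fin n' => expMeasure (1 / 2 - K0 * (n : ℝ) ^ (-(1 : ℝ) / 3)))).prod ν
  (∀ᵐ p ∂μ, 0 ≤ Z p) →
  (∀ᵐ p ∂μ, 0 < Z p → ∀ x : ℕ, 2 ≤ x → x ≤ n' →
    Z p ≤ Ups p - ∑ i ∈ Finset.univ.filter (fun i : Fin n' => (i : ℕ) < x), (p.1.1 i - p.1.2 i)
      - T x p.2) →
  (∀ θ : ℝ, 0 ≤ θ → μ.real {p | 4 * (m : ℝ) + θ * (m : ℝ) ^ ((1 : ℝ) / 3) ≤ Ups p}
    ≤ C1 * Real.exp (-θ / C1)) →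
  (∀ x : ℕ, 2 ≤ x → x ≤ n' → ∀ θ : ℝ, 0 ≤ θ →
    ν.real {σ | T x σ ≤ 4 * (m : ℝ) - θ * (m : ℝ) ^ ((1 : ℝ) / 3)}
      ≤ C1 * (Real.exp (-θ / C1) + Real.exp (-((x : ℝ) * (m : ℝ) ^ (-(2 : ℝ) / 3)) / C1))) →
  Integrable (fun p => Z p ^ 8) μ → ∫ p, Z p ^ 8 ∂μ ≤ C1 * (n : ℝ) ^ 16 →
  ∀ q : ℕ, 1 ≤ q → q ≤ 4 →
    ∫ p, Z p ^ q ∂μ ≤ C * (m : ℝ) ^ ((q : ℝ) / 3) * ((m : ℝ) / n) ^ ((1 : ℝ) / 3)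

/-- The block estimate (J). -/
def JBound : Prop := ∀ K0 : ℝ, 0 < K0 → ∃ C > 0, ∃ m0 : ℕ, 1 ≤ m0 ∧ ∀ m : ℕ, m0 ≤ m → ∃ n0 : ℕ,
  ∀ n : ℕ, n0 ≤ n → ∀ α : ℝ, |α - 1 / 2| ≤ K0 / 2 * (n : ℝ) ^ (-(1 : ℝ) / 3) →
  ∀ (Ω : Type) [MeasurableSpace Ω] (P : Measure Ω) (E : ℤ × ℤ → Ω → ℝ), Env P E →
  ∀ i : ℕ, i + m ≤ n → ∀ q : ℕ, 1 ≤ q → q ≤ 4 →
    ∫ ω, (Zb n i (i + m) (wgt (cPhi n (K0 * (n : ℝ) ^ (-(1 : ℝ) / 3)) α) E ω)) ^ q ∂P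
      ≤ C * (m : ℝ) ^ ((q : ℝ) / 3) * ((m : ℝ) / n) ^ ((1 : ℝ) / 3)

/-! ## The core argument -/

/-- Lemma A (10). -/
def LemmaA : Prop := ∀ ε : ℝ, 0 < ε → ∃ C : ℝ, 0 < C ∧
  ∀ (Ω : Type) [MeasurableSpace Ω] (P : Measure Ω) [IsProbabilityMeasure P] (M : ℕ)
    (Z : Ω → ℝ) (g : Fin M → Ω → ℝ) (a : ℝ), 0 < a → Measurable Z → (∀ j, Measurable (g j)) →
  (∀ᵐ ω ∂P, 0 ≤ Z ω) → iIndepFun g P → (∀ j, ∫ ω, g j ω ∂P = 0) →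
  Integrable (fun ω => Z ω ^ 2) P → (∀ j, Integrable (fun ω => g j ω ^ 4) P) →
  ∫ ω, (∑ j, g j ω) ^ 2 ∂P ≤ ε * (∫ ω, Z ω ^ 2 ∂P + a * ∫ ω, Z ω ∂P)
    + C * (∫ ω, (Z ω - ∫ ω', Z ω' ∂P - ∑ j, g j ω) ^ 2 ∂P
        + a⁻¹ ^ 2 * ∑ j, ∫ ω, g j ω ^ 4 ∂P)

/-- Linear growth. -/
def LinGrowth {ι : Type} [Fintype ι] (f : (ι → ℝ) → ℝ) : Prop :=
  Measurable f ∧ ∃ C : ℝ, ∀ x, |f x| ≤ C * (1 + ∑ i, |x i|)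

open Classical in
/-- Coordinates in `A` from `y`, the others from `x`. -/
noncomputable def mix {ι : Type} (A : Finset ι) (y x : ι → ℝ) : ι → ℝ :=
  fun i => if i ∈ A then y i else x i

/-- The core theorem (10): `n = N0 * M ^ K * r` diagonal sites `D 0, ..., D (n-1)`; blocks at level `k` are
`D '' [j N_k, (j+1) N_k)`, `N_k = N0 * M ^ k`. -/
def CoreStmt : Prop := ∀ CJ η : ℝ, 0 < CJ → 0 < η → ∃ M K : ℕ, 2 ≤ M ∧ 1 ≤ K ∧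
  ∀ N0 : ℕ, 1 ≤ N0 → ∀ r : ℕ, 1 ≤ r → ∀ V : ℝ, 0 < V →
  ∀ (ι : Type) [Fintype ι] [DecidableEq ι] (ν : Measure ℝ) [IsProbabilityMeasure ν],
  (∀ᵐ x ∂ν, 0 ≤ x) → Integrable (fun x : ℝ => x ^ 4) ν →
  ∀ (D : ℕ → ι), Set.InjOn D (Set.Iio (N0 * M ^ K * r)) →
  ∀ (Ψ : (ι → ℝ) → ℝ), LinGrowth Ψ →
  (∀ x : ι → ℝ, (∀ i, 0 ≤ x i) → ∀ A : Finset ι, Ψ (mix A 0 x) ≤ Ψ x) →
  (∀ k : ℕ, k ≤ K → ∀ q : ℕ, (q = 1 ∨ q = 2 ∨ q = 4) →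
    ∑ j ∈ Finset.range (M ^ (K - k) * r),
      ∫ x, (Ψ x - Ψ (mix ((Finset.Ico (j * (N0 * M ^ k)) ((j + 1) * (N0 * M ^ k))).image D) 0 x)) ^ q
        ∂(Measure.pi fun _ : ι => ν)
      ≤ CJ * V * ((N0 * M ^ k : ℕ) : ℝ) ^ (((q : ℝ) - 2) / 3)) →
  ∫ p : (ι → ℝ) × (ι → ℝ),
      (Ψ p.1 - Ψ (mix ((Finset.range (N0 * M ^ K * r)).image D) p.2 p.1)) ^ 2
        ∂((Measure.pi fun _ : ι => ν).prod (Measure.pi fun _ : ι => ν))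
    ≤ η * V

/-! ## Assembly -/

/-- Resampling the diagonal changes `Φ` by `o(n^{1/3})` in `L²` (from (J) and the core). -/
def PhiResample : Prop := ∀ K0 η : ℝ, 0 < K0 → 0 < η → ∃ N : ℕ, 1 ≤ N ∧ ∃ n0 : ℕ,
  ∀ n : ℕ, n0 ≤ n → N ∣ n → ∀ α : ℝ, |α - 1 / 2| ≤ K0 / 2 * (n : ℝ) ^ (-(1 : ℝ) / 3) →
  ∀ (Ω : Type) [MeasurableSpace Ω] (P : Measure Ω) (E : ℤ × ℤ → Ω → ℝ), Env P E →
    ∫ ω, (Phi n (wgt (cPhi n (K0 * (n : ℝ) ^ (-(1 : ℝ) / 3)) α) E ω)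
      - Phi n (wgt (cPhi n (K0 * (n : ℝ) ^ (-(1 : ℝ) / 3)) α) (resamp E) ω)) ^ 2 ∂P
      ≤ η * (n : ℝ) ^ ((2 : ℝ) / 3)

/-- `Φ` is close to the point-to-point value (11.1). -/
def PhiClose : Prop := ∃ C > 0, ∀ K0 : ℝ, 1 ≤ K0 → ∃ n0 : ℕ, ∀ n : ℕ, n0 ≤ n → ∀ α : ℝ,
  |α - 1 / 2| ≤ K0 / 2 * (n : ℝ) ^ (-(1 : ℝ) / 3) →
  ∀ (Ω : Type) [MeasurableSpace Ω] (P : Measure Ω) (E : ℤ × ℤ → Ω → ℝ), Env P E →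
    ∫ ω, |Phi n (wgt (cPhi n (K0 * (n : ℝ) ^ (-(1 : ℝ) / 3)) α) E ω)
      - X (wgt (cH α) E ω) 0 n| ∂P ≤ C / K0 * (n : ℝ) ^ ((1 : ℝ) / 3)

/-- Resampling for one pair (11.1). -/
def PairResample : Prop := ∀ κ η : ℝ, 0 < κ → 0 < η → ∃ N : ℕ, 1 ≤ N ∧ ∃ n0 : ℕ,
  ∀ (Ω : Type) [MeasurableSpace Ω] (P : Measure Ω) (E : ℤ × ℤ → Ω → ℝ), Env P E →
  ∀ s t : ℤ, (n0 : ℤ) ≤ t - s → s < t → (N : ℤ) ∣ t - s →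
  ∀ α : ℝ, |α - 1 / 2| ≤ κ * ((t : ℝ) - s) ^ (-(1 : ℝ) / 3) →
    ∫ ω, |X (wgt (cH α) E ω) s t - X (wgt (cH α) (resamp E) ω) s t| ∂P
      ≤ η * ((t : ℝ) - s) ^ ((1 : ℝ) / 3)

/-- Theorem (T): uniform statement over all diagonal pairs. -/
def AllPairs : Prop := ∀ κ : ℝ, ∀ T : ℕ, 1 ≤ T → ∀ ε : ℝ, 0 < ε →
  ∀ (Ω : Type) [MeasurableSpace Ω] (P : Measure Ω) (E : ℤ × ℤ → Ω → ℝ), Env P E →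
  Tendsto (fun n : ℕ => P.real {ω | ∃ s t : ℤ, 0 ≤ s ∧ s < t ∧ t ≤ T * n ∧
      ε * (n : ℝ) ^ ((1 : ℝ) / 3) <
      |X (wgt (cH (1 / 2 - κ * (n : ℝ) ^ (-(1 : ℝ) / 3))) E ω) s t
        - X (wgt (cH (1 / 2 - κ * (n : ℝ) ^ (-(1 : ℝ) / 3))) (resamp E) ω) s t|}) atTop (𝓝 0)

end Pool.Agent.H374
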