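import Pool.Agent.H374.Defs

/-!
# Probability tools: exponential laws and environments
-/

set_option autoImplicit false
open MeasureTheory ProbabilityTheory

namespace Pool.Agent.H374

/-! ## Exponential laws -/

lemma expMeasure_def (r : ℝ) : expMeasure r = volume.withDensity (exponentialPDF r) := rfl

lemma measurable_exponentialPDF (r : ℝ) : Measurable (exponentialPDF r) :=
  (measurable_exponentialPDFReal r).ennreal_ofReal

lemma lintegral_expMeasure (r : ℝ) (f : ℝ → ENNReal) :
    ∫⁻ x, f x ∂(expMeasure r)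
      = ∫⁻ x in Set.Ici 0, ENNReal.ofReal (r * Real.exp (-(r * x))) * f x := by
  rw [expMeasure_def, lintegral_withDensity_eq_lintegral_mul_non_measurable _
    (measurable_exponentialPDF r) (Filter.Eventually.of_forall fun x => by
      simp [exponentialPDF])]
  rw [← lintegral_indicator measurableSet_Ici]
  refine lintegral_congr fun x => ?_
  by_cases hx : 0 ≤ x
  · rw [Set.indicator_of_mem (by exact hx), Pi.mul_apply, exponentialPDF_of_nonneg hx]
  · rw [Set.indicator_of_notMem (by exact hx), Pi.mul_apply, exponentialPDF_of_neg (not_le.1 hx),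
      zero_mul]

lemma ae_nonneg_expMeasure (r : ℝ) : ∀ᵐ x ∂(expMeasure r), 0 ≤ x := by
  rw [ae_iff]
  have h1 : MeasurableSet {a : ℝ | ¬ 0 ≤ a} := by
    have : {a : ℝ | ¬ 0 ≤ a} = Set.Iio 0 := by ext; simp
    rw [this]; exact measurableSet_Iio
  rw [← lintegral_indicator_one h1, lintegral_expMeasure]
  rw [setLIntegral_congr_fun (g := fun _ => 0) measurableSet_Ici]
  · simp
  · intro x hx
    have : ¬ (x ∈ {a : ℝ | ¬ 0 ≤ a}) := by simpa using hx
    show _ * Set.indicator _ _ x = 0
    rw [Set.indicator_of_notMem this, mul_zero]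

/-- Exponential moments of an exponential variable. -/
lemma lintegral_exp_mul_expMeasure {r s : ℝ} (hr : 0 < r) (hs : s < r) :
    ∫⁻ x, ENNReal.ofReal (Real.exp (s * x)) ∂(expMeasure r) = ENNReal.ofReal (r / (r - s)) := by
  have hrs : 0 < r - s := sub_pos.2 hs
  have h1 := lintegral_expMeasure r (fun x => ENNReal.ofReal (Real.exp (s * x)))
  have h2 := lintegral_expMeasure (r - s) (fun _ => 1)
  have h3 : ∫⁻ _, (1 : ENNReal) ∂(expMeasure (r - s)) = 1 := by
    haveI := isProbabilityMeasure_expMeasure hrs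
    simp
  rw [h1]
  rw [h3] at h2
  have h4 : ∀ x : ℝ, ENNReal.ofReal (r * Real.exp (-(r * x))) * ENNReal.ofReal (Real.exp (s * x))
      = ENNReal.ofReal (r / (r - s)) * (ENNReal.ofReal ((r - s) * Real.exp (-((r - s) * x))) * 1) := by
    intro x
    rw [mul_one, ← ENNReal.ofReal_mul (by positivity), ← ENNReal.ofReal_mul (by positivity)]
    congr 1
    have : Real.exp (-((r - s) * x)) = Real.exp (-(r * x)) * Real.exp (s * x) := by
      rw [← Real.exp_add]; ring_nf
    rw [this]
    field_simp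
  simp_rw [h4]
  rw [lintegral_const_mul' _ _ ENNReal.ofReal_ne_top, ← h2, mul_one]

lemma integrable_exp_mul_expMeasure {r s : ℝ} (hr : 0 < r) (hs : s < r) :
    Integrable (fun x => Real.exp (s * x)) (expMeasure r) := by
  refine ⟨by fun_prop, ?_⟩
  rw [hasFiniteIntegral_iff_ofReal (Filter.Eventually.of_forall fun x => (Real.exp_pos _).le),
    lintegral_exp_mul_expMeasure hr hs]
  exact ENNReal.ofReal_lt_top

lemma integral_exp_mul_expMeasure {r s : ℝ} (hr : 0 < r) (hs : s < r) :
    ∫ x, Real.exp (s * x) ∂(expMeasure r) = r / (r - s) := by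
  rw [integral_eq_lintegral_of_nonneg_ae
    (Filter.Eventually.of_forall fun x => (Real.exp_pos _).le) (by fun_prop),
    lintegral_exp_mul_expMeasure hr hs, ENNReal.toReal_ofReal]
  have : 0 < r - s := sub_pos.2 hs
  positivity

/-- All moments of the exponential law are finite. -/
lemma integrable_pow_expMeasure {r : ℝ} (hr : 0 < r) (k : ℕ) :
    Integrable (fun x => x ^ k) (expMeasure r) := by
  have h1 := (integrable_exp_mul_expMeasure hr (half_lt_self hr)).const_mul
    ((k.factorial : ℝ) * (2 / r) ^ k)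
  refine h1.mono' (by fun_prop) ?_
  filter_upwards [ae_nonneg_expMeasure r] with x hx
  rw [Real.norm_eq_abs, abs_of_nonneg (pow_nonneg hx k)]
  have h2 := Real.pow_div_factorial_le_exp (r / 2 * x) (by positivity) k
  have h3 : (0 : ℝ) < k.factorial := by exact_mod_cast k.factorial_pos
  rw [div_le_iff₀ h3] at h2
  have h4 : x ^ k = (2 / r) ^ k * (r / 2 * x) ^ k := by
    rw [← mul_pow]; congr 1; field_simp
  rw [h4]
  have h5 : (0 : ℝ) ≤ (2 / r) ^ k := by positivity
  nlinarith [mul_le_mul_of_nonneg_left h2 h5]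

/-- Scaling. -/
lemma map_mul_expMeasure {r : ℝ} (hr : 0 < r) :
    Measure.map (fun x => r⁻¹ * x) (expMeasure 1) = expMeasure r := by
  haveI := isProbabilityMeasure_expMeasure (r := 1) one_pos
  haveI := isProbabilityMeasure_expMeasure hr
  haveI : IsProbabilityMeasure (Measure.map (fun x => r⁻¹ * x) (expMeasure 1)) :=
    Measure.isProbabilityMeasure_map (by fun_prop)
  refine Measure.eq_of_cdf _ _ ?_
  ext x
  rw [cdf_expMeasure_eq hr, cdf_eq_real, measureReal_def, Measure.map_apply (by fun_prop) measurableSet_Iic]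
  have : (fun y : ℝ => r⁻¹ * y) ⁻¹' Set.Iic x = Set.Iic (r * x) := by
    ext y
    simp only [Set.mem_preimage, Set.mem_Iic]
    rw [inv_mul_le_iff₀ hr]
  rw [this, ← measureReal_def, ← cdf_eq_real, cdf_expMeasure_eq one_pos, one_mul]
  have e : (0 ≤ r * x) ↔ (0 ≤ x) := by rw [mul_nonneg_iff_of_pos_left hr]
  simp only [e]

/-! ## Environments -/

section
variable {Ω : Type} [MeasurableSpace Ω] {P : Measure Ω} {E : ℤ × ℤ → Ω → ℝ}

lemma Env.comp (h : Env P E) {σ : ℤ × ℤ → ℤ × ℤ} (hσ : Function.Injective σ) :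
    Env P (fun z => E (σ z)) :=
  ⟨h.prob, fun z => h.meas _, h.indep.precomp hσ, fun z => h.law _⟩

lemma Env.nonneg (h : Env P E) : ∀ᵐ ω ∂P, ∀ z, 0 ≤ E z ω := by
  rw [ae_all_iff]
  intro z
  have h1 := ae_nonneg_expMeasure 1
  rw [← h.law z] at h1
  exact ae_of_ae_map (h.meas z).aemeasurable h1

lemma measurable_wgt (h : Env P E) (c : ℤ × ℤ → ℝ) (z : ℤ × ℤ) :
    Measurable fun ω => wgt c E ω z := (h.meas z).const_mul (c z)

lemma wgt_nonneg {c : ℤ × ℤ → ℝ} (hc : ∀ z, 0 ≤ c z) {ω : Ω} (hE : ∀ z, 0 ≤ E z ω)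
    (z : ℤ × ℤ) : 0 ≤ wgt c E ω z := mul_nonneg (hc z) (hE z)

/-- Joint law of finitely many entries. -/
lemma Env.map_pi (h : Env P E) {ι : Type*} [Fintype ι] (f : ι → ℤ × ℤ)
    (hf : Function.Injective f) :
    Measure.map (fun ω i => E (f i) ω) P = Measure.pi (fun _ : ι => expMeasure 1) := by
  haveI := h.prob
  have h1 := (h.indep.precomp hf).map_fun_eq_pi_map (fun i => (h.meas (f i)).aemeasurable)
  rw [h1]
  congr 1
  ext1 i
  exact h.law _

/-- Joint law of finitely many scaled entries. -/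
lemma Env.map_pi_scale (h : Env P E) {ι : Type*} [Fintype ι] (f : ι → ℤ × ℤ)
    (hf : Function.Injective f) (r : ι → ℝ) (hr : ∀ i, 0 < r i) :
    Measure.map (fun ω i => (r i)⁻¹ * E (f i) ω) P = Measure.pi (fun i : ι => expMeasure (r i)) := by
  haveI := h.prob
  have h0 : iIndepFun (fun i : ι => fun ω => (r i)⁻¹ * E (f i) ω) P :=
    (h.indep.precomp hf).comp (fun i x => (r i)⁻¹ * x) (fun i => by fun_prop)
  have h1 := h0.map_fun_eq_pi_map (fun i => ((h.meas (f i)).const_mul _).aemeasurable)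
  rw [h1]
  congr 1
  ext1 i
  rw [← map_mul_expMeasure (hr i), ← h.law (f i), Measure.map_map (by fun_prop) (h.meas _)]
  rfl

lemma Env.iid (h : Env P E) {f : ℕ → ℤ × ℤ} (hf : Function.Injective f) {r : ℝ} (hr : 0 < r)
    (k : ℕ) : IIDExp P k (fun i ω => r⁻¹ * E (f i) ω) r := by
  refine ⟨fun i _ => (h.meas _).const_mul _, ?_⟩
  exact h.map_pi_scale (fun i : Fin k => f i)
    (fun i j hij => Fin.ext (hf hij)) (fun _ => r) (fun _ => hr)

/-- Functions of disjoint finite sets of entries are independent. -/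
lemma Env.indep_of_disjoint (h : Env P E) {S T : Finset (ℤ × ℤ)} (hST : Disjoint S T)
    {α β : Type*} [MeasurableSpace α] [MeasurableSpace β] {F : (S → ℝ) → α} {G : (T → ℝ) → β}
    (hF : Measurable F) (hG : Measurable G) :
    IndepFun (fun ω => F (fun z => E z ω)) (fun ω => G (fun z => E z ω)) P :=
  (h.indep.indepFun_finset S T hST h.meas).comp hF hG

lemma IIDExp.mono {k l : ℕ} {g : ℕ → Ω → ℝ} {r : ℝ} (hr : 0 < r) (h : IIDExp P l g r) (hkl : k ≤ l) :
    IIDExp P k g r := by
  haveI := isProbabilityMeasure_expMeasure hr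
  refine ⟨fun i hi => h.meas i (by omega), ?_⟩
  have hm : Measurable (fun ω (i : Fin l) => g i ω) :=
    measurable_pi_lambda _ fun i => h.meas i i.2
  have h1 : (fun ω (i : Fin k) => g i ω) = (fun (x : Fin l → ℝ) (i : Fin k) => x (Fin.castLE hkl i)) ∘
      (fun ω (i : Fin l) => g i ω) := by
    ext ω i; simp
  rw [h1, ← Measure.map_map (by fun_prop) hm, h.law]
  -- marginal of a product measure
  have hI : iIndepFun (fun (i : Fin k) (x : Fin l → ℝ) => x (Fin.castLE hkl i))
      (Measure.pi fun _ : Fin l => expMeasure r) := by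
    have := iIndepFun_pi (μ := fun _ : Fin l => expMeasure r) (X := fun _ (x : ℝ) => x)
      (fun _ => by fun_prop)
    exact this.precomp (g := Fin.castLE hkl) (Fin.castLE_injective hkl)
  rw [hI.map_fun_eq_pi_map (fun i => (measurable_pi_apply _).aemeasurable)]
  congr 1
  ext1 i
  exact (measurePreserving_eval (fun _ : Fin l => expMeasure r) (Fin.castLE hkl i)).map_eq

/-- Any sublist of positions of an iid list. -/
lemma IIDExp.comp {k l : ℕ} {g : ℕ → Ω → ℝ} {r : ℝ} (hr : 0 < r) (h : IIDExp P l g r)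
    (σ : ℕ → ℕ) (hσ : Set.InjOn σ (Set.Iio k)) (hl : ∀ i < k, σ i < l) :
    IIDExp P k (fun i => g (σ i)) r := by
  haveI := isProbabilityMeasure_expMeasure hr
  refine ⟨fun i hi => h.meas _ (hl i hi), ?_⟩
  have hm : Measurable (fun ω (i : Fin l) => g i ω) :=
    measurable_pi_lambda _ fun i => h.meas i i.2
  let τ : Fin k → Fin l := fun i => ⟨σ i, hl i i.2⟩
  have hτ : Function.Injective τ := by
    intro i j hij
    exact Fin.ext (hσ i.2 j.2 (by simpa [τ] using hij))
  have h1 : (fun ω (i : Fin k) => g (σ i) ω) = (fun (x : Fin l → ℝ) (i : Fin k) => x (τ i)) ∘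
      (fun ω (i : Fin l) => g i ω) := by
    ext ω i; simp [τ]
  rw [h1, ← Measure.map_map (by fun_prop) hm, h.law]
  have hI : iIndepFun (fun (i : Fin k) (x : Fin l → ℝ) => x (τ i))
      (Measure.pi fun _ : Fin l => expMeasure r) := by
    have := iIndepFun_pi (μ := fun _ : Fin l => expMeasure r) (X := fun _ (x : ℝ) => x)
      (fun _ => by fun_prop)
    exact this.precomp (g := τ) hτ
  rw [hI.map_fun_eq_pi_map (fun i => (measurable_pi_apply _).aemeasurable)]
  congr 1
  ext1 i
  exact (measurePreserving_eval (fun _ : Fin l => expMeasure r) (τ i)).map_eq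

end

end Pool.Agent.H374
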