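import Pool.Agent.H374.Det
import Pool.Agent.H374.Stmts
import Pool.Agent.H374.Tools

/-!
# From one pair to all pairs (paper 11.2)
-/

set_option autoImplicit false
open MeasureTheory ProbabilityTheory Filter Topology

namespace Pool.Agent.H374

/-! ## Environments -/

/-- Exchange of the diagonal with the line above it. -/
def al_sw (z : ℤ × ℤ) : ℤ × ℤ :=
  if z.1 = z.2 then (z.1, z.1 + 1) else if z.2 = z.1 + 1 then (z.1, z.1) else z

lemma al_sw_inv (z : ℤ × ℤ) : al_sw (al_sw z) = z := by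
  obtain ⟨a, b⟩ := z
  unfold al_sw
  by_cases h1 : a = b
  · subst h1
    simp
  · by_cases h2 : b = a + 1
    · subst h2
      simp
    · simp [h1, h2]

lemma al_sw_inj : Function.Injective al_sw := Function.LeftInverse.injective al_sw_inv

section
variable {Ω : Type} [MeasurableSpace Ω] {P : Measure Ω} {E : ℤ × ℤ → Ω → ℝ}

lemma al_X_resamp (c : ℤ × ℤ → ℝ) (E : ℤ × ℤ → Ω → ℝ) (ω : Ω) (s t : ℤ) :
    X (wgt c (resamp E) ω) s t = X (wgt c (fun z => E (al_sw z)) ω) s t := by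
  unfold X
  refine L_congr fun z _ hz => ?_
  have hz' : z.2 ≤ z.1 := hz
  unfold wgt resamp al_sw
  by_cases h1 : z.1 = z.2
  · simp only [h1, if_true]
  · have h2 : ¬ z.2 = z.1 + 1 := by omega
    simp only [h1, h2, if_false]

lemma al_abs (h : Env P E) : Env P (fun z ω => |E z ω|) := by
  refine ⟨h.prob, fun z => (h.meas z).abs, ?_, fun z => ?_⟩
  · exact h.indep.comp (fun _ x => |x|) (fun _ => by fun_prop)
  · rw [← h.law z]
    apply Measure.map_congr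
    filter_upwards [h.nonneg] with ω hω
    exact abs_of_nonneg (hω z)

lemma al_E_int (h : Env P E) (z : ℤ × ℤ) : Integrable (E z) P := by
  have h1 : Integrable (fun x : ℝ => x) (expMeasure 1) := by
    have := integrable_pow_expMeasure (r := 1) one_pos 1
    simpa using this
  rw [← h.law z] at h1
  exact h1.comp_measurable (h.meas z)

lemma al_L_int (h : Env P E) (D : Set (ℤ × ℤ)) (c : ℤ × ℤ → ℝ) (u v : ℤ × ℤ) :
    Integrable (fun ω => L D (wgt c E ω) u v) P := by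
  have h1 : Integrable (fun ω => ∑ z ∈ rect u v, |wgt c E ω z|) P := by
    refine integrable_finsetSum _ fun z _ => ?_
    exact ((al_E_int h z).const_mul (c z)).abs
  refine h1.mono' ?_ ?_
  · exact (measurable_L (fun z => measurable_wgt h c z) D u v).aestronglyMeasurable
  · exact Eventually.of_forall fun ω => by
      rw [Real.norm_eq_abs]
      exact abs_L_le D _ u v

end

/-! ## Deterministic part -/

lemma al_super {w : ℤ × ℤ → ℝ} (hw : ∀ z, 0 ≤ w z) {s t v : ℤ} (h1 : s < t) (h2 : t < v) :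
    X w s t + X w t v ≤ X w s v := by
  unfold X
  have m1 : ((t + 1, t) : ℤ × ℤ) ∈ Hs := by
    change t ≤ t + 1
    omega
  have n1 : (Path Hs (s + 1, s + 1) (t, t)).Nonempty :=
    path_nonempty RD_Hs (diag_mem_Hs _) (diag_mem_Hs _) (by simp; omega) (by simp; omega)
  have n2 : (Path Hs (t + 1, t) (v, v)).Nonempty :=
    path_nonempty RD_Hs m1 (diag_mem_Hs _) (by simp; omega) (by simp; omega)
  have e1 := L_concat (w := w) (D := Hs) (u := (s + 1, s + 1)) (z := (t, t)) (z' := (t + 1, t))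
    (v := (v, v)) (Or.inl rfl) (by simp only [tm]; omega) (by simp only [tm]; omega) n1 n2
  have e2 : L Hs w (t + 1, t + 1) (v, v) ≤ L Hs w (t + 1, t) (v, v) :=
    L_mono_ends RD_Hs m1 (diag_mem_Hs _) (diag_mem_Hs _) (diag_mem_Hs _) (by simp) (by simp)
      (by simp) (by simp) (by simp; omega) (by simp; omega) (fun z _ _ => hw z)
  linarith

lemma al_det {w w' wm wp : ℤ × ℤ → ℝ} {a s t v N : ℤ} {β : ℝ} (h0 : 0 ≤ a) (h1 : a ≤ s)
    (h2 : s < t) (h3 : t ≤ v) (h4 : v < N)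
    (hm : ∀ z : ℤ × ℤ, 1 ≤ z.2 → wm z = w z) (hp : ∀ z : ℤ × ℤ, z.1 < N → wp z = w z)
    (hw' : ∀ z, 0 ≤ w' z) (hβ : 0 ≤ β)
    (k1 : X w' a v - X w a v ≤ β)
    (k2 : t < v → L Hs wm (0, 0) (v, v) - L Hs wm (0, 0) (t, t) - 4 * ((v : ℝ) - t) ≤ β)
    (k3 : a < s → L Hs wp (a + 1, a + 1) (N, N) - L Hs wp (s + 1, s + 1) (N, N)
      - 4 * ((s : ℝ) - a) ≤ β)
    (k4 : a < s → 4 * ((s : ℝ) - a) - X w' a s ≤ β)
    (k5 : t < v → 4 * ((v : ℝ) - t) - X w' t v ≤ β) :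
    X w' s t - X w s t ≤ 5 * β := by
  -- left end
  have left : X w' s t - X w s t ≤ (X w' a t - X w a t) + 2 * β := by
    rcases eq_or_lt_of_le h1 with h | h
    · subst h; linarith
    · have e1 := al_super hw' h h2
      have e2 := cross_diag wp (a := a + 1) (b := s + 1) (c := t) (d := N) (by omega) (by omega)
        (by omega)
      have c1 : L Hs wp (a + 1, a + 1) (t, t) = X w a t := by
        unfold X
        refine L_congr fun z hz _ => hp z ?_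
        have := (mem_rect.1 hz).1.2
        simp only at this
        omega
      have c2 : L Hs wp (s + 1, s + 1) (t, t) = X w s t := by
        unfold X
        refine L_congr fun z hz _ => hp z ?_
        have := (mem_rect.1 hz).1.2
        simp only at this
        omega
      rw [c1, c2] at e2
      have := k3 h
      have := k4 h
      linarith
  have right : X w' a t - X w a t ≤ (X w' a v - X w a v) + 2 * β := by
    rcases eq_or_lt_of_le h3 with h | h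
    · subst h; linarith
    · have e1 := al_super hw' (lt_of_le_of_lt h1 h2) h
      have e2 := cross_diag wm (a := 0) (b := a + 1) (c := t) (d := v) (by omega) (by omega)
        (by omega)
      have c1 : L Hs wm (a + 1, a + 1) (t, t) = X w a t := by
        unfold X
        refine L_congr fun z hz _ => hm z ?_
        have := (mem_rect.1 hz).2.1
        simp only at this
        omega
      have c2 : L Hs wm (a + 1, a + 1) (v, v) = X w a v := by
        unfold X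
        refine L_congr fun z hz _ => hm z ?_
        have := (mem_rect.1 hz).2.1
        simp only at this
        omega
      rw [c1, c2] at e2
      have := k2 h
      have := k5 h
      linarith
  linarith

/-! ## Probabilities in one cell -/

/-- The tail in one cell: there is a large increment. -/
def al_cell {Ω : Type} (Y : ℕ → ℕ → Ω → ℝ) (g : ℕ) (τ : ℝ) : Set Ω :=
  {ω | ∃ s t, s < t ∧ t ≤ g ∧ τ * (g : ℝ) ^ ((1 : ℝ) / 3) ≤ Y s t ω}

/-- The three families. -/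
noncomputable def al_Ym {Ω : Type} (E : ℤ × ℤ → Ω → ℝ) (α : ℝ) (a : ℤ) (s t : ℕ) (ω : Ω) : ℝ :=
  L Hs (wgt (cMinus 0 (1 - α) α) E ω) (0, 0) (a + t, a + t)
    - L Hs (wgt (cMinus 0 (1 - α) α) E ω) (0, 0) (a + s, a + s) - 4 * ((t : ℝ) - s)

noncomputable def al_Yp {Ω : Type} (E : ℤ × ℤ → Ω → ℝ) (α : ℝ) (N a : ℤ) (s t : ℕ) (ω : Ω) : ℝ :=
  L Hs (wgt (cPlus N (1 - α) α) E ω) (a + s + 1, a + s + 1) (N, N)
    - L Hs (wgt (cPlus N (1 - α) α) E ω) (a + t + 1, a + t + 1) (N, N) - 4 * ((t : ℝ) - s)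

noncomputable def al_Yx {Ω : Type} (E : ℤ × ℤ → Ω → ℝ) (α : ℝ) (a : ℤ) (s t : ℕ) (ω : Ω) : ℝ :=
  4 * ((t : ℝ) - s) - X (wgt (cH α) E ω) (a + s) (a + t)

lemma al_win {κ α : ℝ} (hκ : 0 < κ) {g d : ℝ} (hd : 0 < d) (hdg : d ≤ g)
    (h : |α - 1 / 2| ≤ κ * g ^ (-(1 : ℝ) / 3)) : |α - 1 / 2| ≤ κ * d ^ (-(1 : ℝ) / 3) := by
  refine h.trans (mul_le_mul_of_nonneg_left ?_ hκ.le)
  exact Real.rpow_le_rpow_of_nonpos hd hdg (by norm_num)

section
variable {Ω : Type} [MeasurableSpace Ω] {P : Measure Ω} {E : ℤ × ℤ → Ω → ℝ}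

/-- One cell: all three families. `κ0` and `B` do not depend on anything. -/
lemma al_cells (h2 : DiagMinus) (h3 : DiagPlus) (h4 : LowerTail) (h5 : DyadicStmt) :
    ∃ κ > 0, ∃ B > 0, ∀ (Ω : Type) [MeasurableSpace Ω] (P : Measure Ω) (E : ℤ × ℤ → Ω → ℝ),
      Env P E → (∀ z ω, 0 ≤ E z ω) → ∀ (g : ℕ) (a N : ℤ), 0 ≤ a → a + g < N → ∀ α : ℝ, 0 < α →
      |α - 1 / 2| ≤ κ * (g : ℝ) ^ (-(1 : ℝ) / 3) → ∀ τ : ℝ, 0 ≤ τ →
      P.real (al_cell (al_Ym E α a) g τ) ≤ B * Real.exp (-τ / B) ∧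
      P.real (al_cell (al_Yp E α N a) g τ) ≤ B * Real.exp (-τ / B) ∧
      P.real (al_cell (al_Yx E α a) g τ) ≤ B * Real.exp (-τ / B) := by
  obtain ⟨κ1, hκ1, C1, hC1, H1⟩ := h2
  obtain ⟨κ2, hκ2, C2, hC2, H2⟩ := h3
  obtain ⟨κ3, hκ3, C3, hC3, H3⟩ := h4
  obtain ⟨B1, hB1, D1⟩ := h5 C1 hC1
  obtain ⟨B2, hB2, D2⟩ := h5 C2 hC2
  obtain ⟨B3, hB3, D3⟩ := h5 C3 hC3
  set B := max B1 (max B2 B3) with hB
  have l1 : B1 ≤ B := le_max_left _ _
  have l2 : B2 ≤ B := (le_max_left _ _).trans (le_max_right _ _)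
  have l3 : B3 ≤ B := (le_max_right _ _).trans (le_max_right _ _)
  have hB0 : 0 < B := lt_of_lt_of_le hB1 l1
  have key : ∀ b τ : ℝ, 0 < b → b ≤ B → 0 ≤ τ →
      b * Real.exp (-τ / b) ≤ B * Real.exp (-τ / B) := by
    intro b τ hb hbB hτ
    have e1 : -τ / b ≤ -τ / B := by
      rw [neg_div, neg_div, neg_le_neg_iff]
      exact div_le_div_of_nonneg_left hτ hb hbB
    exact mul_le_mul hbB (Real.exp_le_exp.2 e1) (Real.exp_pos _).le hB0.le
  refine ⟨min κ1 (min κ2 κ3), lt_min hκ1 (lt_min hκ2 hκ3), B, hB0, ?_⟩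
  intro Ω _ P E hE hE0 g a N ha hN α hα hwin τ hτ
  have hprob := hE.prob
  have hg0 : (0 : ℝ) ≤ (g : ℝ) ^ (-(1 : ℝ) / 3) := by positivity
  have w1 : |α - 1 / 2| ≤ κ1 * (g : ℝ) ^ (-(1 : ℝ) / 3) :=
    hwin.trans (mul_le_mul_of_nonneg_right (min_le_left _ _) hg0)
  have w2 : |α - 1 / 2| ≤ κ2 * (g : ℝ) ^ (-(1 : ℝ) / 3) :=
    hwin.trans (mul_le_mul_of_nonneg_right ((min_le_right _ _).trans (min_le_left _ _)) hg0)
  have w3 : |α - 1 / 2| ≤ κ3 * (g : ℝ) ^ (-(1 : ℝ) / 3) :=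
    hwin.trans (mul_le_mul_of_nonneg_right ((min_le_right _ _).trans (min_le_right _ _)) hg0)
  refine ⟨?_, ?_, ?_⟩
  · refine le_trans (D1 Ω P g (al_Ym E α a) ?_ ?_ τ hτ) (key B1 τ hB1 l1 hτ)
    · intro ω s t v _ _ _
      unfold al_Ym
      linarith
    · intro s t hst htg τ' hτ'
      have hd : (0 : ℝ) < (t : ℝ) - s := by
        have : (s : ℝ) < t := by exact_mod_cast hst
        linarith
      have hdg : (t : ℝ) - s ≤ g := by
        have h1 : (t : ℝ) ≤ g := by exact_mod_cast htg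
        have h2 : (0 : ℝ) ≤ s := Nat.cast_nonneg _
        linarith
      have e : (((a + t : ℤ) : ℝ) - ((a + s : ℤ) : ℝ)) = (t : ℝ) - s := by push_cast; ring
      have := H1 Ω P E hE 0 (a + s) (a + t) (by omega) (by omega) α
        (by rw [e]; exact al_win hκ1 hd hdg w1) τ' hτ'
      rw [e] at this
      refine le_trans (measureReal_mono ?_) this
      intro ω hω
      simp only [Set.mem_ofPred_eq, al_Ym] at hω ⊢
      linarith
  · refine le_trans (D2 Ω P g (al_Yp E α N a) ?_ ?_ τ hτ) (key B2 τ hB2 l2 hτ)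
    · intro ω s t v _ _ _
      unfold al_Yp
      linarith
    · intro s t hst htg τ' hτ'
      have hd : (0 : ℝ) < (t : ℝ) - s := by
        have : (s : ℝ) < t := by exact_mod_cast hst
        linarith
      have hdg : (t : ℝ) - s ≤ g := by
        have h1 : (t : ℝ) ≤ g := by exact_mod_cast htg
        have h2 : (0 : ℝ) ≤ s := Nat.cast_nonneg _
        linarith
      have e : (((a + t : ℤ) : ℝ) - ((a + s : ℤ) : ℝ)) = (t : ℝ) - s := by push_cast; ring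
      have := H2 Ω P E hE N (a + s) (a + t) (by omega) (by omega) α
        (by rw [e]; exact al_win hκ2 hd hdg w2) τ' hτ'
      rw [e] at this
      refine le_trans (measureReal_mono ?_) this
      intro ω hω
      simp only [Set.mem_ofPred_eq, al_Yp] at hω ⊢
      linarith
  · refine le_trans (D3 Ω P g (al_Yx E α a) ?_ ?_ τ hτ) (key B3 τ hB3 l3 hτ)
    · intro ω s t v hst htv _
      unfold al_Yx
      have hw : ∀ z, 0 ≤ wgt (cH α) E ω z := by
        refine wgt_nonneg (fun z => ?_) (fun z => hE0 z ω)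
        unfold cH
        split_ifs
        · exact (inv_pos.2 hα).le
        · exact zero_le_one
      have := al_super hw (s := a + s) (t := a + t) (v := a + v) (by omega) (by omega)
      linarith
    · intro s t hst htg τ' hτ'
      have hd : (0 : ℝ) < (t : ℝ) - s := by
        have : (s : ℝ) < t := by exact_mod_cast hst
        linarith
      have hdg : (t : ℝ) - s ≤ g := by
        have h1 : (t : ℝ) ≤ g := by exact_mod_cast htg
        have h2 : (0 : ℝ) ≤ s := Nat.cast_nonneg _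
        linarith
      have e : (((a + t : ℤ) : ℝ) - ((a + s : ℤ) : ℝ)) = (t : ℝ) - s := by push_cast; ring
      have := H3 Ω P E hE (a + s) (a + t) (by omega) α
        (by rw [e]; exact al_win hκ3 hd hdg w3) τ' hτ'
      rw [e] at this
      refine le_trans (measureReal_mono ?_) this
      intro ω hω
      simp only [Set.mem_ofPred_eq, al_Yx] at hω ⊢
      linarith

/-- Markov for one pair. -/
lemma al_markov [IsProbabilityMeasure P] {f : Ω → ℝ} (hf : Integrable f P) {x I : ℝ} (hx : 0 < x)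
    (hI : ∫ ω, |f ω| ∂P ≤ I) : P.real {ω | x ≤ |f ω|} ≤ I / x := by
  have := mul_meas_ge_le_integral_of_nonneg (μ := P) (f := fun ω => |f ω|)
    (Eventually.of_forall fun ω => abs_nonneg _) hf.abs x
  rw [le_div_iff₀ hx]
  linarith

end

/-! ## The grid -/

lemma al_incl {Ω : Type} [MeasurableSpace Ω] {E E' : ℤ × ℤ → Ω → ℝ} {ω : Ω} (hE' : ∀ z, 0 ≤ E' z ω) {g M : ℕ}
    (hg : 1 ≤ g) {α τ β : ℝ} (hα : 0 < α) (hβ : 0 ≤ β) (hτ : τ * (g : ℝ) ^ ((1 : ℝ) / 3) ≤ β)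
    (b1 : ∀ j, j < M → ω ∉ al_cell (al_Ym E α ((g : ℤ) * j)) g τ)
    (b2 : ∀ j, j < M → ω ∉ al_cell (al_Yp E α ((g : ℤ) * M + 1) ((g : ℤ) * j)) g τ)
    (b3 : ∀ j, j < M → ω ∉ al_cell (al_Yx E' α ((g : ℤ) * j)) g τ)
    (b4 : ∀ i j : ℕ, i < j → j ≤ M → |X (wgt (cH α) E ω) ((g : ℤ) * i) ((g : ℤ) * j)
      - X (wgt (cH α) E' ω) ((g : ℤ) * i) ((g : ℤ) * j)| ≤ β)
    {s t : ℤ} (h0 : 0 ≤ s) (h1 : s < t) (h2 : t ≤ (g : ℤ) * M) :
    X (wgt (cH α) E' ω) s t - X (wgt (cH α) E ω) s t ≤ 5 * β := by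
  have hg' : (0 : ℤ) < g := by exact_mod_cast hg
  -- the cells of s and of t
  obtain ⟨i, hi1, hi2⟩ : ∃ i : ℕ, (g : ℤ) * i ≤ s ∧ s < (g : ℤ) * i + g := by
    refine ⟨(s / g).toNat, ?_, ?_⟩
    · rw [Int.toNat_of_nonneg (Int.ediv_nonneg h0 hg'.le)]
      exact Int.mul_ediv_self_le hg'.ne'
    · rw [Int.toNat_of_nonneg (Int.ediv_nonneg h0 hg'.le)]
      exact Int.lt_mul_ediv_self_add hg'
  obtain ⟨j, hj1, hj2⟩ : ∃ j : ℕ, (g : ℤ) * j ≤ t - 1 ∧ t - 1 < (g : ℤ) * j + g := by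
    have h3 : 0 ≤ t - 1 := by omega
    refine ⟨((t - 1) / g).toNat, ?_, ?_⟩
    · rw [Int.toNat_of_nonneg (Int.ediv_nonneg h3 hg'.le)]
      exact Int.mul_ediv_self_le hg'.ne'
    · rw [Int.toNat_of_nonneg (Int.ediv_nonneg h3 hg'.le)]
      exact Int.lt_mul_ediv_self_add hg'
  have hiM : i < M := by
    have : (g : ℤ) * i < (g : ℤ) * M := by omega
    exact_mod_cast lt_of_mul_lt_mul_left this hg'.le
  have hjM : j < M := by
    have : (g : ℤ) * j < (g : ℤ) * M := by omega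
    exact_mod_cast lt_of_mul_lt_mul_left this hg'.le
  have hij : i < j + 1 := by
    have : (g : ℤ) * i < (g : ℤ) * (j + 1) := by
      have e : (g : ℤ) * (j + 1) = (g : ℤ) * j + g := by ring
      omega
    have := lt_of_mul_lt_mul_left this hg'.le
    omega
  have hvM : (g : ℤ) * j + g ≤ (g : ℤ) * M := by
    have e : (g : ℤ) * j + g = (g : ℤ) * ((j : ℤ) + 1) := by ring
    rw [e]
    exact mul_le_mul_of_nonneg_left (by omega) hg'.le
  have hw' : ∀ z, 0 ≤ wgt (cH α) E' ω z := by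
    refine wgt_nonneg (fun z => ?_) hE'
    unfold cH
    split_ifs
    · exact (inv_pos.2 hα).le
    · exact zero_le_one
  have hm : ∀ z : ℤ × ℤ, 1 ≤ z.2 →
      wgt (cMinus 0 (1 - α) α) E ω z = wgt (cH α) E ω z := by
    intro z hz
    unfold wgt cMinus cH
    have e1 : ¬ z = (0, 0) := by
      rintro rfl; simp at hz
    have e2 : ¬ z.2 = 0 := by omega
    rw [if_neg e1, if_neg e2]
  have hp : ∀ z : ℤ × ℤ, z.1 < (g : ℤ) * M + 1 →
      wgt (cPlus ((g : ℤ) * M + 1) (1 - α) α) E ω z = wgt (cH α) E ω z := by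
    intro z hz
    unfold wgt cPlus cH
    have e1 : ¬ z = ((g : ℤ) * M + 1, (g : ℤ) * M + 1) := by
      rintro rfl; simp at hz
    have e2 : ¬ z.1 = (g : ℤ) * M + 1 := by omega
    rw [if_neg e1, if_neg e2]
  have out : ∀ (Y : ℕ → ℕ → Ω → ℝ), ω ∉ al_cell Y g τ → ∀ p q : ℕ, p < q → q ≤ g → Y p q ω ≤ β := by
    intro Y hY p q hpq hqg
    by_contra hcon
    push Not at hcon
    exact hY ⟨p, q, hpq, hqg, hτ.trans hcon.le⟩
  have hv : (g : ℤ) * ((j + 1 : ℕ) : ℤ) = (g : ℤ) * j + g := by push_cast; ring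
  refine al_det (w := wgt (cH α) E ω) (w' := wgt (cH α) E' ω)
    (wm := wgt (cMinus 0 (1 - α) α) E ω) (wp := wgt (cPlus ((g : ℤ) * M + 1) (1 - α) α) E ω)
    (a := (g : ℤ) * i) (s := s) (t := t) (v := (g : ℤ) * j + g) (N := (g : ℤ) * M + 1)
    (by positivity) hi1 h1 (by omega) (by omega) hm hp hw' hβ ?_ ?_ ?_ ?_ ?_
  · have := b4 i (j + 1) hij (by omega)
    rw [hv, abs_sub_comm] at this
    exact (le_abs_self _).trans this
  · intro htv
    have h3 := out _ (b1 j hjM) (t - (g : ℤ) * j).toNat g (by omega) le_rfl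
    unfold al_Ym at h3
    have e1 : (((t - (g : ℤ) * j).toNat : ℕ) : ℤ) = t - (g : ℤ) * j := Int.toNat_of_nonneg (by omega)
    have e2 : (((t - (g : ℤ) * j).toNat : ℕ) : ℝ) = (t : ℝ) - (g : ℝ) * j := by
      have : ((((t - (g : ℤ) * j).toNat : ℕ) : ℤ) : ℝ) = ((t - (g : ℤ) * j : ℤ) : ℝ) := by rw [e1]
      push_cast at this
      exact this
    rw [e1, e2, show (g : ℤ) * j + (t - (g : ℤ) * j) = t by ring] at h3
    push_cast
    linarith
  · intro has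
    have h3 := out _ (b2 i hiM) 0 (s - (g : ℤ) * i).toNat (by omega) (by omega)
    unfold al_Yp at h3
    have e1 : (((s - (g : ℤ) * i).toNat : ℕ) : ℤ) = s - (g : ℤ) * i := Int.toNat_of_nonneg (by omega)
    have e2 : (((s - (g : ℤ) * i).toNat : ℕ) : ℝ) = (s : ℝ) - (g : ℝ) * i := by
      have : ((((s - (g : ℤ) * i).toNat : ℕ) : ℤ) : ℝ) = ((s - (g : ℤ) * i : ℤ) : ℝ) := by rw [e1]
      push_cast at this
      exact this
    rw [e1, e2, show (g : ℤ) * i + (s - (g : ℤ) * i) + 1 = s + 1 by ring] at h3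
    simp only [Nat.cast_zero, add_zero, sub_zero] at h3
    push_cast
    linarith
  · intro has
    have h3 := out _ (b3 i hiM) 0 (s - (g : ℤ) * i).toNat (by omega) (by omega)
    unfold al_Yx at h3
    have e1 : (((s - (g : ℤ) * i).toNat : ℕ) : ℤ) = s - (g : ℤ) * i := Int.toNat_of_nonneg (by omega)
    have e2 : (((s - (g : ℤ) * i).toNat : ℕ) : ℝ) = (s : ℝ) - (g : ℝ) * i := by
      have : ((((s - (g : ℤ) * i).toNat : ℕ) : ℤ) : ℝ) = ((s - (g : ℤ) * i : ℤ) : ℝ) := by rw [e1]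
      push_cast at this
      exact this
    rw [e1, e2, show (g : ℤ) * i + (s - (g : ℤ) * i) = s by ring] at h3
    simp only [Nat.cast_zero, add_zero, sub_zero] at h3
    push_cast
    linarith
  · intro htv
    have h3 := out _ (b3 j hjM) (t - (g : ℤ) * j).toNat g (by omega) le_rfl
    unfold al_Yx at h3
    have e1 : (((t - (g : ℤ) * j).toNat : ℕ) : ℤ) = t - (g : ℤ) * j := Int.toNat_of_nonneg (by omega)
    have e2 : (((t - (g : ℤ) * j).toNat : ℕ) : ℝ) = (t : ℝ) - (g : ℝ) * j := by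
      have : ((((t - (g : ℤ) * j).toNat : ℕ) : ℤ) : ℝ) = ((t - (g : ℤ) * j : ℤ) : ℝ) := by rw [e1]
      push_cast at this
      exact this
    rw [e1, e2, show (g : ℤ) * j + (t - (g : ℤ) * j) = t by ring] at h3
    push_cast
    linarith

/-- Choice of the number of cells. -/
lemma al_choose {c B δ K : ℝ} (hc : 0 < c) (hB : 0 < B) (hδ : 0 < δ) :
    ∃ k : ℕ, 1 ≤ k ∧ K ≤ k ∧ ∀ A : ℝ, A = c → A * (k : ℝ) ^ 3 * Real.exp (-(k : ℝ) / B) ≤ δ := by
  have h1 := Real.tendsto_pow_mul_exp_neg_atTop_nhds_zero 3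
  have h2 : Tendsto (fun k : ℕ => (k : ℝ) / B) atTop atTop :=
    Tendsto.atTop_div_const hB tendsto_natCast_atTop_atTop
  have h3 : Tendsto (fun k : ℕ => c * B ^ 3 * (((k : ℝ) / B) ^ 3 * Real.exp (-((k : ℝ) / B)))) atTop (𝓝 0) := by
    have := (h1.comp h2).const_mul (c * B ^ 3)
    rw [mul_zero] at this
    exact this
  have h4 := (h3.eventually (gt_mem_nhds hδ)).and ((eventually_ge_atTop 1).and
    (tendsto_natCast_atTop_atTop.eventually (eventually_ge_atTop K)))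
  obtain ⟨k, hk1, hk2, hk3⟩ := h4.exists
  refine ⟨k, hk2, hk3, ?_⟩
  rintro A rfl
  refine le_trans (le_of_eq ?_) hk1.le
  rw [div_pow, neg_div]
  field_simp

/-! ## One side -/

lemma al_one (h2 : DiagMinus) (h3 : DiagPlus) (h4 : LowerTail) (h5 : DyadicStmt)
    {Ω : Type} [MeasurableSpace Ω] {P : Measure Ω} {E E' : ℤ × ℤ → Ω → ℝ} (hE : Env P E)
    (hE' : Env P E') (hn : ∀ z ω, 0 ≤ E z ω) (hn' : ∀ z ω, 0 ≤ E' z ω)
    (hpair : ∀ κ η : ℝ, 0 < κ → 0 < η → ∃ N : ℕ, 1 ≤ N ∧ ∃ n0 : ℕ, ∀ s t : ℤ, (n0 : ℤ) ≤ t - s →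
      s < t → (N : ℤ) ∣ t - s → ∀ α : ℝ, |α - 1 / 2| ≤ κ * ((t : ℝ) - s) ^ (-(1 : ℝ) / 3) →
      ∫ ω, |X (wgt (cH α) E ω) s t - X (wgt (cH α) E' ω) s t| ∂P
        ≤ η * ((t : ℝ) - s) ^ ((1 : ℝ) / 3))
    (κ : ℝ) (T : ℕ) (hT : 1 ≤ T) (ε δ : ℝ) (hε : 0 < ε) (hδ : 0 < δ) :
    ∃ n1 : ℕ, ∀ n : ℕ, n1 ≤ n → P.real {ω | ∃ s t : ℤ, 0 ≤ s ∧ s < t ∧ t ≤ T * n ∧
      ε * (n : ℝ) ^ ((1 : ℝ) / 3) <
      X (wgt (cH (1 / 2 - κ * (n : ℝ) ^ (-(1 : ℝ) / 3))) E' ω) s t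
        - X (wgt (cH (1 / 2 - κ * (n : ℝ) ^ (-(1 : ℝ) / 3))) E ω) s t} ≤ δ := by
  have hprob := hE.prob
  obtain ⟨κ0, hκ0, B, hB, hcell⟩ := al_cells h2 h3 h4 h5
  set ε1 : ℝ := ε / 6 with hε1
  have hε1p : 0 < ε1 := by positivity
  have hT' : (1 : ℝ) ≤ T := by exact_mod_cast hT
  obtain ⟨k, hk1, hkK, hkB⟩ := al_choose (c := 6 * T * B) (B := B / ε1) (δ := δ / 2)
    (K := |κ| / κ0) (by positivity) (by positivity) (by positivity)
  have hkB' := hkB _ rfl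
  have hkr : (1 : ℝ) ≤ k := by exact_mod_cast hk1
  have hkκ : |κ| ≤ κ0 * k := by
    rw [div_le_iff₀ hκ0] at hkK
    linarith
  set M : ℕ := 2 * T * k ^ 3 with hM
  have hMr : (M : ℝ) = 2 * T * (k : ℝ) ^ 3 := by rw [hM]; push_cast; ring
  set η : ℝ := δ * ε1 / (4 * T * ((M : ℝ) + 1) ^ 2) with hη
  have hηp : 0 < η := by positivity
  set κ' : ℝ := 2 * T * |κ| + 1 with hκ'
  have hκ'p : 0 < κ' := by positivity
  obtain ⟨N, hN, n0, hpr⟩ := hpair κ' η hκ'p hηp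
  -- smallness of the perturbation
  have hsmall : ∀ᶠ n : ℕ in atTop, |κ| * (n : ℝ) ^ (-(1 : ℝ) / 3) < 1 / 2 := by
    have h1 : Tendsto (fun n : ℕ => |κ| * (n : ℝ) ^ (-((1 : ℝ) / 3))) atTop (𝓝 0) := by
      have := ((tendsto_rpow_neg_atTop (y := (1 : ℝ) / 3) (by norm_num)).comp
        tendsto_natCast_atTop_atTop).const_mul |κ|
      rw [mul_zero] at this
      exact this
    have h2 := h1.eventually (gt_mem_nhds (by norm_num : (0 : ℝ) < 1 / 2))
    refine h2.mono fun n hn => ?_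
    rw [neg_div]; exact hn
  rw [eventually_atTop] at hsmall
  obtain ⟨n2, hn2⟩ := hsmall
  refine ⟨max n2 (2 * k ^ 3 * N + 2 * k ^ 3 * n0 + 1), fun n hn1 => ?_⟩
  have hnn2 : n2 ≤ n := (le_max_left _ _).trans hn1
  have hnk : 2 * k ^ 3 * N + 2 * k ^ 3 * n0 + 1 ≤ n := (le_max_right _ _).trans hn1
  have hnpos : 1 ≤ n := by omega
  have hnr : (1 : ℝ) ≤ n := by exact_mod_cast hnpos
  -- the mesh
  set W : ℕ := 2 * k ^ 3 * N with hW
  have hk3 : 1 ≤ k ^ 3 := Nat.one_le_pow _ _ hk1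
  have hWpos : 0 < W := by positivity
  set g : ℕ := N * (n / W + 1) with hg
  have hg1 : 1 ≤ g := by
    rw [hg]; nlinarith [Nat.zero_le (n / W)]
  have hgW : 2 * k ^ 3 * g = W * (n / W) + W := by rw [hg, hW]; ring
  have hdm := Nat.div_add_mod n W
  have hml := Nat.mod_lt n hWpos
  have hga : n ≤ 2 * k ^ 3 * g := by omega
  have hgb : 2 * k ^ 3 * g ≤ 2 * n := by omega
  have hgn0 : n0 ≤ g := by
    by_contra hcon
    push Not at hcon
    have : 2 * k ^ 3 * g < 2 * k ^ 3 * n0 := by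
      apply Nat.mul_lt_mul_of_pos_left hcon (by positivity)
    omega
  have hgr : (1 : ℝ) ≤ g := by exact_mod_cast hg1
  have hgbr : (k : ℝ) ^ 3 * g ≤ n := by
    have h1 : k ^ 3 * g ≤ n := by nlinarith
    exact_mod_cast h1
  set α : ℝ := 1 / 2 - κ * (n : ℝ) ^ (-(1 : ℝ) / 3) with hα
  have habs : |α - 1 / 2| = |κ| * (n : ℝ) ^ (-(1 : ℝ) / 3) := by
    rw [hα, show (1 : ℝ) / 2 - κ * (n : ℝ) ^ (-(1 : ℝ) / 3) - 1 / 2
      = -(κ * (n : ℝ) ^ (-(1 : ℝ) / 3)) by ring, abs_neg, abs_mul,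
      abs_of_nonneg (by positivity : (0 : ℝ) ≤ (n : ℝ) ^ (-(1 : ℝ) / 3))]
  have hαpos : 0 < α := by
    have h1 := hn2 n hnn2
    rw [← habs] at h1
    have := (abs_lt.1 h1).1
    linarith
  -- powers
  have hn13 : (0 : ℝ) < (n : ℝ) ^ ((1 : ℝ) / 3) := by positivity
  have hk13 : ((k : ℝ) ^ 3) ^ ((1 : ℝ) / 3) = k := by
    rw [← Real.rpow_natCast, ← Real.rpow_mul (by positivity)]
    norm_num
  have hg13 : k * (g : ℝ) ^ ((1 : ℝ) / 3) ≤ (n : ℝ) ^ ((1 : ℝ) / 3) := by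
    have h1 : ((k : ℝ) ^ 3 * g) ^ ((1 : ℝ) / 3) ≤ (n : ℝ) ^ ((1 : ℝ) / 3) :=
      Real.rpow_le_rpow (by positivity) hgbr (by norm_num)
    rwa [Real.mul_rpow (by positivity) (by positivity), hk13] at h1
  have hkm13 : ((k : ℝ) ^ 3) ^ (-(1 : ℝ) / 3) = (k : ℝ)⁻¹ := by
    rw [neg_div, Real.rpow_neg (by positivity), hk13]
  have hwin : |α - 1 / 2| ≤ κ0 * (g : ℝ) ^ (-(1 : ℝ) / 3) := by
    rw [habs]
    have h1 : (n : ℝ) ^ (-(1 : ℝ) / 3) ≤ ((k : ℝ) ^ 3 * g) ^ (-(1 : ℝ) / 3) :=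
      Real.rpow_le_rpow_of_nonpos (by positivity) hgbr (by norm_num)
    rw [Real.mul_rpow (by positivity) (by positivity), hkm13] at h1
    have h2 : |κ| * (n : ℝ) ^ (-(1 : ℝ) / 3) ≤ (κ0 * k) * ((k : ℝ)⁻¹ * (g : ℝ) ^ (-(1 : ℝ) / 3)) :=
      mul_le_mul hkκ h1 (by positivity) (by positivity)
    refine h2.trans (le_of_eq ?_)
    field_simp
  have hMg : (M : ℝ) * g ≤ 2 * T * n := by
    rw [hMr]
    nlinarith [mul_le_mul_of_nonneg_left hgbr (by positivity : (0 : ℝ) ≤ 2 * T)]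
  have h2T : (1 : ℝ) ≤ 2 * T := by linarith
  -- the pairs
  set β : ℝ := ε1 * (n : ℝ) ^ ((1 : ℝ) / 3) with hβ
  have hβp : 0 < β := by positivity
  set pr : ℕ × ℕ → Set Ω := fun p => {ω | p.1 < p.2 ∧ p.2 ≤ M ∧
    β ≤ |X (wgt (cH α) E ω) ((g : ℤ) * p.1) ((g : ℤ) * p.2)
      - X (wgt (cH α) E' ω) ((g : ℤ) * p.1) ((g : ℤ) * p.2)|} with hprd
  have hprp : ∀ p : ℕ × ℕ, P.real (pr p) ≤ η * (2 * T) / ε1 := by
    intro p
    by_cases hp : p.1 < p.2 ∧ p.2 ≤ M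
    · obtain ⟨hp1, hp2⟩ := hp
      have hsub : pr p ⊆ {ω | β ≤ |X (wgt (cH α) E ω) ((g : ℤ) * p.1) ((g : ℤ) * p.2)
          - X (wgt (cH α) E' ω) ((g : ℤ) * p.1) ((g : ℤ) * p.2)|} := fun ω hω => hω.2.2
      refine (measureReal_mono hsub).trans ?_
      set d : ℝ := (((g : ℤ) * p.2 : ℤ) : ℝ) - (((g : ℤ) * p.1 : ℤ) : ℝ) with hd
      have hd' : d = g * ((p.2 : ℝ) - p.1) := by rw [hd]; push_cast; ring
      have hp12 : (1 : ℝ) ≤ (p.2 : ℝ) - p.1 := by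
        have : (p.1 : ℝ) + 1 ≤ p.2 := by exact_mod_cast hp1
        linarith
      have hd1 : 1 ≤ d := by rw [hd']; nlinarith
      have hd2 : d ≤ 2 * T * n := by
        have h6 : (p.2 : ℝ) ≤ M := by exact_mod_cast hp2
        have h7 : (0 : ℝ) ≤ p.1 := Nat.cast_nonneg _
        rw [hd']
        nlinarith
      have hzz : ((g : ℤ) * p.2 - (g : ℤ) * p.1 : ℤ) = g * ((p.2 : ℤ) - p.1) := by ring
      have hzz1 : (1 : ℤ) ≤ (p.2 : ℤ) - p.1 := by omega
      have hgz : (1 : ℤ) ≤ (g : ℤ) := by exact_mod_cast hg1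
      have hI := hpr ((g : ℤ) * p.1) ((g : ℤ) * p.2) (by
          rw [hzz]
          have : (n0 : ℤ) ≤ g := by exact_mod_cast hgn0
          nlinarith) (by nlinarith) (by
          rw [hzz, hg]
          exact ⟨((n / W + 1 : ℕ) : ℤ) * ((p.2 : ℤ) - p.1), by push_cast; ring⟩) α (by
          rw [← hd, habs]
          have h6 : (2 * T * (n : ℝ)) ^ (-(1 : ℝ) / 3) ≤ d ^ (-(1 : ℝ) / 3) :=
            Real.rpow_le_rpow_of_nonpos (by linarith) hd2 (by norm_num)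
          rw [Real.mul_rpow (by positivity) (by positivity)] at h6
          have h7 : (2 * (T : ℝ)) ^ (-1 : ℝ) ≤ (2 * (T : ℝ)) ^ (-(1 : ℝ) / 3) :=
            Real.rpow_le_rpow_of_exponent_le h2T (by norm_num)
          rw [Real.rpow_neg_one] at h7
          have h8 : (2 * (T : ℝ))⁻¹ * (n : ℝ) ^ (-(1 : ℝ) / 3) ≤ d ^ (-(1 : ℝ) / 3) :=
            (mul_le_mul_of_nonneg_right h7 (by positivity)).trans h6
          have h9 : 2 * T * |κ| * ((2 * (T : ℝ))⁻¹ * (n : ℝ) ^ (-(1 : ℝ) / 3))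
              = |κ| * (n : ℝ) ^ (-(1 : ℝ) / 3) := by
            field_simp
          have h10 : 2 * T * |κ| * ((2 * (T : ℝ))⁻¹ * (n : ℝ) ^ (-(1 : ℝ) / 3))
              ≤ 2 * T * |κ| * d ^ (-(1 : ℝ) / 3) := mul_le_mul_of_nonneg_left h8 (by positivity)
          have h11 : (0 : ℝ) ≤ d ^ (-(1 : ℝ) / 3) := by positivity
          rw [hκ']
          nlinarith)
      rw [← hd] at hI
      have hint : Integrable (fun ω => X (wgt (cH α) E ω) ((g : ℤ) * p.1) ((g : ℤ) * p.2)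
          - X (wgt (cH α) E' ω) ((g : ℤ) * p.1) ((g : ℤ) * p.2)) P :=
        (al_L_int hE _ _ _ _).sub (al_L_int hE' _ _ _ _)
      refine (al_markov hint hβp hI).trans ?_
      rw [hβ, div_le_div_iff₀ (by positivity) hε1p]
      have h6 : d ^ ((1 : ℝ) / 3) ≤ (2 * T * (n : ℝ)) ^ ((1 : ℝ) / 3) :=
        Real.rpow_le_rpow (by linarith) hd2 (by norm_num)
      rw [Real.mul_rpow (by positivity) (by positivity)] at h6
      have h7 : (2 * (T : ℝ)) ^ ((1 : ℝ) / 3) ≤ (2 * (T : ℝ)) ^ (1 : ℝ) :=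
        Real.rpow_le_rpow_of_exponent_le h2T (by norm_num)
      rw [Real.rpow_one] at h7
      have h8 : d ^ ((1 : ℝ) / 3) ≤ 2 * T * (n : ℝ) ^ ((1 : ℝ) / 3) :=
        h6.trans (mul_le_mul_of_nonneg_right h7 (by positivity))
      have h9 := mul_le_mul_of_nonneg_left h8 (by positivity : (0 : ℝ) ≤ η * ε1)
      nlinarith
    · have : pr p = ∅ := by
        ext ω
        simp only [hprd, Set.mem_ofPred_eq, Set.mem_empty_iff_false, iff_false]
        rintro ⟨h6, h7, _⟩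
        exact hp ⟨h6, h7⟩
      rw [this, measureReal_empty]
      positivity
  -- the cells
  set τ : ℝ := ε1 * k with hτ
  have hτg : τ * (g : ℝ) ^ ((1 : ℝ) / 3) ≤ β := by
    rw [hτ, hβ, mul_assoc]
    exact mul_le_mul_of_nonneg_left hg13 hε1p.le
  set ce : ℕ → Set Ω := fun j => al_cell (al_Ym E α ((g : ℤ) * j)) g τ ∪
    (al_cell (al_Yp E α ((g : ℤ) * M + 1) ((g : ℤ) * j)) g τ ∪
      al_cell (al_Yx E' α ((g : ℤ) * j)) g τ) with hce
  have hcep : ∀ j ∈ Finset.range M, P.real (ce j) ≤ 3 * (B * Real.exp (-τ / B)) := by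
    intro j hj
    rw [Finset.mem_range] at hj
    have hjM : (g : ℤ) * j + g ≤ (g : ℤ) * M := by
      have e : (g : ℤ) * j + g = (g : ℤ) * ((j : ℤ) + 1) := by ring
      rw [e]
      exact mul_le_mul_of_nonneg_left (by omega) (by positivity)
    have c1 := hcell Ω P E hE hn g ((g : ℤ) * j) ((g : ℤ) * M + 1) (by positivity) (by omega) α
      hαpos hwin τ (by positivity)
    have c2 := hcell Ω P E' hE' hn' g ((g : ℤ) * j) ((g : ℤ) * M + 1) (by positivity) (by omega) α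
      hαpos hwin τ (by positivity)
    have u1 := measureReal_union_le (μ := P) (al_cell (al_Ym E α ((g : ℤ) * j)) g τ)
      (al_cell (al_Yp E α ((g : ℤ) * M + 1) ((g : ℤ) * j)) g τ ∪
        al_cell (al_Yx E' α ((g : ℤ) * j)) g τ)
    have u2 := measureReal_union_le (μ := P)
      (al_cell (al_Yp E α ((g : ℤ) * M + 1) ((g : ℤ) * j)) g τ)
      (al_cell (al_Yx E' α ((g : ℤ) * j)) g τ)
    linarith [c1.1, c1.2.1, c2.2.2]
  -- inclusion
  have hincl : {ω | ∃ s t : ℤ, 0 ≤ s ∧ s < t ∧ t ≤ T * n ∧ ε * (n : ℝ) ^ ((1 : ℝ) / 3) <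
      X (wgt (cH α) E' ω) s t - X (wgt (cH α) E ω) s t} ⊆
      (⋃ j ∈ Finset.range M, ce j) ∪
        (⋃ p ∈ Finset.range (M + 1) ×ˢ Finset.range (M + 1), pr p) := by
    rintro ω ⟨s, t, hs, hst, htn, hgt⟩
    by_contra hcon
    rw [Set.mem_union, not_or] at hcon
    obtain ⟨g1, g2⟩ := hcon
    simp only [Set.mem_iUnion, not_exists] at g1 g2
    have hcc : ∀ j, j < M → ω ∉ ce j := fun j hj h => g1 j (Finset.mem_range.2 hj) h
    have htM : t ≤ (g : ℤ) * M := by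
      have h6 : T * n ≤ g * M := by
        rw [hM]
        nlinarith
      have h7 : (T : ℤ) * n ≤ (g : ℤ) * M := by exact_mod_cast h6
      omega
    have := al_incl (E := E) (E' := E') (ω := ω) (fun z => hn' z ω) (g := g) (M := M) hg1
      (α := α) (τ := τ) (β := β) hαpos hβp.le hτg
      (fun j hj h => hcc j hj (Or.inl h)) (fun j hj h => hcc j hj (Or.inr (Or.inl h)))
      (fun j hj h => hcc j hj (Or.inr (Or.inr h)))
      (fun i j hij hj => by
        by_contra h6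
        push Not at h6
        exact g2 (i, j) (Finset.mem_product.2 ⟨Finset.mem_range.2 (by omega),
          Finset.mem_range.2 (by omega)⟩) ⟨hij, hj, h6.le⟩)
      hs hst htM
    have h8 : 5 * β < ε * (n : ℝ) ^ ((1 : ℝ) / 3) := by
      rw [hβ, hε1]
      nlinarith
    linarith
  refine (measureReal_mono hincl).trans ?_
  refine (measureReal_union_le _ _).trans ?_
  have s1 : P.real (⋃ j ∈ Finset.range M, ce j) ≤ δ / 2 := by
    refine (measureReal_biUnion_finset_le _ _).trans ?_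
    refine (Finset.sum_le_sum hcep).trans ?_
    rw [Finset.sum_const, Finset.card_range, nsmul_eq_mul, hMr]
    refine le_trans (le_of_eq ?_) hkB'
    have e : -τ / B = -(k : ℝ) / (B / ε1) := by
      rw [hτ]; field_simp
    rw [e]; ring
  have s2 : P.real (⋃ p ∈ Finset.range (M + 1) ×ˢ Finset.range (M + 1), pr p) ≤ δ / 2 := by
    refine (measureReal_biUnion_finset_le _ _).trans ?_
    refine (Finset.sum_le_sum (fun p _ => hprp p)).trans ?_
    rw [Finset.sum_const, Finset.card_product, Finset.card_range, nsmul_eq_mul]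
    refine le_of_eq ?_
    rw [hη]
    push_cast
    field_simp
    ring
  linarith

/-! ## The theorem -/

theorem t_AllPairs (h1 : PairResample) (h2 : DiagMinus) (h3 : DiagPlus) (h4 : LowerTail)
    (h5 : DyadicStmt) : AllPairs := by
  intro κ T hT ε hε Ω _ P E hE
  have hprob := hE.prob
  set E1 : ℤ × ℤ → Ω → ℝ := fun z ω => |E z ω| with hE1d
  have hE1 : Env P E1 := al_abs hE
  set E2 : ℤ × ℤ → Ω → ℝ := fun z => E1 (al_sw z) with hE2d
  have hE2 : Env P E2 := hE1.comp al_sw_inj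
  have n1 : ∀ z ω, 0 ≤ E1 z ω := fun z ω => abs_nonneg _
  have n2 : ∀ z ω, 0 ≤ E2 z ω := fun z ω => abs_nonneg _
  have pair12 : ∀ κ η : ℝ, 0 < κ → 0 < η → ∃ N : ℕ, 1 ≤ N ∧ ∃ n0 : ℕ, ∀ s t : ℤ,
      (n0 : ℤ) ≤ t - s → s < t → (N : ℤ) ∣ t - s → ∀ α : ℝ,
      |α - 1 / 2| ≤ κ * ((t : ℝ) - s) ^ (-(1 : ℝ) / 3) →
      ∫ ω, |X (wgt (cH α) E1 ω) s t - X (wgt (cH α) E2 ω) s t| ∂P
        ≤ η * ((t : ℝ) - s) ^ ((1 : ℝ) / 3) := by
    intro κ' η hκ' hη
    obtain ⟨N, hN, n0, H⟩ := h1 κ' η hκ' hη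
    refine ⟨N, hN, n0, fun s t a1 a2 a3 α a4 => ?_⟩
    have := H Ω P E1 hE1 s t a1 a2 a3 α a4
    simp only [al_X_resamp] at this
    exact this
  have pair21 : ∀ κ η : ℝ, 0 < κ → 0 < η → ∃ N : ℕ, 1 ≤ N ∧ ∃ n0 : ℕ, ∀ s t : ℤ,
      (n0 : ℤ) ≤ t - s → s < t → (N : ℤ) ∣ t - s → ∀ α : ℝ,
      |α - 1 / 2| ≤ κ * ((t : ℝ) - s) ^ (-(1 : ℝ) / 3) →
      ∫ ω, |X (wgt (cH α) E2 ω) s t - X (wgt (cH α) E1 ω) s t| ∂P
        ≤ η * ((t : ℝ) - s) ^ ((1 : ℝ) / 3) := by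
    intro κ' η hκ' hη
    obtain ⟨N, hN, n0, H⟩ := pair12 κ' η hκ' hη
    refine ⟨N, hN, n0, fun s t a1 a2 a3 α a4 => ?_⟩
    have := H s t a1 a2 a3 α a4
    simp only [abs_sub_comm (X (wgt (cH α) E2 _) s t)]
    exact this
  rw [Metric.tendsto_atTop]
  intro δ hδ
  obtain ⟨m1, H1⟩ := al_one h2 h3 h4 h5 hE1 hE2 n1 n2 pair12 κ T hT ε (δ / 3) hε (by positivity)
  obtain ⟨m2, H2⟩ := al_one h2 h3 h4 h5 hE2 hE1 n2 n1 pair21 κ T hT ε (δ / 3) hε (by positivity)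
  refine ⟨max m1 m2, fun n hn => ?_⟩
  have b1 := H1 n ((le_max_left _ _).trans hn)
  have b2 := H2 n ((le_max_right _ _).trans hn)
  rw [Real.dist_eq, sub_zero, abs_of_nonneg measureReal_nonneg]
  set α : ℝ := 1 / 2 - κ * (n : ℝ) ^ (-(1 : ℝ) / 3) with hα
  set S1 : Set Ω := {ω | ∃ s t : ℤ, 0 ≤ s ∧ s < t ∧ t ≤ T * n ∧ ε * (n : ℝ) ^ ((1 : ℝ) / 3) <
      X (wgt (cH α) E2 ω) s t - X (wgt (cH α) E1 ω) s t} with hS1
  set S2 : Set Ω := {ω | ∃ s t : ℤ, 0 ≤ s ∧ s < t ∧ t ≤ T * n ∧ ε * (n : ℝ) ^ ((1 : ℝ) / 3) <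
      X (wgt (cH α) E1 ω) s t - X (wgt (cH α) E2 ω) s t} with hS2
  have hae : {ω | ∃ s t : ℤ, 0 ≤ s ∧ s < t ∧ t ≤ T * n ∧ ε * (n : ℝ) ^ ((1 : ℝ) / 3) <
      |X (wgt (cH α) E ω) s t - X (wgt (cH α) (resamp E) ω) s t|} ≤ᵐ[P] (S1 ∪ S2 : Set Ω) := by
    filter_upwards [hE.nonneg] with ω hω hmem
    obtain ⟨s, t, a1, a2, a3, a4⟩ := hmem
    have e1 : X (wgt (cH α) E ω) s t = X (wgt (cH α) E1 ω) s t := by
      unfold X
      refine L_congr fun z _ _ => ?_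
      unfold wgt
      rw [hE1d]
      simp only
      rw [abs_of_nonneg (hω z)]
    have e2 : X (wgt (cH α) (resamp E) ω) s t = X (wgt (cH α) E2 ω) s t := by
      rw [al_X_resamp]
      unfold X
      refine L_congr fun z _ _ => ?_
      unfold wgt
      rw [hE2d, hE1d]
      simp only
      rw [abs_of_nonneg (hω _)]
    rw [e1, e2, lt_abs] at a4
    rcases a4 with a4 | a4
    · exact Or.inr ⟨s, t, a1, a2, a3, a4⟩
    · exact Or.inl ⟨s, t, a1, a2, a3, by linarith⟩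
  have h6 : P.real {ω | ∃ s t : ℤ, 0 ≤ s ∧ s < t ∧ t ≤ T * n ∧ ε * (n : ℝ) ^ ((1 : ℝ) / 3) <
      |X (wgt (cH α) E ω) s t - X (wgt (cH α) (resamp E) ω) s t|} ≤ P.real (S1 ∪ S2) :=
    ENNReal.toReal_mono (measure_ne_top _ _) (measure_mono_ae hae)
  have h7 := measureReal_union_le (μ := P) S1 S2
  linarith

end Pool.Agent.H374
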