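import Pool.Agent.H374.Defs

/-!
# Deterministic facts on up-right paths in absolute time
-/

set_option autoImplicit false
open MeasureTheory ProbabilityTheory

namespace Pool.Agent.H374

variable {D D' : Set (ℤ × ℤ)} {w w' : ℤ × ℤ → ℝ} {u v z u' v' z' : ℤ × ℤ} {x y : ℤ → ℤ}
  {s t r : ℤ}

/-! ## Paths -/

lemma IsPath.mono (hx : IsPath x) (h : s ≤ t) : x s ≤ x t := by
  induction t, h using Int.leInduction with
  | base => exact le_rfl
  | succ k _ ih => rcases hx k with h | h <;> omega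

lemma IsPath.le_add (hx : IsPath x) (h : s ≤ t) : x t ≤ x s + (t - s) := by
  induction t, h using Int.leInduction with
  | base => simp
  | succ k _ ih => rcases hx k with h | h <;> omega

@[simp] lemma vert_fst (x : ℤ → ℤ) (k : ℤ) : (vert x k).1 = x k := rfl
@[simp] lemma vert_snd (x : ℤ → ℤ) (k : ℤ) : (vert x k).2 = k - x k := rfl

lemma p_mem (hx : x ∈ Path D u v) {k : ℤ} (h1 : tm u ≤ k) (h2 : k ≤ tm v) : vert x k ∈ D :=
  hx.2.2.2 k h1 h2

lemma p_fst_ge (hx : x ∈ Path D u v) {k : ℤ} (h1 : tm u ≤ k) : u.1 ≤ x k := by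
  have := hx.1.mono h1; rwa [hx.2.1] at this

lemma p_fst_le (hx : x ∈ Path D u v) {k : ℤ} (h2 : k ≤ tm v) : x k ≤ v.1 := by
  have := hx.1.mono h2; rwa [hx.2.2.1] at this

lemma p_snd_ge (hx : x ∈ Path D u v) {k : ℤ} (h1 : tm u ≤ k) : u.2 ≤ k - x k := by
  have := hx.1.le_add h1; rw [hx.2.1] at this; unfold tm at this; omega

lemma p_snd_le (hx : x ∈ Path D u v) {k : ℤ} (h2 : k ≤ tm v) : k - x k ≤ v.2 := by
  have := hx.1.le_add h2; rw [hx.2.2.1] at this; unfold tm at this; omega

/-- The finite rectangle `[u,v]`. -/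
noncomputable def rect (u v : ℤ × ℤ) : Finset (ℤ × ℤ) := Finset.Icc u.1 v.1 ×ˢ Finset.Icc u.2 v.2

lemma mem_rect : z ∈ rect u v ↔ (u.1 ≤ z.1 ∧ z.1 ≤ v.1) ∧ (u.2 ≤ z.2 ∧ z.2 ≤ v.2) := by
  simp [rect]

lemma p_vert_mem_rect (hx : x ∈ Path D u v) {k : ℤ} (h1 : tm u ≤ k) (h2 : k ≤ tm v) :
    vert x k ∈ rect u v :=
  mem_rect.2 ⟨⟨p_fst_ge hx h1, p_fst_le hx h2⟩, ⟨p_snd_ge hx h1, p_snd_le hx h2⟩⟩

/-! ## The sup is attained -/

lemma finite_values (D : Set (ℤ × ℤ)) (w : ℤ × ℤ → ℝ) (u v : ℤ × ℤ) :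
    ((fun x => wsum w x (tm u) (tm v)) '' Path D u v).Finite := by
  refine Set.Finite.subset (Set.finite_range
    (fun f : (Finset.Icc (tm u) (tm v)) → (Finset.Icc u.1 v.1) =>
      ∑ k : Finset.Icc (tm u) (tm v), w ((f k : ℤ), (k : ℤ) - f k))) ?_
  rintro _ ⟨x, hx, rfl⟩
  refine ⟨fun k => ⟨x k, ?_⟩, ?_⟩
  · have hk := Finset.mem_Icc.1 k.2
    exact Finset.mem_Icc.2 ⟨p_fst_ge hx hk.1, p_fst_le hx hk.2⟩
  · simp only [wsum, vert]
    exact Finset.sum_coe_sort (Finset.Icc (tm u) (tm v)) (fun k => w (x k, k - x k))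

lemma le_L (hx : x ∈ Path D u v) : wsum w x (tm u) (tm v) ≤ L D w u v :=
  le_csSup (finite_values D w u v).bddAbove ⟨x, hx, rfl⟩

lemma exists_L (w : ℤ × ℤ → ℝ) (h : (Path D u v).Nonempty) :
    ∃ x ∈ Path D u v, L D w u v = wsum w x (tm u) (tm v) := by
  obtain ⟨x, hx, hxe⟩ := (h.image (fun x => wsum w x (tm u) (tm v))).csSup_mem
    (finite_values D w u v)
  exact ⟨x, hx, hxe.symm⟩

lemma L_le (h : (Path D u v).Nonempty) {B : ℝ}
    (hB : ∀ x ∈ Path D u v, wsum w x (tm u) (tm v) ≤ B) : L D w u v ≤ B := by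
  obtain ⟨x, hx, hxe⟩ := exists_L w h
  rw [hxe]; exact hB x hx

lemma L_empty (h : Path D u v = ∅) : L D w u v = 0 := by
  simp [L, h]

/-! ## Sums along paths -/

lemma wsum_split (w : ℤ × ℤ → ℝ) (x : ℤ → ℤ) (h1 : s ≤ r) (h2 : r ≤ t + 1) :
    wsum w x s t = wsum w x s (r - 1) + wsum w x r t := by
  unfold wsum
  rw [← Finset.sum_union]
  · congr 1
    ext k
    simp only [Finset.mem_Icc, Finset.mem_union]
    omega
  · rw [Finset.disjoint_left]
    intro k hk hk'
    rw [Finset.mem_Icc] at hk hk'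
    omega

lemma wsum_congr (h : ∀ k, s ≤ k → k ≤ t → w (vert x k) = w' (vert y k)) :
    wsum w x s t = wsum w' y s t := by
  unfold wsum
  refine Finset.sum_congr rfl fun k hk => ?_
  rw [Finset.mem_Icc] at hk
  exact h k hk.1 hk.2

lemma wsum_le (h : ∀ k, s ≤ k → k ≤ t → w (vert x k) ≤ w' (vert y k)) :
    wsum w x s t ≤ wsum w' y s t := by
  unfold wsum
  refine Finset.sum_le_sum fun k hk => ?_
  rw [Finset.mem_Icc] at hk
  exact h k hk.1 hk.2

lemma wsum_nonneg (h : ∀ k, s ≤ k → k ≤ t → 0 ≤ w (vert x k)) : 0 ≤ wsum w x s t := by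
  unfold wsum
  refine Finset.sum_nonneg fun k hk => ?_
  rw [Finset.mem_Icc] at hk
  exact h k hk.1 hk.2

@[simp] lemma wsum_self (w : ℤ × ℤ → ℝ) (x : ℤ → ℤ) (s : ℤ) : wsum w x s s = w (vert x s) := by
  simp [wsum]

lemma wsum_empty (w : ℤ × ℤ → ℝ) (x : ℤ → ℤ) (h : t < s) : wsum w x s t = 0 := by
  simp [wsum, Finset.Icc_eq_empty (not_le.2 h)]

/-- Follow `x` before time `r` and `y` from time `r` on. -/
def splice (x y : ℤ → ℤ) (r : ℤ) : ℤ → ℤ := fun t => if t < r then x t else y t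

lemma splice_lt (h : t < r) : splice x y r t = x t := by simp [splice, h]
lemma splice_ge (h : r ≤ t) : splice x y r t = y t := by simp [splice, not_lt.2 h]

lemma IsPath.splice (hx : IsPath x) (hy : IsPath y) (h : x r = y r) : IsPath (splice x y r) := by
  intro t
  rcases lt_trichotomy (t + 1) r with h1 | h1 | h1
  · rw [splice_lt h1, splice_lt (by omega : t < r)]; exact hx t
  · rw [splice_ge (le_of_eq h1.symm), splice_lt (by omega : t < r), h1, ← h, ← h1]; exact hx t
  · rw [splice_ge h1.le, splice_ge (by omega : r ≤ t)]; exact hy t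

lemma wsum_splice (w : ℤ × ℤ → ℝ) (x y : ℤ → ℤ) (h1 : s ≤ r) (h2 : r ≤ t + 1) :
    wsum w (splice x y r) s t = wsum w x s (r - 1) + wsum w y r t := by
  rw [wsum_split w _ h1 h2]
  congr 1
  · refine wsum_congr fun k _ hk => ?_
    simp only [vert, splice_lt (by omega : k < r)]
  · refine wsum_congr fun k hk _ => ?_
    simp only [vert, splice_ge hk]

lemma splice_mem (hx : x ∈ Path D u v) (hy : y ∈ Path D u' v') (h : x r = y r)
    (h1 : tm u ≤ r) (h2 : r ≤ tm v) (h3 : tm u' ≤ r) (h4 : r ≤ tm v') :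
    splice x y r ∈ Path D u v' := by
  refine ⟨hx.1.splice hy.1 h, ?_, ?_, ?_⟩
  · rcases lt_or_eq_of_le h1 with h5 | h5
    · rw [splice_lt h5]; exact hx.2.1
    · rw [splice_ge h5.ge, h5, ← h, ← h5]; exact hx.2.1
  · rw [splice_ge h4]; exact hy.2.2.1
  · intro k hk1 hk2
    rcases lt_or_ge k r with h5 | h5
    · have := hx.2.2.2 k hk1 (by omega)
      simpa only [vert, splice_lt h5] using this
    · have := hy.2.2.2 k (by omega) hk2
      simpa only [vert, splice_ge h5] using this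

/-- Crossing inequality, with a common vertex at time `r`. -/
lemma cross (w : ℤ × ℤ → ℝ) (hx : x ∈ Path D u v) (hy : y ∈ Path D u' v') (h : x r = y r)
    (h1 : tm u ≤ r) (h2 : r ≤ tm v) (h3 : tm u' ≤ r) (h4 : r ≤ tm v') :
    wsum w x (tm u) (tm v) + wsum w y (tm u') (tm v') ≤ L D w u v' + L D w u' v := by
  have e1 := le_L (w := w) (splice_mem hx hy h h1 h2 h3 h4)
  have e2 := le_L (w := w) (splice_mem hy hx h.symm h3 h4 h1 h2)
  rw [wsum_splice w x y h1 (by omega)] at e1
  rw [wsum_splice w y x h3 (by omega)] at e2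
  rw [wsum_split w x h1 (by omega : r ≤ tm v + 1), wsum_split w y h3 (by omega : r ≤ tm v' + 1)]
  linarith

/-- Two paths which exchange sides meet. -/
lemma meet (hx : IsPath x) (hy : IsPath y) (h : s ≤ t) (h1 : x s ≤ y s) (h2 : y t ≤ x t) :
    ∃ r, s ≤ r ∧ r ≤ t ∧ x r = y r := by
  induction t, h using Int.leInduction with
  | base => exact ⟨s, le_rfl, le_rfl, le_antisymm h1 h2⟩
  | succ k hk ih =>
    by_cases h3 : y k ≤ x k
    · obtain ⟨r, hr1, hr2, hr3⟩ := ih h3
      exact ⟨r, hr1, by omega, hr3⟩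
    · refine ⟨k + 1, by omega, le_rfl, ?_⟩
      rcases hx k with h4 | h4 <;> rcases hy k with h5 | h5 <;> omega

/-! ## Domains closed to the right and downwards -/

/-- Closed under moving right and down. All domains used here have this property. -/
def RD (D : Set (ℤ × ℤ)) : Prop := ∀ z ∈ D, ∀ z' : ℤ × ℤ, z.1 ≤ z'.1 → z'.2 ≤ z.2 → z' ∈ D

lemma RD_Hs : RD Hs := by intro z hz z' h1 h2; simp only [Hs, Set.mem_ofPred_eq] at *; omega
lemma RD_St : RD St := by intro z hz z' h1 h2; simp only [St, Set.mem_ofPred_eq] at *; omega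
lemma RD_univ : RD Set.univ := fun _ _ _ _ _ => trivial
lemma RD_Dl {ℓ : ℤ → ℤ} (hℓ : Monotone ℓ) : RD (Dl ℓ) := by
  intro z hz z' h1 h2
  simp only [Dl, Set.mem_ofPred_eq] at *
  have := hℓ h2; omega

lemma Hs_eq : Hs = Dl id := rfl

lemma path_nonempty (hD : RD D) (hu : u ∈ D) (hv : v ∈ D) (h1 : u.1 ≤ v.1) (h2 : u.2 ≤ v.2) :
    (Path D u v).Nonempty := by
  refine ⟨fun t => min (t - u.2) v.1, ?_, ?_, ?_, ?_⟩
  · intro t
    simp only
    omega
  · simp only [tm]; omega
  · simp only [tm]; omega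
  · intro k hk1 hk2
    simp only [tm] at hk1 hk2
    rcases le_total (k - u.2) v.1 with h3 | h3
    · refine hD u hu _ ?_ ?_
      · simp only [vert, min_eq_left h3]; omega
      · simp only [vert, min_eq_left h3]; omega
    · refine hD v hv _ ?_ ?_
      · simp only [vert, min_eq_right h3]; omega
      · simp only [vert, min_eq_right h3]; omega

/-! ## Comparison and continuity -/

lemma L_congr (h : ∀ z ∈ rect u v, z ∈ D → w z = w' z) : L D w u v = L D w' u v := by
  unfold L
  congr 1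
  refine Set.image_congr fun x hx => ?_
  exact wsum_congr fun k h1 h2 => h _ (p_vert_mem_rect hx h1 h2) (p_mem hx h1 h2)

lemma L_mono (h : ∀ z ∈ rect u v, z ∈ D → w z ≤ w' z) : L D w u v ≤ L D w' u v := by
  by_cases hne : (Path D u v).Nonempty
  · refine L_le hne fun x hx => ?_
    refine le_trans ?_ (le_L hx)
    exact wsum_le fun k h1 h2 => h _ (p_vert_mem_rect hx h1 h2) (p_mem hx h1 h2)
  · rw [Set.not_nonempty_iff_eq_empty] at hne
    rw [L_empty hne, L_empty hne]

lemma L_nonneg (h : ∀ z ∈ rect u v, z ∈ D → 0 ≤ w z) : 0 ≤ L D w u v := by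
  by_cases hne : (Path D u v).Nonempty
  · obtain ⟨x, hx⟩ := hne
    refine le_trans ?_ (le_L hx)
    exact wsum_nonneg fun k h1 h2 => h _ (p_vert_mem_rect hx h1 h2) (p_mem hx h1 h2)
  · rw [Set.not_nonempty_iff_eq_empty] at hne
    rw [L_empty hne]

lemma L_mono_dom (hD : D ⊆ D') (h : (Path D u v).Nonempty) : L D w u v ≤ L D' w u v := by
  refine L_le h fun x hx => ?_
  exact le_L ⟨hx.1, hx.2.1, hx.2.2.1, fun k h1 h2 => hD (hx.2.2.2 k h1 h2)⟩

lemma sum_path_le (hx : x ∈ Path D u v) (f : ℤ × ℤ → ℝ) (hf : ∀ z, 0 ≤ f z) :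
    wsum f x (tm u) (tm v) ≤ ∑ z ∈ rect u v, f z := by
  classical
  unfold wsum
  have hinj : Set.InjOn (vert x) (Finset.Icc (tm u) (tm v) : Finset ℤ) := by
    intro a _ b _ hab
    have h1 := congrArg Prod.fst hab
    have h2 := congrArg Prod.snd hab
    simp only [vert_fst, vert_snd] at h1 h2
    omega
  rw [← Finset.sum_image (f := f) (g := vert x) (s := Finset.Icc (tm u) (tm v)) hinj]
  refine Finset.sum_le_sum_of_subset_of_nonneg ?_ fun z _ _ => hf z
  intro z hz
  obtain ⟨k, hk, rfl⟩ := Finset.mem_image.1 hz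
  rw [Finset.mem_Icc] at hk
  exact p_vert_mem_rect hx hk.1 hk.2

lemma L_lip (D : Set (ℤ × ℤ)) (w w' : ℤ × ℤ → ℝ) (u v : ℤ × ℤ) :
    |L D w u v - L D w' u v| ≤ ∑ z ∈ rect u v, |w z - w' z| := by
  by_cases hne : (Path D u v).Nonempty
  · have key : ∀ w w' : ℤ × ℤ → ℝ, L D w u v - L D w' u v ≤ ∑ z ∈ rect u v, |w z - w' z| := by
      intro w w'
      obtain ⟨x, hx, hxe⟩ := exists_L w hne
      have h1 := le_L (w := w') hx
      have h2 := sum_path_le hx (fun z => |w z - w' z|) (fun z => abs_nonneg _)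
      have h3 : wsum w x (tm u) (tm v) - wsum w' x (tm u) (tm v)
          ≤ wsum (fun z => |w z - w' z|) x (tm u) (tm v) := by
        unfold wsum
        rw [← Finset.sum_sub_distrib]
        exact Finset.sum_le_sum fun k _ => le_abs_self _
      linarith
    rw [abs_le]
    refine ⟨?_, key w w'⟩
    have := key w' w
    have h4 : ∑ z ∈ rect u v, |w' z - w z| = ∑ z ∈ rect u v, |w z - w' z| :=
      Finset.sum_congr rfl fun z _ => abs_sub_comm _ _
    linarith
  · rw [Set.not_nonempty_iff_eq_empty] at hne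
    rw [L_empty hne, L_empty hne]
    simp only [sub_self, abs_zero]
    exact Finset.sum_nonneg fun z _ => abs_nonneg _

lemma abs_L_le (D : Set (ℤ × ℤ)) (w : ℤ × ℤ → ℝ) (u v : ℤ × ℤ) :
    |L D w u v| ≤ ∑ z ∈ rect u v, |w z| := by
  have h0 : L D (fun _ => 0) u v = 0 := by
    by_cases hne : (Path D u v).Nonempty
    · obtain ⟨x, hx, hxe⟩ := exists_L (fun _ => (0 : ℝ)) hne
      rw [hxe]; simp [wsum]
    · rw [Set.not_nonempty_iff_eq_empty] at hne
      exact L_empty hne
  have := L_lip D w (fun _ => 0) u v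
  rw [h0] at this
  simpa using this

lemma continuous_L (D : Set (ℤ × ℤ)) (u v : ℤ × ℤ) :
    Continuous (fun w : ℤ × ℤ → ℝ => L D w u v) := by
  rw [continuous_iff_continuousAt]
  intro w0
  rw [ContinuousAt, tendsto_iff_dist_tendsto_zero]
  have h1 : Filter.Tendsto (fun w : ℤ × ℤ → ℝ => ∑ z ∈ rect u v, |w z - w0 z|) (nhds w0)
      (nhds 0) := by
    have : Continuous (fun w : ℤ × ℤ → ℝ => ∑ z ∈ rect u v, |w z - w0 z|) := by fun_prop
    have h := this.tendsto w0
    simpa using h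
  refine squeeze_zero (fun w => dist_nonneg) (fun w => ?_) h1
  rw [Real.dist_eq]
  exact L_lip D w w0 u v

lemma measurable_L {Ω : Type*} [MeasurableSpace Ω] {W : Ω → ℤ × ℤ → ℝ}
    (hW : ∀ z, Measurable fun ω => W ω z) (D : Set (ℤ × ℤ)) (u v : ℤ × ℤ) :
    Measurable fun ω => L D (W ω) u v :=
  (continuous_L D u v).measurable.comp (measurable_pi_lambda _ hW)

/-! ## One-step recursions -/

lemma L_self (hu : u ∈ D) : L D w u u = w u := by
  have hne : (Path D u u).Nonempty := by
    refine ⟨fun t => min (t - u.2) u.1, ?_, ?_, ?_, ?_⟩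
    · intro t; simp only; omega
    · simp only [tm]; omega
    · simp only [tm]; omega
    · intro k h1 h2
      have : k = tm u := le_antisymm h2 h1
      subst this
      have e : vert (fun t => min (t - u.2) u.1) (tm u) = u := by
        ext
        · simp only [vert, tm]; omega
        · simp only [vert, tm]; omega
      rw [e]; exact hu
  obtain ⟨x, hx, hxe⟩ := exists_L w hne
  rw [hxe, wsum_self]
  congr 1
  have h1 := hx.2.1
  ext
  · exact h1
  · show tm u - x (tm u) = u.2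
    rw [h1]; simp only [tm]; ring

/-- Glue a path ending at `z` and a path starting at `z'`, where `z -> z'` is an edge. -/
lemma glue_mem (hx : x ∈ Path D u z) (hy : y ∈ Path D z' v)
    (he : z' = (z.1 + 1, z.2) ∨ z' = (z.1, z.2 + 1)) (hu : tm u ≤ tm z) (hv : tm z' ≤ tm v) :
    splice x y (tm z') ∈ Path D u v := by
  have ht : tm z' = tm z + 1 := by rcases he with rfl | rfl <;> simp only [tm] <;> omega
  refine ⟨?_, ?_, ?_, ?_⟩
  · intro t
    rcases lt_trichotomy (t + 1) (tm z') with h1 | h1 | h1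
    · rw [splice_lt h1, splice_lt (by omega : t < tm z')]; exact hx.1 t
    · rw [splice_ge h1.ge, splice_lt (by omega : t < tm z'), h1, hy.2.1,
        show t = tm z by omega, hx.2.2.1]
      rcases he with rfl | rfl <;> simp
    · rw [splice_ge h1.le, splice_ge (by omega : tm z' ≤ t)]; exact hy.1 t
  · rw [splice_lt (by omega)]; exact hx.2.1
  · rw [splice_ge hv]; exact hy.2.2.1
  · intro k hk1 hk2
    rcases lt_or_ge k (tm z') with h5 | h5
    · have := hx.2.2.2 k hk1 (by omega)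
      simpa only [vert, splice_lt h5] using this
    · have := hy.2.2.2 k h5 hk2
      simpa only [vert, splice_ge h5] using this

/-- Concatenation along an edge `z -> z'`. -/
lemma L_concat (he : z' = (z.1 + 1, z.2) ∨ z' = (z.1, z.2 + 1)) (hu : tm u ≤ tm z)
    (hv : tm z' ≤ tm v) (h1 : (Path D u z).Nonempty) (h2 : (Path D z' v).Nonempty) :
    L D w u z + L D w z' v ≤ L D w u v := by
  obtain ⟨x, hx, hxe⟩ := exists_L w h1
  obtain ⟨y, hy, hye⟩ := exists_L w h2
  have ht : tm z' = tm z + 1 := by rcases he with rfl | rfl <;> simp only [tm] <;> omega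
  have := le_L (w := w) (glue_mem hx hy he hu hv)
  rw [wsum_splice w x y (by omega) (by omega), show tm z' - 1 = tm z by omega] at this
  rw [hxe, hye]; exact this

/-- Cutting a path at the last step. -/
lemma path_cut_last (hx : x ∈ Path D u v) (h : tm u < tm v) :
    (x (tm v - 1) = v.1 - 1 ∧ x ∈ Path D u (v.1 - 1, v.2)) ∨
      (x (tm v - 1) = v.1 ∧ x ∈ Path D u (v.1, v.2 - 1)) := by
  have h1 := hx.1 (tm v - 1)
  rw [show tm v - 1 + 1 = tm v by ring, hx.2.2.1] at h1
  rcases h1 with h1 | h1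
  · right
    refine ⟨h1.symm, hx.1, hx.2.1, ?_, ?_⟩
    · rw [show tm (v.1, v.2 - 1) = tm v - 1 by simp only [tm]; ring]; exact h1.symm
    · intro k hk1 hk2
      exact hx.2.2.2 k hk1 (by simp only [tm] at hk2 ⊢; omega)
  · left
    refine ⟨by omega, hx.1, hx.2.1, ?_, ?_⟩
    · rw [show tm (v.1 - 1, v.2) = tm v - 1 by simp only [tm]; ring]; simp only; omega
    · intro k hk1 hk2
      exact hx.2.2.2 k hk1 (by simp only [tm] at hk2 ⊢; omega)

lemma wsum_last (w : ℤ × ℤ → ℝ) (hx : x ∈ Path D u v) (h : tm u ≤ tm v) :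
    wsum w x (tm u) (tm v) = wsum w x (tm u) (tm v - 1) + w v := by
  rw [wsum_split w x h (by omega : tm v ≤ tm v + 1), wsum_self]
  congr 2
  have h1 := hx.2.2.1
  ext
  · exact h1
  · show tm v - x (tm v) = v.2
    rw [h1]; simp only [tm]; ring

/-- Recursion, both predecessors available. -/
lemma L_rec_both (hD : RD D) (hu : u ∈ D) (hv : v ∈ D) (h1 : u.1 < v.1) (h2 : u.2 < v.2)
    (hl : (v.1 - 1, v.2) ∈ D) :
    L D w u v = max (L D w u (v.1 - 1, v.2)) (L D w u (v.1, v.2 - 1)) + w v := by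
  have hd : (v.1, v.2 - 1) ∈ D := hD v hv _ (by simp) (by simp)
  have n1 : (Path D u (v.1 - 1, v.2)).Nonempty := path_nonempty hD hu hl (by simp; omega) h2.le
  have n2 : (Path D u (v.1, v.2 - 1)).Nonempty := path_nonempty hD hu hd h1.le (by simp; omega)
  have n3 : (Path D v v).Nonempty := path_nonempty hD hv hv le_rfl le_rfl
  apply le_antisymm
  · refine L_le (path_nonempty hD hu hv h1.le h2.le) fun x hx => ?_
    rw [wsum_last w hx (by simp only [tm]; omega)]
    rcases path_cut_last hx (by simp only [tm]; omega) with ⟨_, h3⟩ | ⟨_, h3⟩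
    · have := le_L (w := w) h3
      rw [show tm (v.1 - 1, v.2) = tm v - 1 by simp only [tm]; ring] at this
      have := le_max_left (L D w u (v.1 - 1, v.2)) (L D w u (v.1, v.2 - 1))
      linarith
    · have := le_L (w := w) h3
      rw [show tm (v.1, v.2 - 1) = tm v - 1 by simp only [tm]; ring] at this
      have := le_max_right (L D w u (v.1 - 1, v.2)) (L D w u (v.1, v.2 - 1))
      linarith
  · rcases le_total (L D w u (v.1 - 1, v.2)) (L D w u (v.1, v.2 - 1)) with h | h
    · rw [max_eq_right h]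
      have := L_concat (w := w) (D := D) (u := u) (z := (v.1, v.2 - 1)) (z' := v) (v := v)
        (Or.inr (by simp)) (by simp only [tm]; omega) le_rfl n2 n3
      rwa [L_self hv] at this
    · rw [max_eq_left h]
      have := L_concat (w := w) (D := D) (u := u) (z := (v.1 - 1, v.2)) (z' := v) (v := v)
        (Or.inl (by simp)) (by simp only [tm]; omega) le_rfl n1 n3
      rwa [L_self hv] at this

/-- Recursion, only the predecessor below is available. -/
lemma L_rec_down (hD : RD D) (hu : u ∈ D) (hv : v ∈ D) (h1 : u.1 ≤ v.1) (h2 : u.2 < v.2)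
    (hl : u.1 = v.1 ∨ (v.1 - 1, v.2) ∉ D) :
    L D w u v = L D w u (v.1, v.2 - 1) + w v := by
  have hd : (v.1, v.2 - 1) ∈ D := hD v hv _ (by simp) (by simp)
  have n2 : (Path D u (v.1, v.2 - 1)).Nonempty := path_nonempty hD hu hd h1 (by simp; omega)
  have n3 : (Path D v v).Nonempty := path_nonempty hD hv hv le_rfl le_rfl
  apply le_antisymm
  · refine L_le (path_nonempty hD hu hv h1 h2.le) fun x hx => ?_
    rw [wsum_last w hx (by simp only [tm]; omega)]
    rcases path_cut_last hx (by simp only [tm]; omega) with ⟨h4, h3⟩ | ⟨_, h3⟩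
    · exfalso
      rcases hl with h5 | h5
      · have := p_fst_ge hx (k := tm v - 1) (by simp only [tm]; omega)
        omega
      · apply h5
        have := p_mem hx (k := tm v - 1) (by simp only [tm]; omega) (by omega)
        have e : vert x (tm v - 1) = (v.1 - 1, v.2) := by
          ext
          · exact h4
          · show tm v - 1 - x (tm v - 1) = v.2
            rw [h4]; simp only [tm]; ring
        rwa [e] at this
    · have := le_L (w := w) h3
      rw [show tm (v.1, v.2 - 1) = tm v - 1 by simp only [tm]; ring] at this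
      linarith
  · have := L_concat (w := w) (D := D) (u := u) (z := (v.1, v.2 - 1)) (z' := v) (v := v)
      (Or.inr (by simp)) (by simp only [tm]; omega) le_rfl n2 n3
    rwa [L_self hv] at this

/-- Recursion in the row of the starting vertex. -/
lemma L_rec_left (hD : RD D) (hu : u ∈ D) (h1 : u.1 < v.1) (h2 : u.2 = v.2) :
    L D w u v = L D w u (v.1 - 1, v.2) + w v := by
  have hv : v ∈ D := hD u hu _ h1.le h2.ge
  have hl : (v.1 - 1, v.2) ∈ D := hD u hu _ (by simp; omega) h2.ge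
  have n1 : (Path D u (v.1 - 1, v.2)).Nonempty := path_nonempty hD hu hl (by simp; omega) h2.le
  have n3 : (Path D v v).Nonempty := path_nonempty hD hv hv le_rfl le_rfl
  apply le_antisymm
  · refine L_le (path_nonempty hD hu hv h1.le h2.le) fun x hx => ?_
    rw [wsum_last w hx (by simp only [tm]; omega)]
    rcases path_cut_last hx (by simp only [tm]; omega) with ⟨h4, h3⟩ | ⟨h4, h3⟩
    · have := le_L (w := w) h3
      rw [show tm (v.1 - 1, v.2) = tm v - 1 by simp only [tm]; ring] at this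
      linarith
    · exfalso
      have := p_snd_ge hx (k := tm v - 1) (by simp only [tm]; omega)
      rw [h4] at this
      simp only [tm] at this
      omega
  · have := L_concat (w := w) (D := D) (u := u) (z := (v.1 - 1, v.2)) (z' := v) (v := v)
      (Or.inl (by simp)) (by simp only [tm]; omega) le_rfl n1 n3
    rwa [L_self hv] at this

/-! ## Splitting at a row or a column -/

/-- A path from `u` to `v` leaves row `j` (`u.2 ≤ j < v.2`) upwards at some column `c`. -/
lemma row_exit (hx : x ∈ Path D u v) {j : ℤ} (h1 : u.2 ≤ j) (h2 : j < v.2)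
    (huv : tm u ≤ tm v) :
    ∃ c, u.1 ≤ c ∧ c ≤ v.1 ∧ x (c + j) = c ∧ x (c + j + 1) = c ∧ tm u ≤ c + j ∧ c + j < tm v := by
  have key : ∀ T, tm u ≤ T → j < T - x T → ∃ k, tm u ≤ k ∧ k < T ∧ k - x k = j ∧
      x (k + 1) = x k := by
    intro T hT
    induction T, hT using Int.leInduction with
    | base => intro h; rw [hx.2.1] at h; simp only [tm] at h; omega
    | succ k hk ih =>
      intro h
      by_cases h3 : j < k - x k
      · obtain ⟨k', a, b, c, d⟩ := ih h3
        exact ⟨k', a, by omega, c, d⟩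
      · refine ⟨k, hk, by omega, ?_, ?_⟩
        · rcases hx.1 k with h4 | h4 <;> omega
        · rcases hx.1 k with h4 | h4 <;> omega
  obtain ⟨k, a, b, c, d⟩ := key (tm v) huv (by rw [hx.2.2.1]; simp only [tm]; omega)
  have e : x k + j = k := by omega
  refine ⟨x k, p_fst_ge hx a, p_fst_le hx b.le, ?_, ?_, ?_, ?_⟩
  · rw [e]
  · rw [e, d]
  · omega
  · omega

lemma path_head (hx : x ∈ Path D u v) (h1 : tm u ≤ r) (h2 : r ≤ tm v) :
    x ∈ Path D u (vert x r) := by
  refine ⟨hx.1, hx.2.1, ?_, ?_⟩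
  · simp [tm, vert]
  · intro k hk1 hk2
    exact hx.2.2.2 k hk1 (by simp only [tm, vert] at hk2 h2 ⊢; omega)

lemma path_tail (hx : x ∈ Path D u v) (h1 : tm u ≤ r) (h2 : r ≤ tm v) :
    x ∈ Path D (vert x r) v := by
  refine ⟨hx.1, ?_, hx.2.2.1, ?_⟩
  · simp [tm, vert]
  · intro k hk1 hk2
    exact hx.2.2.2 k (by simp only [tm, vert] at hk1 h1 ⊢; omega) hk2

/-- Splitting of the passage value at a row. -/
lemma L_row_split (w : ℤ × ℤ → ℝ) (hne : (Path D u v).Nonempty) {j : ℤ} (h1 : u.2 ≤ j)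
    (h2 : j < v.2) (huv : tm u ≤ tm v) :
    ∃ c, u.1 ≤ c ∧ c ≤ v.1 ∧ (Path D u (c, j)).Nonempty ∧ (Path D (c, j + 1) v).Nonempty ∧
      L D w u v = L D w u (c, j) + L D w (c, j + 1) v := by
  obtain ⟨x, hx, hxe⟩ := exists_L w hne
  obtain ⟨c, a1, a2, a3, a4, a5, a6⟩ := row_exit hx h1 h2 huv
  have e1 : vert x (c + j) = (c, j) := by simp [vert, a3]
  have e2 : vert x (c + j + 1) = (c, j + 1) := by simp [vert, a4]; ring
  have p1 : x ∈ Path D u (c, j) := e1 ▸ path_head hx a5 a6.le
  have p2 : x ∈ Path D (c, j + 1) v := e2 ▸ path_tail hx (by omega) (by omega)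
  refine ⟨c, a1, a2, ⟨x, p1⟩, ⟨x, p2⟩, le_antisymm ?_ ?_⟩
  · rw [hxe, wsum_split w x (r := c + j + 1) (by omega) (by omega)]
    have b1 := le_L (w := w) p1
    have b2 := le_L (w := w) p2
    rw [show tm (c, j) = c + j + 1 - 1 by simp [tm]] at b1
    rw [show tm (c, j + 1) = c + j + 1 by simp only [tm]; ring] at b2
    linarith
  · exact L_concat (Or.inr rfl) (by simpa [tm] using a5) (by simp only [tm] at a6 ⊢; omega)
      ⟨x, p1⟩ ⟨x, p2⟩

/-- A path from `u` to `v` leaves column `i` (`u.1 ≤ i < v.1`) to the right at some row `c`. -/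
lemma col_exit (hx : x ∈ Path D u v) {i : ℤ} (h1 : u.1 ≤ i) (h2 : i < v.1)
    (huv : tm u ≤ tm v) :
    ∃ c, u.2 ≤ c ∧ c ≤ v.2 ∧ x (i + c) = i ∧ x (i + c + 1) = i + 1 ∧ tm u ≤ i + c ∧
      i + c < tm v := by
  have key : ∀ T, tm u ≤ T → i < x T → ∃ k, tm u ≤ k ∧ k < T ∧ x k = i ∧
      x (k + 1) = x k + 1 := by
    intro T hT
    induction T, hT using Int.leInduction with
    | base => intro h; rw [hx.2.1] at h; omega
    | succ k hk ih =>
      intro h
      by_cases h3 : i < x k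
      · obtain ⟨k', a, b, c, d⟩ := ih h3
        exact ⟨k', a, by omega, c, d⟩
      · refine ⟨k, hk, by omega, ?_, ?_⟩
        · rcases hx.1 k with h4 | h4 <;> omega
        · rcases hx.1 k with h4 | h4 <;> omega
  obtain ⟨k, a, b, c, d⟩ := key (tm v) huv (by rw [hx.2.2.1]; exact h2)
  have e : i + (k - i) = k := by omega
  have b1 := p_snd_ge hx a
  have b2 := p_snd_le hx b.le
  refine ⟨k - i, by omega, by omega, ?_, ?_, ?_, ?_⟩
  · rw [e, c]
  · rw [e, d, c]
  · omega
  · omega

/-- Splitting of the passage value at a column. -/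
lemma L_col_split (w : ℤ × ℤ → ℝ) (hne : (Path D u v).Nonempty) {i : ℤ} (h1 : u.1 ≤ i)
    (h2 : i < v.1) (huv : tm u ≤ tm v) :
    ∃ c, u.2 ≤ c ∧ c ≤ v.2 ∧ (Path D u (i, c)).Nonempty ∧ (Path D (i + 1, c) v).Nonempty ∧
      L D w u v = L D w u (i, c) + L D w (i + 1, c) v := by
  obtain ⟨x, hx, hxe⟩ := exists_L w hne
  obtain ⟨c, a1, a2, a3, a4, a5, a6⟩ := col_exit hx h1 h2 huv
  have e1 : vert x (i + c) = (i, c) := by simp [vert, a3]
  have e2 : vert x (i + c + 1) = (i + 1, c) := by simp [vert, a4]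
  have p1 : x ∈ Path D u (i, c) := e1 ▸ path_head hx a5 a6.le
  have p2 : x ∈ Path D (i + 1, c) v := e2 ▸ path_tail hx (by omega) (by omega)
  refine ⟨c, a1, a2, ⟨x, p1⟩, ⟨x, p2⟩, le_antisymm ?_ ?_⟩
  · rw [hxe, wsum_split w x (r := i + c + 1) (by omega) (by omega)]
    have b1 := le_L (w := w) p1
    have b2 := le_L (w := w) p2
    rw [show tm (i, c) = i + c + 1 - 1 by simp [tm]] at b1
    rw [show tm (i + 1, c) = i + c + 1 by simp only [tm]; ring] at b2
    linarith
  · exact L_concat (Or.inl rfl) (by simpa [tm] using a5) (by simp only [tm] at a6 ⊢; omega)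
      ⟨x, p1⟩ ⟨x, p2⟩

/-! ## Enlarging the endpoints -/

/-- With nonnegative weights the value grows when the endpoints move apart. -/
lemma L_mono_ends (hD : RD D) (hu' : u' ∈ D) (hv' : v' ∈ D) (hu : u ∈ D) (hv : v ∈ D)
    (h1 : u'.1 ≤ u.1) (h2 : u'.2 ≤ u.2) (h3 : v.1 ≤ v'.1) (h4 : v.2 ≤ v'.2)
    (h5 : u.1 ≤ v.1) (h6 : u.2 ≤ v.2)
    (hw : ∀ z ∈ rect u' v', z ∈ D → 0 ≤ w z) : L D w u v ≤ L D w u' v' := by
  obtain ⟨x, hx, hxe⟩ := exists_L w (path_nonempty hD hu hv h5 h6)
  obtain ⟨p, hp⟩ := path_nonempty hD hu' hu h1 h2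
  obtain ⟨q, hq⟩ := path_nonempty hD hv hv' h3 h4
  have t1 : tm u' ≤ tm u := by simp only [tm]; omega
  have t2 : tm u ≤ tm v := by simp only [tm]; omega
  have t3 : tm v ≤ tm v' := by simp only [tm]; omega
  have m1 := splice_mem hp hx (r := tm u) (by rw [hp.2.2.1, hx.2.1]) t1 le_rfl le_rfl t2
  have m2 := splice_mem m1 hq (r := tm v) (by rw [m1.2.2.1, hq.2.1]) (by omega) le_rfl le_rfl t3
  have b := le_L (w := w) m2
  rw [wsum_splice w _ _ (by omega) (by omega)] at b
  have hsp : wsum w (splice p x (tm u)) (tm u') (tm v - 1)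
      = wsum w p (tm u') (tm u - 1) + wsum w x (tm u) (tm v - 1) :=
    wsum_splice w p x t1 (by omega)
  have hn1 : 0 ≤ wsum w p (tm u') (tm u - 1) := by
    refine wsum_nonneg fun k k1 k2 => ?_
    have r1 := mem_rect.1 (p_vert_mem_rect hp k1 (by omega))
    exact hw _ (mem_rect.2 ⟨⟨r1.1.1, by omega⟩, ⟨r1.2.1, by omega⟩⟩) (p_mem hp k1 (by omega))
  have hq1 : wsum w q (tm v) (tm v') = w v + wsum w q (tm v + 1) (tm v') := by
    rw [wsum_split w q (r := tm v + 1) (by omega) (by omega),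
      show tm v + 1 - 1 = tm v by ring, wsum_self]
    congr 2
    have h1 := hq.2.1
    ext
    · exact h1
    · show tm v - q (tm v) = v.2
      rw [h1]; simp only [tm]; ring
  have hn2 : 0 ≤ wsum w q (tm v + 1) (tm v') := by
    refine wsum_nonneg fun k k1 k2 => ?_
    have r1 := mem_rect.1 (p_vert_mem_rect hq (by omega : tm v ≤ k) k2)
    exact hw _ (mem_rect.2 ⟨⟨by omega, r1.1.2⟩, ⟨by omega, r1.2.2⟩⟩) (p_mem hq (by omega) k2)
  rw [hxe, wsum_last w hx t2]
  linarith

/-! ## Symmetries -/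

/-- Shift. -/
lemma L_shift (D : Set (ℤ × ℤ)) (w : ℤ × ℤ → ℝ) (a u v : ℤ × ℤ) :
    L D w (u + a) (v + a) = L {z | z + a ∈ D} (fun z => w (z + a)) u v := by
  unfold L
  congr 1
  ext b
  constructor
  · rintro ⟨x, hx, rfl⟩
    refine ⟨fun t => x (t + tm a) - a.1, ⟨?_, ?_, ?_, ?_⟩, ?_⟩
    · intro t
      have := hx.1 (t + tm a)
      simp only [show t + 1 + tm a = t + tm a + 1 by ring]
      omega
    · have := hx.2.1
      simp only [tm, Prod.fst_add, Prod.snd_add] at this ⊢
      rw [show u.1 + u.2 + (a.1 + a.2) = u.1 + a.1 + (u.2 + a.2) by ring, this]; ring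
    · have := hx.2.2.1
      simp only [tm, Prod.fst_add, Prod.snd_add] at this ⊢
      rw [show v.1 + v.2 + (a.1 + a.2) = v.1 + a.1 + (v.2 + a.2) by ring, this]; ring
    · intro k h1 h2
      have := hx.2.2.2 (k + tm a) (by simp only [tm, Prod.fst_add, Prod.snd_add] at h1 h2 ⊢; omega)
        (by simp only [tm, Prod.fst_add, Prod.snd_add] at h1 h2 ⊢; omega)
      have e : vert (fun t => x (t + tm a) - a.1) k + a = vert x (k + tm a) := by
        ext
        · simp [vert]
        · simp only [vert, Prod.snd_add, tm]; ring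
      show _ + a ∈ D
      rw [e]; exact this
    · simp only [wsum]
      refine Finset.sum_bij' (fun k _ => k + tm a) (fun k _ => k - tm a) ?_ ?_ ?_ ?_ ?_
      · intro k hk; simp only [Finset.mem_Icc, tm, Prod.fst_add, Prod.snd_add] at hk ⊢; omega
      · intro k hk; simp only [Finset.mem_Icc, tm, Prod.fst_add, Prod.snd_add] at hk ⊢; omega
      · intro k _; ring
      · intro k _; ring
      · intro k _
        congr 1
        ext
        · simp [vert]
        · simp only [vert, Prod.snd_add, tm]; ring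
  · rintro ⟨x, hx, rfl⟩
    refine ⟨fun t => x (t - tm a) + a.1, ⟨?_, ?_, ?_, ?_⟩, ?_⟩
    · intro t
      have := hx.1 (t - tm a)
      simp only [show t + 1 - tm a = t - tm a + 1 by ring]
      omega
    · have := hx.2.1
      simp only [tm, Prod.fst_add, Prod.snd_add] at this ⊢
      rw [show u.1 + a.1 + (u.2 + a.2) - (a.1 + a.2) = u.1 + u.2 by ring, this]
    · have := hx.2.2.1
      simp only [tm, Prod.fst_add, Prod.snd_add] at this ⊢
      rw [show v.1 + a.1 + (v.2 + a.2) - (a.1 + a.2) = v.1 + v.2 by ring, this]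
    · intro k h1 h2
      have h3 := hx.2.2.2 (k - tm a) (by simp only [tm, Prod.fst_add, Prod.snd_add] at h1 h2 ⊢; omega)
        (by simp only [tm, Prod.fst_add, Prod.snd_add] at h1 h2 ⊢; omega)
      have e : vert (fun t => x (t - tm a) + a.1) k = vert x (k - tm a) + a := by
        ext
        · simp [vert]
        · simp only [vert, Prod.snd_add, tm]; ring
      rw [e]; exact h3
    · simp only [wsum]
      refine Finset.sum_bij' (fun k _ => k - tm a) (fun k _ => k + tm a) ?_ ?_ ?_ ?_ ?_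
      · intro k hk; simp only [Finset.mem_Icc, tm, Prod.fst_add, Prod.snd_add] at hk ⊢; omega
      · intro k hk; simp only [Finset.mem_Icc, tm, Prod.fst_add, Prod.snd_add] at hk ⊢; omega
      · intro k _; ring
      · intro k _; ring
      · intro k _
        congr 1
        ext
        · simp [vert]
        · simp only [vert, Prod.snd_add, tm]; ring

/-- Reflection across the antidiagonal. -/
def refl (N : ℤ) (z : ℤ × ℤ) : ℤ × ℤ := (N - z.2, N - z.1)

@[simp] lemma refl_refl (N : ℤ) (z : ℤ × ℤ) : refl N (refl N z) = z := by simp [refl]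

lemma refl_path (N : ℤ) (hx : x ∈ Path D u v) :
    (fun t => x (2 * N - t) + t - N) ∈ Path {z | refl N z ∈ D} (refl N v) (refl N u) := by
  refine ⟨?_, ?_, ?_, ?_⟩
  · intro t
    have := hx.1 (2 * N - (t + 1))
    rw [show 2 * N - (t + 1) + 1 = 2 * N - t by ring] at this
    simp only
    omega
  · have := hx.2.2.1
    simp only [tm, refl] at this ⊢
    rw [show 2 * N - (N - v.2 + (N - v.1)) = v.1 + v.2 by ring, this]; ring
  · have := hx.2.1
    simp only [tm, refl] at this ⊢
    rw [show 2 * N - (N - u.2 + (N - u.1)) = u.1 + u.2 by ring, this]; ring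
  · intro k h1 h2
    have h3 := hx.2.2.2 (2 * N - k) (by simp only [tm, refl] at h1 h2 ⊢; omega)
      (by simp only [tm, refl] at h1 h2 ⊢; omega)
    show refl N _ ∈ D
    have e : refl N (vert (fun t => x (2 * N - t) + t - N) k) = vert x (2 * N - k) := by
      ext
      · simp only [refl, vert]; ring
      · simp only [refl, vert]; ring
    rw [e]; exact h3

lemma refl_wsum (N : ℤ) (w : ℤ × ℤ → ℝ) (x : ℤ → ℤ) (u v : ℤ × ℤ) :
    wsum (fun z => w (refl N z)) (fun t => x (2 * N - t) + t - N) (tm (refl N v)) (tm (refl N u))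
      = wsum w x (tm u) (tm v) := by
  simp only [wsum]
  refine Finset.sum_bij' (fun k _ => 2 * N - k) (fun k _ => 2 * N - k) ?_ ?_ ?_ ?_ ?_
  · intro k hk; simp only [Finset.mem_Icc, tm, refl] at hk ⊢; omega
  · intro k hk; simp only [Finset.mem_Icc, tm, refl] at hk ⊢; omega
  · intro k _; ring
  · intro k _; ring
  · intro k _
    congr 1
    ext
    · simp only [refl, vert]; ring
    · simp only [refl, vert]; ring

lemma L_refl (N : ℤ) (D : Set (ℤ × ℤ)) (w : ℤ × ℤ → ℝ) (u v : ℤ × ℤ) :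
    L D w u v = L {z | refl N z ∈ D} (fun z => w (refl N z)) (refl N v) (refl N u) := by
  unfold L
  congr 1
  ext b
  constructor
  · rintro ⟨x, hx, rfl⟩
    exact ⟨_, refl_path N hx, refl_wsum N w x u v⟩
  · rintro ⟨x, hx, rfl⟩
    have h1 := refl_path N hx
    have h2 := refl_wsum N (fun z => w (refl N z)) x (refl N v) (refl N u)
    simp only [refl_refl, Set.mem_ofPred_eq, Set.ofPred_mem_eq] at h1 h2
    exact ⟨_, h1, h2⟩

@[simp] lemma refl_Hs (N : ℤ) : {z | refl N z ∈ Hs} = Hs := by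
  ext z; simp only [Hs, refl, Set.mem_ofPred_eq]; omega

@[simp] lemma refl_St (N : ℤ) : {z | refl N z ∈ St} = St := by
  ext z; simp only [St, refl, Set.mem_ofPred_eq]; omega

lemma shift_Hs (k : ℤ) : {z : ℤ × ℤ | z + (k, k) ∈ Hs} = Hs := by
  ext z; simp only [Hs, Set.mem_ofPred_eq, Prod.fst_add, Prod.snd_add]; omega

lemma shift_St (k : ℤ) : {z : ℤ × ℤ | z + (k, k) ∈ St} = St := by
  ext z; simp only [St, Set.mem_ofPred_eq, Prod.fst_add, Prod.snd_add]; omega

/-- Transposition in the full space. -/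
lemma L_swap (w : ℤ × ℤ → ℝ) (u v : ℤ × ℤ) :
    L Set.univ w u v = L Set.univ (fun z => w z.swap) u.swap v.swap := by
  have key : ∀ (w : ℤ × ℤ → ℝ) (u v : ℤ × ℤ), ∀ x ∈ Path Set.univ u v,
      (fun t => t - x t) ∈ Path Set.univ u.swap v.swap ∧
      wsum (fun z => w z.swap) (fun t => t - x t) (tm u.swap) (tm v.swap)
        = wsum w x (tm u) (tm v) := by
    intro w u v x hx
    have t1 : tm u.swap = tm u := by simp only [tm, Prod.fst_swap, Prod.snd_swap]; ring
    have t2 : tm v.swap = tm v := by simp only [tm, Prod.fst_swap, Prod.snd_swap]; ring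
    refine ⟨⟨?_, ?_, ?_, fun _ _ _ => trivial⟩, ?_⟩
    · intro t; rcases hx.1 t with h | h <;> simp only [h] <;> omega
    · rw [t1]; have := hx.2.1; simp only [tm, Prod.fst_swap] at *; omega
    · rw [t2]; have := hx.2.2.1; simp only [tm, Prod.fst_swap] at *; omega
    · rw [t1, t2]
      refine wsum_congr fun k _ _ => ?_
      congr 1
      ext
      · simp [vert]
      · simp [vert]
  unfold L
  congr 1
  ext b
  constructor
  · rintro ⟨x, hx, rfl⟩
    exact ⟨_, (key w u v x hx).1, (key w u v x hx).2⟩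
  · rintro ⟨x, hx, rfl⟩
    have h := key (fun z => w z.swap) u.swap v.swap x hx
    simp only [Prod.swap_swap] at h
    exact ⟨_, h.1, h.2⟩

/-! ## Crossing inequalities in the half-space -/

lemma diag_mem_Hs (s : ℤ) : ((s, s) : ℤ × ℤ) ∈ Hs := by simp [Hs]

/-- In the half-space a path is weakly right of the diagonal. -/
lemma p_two_mul_ge (hx : x ∈ Path Hs u v) {k : ℤ} (h1 : tm u ≤ k) (h2 : k ≤ tm v) :
    k ≤ 2 * x k := by
  have := p_mem hx h1 h2
  simp only [Hs, Set.mem_ofPred_eq, vert] at this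
  omega

/-- (1.4) Crossing inequality between diagonal points:
`a → d` and `b → c` with `a ≤ b ≤ c ≤ d` on the diagonal. -/
lemma cross_diag (w : ℤ × ℤ → ℝ) {a b c d : ℤ} (h1 : a ≤ b) (h2 : b ≤ c) (h3 : c ≤ d) :
    L Hs w (b, b) (d, d) + L Hs w (a, a) (c, c) ≤ L Hs w (b, b) (c, c) + L Hs w (a, a) (d, d) := by
  obtain ⟨x, hx, hxe⟩ := exists_L w
    (path_nonempty RD_Hs (diag_mem_Hs b) (diag_mem_Hs d) (by simp; omega) (by simp; omega))
  obtain ⟨y, hy, hye⟩ := exists_L w
    (path_nonempty RD_Hs (diag_mem_Hs a) (diag_mem_Hs c) (by simp; omega) (by simp; omega))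
  have ta : tm (a, a) = 2 * a := by simp only [tm]; ring
  have tb : tm (b, b) = 2 * b := by simp only [tm]; ring
  have tc : tm (c, c) = 2 * c := by simp only [tm]; ring
  have td : tm (d, d) = 2 * d := by simp only [tm]; ring
  have e1 : x (2 * b) = b := by have := hx.2.1; rwa [tb] at this
  have e2 : y (2 * c) = c := by have := hy.2.2.1; rwa [tc] at this
  have g1 := p_two_mul_ge hy (k := 2 * b) (by omega) (by omega)
  have g2 := p_two_mul_ge hx (k := 2 * c) (by omega) (by omega)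
  obtain ⟨r, r1, r2, r3⟩ := meet hx.1 hy.1 (by omega : 2 * b ≤ 2 * c) (by omega) (by omega)
  have := cross w hx hy r3 (by omega) (by omega) (by omega) (by omega)
  rw [hxe, hye]
  linarith

end Pool.Agent.H374
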