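import Pool.Agent.H374.Stmts
import Pool.Agent.H374.Det

set_option autoImplicit false
open MeasureTheory ProbabilityTheory

namespace Pool.Agent.H374

/-! ## The cell map -/

/-- The cell map: `(I, J, w) ↦ (I', J', min I J)`. -/
noncomputable def burke_cell (p : ℝ × ℝ × ℝ) : ℝ × ℝ × ℝ :=
  (max (p.1 - p.2.1) 0 + p.2.2, max (p.2.1 - p.1) 0 + p.2.2, min p.1 p.2.1)

lemma burke_cell_cont : Continuous burke_cell := by
  unfold burke_cell
  fun_prop

lemma burke_cell_meas : Measurable burke_cell := burke_cell_cont.measurable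

/-- Linear piece, `I ≥ J`. -/
def burke_A1 (p : ℝ × ℝ × ℝ) : ℝ × ℝ × ℝ := (p.1 - p.2.1 + p.2.2, p.2.2, p.2.1)

/-- Linear piece, `I < J`. -/
def burke_A2 (p : ℝ × ℝ × ℝ) : ℝ × ℝ × ℝ := (p.2.2, p.2.1 - p.1 + p.2.2, p.1)

lemma burke_shear (f : ℝ × ℝ → ℝ) (hf : Measurable f) :
    MeasurePreserving (fun p : ℝ × ℝ × ℝ => (p.1 + f p.2, p.2)) volume volume := by
  have h : MeasurePreserving (fun p : (ℝ × ℝ) × ℝ => (p.1, p.2 + f p.1))
      ((volume : Measure (ℝ × ℝ)).prod (volume : Measure ℝ))
      ((volume : Measure (ℝ × ℝ)).prod (volume : Measure ℝ)) := by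
    refine (MeasurePreserving.id (volume : Measure (ℝ × ℝ))).skew_product
      (g := fun a b => b + f a) ?_ ?_
    · exact measurable_snd.add (hf.comp measurable_fst)
    · exact Filter.Eventually.of_forall fun a => (measurePreserving_add_right volume (f a)).map_eq
  have h1 : MeasurePreserving (Prod.swap : ℝ × ℝ × ℝ → (ℝ × ℝ) × ℝ)
      ((volume : Measure ℝ).prod (volume : Measure (ℝ × ℝ)))
      ((volume : Measure (ℝ × ℝ)).prod (volume : Measure ℝ)) := Measure.measurePreserving_swap
  have h2 : MeasurePreserving (Prod.swap : (ℝ × ℝ) × ℝ → ℝ × ℝ × ℝ)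
      ((volume : Measure (ℝ × ℝ)).prod (volume : Measure ℝ))
      ((volume : Measure ℝ).prod (volume : Measure (ℝ × ℝ))) := Measure.measurePreserving_swap
  exact h2.comp (h.comp h1)

lemma burke_swap23 :
    MeasurePreserving (fun p : ℝ × ℝ × ℝ => (p.1, p.2.2, p.2.1)) volume volume := by
  have h : MeasurePreserving (Prod.map id Prod.swap : ℝ × ℝ × ℝ → ℝ × ℝ × ℝ)
      ((volume : Measure ℝ).prod ((volume : Measure ℝ).prod (volume : Measure ℝ)))
      ((volume : Measure ℝ).prod ((volume : Measure ℝ).prod (volume : Measure ℝ))) :=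
    (MeasurePreserving.id _).prod Measure.measurePreserving_swap
  exact h

lemma burke_swap12 :
    MeasurePreserving (fun p : ℝ × ℝ × ℝ => (p.2.1, p.1, p.2.2)) volume volume := by
  have h1 : MeasurePreserving (MeasurableEquiv.prodAssoc.symm : ℝ × ℝ × ℝ → (ℝ × ℝ) × ℝ)
      ((volume : Measure ℝ).prod ((volume : Measure ℝ).prod (volume : Measure ℝ)))
      (((volume : Measure ℝ).prod (volume : Measure ℝ)).prod (volume : Measure ℝ)) :=
    (measurePreserving_prodAssoc _ _ _).symm
  have h2 : MeasurePreserving (Prod.map Prod.swap id : (ℝ × ℝ) × ℝ → (ℝ × ℝ) × ℝ)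
      (((volume : Measure ℝ).prod (volume : Measure ℝ)).prod (volume : Measure ℝ))
      (((volume : Measure ℝ).prod (volume : Measure ℝ)).prod (volume : Measure ℝ)) :=
    Measure.measurePreserving_swap.prod (MeasurePreserving.id _)
  have h3 : MeasurePreserving (MeasurableEquiv.prodAssoc : (ℝ × ℝ) × ℝ → ℝ × ℝ × ℝ)
      (((volume : Measure ℝ).prod (volume : Measure ℝ)).prod (volume : Measure ℝ))
      ((volume : Measure ℝ).prod ((volume : Measure ℝ).prod (volume : Measure ℝ))) :=
    measurePreserving_prodAssoc _ _ _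
  exact h3.comp (h2.comp h1)

lemma burke_A1_mp : MeasurePreserving burke_A1 volume volume := by
  have h := burke_swap23.comp (burke_shear (fun q => q.2 - q.1) (by fun_prop))
  have e : (fun p : ℝ × ℝ × ℝ => (p.1, p.2.2, p.2.1)) ∘
      (fun p : ℝ × ℝ × ℝ => (p.1 + (p.2.2 - p.2.1), p.2)) = burke_A1 := by
    funext p
    simp only [Function.comp, burke_A1]
    refine Prod.ext ?_ rfl
    simp only; ring
  rwa [e] at h

lemma burke_A2_mp : MeasurePreserving burke_A2 volume volume := by
  have h := burke_swap12.comp (burke_A1_mp.comp burke_swap12)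
  have e : (fun p : ℝ × ℝ × ℝ => (p.2.1, p.1, p.2.2)) ∘ (burke_A1 ∘
      (fun p : ℝ × ℝ × ℝ => (p.2.1, p.1, p.2.2))) = burke_A2 := by
    funext p
    simp only [Function.comp, burke_A1, burke_A2]
  rwa [e] at h

lemma burke_cell_vol : MeasurePreserving burke_cell volume volume := by
  refine ⟨burke_cell_meas, ?_⟩
  ext s hs
  rw [Measure.map_apply burke_cell_meas hs]
  have hA : MeasurableSet {p : ℝ × ℝ × ℝ | p.2.1 ≤ p.1} :=
    measurableSet_le (by fun_prop) (by fun_prop)
  set A : Set (ℝ × ℝ × ℝ) := {p : ℝ × ℝ × ℝ | p.2.1 ≤ p.1} with hAdef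
  have e1 : burke_cell ⁻¹' s ∩ A = burke_A1 ⁻¹' (s ∩ A) := by
    ext p
    simp only [hAdef, Set.mem_inter_iff, Set.mem_preimage, Set.mem_ofPred_eq]
    constructor
    · rintro ⟨h1, h2⟩
      refine ⟨?_, ?_⟩
      · have : burke_cell p = burke_A1 p := by
          simp only [burke_cell, burke_A1]
          rw [max_eq_left (by linarith), max_eq_right (by linarith), min_eq_right h2, zero_add]
        rwa [← this]
      · simp only [burke_A1]; linarith
    · rintro ⟨h1, h2⟩
      simp only [burke_A1] at h2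
      have h3 : p.2.1 ≤ p.1 := by linarith
      refine ⟨?_, h3⟩
      have : burke_cell p = burke_A1 p := by
        simp only [burke_cell, burke_A1]
        rw [max_eq_left (by linarith), max_eq_right (by linarith), min_eq_right h3, zero_add]
      rwa [this]
  have e2 : burke_cell ⁻¹' s \ A = burke_A2 ⁻¹' (s \ A) := by
    ext p
    simp only [hAdef, Set.mem_sdiff, Set.mem_preimage, Set.mem_ofPred_eq, not_le]
    constructor
    · rintro ⟨h1, h2⟩
      refine ⟨?_, ?_⟩
      · have : burke_cell p = burke_A2 p := by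
          simp only [burke_cell, burke_A2]
          rw [max_eq_right (by linarith), max_eq_left (by linarith), min_eq_left h2.le, zero_add]
        rwa [← this]
      · simp only [burke_A2]; linarith
    · rintro ⟨h1, h2⟩
      simp only [burke_A2] at h2
      have h3 : p.1 < p.2.1 := by linarith
      refine ⟨?_, h3⟩
      have : burke_cell p = burke_A2 p := by
        simp only [burke_cell, burke_A2]
        rw [max_eq_right (by linarith), max_eq_left (by linarith), min_eq_left h3.le, zero_add]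
      rwa [this]
  rw [← measure_inter_add_sdiff (burke_cell ⁻¹' s) hA, e1, e2,
    burke_A1_mp.measure_preimage (hs.inter hA).nullMeasurableSet,
    burke_A2_mp.measure_preimage (hs.diff hA).nullMeasurableSet,
    measure_inter_add_sdiff s hA]

/-- Product density. -/
noncomputable def burke_dens (lam α : ℝ) (p : ℝ × ℝ × ℝ) : ENNReal :=
  exponentialPDF lam p.1 * (exponentialPDF α p.2.1 * exponentialPDF 1 p.2.2)

lemma burke_pdf_meas (r : ℝ) : Measurable (exponentialPDF r) :=
  (measurable_exponentialPDFReal r).ennreal_ofReal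

lemma burke_dens_meas (lam α : ℝ) : Measurable (burke_dens lam α) := by
  unfold burke_dens
  have h := fun r => burke_pdf_meas r
  exact ((h lam).comp measurable_fst).mul
    (((h α).comp (measurable_fst.comp measurable_snd)).mul
      ((h 1).comp (measurable_snd.comp measurable_snd)))

lemma burke_exp_eq (r : ℝ) : expMeasure r = volume.withDensity (exponentialPDF r) := rfl

lemma burke_prod_eq {lam α : ℝ} (h1 : 0 < lam) (h2 : 0 < α) :
    (expMeasure lam).prod ((expMeasure α).prod (expMeasure 1))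
      = volume.withDensity (burke_dens lam α) := by
  have := isProbabilityMeasure_expMeasure h1
  have := isProbabilityMeasure_expMeasure h2
  have := isProbabilityMeasure_expMeasure one_pos
  rw [burke_exp_eq lam, burke_exp_eq α, burke_exp_eq 1]
  have hm : Measurable (fun z : ℝ × ℝ => exponentialPDF α z.1 * exponentialPDF 1 z.2) :=
    ((burke_pdf_meas α).comp measurable_fst).mul ((burke_pdf_meas 1).comp measurable_snd)
  rw [prod_withDensity (burke_pdf_meas α) (burke_pdf_meas 1),
    prod_withDensity (burke_pdf_meas lam) hm]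
  rfl

lemma burke_dens_nonneg {lam α : ℝ} (h1 : 0 < lam) (h2 : 0 < α) {p : ℝ × ℝ × ℝ}
    (hp : 0 ≤ p.1 ∧ 0 ≤ p.2.1 ∧ 0 ≤ p.2.2) :
    burke_dens lam α p = ENNReal.ofReal (lam * α *
      Real.exp (-(lam * p.1 + α * p.2.1 + p.2.2))) := by
  unfold burke_dens
  rw [exponentialPDF_of_nonneg hp.1, exponentialPDF_of_nonneg hp.2.1,
    exponentialPDF_of_nonneg hp.2.2, ← ENNReal.ofReal_mul (by positivity),
    ← ENNReal.ofReal_mul (by positivity)]
  congr 1
  rw [show -(lam * p.1 + α * p.2.1 + p.2.2) = -(lam * p.1) + (-(α * p.2.1) + -(1 * p.2.2)) by ring,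
    Real.exp_add, Real.exp_add]
  ring

lemma burke_dens_neg {lam α : ℝ} {p : ℝ × ℝ × ℝ}
    (hp : ¬ (0 ≤ p.1 ∧ 0 ≤ p.2.1 ∧ 0 ≤ p.2.2)) : burke_dens lam α p = 0 := by
  unfold burke_dens
  by_cases h1 : 0 ≤ p.1
  · by_cases h2 : 0 ≤ p.2.1
    · have h3 : p.2.2 < 0 := by
        by_contra h3
        exact hp ⟨h1, h2, not_lt.1 h3⟩
      rw [exponentialPDF_of_neg h3]; simp
    · rw [exponentialPDF_of_neg (not_le.1 h2)]; simp
  · rw [exponentialPDF_of_neg (not_le.1 h1)]; simp

lemma burke_cell_pos {p : ℝ × ℝ × ℝ} (hp : 0 ≤ p.1 ∧ 0 ≤ p.2.1 ∧ 0 ≤ p.2.2) :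
    0 ≤ (burke_cell p).1 ∧ 0 ≤ (burke_cell p).2.1 ∧ 0 ≤ (burke_cell p).2.2 := by
  refine ⟨?_, ?_, ?_⟩
  · exact add_nonneg (le_max_right _ _) hp.2.2
  · exact add_nonneg (le_max_right _ _) hp.2.2
  · exact le_min hp.1 hp.2.1

lemma burke_cell_invol (p : ℝ × ℝ × ℝ) : burke_cell (burke_cell p) = p := by
  obtain ⟨a, b, c⟩ := p
  rcases le_total b a with h | h
  · have e : burke_cell (a, b, c) = (a - b + c, c, b) := by
      simp only [burke_cell]
      rw [max_eq_left (by linarith), max_eq_right (by linarith), min_eq_right h, zero_add]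
    rw [e]
    simp only [burke_cell]
    rw [max_eq_left (by linarith), max_eq_right (by linarith), min_eq_right (by linarith), zero_add]
    refine Prod.ext ?_ (Prod.ext ?_ ?_) <;> simp
  · have e : burke_cell (a, b, c) = (c, b - a + c, a) := by
      simp only [burke_cell]
      rw [max_eq_right (by linarith), max_eq_left (by linarith), min_eq_left h, zero_add]
    rw [e]
    simp only [burke_cell]
    rw [max_eq_right (by linarith), max_eq_left (by linarith), min_eq_left (by linarith), zero_add]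
    refine Prod.ext ?_ (Prod.ext ?_ ?_) <;> simp

lemma burke_dens_cell {lam α : ℝ} (h1 : 0 < lam) (h2 : 0 < α) (h3 : lam + α = 1) (p : ℝ × ℝ × ℝ) :
    burke_dens lam α (burke_cell p) = burke_dens lam α p := by
  by_cases hp : 0 ≤ p.1 ∧ 0 ≤ p.2.1 ∧ 0 ≤ p.2.2
  · rw [burke_dens_nonneg h1 h2 hp, burke_dens_nonneg h1 h2 (burke_cell_pos hp)]
    congr 4
    simp only [burke_cell]
    have hα : α = 1 - lam := by linarith
    rcases le_total p.2.1 p.1 with h | h
    · rw [max_eq_left (by linarith), max_eq_right (by linarith), min_eq_right h, hα]; ring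
    · rw [max_eq_right (by linarith), max_eq_left (by linarith), min_eq_left h, hα]; ring
  · rw [burke_dens_neg hp, burke_dens_neg]
    intro h
    have := burke_cell_pos h
    rw [burke_cell_invol] at this
    exact hp this

/-- The cell map preserves `Exp(lam) × Exp(α) × Exp(1)`. -/
lemma burke_cell_mp {lam α : ℝ} (h1 : 0 < lam) (h2 : 0 < α) (h3 : lam + α = 1) :
    MeasurePreserving burke_cell ((expMeasure lam).prod ((expMeasure α).prod (expMeasure 1)))
      ((expMeasure lam).prod ((expMeasure α).prod (expMeasure 1))) := by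
  refine ⟨burke_cell_meas, ?_⟩
  rw [burke_prod_eq h1 h2]
  ext s hs
  rw [Measure.map_apply burke_cell_meas hs, withDensity_apply _ (burke_cell_meas hs),
    withDensity_apply _ hs]
  calc ∫⁻ a in burke_cell ⁻¹' s, burke_dens lam α a
      = ∫⁻ a in burke_cell ⁻¹' s, burke_dens lam α (burke_cell a) := by
        refine lintegral_congr fun a => ?_
        rw [burke_dens_cell h1 h2 h3]
    _ = ∫⁻ a in s, burke_dens lam α a :=
        burke_cell_vol.setLIntegral_comp_preimage hs (burke_dens_meas lam α)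


/-! ## Independent families and flips -/

/-- Independent exponential family with rates `ρ`. -/
structure BurkeGood {Ω : Type} [MeasurableSpace Ω] {ι : Type} (P : Measure Ω) (ρ : ι → ℝ)
    (X : ι → Ω → ℝ) : Prop where
  meas : ∀ i, Measurable (X i)
  indep : iIndepFun X P
  law : ∀ i, Measure.map (X i) P = expMeasure (ρ i)

/-- Apply the cell map to three coordinates. -/
noncomputable def burke_flip {ι : Type} [DecidableEq ι] (a b c : ι) (x : ι → ℝ) : ι → ℝ := fun i =>
  if i = a then (burke_cell (x a, x b, x c)).1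
  else if i = b then (burke_cell (x a, x b, x c)).2.1
  else if i = c then (burke_cell (x a, x b, x c)).2.2 else x i

lemma burke_triple {Ω : Type} [MeasurableSpace Ω] {P : Measure Ω} {ι : Type} {ρ : ι → ℝ}
    {X : ι → Ω → ℝ} (h : BurkeGood P ρ X) {a b c : ι} (hab : a ≠ b) (hac : a ≠ c) (hbc : b ≠ c) :
    Measure.map (fun ω => (X a ω, X b ω, X c ω)) P
      = (expMeasure (ρ a)).prod ((expMeasure (ρ b)).prod (expMeasure (ρ c))) := by
  have := h.indep.isProbabilityMeasure
  have h1 : IndepFun (X a) (fun ω => (X b ω, X c ω)) P :=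
    (h.indep.indepFun_prodMk h.meas b c a hab.symm hac.symm).symm
  have h2 : IndepFun (X b) (X c) P := h.indep.indepFun hbc
  have e1 := (indepFun_iff_map_prod_eq_prod_map_map (h.meas a).aemeasurable
    ((h.meas b).prodMk (h.meas c)).aemeasurable).1 h1
  have e2 := (indepFun_iff_map_prod_eq_prod_map_map (h.meas b).aemeasurable
    (h.meas c).aemeasurable).1 h2
  rw [e1, e2, h.law, h.law, h.law]

lemma burke_flip_good {Ω : Type} [MeasurableSpace Ω] {P : Measure Ω} {ι : Type} [DecidableEq ι]
    {ρ : ι → ℝ} {X : ι → Ω → ℝ} (h : BurkeGood P ρ X) {a b c : ι} (hab : a ≠ b) (hac : a ≠ c)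
    (hbc : b ≠ c) (ha : 0 < ρ a) (hb : 0 < ρ b) (hc : ρ c = 1) (hs : ρ a + ρ b = 1) :
    BurkeGood P ρ (fun i ω => burke_flip a b c (fun j => X j ω) i) := by
  classical
  have hP := h.indep.isProbabilityMeasure
  have i1 := isProbabilityMeasure_expMeasure ha
  have i2 := isProbabilityMeasure_expMeasure hb
  have i3 := isProbabilityMeasure_expMeasure one_pos
  set T : Ω → ℝ × ℝ × ℝ := fun ω => (X a ω, X b ω, X c ω) with hT
  have hTm : Measurable T := (h.meas a).prodMk ((h.meas b).prodMk (h.meas c))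
  set μ3 : Measure (ℝ × ℝ × ℝ) :=
    (expMeasure (ρ a)).prod ((expMeasure (ρ b)).prod (expMeasure 1)) with hμ3
  have hTlaw : Measure.map T P = μ3 := by
    rw [hT, burke_triple h hab hac hbc, hc]
  have hcell : MeasurePreserving burke_cell μ3 μ3 := burke_cell_mp ha hb hs
  have hTc : Measurable (fun ω => burke_cell (T ω)) := burke_cell_meas.comp hTm
  have hClaw : Measure.map (fun ω => burke_cell (T ω)) P = μ3 := by
    have : (fun ω => burke_cell (T ω)) = burke_cell ∘ T := rfl
    rw [this, ← Measure.map_map burke_cell_meas hTm, hTlaw, hcell.map_eq]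
  set Y : ι → Ω → ℝ := fun i ω => burke_flip a b c (fun j => X j ω) i with hY
  have Ya : Y a = fun ω => (burke_cell (T ω)).1 := by
    funext ω; simp [hY, burke_flip, hT]
  have Yb : Y b = fun ω => (burke_cell (T ω)).2.1 := by
    funext ω; simp [hY, burke_flip, hT, hab.symm]
  have Yc : Y c = fun ω => (burke_cell (T ω)).2.2 := by
    funext ω; simp [hY, burke_flip, hT, hac.symm, hbc.symm]
  have Yi : ∀ i, i ≠ a → i ≠ b → i ≠ c → Y i = X i := by
    intro i h1 h2 h3
    funext ω; simp [hY, burke_flip, h1, h2, h3]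
  have hYm : ∀ i, Measurable (Y i) := by
    intro i
    by_cases h1 : i = a
    · rw [h1, Ya]; exact measurable_fst.comp hTc
    by_cases h2 : i = b
    · rw [h2, Yb]; exact (measurable_fst.comp measurable_snd).comp hTc
    by_cases h3 : i = c
    · rw [h3, Yc]; exact (measurable_snd.comp measurable_snd).comp hTc
    · rw [Yi i h1 h2 h3]; exact h.meas i
  have la : Measure.map (Y a) P = expMeasure (ρ a) := by
    rw [Ya, show (fun ω => (burke_cell (T ω)).1) = Prod.fst ∘ (fun ω => burke_cell (T ω)) from rfl,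
      ← Measure.map_map measurable_fst hTc, hClaw, hμ3]
    exact Measure.map_fst_prod.trans (by simp)
  have lb : Measure.map (Y b) P = expMeasure (ρ b) := by
    rw [Yb, show (fun ω => (burke_cell (T ω)).2.1)
        = Prod.fst ∘ (Prod.snd ∘ (fun ω => burke_cell (T ω))) from rfl,
      ← Measure.map_map measurable_fst (measurable_snd.comp hTc),
      ← Measure.map_map measurable_snd hTc, hClaw, hμ3, Measure.map_snd_prod]
    simp only [measure_univ, one_smul]
    exact Measure.map_fst_prod.trans (by simp)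
  have lc : Measure.map (Y c) P = expMeasure (ρ c) := by
    rw [Yc, show (fun ω => (burke_cell (T ω)).2.2)
        = Prod.snd ∘ (Prod.snd ∘ (fun ω => burke_cell (T ω))) from rfl,
      ← Measure.map_map measurable_snd (measurable_snd.comp hTc),
      ← Measure.map_map measurable_snd hTc, hClaw, hμ3, Measure.map_snd_prod, hc]
    simp only [measure_univ, one_smul]
    exact Measure.map_snd_prod.trans (by simp)
  refine ⟨hYm, ?_, ?_⟩
  · rw [iIndepFun_iff_measure_inter_preimage_eq_mul]
    intro S sets hsets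
    set s' : ι → Set ℝ := fun i => if i ∈ S then sets i else Set.univ with hs'
    have hs'm : ∀ i, MeasurableSet (s' i) := by
      intro i
      by_cases hi : i ∈ S
      · simp only [hs', hi, if_true]; exact hsets i hi
      · simp [hs', hi]
    set R : Finset ι := S \ {a, b, c} with hR
    have haR : a ∉ R := by simp [hR]
    have hbR : b ∉ R := by simp [hR]
    have hcR : c ∉ R := by simp [hR]
    set S' : Finset ι := insert a (insert b (insert c R)) with hS'
    have hSS' : S ⊆ S' := by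
      intro i hi
      simp only [hS', hR, Finset.mem_insert, Finset.mem_sdiff, Finset.mem_singleton]
      tauto
    have eR : ∏ i ∈ S, P (Y i ⁻¹' sets i) = ∏ i ∈ S', P (Y i ⁻¹' s' i) := by
      rw [← Finset.prod_subset hSS' (f := fun i => P (Y i ⁻¹' s' i))]
      · refine Finset.prod_congr rfl fun i hi => ?_
        simp only [hs', hi, if_true]
      · intro i _ hi
        simp [hs', hi]
    have eL : (⋂ i ∈ S, Y i ⁻¹' sets i)
        = (T ⁻¹' (burke_cell ⁻¹' (s' a ×ˢ (s' b ×ˢ s' c)))) ∩ (⋂ i ∈ R, X i ⁻¹' s' i) := by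
      have e0 : (⋂ i ∈ S, Y i ⁻¹' sets i) = ⋂ i ∈ S', Y i ⁻¹' s' i := by
        ext ω
        simp only [Set.mem_iInter, Set.mem_preimage]
        constructor
        · intro hh i _
          by_cases hi : i ∈ S
          · simp only [hs', hi, if_true]; exact hh i hi
          · simp [hs', hi]
        · intro hh i hi
          have := hh i (hSS' hi)
          simpa only [hs', hi, if_true] using this
      rw [e0, hS', Finset.set_biInter_insert, Finset.set_biInter_insert, Finset.set_biInter_insert]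
      have e1 : (⋂ i ∈ R, Y i ⁻¹' s' i) = ⋂ i ∈ R, X i ⁻¹' s' i := by
        refine Set.iInter₂_congr fun i hi => ?_
        rw [Yi i (fun hh => haR (hh ▸ hi)) (fun hh => hbR (hh ▸ hi)) (fun hh => hcR (hh ▸ hi))]
      rw [e1, Ya, Yb, Yc]
      ext ω
      simp only [Set.mem_inter_iff, Set.mem_preimage, Set.mem_prod]
      tauto
    rw [eR, eL]
    -- independence of the triple and the rest
    have hdisj : Disjoint ({a, b, c} : Finset ι) R := by
      rw [hR]; exact Finset.disjoint_sdiff
    have hind := h.indep.indepFun_finset ({a, b, c} : Finset ι) R hdisj h.meas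
    have ma : a ∈ ({a, b, c} : Finset ι) := by simp
    have mb : b ∈ ({a, b, c} : Finset ι) := by simp
    have mc : c ∈ ({a, b, c} : Finset ι) := by simp
    have hind2 : IndepFun T (fun ω (i : R) => X i ω) P := by
      have hg : Measurable (fun f : ({a, b, c} : Finset ι) → ℝ =>
          (f ⟨a, ma⟩, f ⟨b, mb⟩, f ⟨c, mc⟩)) := by fun_prop
      exact hind.comp hg measurable_id
    have hbox : MeasurableSet (burke_cell ⁻¹' (s' a ×ˢ (s' b ×ˢ s' c))) :=
      burke_cell_meas ((hs'm a).prod ((hs'm b).prod (hs'm c)))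
    have e2 : (⋂ i ∈ R, X i ⁻¹' s' i)
        = (fun ω (i : R) => X i ω) ⁻¹' (Set.univ.pi fun i : R => s' i) := by
      ext ω
      simp only [Set.mem_iInter, Set.mem_preimage, Set.mem_univ_pi]
      constructor
      · intro hh i; exact hh i i.2
      · intro hh i hi; exact hh ⟨i, hi⟩
    have e3 : P (⋂ i ∈ R, X i ⁻¹' s' i) = ∏ i ∈ R, P (X i ⁻¹' s' i) :=
      h.indep.measure_inter_preimage_eq_mul R fun i _ => hs'm i
    have e4 := hind2.measure_inter_preimage_eq_mul _ _ hbox
      (MeasurableSet.univ_pi (fun i : R => hs'm i))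
    rw [← e2] at e4
    rw [e4, e3]
    have e5 : P (T ⁻¹' (burke_cell ⁻¹' (s' a ×ˢ (s' b ×ˢ s' c))))
        = expMeasure (ρ a) (s' a) * (expMeasure (ρ b) (s' b) * expMeasure 1 (s' c)) := by
      rw [← Measure.map_apply hTm hbox, hTlaw, hcell.measure_preimage
        ((hs'm a).prod ((hs'm b).prod (hs'm c))).nullMeasurableSet, hμ3, Measure.prod_prod,
        Measure.prod_prod]
    have e6 : ∏ i ∈ S', P (Y i ⁻¹' s' i) = P (Y a ⁻¹' s' a) * (P (Y b ⁻¹' s' b) *
        (P (Y c ⁻¹' s' c) * ∏ i ∈ R, P (X i ⁻¹' s' i))) := by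
      rw [hS', Finset.prod_insert (by
          simp only [Finset.mem_insert, not_or]; exact ⟨hab, hac, haR⟩),
        Finset.prod_insert (by simp only [Finset.mem_insert, not_or]; exact ⟨hbc, hbR⟩),
        Finset.prod_insert hcR]
      congr 3
      refine Finset.prod_congr rfl fun i hi => ?_
      rw [Yi i (fun hh => haR (hh ▸ hi)) (fun hh => hbR (hh ▸ hi)) (fun hh => hcR (hh ▸ hi))]
    rw [e5, e6, ← Measure.map_apply (hYm a) (hs'm a), ← Measure.map_apply (hYm b) (hs'm b),
      ← Measure.map_apply (hYm c) (hs'm c), la, lb, lc, hc]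
    ring
  · intro i
    by_cases h1 : i = a
    · rw [h1]; exact la
    by_cases h2 : i = b
    · rw [h2]; exact lb
    by_cases h3 : i = c
    · rw [h3]; exact lc
    · rw [Yi i h1 h2 h3]
      exact h.law i

/-! ## Deterministic tracking of the increments -/

/-- Process `t` cells of row `j`. -/
noncomputable def burke_row (ℓ : ℤ → ℤ) (j : ℤ) : ℕ → (ℤ × ℤ → ℝ) → (ℤ × ℤ → ℝ)
  | 0, x => x
  | t + 1, x => burke_flip (ℓ j + t + 1, 0) (ℓ j, j) (ℓ j + t + 1, j) (burke_row ℓ j t x)

/-- Process the rows `1, ..., k` up to column `N`. -/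
noncomputable def burke_all (ℓ : ℤ → ℤ) (N : ℤ) : ℕ → (ℤ × ℤ → ℝ) → (ℤ × ℤ → ℝ)
  | 0, x => x
  | k + 1, x => burke_row ℓ ((k : ℤ) + 1) (N - ℓ ((k : ℤ) + 1)).toNat (burke_all ℓ N k x)

/-- Invariant after processing `t` cells of row `j`. -/
structure BurkeInv (ℓ : ℤ → ℤ) (w : ℤ × ℤ → ℝ) (N j : ℤ) (t : ℕ) (y : ℤ × ℤ → ℝ) : Prop where
  a1 : ∀ i, ℓ j < i → i ≤ ℓ j + t → y (i, 0) = L (Dl ℓ) w (0, 0) (i, j) - L (Dl ℓ) w (0, 0) (i - 1, j)
  a2 : ∀ i, ℓ j + t < i → i ≤ N → y (i, 0)
    = L (Dl ℓ) w (0, 0) (i, j - 1) - L (Dl ℓ) w (0, 0) (i - 1, j - 1)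
  b : ∀ j', 1 ≤ j' → j' < j → y (ℓ j', j')
    = L (Dl ℓ) w (0, 0) (N, j') - L (Dl ℓ) w (0, 0) (N, j' - 1)
  b1 : y (ℓ j, j) = L (Dl ℓ) w (0, 0) (ℓ j + t, j) - L (Dl ℓ) w (0, 0) (ℓ j + t, j - 1)
  c1 : ∀ z : ℤ × ℤ, j < z.2 → y z = w z
  c2 : ∀ i, ℓ j + t < i → y (i, j) = w (i, j)

lemma burke_flip_other {ι : Type} [DecidableEq ι] {a b c i : ι} {x : ι → ℝ} (h1 : i ≠ a)
    (h2 : i ≠ b) (h3 : i ≠ c) : burke_flip a b c x i = x i := by
  simp [burke_flip, h1, h2, h3]

lemma burke_flip_a {ι : Type} [DecidableEq ι] {a b c : ι} {x : ι → ℝ} :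
    burke_flip a b c x a = max (x a - x b) 0 + x c := by
  simp [burke_flip, burke_cell]

lemma burke_flip_b {ι : Type} [DecidableEq ι] {a b c : ι} {x : ι → ℝ} (h : b ≠ a) :
    burke_flip a b c x b = max (x b - x a) 0 + x c := by
  simp [burke_flip, burke_cell, h]

lemma burke_inv_step {ℓ : ℤ → ℤ} (hℓ : Monotone ℓ) (h0 : ℓ 0 = 0) {w : ℤ × ℤ → ℝ} {N j : ℤ}
    (hj : 1 ≤ j) {t : ℕ} (ht : ℓ j + t + 1 ≤ N) {y : ℤ × ℤ → ℝ} (h : BurkeInv ℓ w N j t y) :
    BurkeInv ℓ w N j (t + 1)
      (burke_flip (ℓ j + t + 1, 0) (ℓ j, j) (ℓ j + t + 1, j) y) := by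
  have hj0 : (0 : ℤ) ≤ ℓ j := by rw [← h0]; exact hℓ (by omega)
  have hD : RD (Dl ℓ) := RD_Dl hℓ
  have hu : ((0 : ℤ), (0 : ℤ)) ∈ Dl ℓ := by simp [Dl, h0]
  have hv : (ℓ j + t + 1, j) ∈ Dl ℓ := by
    show ℓ j ≤ ℓ j + t + 1
    omega
  have hl : (ℓ j + t + 1 - 1, j) ∈ Dl ℓ := by
    show ℓ j ≤ ℓ j + t + 1 - 1
    omega
  have hrec := L_rec_both (w := w) hD hu hv (by show (0 : ℤ) < ℓ j + t + 1; omega)
    (by show (0 : ℤ) < j; omega) hl
  simp only at hrec
  have hI := h.a2 (ℓ j + t + 1) (by omega) (by omega)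
  have hJ := h.b1
  have hw := h.c2 (ℓ j + t + 1) (by omega)
  have e1 : (ℓ j + t + 1 - 1 : ℤ) = ℓ j + t := by ring
  rw [e1] at hrec hI
  have hab : ((ℓ j, j) : ℤ × ℤ) ≠ (ℓ j + t + 1, 0) := by
    intro hh; have := congrArg Prod.snd hh; simp only at this; omega
  refine ⟨?_, ?_, ?_, ?_, ?_, ?_⟩
  · intro i hi1 hi2
    push_cast at hi2
    rcases eq_or_ne i (ℓ j + t + 1) with rfl | hne
    · rw [burke_flip_a, hI, hJ, hw, e1, hrec]
      rcases le_total (L (Dl ℓ) w (0, 0) (ℓ j + t, j)) (L (Dl ℓ) w (0, 0) (ℓ j + t + 1, j - 1))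
        with h1 | h1
      · rw [max_eq_right h1, max_eq_left (by linarith)]; ring
      · rw [max_eq_left h1, max_eq_right (by linarith)]; ring
    · rw [burke_flip_other]
      · exact h.a1 i hi1 (by omega)
      · intro hh; exact hne (congrArg Prod.fst hh)
      · intro hh; have := congrArg Prod.snd hh; simp only at this; omega
      · intro hh; have := congrArg Prod.snd hh; simp only at this; omega
  · intro i hi1 hi2
    push_cast at hi1
    rw [burke_flip_other]
    · exact h.a2 i (by omega) hi2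
    · intro hh; have := congrArg Prod.fst hh; simp only at this; omega
    · intro hh; have := congrArg Prod.snd hh; simp only at this; omega
    · intro hh; have := congrArg Prod.snd hh; simp only at this; omega
  · intro j' h1 h2
    rw [burke_flip_other]
    · exact h.b j' h1 h2
    · intro hh; have := congrArg Prod.snd hh; simp only at this; omega
    · intro hh; have := congrArg Prod.snd hh; simp only at this; omega
    · intro hh; have := congrArg Prod.snd hh; simp only at this; omega
  · rw [burke_flip_b hab, hI, hJ, hw]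
    push_cast
    rw [show ℓ j + ((t : ℤ) + 1) = ℓ j + t + 1 by ring, hrec]
    rcases le_total (L (Dl ℓ) w (0, 0) (ℓ j + t, j)) (L (Dl ℓ) w (0, 0) (ℓ j + t + 1, j - 1))
      with h1 | h1
    · rw [max_eq_right h1, max_eq_right (by linarith)]; ring
    · rw [max_eq_left h1, max_eq_left (by linarith)]; ring
  · intro z hz
    rw [burke_flip_other]
    · exact h.c1 z hz
    · intro hh; have := congrArg Prod.snd hh; simp only at this; omega
    · intro hh; have := congrArg Prod.snd hh; simp only at this; omega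
    · intro hh; have := congrArg Prod.snd hh; simp only at this; omega
  · intro i hi
    push_cast at hi
    rw [burke_flip_other]
    · exact h.c2 i (by omega)
    · intro hh; have := congrArg Prod.snd hh; simp only at this; omega
    · intro hh; have := congrArg Prod.fst hh; simp only at this; omega
    · intro hh; have := congrArg Prod.fst hh; simp only at this; omega

lemma burke_inv_row {ℓ : ℤ → ℤ} (hℓ : Monotone ℓ) (h0 : ℓ 0 = 0) {w : ℤ × ℤ → ℝ} {N j : ℤ}
    (hj : 1 ≤ j) {y : ℤ × ℤ → ℝ} (h : BurkeInv ℓ w N j 0 y) (t : ℕ) (ht : ℓ j + t ≤ N) :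
    BurkeInv ℓ w N j t (burke_row ℓ j t y) := by
  induction t with
  | zero => exact h
  | succ t ih =>
    push_cast at ht
    exact burke_inv_step hℓ h0 hj (by omega) (ih (by omega))

/-- Invariant after complete rows. -/
structure BurkeFin (ℓ : ℤ → ℤ) (w : ℤ × ℤ → ℝ) (N k : ℤ) (y : ℤ × ℤ → ℝ) : Prop where
  a : ∀ i, ℓ k < i → i ≤ N → y (i, 0) = L (Dl ℓ) w (0, 0) (i, k) - L (Dl ℓ) w (0, 0) (i - 1, k)
  b : ∀ j', 1 ≤ j' → j' ≤ k → y (ℓ j', j')
    = L (Dl ℓ) w (0, 0) (N, j') - L (Dl ℓ) w (0, 0) (N, j' - 1)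
  c : ∀ z : ℤ × ℤ, k < z.2 → y z = w z

lemma burke_fin {ℓ : ℤ → ℤ} (hℓ : Monotone ℓ) (h0 : ℓ 0 = 0) (w : ℤ × ℤ → ℝ) {N : ℤ} (k : ℕ)
    (hk : ℓ k ≤ N) : BurkeFin ℓ w N k (burke_all ℓ N k w) := by
  have hD : RD (Dl ℓ) := RD_Dl hℓ
  have hu : ((0 : ℤ), (0 : ℤ)) ∈ Dl ℓ := by simp [Dl, h0]
  induction k with
  | zero =>
    refine ⟨?_, ?_, ?_⟩
    · intro i hi _
      simp only [Nat.cast_zero, h0] at hi
      have := L_rec_left (w := w) (v := (i, 0)) hD hu hi rfl
      simp only [burke_all, Nat.cast_zero]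
      rw [this]; ring
    · intro j' h1 h2
      simp only [Nat.cast_zero] at h2
      omega
    · intro z _; rfl
  | succ k ih =>
    have hkk : ℓ (k : ℤ) ≤ ℓ ((k : ℤ) + 1) := hℓ (by omega)
    push_cast at hk
    have ih := ih (by omega)
    have hk0 : (0 : ℤ) ≤ ℓ ((k : ℤ) + 1) := by rw [← h0]; exact hℓ (by omega)
    have hv : (ℓ ((k : ℤ) + 1), (k : ℤ) + 1) ∈ Dl ℓ := le_refl (ℓ ((k : ℤ) + 1))
    have hrec := L_rec_down (w := w) hD hu hv hk0 (by show (0 : ℤ) < (k : ℤ) + 1; omega)
      (Or.inr (by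
        show ¬ (ℓ ((k : ℤ) + 1) ≤ ℓ ((k : ℤ) + 1) - 1)
        omega))
    simp only at hrec
    have hinv : BurkeInv ℓ w N ((k : ℤ) + 1) 0 (burke_all ℓ N k w) := by
      refine ⟨?_, ?_, ?_, ?_, ?_, ?_⟩
      · intro i h1 h2
        simp only [Nat.cast_zero, add_zero] at h2
        omega
      · intro i h1 h2
        simp only [Nat.cast_zero, add_zero] at h1
        rw [add_sub_cancel_right]
        exact ih.a i (by omega) h2
      · intro j' h1 h2
        exact ih.b j' h1 (by omega)
      · simp only [Nat.cast_zero, add_zero]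
        rw [hrec, ih.c _ (by show (k : ℤ) < (k : ℤ) + 1; omega)]
        ring
      · intro z hz
        exact ih.c z (by omega)
      · intro i _
        exact ih.c _ (by show (k : ℤ) < (k : ℤ) + 1; omega)
    have hN : ((N - ℓ ((k : ℤ) + 1)).toNat : ℤ) = N - ℓ ((k : ℤ) + 1) :=
      Int.toNat_of_nonneg (by omega)
    have hr := burke_inv_row hℓ h0 (by omega) hinv (N - ℓ ((k : ℤ) + 1)).toNat (by omega)
    have e : burke_all ℓ N (k + 1) w
        = burke_row ℓ ((k : ℤ) + 1) (N - ℓ ((k : ℤ) + 1)).toNat (burke_all ℓ N k w) := rfl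
    rw [e]
    refine ⟨?_, ?_, ?_⟩
    · intro i h1 h2
      push_cast at h1 ⊢
      exact hr.a1 i h1 (by omega)
    · intro j' h1 h2
      push_cast at h2
      rcases eq_or_ne j' ((k : ℤ) + 1) with rfl | hne
      · have := hr.b1
        rw [hN, show ℓ ((k : ℤ) + 1) + (N - ℓ ((k : ℤ) + 1)) = N by ring] at this
        exact this
      · exact hr.b j' h1 (by omega)
    · intro z hz
      push_cast at hz
      exact hr.c1 z hz

/-! ## The origin plays no role -/

lemma burke_row_congr (ℓ : ℤ → ℤ) {j : ℤ} (hj : 1 ≤ j) (h0 : 0 ≤ ℓ j) (t : ℕ)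
    {x y : ℤ × ℤ → ℝ} (h : ∀ z, z ≠ (0, 0) → x z = y z) :
    ∀ z, z ≠ (0, 0) → burke_row ℓ j t x z = burke_row ℓ j t y z := by
  induction t with
  | zero => exact h
  | succ t ih =>
    intro z hz
    have ha := ih (ℓ j + t + 1, 0) (by
      intro hh; have := congrArg Prod.fst hh; simp only at this; omega)
    have hb := ih (ℓ j, j) (by
      intro hh; have := congrArg Prod.snd hh; simp only at this; omega)
    have hc := ih (ℓ j + t + 1, j) (by
      intro hh; have := congrArg Prod.snd hh; simp only at this; omega)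
    simp only [burke_row, burke_flip, ha, hb, hc, ih z hz]

lemma burke_all_congr {ℓ : ℤ → ℤ} (hℓ : Monotone ℓ) (h0 : ℓ 0 = 0) (N : ℤ) (k : ℕ)
    {x y : ℤ × ℤ → ℝ} (h : ∀ z, z ≠ (0, 0) → x z = y z) :
    ∀ z, z ≠ (0, 0) → burke_all ℓ N k x z = burke_all ℓ N k y z := by
  induction k with
  | zero => exact h
  | succ k ih =>
    have hk0 : (0 : ℤ) ≤ ℓ ((k : ℤ) + 1) := by rw [← h0]; exact hℓ (by omega)
    exact burke_row_congr ℓ (by omega) hk0 _ ih
/-! ## Scaling of the exponential law -/

lemma burke_exp_Iic {r : ℝ} (hr : 0 < r) (x : ℝ) :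
    (expMeasure r).real (Set.Iic x) = if 0 ≤ x then 1 - Real.exp (-(r * x)) else 0 := by
  have := isProbabilityMeasure_expMeasure hr
  rw [← cdf_eq_real, cdf_expMeasure_eq hr]

lemma burke_exp_scale {r c : ℝ} (hr : 0 < r) (hc : 0 < c) :
    Measure.map (fun x => c * x) (expMeasure r) = expMeasure (r / c) := by
  have i1 := isProbabilityMeasure_expMeasure hr
  have i2 := isProbabilityMeasure_expMeasure (div_pos hr hc)
  have hm : Measurable (fun x : ℝ => c * x) := by fun_prop
  have i3 : IsProbabilityMeasure (Measure.map (fun x => c * x) (expMeasure r)) :=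
    Measure.isProbabilityMeasure_map hm.aemeasurable
  refine Measure.eq_of_cdf _ _ ?_
  ext x
  rw [cdf_eq_real, cdf_eq_real, burke_exp_Iic (div_pos hr hc), measureReal_def,
    Measure.map_apply hm measurableSet_Iic, ← measureReal_def]
  have e : (fun x : ℝ => c * x) ⁻¹' Set.Iic x = Set.Iic (x / c) := by
    ext y
    simp only [Set.mem_preimage, Set.mem_Iic]
    rw [le_div_iff₀' hc]
  rw [e, burke_exp_Iic hr]
  by_cases hx : 0 ≤ x
  · rw [if_pos hx, if_pos (by positivity)]
    congr 3
    field_simp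
  · rw [if_neg hx, if_neg]
    intro hh
    apply hx
    have := mul_nonneg hh hc.le
    rwa [div_mul_cancel₀ _ hc.ne'] at this

/-! ## The Burke property -/

/-- Rates of the row model, `1` at the origin. -/
noncomputable def burke_rate (ℓ : ℤ → ℤ) (lam α : ℝ) : ℤ × ℤ → ℝ := fun z =>
  if z = (0, 0) then 1 else if z.2 = 0 then lam else if z.1 = ℓ z.2 then α else 1

lemma burke_rate_pos (ℓ : ℤ → ℤ) {lam α : ℝ} (h1 : 0 < lam) (h2 : 0 < α) (z : ℤ × ℤ) :
    0 < burke_rate ℓ lam α z := by
  unfold burke_rate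
  split_ifs <;> first | exact one_pos | assumption

lemma burke_row_good {Ω : Type} [MeasurableSpace Ω] {P : Measure Ω} {ℓ : ℤ → ℤ} {lam α : ℝ}
    (h1 : 0 < lam) (h2 : 0 < α) (h3 : lam + α = 1) {j : ℤ} (hj : 1 ≤ j) (h0 : 0 ≤ ℓ j) (t : ℕ)
    {X : ℤ × ℤ → Ω → ℝ} (h : BurkeGood P (burke_rate ℓ lam α) X) :
    BurkeGood P (burke_rate ℓ lam α) (fun z ω => burke_row ℓ j t (fun z' => X z' ω) z) := by
  induction t with
  | zero => exact h
  | succ t ih =>
    have ra : burke_rate ℓ lam α (ℓ j + t + 1, 0) = lam := by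
      unfold burke_rate
      rw [if_neg (by intro hh; have := congrArg Prod.fst hh; simp only at this; omega),
        if_pos rfl]
    have rb : burke_rate ℓ lam α (ℓ j, j) = α := by
      unfold burke_rate
      rw [if_neg (by intro hh; have := congrArg Prod.snd hh; simp only at this; omega),
        if_neg (by show ¬ (j = 0); omega), if_pos rfl]
    have rc : burke_rate ℓ lam α (ℓ j + t + 1, j) = 1 := by
      unfold burke_rate
      rw [if_neg (by intro hh; have := congrArg Prod.snd hh; simp only at this; omega),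
        if_neg (by show ¬ (j = 0); omega), if_neg (by show ¬ (ℓ j + t + 1 = ℓ j); omega)]
    exact burke_flip_good ih
      (a := (ℓ j + t + 1, 0)) (b := (ℓ j, j)) (c := (ℓ j + t + 1, j))
      (by intro hh; have := congrArg Prod.snd hh; simp only at this; omega)
      (by intro hh; have := congrArg Prod.snd hh; simp only at this; omega)
      (by intro hh; have := congrArg Prod.fst hh; simp only at this; omega)
      (by rw [ra]; exact h1) (by rw [rb]; exact h2) rc (by rw [ra, rb]; exact h3)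

lemma burke_all_good {Ω : Type} [MeasurableSpace Ω] {P : Measure Ω} {ℓ : ℤ → ℤ} {lam α : ℝ}
    (h1 : 0 < lam) (h2 : 0 < α) (h3 : lam + α = 1) (hℓ : Monotone ℓ) (h0 : ℓ 0 = 0) (N : ℤ) (k : ℕ)
    {X : ℤ × ℤ → Ω → ℝ} (h : BurkeGood P (burke_rate ℓ lam α) X) :
    BurkeGood P (burke_rate ℓ lam α) (fun z ω => burke_all ℓ N k (fun z' => X z' ω) z) := by
  induction k with
  | zero => exact h
  | succ k ih =>
    have hk0 : (0 : ℤ) ≤ ℓ ((k : ℤ) + 1) := by rw [← h0]; exact hℓ (by omega)
    exact burke_row_good h1 h2 h3 (by omega) hk0 _ ih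

lemma burke_start_good {Ω : Type} [MeasurableSpace Ω] {P : Measure Ω} {E : ℤ × ℤ → Ω → ℝ}
    (hE : Env P E) (ρ : ℤ × ℤ → ℝ) (hρ : ∀ z, 0 < ρ z) :
    BurkeGood P ρ (fun z ω => (ρ z)⁻¹ * E z ω) := by
  refine ⟨fun z => (hE.meas z).const_mul _, ?_, ?_⟩
  · exact hE.indep.comp (fun z x => (ρ z)⁻¹ * x) (fun z => by fun_prop)
  · intro z
    have e : (fun ω => (ρ z)⁻¹ * E z ω) = (fun x => (ρ z)⁻¹ * x) ∘ E z := rfl
    rw [e, ← Measure.map_map (by fun_prop) (hE.meas z), hE.law,
      burke_exp_scale one_pos (inv_pos.2 (hρ z))]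
    simp

theorem t_Burke : BurkeGen := by
  intro Ω _ P E hE ℓ hℓ h0 lam α hlam hα hsum k p
  set ρ := burke_rate ℓ lam α with hρ
  set X : ℤ × ℤ → Ω → ℝ := fun z ω => (ρ z)⁻¹ * E z ω with hX
  have hρpos : ∀ z, 0 < ρ z := burke_rate_pos ℓ hlam hα
  have hgood : BurkeGood P ρ X := burke_start_good hE ρ hρpos
  set N : ℤ := ℓ k + p with hN
  have hfinal := burke_all_good hlam hα hsum hℓ h0 N k hgood
  set Z : ℤ × ℤ → Ω → ℝ := fun z ω => burke_all ℓ N k (fun z' => X z' ω) z with hZ
  set g : Fin k ⊕ Fin p → ℤ × ℤ := fun s => match s with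
    | Sum.inl j => (ℓ ((j : ℤ) + 1), (j : ℤ) + 1)
    | Sum.inr i => (ℓ k + i + 1, 0) with hg
  have hk0 : (0 : ℤ) ≤ ℓ k := by rw [← h0]; exact hℓ (by omega)
  have hginj : Function.Injective g := by
    rintro (j | i) (j' | i') hh
    · have := congrArg Prod.snd hh
      simp only [hg] at this
      congr 1
      ext
      omega
    · have := congrArg Prod.snd hh
      simp only [hg] at this
      omega
    · have := congrArg Prod.snd hh
      simp only [hg] at this
      omega
    · have := congrArg Prod.fst hh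
      simp only [hg] at this
      congr 1
      ext
      omega
  have hind : iIndepFun (fun s => Z (g s)) P := hfinal.indep.precomp hginj
  have hmap := hind.map_fun_eq_pi_map (fun s => (hfinal.meas (g s)).aemeasurable)
  have hlawL : ∀ j : Fin k, Measure.map (Z (g (Sum.inl j))) P = expMeasure α := by
    intro j
    rw [hZ]
    have := hfinal.law (g (Sum.inl j))
    rw [this]
    congr 1
    simp only [hg, burke_rate]
    rw [if_neg (by intro hh; have := congrArg Prod.snd hh; simp only at this; omega),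
      if_neg (by omega), if_pos trivial]
  have hlawR : ∀ i : Fin p, Measure.map (Z (g (Sum.inr i))) P = expMeasure lam := by
    intro i
    have := hfinal.law (g (Sum.inr i))
    rw [hZ, this]
    congr 1
    simp only [hg, burke_rate]
    rw [if_neg (by intro hh; have := congrArg Prod.fst hh; simp only at this; omega),
      if_pos trivial]
  have iP : ∀ s, IsProbabilityMeasure (Measure.map (Z (g s)) P) := by
    intro s
    have := hE.prob
    exact Measure.isProbabilityMeasure_map (hfinal.meas (g s)).aemeasurable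
  have hprod := (measurePreserving_sumPiEquivProdPi
    (fun s : Fin k ⊕ Fin p => Measure.map (Z (g s)) P)).map_eq
  rw [← hmap, Measure.map_map (MeasurableEquiv.measurable _)
    (measurable_pi_lambda _ fun s => hfinal.meas (g s))] at hprod
  simp only [hlawL, hlawR] at hprod
  rw [← hprod]
  congr 1
  funext ω
  -- the deterministic identification
  set w : ℤ × ℤ → ℝ := wgt (cRow ℓ lam α) E ω with hw
  have hagree : ∀ z, z ≠ (0, 0) → w z = X z ω := by
    intro z hz
    simp only [hw, wgt, cRow, hX, hρ, burke_rate, if_neg hz]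
    split_ifs <;> simp
  have hfin := burke_fin hℓ h0 w (N := N) k (by omega)
  have hcongr := burke_all_congr hℓ h0 N k hagree
  refine Prod.ext ?_ ?_
  · funext j
    have h5 := hfin.b ((j : ℤ) + 1) (by omega) (by have := j.2; omega)
    rw [add_sub_cancel_right] at h5
    have h6 := hcongr (ℓ ((j : ℤ) + 1), (j : ℤ) + 1) (by
      intro hh; have := congrArg Prod.snd hh; simp only at this; omega)
    rw [h6] at h5
    exact h5.symm
  · funext i
    have h5 := hfin.a (ℓ k + i + 1) (by omega) (by have := i.2; omega)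
    have h6 := hcongr (ℓ k + i + 1, 0) (by
      intro hh; have := congrArg Prod.fst hh; simp only at this; omega)
    rw [h6, show ℓ k + i + 1 - 1 = ℓ k + i by ring] at h5
    exact h5.symm

end Pool.Agent.H374
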