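import Pool.Agent.H374.CoreBlock

/-!
# The core theorem (section 10 of the paper)
-/

set_option autoImplicit false
set_option linter.unusedSectionVars false
open MeasureTheory ProbabilityTheory Finset

namespace Pool.Agent.H374
namespace CoreP

/-- A block of the partition. -/
def Bk {ι : Type} [DecidableEq ι] (D : ℕ → ι) (n j : ℕ) : Finset ι :=
  (Ico (j * n) ((j + 1) * n)).image D

theorem core_Bk_succ {ι : Type} [DecidableEq ι] (D : ℕ → ι) (n M j : ℕ) (hn : 1 ≤ n) :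
    Bk D (n * M) j = (range M).biUnion fun l => Bk D n (j * M + l) := by
  have e : Ico (j * (n * M)) ((j + 1) * (n * M))
      = (range M).biUnion fun l => Ico ((j * M + l) * n) ((j * M + l + 1) * n) := by
    ext t
    simp only [Finset.mem_Ico, Finset.mem_biUnion, Finset.mem_range]
    constructor
    · rintro ⟨h1, h2⟩
      have h3 : j * M ≤ t / n := by
        rw [Nat.le_div_iff_mul_le (by omega)]
        calc j * M * n = j * (n * M) := by ring
          _ ≤ t := h1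
      have h4 : t / n < (j + 1) * M := by
        rw [Nat.div_lt_iff_lt_mul (by omega)]
        calc t < (j + 1) * (n * M) := h2
          _ = (j + 1) * M * n := by ring
      refine ⟨t / n - j * M, ?_, ?_, ?_⟩
      · have : (j + 1) * M = j * M + M := by ring
        omega
      · rw [Nat.add_sub_cancel' h3]
        exact Nat.div_mul_le_self t n
      · rw [Nat.add_sub_cancel' h3]
        have := Nat.lt_div_mul_add (a := t) (b := n) (by omega)
        calc t < t / n * n + n := this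
          _ = _ := by ring
    · rintro ⟨l, hl, h1, h2⟩
      constructor
      · calc j * (n * M) = j * M * n := by ring
          _ ≤ (j * M + l) * n := Nat.mul_le_mul_right _ (by omega)
          _ ≤ t := h1
      · calc t < (j * M + l + 1) * n := h2
          _ ≤ ((j + 1) * M) * n := by
              refine Nat.mul_le_mul_right _ ?_
              have : (j + 1) * M = j * M + M := by ring
              omega
          _ = (j + 1) * (n * M) := by ring
  rw [Bk, e, Finset.biUnion_image]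
  rfl

theorem core_Bk_disj {ι : Type} [DecidableEq ι] (D : ℕ → ι) (T n i j : ℕ)
    (hD : Set.InjOn D (Set.Iio T)) (hi : (i + 1) * n ≤ T) (hj : (j + 1) * n ≤ T) (hij : i ≠ j) :
    Disjoint (Bk D n i) (Bk D n j) := by
  rw [Finset.disjoint_left]
  intro x hx hx'
  simp only [Bk, Finset.mem_image, Finset.mem_Ico] at hx hx'
  obtain ⟨s, ⟨hs1, hs2⟩, rfl⟩ := hx
  obtain ⟨t, ⟨ht1, ht2⟩, hst⟩ := hx'
  have hst' : t = s := hD (Set.mem_Iio.2 (lt_of_lt_of_le ht2 hj)) (Set.mem_Iio.2 (lt_of_lt_of_le hs2 hi)) hst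
  subst hst'
  rcases lt_or_gt_of_ne hij with h | h
  · have : (i + 1) * n ≤ j * n := Nat.mul_le_mul_right _ h
    omega
  · have : (j + 1) * n ≤ i * n := Nat.mul_le_mul_right _ h
    omega

theorem core_sum_mul (F : ℕ → ℝ) (n M : ℕ) :
    ∑ j ∈ range n, ∑ l ∈ range M, F (j * M + l) = ∑ i ∈ range (n * M), F i := by
  induction n with
  | zero => simp
  | succ n ih =>
    rw [Finset.sum_range_succ, ih, Nat.succ_mul, Finset.sum_range_add]

theorem core_Bk_whole {ι : Type} [DecidableEq ι] (D : ℕ → ι) (n r : ℕ) (hn : 1 ≤ n) :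
    (range (n * r)).image D = (range r).biUnion (Bk D n) := by
  have := core_Bk_succ D n r 0 hn
  rw [Bk] at this
  simp only [zero_mul, zero_add, one_mul] at this
  rw [Finset.range_eq_Ico, this]

/-- Pigeonhole over the levels. -/
theorem core_pigeon (S : ℕ → ℝ) (K : ℕ) (hK : 1 ≤ K) (B : ℝ) (h0 : S 0 ≤ B) (hp : 0 ≤ S K) :
    ∃ k, k < K ∧ S k - S (k + 1) ≤ B / K := by
  by_contra hcon
  push Not at hcon
  have hK' : (0 : ℝ) < K := by exact_mod_cast hK
  have h1 : ∑ k ∈ range K, (B / K) < ∑ k ∈ range K, (S k - S (k + 1)) := by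
    refine Finset.sum_lt_sum_of_nonempty ⟨0, Finset.mem_range.2 (by omega)⟩ ?_
    intro k hk
    exact hcon k (Finset.mem_range.1 hk)
  have h2 : ∑ k ∈ range K, (S k - S (k + 1)) = S 0 - S K := Finset.sum_range_sub' S K
  rw [h2, Finset.sum_const, Finset.card_range, nsmul_eq_mul, mul_div_cancel₀ _ hK'.ne'] at h1
  linarith

theorem core_rpow (n M : ℕ) (hn : 1 ≤ n) (hM : 1 ≤ M) (c : ℝ) :
    (((((n * M : ℕ) : ℝ)) ^ ((1 : ℝ) / 3))⁻¹) ^ 2 * (c * ((n : ℕ) : ℝ) ^ ((((4 : ℕ) : ℝ) - 2) / 3))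
      = c * (M : ℝ) ^ (-(2 : ℝ) / 3) := by
  have hn' : (0 : ℝ) < n := by exact_mod_cast hn
  have hM' : (0 : ℝ) < M := by exact_mod_cast hM
  have e1 : (((((n * M : ℕ) : ℝ)) ^ ((1 : ℝ) / 3))⁻¹) ^ 2
      = (n : ℝ) ^ (-(2 : ℝ) / 3) * (M : ℝ) ^ (-(2 : ℝ) / 3) := by
    push_cast
    rw [← Real.rpow_neg (by positivity), ← Real.rpow_natCast, ← Real.rpow_mul (by positivity),
      ← Real.mul_rpow hn'.le hM'.le]
    congr 1
    norm_num
  have e2 : (n : ℝ) ^ (-(2 : ℝ) / 3) * (n : ℝ) ^ ((((4 : ℕ) : ℝ) - 2) / 3) = 1 := by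
    rw [← Real.rpow_add hn']
    norm_num
  rw [e1]
  calc _ = c * (M : ℝ) ^ (-(2 : ℝ) / 3)
      * ((n : ℝ) ^ (-(2 : ℝ) / 3) * (n : ℝ) ^ ((((4 : ℕ) : ℝ) - 2) / 3)) := by ring
    _ = _ := by rw [e2, mul_one]

theorem core_rpow1 (n : ℕ) (hn : 1 ≤ n) (c : ℝ) :
    ((n : ℝ)) ^ ((1 : ℝ) / 3) * (c * (n : ℝ) ^ ((((1 : ℕ) : ℝ) - 2) / 3)) = c := by
  have hn' : (0 : ℝ) < n := by exact_mod_cast hn
  have e2 : (n : ℝ) ^ ((1 : ℝ) / 3) * (n : ℝ) ^ ((((1 : ℕ) : ℝ) - 2) / 3) = 1 := by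
    rw [← Real.rpow_add hn']
    norm_num
  calc _ = c * ((n : ℝ) ^ ((1 : ℝ) / 3) * (n : ℝ) ^ ((((1 : ℕ) : ℝ) - 2) / 3)) := by ring
    _ = _ := by rw [e2, mul_one]

theorem core_chooseM (c : ℝ) (hc : 0 < c) : ∃ M : ℕ, 2 ≤ M ∧ (M : ℝ) ^ (-(2 : ℝ) / 3) ≤ c := by
  have h1 : Filter.Tendsto (fun n : ℕ => (n : ℝ) ^ (-((2 : ℝ) / 3))) Filter.atTop (nhds 0) :=
    (tendsto_rpow_neg_atTop (by norm_num)).comp tendsto_natCast_atTop_atTop
  obtain ⟨M, hM1, hM2⟩ := ((h1.eventually_le_const hc).and (Filter.eventually_ge_atTop 2)).exists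
  refine ⟨M, hM2, ?_⟩
  rw [neg_div]
  exact hM1

end CoreP

open CoreP

theorem t_Core (h : LemmaA) : CoreStmt := by
  intro CJ η hCJ hη
  obtain ⟨C, hC, hLA⟩ := h (η / (12 * CJ)) (by positivity)
  have hLA' : LemmaAt (η / (12 * CJ)) C := hLA
  obtain ⟨M, hM2, hM⟩ := core_chooseM (η / (96 * C * CJ)) (by positivity)
  obtain ⟨K0, hK0⟩ := exists_nat_gt (6 * (C + 1) * CJ / η)
  refine ⟨M, K0 + 1, hM2, by omega, ?_⟩
  obtain ⟨K, hKe⟩ : ∃ K, K = K0 + 1 := ⟨_, rfl⟩
  rw [← hKe]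
  have hK1 : 1 ≤ K := by omega
  have hK' : 6 * (C + 1) * CJ / η < K := by
    rw [hKe]; push_cast; linarith
  clear hKe hK0
  intro N0 hN0 r hr V hV ι _ _ ν _ hnn hν D hD Ψ hΨ hmono hJ
  have hK0' : (0 : ℝ) < K := by exact_mod_cast hK1
  set f : LGs ι := ⟨Ψ, hΨ⟩ with hf
  have hsys := core_sys (ι := ι) hν
  obtain ⟨N, hN⟩ : ∃ N : ℕ → ℕ, N = fun k => N0 * M ^ k := ⟨_, rfl⟩
  have hNs : ∀ k, N (k + 1) = N k * M := fun k => by rw [hN]; simp only [pow_succ]; ring
  have hN1 : ∀ k, 1 ≤ N k := fun k => by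
    rw [hN]; exact Nat.one_le_iff_ne_zero.2 (Nat.mul_ne_zero (by omega) (pow_ne_zero _ (by omega)))
  obtain ⟨cnt, hcnt⟩ : ∃ cnt : ℕ → ℕ, cnt = fun k => M ^ (K - k) * r := ⟨_, rfl⟩
  have hcs : ∀ k, k < K → cnt k = cnt (k + 1) * M := fun k hk => by
    have : K - k = (K - (k + 1)) + 1 := by omega
    rw [hcnt]; simp only [this, pow_succ]; ring
  have htot : ∀ k, k ≤ K → cnt k * N k = N0 * M ^ K * r := fun k hk => by
    rw [hcnt, hN]
    have : M ^ K = M ^ (K - k) * M ^ k := by rw [← pow_add]; congr 1; omega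
    simp only [this]; ring
  obtain ⟨S, hS⟩ : ∃ S : ℕ → ℝ, S = fun k => ∑ j ∈ range (cnt k),
    VV (BL (ι := ι) hν) (PL (ι := ι) hν) f (Bk D (N k) j) := ⟨_, rfl⟩
  have hSk : ∀ k, S k = ∑ j ∈ range (cnt k),
    VV (BL (ι := ι) hν) (PL (ι := ι) hν) f (Bk D (N k) j) := fun k => by rw [hS]
  have hV0 : ∀ A, 0 ≤ VV (BL (ι := ι) hν) (PL (ι := ι) hν) f A := fun A => core_V_nonneg hsys f A
  have hJ' : ∀ k : ℕ, k ≤ K → ∀ q : ℕ, (q = 1 ∨ q = 2 ∨ q = 4) →
      ∑ j ∈ range (cnt k), ∫ x, ZZ Ψ (Bk D (N k) j) x ^ q ∂(Measure.pi fun _ : ι => ν)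
        ≤ CJ * V * ((N k : ℕ) : ℝ) ^ (((q : ℝ) - 2) / 3) := by
    intro k hk q hq
    have := hJ k hk q hq
    rw [hcnt, hN]
    exact this
  -- consecutive levels
  have hsplit : ∀ k, k < K → S k = ∑ j ∈ range (cnt (k + 1)), ∑ l ∈ range M,
      VV (BL (ι := ι) hν) (PL (ι := ι) hν) f (Bk D (N k) (j * M + l)) := by
    intro k hk
    rw [hSk, hcs k hk]
    exact (core_sum_mul (fun i => VV (BL (ι := ι) hν) (PL (ι := ι) hν) f (Bk D (N k) i)) _ _).symm
  have hmonoS : ∀ k, k < K → S (k + 1) ≤ S k := by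
    intro k hk
    rw [hsplit k hk, hSk]
    refine Finset.sum_le_sum fun j hj => ?_
    rw [hNs, core_Bk_succ D (N k) M j (hN1 k)]
    exact core_V_biUnion hsys f _ M
  have hanti : ∀ k, k ≤ K → S K ≤ S k := by
    intro k hk
    induction hn : K - k generalizing k with
    | zero =>
      have : k = K := by omega
      rw [this]
    | succ n ih =>
      exact (ih (k + 1) (by omega) (by omega)).trans (hmonoS k (by omega))
  have hS0 : S 0 ≤ CJ * V := by
    have h2 := hJ' 0 (by omega) 2 (by norm_num)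
    have e : (((2 : ℕ) : ℝ) - 2) / 3 = 0 := by norm_num
    rw [e, Real.rpow_zero, mul_one] at h2
    refine le_trans ?_ h2
    rw [hSk]
    exact Finset.sum_le_sum fun j _ => core_V_le_Z hν f _
  have hSK : 0 ≤ S K := by
    rw [hSk]; exact Finset.sum_nonneg fun j _ => hV0 _
  obtain ⟨k, hk, hkS⟩ := core_pigeon S K hK1 (CJ * V) hS0 hSK
  -- the level `k + 1`
  set a : ℝ := ((N (k + 1) : ℕ) : ℝ) ^ ((1 : ℝ) / 3) with ha
  have hNpos : (0 : ℝ) < (N (k + 1) : ℕ) := by exact_mod_cast hN1 (k + 1)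
  have ha0 : 0 < a := Real.rpow_pos_of_pos hNpos _
  have hdis : ∀ j, j < cnt (k + 1) → ∀ l m, l < M → m < M → l ≠ m →
      Disjoint (Bk D (N k) (j * M + l)) (Bk D (N k) (j * M + m)) := by
    intro j hj l m hl hm hlm
    have hle : ∀ l, l < M → (j * M + l + 1) * N k ≤ N0 * M ^ K * r := by
      intro l hl
      rw [← htot (k + 1) (by omega), hNs]
      calc (j * M + l + 1) * N k ≤ ((j + 1) * M) * N k := by
            refine Nat.mul_le_mul_right _ ?_
            have : (j + 1) * M = j * M + M := by ring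
            omega
        _ ≤ (cnt (k + 1) * M) * N k :=
            Nat.mul_le_mul_right _ (Nat.mul_le_mul_right _ hj)
        _ = cnt (k + 1) * (N k * M) := by ring
    exact core_Bk_disj D _ (N k) _ _ hD (hle l hl) (hle m hm) (by omega)
  have hblock : ∀ j ∈ range (cnt (k + 1)),
      VV (BL (ι := ι) hν) (PL (ι := ι) hν) f (Bk D (N (k + 1)) j)
      ≤ (η / (12 * CJ)) * (∫ x, ZZ Ψ (Bk D (N (k + 1)) j) x ^ 2 ∂(Measure.pi fun _ : ι => ν)
          + a * ∫ x, ZZ Ψ (Bk D (N (k + 1)) j) x ^ 1 ∂(Measure.pi fun _ : ι => ν))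
        + (C + 1) * (∑ l ∈ range M, VV (BL (ι := ι) hν) (PL (ι := ι) hν) f (Bk D (N k) (j * M + l))
            - VV (BL (ι := ι) hν) (PL (ι := ι) hν) f (Bk D (N (k + 1)) j))
        + C * a⁻¹ ^ 2 * (16 * ∑ l ∈ range M, ∫ x, ZZ Ψ (Bk D (N k) (j * M + l)) x ^ 4
            ∂(Measure.pi fun _ : ι => ν)) := by
    intro j hj
    have := core_block hν hnn f hmono hC hLA' M (fun l => Bk D (N k) (j * M + l))
      (hdis j (Finset.mem_range.1 hj)) a ha0
    rw [← core_Bk_succ D (N k) M j (hN1 k), ← hNs] at this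
    simp only [pow_one]
    exact this
  have hsum := Finset.sum_le_sum hblock
  rw [Finset.sum_add_distrib, Finset.sum_add_distrib, ← Finset.mul_sum, ← Finset.mul_sum,
    ← Finset.mul_sum, Finset.sum_add_distrib, ← Finset.mul_sum, Finset.sum_sub_distrib,
    ← Finset.mul_sum, ← hsplit k hk, ← hSk] at hsum
  have hq4 : ∑ j ∈ range (cnt (k + 1)), ∑ l ∈ range M,
      ∫ x, ZZ Ψ (Bk D (N k) (j * M + l)) x ^ 4 ∂(Measure.pi fun _ : ι => ν)
      ≤ CJ * V * ((N k : ℕ) : ℝ) ^ ((((4 : ℕ) : ℝ) - 2) / 3) := by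
    rw [core_sum_mul (fun i => ∫ x, ZZ Ψ (Bk D (N k) i) x ^ 4 ∂(Measure.pi fun _ : ι => ν)),
      ← hcs k hk]
    exact hJ' k (by omega) 4 (by norm_num)
  have hq2 := hJ' (k + 1) (by omega) 2 (by norm_num)
  have e0 : (((2 : ℕ) : ℝ) - 2) / 3 = 0 := by norm_num
  rw [e0, Real.rpow_zero, mul_one] at hq2
  have hq1 := hJ' (k + 1) (by omega) 1 (by norm_num)
  have hq1' := mul_le_mul_of_nonneg_left hq1 ha0.le
  rw [ha, core_rpow1 (N (k + 1)) (hN1 _), ← ha] at hq1'
  have hai : 0 ≤ a⁻¹ ^ 2 := by positivity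
  have hq4' := mul_le_mul_of_nonneg_left hq4 hai
  have er := core_rpow (N k) M (hN1 k) (by omega) (CJ * V)
  rw [← hNs, ← ha] at er
  rw [er] at hq4'
  -- the whole block
  have hwhole : VV (BL (ι := ι) hν) (PL (ι := ι) hν) f
      ((range (N0 * M ^ K * r)).image D) ≤ S K := by
    have e : N0 * M ^ K * r = N K * r := by rw [hN]
    have e' : cnt K = r := by rw [hcnt]; simp
    rw [e, core_Bk_whole D (N K) r (hN1 K), hSk, e']
    exact core_V_biUnion hsys f _ r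
  have hle : VV (BL (ι := ι) hν) (PL (ι := ι) hν) f
      ((range (N0 * M ^ K * r)).image D) ≤ S (k + 1) := hwhole.trans (hanti (k + 1) (by omega))
  have hgoal := core_goal_eq hν f ((range (N0 * M ^ K * r)).image D)
  refine hgoal.le.trans ?_
  -- numerics
  have n1 : η / (12 * CJ) * (CJ * V + CJ * V) = η * V / 6 := by
    field_simp; ring
  have n2 : (C + 1) * (CJ * V / K) ≤ η * V / 6 := by
    have h6 : 6 * (C + 1) * CJ < η * K := by
      have := (div_lt_iff₀ hη).1 hK'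
      linarith
    rw [mul_div_assoc', div_le_div_iff₀ hK0' (by norm_num)]
    nlinarith
  have n3 : C * (16 * (CJ * V * (M : ℝ) ^ (-(2 : ℝ) / 3))) ≤ η * V / 6 := by
    have h7 : (96 * C * CJ) * (M : ℝ) ^ (-(2 : ℝ) / 3) ≤ η := by
      have := (le_div_iff₀' (show (0 : ℝ) < 96 * C * CJ by positivity)).1 hM
      exact this
    nlinarith
  have hε : 0 ≤ η / (12 * CJ) := by positivity
  have m1 := mul_le_mul_of_nonneg_left (add_le_add hq2 hq1') hε
  have m2 := mul_le_mul_of_nonneg_left hkS (show 0 ≤ C + 1 by linarith)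
  have m3 := mul_le_mul_of_nonneg_left hq4' (show 0 ≤ C * 16 by linarith)
  have hfin : S (k + 1) ≤ η * V / 6 + η * V / 6 + η * V / 6 := by
    rw [n1] at m1
    nlinarith
  linarith

end Pool.Agent.H374
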