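import Pool.Agent.H374.Stmts
import Pool.Agent.H374.Det
import Pool.Agent.H374.Tools

/-!
# Part 8: upper tail with curvature, heavy row, reversed increments, dyadic chaining
-/

set_option autoImplicit false
open MeasureTheory ProbabilityTheory Filter Topology

namespace Pool.Agent.H374

/-! ## Reflection of environments -/

lemma cv_refl_refl (N : ℤ) (z : ℤ × ℤ) : refl N (refl N z) = z := by
  simp [refl]

lemma cv_refl_inj (N : ℤ) : Function.Injective (refl N) := by
  intro a b h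
  have := congrArg (refl N) h
  rwa [cv_refl_refl, cv_refl_refl] at this

lemma cv_refl_Hs (N : ℤ) : {z : ℤ × ℤ | refl N z ∈ Hs} = Hs := by
  ext z
  simp only [refl, Hs, Set.mem_setOf_eq]
  constructor <;> intro h <;> omega

/-! ## Reversed increments -/

theorem cv_cross (w : ℤ × ℤ → ℝ) (m z : ℕ) (hz : 1 ≤ z) (hzm : z + 1 ≤ m) :
    L Hs w ((z : ℤ), 1) ((m : ℤ) + 1, (m : ℤ) + 1) + L Hs w ((z : ℤ) + 1, 1) ((m : ℤ), (m : ℤ)) ≤
      L Hs w ((z : ℤ), 1) ((m : ℤ), (m : ℤ)) +
        L Hs w ((z : ℤ) + 1, 1) ((m : ℤ) + 1, (m : ℤ) + 1) := by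
  have hu : (((z : ℤ), 1) : ℤ × ℤ) ∈ Hs := by simp [Hs]; omega
  have hu' : (((z : ℤ) + 1, 1) : ℤ × ℤ) ∈ Hs := by simp [Hs]
  obtain ⟨x, hx, hxe⟩ := exists_L w
    (path_nonempty RD_Hs hu (diag_mem_Hs ((m : ℤ) + 1)) (by simp; omega) (by simp))
  obtain ⟨y, hy, hye⟩ := exists_L w
    (path_nonempty RD_Hs hu' (diag_mem_Hs (m : ℤ)) (by simp; omega) (by simp; omega))
  have h1 : x ((z : ℤ) + 2) ≤ y ((z : ℤ) + 2) := by
    have a1 : x ((z : ℤ) + 1) = z := hx.2.1
    have a2 : y ((z : ℤ) + 2) = z + 1 := by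
      have := hy.2.1
      simp only [tm] at this
      rwa [show (z : ℤ) + 1 + 1 = z + 2 by ring] at this
    have a3 := hx.1 ((z : ℤ) + 1)
    rw [show (z : ℤ) + 1 + 1 = z + 2 by ring, a1] at a3
    omega
  have h2 : y (2 * (m : ℤ)) ≤ x (2 * (m : ℤ)) := by
    have a1 : y (2 * (m : ℤ)) = m := by
      have := hy.2.2.1
      simp only [tm] at this
      rwa [show (m : ℤ) + m = 2 * m by ring] at this
    have a2 := p_two_mul_ge hx (k := 2 * (m : ℤ)) (by simp only [tm]; omega) (by simp only [tm]; omega)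
    omega
  obtain ⟨r, hr1, hr2, hr3⟩ := meet hx.1 hy.1 (by omega) h1 h2
  have := cross w hx hy hr3 (by simp only [tm]; omega) (by simp only [tm]; omega)
    (by simp only [tm]; omega) (by simp only [tm]; omega)
  rw [hxe, hye]
  exact this

lemma cv_congr (m : ℕ) (α lam : ℝ) {Ω : Type} (E : ℤ × ℤ → Ω → ℝ) (ω : Ω) (z : ℤ) :
    L Hs (wgt (cH α) E ω) (z, 1) ((m : ℤ), (m : ℤ)) =
      L Hs (fun q => wgt (cRow id lam α) (fun z => E (refl ((m : ℤ) + 1) z)) ω
        (refl ((m : ℤ) + 1) q)) (z, 1) ((m : ℤ), (m : ℤ)) := by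
  refine L_congr fun q hq _ => ?_
  rw [mem_rect] at hq
  simp only at hq
  show cH α q * E q ω = cRow id lam α (refl ((m : ℤ) + 1) q) *
    E (refl ((m : ℤ) + 1) (refl ((m : ℤ) + 1) q)) ω
  rw [cv_refl_refl]
  congr 1
  have e : refl ((m : ℤ) + 1) q = ((m : ℤ) + 1 - q.2, (m : ℤ) + 1 - q.1) := rfl
  rw [e]
  have n1 : ¬ (((m : ℤ) + 1 - q.2, (m : ℤ) + 1 - q.1) = ((0 : ℤ), (0 : ℤ))) := by
    intro h
    have := congrArg Prod.snd h
    simp only at this
    omega
  have n2 : ¬ ((m : ℤ) + 1 - q.1 = 0) := by omega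
  unfold cH cRow
  rw [if_neg n1]
  simp only [id]
  rw [if_neg n2]
  by_cases h : q.1 = q.2
  · rw [if_pos h, if_pos (by omega)]
  · rw [if_neg h, if_neg (by omega)]

theorem t_RevIncr (h : BurkeGen) : RevIncr := by
  intro Ω _ P E hE m hm α hα hα1
  have hE' : Env P (fun z => E (refl ((m : ℤ) + 1) z)) := hE.comp (cv_refl_inj _)
  have hP := hE.prob
  let A : ℕ → Ω → ℝ := fun j ω =>
    L (Dl id) (wgt (cRow id (1 - α) α) (fun z => E (refl ((m : ℤ) + 1) z)) ω) (0, 0)
      ((m : ℤ), (j : ℤ))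
  have hB := h Ω P _ hE' id monotone_id rfl (1 - α) α (by linarith) hα (by ring) m 0
  have hAm : ∀ j, Measurable (A j) := fun j =>
    measurable_L (fun z => measurable_wgt hE' _ z) _ _ _
  have hI : IIDExp P m (fun i ω => A (i + 1) ω - A i ω) α := by
    refine ⟨fun i _ => (hAm _).sub (hAm _), ?_⟩
    have h1 := congrArg (Measure.map Prod.fst) hB
    have hpr : IsProbabilityMeasure (expMeasure (1 - α)) :=
      isProbabilityMeasure_expMeasure (by linarith)
    rw [Measure.map_fst_prod] at h1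
    simp only [measure_univ, one_smul] at h1
    rw [← h1, Measure.map_map measurable_fst]
    · congr 1
    · refine Measurable.prodMk ?_ ?_
      · refine measurable_pi_lambda _ fun j => ?_
        exact (measurable_L (fun z => measurable_wgt hE' _ z) _ _ _).sub
          (measurable_L (fun z => measurable_wgt hE' _ z) _ _ _)
      · refine measurable_pi_lambda _ fun j => ?_
        exact (measurable_L (fun z => measurable_wgt hE' _ z) _ _ _).sub
          (measurable_L (fun z => measurable_wgt hE' _ z) _ _ _)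
  refine ⟨fun i ω => A (m - 1 - i + 1) ω - A (m - 1 - i) ω,
    hI.comp hα (fun i => m - 1 - i) ?_ ?_, Filter.Eventually.of_forall fun ω z hz hzm => ?_⟩
  · intro i hi j hj hij
    simp only [Set.mem_Iio] at hi hj
    simp only at hij
    omega
  · intro i hi
    omega
  · -- the pathwise inequality
    let w : ℤ × ℤ → ℝ := fun q => wgt (cRow id (1 - α) α) (fun z => E (refl ((m : ℤ) + 1) z)) ω
        (refl ((m : ℤ) + 1) q)
    have e1 : ∀ j : ℕ, 1 ≤ j → j ≤ m → L Hs w ((j : ℤ), 1) ((m : ℤ) + 1, (m : ℤ) + 1) = A (m + 1 - j) ω := by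
      intro j hj hjm
      rw [L_refl ((m : ℤ) + 1), cv_refl_Hs]
      simp only [A, w, cv_refl_refl]
      have : refl ((m : ℤ) + 1) ((m : ℤ) + 1, (m : ℤ) + 1) = (0, 0) := by simp [refl]
      rw [this]
      have : refl ((m : ℤ) + 1) ((j : ℤ), 1) = ((m : ℤ), ((m + 1 - j : ℕ) : ℤ)) := by
        simp only [refl, Prod.mk.injEq]
        constructor
        · ring
        · omega
      rw [this]
      rfl
    have hc := cv_cross w m z hz hzm
    have e2 := e1 z hz (by omega)
    have e3 := e1 (z + 1) (by omega) hzm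
    push_cast at e3
    rw [e2, e3] at hc
    have g1 : G1 (wgt (cH α) E ω) m z = L Hs w ((z : ℤ), 1) ((m : ℤ), (m : ℤ)) :=
      cv_congr m α (1 - α) E ω z
    have g2 : G1 (wgt (cH α) E ω) m (z + 1) = L Hs w ((z : ℤ) + 1, 1) ((m : ℤ), (m : ℤ)) := by
      have := cv_congr m α (1 - α) E ω ((z : ℤ) + 1)
      simp only [G1]
      push_cast
      exact this
    rw [g1, g2]
    have i1 : m - 1 - (z - 1) + 1 = m + 1 - z := by omega
    have i2 : m - 1 - (z - 1) = m - z := by omega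
    show A (m - 1 - (z - 1) + 1) ω - A (m - 1 - (z - 1)) ω ≤ _
    rw [i1, i2]
    have hc2 : A (m + 1 - z) ω + L Hs w ((z : ℤ) + 1, 1) ((m : ℤ), (m : ℤ)) ≤
      L Hs w ((z : ℤ), 1) ((m : ℤ), (m : ℤ)) + A (m - z) ω := hc
    linarith

/-! ## Chernoff bound -/

section
variable {Ω : Type} [MeasurableSpace Ω] {P : Measure Ω}

lemma cv_chernoff [IsProbabilityMeasure P] {X : Ω → ℝ} (hX : Measurable X) {K y : ℝ}
    (hK : ∫⁻ ω, ENNReal.ofReal (Real.exp (X ω)) ∂P ≤ ENNReal.ofReal (Real.exp K)) :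
    P.real {ω | y ≤ X ω} ≤ Real.exp (K - y) := by
  have h1 := mul_meas_ge_le_lintegral₀ (μ := P)
    (f := fun ω => ENNReal.ofReal (Real.exp (X ω)))
    ((Real.measurable_exp.comp hX).ennreal_ofReal.aemeasurable) (ENNReal.ofReal (Real.exp y))
  have h2 : {ω | y ≤ X ω} ⊆ {ω | ENNReal.ofReal (Real.exp y) ≤ ENNReal.ofReal (Real.exp (X ω))} := by
    intro ω hω
    exact ENNReal.ofReal_le_ofReal (Real.exp_le_exp.mpr hω)
  have h3 : ENNReal.ofReal (Real.exp y) * P {ω | y ≤ X ω} ≤ ENNReal.ofReal (Real.exp K) :=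
    (mul_le_mul_right (measure_mono h2) _).trans (h1.trans hK)
  have h4 := ENNReal.toReal_mono ENNReal.ofReal_ne_top h3
  rw [ENNReal.toReal_mul, ENNReal.toReal_ofReal (Real.exp_pos _).le,
    ENNReal.toReal_ofReal (Real.exp_pos _).le] at h4
  rw [Real.exp_sub, le_div_iff₀ (Real.exp_pos _), mul_comm]
  exact h4

end

/-! ## One-variable inequalities -/

lemma cv_hasDeriv {t : ℝ} (ht0 : 0 < t) (ht1 : 0 < 1 - t) : HasDerivAt
    (fun t : ℝ => Real.log t - Real.log (1 - t) - 4 * t) (t⁻¹ + (1 - t)⁻¹ - 4) t := by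
  have h1 : HasDerivAt (fun t : ℝ => Real.log (1 - t)) (-(1 - t)⁻¹) t := by
    have h := (((hasDerivAt_const t (1 : ℝ)).fun_sub (hasDerivAt_id' t)).log ht1.ne')
    convert h using 1
    field_simp
    ring
  have h2 := ((Real.hasDerivAt_log ht0.ne').fun_sub h1).fun_sub ((hasDerivAt_id' t).const_mul 4)
  refine h2.congr_deriv ?_
  ring

/-- `t ↦ log t - log (1-t) - 4 t` is monotone on `(0,1)`. -/
lemma cv_phi_mono : MonotoneOn (fun t : ℝ => Real.log t - Real.log (1 - t) - 4 * t)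
    (Set.Ioo 0 1) := by
  have hd : ∀ t ∈ Set.Ioo (0 : ℝ) 1, HasDerivAt
      (fun t : ℝ => Real.log t - Real.log (1 - t) - 4 * t) (t⁻¹ + (1 - t)⁻¹ - 4) t := by
    intro t ht
    exact cv_hasDeriv ht.1 (by linarith [ht.2])
  refine monotoneOn_of_deriv_nonneg (convex_Ioo 0 1) ?_ ?_ ?_
  · intro t ht
    exact (hd t ht).continuousAt.continuousWithinAt
  · intro t ht
    rw [interior_Ioo] at ht
    exact (hd t ht).differentiableAt.differentiableWithinAt
  · intro t ht
    rw [interior_Ioo] at ht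
    rw [(hd t ht).deriv]
    have h0 := ht.1
    have h1 : 0 < 1 - t := by linarith [ht.2]
    have : t⁻¹ + (1 - t)⁻¹ - 4 = (1 - 2 * t) ^ 2 / (t * (1 - t)) := by
      field_simp
      ring
    rw [this]
    positivity

lemma cv_heavy_ineq {α b : ℝ} (hα : 0 < α) (hb : 0 < b) (h : α + b < 1) :
    (1 - α - b) / (1 - α) * (α / (1 - (1 - α - b))) ≤ Real.exp (-(4 * b)) := by
  have h1 := cv_phi_mono (a := α) (b := α + b) ⟨hα, by linarith⟩ ⟨by linarith, h⟩ (by linarith)
  simp only at h1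
  have h2 : 0 < 1 - α := by linarith
  have h3 : 0 < 1 - (α + b) := by linarith
  have h4 : 0 < α + b := by linarith
  have e : (1 - α - b) / (1 - α) * (α / (1 - (1 - α - b))) =
      Real.exp (Real.log (1 - (α + b)) - Real.log (1 - α) + (Real.log α - Real.log (α + b))) := by
    rw [Real.exp_add, Real.exp_sub, Real.exp_sub, Real.exp_log h3, Real.exp_log h2,
      Real.exp_log hα, Real.exp_log h4]
    congr 2 <;> ring
  rw [e]
  exact Real.exp_le_exp.mpr (by linarith)

/-- `t ↦ 25 a² t - (log t - log (1-t) - 4 t)` is monotone near `1/2`. -/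
lemma cv_phi_upper {α a : ℝ} (ha : 0 < a) (ha' : a ≤ 1 / 16) (hα : |α - 1 / 2| ≤ a / 8) :
    (Real.log α - Real.log (1 - α)) - (Real.log (α - a) - Real.log (1 - (α - a)))
      ≤ 4 * a + 25 * a ^ 3 := by
  have hα' := abs_le.mp hα
  have hd : ∀ t ∈ Set.Icc (α - a) α, HasDerivAt
      (fun t : ℝ => 25 * a ^ 2 * t - (Real.log t - Real.log (1 - t) - 4 * t))
      (25 * a ^ 2 - (t⁻¹ + (1 - t)⁻¹ - 4)) t := by
    intro t ht
    have ht0 : 0 < t := by linarith [ht.1]
    have ht1 : 0 < 1 - t := by linarith [ht.2]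
    have h3 := ((hasDerivAt_id' t).const_mul (25 * a ^ 2)).fun_sub (cv_hasDeriv ht0 ht1)
    refine h3.congr_deriv ?_
    ring
  have hm : MonotoneOn (fun t : ℝ => 25 * a ^ 2 * t - (Real.log t - Real.log (1 - t) - 4 * t))
      (Set.Icc (α - a) α) := by
    refine monotoneOn_of_deriv_nonneg (convex_Icc _ _) ?_ ?_ ?_
    · intro t ht
      exact (hd t ht).continuousAt.continuousWithinAt
    · intro t ht
      exact (hd t (interior_subset ht)).differentiableAt.differentiableWithinAt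
    · intro t ht
      have ht' := interior_subset ht
      rw [(hd t ht').deriv]
      have ht0 : 0 < t := by linarith [ht'.1]
      have ht1 : 0 < 1 - t := by linarith [ht'.2]
      have hr1 : -(9 / 8 * a) ≤ t - 1 / 2 := by linarith [ht'.1]
      have hr2 : t - 1 / 2 ≤ 9 / 8 * a := by linarith [ht'.2]
      have hsq : (t - 1 / 2) ^ 2 ≤ (9 / 8 * a) ^ 2 := by
        nlinarith
      have e : t⁻¹ + (1 - t)⁻¹ - 4 = 4 * (t - 1 / 2) ^ 2 / (t * (1 - t)) := by
        field_simp
        ring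
      rw [e]
      have hp : 49 / 200 ≤ t * (1 - t) := by nlinarith
      have : 4 * (t - 1 / 2) ^ 2 / (t * (1 - t)) ≤ 25 * a ^ 2 := by
        rw [div_le_iff₀ (by positivity)]
        nlinarith [sq_nonneg a]
      linarith
  have h := hm ⟨le_rfl, by linarith⟩ ⟨by linarith, le_rfl⟩ (show α - a ≤ α by linarith)
  simp only at h
  nlinarith

lemma cv_log_lower {α a : ℝ} (ha : 0 < a) (ha' : a ≤ 1 / 16) (hα : |α - 1 / 2| ≤ a / 8) :
    2 * a + a ^ 2 / 2 ≤ Real.log α - Real.log (α - a) := by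
  have hα' := abs_le.mp hα
  have h0 : 0 < α := by linarith
  have h1 : 0 < α - a / 2 := by linarith
  have h2 : 0 < α - a := by linarith
  have e1 := Real.one_sub_inv_le_log_of_pos (x := α / (α - a / 2)) (by positivity)
  have e2 := Real.one_sub_inv_le_log_of_pos (x := (α - a / 2) / (α - a)) (by positivity)
  rw [Real.log_div h0.ne' h1.ne', inv_div] at e1
  rw [Real.log_div h1.ne' h2.ne', inv_div] at e2
  have f1 : a * (1 - a / 4) ≤ 1 - (α - a / 2) / α := by
    have : 1 - (α - a / 2) / α = (a / 2) / α := by field_simp; ring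
    rw [this, le_div_iff₀ h0]
    have : (1 - a / 4) * α ≤ 1 / 2 := by nlinarith
    nlinarith
  have f2 : a * (1 + 3 * a / 4) ≤ 1 - (α - a) / (α - a / 2) := by
    have : 1 - (α - a) / (α - a / 2) = (a / 2) / (α - a / 2) := by
      rw [eq_div_iff h1.ne', sub_mul, div_mul_cancel₀ _ h1.ne']
      ring
    rw [this, le_div_iff₀ h1]
    have : (1 + 3 * a / 4) * (α - a / 2) ≤ 1 / 2 := by nlinarith
    nlinarith
  nlinarith

/-! ## Row sums -/

lemma cv_row_sum (w : ℤ × ℤ → ℝ) (c : ℕ) :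
    L (Dl id) w (0, 0) ((c : ℤ), 0) = w (0, 0) + ∑ i ∈ Finset.range c, w ((i : ℤ) + 1, 0) := by
  have h0 : ((0, 0) : ℤ × ℤ) ∈ Dl id := by simp [Dl]
  induction c with
  | zero =>
    have := L_self (w := w) h0
    simpa using this
  | succ c ih =>
    rw [L_rec_left (v := (((c + 1 : ℕ) : ℤ), 0)) (RD_Dl monotone_id) h0
      (by show (0 : ℤ) < ((c + 1 : ℕ) : ℤ); omega) rfl]
    simp only
    rw [show (((c + 1 : ℕ) : ℤ) - 1) = (c : ℤ) by push_cast; ring, ih, Finset.sum_range_succ,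
      add_assoc]
    push_cast
    rfl

lemma cv_congr_row {Ω : Type} (E : ℤ × ℤ → Ω → ℝ) (ω : Ω) (lam α : ℝ) (u v : ℤ × ℤ) (hu : 1 ≤ u.2) :
    L Hs (wgt (cH α) E ω) u v = L (Dl id) (wgt (cRow id lam α) E ω) u v := by
  rw [← Hs_eq]
  refine L_congr fun q hq _ => ?_
  rw [mem_rect] at hq
  show cH α q * E q ω = cRow id lam α q * E q ω
  congr 1
  unfold cH cRow
  have n1 : ¬ (q = ((0 : ℤ), (0 : ℤ))) := by
    intro h
    have := congrArg Prod.snd h
    simp only at this
    omega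
  rw [if_neg n1, if_neg (by omega : ¬ q.2 = 0)]
  rfl

theorem t_HeavyRow (h : ExpMom) : HeavyRow := by
  intro Ω _ P E hE m hm α b hα hb hαb x
  have hP := hE.prob
  have hmom := h Ω P E hE id monotone_id rfl (1 - α - b) α (by linarith) (by linarith) hα
    (by linarith) m m le_rfl
  have hmeas : Measurable fun ω => (1 - α - b + α - 1) *
      L (Dl id) (wgt (cRow id (1 - α - b) α) E ω) (0, 0) ((m : ℤ), (m : ℤ)) :=
    (measurable_L (fun z => measurable_wgt hE _ z) _ _ _).const_mul _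
  have hK : ((1 - α - b) / (1 - α)) ^ m * (α / (1 - (1 - α - b))) ^ m ≤
      Real.exp (-(4 * b * m)) := by
    rw [← mul_pow, show -(4 * b * (m : ℝ)) = (m : ℝ) * (-(4 * b)) by ring, Real.exp_nat_mul]
    refine pow_le_pow_left₀ ?_ (cv_heavy_ineq hα hb hαb) m
    have : 0 < 1 - α := by linarith
    have : 0 < 1 - α - b := by linarith
    have : 0 < 1 - (1 - α - b) := by linarith
    positivity
  have hch := cv_chernoff (P := P) hmeas (K := -(4 * b * m)) (y := b * x - 4 * b * m)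
    (hmom.trans (ENNReal.ofReal_le_ofReal hK))
  rw [show -(4 * b * (m : ℝ)) - (b * x - 4 * b * m) = -(b * x) by ring] at hch
  refine le_trans (measureReal_mono ?_) hch
  intro ω hω
  simp only [Set.mem_setOf_eq] at hω ⊢
  suffices hs : L (Dl id) (wgt (cRow id (1 - α - b) α) E ω) (0, 0) ((m : ℤ), (m : ℤ)) ≤
      4 * (m : ℝ) - x by
    have := mul_le_mul_of_nonneg_left hs hb.le
    nlinarith
  have h0 : ((0, 0) : ℤ × ℤ) ∈ Dl id := by simp [Dl]
  have h1 : (((m : ℤ), (m : ℤ)) : ℤ × ℤ) ∈ Dl id := by simp [Dl]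
  obtain ⟨c, c1, c2, c3, c4, c5⟩ := L_row_split (wgt (cRow id (1 - α - b) α) E ω)
    (path_nonempty (RD_Dl monotone_id) h0 h1 (by simp) (by simp)) (j := 0) le_rfl
    (by simp; omega) (by simp only [tm]; omega)
  obtain ⟨p, hp⟩ := c4
  have hmem := p_mem hp (k := tm (c, 0 + 1)) le_rfl (by simp only [tm] at *; omega)
  have hvert : vert p (tm (c, 0 + 1)) = (c, 0 + 1) := by
    simp only [vert, hp.2.1]
    simp [tm]
  rw [hvert] at hmem
  have hc1 : 1 ≤ c := by simpa [Dl] using hmem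
  obtain ⟨z, rfl⟩ : ∃ z : ℕ, c = z := ⟨c.toNat, by omega⟩
  have hz := hω z (by omega) (by simpa using c2)
  rw [c5, cv_row_sum]
  have e1 : wgt (cRow id (1 - α - b) α) E ω (0, 0) = 0 := by
    simp [wgt, cRow]
  have e2 : ∀ i : ℕ, wgt (cRow id (1 - α - b) α) E ω ((i : ℤ) + 1, 0) =
      (1 - α - b)⁻¹ * E ((i : ℤ) + 1, 0) ω := by
    intro i
    unfold wgt cRow
    have n1 : ¬ (((i : ℤ) + 1, (0 : ℤ)) = ((0 : ℤ), (0 : ℤ))) := by
      intro h
      have := congrArg Prod.fst h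
      simp only at this
      omega
    rw [if_neg n1, if_pos rfl]
  have e3 := cv_congr_row E ω (1 - α - b) α ((z : ℤ), 0 + 1) ((m : ℤ), (m : ℤ)) (by simp)
  rw [e1, zero_add, ← e3]
  simp only [e2]
  simp only [G1] at hz
  simpa using hz

/-! ## Upper tail with curvature -/

lemma cv_key (h : ExpMom) {Ω : Type} [MeasurableSpace Ω] {P : Measure Ω} {E : ℤ × ℤ → Ω → ℝ}
    (hE : Env P E) {M k : ℕ} (hk : 1 ≤ k) (hkM : k ≤ M) {α a : ℝ} (ha : 0 < a) (hα : 0 < α)
    (hα1 : α < 1) (haα : a < α) {K : ℝ}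
    (hK : ((1 - α + a) / (1 - α)) ^ M * (α / (α - a)) ^ k ≤ Real.exp K) (y : ℝ) :
    P.real {ω | y ≤ L Hs (wgt (cH α) E ω) (1, 1) ((M : ℤ), (k : ℤ))} ≤ Real.exp (K - a * y) := by
  have hP := hE.prob
  have hmom := h Ω P E hE id monotone_id rfl (1 - α + a) α (by linarith) (by linarith) hα
    hα1 M k (by simpa using hkM)
  rw [show (1 - (1 - α + a)) = α - a by ring] at hmom
  have hmeas : Measurable fun ω => (1 - α + a + α - 1) *
      L (Dl id) (wgt (cRow id (1 - α + a) α) E ω) (0, 0) ((M : ℤ), (k : ℤ)) :=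
    (measurable_L (fun z => measurable_wgt hE _ z) _ _ _).const_mul _
  have hch := cv_chernoff (P := P) hmeas (K := K) (y := a * y)
    (hmom.trans (ENNReal.ofReal_le_ofReal hK))
  refine le_trans (ENNReal.toReal_mono (measure_ne_top _ _) (measure_mono_ae ?_)) hch
  filter_upwards [hE.nonneg] with ω hω hy
  replace hy : y ≤ L Hs (wgt (cH α) E ω) (1, 1) ((M : ℤ), (k : ℤ)) := hy
  show a * y ≤ (1 - α + a + α - 1) *
    L (Dl id) (wgt (cRow id (1 - α + a) α) E ω) (0, 0) ((M : ℤ), (k : ℤ))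
  have h1 : L Hs (wgt (cH α) E ω) (1, 1) ((M : ℤ), (k : ℤ)) ≤
      L (Dl id) (wgt (cRow id (1 - α + a) α) E ω) (0, 0) ((M : ℤ), (k : ℤ)) := by
    rw [cv_congr_row E ω (1 - α + a) α (1, 1) _ le_rfl]
    refine L_mono_ends (RD_Dl monotone_id) (by simp [Dl]) (by simp [Dl]; omega) (by simp [Dl])
      (by simp [Dl]; omega) (by simp) (by simp) le_rfl le_rfl (by simp; omega) (by simp; omega) ?_
    intro z _ _
    refine wgt_nonneg ?_ hω z
    intro z
    unfold cRow
    have : 0 < 1 - α + a := by linarith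
    split_ifs <;> positivity
  have h2 : a * y ≤ a * L (Dl id) (wgt (cRow id (1 - α + a) α) E ω) (0, 0) ((M : ℤ), (k : ℤ)) :=
    mul_le_mul_of_nonneg_left (hy.trans h1) ha.le
  rw [show (1 - α + a + α - 1) = a by ring]
  exact h2

lemma cv_rpow {M : ℕ} (hM : 1 ≤ M) : ∃ a : ℝ, (M : ℝ) ^ (-(1 : ℝ) / 3) = a ∧
    (M : ℝ) ^ (-(2 : ℝ) / 3) = a ^ 2 ∧ 0 < a ∧ a ≤ 1 ∧ (M : ℝ) * a ^ 3 = 1 := by
  have hM0 : (0 : ℝ) < M := by exact_mod_cast hM
  have hM1 : (1 : ℝ) ≤ M := by exact_mod_cast hM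
  refine ⟨_, rfl, ?_, Real.rpow_pos_of_pos hM0 _, ?_, ?_⟩
  · rw [← Real.rpow_natCast, ← Real.rpow_mul hM0.le]
    norm_num
  · exact Real.rpow_le_one_of_one_le_of_nonpos hM1 (by norm_num)
  · rw [← Real.rpow_natCast, ← Real.rpow_mul hM0.le]
    norm_num
    rw [Real.rpow_neg_one, mul_inv_cancel₀ hM0.ne']

/-- large `M` -/
lemma cv_large (h : ExpMom) {Ω : Type} [MeasurableSpace Ω] {P : Measure Ω} {E : ℤ × ℤ → Ω → ℝ}
    (hE : Env P E) {M k : ℕ} (hk : 1 ≤ k) (hkM : k ≤ M) {α a : ℝ} (ha : 0 < a)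
    (ha' : a ≤ 1 / 16) (hMa : (M : ℝ) * a ^ 3 = 1) (hα : |α - 1 / 2| ≤ a / 8) (y : ℝ) :
    P.real {ω | y ≤ L Hs (wgt (cH α) E ω) (1, 1) ((M : ℤ), (k : ℤ))} ≤
      Real.exp (25 + 4 * a * M - (M - k) * (2 * a + a ^ 2 / 2) - a * y) := by
  have hα' := abs_le.mp hα
  have h0 : 0 < α := by linarith
  have h1 : 0 < 1 - α := by linarith
  have h2 : 0 < α - a := by linarith
  have h3 : 0 < 1 - α + a := by linarith
  refine cv_key h hE hk hkM ha h0 (by linarith) (by linarith) ?_ y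
  have e1 : ((1 - α + a) / (1 - α)) ^ M * (α / (α - a)) ^ k = Real.exp
      (M * (Real.log (1 - α + a) - Real.log (1 - α)) + k * (Real.log α - Real.log (α - a))) := by
    rw [Real.exp_add, Real.exp_nat_mul, Real.exp_nat_mul, Real.exp_sub, Real.exp_sub,
      Real.exp_log h3, Real.exp_log h1, Real.exp_log h0, Real.exp_log h2]
  rw [e1]
  refine Real.exp_le_exp.mpr ?_
  have hu := cv_phi_upper ha ha' hα
  have hl := cv_log_lower ha ha' hα
  rw [show 1 - (α - a) = 1 - α + a by ring] at hu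
  have hM0 : (0 : ℝ) ≤ M := Nat.cast_nonneg M
  have hMk : (0 : ℝ) ≤ M - k := sub_nonneg.mpr (by exact_mod_cast hkM)
  have i1 := mul_le_mul_of_nonneg_left hu hM0
  have i2 := mul_le_mul_of_nonneg_left hl hMk
  nlinarith

/-- bounded `M` -/
lemma cv_small (h : ExpMom) {Ω : Type} [MeasurableSpace Ω] {P : Measure Ω} {E : ℤ × ℤ → Ω → ℝ}
    (hE : Env P E) {M k : ℕ} (hk : 1 ≤ k) (hkM : k ≤ M) (hM : M ≤ 4096) {α : ℝ}
    (hα : |α - 1 / 2| ≤ 1 / 8) {y : ℝ} :
    P.real {ω | y ≤ L Hs (wgt (cH α) E ω) (1, 1) ((M : ℤ), (k : ℤ))} ≤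
      Real.exp (4096 - 1 / 16 * y) := by
  have hα' := abs_le.mp hα
  have h0 : 0 < α := by linarith
  have h1 : 0 < 1 - α := by linarith
  have h2 : 0 < α - 1 / 16 := by linarith
  refine cv_key h hE hk hkM (a := 1 / 16) (by norm_num) h0 (by linarith) (by linarith) ?_ y
  have b1 : (1 - α + 1 / 16) / (1 - α) ≤ 6 / 5 := by
    rw [div_le_iff₀ h1]; linarith
  have b2 : α / (α - 1 / 16) ≤ 6 / 5 := by
    rw [div_le_iff₀ h2]; linarith
  have b3 : (6 / 5 : ℝ) ≤ Real.exp (1 / 5) := by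
    have := Real.add_one_le_exp (1 / 5 : ℝ)
    linarith
  have c1 : ((1 - α + 1 / 16) / (1 - α)) ^ M ≤ Real.exp (1 / 5 * 4096) := by
    calc ((1 - α + 1 / 16) / (1 - α)) ^ M ≤ (Real.exp (1 / 5)) ^ M :=
          pow_le_pow_left₀ (by positivity) (b1.trans b3) M
      _ = Real.exp (M * (1 / 5)) := by rw [Real.exp_nat_mul]
      _ ≤ _ := by
          refine Real.exp_le_exp.mpr ?_
          have : (M : ℝ) ≤ 4096 := by exact_mod_cast hM
          linarith
  have c2 : (α / (α - 1 / 16)) ^ k ≤ Real.exp (1 / 5 * 4096) := by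
    calc (α / (α - 1 / 16)) ^ k ≤ (Real.exp (1 / 5)) ^ k :=
          pow_le_pow_left₀ (by positivity) (b2.trans b3) k
      _ = Real.exp (k * (1 / 5)) := by rw [Real.exp_nat_mul]
      _ ≤ _ := by
          refine Real.exp_le_exp.mpr ?_
          have : (k : ℝ) ≤ 4096 := by exact_mod_cast hkM.trans hM
          linarith
  calc ((1 - α + 1 / 16) / (1 - α)) ^ M * (α / (α - 1 / 16)) ^ k
      ≤ Real.exp (1 / 5 * 4096) * Real.exp (1 / 5 * 4096) :=
        mul_le_mul c1 c2 (by positivity) (Real.exp_pos _).le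
    _ ≤ Real.exp 4096 := by
        rw [← Real.exp_add]
        exact Real.exp_le_exp.mpr (by norm_num)

theorem t_UpperCurv (h : ExpMom) : UpperCurv := by
  refine ⟨Real.exp 8192 + 16, by linarith [Real.exp_pos 8192], ?_⟩
  intro Ω _ P E hE M k hk hkM α hα s hs
  obtain ⟨a, ha1, ha2, ha0, hale, hMa⟩ := cv_rpow (hk.trans hkM)
  rw [ha1] at hα
  rw [ha1, ha2]
  set C : ℝ := Real.exp 8192 + 16 with hC
  have hCe : Real.exp 8192 ≤ C := by linarith
  have hC16 : 16 ≤ C := by linarith [Real.exp_pos 8192]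
  have hC0 : 0 < C := by linarith
  have hP := hE.prob
  have hMk : (0 : ℝ) ≤ M - k := sub_nonneg.mpr (by exact_mod_cast hkM)
  have hM0 : (0 : ℝ) ≤ M := Nat.cast_nonneg M
  have hk0 : (0 : ℝ) ≤ k := Nat.cast_nonneg k
  have hinv : (1 : ℝ) / C ≤ 1 / 16 := one_div_le_one_div_of_le (by norm_num) hC16
  have hinv0 : (0 : ℝ) ≤ 1 / C := by positivity
  by_cases hM : M ≤ 4096
  · have h1 := cv_small h hE hk hkM hM (hα.trans (by linarith))
      (y := 2 * (M : ℝ) + 2 * k - ((M : ℝ) - k) * a / C + s)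
    refine h1.trans ?_
    have hM' : (M : ℝ) ≤ 4096 := by exact_mod_cast hM
    have h2 : Real.exp (4096 - 1 / 16 * (2 * (M : ℝ) + 2 * k - ((M : ℝ) - k) * a / C + s)) ≤
        Real.exp 8192 * Real.exp (-(s * a) / C - ((M : ℝ) - k) * a ^ 2 / C) := by
      rw [← Real.exp_add]
      refine Real.exp_le_exp.mpr ?_
      have e1 : ((M : ℝ) - k) * a / C ≤ 2 * M := by
        rw [div_le_iff₀ hC0]; nlinarith
      have e2 : s * a / C ≤ s * (1 / 16) := by
        rw [div_le_iff₀ hC0]; nlinarith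
      have e3 : ((M : ℝ) - k) * a ^ 2 / C ≤ 4096 := by
        rw [div_le_iff₀ hC0]
        have : a ^ 2 ≤ 1 := by nlinarith
        nlinarith
      rw [neg_div]
      linarith
    exact h2.trans (mul_le_mul_of_nonneg_right hCe (Real.exp_pos _).le)
  · have hM' : (4096 : ℝ) ≤ M := by exact_mod_cast (not_le.mp hM).le
    have ha' : a ≤ 1 / 16 := by
      by_contra hcon
      push Not at hcon
      have : (1 / 16 : ℝ) ^ 3 < a ^ 3 := pow_lt_pow_left₀ hcon (by norm_num) (by norm_num)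
      nlinarith
    have h1 := cv_large h hE hk hkM ha0 ha' hMa hα
      (2 * (M : ℝ) + 2 * k - ((M : ℝ) - k) * a / C + s)
    refine h1.trans ?_
    have h2 : Real.exp (25 + 4 * a * M - (M - k) * (2 * a + a ^ 2 / 2)
        - a * (2 * (M : ℝ) + 2 * k - ((M : ℝ) - k) * a / C + s)) ≤
        Real.exp 8192 * Real.exp (-(s * a) / C - ((M : ℝ) - k) * a ^ 2 / C) := by
      rw [← Real.exp_add]
      refine Real.exp_le_exp.mpr ?_
      have e1 : a * (((M : ℝ) - k) * a / C) ≤ ((M : ℝ) - k) * a ^ 2 * (1 / 16) := by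
        have : a * (((M : ℝ) - k) * a / C) = ((M : ℝ) - k) * a ^ 2 * (1 / C) := by ring
        rw [this]
        exact mul_le_mul_of_nonneg_left hinv (by positivity)
      have e2 : s * a / C ≤ s * a := by
        rw [div_le_iff₀ hC0]; nlinarith [mul_nonneg hs ha0.le]
      have e3 : ((M : ℝ) - k) * a ^ 2 / C ≤ ((M : ℝ) - k) * a ^ 2 * (1 / 16) := by
        have : ((M : ℝ) - k) * a ^ 2 / C = ((M : ℝ) - k) * a ^ 2 * (1 / C) := by ring
        rw [this]
        exact mul_le_mul_of_nonneg_left hinv (by positivity)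
      have e4 : 0 ≤ ((M : ℝ) - k) * a ^ 2 := by positivity
      rw [neg_div]
      nlinarith
    exact h2.trans (mul_le_mul_of_nonneg_right hCe (Real.exp_pos _).le)

/-! ## The reflected form -/

lemma cv_G1_refl {Ω : Type} (E : ℤ × ℤ → Ω → ℝ) (ω : Ω) (α : ℝ) {m z : ℕ} (hzm : z ≤ m) :
    G1 (wgt (cH α) E ω) m z =
      L Hs (wgt (cH α) (fun q => E (refl ((m : ℤ) + 1) q)) ω) (1, 1)
        ((m : ℤ), ((m + 1 - z : ℕ) : ℤ)) := by
  unfold G1
  rw [L_refl ((m : ℤ) + 1), cv_refl_Hs]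
  have e1 : refl ((m : ℤ) + 1) ((m : ℤ), (m : ℤ)) = (1, 1) := by simp [refl]
  have e2 : refl ((m : ℤ) + 1) ((z : ℤ), 1) = ((m : ℤ), ((m + 1 - z : ℕ) : ℤ)) := by
    simp only [refl, Prod.mk.injEq]
    constructor
    · ring
    · omega
  rw [e1, e2]
  congr 1
  ext q
  simp only [wgt]
  congr 1
  simp only [cH, refl]
  by_cases hq : q.1 = q.2
  · rw [if_pos hq, if_pos (by omega)]
  · rw [if_neg hq, if_neg (by omega)]

theorem t_UpperRev (h : UpperCurv) : UpperRev := by
  obtain ⟨C, hC1, hC⟩ := h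
  have hC0 : 0 < C := by linarith
  refine ⟨2 * C * Real.exp 8, ?_, ?_⟩
  · have : 1 ≤ Real.exp 8 := Real.one_le_exp (by norm_num)
    nlinarith
  intro Ω _ P E hE m z hz hzm α hα s hs
  have hP := hE.prob
  have hE' : Env P (fun q => E (refl ((m : ℤ) + 1) q)) := hE.comp (cv_refl_inj _)
  have hm1 : 1 ≤ m := hz.trans hzm
  have key := fun s' hs' => hC Ω P _ hE' m (m + 1 - z) (by omega) (by omega) α hα s' hs'
  obtain ⟨a, ha1, ha2, ha0, hale, hMa⟩ := cv_rpow hm1
  simp only [ha1, ha2] at key ⊢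
  have hcast : ((m + 1 - z : ℕ) : ℝ) = m + 1 - z := by
    rw [Nat.cast_sub (by omega)]; push_cast; ring
  rw [hcast] at key
  have hz1 : (1 : ℝ) ≤ z := by exact_mod_cast hz
  have hexp8 : (1 : ℝ) ≤ Real.exp 8 := Real.one_le_exp (by norm_num)
  set D : ℝ := 2 * C * Real.exp 8 with hD
  have hD2C : 2 * C ≤ D := by nlinarith
  have hD0 : 0 < D := by positivity
  have hset : ∀ ω, G1 (wgt (cH α) E ω) m z =
      L Hs (wgt (cH α) (fun q => E (refl ((m : ℤ) + 1) q)) ω) (1, 1)
        ((m : ℤ), ((m + 1 - z : ℕ) : ℤ)) := fun ω => cv_G1_refl E ω α hzm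
  simp only [hset]
  have hzD : (z : ℝ) * a / D ≤ z * a / (2 * C) :=
    div_le_div_of_nonneg_left (by positivity) (by positivity) hD2C
  have hz2C : (z : ℝ) * a / (2 * C) = z * a / C / 2 := by
    rw [div_div, mul_comm C 2]
  have hzaC : 0 ≤ (z : ℝ) * a / C := by positivity
  by_cases hs3 : 3 ≤ s
  · -- shift by three
    have h1 := key (s - 3) (by linarith)
    refine le_trans (measureReal_mono ?_) (h1.trans ?_)
    · intro ω hω
      simp only [Set.mem_setOf_eq] at hω ⊢
      refine le_trans ?_ hω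
      have e1 : ((m : ℝ) - (m + 1 - z)) * a / C = z * a / C - a / C := by ring
      have e2 : a / C ≤ 1 := by rw [div_le_one hC0]; linarith
      rw [e1]
      linarith
    · have e0 : Real.exp (-((s - 3) * a) / C - ((m : ℝ) - (m + 1 - z)) * a ^ 2 / C) ≤
          Real.exp 4 * Real.exp (-(s * a) / D - z * a ^ 2 / D) := by
        rw [← Real.exp_add]
        refine Real.exp_le_exp.mpr ?_
        have f1 : s * a / D ≤ s * a / C :=
          div_le_div_of_nonneg_left (by positivity) hC0 (by linarith)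
        have f2 : z * a ^ 2 / D ≤ z * a ^ 2 / C :=
          div_le_div_of_nonneg_left (by positivity) hC0 (by linarith)
        have f3 : -((s - 3) * a) / C = 3 * (a / C) - s * a / C := by ring
        have f4 : ((m : ℝ) - (m + 1 - z)) * a ^ 2 / C = z * a ^ 2 / C - a ^ 2 / C := by ring
        have f5 : a / C ≤ 1 := by rw [div_le_one hC0]; linarith
        have f6 : a ^ 2 / C ≤ 1 := by rw [div_le_one hC0]; nlinarith
        rw [f3, f4, neg_div]
        linarith
      have e4 : Real.exp 4 ≤ Real.exp 8 := Real.exp_le_exp.mpr (by norm_num)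
      have e5 : C * Real.exp 4 ≤ D := by
        rw [hD]; nlinarith [Real.exp_pos 4]
      calc C * Real.exp (-((s - 3) * a) / C - ((m : ℝ) - (m + 1 - z)) * a ^ 2 / C)
          ≤ C * (Real.exp 4 * Real.exp (-(s * a) / D - z * a ^ 2 / D)) :=
            mul_le_mul_of_nonneg_left e0 hC0.le
        _ = (C * Real.exp 4) * Real.exp (-(s * a) / D - z * a ^ 2 / D) := by ring
        _ ≤ D * Real.exp (-(s * a) / D - z * a ^ 2 / D) :=
            mul_le_mul_of_nonneg_right e5 (Real.exp_pos _).le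
  · push Not at hs3
    by_cases hbig : 6 ≤ (z : ℝ) * a / C
    · have h1 := key s hs
      refine le_trans (measureReal_mono ?_) (h1.trans ?_)
      · intro ω hω
        simp only [Set.mem_setOf_eq] at hω ⊢
        refine le_trans ?_ hω
        have e1 : ((m : ℝ) - (m + 1 - z)) * a / C = z * a / C - a / C := by ring
        have e2 : a / C ≤ 1 := by rw [div_le_one hC0]; linarith
        rw [e1]
        linarith
      · have e0 : Real.exp (-(s * a) / C - ((m : ℝ) - (m + 1 - z)) * a ^ 2 / C) ≤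
            Real.exp 4 * Real.exp (-(s * a) / D - z * a ^ 2 / D) := by
          rw [← Real.exp_add]
          refine Real.exp_le_exp.mpr ?_
          have f1 : s * a / D ≤ s * a / C :=
            div_le_div_of_nonneg_left (by positivity) hC0 (by linarith)
          have f2 : z * a ^ 2 / D ≤ z * a ^ 2 / C :=
            div_le_div_of_nonneg_left (by positivity) hC0 (by linarith)
          have f4 : ((m : ℝ) - (m + 1 - z)) * a ^ 2 / C = z * a ^ 2 / C - a ^ 2 / C := by ring
          have f6 : a ^ 2 / C ≤ 1 := by rw [div_le_one hC0]; nlinarith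
          rw [f4, neg_div, neg_div]
          linarith
        have e4 : Real.exp 4 ≤ Real.exp 8 := Real.exp_le_exp.mpr (by norm_num)
        have e5 : C * Real.exp 4 ≤ D := by
          rw [hD]; nlinarith [Real.exp_pos 4]
        calc C * Real.exp (-(s * a) / C - ((m : ℝ) - (m + 1 - z)) * a ^ 2 / C)
            ≤ C * (Real.exp 4 * Real.exp (-(s * a) / D - z * a ^ 2 / D)) :=
              mul_le_mul_of_nonneg_left e0 hC0.le
          _ = (C * Real.exp 4) * Real.exp (-(s * a) / D - z * a ^ 2 / D) := by ring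
          _ ≤ D * Real.exp (-(s * a) / D - z * a ^ 2 / D) :=
              mul_le_mul_of_nonneg_right e5 (Real.exp_pos _).le
    · push Not at hbig
      refine le_trans measureReal_le_one ?_
      have f1 : s * a / D ≤ 3 := by
        rw [div_le_iff₀ hD0]; nlinarith
      have f2 : z * a ^ 2 / D ≤ 3 := by
        have : z * a ^ 2 / D ≤ z * a / C / 2 := by
          rw [← hz2C]
          refine le_trans ?_ (le_trans hzD le_rfl)
          refine div_le_div_of_nonneg_right ?_ hD0.le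
          have haa : a ^ 2 ≤ a := by nlinarith
          exact mul_le_mul_of_nonneg_left haa (by linarith)
        linarith
      have f3 : Real.exp (-6) ≤ Real.exp (-(s * a) / D - z * a ^ 2 / D) := by
        refine Real.exp_le_exp.mpr ?_
        rw [neg_div]; linarith
      have f4 : (1 : ℝ) ≤ D * Real.exp (-6) := by
        have : Real.exp 8 * Real.exp (-6) = Real.exp 2 := by
          rw [← Real.exp_add]; norm_num
        have h2 : (1 : ℝ) ≤ Real.exp 2 := Real.one_le_exp (by norm_num)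
        calc (1 : ℝ) ≤ 2 * C * Real.exp 2 := by nlinarith
          _ = D * Real.exp (-6) := by rw [hD, ← this]; ring
      exact f4.trans (mul_le_mul_of_nonneg_left f3 hD0.le)

/-! ## Dyadic chaining -/

section
variable {Y : ℕ → ℕ → ℝ} {g : ℕ} {M : ℕ → ℝ}

/-- chaining from the left end of a dyadic block -/
lemma cv_chain_left (hY : ∀ s t v, s < t → t < v → v ≤ g → Y s v ≤ Y s t + Y t v)
    (hM : Monotone M) (hM0 : ∀ i, 0 ≤ M i)
    (hb : ∀ i a, (a + 1) * 2 ^ i ≤ g → Y (a * 2 ^ i) ((a + 1) * 2 ^ i) ≤ M i) :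
    ∀ l a t, a * 2 ^ l < t → t ≤ (a + 1) * 2 ^ l → t ≤ g →
      Y (a * 2 ^ l) t ≤ ∑ i ∈ Finset.range (l + 1), M i := by
  intro l
  induction l with
  | zero =>
    intro a t h1 h2 h3
    have ht : t = (a + 1) * 2 ^ 0 := by omega
    subst ht
    simpa using hb 0 a h3
  | succ l ih =>
    intro a t h1 h2 h3
    have e1 : a * 2 ^ (l + 1) = (2 * a) * 2 ^ l := by ring
    have e2 : (a + 1) * 2 ^ (l + 1) = (2 * a + 1 + 1) * 2 ^ l := by ring
    rw [e1] at h1 ⊢
    rw [e2] at h2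
    rw [Finset.sum_range_succ]
    by_cases ht : t ≤ (2 * a + 1) * 2 ^ l
    · exact (ih (2 * a) t h1 ht h3).trans (le_add_of_nonneg_right (hM0 _))
    · push Not at ht
      have h4 := ih (2 * a + 1) t ht h2 h3
      have h5 := hb l (2 * a) (ht.le.trans h3)
      have h6 : (2 * a) * 2 ^ l < (2 * a + 1) * 2 ^ l :=
        Nat.mul_lt_mul_of_pos_right (by omega) (by positivity)
      have h7 := hY _ _ _ h6 ht h3
      have h8 := hM (Nat.le_succ l)
      have h9 : M l ≤ M (l + 1) := h8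
      linarith

/-- chaining to the right end of a dyadic block -/
lemma cv_chain_right (hY : ∀ s t v, s < t → t < v → v ≤ g → Y s v ≤ Y s t + Y t v)
    (hM : Monotone M) (hM0 : ∀ i, 0 ≤ M i)
    (hb : ∀ i a, (a + 1) * 2 ^ i ≤ g → Y (a * 2 ^ i) ((a + 1) * 2 ^ i) ≤ M i) :
    ∀ l a s, a * 2 ^ l ≤ s → s < (a + 1) * 2 ^ l → (a + 1) * 2 ^ l ≤ g →
      Y s ((a + 1) * 2 ^ l) ≤ ∑ i ∈ Finset.range (l + 1), M i := by
  intro l
  induction l with
  | zero =>
    intro a s h1 h2 h3
    have ht : s = a * 2 ^ 0 := by omega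
    subst ht
    simpa using hb 0 a h3
  | succ l ih =>
    intro a s h1 h2 h3
    have e1 : a * 2 ^ (l + 1) = (2 * a) * 2 ^ l := by ring
    have e2 : (a + 1) * 2 ^ (l + 1) = (2 * a + 1 + 1) * 2 ^ l := by ring
    rw [e1] at h1
    rw [e2] at h2 h3 ⊢
    rw [Finset.sum_range_succ]
    by_cases ht : (2 * a + 1) * 2 ^ l ≤ s
    · exact (ih (2 * a + 1) s ht h2 h3).trans (le_add_of_nonneg_right (hM0 _))
    · push Not at ht
      have h6 : (2 * a + 1) * 2 ^ l < (2 * a + 1 + 1) * 2 ^ l :=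
        Nat.mul_lt_mul_of_pos_right (by omega) (by positivity)
      have h4 := ih (2 * a) s h1 ht (h6.le.trans h3)
      have h5 := hb l (2 * a + 1) h3
      have h7 := hY _ _ _ ht h6 h3
      have h9 : M l ≤ M (l + 1) := hM (Nat.le_succ l)
      linarith

lemma cv_chain (hY : ∀ s t v, s < t → t < v → v ≤ g → Y s v ≤ Y s t + Y t v)
    (hM : Monotone M) (hM0 : ∀ i, 0 ≤ M i)
    (hb : ∀ i a, (a + 1) * 2 ^ i ≤ g → Y (a * 2 ^ i) ((a + 1) * 2 ^ i) ≤ M i) :
    ∀ l a s t, a * 2 ^ l ≤ s → s < t → t ≤ (a + 1) * 2 ^ l → t ≤ g →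
      Y s t ≤ 2 * ∑ i ∈ Finset.range (l + 1), M i := by
  intro l
  induction l with
  | zero =>
    intro a s t h1 h2 h3 h4
    have hs : s = a * 2 ^ 0 := by omega
    have ht : t = (a + 1) * 2 ^ 0 := by omega
    subst ht
    rw [hs]
    have := hb 0 a h4
    have := hM0 0
    simp only [zero_add, Finset.sum_range_one]
    linarith
  | succ l ih =>
    intro a s t h1 h2 h3 h4
    have e1 : a * 2 ^ (l + 1) = (2 * a) * 2 ^ l := by ring
    have e2 : (a + 1) * 2 ^ (l + 1) = (2 * a + 1 + 1) * 2 ^ l := by ring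
    rw [e1] at h1
    rw [e2] at h3
    have hS : ∑ i ∈ Finset.range (l + 1), M i ≤ ∑ i ∈ Finset.range (l + 1 + 1), M i := by
      rw [Finset.sum_range_succ _ (l + 1)]
      exact le_add_of_nonneg_right (hM0 _)
    by_cases ht : t ≤ (2 * a + 1) * 2 ^ l
    · have := ih (2 * a) s t h1 h2 ht h4
      linarith
    · push Not at ht
      by_cases hs : (2 * a + 1) * 2 ^ l ≤ s
      · have := ih (2 * a + 1) s t hs h2 h3 h4
        linarith
      · push Not at hs
        have h5 := cv_chain_right hY hM hM0 hb l (2 * a) s h1 hs (ht.le.trans h4)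
        have h6 := cv_chain_left hY hM hM0 hb l (2 * a + 1) t ht h3 h4
        have h7 := hY _ _ _ hs ht h4
        linarith

end

lemma cv_q : ∃ q : ℝ, 11 / 10 ≤ q ∧ q ≤ 6 / 5 ∧ q ^ 6 = 2 := by
  have h2 : (0 : ℝ) ≤ 2 := by norm_num
  have hq : ((2 : ℝ) ^ ((1 : ℝ) / 6)) ^ 6 = 2 := by
    rw [← Real.rpow_natCast, ← Real.rpow_mul h2]
    norm_num
  have h0 : 0 ≤ (2 : ℝ) ^ ((1 : ℝ) / 6) := Real.rpow_nonneg h2 _
  refine ⟨_, ?_, ?_, hq⟩
  · by_contra hcon
    push Not at hcon
    have := pow_lt_pow_left₀ hcon h0 (n := 6) (by norm_num)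
    rw [hq] at this
    norm_num at this
  · by_contra hcon
    push Not at hcon
    have := pow_lt_pow_left₀ hcon (by norm_num) (n := 6) (by norm_num)
    rw [hq] at this
    norm_num at this

lemma cv_tail_term {c τ x y : ℝ} (hc : 0 < c) (hτ : 1 ≤ τ) (hy : 1 ≤ y) (hx : y ^ 6 = x) :
    x * Real.exp (-(c * τ * y)) ≤
      ((Nat.factorial 12 : ℝ) * (2 / c) ^ 12) * Real.exp (-(c * τ) / 2) * x⁻¹ := by
  have hy0 : 0 < y := by linarith
  have hx0 : 0 < x := by rw [← hx]; positivity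
  have h1 : Real.exp (-(c * τ * y)) ≤ Real.exp (-(c * τ) / 2) * Real.exp (-(c * y / 2)) := by
    rw [← Real.exp_add]
    refine Real.exp_le_exp.mpr ?_
    have h2 : (τ + y) / 2 ≤ τ * y := by nlinarith
    nlinarith
  have h3 : (c * y / 2) ^ 12 / (Nat.factorial 12 : ℝ) ≤ Real.exp (c * y / 2) :=
    Real.pow_div_factorial_le_exp _ (by positivity) 12
  have hf : (0 : ℝ) < (Nat.factorial 12 : ℝ) := by exact_mod_cast Nat.factorial_pos 12
  have h4 : Real.exp (-(c * y / 2)) ≤ ((Nat.factorial 12 : ℝ) * (2 / c) ^ 12) * (x⁻¹) ^ 2 := by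
    rw [Real.exp_neg]
    have h5 : 0 < (c * y / 2) ^ 12 / (Nat.factorial 12 : ℝ) := by positivity
    have h6 := inv_anti₀ h5 h3
    refine h6.trans (le_of_eq ?_)
    rw [← hx]
    field_simp
    try ring
  calc x * Real.exp (-(c * τ * y))
      ≤ x * (Real.exp (-(c * τ) / 2) *
          (((Nat.factorial 12 : ℝ) * (2 / c) ^ 12) * (x⁻¹) ^ 2)) :=
        mul_le_mul_of_nonneg_left (h1.trans (mul_le_mul_of_nonneg_left h4 (Real.exp_pos _).le))
          hx0.le
    _ = _ := by
        field_simp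

theorem t_Dyadic : DyadicStmt := by
  intro A hA
  obtain ⟨q, hq1, hq2, hq6⟩ := cv_q
  have hq0 : 0 < q := by linarith
  set c : ℝ := 1 / (40 * A) with hc
  have hc0 : 0 < c := by positivity
  set K : ℝ := (Nat.factorial 12 : ℝ) * (2 / c) ^ 12 with hK
  have hK0 : 0 < K := by positivity
  set B : ℝ := 4 * A * K + 80 * A + 2 with hB
  have hB2 : 2 ≤ B := by
    have : 0 ≤ 4 * A * K + 80 * A := by positivity
    linarith
  have hB0 : 0 < B := by linarith
  refine ⟨B, hB0, ?_⟩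
  intro Ω _ P _ g Y hY hT τ hτ
  -- trivial cases
  by_cases hτ1 : τ < 1
  · refine le_trans measureReal_le_one ?_
    have h1 : 1 - τ / B ≤ Real.exp (-τ / B) := by
      have := Real.add_one_le_exp (-τ / B)
      rw [neg_div] at this ⊢
      linarith
    have h2 : τ / B ≤ 1 / 2 := by
      rw [div_le_iff₀ hB0]; linarith
    nlinarith
  push Not at hτ1
  rcases Nat.eq_zero_or_pos g with hg | hg
  · have : {ω | ∃ s t, s < t ∧ t ≤ g ∧ τ * (g : ℝ) ^ ((1 : ℝ) / 3) ≤ Y s t ω} = ∅ := by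
      ext ω
      simp only [Set.mem_setOf_eq, Set.mem_empty_iff_false, iff_false, not_exists, not_and]
      intro s t h1 h2
      omega
    rw [this, measureReal_empty]
    positivity
  have hgR : (0 : ℝ) < g := by exact_mod_cast hg
  set G : ℝ := (g : ℝ) ^ ((1 : ℝ) / 6) with hG
  have hG0 : 0 < G := Real.rpow_pos_of_pos hgR _
  have hG6 : G ^ 6 = g := by
    rw [hG, ← Real.rpow_natCast, ← Real.rpow_mul hgR.le]
    norm_num
  have hG2 : (g : ℝ) ^ ((1 : ℝ) / 3) = G ^ 2 := by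
    rw [hG, ← Real.rpow_natCast, ← Real.rpow_mul hgR.le]
    norm_num
  have hq3 : ∀ i : ℕ, ((2 : ℝ) ^ i) ^ ((1 : ℝ) / 3) = q ^ (2 * i) := by
    intro i
    have : (2 : ℝ) ^ i = (q ^ (2 * i)) ^ 3 := by
      rw [← hq6, ← pow_mul, ← pow_mul]
      congr 1
      ring
    rw [this, ← Real.rpow_natCast (q ^ (2 * i)) 3, ← Real.rpow_mul (by positivity)]
    norm_num
  let M : ℕ → ℝ := fun i => τ / 40 * (G * q ^ i)
  have hM0 : ∀ i, 0 ≤ M i := fun i => by positivity
  have hMm : Monotone M := by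
    intro i j hij
    have : q ^ i ≤ q ^ j := pow_le_pow_right₀ (by linarith) hij
    simp only [M]
    gcongr
  set l := Nat.log 2 g + 1 with hl
  have hl1 : g < 2 ^ l := Nat.lt_pow_succ_log_self (by norm_num) g
  have hl2 : 2 ^ l ≤ 2 * g := by
    rw [hl, pow_succ, mul_comm]
    exact Nat.mul_le_mul_left 2 (Nat.pow_log_le_self 2 hg.ne')
  have hl2R : (2 : ℝ) ^ l ≤ 2 * g := by exact_mod_cast hl2
  have hql : q ^ l ≤ q * G := by
    by_contra hcon
    push Not at hcon
    have := pow_lt_pow_left₀ hcon (by positivity) (n := 6) (by norm_num)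
    rw [mul_pow, hq6, hG6, ← pow_mul, mul_comm l 6, pow_mul, hq6] at this
    linarith
  have hsum : 2 * ∑ i ∈ Finset.range (l + 1), M i < τ * G ^ 2 := by
    have h1 : ∑ i ∈ Finset.range (l + 1), q ^ i ≤ q ^ (l + 1) * 10 := by
      have h := geom_sum_mul q (l + 1)
      have h2 : (0 : ℝ) ≤ ∑ i ∈ Finset.range (l + 1), q ^ i :=
        Finset.sum_nonneg fun i _ => by positivity
      nlinarith
    have h2 : ∑ i ∈ Finset.range (l + 1), M i = τ / 40 * G * ∑ i ∈ Finset.range (l + 1), q ^ i := by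
      rw [Finset.mul_sum]
      refine Finset.sum_congr rfl fun i _ => ?_
      simp only [M]; ring
    have h3 : q ^ (l + 1) ≤ 36 / 25 * G := by
      rw [pow_succ]
      calc q ^ l * q ≤ (q * G) * q := mul_le_mul_of_nonneg_right hql hq0.le
        _ = q ^ 2 * G := by ring
        _ ≤ 36 / 25 * G := mul_le_mul_of_nonneg_right (by nlinarith) hG0.le
    rw [h2]
    have h4 : τ / 40 * G * ∑ i ∈ Finset.range (l + 1), q ^ i ≤ τ / 40 * G * (36 / 25 * G * 10) :=
      mul_le_mul_of_nonneg_left (h1.trans (by linarith)) (by positivity)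
    have h5 : 0 < τ * G ^ 2 := by positivity
    nlinarith
  -- the bad events
  let bad : ℕ → ℕ → Set Ω := fun i a => {ω | M i ≤ Y (a * 2 ^ i) ((a + 1) * 2 ^ i) ω}
  have hsub : {ω | ∃ s t, s < t ∧ t ≤ g ∧ τ * (g : ℝ) ^ ((1 : ℝ) / 3) ≤ Y s t ω} ⊆
      ⋃ i ∈ Finset.range (l + 1), ⋃ a ∈ Finset.range (g / 2 ^ i), bad i a := by
    rintro ω ⟨s, t, hst, htg, hle⟩
    by_contra hcon
    simp only [Set.mem_iUnion, Finset.mem_range, exists_prop, not_exists, not_and] at hcon
    have hb : ∀ i a, (a + 1) * 2 ^ i ≤ g → Y (a * 2 ^ i) ((a + 1) * 2 ^ i) ω ≤ M i := by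
      intro i a hia
      have h1 : a < g / 2 ^ i := by
        have := (Nat.le_div_iff_mul_le (by positivity)).mpr hia
        omega
      have h2 : i < l + 1 := by
        by_contra hi
        push Not at hi
        have h3 : 2 ^ l ≤ 2 ^ i := Nat.pow_le_pow_right (by norm_num) (by omega)
        have h4 : 2 ^ i ≤ (a + 1) * 2 ^ i := Nat.le_mul_of_pos_left _ (by omega)
        omega
      have h3 := hcon i h2 a h1
      exact (not_le.mp h3).le
    have hch := cv_chain (Y := fun s t => Y s t ω) (g := g) (M := M)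
      (fun s t v => hY ω s t v) hMm hM0 hb l 0 s t (by simp) hst
      (by simp only [zero_add, one_mul]; omega) htg
    rw [hG2] at hle
    linarith
  refine le_trans (measureReal_mono hsub (measure_ne_top _ _)) ?_
  refine le_trans (measureReal_biUnion_finset_le _ _) ?_
  have hterm : ∀ i ∈ Finset.range (l + 1),
      P.real (⋃ a ∈ Finset.range (g / 2 ^ i), bad i a) ≤
        A * K * Real.exp (-(c * τ) / 2) * ((2 : ℝ) ^ i / g) := by
    intro i _
    refine le_trans (measureReal_biUnion_finset_le _ _) ?_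
    have hbad : ∀ a ∈ Finset.range (g / 2 ^ i), P.real (bad i a) ≤
        A * Real.exp (-(c * τ * (G / q ^ i))) := by
      intro a ha
      have ha' : a < g / 2 ^ i := Finset.mem_range.mp ha
      have hag : (a + 1) * 2 ^ i ≤ g := (Nat.le_div_iff_mul_le (by positivity)).mp ha'
      have h1 := hT (a * 2 ^ i) ((a + 1) * 2 ^ i)
        (Nat.mul_lt_mul_of_pos_right (Nat.lt_succ_self a) (by positivity)) hag
        (τ / 40 * (G / q ^ i)) (by positivity)
      have h2 : (((a + 1) * 2 ^ i : ℕ) : ℝ) - ((a * 2 ^ i : ℕ) : ℝ) = (2 : ℝ) ^ i := by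
        push_cast; ring
      rw [h2, hq3] at h1
      have h3 : τ / 40 * (G / q ^ i) * q ^ (2 * i) = M i := by
        simp only [M]
        rw [two_mul, pow_add]
        field_simp
      rw [h3] at h1
      refine h1.trans (le_of_eq ?_)
      congr 2
      rw [hc]
      field_simp
    refine le_trans (Finset.sum_le_sum hbad) ?_
    rw [Finset.sum_const, Finset.card_range, nsmul_eq_mul]
    rcases Nat.eq_zero_or_pos (g / 2 ^ i) with h0 | h0
    · rw [h0, Nat.cast_zero, zero_mul]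
      positivity
    · have h1 : 2 ^ i ≤ g := by
        by_contra hcon
        rw [Nat.div_eq_of_lt (not_le.mp hcon)] at h0
        omega
      have h1R : (2 : ℝ) ^ i ≤ g := by exact_mod_cast h1
      have hy6 : (G / q ^ i) ^ 6 = g / 2 ^ i := by
        rw [div_pow, hG6, ← pow_mul, mul_comm i 6, pow_mul, hq6]
      have hx1 : (1 : ℝ) ≤ g / 2 ^ i := by rw [le_div_iff₀ (by positivity)]; linarith
      have hy1 : 1 ≤ G / q ^ i := by
        by_contra hcon
        push Not at hcon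
        have := pow_lt_one₀ (by positivity : 0 ≤ G / q ^ i) hcon (n := 6) (by norm_num)
        rw [hy6] at this
        linarith
      have h2 := cv_tail_term hc0 hτ1 hy1 hy6
      have h3 : ((g / 2 ^ i : ℕ) : ℝ) ≤ g / 2 ^ i := by
        have := @Nat.cast_div_le ℝ _ _ _ g (2 ^ i)
        push_cast at this
        exact this
      calc ((g / 2 ^ i : ℕ) : ℝ) * (A * Real.exp (-(c * τ * (G / q ^ i))))
          ≤ (g / 2 ^ i) * (A * Real.exp (-(c * τ * (G / q ^ i)))) :=
            mul_le_mul_of_nonneg_right h3 (by positivity)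
        _ = A * ((g / 2 ^ i) * Real.exp (-(c * τ * (G / q ^ i)))) := by ring
        _ ≤ A * (K * Real.exp (-(c * τ) / 2) * ((g : ℝ) / 2 ^ i)⁻¹) :=
            mul_le_mul_of_nonneg_left h2 hA.le
        _ = _ := by rw [inv_div]; ring
  refine le_trans (Finset.sum_le_sum hterm) ?_
  rw [← Finset.mul_sum, ← Finset.sum_div]
  have hs2 : ∑ i ∈ Finset.range (l + 1), (2 : ℝ) ^ i ≤ 4 * g := by
    have h := geom_sum_mul (2 : ℝ) (l + 1)
    rw [pow_succ] at h
    linarith
  have h4 : (∑ i ∈ Finset.range (l + 1), (2 : ℝ) ^ i) / g ≤ 4 := by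
    rw [div_le_iff₀ hgR]; exact hs2
  calc A * K * Real.exp (-(c * τ) / 2) * ((∑ i ∈ Finset.range (l + 1), (2 : ℝ) ^ i) / g)
      ≤ A * K * Real.exp (-(c * τ) / 2) * 4 := mul_le_mul_of_nonneg_left h4 (by positivity)
    _ = (4 * A * K) * Real.exp (-(c * τ) / 2) := by ring
    _ ≤ B * Real.exp (-τ / B) := by
        refine mul_le_mul ?_ ?_ (Real.exp_pos _).le hB0.le
        · rw [hB]; linarith
        · refine Real.exp_le_exp.mpr ?_
          have h5 : τ / B ≤ c * τ / 2 := by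
            rw [hc, div_le_iff₀ hB0]
            have h6 : 80 * A ≤ B := by rw [hB]; nlinarith [mul_pos hA hK0]
            have h7 : 1 / (40 * A) * τ / 2 * B = τ * (B / (80 * A)) := by field_simp; ring
            rw [h7]
            have h8 : 1 ≤ B / (80 * A) := by rw [le_div_iff₀ (by positivity)]; linarith
            nlinarith
          rw [neg_div, neg_div]
          linarith

end Pool.Agent.H374
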