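import Pool.Agent.H374.Stmts
import Pool.Agent.H374.Det
import Pool.Agent.H374.Tools

/-!
# Diagonal increments of the stationary processes
-/

set_option autoImplicit false
open MeasureTheory ProbabilityTheory

namespace Pool.Agent.H374

section
variable {Ω : Type} [MeasurableSpace Ω] {P : Measure Ω} {E : ℤ × ℤ → Ω → ℝ}

/-- The increments of the stationary process along row `k`. -/
lemma dg_iid (h1 : BurkeGen) (hE : Env P E) (k m : ℕ) {α : ℝ} (h0 : 0 < α) (h2 : α < 1) :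
    IIDExp P m (fun i ω =>
      L Hs (wgt (cRow id (1 - α) α) E ω) (0, 0) ((k : ℤ) + i + 1, (k : ℤ))
        - L Hs (wgt (cRow id (1 - α) α) E ω) (0, 0) ((k : ℤ) + i, (k : ℤ))) (1 - α) := by
  have hmeas : ∀ v, Measurable fun ω => L Hs (wgt (cRow id (1 - α) α) E ω) (0, 0) v := fun v =>
    measurable_L (fun z => measurable_wgt hE _ z) _ _ _
  have hmeas' : ∀ v, Measurable fun ω =>
      L (Dl id) (wgt (cRow id (1 - α) α) E ω) (0, 0) v := hmeas
  refine ⟨fun i _ => (hmeas _).sub (hmeas _), ?_⟩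
  have h3 := h1 Ω P E hE id monotone_id rfl (1 - α) α (by linarith) h0 (by ring) k m
  have h4 := congrArg (fun μ => Measure.map Prod.snd μ) h3
  beta_reduce at h4
  haveI := isProbabilityMeasure_expMeasure h0
  haveI := isProbabilityMeasure_expMeasure (r := 1 - α) (by linarith)
  rw [Measure.map_snd_prod, measure_univ, one_smul, Measure.map_map measurable_snd] at h4
  · exact h4
  · exact Measurable.prodMk
      (measurable_pi_lambda _ fun j => (hmeas' _).sub (hmeas' _))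
      (measurable_pi_lambda _ fun j => (hmeas' _).sub (hmeas' _))

/-- Splitting at row `k`. -/
lemma dg_split (E : ℤ × ℤ → Ω → ℝ) (k m : ℕ) (hm : 1 ≤ m) (α : ℝ) (ω : Ω) :
    ∃ z : ℕ, 1 ≤ z ∧ z ≤ m ∧
      L Hs (wgt (cRow id (1 - α) α) E ω) (0, 0) ((k : ℤ) + m, (k : ℤ) + m)
        - L Hs (wgt (cRow id (1 - α) α) E ω) (0, 0) ((k : ℤ), (k : ℤ)) =
      ∑ i ∈ Finset.range z,
        (L Hs (wgt (cRow id (1 - α) α) E ω) (0, 0) ((k : ℤ) + i + 1, (k : ℤ))
        - L Hs (wgt (cRow id (1 - α) α) E ω) (0, 0) ((k : ℤ) + i, (k : ℤ)))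
      + G1 (wgt (cH α) (fun y => E (y + ((k : ℤ), (k : ℤ)))) ω) m z := by
  have hne : (Path Hs ((0 : ℤ), (0 : ℤ)) ((k : ℤ) + m, (k : ℤ) + m)).Nonempty :=
    path_nonempty RD_Hs (diag_mem_Hs 0) (diag_mem_Hs _) (by simp; omega) (by simp; omega)
  obtain ⟨c, c1, c2, -, ⟨x, hx⟩, h3⟩ := L_row_split (wgt (cRow id (1 - α) α) E ω) hne
    (j := (k : ℤ)) (by simp) (by simp; omega) (by simp only [tm]; omega)
  have hc : (k : ℤ) + 1 ≤ c := by
    have h4 : tm (c, (k : ℤ) + 1) ≤ tm ((k : ℤ) + m, (k : ℤ) + m) := by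
      simp only [tm]
      simp only at c2
      omega
    have h5 := p_mem hx le_rfl h4
    simp only [Hs, Set.mem_ofPred_eq, vert] at h5
    have h6 := hx.2.1
    simp only [tm] at h5 h6
    rw [h6] at h5
    omega
  obtain ⟨z, hz⟩ : ∃ z : ℕ, c = (k : ℤ) + z := ⟨(c - k).toNat, by omega⟩
  subst hz
  simp only at c2
  refine ⟨z, by omega, by omega, ?_⟩
  rw [h3]
  have h4 : ∑ i ∈ Finset.range z,
        (L Hs (wgt (cRow id (1 - α) α) E ω) (0, 0) ((k : ℤ) + i + 1, (k : ℤ))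
        - L Hs (wgt (cRow id (1 - α) α) E ω) (0, 0) ((k : ℤ) + i, (k : ℤ))) =
      L Hs (wgt (cRow id (1 - α) α) E ω) (0, 0) ((k : ℤ) + z, (k : ℤ)) -
        L Hs (wgt (cRow id (1 - α) α) E ω) (0, 0) ((k : ℤ), (k : ℤ)) := by
    have h5 := Finset.sum_range_sub (fun i : ℕ =>
      L Hs (wgt (cRow id (1 - α) α) E ω) (0, 0) ((k : ℤ) + i, (k : ℤ))) z
    simp only [Nat.cast_add, Nat.cast_one, Nat.cast_zero, add_zero, ← add_assoc] at h5
    exact h5
  have h6 : L Hs (wgt (cRow id (1 - α) α) E ω) ((k : ℤ) + z, (k : ℤ) + 1)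
      ((k : ℤ) + m, (k : ℤ) + m) = G1 (wgt (cH α) (fun y => E (y + ((k : ℤ), (k : ℤ)))) ω) m z := by
    have e1 : ((k : ℤ) + z, (k : ℤ) + 1) = ((z : ℤ), (1 : ℤ)) + ((k : ℤ), (k : ℤ)) := by
      ext <;> simp <;> ring
    have e2 : ((k : ℤ) + m, (k : ℤ) + m) = ((m : ℤ), (m : ℤ)) + ((k : ℤ), (k : ℤ)) := by
      ext <;> simp <;> ring
    rw [e1, e2, L_shift, shift_Hs]
    unfold G1
    refine L_congr fun y hy hyH => ?_
    rw [mem_rect] at hy
    simp only at hy
    have n1 : ¬ (y + ((k : ℤ), (k : ℤ)) = (0, 0)) := by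
      intro h
      have := congrArg Prod.snd h
      simp only [Prod.snd_add] at this
      omega
    have n2 : ¬ ((y + ((k : ℤ), (k : ℤ))).2 = 0) := by
      simp only [Prod.snd_add]
      omega
    simp only [wgt, cRow, cH, if_neg n1, if_neg n2]
    congr 1
    have e3 : ((y + ((k : ℤ), (k : ℤ))).1 = id (y + ((k : ℤ), (k : ℤ))).2) ↔ y.1 = y.2 := by
      simp only [Prod.fst_add, Prod.snd_add, id]
      omega
    simp only [e3]
  rw [h4, h6]
  ring

end

lemma dg_wgt_minus {Ω : Type} (E : ℤ × ℤ → Ω → ℝ) (r : ℤ) (lam α : ℝ) (ω : Ω) :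
    (fun z => wgt (cMinus r lam α) E ω (z + (r, r))) =
      wgt (cRow id lam α) (fun z => E (z + (r, r))) ω := by
  funext z
  simp only [wgt, cMinus, cRow]
  congr 1
  have e1 : (z + (r, r) = (r, r)) ↔ z = (0, 0) := by
    constructor
    · intro h
      have h1 := congrArg Prod.fst h
      have h2 := congrArg Prod.snd h
      simp only [Prod.fst_add, Prod.snd_add] at h1 h2
      ext
      · simp only; omega
      · simp only; omega
    · rintro rfl
      ext <;> simp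
  have e2 : (z + (r, r)).2 = r ↔ z.2 = 0 := by
    simp only [Prod.snd_add]
    omega
  have e3 : (z + (r, r)).1 = (z + (r, r)).2 ↔ z.1 = id z.2 := by
    simp only [Prod.fst_add, Prod.snd_add, id]
    omega
  simp only [e1, e2, e3]

theorem t_DiagMinus (h1 : BurkeGen) (h2 : StatUpper) : DiagMinus := by
  obtain ⟨κ, hκ, C, hC, h3⟩ := h2
  refine ⟨min κ (1 / 4), by positivity, C, hC, ?_⟩
  intro Ω _ P E hE r s t hrs hst α hα θ hθ
  obtain ⟨k, hk⟩ : ∃ k : ℕ, s = r + k := ⟨(s - r).toNat, by omega⟩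
  obtain ⟨m, hm⟩ : ∃ m : ℕ, t = s + m := ⟨(t - s).toNat, by omega⟩
  have hm1 : 1 ≤ m := by omega
  have hts : (t : ℝ) - s = m := by
    rw [hm]
    push_cast
    ring
  rw [hts] at hα ⊢
  have hmR : (1 : ℝ) ≤ m := by exact_mod_cast hm1
  have hm3 : (m : ℝ) ^ (-(1 : ℝ) / 3) ≤ 1 := Real.rpow_le_one_of_one_le_of_nonpos hmR (by norm_num)
  have hm3' : (0 : ℝ) < (m : ℝ) ^ (-(1 : ℝ) / 3) := Real.rpow_pos_of_pos (by linarith) _
  have hακ : |α - 1 / 2| ≤ κ * (m : ℝ) ^ (-(1 : ℝ) / 3) :=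
    hα.trans (mul_le_mul_of_nonneg_right (min_le_left _ _) hm3'.le)
  have hα4 : |α - 1 / 2| ≤ 1 / 4 := by
    refine hα.trans ?_
    calc min κ (1 / 4) * (m : ℝ) ^ (-(1 : ℝ) / 3) ≤ 1 / 4 * 1 :=
          mul_le_mul (min_le_right _ _) hm3 hm3'.le (by norm_num)
      _ = 1 / 4 := by norm_num
  rw [abs_le] at hα4
  have hα0 : 0 < α := by linarith [hα4.1]
  have hα1 : α < 1 := by linarith [hα4.2]
  -- the shifted environments
  have hinj : Function.Injective fun z : ℤ × ℤ => z + (r, r) := add_left_injective _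
  have hE' : Env P (fun z => E (z + (r, r))) := hE.comp hinj
  have hinj' : Function.Injective fun z : ℤ × ℤ => z + ((k : ℤ), (k : ℤ)) := add_left_injective _
  have hE'' : Env P (fun y => (fun z => E (z + (r, r))) (y + ((k : ℤ), (k : ℤ)))) := hE'.comp hinj'
  have hξ := dg_iid h1 hE' k m hα0 hα1
  have hlam : |1 - α - 1 / 2| ≤ 2 * κ * (m : ℝ) ^ (-(1 : ℝ) / 3) := by
    have e1 : 1 - α - 1 / 2 = -(α - 1 / 2) := by ring
    rw [e1, abs_neg]
    nlinarith [mul_pos hκ hm3']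
  haveI := hE.prob
  have h4 := h3 Ω P _ hE'' m hm1 α (1 - α) hακ hlam _ hξ θ hθ
  refine le_trans (measureReal_mono ?_ (measure_ne_top _ _)) h4
  intro ω hω
  simp only [Set.mem_ofPred_eq] at hω ⊢
  obtain ⟨z, hz1, hz2, hz⟩ := dg_split (fun z => E (z + (r, r))) k m hm1 α ω
  refine ⟨z, hz1, hz2, ?_⟩
  rw [← hz]
  refine hω.trans (le_of_eq ?_)
  have e0 : ((r, r) : ℤ × ℤ) = (0, 0) + (r, r) := by ext <;> simp
  have e1 : ((t, t) : ℤ × ℤ) = ((k : ℤ) + m, (k : ℤ) + m) + (r, r) := by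
    ext
    · simp only [Prod.fst_add]; omega
    · simp only [Prod.snd_add]; omega
  have e2 : ((s, s) : ℤ × ℤ) = ((k : ℤ), (k : ℤ)) + (r, r) := by
    ext
    · simp only [Prod.fst_add]; omega
    · simp only [Prod.snd_add]; omega
  have key : ∀ v : ℤ × ℤ, L Hs (wgt (cMinus r (1 - α) α) E ω) (r, r) (v + (r, r)) =
      L Hs (wgt (cRow id (1 - α) α) (fun z => E (z + (r, r))) ω) (0, 0) v := by
    intro v
    have h5 := L_shift Hs (wgt (cMinus r (1 - α) α) E ω) (r, r) (0, 0) v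
    rw [shift_Hs, dg_wgt_minus, ← e0] at h5
    exact h5
  rw [e1, e2, key, key]

lemma dg_wgt_plus {Ω : Type} (E : ℤ × ℤ → Ω → ℝ) (N : ℤ) (lam α : ℝ) (ω : Ω) :
    (fun z => wgt (cPlus N lam α) E ω (refl N z)) =
      wgt (cMinus 0 lam α) (fun z => E (refl N z)) ω := by
  funext z
  simp only [wgt, cMinus, cPlus]
  congr 1
  have e1 : (refl N z = (N, N)) ↔ z = (0, 0) := by
    constructor
    · intro h
      have h1 := congrArg Prod.fst h
      have h2 := congrArg Prod.snd h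
      simp only [refl] at h1 h2
      ext
      · simp only; omega
      · simp only; omega
    · rintro rfl
      simp [refl]
  have e2 : (refl N z).1 = N ↔ z.2 = 0 := by
    simp only [refl]
    omega
  have e3 : (refl N z).1 = (refl N z).2 ↔ z.1 = z.2 := by
    simp only [refl]
    omega
  simp only [e1, e2, e3]

lemma dg_refl_inj (N : ℤ) : Function.Injective (refl N) := by
  intro a b h
  have := congrArg (refl N) h
  simpa using this

theorem t_DiagPlus (h : DiagMinus) : DiagPlus := by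
  obtain ⟨κ, hκ, C, hC, h3⟩ := h
  refine ⟨κ, hκ, C, hC, ?_⟩
  intro Ω _ P E hE N s t hst htN α hα θ hθ
  have hE' : Env P (fun z => E (refl N z)) := hE.comp (dg_refl_inj N)
  have e0 : ((N - s - 1 : ℤ) : ℝ) - ((N - t - 1 : ℤ) : ℝ) = (t : ℝ) - s := by
    push_cast
    ring
  have h4 := h3 Ω P _ hE' 0 (N - t - 1) (N - s - 1) (by omega) (by omega) α (by rw [e0]; exact hα)
    θ hθ
  rw [e0] at h4
  haveI := hE.prob
  refine le_trans (measureReal_mono ?_ (measure_ne_top _ _)) h4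
  intro ω hω
  simp only [Set.mem_ofPred_eq] at hω ⊢
  refine hω.trans (le_of_eq ?_)
  have key : ∀ a : ℤ, L Hs (wgt (cPlus N (1 - α) α) E ω) (a + 1, a + 1) (N, N) =
      L Hs (wgt (cMinus 0 (1 - α) α) (fun z => E (refl N z)) ω) (0, 0) (N - a - 1, N - a - 1) := by
    intro a
    have h5 := L_refl N Hs (wgt (cPlus N (1 - α) α) E ω) (a + 1, a + 1) (N, N)
    rw [refl_Hs, dg_wgt_plus] at h5
    have e1 : refl N (N, N) = (0, 0) := by simp [refl]
    have e2 : refl N (a + 1, a + 1) = (N - a - 1, N - a - 1) := by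
      simp only [refl]
      ext
      · simp only; ring
      · simp only; ring
    rw [e1, e2] at h5
    exact h5
  rw [key, key]

end Pool.Agent.H374
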