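import Pool.Agent.H374.Burke
import Pool.Agent.H374.Tools

/-!
# Exponential moments of the passage value with row data (paper 3.1)
-/

set_option autoImplicit false
open MeasureTheory ProbabilityTheory

namespace Pool.Agent.H374

/-! ## Tilting -/

lemma em_tilt1 {r r' : ℝ} (hr : 0 < r) (hr' : 0 < r') :
    (expMeasure r).withDensity (fun x => ENNReal.ofReal (Real.exp ((r - r') * x)))
      = ENNReal.ofReal (r / r') • expMeasure r' := by
  have hm : Measurable (fun x : ℝ => ENNReal.ofReal (Real.exp ((r - r') * x))) := by fun_prop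
  rw [expMeasure_def r, expMeasure_def r', ← withDensity_mul _ (measurable_exponentialPDF r) hm,
    ← withDensity_smul _ (measurable_exponentialPDF r')]
  congr 1
  funext x
  simp only [Pi.mul_apply, Pi.smul_apply, smul_eq_mul]
  by_cases hx : 0 ≤ x
  · rw [exponentialPDF_of_nonneg hx, exponentialPDF_of_nonneg hx,
      ← ENNReal.ofReal_mul (by positivity), ← ENNReal.ofReal_mul (by positivity)]
    congr 1
    have : Real.exp (-(r' * x)) = Real.exp (-(r * x)) * Real.exp ((r - r') * x) := by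
      rw [← Real.exp_add]; ring_nf
    rw [this]
    field_simp
  · rw [exponentialPDF_of_neg (not_le.1 hx), exponentialPDF_of_neg (not_le.1 hx)]
    simp

/-- Integral of a product over a product space. -/
lemma em_lint_prod {ι : Type} [Fintype ι] (μ : ι → Measure ℝ) [∀ i, IsProbabilityMeasure (μ i)]
    (f : ι → ℝ → ENNReal) (hf : ∀ i, Measurable (f i)) :
    ∫⁻ x, ∏ i, f i (x i) ∂(Measure.pi μ) = ∏ i, ∫⁻ y, f i y ∂(μ i) := by
  have h := lintegral_prod_eq_prod_lintegral_of_indepFun (μ := Measure.pi μ) Finset.univ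
    (fun i (x : ι → ℝ) => f i (x i)) (iIndepFun_pi (μ := μ) (X := f)
      (fun i => (hf i).aemeasurable)) (fun i => (hf i).comp (measurable_pi_apply i))
  rw [h]
  refine Finset.prod_congr rfl fun i _ => ?_
  exact (measurePreserving_eval μ i).lintegral_comp (hf i)

lemma em_tilt_pi {ι : Type} [Fintype ι] (r r' : ι → ℝ) (hr : ∀ i, 0 < r i) (hr' : ∀ i, 0 < r' i) :
    (Measure.pi fun i => expMeasure (r i)).withDensity
        (fun x => ∏ i, ENNReal.ofReal (Real.exp ((r i - r' i) * x i)))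
      = (∏ i, ENNReal.ofReal (r i / r' i)) • Measure.pi fun i => expMeasure (r' i) := by
  have i1 := fun i => isProbabilityMeasure_expMeasure (hr i)
  have i2 := fun i => isProbabilityMeasure_expMeasure (hr' i)
  have i3 : ∀ i, IsFiniteMeasure (ENNReal.ofReal (r i / r' i) • expMeasure (r' i)) := fun i => by
    refine ⟨?_⟩
    simp only [Measure.smul_apply, measure_univ, smul_eq_mul, mul_one]
    exact ENNReal.ofReal_lt_top
  have e1 : Measure.pi (fun i => ENNReal.ofReal (r i / r' i) • expMeasure (r' i))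
      = (Measure.pi fun i => expMeasure (r i)).withDensity
        (fun x => ∏ i, ENNReal.ofReal (Real.exp ((r i - r' i) * x i))) := by
    refine Measure.pi_eq fun s hs => ?_
    rw [withDensity_apply _ (MeasurableSet.univ_pi hs), ← lintegral_indicator (MeasurableSet.univ_pi hs)]
    have e2 : ∀ x : ι → ℝ, (Set.univ.pi s).indicator
        (fun x => ∏ i, ENNReal.ofReal (Real.exp ((r i - r' i) * x i))) x
        = ∏ i, (s i).indicator (fun y => ENNReal.ofReal (Real.exp ((r i - r' i) * y))) (x i) := by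
      intro x
      by_cases hx : x ∈ Set.univ.pi s
      · rw [Set.indicator_of_mem hx]
        refine Finset.prod_congr rfl fun i _ => ?_
        rw [Set.indicator_of_mem (hx i (Set.mem_univ i))]
      · rw [Set.indicator_of_notMem hx]
        rw [Set.mem_univ_pi] at hx
        push Not at hx
        obtain ⟨i, hi⟩ := hx
        symm
        apply Finset.prod_eq_zero (Finset.mem_univ i)
        rw [Set.indicator_of_notMem hi]
    simp only [e2]
    rw [em_lint_prod (fun i => expMeasure (r i)) (fun i => (s i).indicator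
      (fun y => ENNReal.ofReal (Real.exp ((r i - r' i) * y)))) (fun i =>
        (by fun_prop : Measurable (fun y : ℝ => ENNReal.ofReal (Real.exp ((r i - r' i) * y)))).indicator
          (hs i))]
    refine Finset.prod_congr rfl fun i _ => ?_
    rw [lintegral_indicator (hs i), ← withDensity_apply _ (hs i), em_tilt1 (hr i) (hr' i)]
  rw [← e1]
  refine Measure.pi_eq fun s hs => ?_
  simp only [Measure.smul_apply, smul_eq_mul, Measure.pi_pi]
  rw [Finset.prod_mul_distrib]

/-- Change of rates in an integral. -/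
lemma em_change {ι : Type} [Fintype ι] (r r' : ι → ℝ) (hr : ∀ i, 0 < r i) (hr' : ∀ i, 0 < r' i)
    (F : (ι → ℝ) → ENNReal) (hF : Measurable F) :
    ∫⁻ x, (∏ i, ENNReal.ofReal (Real.exp ((r i - r' i) * x i))) * F x
        ∂(Measure.pi fun i => expMeasure (r i))
      = (∏ i, ENNReal.ofReal (r i / r' i)) * ∫⁻ x, F x ∂(Measure.pi fun i => expMeasure (r' i)) := by
  have hm : Measurable (fun x : ι → ℝ => ∏ i, ENNReal.ofReal (Real.exp ((r i - r' i) * x i))) :=
    Finset.measurable_prod _ fun i _ => by fun_prop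
  have h1 := lintegral_withDensity_eq_lintegral_mul
    (Measure.pi fun i => expMeasure (r i)) hm hF
  rw [em_tilt_pi r r' hr hr', lintegral_smul_measure, smul_eq_mul] at h1
  rw [h1]
  rfl

/-! ## The finite field -/

/-- Field of a finite family (zero outside). -/
noncomputable def em_fld (S : Finset (ℤ × ℤ)) (x : S → ℝ) : ℤ × ℤ → ℝ := fun z =>
  if h : z ∈ S then x ⟨z, h⟩ else 0

lemma em_fld_meas (S : Finset (ℤ × ℤ)) (z : ℤ × ℤ) : Measurable (fun x : S → ℝ => em_fld S x z) := by
  unfold em_fld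
  split_ifs with h
  · exact measurable_pi_apply _
  · exact measurable_const

/-- The value on row `0`. -/
lemma em_row0 {ℓ : ℤ → ℤ} (hℓ : Monotone ℓ) (h0 : ℓ 0 = 0) (w : ℤ × ℤ → ℝ) (m : ℕ) :
    L (Dl ℓ) w (0, 0) ((m : ℤ), 0) = w (0, 0) + ∑ i ∈ Finset.range m, w ((i : ℤ) + 1, 0) := by
  have hD : RD (Dl ℓ) := RD_Dl hℓ
  have hu : ((0 : ℤ), (0 : ℤ)) ∈ Dl ℓ := by simp [Dl, h0]
  induction m with
  | zero => simp [L_self hu]
  | succ m ih =>
    have := L_rec_left (w := w) (v := (((m + 1 : ℕ) : ℤ), 0)) hD hu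
      (by show (0 : ℤ) < ((m + 1 : ℕ) : ℤ); omega) rfl
    rw [this]
    simp only
    rw [show (((m + 1 : ℕ) : ℤ) - 1) = (m : ℤ) by push_cast; ring, ih, Finset.sum_range_succ]
    push_cast
    ring

/-- The value is the row sum plus the vertical increments. -/
lemma em_telescope (ℓ : ℤ → ℤ) (w : ℤ × ℤ → ℝ) (m : ℤ) (k : ℕ) :
    L (Dl ℓ) w (0, 0) (m, (k : ℤ)) = L (Dl ℓ) w (0, 0) (m, 0)
      + ∑ j : Fin k, (L (Dl ℓ) w (0, 0) (m, (j : ℤ) + 1) - L (Dl ℓ) w (0, 0) (m, (j : ℤ))) := by
  induction k with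
  | zero => simp
  | succ k ih =>
    rw [Fin.sum_univ_castSucc]
    simp only [Fin.val_castSucc, Fin.val_last]
    rw [← add_assoc, ← ih]
    push_cast
    ring

theorem t_ExpMom (h : BurkeGen) : ExpMom := by
  intro Ω _ P E hE ℓ hℓ h0 lam α hlam hlam1 hα hα1 m k hk
  classical
  have hP := hE.prob
  set a : ℝ := lam + α - 1 with ha
  set r : ℤ × ℤ → ℝ := burke_rate ℓ lam α with hr
  set r' : ℤ × ℤ → ℝ := burke_rate ℓ (1 - α) α with hr'
  have hα' : 0 < 1 - α := by linarith
  have hrpos : ∀ z, 0 < r z := burke_rate_pos ℓ hlam hα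
  have hr'pos : ∀ z, 0 < r' z := burke_rate_pos ℓ hα' hα
  set S : Finset (ℤ × ℤ) := (rect (0, 0) ((m : ℤ), (k : ℤ))).erase (0, 0) with hS
  -- the value and the remainder as functions on the finite family
  set A : (S → ℝ) → ℝ := fun x => L (Dl ℓ) (em_fld S x) (0, 0) ((m : ℤ), (k : ℤ)) with hA
  set R : (S → ℝ) → ℝ := fun x => ∑ i ∈ Finset.range m, em_fld S x ((i : ℤ) + 1, 0) with hR
  have hAm : Measurable A := measurable_L (fun z => em_fld_meas S z) _ _ _
  have hRm : Measurable R := Finset.measurable_sum _ fun i _ => em_fld_meas S _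
  set F : (S → ℝ) → ENNReal := fun x => ENNReal.ofReal (Real.exp (a * (A x - R x))) with hF
  have hFm : Measurable F := by
    rw [hF]; exact ((hAm.sub hRm).const_mul a).exp.ennreal_ofReal
  -- the sites of row `0`
  set T : Finset (ℤ × ℤ) := (Finset.range m).image (fun i : ℕ => (((i : ℤ) + 1, (0 : ℤ)) : ℤ × ℤ))
    with hT
  have hinj : Set.InjOn (fun i : ℕ => (((i : ℤ) + 1, (0 : ℤ)) : ℤ × ℤ)) (Finset.range m : Set ℕ) := by
    intro i _ j _ hij
    have := congrArg Prod.fst hij
    simp only at this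
    omega
  have hTS : T ⊆ S := by
    intro z hz
    obtain ⟨i, hi, rfl⟩ := Finset.mem_image.1 hz
    rw [Finset.mem_range] at hi
    rw [hS, Finset.mem_erase, mem_rect]
    refine ⟨?_, ⟨?_, ?_⟩, ⟨?_, ?_⟩⟩
    · intro hh; have := congrArg Prod.fst hh; simp only at this; omega
    all_goals simp only
    all_goals omega
  have hrT : ∀ z ∈ S, z ∉ T → r z = r' z := by
    intro z hzS hzT
    rw [hS, Finset.mem_erase, mem_rect] at hzS
    have hz2 : z.2 ≠ 0 := by
      intro hh
      have h3 : z.1 ≠ 0 := fun h4 => hzS.1 (Prod.ext h4 hh)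
      apply hzT
      rw [hT, Finset.mem_image]
      have h5 := hzS.2.1.1
      have h6 := hzS.2.1.2
      simp only at h5 h6
      refine ⟨(z.1 - 1).toNat, ?_, ?_⟩
      · rw [Finset.mem_range]; omega
      · refine Prod.ext ?_ ?_
        · simp only; omega
        · simp only; omega
    simp only [hr, hr', burke_rate, if_neg hzS.1, if_neg hz2]
  have hrow : ∀ i : ℕ, r ((i : ℤ) + 1, 0) = lam ∧ r' ((i : ℤ) + 1, 0) = 1 - α := by
    intro i
    have hne : (((i : ℤ) + 1, (0 : ℤ)) : ℤ × ℤ) ≠ (0, 0) := by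
      intro hh; have := congrArg Prod.fst hh; simp only at this; omega
    simp only [hr, hr', burke_rate, if_neg hne, if_true, and_self]
  -- the tilt
  have hprodexp : ∀ x : S → ℝ, (∏ z : S, ENNReal.ofReal (Real.exp ((r z - r' z) * x z)))
      = ENNReal.ofReal (Real.exp (a * R x)) := by
    intro x
    rw [← ENNReal.ofReal_prod_of_nonneg (fun _ _ => (Real.exp_pos _).le), ← Real.exp_sum]
    congr 2
    have s1 : ∑ z : S, (r z - r' z) * x z = ∑ z ∈ S, (r z - r' z) * em_fld S x z := by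
      rw [← Finset.sum_coe_sort S (fun z => (r z - r' z) * em_fld S x z)]
      refine Finset.sum_congr rfl fun z _ => ?_
      simp only [em_fld, dif_pos z.2]
    rw [s1, ← Finset.sum_subset hTS (fun z hz hz' => by rw [hrT z hz hz', sub_self, zero_mul]), hT,
      Finset.sum_image hinj, hR, Finset.mul_sum]
    refine Finset.sum_congr rfl fun i _ => ?_
    rw [(hrow i).1, (hrow i).2, ha]
    ring
  have hprodc : (∏ z : S, ENNReal.ofReal (r z / r' z)) = ENNReal.ofReal ((lam / (1 - α)) ^ m) := by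
    rw [Finset.prod_coe_sort S (fun z => ENNReal.ofReal (r z / r' z)),
      ← Finset.prod_subset hTS (fun z hz hz' => by
        rw [hrT z hz hz', div_self (hr'pos z).ne', ENNReal.ofReal_one]), hT,
      Finset.prod_image hinj]
    rw [Finset.prod_congr rfl (g := fun _ => ENNReal.ofReal (lam / (1 - α)))
      (fun i _ => by rw [(hrow i).1, (hrow i).2]), Finset.prod_const, Finset.card_range,
      ENNReal.ofReal_pow (by positivity)]
  have hchange := em_change (fun z : S => r z) (fun z : S => r' z) (fun z => hrpos z)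
    (fun z => hr'pos z) F hFm
  have hmul : ∀ x : S → ℝ, (∏ z : S, ENNReal.ofReal (Real.exp ((r z - r' z) * x z))) * F x
      = ENNReal.ofReal (Real.exp (a * A x)) := by
    intro x
    rw [hprodexp, hF, ← ENNReal.ofReal_mul (Real.exp_pos _).le, ← Real.exp_add]
    congr 2
    ring
  simp only [hmul] at hchange
  rw [hprodc] at hchange
  -- pass to `P`
  have hlaw := hE.map_pi_scale (fun z : S => (z : ℤ × ℤ)) Subtype.val_injective
    (fun z : S => r z) (fun z => hrpos z)
  have hlaw' := hE.map_pi_scale (fun z : S => (z : ℤ × ℤ)) Subtype.val_injective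
    (fun z : S => r' z) (fun z => hr'pos z)
  have hAexp : Measurable (fun x : S → ℝ => ENNReal.ofReal (Real.exp (a * A x))) :=
    (hAm.const_mul a).exp.ennreal_ofReal
  rw [← hlaw, ← hlaw', lintegral_map hAexp (measurable_pi_lambda _ fun z => (hE.meas _).const_mul _),
    lintegral_map hFm (measurable_pi_lambda _ fun z => (hE.meas _).const_mul _)] at hchange
  -- identification of the fields
  have hfld : ∀ (lam0 : ℝ) (ω : Ω) (u v : ℤ × ℤ), u = (0, 0) → v.1 ≤ m → v.2 ≤ k →
      L (Dl ℓ) (wgt (cRow ℓ lam0 α) E ω) u v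
        = L (Dl ℓ) (em_fld S (fun z => (burke_rate ℓ lam0 α z)⁻¹ * E z ω)) u v := by
    intro lam0 ω u v hu h1 h2
    subst hu
    refine L_congr fun z hz _ => ?_
    rw [mem_rect] at hz
    by_cases hz0 : z = (0, 0)
    · subst hz0
      simp [wgt, cRow, em_fld, hS]
    · have hzS : z ∈ S := by
        rw [hS, Finset.mem_erase, mem_rect]
        exact ⟨hz0, ⟨hz.1.1, hz.1.2.trans h1⟩, ⟨hz.2.1, hz.2.2.trans h2⟩⟩
      simp only [em_fld, dif_pos hzS, wgt, cRow, burke_rate, if_neg hz0]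
      split_ifs <;> simp
  have e1 : ∀ ω, L (Dl ℓ) (wgt (cRow ℓ lam α) E ω) (0, 0) ((m : ℤ), (k : ℤ))
      = A (fun z : S => (r z)⁻¹ * E z ω) := fun ω => hfld lam ω _ _ rfl le_rfl le_rfl
  simp only [e1]
  rw [hchange]
  -- the remainder is the sum of the vertical increments of the stationary model
  have e2 : ∀ ω, F (fun z : S => (r' z)⁻¹ * E z ω) = ∏ j : Fin k, ENNReal.ofReal (Real.exp (a *
      (L (Dl ℓ) (wgt (cRow ℓ (1 - α) α) E ω) (0, 0) ((m : ℤ), (j : ℤ) + 1)
        - L (Dl ℓ) (wgt (cRow ℓ (1 - α) α) E ω) (0, 0) ((m : ℤ), (j : ℤ))))) := by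
    intro ω
    rw [← ENNReal.ofReal_prod_of_nonneg (fun _ _ => (Real.exp_pos _).le), ← Real.exp_sum,
      ← Finset.mul_sum]
    have h3 := em_telescope ℓ (wgt (cRow ℓ (1 - α) α) E ω) m k
    have h4 := em_row0 hℓ h0 (wgt (cRow ℓ (1 - α) α) E ω) m
    have h5 := hfld (1 - α) ω (0, 0) ((m : ℤ), (k : ℤ)) rfl le_rfl le_rfl
    have h6 : R (fun z : S => (r' z)⁻¹ * E z ω)
        = ∑ i ∈ Finset.range m, wgt (cRow ℓ (1 - α) α) E ω ((i : ℤ) + 1, 0) := by
      rw [hR]
      refine Finset.sum_congr rfl fun i hi => ?_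
      rw [Finset.mem_range] at hi
      have hne : (((i : ℤ) + 1, (0 : ℤ)) : ℤ × ℤ) ≠ (0, 0) := by
        intro hh; have := congrArg Prod.fst hh; simp only at this; omega
      have hzS : (((i : ℤ) + 1, (0 : ℤ)) : ℤ × ℤ) ∈ S := by
        rw [hS, Finset.mem_erase, mem_rect]
        refine ⟨hne, ⟨?_, ?_⟩, ⟨?_, ?_⟩⟩ <;> simp only <;> omega
      simp only [em_fld, dif_pos hzS, wgt, cRow, hr', burke_rate, if_neg hne, if_true]
    have h7 : wgt (cRow ℓ (1 - α) α) E ω (0, 0) = 0 := by simp [wgt, cRow]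
    have h8 : A (fun z : S => (r' z)⁻¹ * E z ω)
        = L (Dl ℓ) (wgt (cRow ℓ (1 - α) α) E ω) (0, 0) ((m : ℤ), (k : ℤ)) := h5.symm
    show ENNReal.ofReal (Real.exp (a * (A (fun z : S => (r' z)⁻¹ * E z ω)
      - R (fun z : S => (r' z)⁻¹ * E z ω)))) = _
    rw [h6, h8, h3, h4, h7]
    congr 2
    ring
  simp only [e2]
  -- law of the increments
  obtain ⟨p, hp⟩ : ∃ p : ℕ, (m : ℤ) = ℓ k + p := ⟨((m : ℤ) - ℓ k).toNat, by omega⟩
  have hB := h Ω P E hE ℓ hℓ h0 (1 - α) α hα' hα (by ring) k p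
  have i1 := isProbabilityMeasure_expMeasure hα
  have i2 := isProbabilityMeasure_expMeasure hα'
  set J : Ω → Fin k → ℝ := fun ω j => L (Dl ℓ) (wgt (cRow ℓ (1 - α) α) E ω) (0, 0)
      (ℓ k + p, (j : ℤ) + 1) - L (Dl ℓ) (wgt (cRow ℓ (1 - α) α) E ω) (0, 0) (ℓ k + p, (j : ℤ)) with hJ
  have hLm : ∀ v : ℤ × ℤ, Measurable (fun ω => L (Dl ℓ) (wgt (cRow ℓ (1 - α) α) E ω) (0, 0) v) :=
    fun v => measurable_L (fun z => measurable_wgt hE _ z) _ _ _
  have hJm : Measurable J := measurable_pi_lambda _ fun j => (hLm _).sub (hLm _)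
  have hJlaw : Measure.map J P = Measure.pi fun _ : Fin k => expMeasure α := by
    set I : Ω → Fin p → ℝ := fun ω i =>
      L (Dl ℓ) (wgt (cRow ℓ (1 - α) α) E ω) (0, 0) (ℓ k + i + 1, (k : ℤ))
        - L (Dl ℓ) (wgt (cRow ℓ (1 - α) α) E ω) (0, 0) (ℓ k + i, (k : ℤ)) with hI
    have hIm : Measurable I := measurable_pi_lambda _ fun i => (hLm _).sub (hLm _)
    have h9 : Measure.map (fun ω => (J ω, I ω)) P
        = (Measure.pi fun _ : Fin k => expMeasure α).prod
          (Measure.pi fun _ : Fin p => expMeasure (1 - α)) := hB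
    have h8 := Measure.map_map (μ := P) measurable_fst (hJm.prodMk hIm)
    rw [h9, Measure.map_fst_prod] at h8
    rw [show J = Prod.fst ∘ (fun ω => (J ω, I ω)) from rfl, ← h8]
    simp
  rw [hp]
  have e3 : ∫⁻ ω, ∏ j : Fin k, ENNReal.ofReal (Real.exp (a * J ω j)) ∂P
      = ENNReal.ofReal ((α / (1 - lam)) ^ k) := by
    have hm2 : Measurable (fun y : Fin k → ℝ => ∏ j : Fin k, ENNReal.ofReal (Real.exp (a * y j))) :=
      Finset.measurable_prod _ fun i _ => by fun_prop
    have h9 := lintegral_map (μ := P) hm2 hJm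
    rw [hJlaw, em_lint_prod (fun _ : Fin k => expMeasure α)
      (fun _ y => ENNReal.ofReal (Real.exp (a * y))) (fun _ => by fun_prop)] at h9
    rw [← h9]
    simp only [lintegral_exp_mul_expMeasure hα (show a < α by rw [ha]; linarith)]
    rw [Finset.prod_const, Finset.card_univ, Fintype.card_fin, ← ENNReal.ofReal_pow]
    · congr 3
      rw [ha]; ring
    · have : 0 < α - a := by rw [ha]; linarith
      positivity
  have e4 : (∫⁻ ω, ∏ j : Fin k, ENNReal.ofReal (Real.exp (a *
      (L (Dl ℓ) (wgt (cRow ℓ (1 - α) α) E ω) (0, 0) (ℓ k + p, (j : ℤ) + 1)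
        - L (Dl ℓ) (wgt (cRow ℓ (1 - α) α) E ω) (0, 0) (ℓ k + p, (j : ℤ))))) ∂P)
      = ENNReal.ofReal ((α / (1 - lam)) ^ k) := e3
  rw [e4, ← ENNReal.ofReal_mul]
  positivity

end Pool.Agent.H374
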