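import Pool.Agent.H374.Stmts
import Pool.Agent.H374.Det
import Pool.Agent.H374.Tools

/-!
# Far pairs in the strict half-space (paper 8)
-/

set_option autoImplicit false
open MeasureTheory ProbabilityTheory

namespace Pool.Agent.H374

section fr_det

variable {D : Set (ℤ × ℤ)} {w w2 : ℤ × ℤ → ℝ}

/-- Superadditivity along the diagonal with nonnegative weights. -/
lemma fr_super (hD : RD D) (hw : ∀ z, 0 ≤ w z) {u v : ℤ × ℤ} {s : ℤ} (hu : u ∈ D) (hv : v ∈ D)
    (h0 : ((s, s) : ℤ × ℤ) ∈ D) (h1 : ((s + 1, s + 1) : ℤ × ℤ) ∈ D)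
    (a1 : u.1 ≤ s) (a2 : u.2 ≤ s) (b1 : s + 1 ≤ v.1) (b2 : s + 1 ≤ v.2) :
    L D w u (s, s) + L D w (s + 1, s + 1) v ≤ L D w u v := by
  have h2 : ((s + 1, s) : ℤ × ℤ) ∈ D := hD _ h0 _ (by simp) (by simp)
  have c1 := L_concat (w := w) (D := D) (u := u) (z := (s, s)) (z' := (s + 1, s)) (v := v)
    (Or.inl rfl) (by simp only [tm]; omega) (by simp only [tm]; omega)
    (path_nonempty hD hu h0 a1 a2) (path_nonempty hD h2 hv b1 (by simp only; omega))
  have c2 := L_mono_ends (w := w) hD (u' := (s + 1, s)) (v' := v) (u := (s + 1, s + 1)) (v := v)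
    h2 hv h1 hv (by simp) (by simp) le_rfl le_rfl b1 b2 (fun z _ _ => hw z)
  linarith

lemma fr_X_super (hw : ∀ z, 0 ≤ w z) {s t v : ℤ} (h1 : s < t) (h2 : t < v) :
    X w s t + X w t v ≤ X w s v := by
  have := fr_super (D := Hs) (w := w) RD_Hs hw (u := (s + 1, s + 1)) (v := (v, v)) (s := t)
    (diag_mem_Hs _) (diag_mem_Hs _) (diag_mem_Hs _) (diag_mem_Hs _) (by simp only; omega)
    (by simp only; omega) (by simp only; omega) (by simp only; omega)
  exact this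

lemma fr_TF_super (hw : ∀ z, 0 ≤ w z) {s t v : ℤ} (h1 : s < t) (h2 : t < v) :
    TF w s t + TF w t v ≤ TF w s v := by
  have := fr_super (D := Set.univ) (w := w) RD_univ hw (u := (s + 1, s + 1)) (v := (v, v)) (s := t)
    trivial trivial trivial trivial (by simp only; omega)
    (by simp only; omega) (by simp only; omega) (by simp only; omega)
  exact this

/-- Either the best full-space path is in the strict half-space or it is cut at its first and last
visit to the diagonal. -/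
lemma fr_cut (hw : ∀ z, 0 ≤ w z) (hw2 : ∀ z, w z ≤ w2 z) {x m : ℤ} (hx : 1 ≤ x) (hm : 1 ≤ m) :
    L Set.univ w (x + 1, 1) (x + m, m) ≤ L St w (x + 1, 1) (x + m, m) ∨
    ∃ s t : ℤ, x + 1 ≤ s ∧ s ≤ t ∧ t ≤ m ∧
      L Set.univ w (x + 1, 1) (x + m, m)
        ≤ L Hs w2 (x + 1, 1) (s, s) + L Set.univ w (s, s) (t, t) + L Hs w2 (t, t) (x + m, m) := by
  obtain ⟨y, hy, hye⟩ := exists_L w (path_nonempty (D := Set.univ) RD_univ (u := (x + 1, 1))
    (v := (x + m, m)) trivial trivial (by simp only; omega) (by simp only; omega))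
  have tp : tm (x + 1, 1) = x + 2 := by simp only [tm]; ring
  have tp' : tm (x + m, m) = x + 2 * m := by simp only [tm]; ring
  by_cases hall : ∀ k, tm (x + 1, 1) ≤ k → k ≤ tm (x + m, m) → vert y k ∈ St
  · left
    rw [hye]
    exact le_L ⟨hy.1, hy.2.1, hy.2.2.1, hall⟩
  right
  push Not at hall
  obtain ⟨k0, k01, k02, k03⟩ := hall
  have y0 : y (x + 2) = x + 1 := by have := hy.2.1; rwa [tp] at this
  have y1 : y (x + 2 * m) = x + m := by have := hy.2.2.1; rwa [tp'] at this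
  set F : Finset ℤ := (Finset.Icc (x + 2) (x + 2 * m)).filter (fun k => 2 * y k ≤ k) with hF
  have hFne : F.Nonempty := by
    refine ⟨k0, ?_⟩
    rw [hF, Finset.mem_filter, Finset.mem_Icc]
    simp only [St, Set.mem_ofPred_eq, vert, not_lt] at k03
    rw [tp] at k01
    rw [tp'] at k02
    omega
  have m1 := F.min'_mem hFne
  have m2 := F.max'_mem hFne
  set k1 := F.min' hFne with hk1
  set k2 := F.max' hFne with hk2
  rw [hF, Finset.mem_filter, Finset.mem_Icc] at m1 m2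
  have k12 : k1 ≤ k2 := F.min'_le _ (F.max'_mem hFne)
  have k1lt : x + 2 < k1 := by
    rcases lt_or_eq_of_le m1.1.1 with h | h
    · exact h
    · exfalso
      have := m1.2
      rw [← h, y0] at this
      omega
  have k2lt : k2 < x + 2 * m := by
    rcases lt_or_eq_of_le m2.1.2 with h | h
    · exact h
    · exfalso
      have := m2.2
      rw [h, y1] at this
      omega
  have below : ∀ k, x + 2 ≤ k → k < k1 → k < 2 * y k := by
    intro k h1 h2
    by_contra hcon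
    push Not at hcon
    have : k ∈ F := by
      rw [hF, Finset.mem_filter, Finset.mem_Icc]; omega
    have := F.min'_le _ this
    omega
  have above : ∀ k, k2 < k → k ≤ x + 2 * m → k < 2 * y k := by
    intro k h1 h2
    by_contra hcon
    push Not at hcon
    have : k ∈ F := by
      rw [hF, Finset.mem_filter, Finset.mem_Icc]; omega
    have := F.le_max' _ this
    omega
  have e1 : 2 * y k1 = k1 := by
    have h1 := below (k1 - 1) (by omega) (by omega)
    have h2 := hy.1 (k1 - 1)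
    rw [sub_add_cancel] at h2
    have h3 := m1.2
    rcases h2 with h2 | h2 <;> omega
  have e2 : 2 * y k2 = k2 := by
    have h1 := above (k2 + 1) (by omega) (by omega)
    have h2 := hy.1 k2
    have h3 := m2.2
    rcases h2 with h2 | h2 <;> omega
  have v1 : vert y k1 = (y k1, y k1) := by ext <;> simp [vert]; omega
  have v2 : vert y k2 = (y k2, y k2) := by ext <;> simp [vert]; omega
  have g1 := p_fst_ge hy (k := k1) (by rw [tp]; omega)
  have g2 := p_snd_le hy (k := k2) (by rw [tp']; omega)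
  have g3 := hy.1.mono k12
  simp only at g1 g2
  refine ⟨y k1, y k2, g1, g3, by omega, ?_⟩
  have P1 : y ∈ Path Hs (x + 1, 1) (y k1, y k1) := by
    refine ⟨hy.1, hy.2.1, ?_, ?_⟩
    · simp only [tm]; rw [show y k1 + y k1 = k1 by omega]
    · intro k h1 h2
      simp only [Hs, Set.mem_ofPred_eq, vert]
      rw [tp] at h1
      simp only [tm] at h2
      rcases lt_or_eq_of_le (show k ≤ k1 by omega) with h | h
      · have := below k h1 h; omega
      · rw [h]; omega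
  have P2 : y ∈ Path Set.univ (y k1, y k1) (y k2, y k2) := by
    refine ⟨hy.1, ?_, ?_, fun _ _ _ => trivial⟩
    · simp only [tm]; rw [show y k1 + y k1 = k1 by omega]
    · simp only [tm]; rw [show y k2 + y k2 = k2 by omega]
  have P3 : y ∈ Path Hs (y k2, y k2) (x + m, m) := by
    refine ⟨hy.1, ?_, hy.2.2.1, ?_⟩
    · simp only [tm]; rw [show y k2 + y k2 = k2 by omega]
    · intro k h1 h2
      simp only [Hs, Set.mem_ofPred_eq, vert]
      rw [tp'] at h2
      simp only [tm] at h1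
      rcases lt_or_eq_of_le (show k2 ≤ k by omega) with h | h
      · have := above k h h2; omega
      · rw [← h]; omega
  have b1 := le_L (w := w2) P1
  have b2 := le_L (w := w) P2
  have b3 := le_L (w := w2) P3
  have t1 : tm (y k1, y k1) = k1 := by simp only [tm]; omega
  have t2 : tm (y k2, y k2) = k2 := by simp only [tm]; omega
  rw [t1, tp] at b1
  rw [t1, t2] at b2
  rw [t2, tp'] at b3
  have c1 : wsum w y (x + 2) k1 ≤ wsum w2 y (x + 2) k1 := wsum_le fun k _ _ => hw2 _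
  have c3 : wsum w y k2 (x + 2 * m) ≤ wsum w2 y k2 (x + 2 * m) := wsum_le fun k _ _ => hw2 _
  have s1 := wsum_split w y (s := x + 2) (r := k1) (t := x + 2 * m) (by omega) (by omega)
  have s2 := wsum_split w y (s := k1) (r := k2 + 1) (t := x + 2 * m) (by omega) (by omega)
  have s3 := wsum_split w y (s := x + 2) (r := k1) (t := k1) (by omega) (by omega)
  have s4 := wsum_split w y (s := k2) (r := k2 + 1) (t := x + 2 * m) (by omega) (by omega)
  rw [wsum_self] at s3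
  rw [show k2 + 1 - 1 = k2 by ring] at s2
  rw [show k2 + 1 - 1 = k2 by ring, wsum_self] at s4
  have n1 := hw (vert y k1)
  have n2 := hw (vert y k2)
  rw [hye, tp, tp']
  linarith

/-- The deterministic comparison. -/
lemma fr_main (hw : ∀ z, 0 ≤ w z) (hw2 : ∀ z, w z ≤ w2 z) {x m : ℤ} (hx : 1 ≤ x) (hm : 1 ≤ m) :
    L Set.univ w (x + 1, 1) (x + m, m) ≤ L St w (x + 1, 1) (x + m, m) ∨
    ∃ s t : ℤ, x + 1 ≤ s ∧ s ≤ t ∧ t ≤ m ∧
      L Set.univ w (x + 1, 1) (x + m, m)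
        ≤ (L Hs w2 (x + 1, 1) (m + 1, m + 1) - X w2 s (m + 1))
          + (TF w 0 (m + 1) - TF w 0 (s - 1) - TF w t (m + 1))
          + (L Hs w2 (1, 1) (x + m, m) - X w2 0 (t - 1)) := by
  have hw2' : ∀ z, 0 ≤ w2 z := fun z => (hw z).trans (hw2 z)
  rcases fr_cut hw hw2 hx hm with h | ⟨s, t, h1, h2, h3, h4⟩
  · exact Or.inl h
  refine Or.inr ⟨s, t, h1, h2, h3, h4.trans ?_⟩
  have a1 := fr_super (D := Hs) (w := w2) RD_Hs hw2' (u := (x + 1, 1)) (v := (m + 1, m + 1))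
    (s := s) (by simp only [Hs, Set.mem_ofPred_eq]; omega) (diag_mem_Hs _) (diag_mem_Hs _)
    (diag_mem_Hs _) h1 (by simp only; omega) (by simp only; omega) (by simp only; omega)
  have a2 := fr_super (D := Hs) (w := w2) RD_Hs hw2' (u := (1, 1)) (v := (x + m, m))
    (s := t - 1) (diag_mem_Hs _) (by simp only [Hs, Set.mem_ofPred_eq]; omega) (diag_mem_Hs _)
    (diag_mem_Hs _) (by simp only; omega) (by simp only; omega) (by simp only; omega)
    (by simp only; omega)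
  rw [sub_add_cancel] at a2
  have a3 := fr_TF_super (w := w) hw (s := 0) (t := s - 1) (v := t) (by omega) (by omega)
  have a4 := fr_TF_super (w := w) hw (s := 0) (t := t) (v := m + 1) (by omega) (by omega)
  have e1 : X w2 s (m + 1) = L Hs w2 (s + 1, s + 1) (m + 1, m + 1) := rfl
  have e2 : X w2 0 (t - 1) = L Hs w2 (1, 1) (t - 1, t - 1) := by simp [X]
  have e3 : TF w (s - 1) t = L Set.univ w (s, s) (t, t) := by simp [TF]
  rw [e1, e2]
  rw [e3] at a3
  linarith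

end fr_det

section fr_prob

variable {Ω : Type} [MeasurableSpace Ω] {P : Measure Ω} {E : ℤ × ℤ → Ω → ℝ}

/-- Truncation at zero of an environment. -/
lemma fr_env_pos (h : Env P E) : Env P (fun z ω => max (E z ω) 0) := by
  have hm : Measurable (fun x : ℝ => max x 0) := by fun_prop
  refine ⟨h.prob, fun z => hm.comp (h.meas z), h.indep.comp (fun _ x => max x 0) (fun _ => hm), ?_⟩
  intro z
  have h1 : Measure.map (fun ω => max (E z ω) 0) P
      = Measure.map (fun x : ℝ => max x 0) (Measure.map (E z) P) := by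
    rw [Measure.map_map hm (h.meas z)]; rfl
  rw [h1, h.law z]
  have h2 : (fun x : ℝ => max x 0) =ᵐ[expMeasure 1] id := by
    filter_upwards [ae_nonneg_expMeasure 1] with x hx
    simp [hx]
  rw [Measure.map_congr h2, Measure.map_id]

lemma fr_pow {m : ℕ} (hm : 1 ≤ m) : ∃ u : ℝ, 1 ≤ u ∧ (m : ℝ) = u ^ 3 ∧
    (m : ℝ) ^ ((1 : ℝ) / 3) = u ∧ (m : ℝ) ^ (-(1 : ℝ) / 3) = u⁻¹ ∧
    (m : ℝ) ^ ((2 : ℝ) / 3) = u ^ 2 ∧ (m : ℝ) ^ (-(2 : ℝ) / 3) = (u ^ 2)⁻¹ := by
  have hm0 : (0 : ℝ) < m := by exact_mod_cast hm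
  refine ⟨(m : ℝ) ^ ((1 : ℝ) / 3), Real.one_le_rpow (by exact_mod_cast hm) (by norm_num), ?_, rfl,
    ?_, ?_, ?_⟩
  · rw [← Real.rpow_natCast, ← Real.rpow_mul hm0.le]; norm_num
  · rw [← Real.rpow_neg hm0.le]; norm_num
  · rw [← Real.rpow_natCast, ← Real.rpow_mul hm0.le]; norm_num
  · rw [← Real.rpow_natCast, ← Real.rpow_mul hm0.le, ← Real.rpow_neg hm0.le]; norm_num

/-- Comparison of scales: if `m ≤ N ≤ 2m` and `u^3 = m`, `v^3 = N` then `u ≤ v ≤ 2u`. -/
lemma fr_scale {u v : ℝ} (hu : 1 ≤ u) (hv : 1 ≤ v) (h2 : v ^ 3 ≤ 2 * u ^ 3) :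
    v ≤ 2 * u ∧ v ^ 2 ≤ 2 * u ^ 2 := by
  have hu0 : 0 < u := by linarith
  have hv0 : 0 < v := by linarith
  constructor
  · by_contra hcon
    push Not at hcon
    have : (2 * u) ^ 3 < v ^ 3 := pow_lt_pow_left₀ hcon (by positivity) (by norm_num)
    nlinarith [pow_pos hu0 3]
  · by_contra hcon
    push Not at hcon
    have h3 : (2 * u ^ 2) ^ 3 < (v ^ 2) ^ 3 := pow_lt_pow_left₀ hcon (by positivity) (by norm_num)
    have h4 : (v ^ 3) ^ 2 ≤ (2 * u ^ 3) ^ 2 := pow_le_pow_left₀ (by positivity) h2 2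
    nlinarith [pow_pos hu0 6]

/-- Uniform lower tail for superadditive arrays. -/
lemma fr_dyadic (hDy : DyadicStmt) {A : ℝ} (hA : 0 < A) : ∃ B > 0,
    ∀ (Ω : Type) [MeasurableSpace Ω] (P : Measure Ω) [IsProbabilityMeasure P] (g : ℕ)
      (V : ℤ → ℤ → Ω → ℝ),
    (∀ ω s t v, s < t → t < v → V s t ω + V t v ω ≤ V s v ω) →
    (∀ s t : ℤ, s < t → ∀ θ : ℝ, 0 ≤ θ →
      P.real {ω | V s t ω ≤ 4 * ((t : ℝ) - s) - θ * ((t : ℝ) - s) ^ ((1 : ℝ) / 3)}
        ≤ A * Real.exp (-θ / A)) →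
    ∀ θ : ℝ, 0 ≤ θ →
    P.real {ω | ∃ s t : ℤ, 0 ≤ s ∧ s < t ∧ t ≤ g ∧
      V s t ω ≤ 4 * ((t : ℝ) - s) - θ * (g : ℝ) ^ ((1 : ℝ) / 3)} ≤ B * Real.exp (-θ / B) := by
  obtain ⟨B, hB, h⟩ := hDy A hA
  refine ⟨B, hB, ?_⟩
  intro Ω _ P _ g V hsup htail θ hθ
  have h1 := h Ω P g (fun s t ω => 4 * ((t : ℝ) - s) - V s t ω)
    (by
      intro ω s t v hst htv _
      have := hsup ω s t v (by exact_mod_cast hst) (by exact_mod_cast htv)
      linarith)
    (by
      intro s t hst _ τ hτ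
      have h2 := htail s t (by exact_mod_cast hst) τ hτ
      push_cast at h2
      refine le_trans (measureReal_mono ?_ (measure_ne_top _ _)) h2
      intro ω hω
      simp only [Set.mem_ofPred_eq] at hω ⊢
      linarith) θ hθ
  refine le_trans (measureReal_mono ?_ (measure_ne_top _ _)) h1
  rintro ω ⟨s, t, h0, hst, htg, hV⟩
  refine ⟨s.toNat, t.toNat, by omega, by omega, ?_⟩
  have e1 : ((s.toNat : ℕ) : ℤ) = s := Int.toNat_of_nonneg h0
  have e2 : ((t.toNat : ℕ) : ℤ) = t := Int.toNat_of_nonneg (by omega)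
  have e3 : ((s.toNat : ℕ) : ℝ) = (s : ℝ) := by exact_mod_cast congrArg (Int.cast (R := ℝ)) e1
  have e4 : ((t.toNat : ℕ) : ℝ) = (t : ℝ) := by exact_mod_cast congrArg (Int.cast (R := ℝ)) e2
  simp only [e1, e2, e3, e4]
  linarith

/-- Shift of the far pair to the corner. -/
lemma fr_shift (w : ℤ × ℤ → ℝ) (x m : ℤ) :
    L Set.univ w (x + 1, 1) (x + m, m) = TF (fun z => w (z + (x, 0))) 0 m := by
  have h1 : ((x + 1, 1) : ℤ × ℤ) = ((0 : ℤ) + 1, (0 : ℤ) + 1) + (x, 0) := by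
    ext <;> simp; ring
  have h2 : ((x + m, m) : ℤ × ℤ) = (m, m) + (x, 0) := by
    ext <;> simp; ring
  unfold TF
  rw [h1, h2, L_shift]
  rfl

end fr_prob

lemma fr_exp_mono {a C D : ℝ} (ha : 0 ≤ a) (hD : 0 < D) (h : D ≤ C) :
    Real.exp (-a / D) ≤ Real.exp (-a / C) := by
  apply Real.exp_le_exp.2
  have := div_le_div_of_nonneg_left ha hD h
  rw [neg_div, neg_div]; linarith

/-- The far pair estimate for nonnegative environments. -/
lemma fr_core (hFL : FullLower) (hFU : FullUpper) (hLT : LowerTail) (hUC : UpperCurv)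
    (hUR : UpperRev) (hDy : DyadicStmt) : ∃ C > 0,
    ∀ (Ω : Type) [MeasurableSpace Ω] (P : Measure Ω) (E : ℤ × ℤ → Ω → ℝ), Env P E →
    (∀ z ω, 0 ≤ E z ω) → ∀ m x : ℕ, 1 ≤ m → 1 ≤ x → ∀ θ : ℝ, 0 ≤ θ →
    P.real {ω | L St (fun z => E z ω) ((x : ℤ) + 1, 1) ((x : ℤ) + m, (m : ℤ))
      ≤ 4 * (m : ℝ) - θ * (m : ℝ) ^ ((1 : ℝ) / 3)}
    ≤ C * (Real.exp (-θ / C) + Real.exp (-((x : ℝ) * (m : ℝ) ^ (-(2 : ℝ) / 3)) / C)) := by
  obtain ⟨CF, hCF, hFL⟩ := hFL
  obtain ⟨CU, hCU, hFU⟩ := hFU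
  obtain ⟨κL, hκL, CL, hCL, hLT⟩ := hLT
  obtain ⟨C2, hC2, hUC⟩ := hUC
  obtain ⟨C1, hC1, hUR⟩ := hUR
  obtain ⟨BF, hBF, hdF⟩ := fr_dyadic hDy hCF
  obtain ⟨BL, hBL, hdL⟩ := fr_dyadic hDy hCL
  have hC10 : 0 < C1 := by linarith
  have hC20 : 0 < C2 := by linarith
  set C : ℝ := 3 + CF + BL + BF + CU + C1 + 2 * C2 + 192 * C1 * (1 + BL + BF + CU + CF) with hC
  have hC0 : 0 < C := by rw [hC]; positivity
  have p1 : 0 < C1 * BL := by positivity
  have p2 : 0 < C1 * BF := by positivity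
  have p3 : 0 < C1 * CU := by positivity
  have p4 : 0 < C1 * CF := by positivity
  have q1 : 80 * C1 * BL ≤ C := by rw [hC]; nlinarith
  have q2 : 80 * C1 * BF ≤ C := by rw [hC]; nlinarith
  have q3 : 80 * C1 * CU ≤ C := by rw [hC]; nlinarith
  have q4 : 16 * C1 * CF ≤ C := by rw [hC]; nlinarith
  have q5 : 2 * C1 ≤ C := by rw [hC]; nlinarith
  have q6 : 2 * C2 ≤ C := by rw [hC]; nlinarith
  have q7 : 192 * C1 ≤ C := by rw [hC]; nlinarith
  have q8 : CF ≤ C := by rw [hC]; nlinarith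
  have q9 : 3 ≤ C := by rw [hC]; nlinarith
  have q10 : CF + BL + BF + CU + C1 + C2 ≤ C := by rw [hC]; nlinarith
  refine ⟨C, hC0, ?_⟩
  intro Ω _ P E hE hpos m x hm hx θ hθ
  have := hE.prob
  obtain ⟨u, hu1, hu3, hp1, hp2, hp3, hp4⟩ := fr_pow hm
  obtain ⟨v, hv1, hv3, hr1, hr2, hr3, hr4⟩ := fr_pow (show 1 ≤ m + 1 by omega)
  obtain ⟨y, hy1, hy3, ht1, ht2, ht3, ht4⟩ := fr_pow (show 1 ≤ x + m by omega)
  have hu0 : 0 < u := by linarith
  have hv0 : 0 < v := by linarith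
  have hy0 : 0 < y := by linarith
  rw [hp1, hp4]
  have hE' : Env P (fun z => E (z + ((x : ℤ), 0))) :=
    hE.comp (fun a b hab => by simpa using hab)
  have hx1 : (1 : ℝ) ≤ x := by exact_mod_cast hx
  have hm1 : (1 : ℝ) ≤ m := by exact_mod_cast hm
  have hshift : ∀ ω, L Set.univ (fun z => E z ω) ((x : ℤ) + 1, 1) ((x : ℤ) + m, (m : ℤ))
      = TF (fun z => E (z + ((x : ℤ), 0)) ω) 0 m := fun ω => fr_shift _ _ _
  by_cases hxm : m ≤ x
  · -- the path cannot reach the diagonal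
    have h1 := hFL Ω P _ hE' 0 m (by omega) θ hθ
    simp only [Int.cast_natCast, Int.cast_zero, sub_zero] at h1
    rw [hp1] at h1
    have hsub : {ω | L St (fun z => E z ω) ((x : ℤ) + 1, 1) ((x : ℤ) + m, (m : ℤ))
        ≤ 4 * (m : ℝ) - θ * u} ⊆
        {ω | TF (fun z => E (z + ((x : ℤ), 0)) ω) 0 m ≤ 4 * (m : ℝ) - θ * u} := by
      intro ω hω
      simp only [Set.mem_ofPred_eq] at hω ⊢
      rcases fr_main (w := fun z => E z ω) (w2 := fun z => E z ω) (fun z => hpos z ω)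
        (fun z => le_rfl) (x := x) (m := m) (by omega) (by omega) with h | ⟨s, t, a, b, c, _⟩
      · rw [hshift] at h; exact h.trans hω
      · exfalso; omega
    refine (measureReal_mono hsub (measure_ne_top _ _)).trans (h1.trans ?_)
    have e1 := fr_exp_mono hθ hCF q8
    have e2 := Real.exp_pos (-((x : ℝ) * (u ^ 2)⁻¹) / C)
    have e3 := Real.exp_pos (-θ / C)
    calc CF * Real.exp (-θ / CF) ≤ C * Real.exp (-θ / C) := by gcongr
      _ ≤ _ := by gcongr; linarith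
  push Not at hxm
  obtain ⟨K, hK⟩ : ∃ K : ℝ, K = (x : ℝ) * (u ^ 2)⁻¹ := ⟨_, rfl⟩
  have hK0 : 0 < K := by rw [hK]; positivity
  have hxK : (x : ℝ) = K * u ^ 2 := by rw [hK]; field_simp
  rw [← hK]
  by_cases hKs : K < 96 * C1
  · have h1 : P.real {ω | L St (fun z => E z ω) ((x : ℤ) + 1, 1) ((x : ℤ) + m, (m : ℤ))
      ≤ 4 * (m : ℝ) - θ * u} ≤ 1 := measureReal_le_one
    refine h1.trans ?_
    have h2 : -(1 / 2) ≤ -K / C := by
      rw [neg_div, neg_le_neg_iff, div_le_iff₀ hC0]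
      linarith
    have h3 : 1 - 1 / 2 ≤ Real.exp (-K / C) := by
      have := Real.add_one_le_exp (-K / C)
      linarith
    have h4 := Real.exp_pos (-θ / C)
    nlinarith
  push Not at hKs
  -- scales
  have hmx : (x : ℝ) ≤ m := by exact_mod_cast hxm.le
  obtain ⟨hvu, hvu2⟩ := fr_scale hu1 hv1 (by rw [← hu3, ← hv3]; push_cast; linarith)
  obtain ⟨hyu, hyu2⟩ := fr_scale hu1 hy1 (by rw [← hu3, ← hy3]; push_cast; linarith)
  set θ' : ℝ := K / (80 * C1) with hθ'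
  have hθ'0 : 0 ≤ θ' := by rw [hθ']; positivity
  set θ'' : ℝ := min θ (K / (16 * C1)) with hθ''
  have hθ''0 : 0 ≤ θ'' := by rw [hθ'']; exact le_min hθ (by positivity)
  -- the events
  have F0 := hFL Ω P _ hE' 0 m (by omega) θ'' hθ''0
  simp only [Int.cast_natCast, Int.cast_zero, sub_zero] at F0
  rw [hp1] at F0
  have F1 := hdL Ω P (m + 1) (fun s t ω => X (wgt (cH (1 / 2)) E ω) s t)
    (fun ω s t r h1 h2 => fr_X_super (fun z => wgt_nonneg (fun z => by
      unfold cH; split_ifs <;> norm_num) (fun z => hpos z ω) z) h1 h2)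
    (fun s t hst τ hτ => hLT Ω P E hE s t hst (1 / 2) (by
      simp only [sub_self, abs_zero]
      have : (0 : ℝ) < (t : ℝ) - s := by
        have : (s : ℝ) < t := by exact_mod_cast hst
        linarith
      positivity) τ hτ) θ' hθ'0
  rw [hr1] at F1
  have F2 := hdF Ω P (m + 1) (fun s t ω => TF (fun z => E z ω) s t)
    (fun ω s t r h1 h2 => fr_TF_super (fun z => hpos z ω) h1 h2)
    (fun s t hst τ hτ => hFL Ω P E hE s t hst τ hτ) θ' hθ'0
  rw [hr1] at F2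
  have F3 := hFU Ω P E hE 0 ((m + 1 : ℕ) : ℤ) (by omega) θ' hθ'0
  simp only [Int.cast_natCast, Int.cast_zero, sub_zero] at F3
  rw [hr1] at F3
  have F4 := hUR Ω P E hE (m + 1) (x + 1) (by omega) (by omega) (1 / 2) (by
      rw [hr2]; simp only [sub_self, abs_zero]; positivity)
      (((x + 1 : ℕ) : ℝ) * v⁻¹ / (2 * C1)) (by positivity)
  rw [hr2, hr4] at F4
  have F5 := hUC Ω P E hE (x + m) m hm (by omega) (1 / 2) (by
      rw [ht2]; simp only [sub_self, abs_zero]; positivity)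
      ((((x + m : ℕ) : ℝ) - m) * y⁻¹ / C2) (by
        have : (0 : ℝ) ≤ ((x + m : ℕ) : ℝ) - m := by push_cast; linarith
        positivity)
  rw [ht2, ht4] at F5
  have hsub : {ω | L St (fun z => E z ω) ((x : ℤ) + 1, 1) ((x : ℤ) + m, (m : ℤ))
        ≤ 4 * (m : ℝ) - θ * u} ⊆
      (((({ω | TF (fun z => E (z + ((x : ℤ), 0)) ω) 0 m ≤ 4 * (m : ℝ) - θ'' * u}
      ∪ {ω | ∃ s t : ℤ, 0 ≤ s ∧ s < t ∧ t ≤ ((m + 1 : ℕ) : ℤ) ∧
          X (wgt (cH (1 / 2)) E ω) s t ≤ 4 * ((t : ℝ) - s) - θ' * v})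
      ∪ {ω | ∃ s t : ℤ, 0 ≤ s ∧ s < t ∧ t ≤ ((m + 1 : ℕ) : ℤ) ∧
          TF (fun z => E z ω) s t ≤ 4 * ((t : ℝ) - s) - θ' * v})
      ∪ {ω | 4 * ((m + 1 : ℕ) : ℝ) + θ' * v ≤ TF (fun z => E z ω) 0 ((m + 1 : ℕ) : ℤ)})
      ∪ {ω | 4 * ((m + 1 : ℕ) : ℝ) - 2 * ((x + 1 : ℕ) : ℝ) - ((x + 1 : ℕ) : ℝ) * v⁻¹ / C1
          + ((x + 1 : ℕ) : ℝ) * v⁻¹ / (2 * C1) ≤ G1 (wgt (cH (1 / 2)) E ω) (m + 1) (x + 1)})
      ∪ {ω | 2 * ((x + m : ℕ) : ℝ) + 2 * (m : ℝ) - (((x + m : ℕ) : ℝ) - m) * y⁻¹ / C2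
          + (((x + m : ℕ) : ℝ) - m) * y⁻¹ / C2
          ≤ L Hs (wgt (cH (1 / 2)) E ω) (1, 1) (((x + m : ℕ) : ℤ), (m : ℤ))} := by
    intro ω hω
    by_contra hcon
    simp only [Set.mem_union, Set.mem_ofPred_eq, not_or, not_exists, not_and, not_le] at hcon hω
    obtain ⟨⟨⟨⟨⟨c0, c1⟩, c2⟩, c3⟩, c4⟩, c5⟩ := hcon
    have hw2 : ∀ z, E z ω ≤ wgt (cH (1 / 2)) E ω z := by
      intro z
      have := hpos z ω
      unfold wgt cH
      split_ifs
      · norm_num; linarith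
      · linarith
    have hdbl : θ'' * u ≤ θ * u := by
      have : θ'' ≤ θ := min_le_left _ _
      gcongr
    have hKb : θ'' * u ≤ K / (16 * C1) * u := by
      have : θ'' ≤ K / (16 * C1) := min_le_right _ _
      gcongr
    rcases fr_main (w := fun z => E z ω) (w2 := wgt (cH (1 / 2)) E ω) (fun z => hpos z ω)
        hw2 (x := x) (m := m) (by omega) (by omega) with h | ⟨s, t, a1, a2, a3, a4⟩
    · rw [hshift] at h; linarith
    · have d1 := c1 s ((m + 1 : ℕ) : ℤ) (by omega) (by omega) le_rfl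
      have d2 := c1 0 (t - 1) le_rfl (by omega) (by omega)
      have d3 := c2 0 (s - 1) le_rfl (by omega) (by omega)
      have d4 := c2 t ((m + 1 : ℕ) : ℤ) (by omega) (by omega) le_rfl
      unfold G1 at c4
      push_cast at d1 d2 d3 d4 c3 c4 c5
      rw [hshift] at a4
      have f1 : K * u / (4 * C1) ≤ ((x : ℝ) + 1) * v⁻¹ / (2 * C1) := by
        have : K * u / 2 ≤ ((x : ℝ) + 1) * v⁻¹ := by
          rw [← div_eq_mul_inv, le_div_iff₀ hv0]
          calc K * u / 2 * v ≤ K * u / 2 * (2 * u) := by gcongr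
            _ = (x : ℝ) := by rw [hxK]; ring
            _ ≤ (x : ℝ) + 1 := by linarith
        calc K * u / (4 * C1) = (K * u / 2) / (2 * C1) := by ring
          _ ≤ _ := by gcongr
      have f2 : ((x : ℝ) + 1) * v⁻¹ / C1 = 2 * (((x : ℝ) + 1) * v⁻¹ / (2 * C1)) := by
        field_simp
      have f3 : θ' * v ≤ K * u / (40 * C1) := by
        calc θ' * v ≤ θ' * (2 * u) := by gcongr
          _ = K * u / (40 * C1) := by rw [hθ']; field_simp; ring
      obtain ⟨κ0, hκ0⟩ : ∃ κ0 : ℝ, κ0 = K * u / (80 * C1) := ⟨_, rfl⟩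
      have g1 : K * u / (4 * C1) = 20 * κ0 := by rw [hκ0]; field_simp; ring
      have g3 : K * u / (40 * C1) = 2 * κ0 := by rw [hκ0]; field_simp; ring
      have g4 : K / (16 * C1) * u = 5 * κ0 := by rw [hκ0]; field_simp; ring
      have g5 : 6 ≤ 5 * κ0 := by
        rw [← g4, div_mul_eq_mul_div, le_div_iff₀ (by positivity)]
        nlinarith
      rw [f2] at c4
      rw [g1] at f1
      rw [g3] at f3
      rw [g4] at hKb
      linarith
  refine (measureReal_mono hsub (measure_ne_top _ _)).trans ?_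
  refine (measureReal_union_le _ _).trans ?_
  refine (add_le_add ((measureReal_union_le _ _).trans (add_le_add ((measureReal_union_le _ _).trans
    (add_le_add ((measureReal_union_le _ _).trans (add_le_add (measureReal_union_le _ _) le_rfl))
      le_rfl)) le_rfl)) le_rfl).trans ?_
  have hKC := Real.exp_pos (-K / C)
  have hθC := Real.exp_pos (-θ / C)
  have E0 : Real.exp (-θ'' / CF) ≤ Real.exp (-θ / C) + Real.exp (-K / C) := by
    rcases min_choice θ (K / (16 * C1)) with h | h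
    · rw [hθ'', h]
      have := fr_exp_mono hθ hCF q8
      linarith
    · rw [hθ'', h]
      have e1 : -(K / (16 * C1)) / CF = -K / (16 * C1 * CF) := by field_simp
      have := fr_exp_mono hK0.le (by positivity : 0 < 16 * C1 * CF) q4
      rw [e1]; linarith
  have E1 : Real.exp (-θ' / BL) ≤ Real.exp (-K / C) := by
    have e1 : -θ' / BL = -K / (80 * C1 * BL) := by rw [hθ']; field_simp
    rw [e1]; exact fr_exp_mono hK0.le (by positivity) q1
  have E2 : Real.exp (-θ' / BF) ≤ Real.exp (-K / C) := by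
    have e1 : -θ' / BF = -K / (80 * C1 * BF) := by rw [hθ']; field_simp
    rw [e1]; exact fr_exp_mono hK0.le (by positivity) q2
  have E3 : Real.exp (-θ' / CU) ≤ Real.exp (-K / C) := by
    have e1 : -θ' / CU = -K / (80 * C1 * CU) := by rw [hθ']; field_simp
    rw [e1]; exact fr_exp_mono hK0.le (by positivity) q3
  have E4 : Real.exp (-(((x + 1 : ℕ) : ℝ) * v⁻¹ / (2 * C1) * v⁻¹) / C1
      - ((x + 1 : ℕ) : ℝ) * (v ^ 2)⁻¹ / C1) ≤ Real.exp (-K / C) := by
    refine le_trans ?_ (fr_exp_mono hK0.le (by positivity : 0 < 2 * C1) q5)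
    apply Real.exp_le_exp.2
    have h1 : 0 ≤ ((x + 1 : ℕ) : ℝ) * v⁻¹ / (2 * C1) * v⁻¹ / C1 := by positivity
    have h2 : K / (2 * C1) ≤ ((x + 1 : ℕ) : ℝ) * (v ^ 2)⁻¹ / C1 := by
      have h3 : K / 2 ≤ ((x + 1 : ℕ) : ℝ) * (v ^ 2)⁻¹ := by
        rw [← div_eq_mul_inv, le_div_iff₀ (by positivity)]
        push_cast
        calc K / 2 * v ^ 2 ≤ K / 2 * (2 * u ^ 2) := by gcongr
          _ = (x : ℝ) := by rw [hxK]; ring
          _ ≤ (x : ℝ) + 1 := by linarith
      calc K / (2 * C1) = K / 2 / C1 := by ring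
        _ ≤ _ := by gcongr
    rw [neg_div, neg_div]
    linarith
  have E5 : Real.exp (-((((x + m : ℕ) : ℝ) - m) * y⁻¹ / C2 * y⁻¹) / C2
      - (((x + m : ℕ) : ℝ) - m) * (y ^ 2)⁻¹ / C2) ≤ Real.exp (-K / C) := by
    refine le_trans ?_ (fr_exp_mono hK0.le (by positivity : 0 < 2 * C2) q6)
    apply Real.exp_le_exp.2
    have h0 : ((x + m : ℕ) : ℝ) - m = x := by push_cast; ring
    rw [h0]
    have h1 : 0 ≤ (x : ℝ) * y⁻¹ / C2 * y⁻¹ / C2 := by positivity
    have h2 : K / (2 * C2) ≤ (x : ℝ) * (y ^ 2)⁻¹ / C2 := by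
      have h3 : K / 2 ≤ (x : ℝ) * (y ^ 2)⁻¹ := by
        rw [← div_eq_mul_inv, le_div_iff₀ (by positivity)]
        calc K / 2 * y ^ 2 ≤ K / 2 * (2 * u ^ 2) := by gcongr
          _ = (x : ℝ) := by rw [hxK]; ring
      calc K / (2 * C2) = K / 2 / C2 := by ring
        _ ≤ _ := by gcongr
    rw [neg_div, neg_div]
    linarith
  have hsum : P.real {ω | TF (fun z => E (z + ((x : ℤ), 0)) ω) 0 m ≤ 4 * (m : ℝ) - θ'' * u}
      + P.real {ω | ∃ s t : ℤ, 0 ≤ s ∧ s < t ∧ t ≤ ((m + 1 : ℕ) : ℤ) ∧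
          X (wgt (cH (1 / 2)) E ω) s t ≤ 4 * ((t : ℝ) - s) - θ' * v}
      + P.real {ω | ∃ s t : ℤ, 0 ≤ s ∧ s < t ∧ t ≤ ((m + 1 : ℕ) : ℤ) ∧
          TF (fun z => E z ω) s t ≤ 4 * ((t : ℝ) - s) - θ' * v}
      + P.real {ω | 4 * ((m + 1 : ℕ) : ℝ) + θ' * v ≤ TF (fun z => E z ω) 0 ((m + 1 : ℕ) : ℤ)}
      + P.real {ω | 4 * ((m + 1 : ℕ) : ℝ) - 2 * ((x + 1 : ℕ) : ℝ)
          - ((x + 1 : ℕ) : ℝ) * v⁻¹ / C1
          + ((x + 1 : ℕ) : ℝ) * v⁻¹ / (2 * C1) ≤ G1 (wgt (cH (1 / 2)) E ω) (m + 1) (x + 1)}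
      + P.real {ω | 2 * ((x + m : ℕ) : ℝ) + 2 * (m : ℝ)
          - (((x + m : ℕ) : ℝ) - m) * y⁻¹ / C2
          + (((x + m : ℕ) : ℝ) - m) * y⁻¹ / C2
          ≤ L Hs (wgt (cH (1 / 2)) E ω) (1, 1) (((x + m : ℕ) : ℤ), (m : ℤ))}
      ≤ CF * (Real.exp (-θ / C) + Real.exp (-K / C)) + BL * Real.exp (-K / C)
        + BF * Real.exp (-K / C) + CU * Real.exp (-K / C) + C1 * Real.exp (-K / C)
        + C2 * Real.exp (-K / C) := by
    refine add_le_add (add_le_add (add_le_add (add_le_add (add_le_add ?_ ?_) ?_) ?_) ?_) ?_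
    · exact F0.trans (by gcongr)
    · exact F1.trans (by gcongr)
    · exact F2.trans (by gcongr)
    · exact F3.trans (by gcongr)
    · exact F4.trans (by gcongr)
    · exact F5.trans (by gcongr)
  refine hsum.trans ?_
  have hfin : (CF + BL + BF + CU + C1 + C2) * (Real.exp (-θ / C) + Real.exp (-K / C))
      ≤ C * (Real.exp (-θ / C) + Real.exp (-K / C)) := by gcongr
  nlinarith [mul_pos hBL hθC, mul_pos hBF hθC, mul_pos hCU hθC, mul_pos hC10 hθC,
    mul_pos hC20 hθC]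

/-- Far pairs in the strict half-space (8). -/
theorem t_FarPairs (hFL : FullLower) (hFU : FullUpper) (hLT : LowerTail) (hUC : UpperCurv)
    (hUR : UpperRev) (hDy : DyadicStmt) : FarPairs := by
  obtain ⟨C, hC, h⟩ := fr_core hFL hFU hLT hUC hUR hDy
  refine ⟨C, hC, ?_⟩
  intro Ω _ P E hE m x hm hx θ hθ
  refine le_trans (le_of_eq ?_) (h Ω P _ (fr_env_pos hE) (fun z ω => le_max_right _ _)
    m x hm hx θ hθ)
  apply measureReal_congr
  filter_upwards [hE.nonneg] with ω hω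
  have : (fun z => E z ω) = fun z => max (E z ω) 0 := by
    funext z; rw [max_eq_left (hω z)]
  change (_ ≤ _) = (_ ≤ _)
  rw [this]

end Pool.Agent.H374
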