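import Pool.Agent.H374.Stmts
import Pool.Agent.H374.Det
import Pool.Agent.H374.Tools

/-!
# The frozen statement from the uniform statement over all diagonal pairs
-/

set_option autoImplicit false
open MeasureTheory ProbabilityTheory Filter Topology

namespace Pool.Agent.H374

/-! ## The passage value in the two forms -/

lemma fi_tm {a : ℤ × ℤ} {m : ℕ} {p : ℕ → ℤ × ℤ} (h0 : p 0 = a)
    (hs : ∀ k < m, p (k + 1) = p k + (1, 0) ∨ p (k + 1) = p k + (0, 1)) :
    ∀ k ≤ m, tm (p k) = tm a + k := by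
  intro k
  induction k with
  | zero => intro _; rw [h0]; simp
  | succ k ih =>
    intro hk
    have h1 := ih (by omega)
    rcases hs k (by omega) with h2 | h2
    · rw [h2]
      simp only [tm, Prod.fst_add, Prod.snd_add] at h1 ⊢
      push_cast
      omega
    · rw [h2]
      simp only [tm, Prod.fst_add, Prod.snd_add] at h1 ⊢
      push_cast
      omega

lemma fi_sum (W : ℤ × ℤ → ℝ) (x : ℤ → ℤ) (s : ℤ) (m : ℕ) :
    wsum W x s (s + m) = ∑ k ∈ Finset.range (m + 1), W (vert x (s + k)) := by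
  induction m with
  | zero => simp
  | succ m ih =>
    rw [Finset.sum_range_succ, ← ih,
      wsum_split W x (r := s + (m + 1 : ℕ)) (by push_cast; omega) (by omega), wsum_self]
    congr 2
    push_cast
    ring

lemma fi_G (W : ℤ × ℤ → ℝ) (a b : ℤ × ℤ) (hab : a ≤ b) :
    sSup {w : ℝ | ∃ (m : ℕ) (p : ℕ → ℤ × ℤ), p 0 = a ∧ p m = b ∧
          (∀ k < m, p (k + 1) = p k + (1, 0) ∨ p (k + 1) = p k + (0, 1)) ∧
          (∀ k ≤ m, (p k).2 ≤ (p k).1) ∧
          w = ∑ k ∈ Finset.range (m + 1), W (p k)} = L Hs W a b := by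
  have hab1 : a.1 ≤ b.1 := hab.1
  have hab2 : a.2 ≤ b.2 := hab.2
  unfold L
  congr 1
  ext w
  constructor
  · rintro ⟨m, p, h0, hm, hs, hd, rfl⟩
    have ht := fi_tm h0 hs
    have htm : tm b = tm a + m := by rw [← ht m le_rfl, hm]
    let x : ℤ → ℤ := fun t => (p (min (t - tm a).toNat m)).1
    have hx1 : ∀ k : ℕ, k ≤ m → x (tm a + k) = (p k).1 := by
      intro k hk
      show (p (min (tm a + k - tm a).toNat m)).1 = _
      have : (tm a + k - tm a).toNat = k := by omega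
      rw [this, min_eq_left hk]
    have hx2 : ∀ k : ℕ, k ≤ m → vert x (tm a + k) = p k := by
      intro k hk
      ext
      · exact hx1 k hk
      · show tm a + k - x (tm a + k) = (p k).2
        rw [hx1 k hk, ← ht k hk]
        simp only [tm]
        ring
    refine ⟨x, ⟨?_, ?_, ?_, ?_⟩, ?_⟩
    · intro t
      show (p (min (t + 1 - tm a).toNat m)).1 = (p (min (t - tm a).toNat m)).1 ∨
        (p (min (t + 1 - tm a).toNat m)).1 = (p (min (t - tm a).toNat m)).1 + 1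
      rcases lt_or_ge t (tm a) with h1 | h1
      · left
        have e1 : (t + 1 - tm a).toNat = 0 := by omega
        have e2 : (t - tm a).toNat = 0 := by omega
        rw [e1, e2]
      · have e1 : (t + 1 - tm a).toNat = (t - tm a).toNat + 1 := by omega
        rw [e1]
        rcases lt_or_ge (t - tm a).toNat m with h2 | h2
        · rw [min_eq_left (by omega : (t - tm a).toNat + 1 ≤ m), min_eq_left h2.le]
          rcases hs _ h2 with h3 | h3
          · right; rw [h3]; rfl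
          · left; rw [h3]; simp
        · left
          rw [min_eq_right (by omega : m ≤ (t - tm a).toNat + 1), min_eq_right h2]
    · have := hx1 0 (Nat.zero_le _)
      simp only [Nat.cast_zero, add_zero] at this
      rw [this, h0]
    · rw [htm, hx1 m le_rfl, hm]
    · intro k hk1 hk2
      have e : k = tm a + ((k - tm a).toNat : ℤ) := by omega
      have hk3 : (k - tm a).toNat ≤ m := by omega
      rw [e, hx2 _ hk3]
      exact hd _ hk3
    · show wsum W x (tm a) (tm b) = _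
      rw [htm, fi_sum]
      refine Finset.sum_congr rfl fun k hk => ?_
      rw [Finset.mem_range] at hk
      rw [hx2 k (by omega)]
  · rintro ⟨x, hx, rfl⟩
    have htm : tm a ≤ tm b := by simp only [tm]; omega
    obtain ⟨m, hm⟩ : ∃ m : ℕ, tm b = tm a + m := ⟨(tm b - tm a).toNat, by omega⟩
    refine ⟨m, fun k => vert x (tm a + k), ?_, ?_, ?_, ?_, ?_⟩
    · ext
      · show x (tm a + (0 : ℕ)) = a.1
        rw [Nat.cast_zero, add_zero]; exact hx.2.1
      · show tm a + (0 : ℕ) - x (tm a + (0 : ℕ)) = a.2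
        rw [Nat.cast_zero, add_zero, hx.2.1]; simp only [tm]; ring
    · ext
      · show x (tm a + m) = b.1
        rw [← hm]; exact hx.2.2.1
      · show tm a + m - x (tm a + m) = b.2
        rw [← hm, hx.2.2.1]; simp only [tm]; ring
    · intro k _
      rcases hx.1 (tm a + k) with h1 | h1
      · right
        ext
        · show x (tm a + (k + 1 : ℕ)) = x (tm a + k) + 0
          rw [show tm a + ((k + 1 : ℕ) : ℤ) = tm a + k + 1 by push_cast; ring, h1]; ring
        · show tm a + (k + 1 : ℕ) - x (tm a + (k + 1 : ℕ)) = tm a + k - x (tm a + k) + 1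
          rw [show tm a + ((k + 1 : ℕ) : ℤ) = tm a + k + 1 by push_cast; ring, h1]; ring
      · left
        ext
        · show x (tm a + (k + 1 : ℕ)) = x (tm a + k) + 1
          rw [show tm a + ((k + 1 : ℕ) : ℤ) = tm a + k + 1 by push_cast; ring, h1]
        · show tm a + (k + 1 : ℕ) - x (tm a + (k + 1 : ℕ)) = tm a + k - x (tm a + k) + 0
          rw [show tm a + ((k + 1 : ℕ) : ℤ) = tm a + k + 1 by push_cast; ring, h1]; ring
    · intro k hk
      exact hx.2.2.2 (tm a + k) (by omega) (by omega)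
    · show wsum W x (tm a) (tm b) = _
      rw [hm, fi_sum]

/-! ## Weights that differ only on the diagonal -/

lemma fi_diag (w w' : ℤ × ℤ → ℝ) (hw : ∀ z : ℤ × ℤ, z.1 ≠ z.2 → w z = w' z) (a b : ℤ × ℤ)
    (hab : a ≤ b) : L Hs w a b - L Hs w' a b ≤ 0 ∨ ∃ s t : ℤ, s < t ∧ a.1 - 1 ≤ s ∧ t ≤ b.2 ∧
      L Hs w a b - L Hs w' a b ≤ X w s t - X w' s t := by
  have hab1 : a.1 ≤ b.1 := hab.1
  have hab2 : a.2 ≤ b.2 := hab.2
  have htm : tm a ≤ tm b := by simp only [tm]; omega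
  by_cases hne : (Path Hs a b).Nonempty
  swap
  · left
    rw [Set.not_nonempty_iff_eq_empty] at hne
    rw [L_empty hne, L_empty hne, sub_self]
  obtain ⟨x, hx, hxe⟩ := exists_L w hne
  have hww : ∀ p q : ℤ, (∀ k, p ≤ k → k ≤ q → x k ≠ k - x k) → wsum w x p q = wsum w' x p q := by
    intro p q hpq
    refine wsum_congr fun k h1 h2 => hw _ ?_
    exact hpq k h1 h2
  let S : Finset ℤ := (Finset.Icc (tm a) (tm b)).filter (fun k => x k = k - x k)
  have hS : ∀ k, k ∈ S ↔ (tm a ≤ k ∧ k ≤ tm b) ∧ x k = k - x k := by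
    intro k
    simp only [S, Finset.mem_filter, Finset.mem_Icc]
  by_cases hSne : S.Nonempty
  swap
  · left
    rw [Finset.not_nonempty_iff_eq_empty] at hSne
    have h1 : wsum w x (tm a) (tm b) = wsum w' x (tm a) (tm b) := by
      refine hww _ _ fun k h1 h2 h3 => ?_
      have : k ∈ S := (hS k).2 ⟨⟨h1, h2⟩, h3⟩
      rw [hSne] at this
      exact absurd this (Finset.notMem_empty k)
    rw [hxe, h1]
    have := le_L (w := w') hx
    linarith
  · right
    obtain ⟨k1, hk1, hmin⟩ := S.exists_minimal hSne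
    obtain ⟨k2, hk2, hmax⟩ := S.exists_maximal hSne
    have hk1' := (hS k1).1 hk1
    have hk2' := (hS k2).1 hk2
    have hle : ∀ k ∈ S, k1 ≤ k := by
      intro k hk
      rcases le_total k1 k with h | h
      · exact h
      · exact hmin hk h
    have hge : ∀ k ∈ S, k ≤ k2 := by
      intro k hk
      rcases le_total k k2 with h | h
      · exact h
      · exact hmax hk h
    have h12 : k1 ≤ k2 := hle k2 hk2
    obtain ⟨⟨ha1, hb1⟩, hd1⟩ := hk1'
    obtain ⟨⟨ha2, hb2⟩, hd2⟩ := hk2'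
    have hmono := hx.1.mono h12
    have hv1 : vert x k1 = (x k1 - 1 + 1, x k1 - 1 + 1) := by
      ext
      · show x k1 = _; ring
      · show k1 - x k1 = x k1 - 1 + 1; omega
    have hv2 : vert x k2 = (x k2, x k2) := by
      ext
      · rfl
      · show k2 - x k2 = x k2; omega
    have ht1 : tm (x k1 - 1 + 1, x k1 - 1 + 1) = k1 := by simp only [tm]; omega
    have ht2 : tm (x k2, x k2) = k2 := by simp only [tm]; omega
    refine ⟨x k1 - 1, x k2, by omega, ?_, ?_, ?_⟩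
    · have := p_fst_ge hx ha1; omega
    · have := p_snd_le hx hb2; omega
    · have hmid : x ∈ Path Hs (x k1 - 1 + 1, x k1 - 1 + 1) (x k2, x k2) := by
        have e1 := path_tail (path_head hx (r := k2) ha2 hb2) (r := k1) ha1
          (by rw [hv2, ht2]; exact h12)
        rw [hv1, hv2] at e1
        exact e1
      have hmidle : wsum w x k1 k2 ≤ X w (x k1 - 1) (x k2) := by
        have := le_L (w := w) hmid
        rw [ht1, ht2] at this
        exact this
      obtain ⟨y, hy, hye⟩ := exists_L w' ⟨x, hmid⟩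
      rw [ht1, ht2] at hye
      have hXe : X w' (x k1 - 1) (x k2) = wsum w' y k1 k2 := hye
      have hy1 : y k1 = x k1 := by
        have := hy.2.1
        rw [ht1] at this
        rw [this]; ring
      have hy2 : y k2 = x k2 := by
        have := hy.2.2.1
        rw [ht2] at this
        exact this
      have m1 : splice x y k1 ∈ Path Hs a (x k2, x k2) :=
        splice_mem hx hy (r := k1) hy1.symm ha1 hb1 (by rw [ht1]) (by rw [ht2]; exact h12)
      have hy3 : splice x y k1 k2 = x k2 := by rw [splice_ge h12, hy2]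
      have m2 : splice (splice x y k1) x k2 ∈ Path Hs a b :=
        splice_mem m1 hx (r := k2) hy3 ha2 (by rw [ht2]) ha2 hb2
      have hL' := le_L (w := w') m2
      rw [wsum_splice w' _ _ (by omega) (by omega)] at hL'
      have e1 : wsum w' (splice x y k1) (tm a) (k2 - 1) =
          wsum w' x (tm a) (k1 - 1) + wsum w' y k1 (k2 - 1) :=
        wsum_splice w' x y ha1 (by omega)
      have e2 : wsum w' y k1 k2 = wsum w' y k1 (k2 - 1) + wsum w' y k2 k2 :=
        wsum_split w' y h12 (by omega)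
      have e3 : wsum w' x k2 (tm b) = wsum w' x k2 k2 + wsum w' x (k2 + 1) (tm b) := by
        have := wsum_split w' x (s := k2) (r := k2 + 1) (t := tm b) (by omega) (by omega)
        rw [show k2 + 1 - 1 = k2 by ring] at this
        exact this
      have e4 : wsum w' y k2 k2 = wsum w' x k2 k2 := by
        refine wsum_congr fun k h1 h2 => ?_
        have : k = k2 := le_antisymm h2 h1
        subst this
        simp only [vert, hy2]
      have f1 : wsum w x (tm a) (tm b) = wsum w x (tm a) (k1 - 1) + wsum w x k1 (tm b) :=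
        wsum_split w x ha1 (by omega)
      have f2 : wsum w x k1 (tm b) = wsum w x k1 k2 + wsum w x (k2 + 1) (tm b) := by
        have := wsum_split w x (s := k1) (r := k2 + 1) (t := tm b) (by omega) (by omega)
        rw [show k2 + 1 - 1 = k2 by ring] at this
        exact this
      have g1 : wsum w x (tm a) (k1 - 1) = wsum w' x (tm a) (k1 - 1) := by
        refine hww _ _ fun k h1 h2 h3 => ?_
        have := hle k ((hS k).2 ⟨⟨h1, by omega⟩, h3⟩)
        omega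
      have g2 : wsum w x (k2 + 1) (tm b) = wsum w' x (k2 + 1) (tm b) := by
        refine hww _ _ fun k h1 h2 h3 => ?_
        have := hge k ((hS k).2 ⟨⟨by omega, h2⟩, h3⟩)
        omega
      rw [hxe, hXe]
      linarith

/-! ## Shift invariance -/

/-- diagonal shift -/
def fi_sh (N : ℤ) (z : ℤ × ℤ) : ℤ × ℤ := z + (-N, -N)

lemma fi_sh_inj (N : ℤ) : Function.Injective (fi_sh N) := by
  intro z z' h
  exact add_right_cancel h

section
variable {Ω : Type} [MeasurableSpace Ω] {P : Measure Ω} {E : ℤ × ℤ → Ω → ℝ}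

lemma fi_X_shift (w : ℤ × ℤ → ℝ) (N s t : ℤ) :
    X (fun z => w (fi_sh N z)) s t = X w (s - N) (t - N) := by
  unfold X
  have h1 := L_shift Hs w (-N, -N) (s + 1, s + 1) (t, t)
  rw [shift_Hs (-N)] at h1
  have e1 : ((s + 1, s + 1) : ℤ × ℤ) + (-N, -N) = (s - N + 1, s - N + 1) := by
    ext
    · show s + 1 + -N = s - N + 1; ring
    · show s + 1 + -N = s - N + 1; ring
  have e2 : ((t, t) : ℤ × ℤ) + (-N, -N) = (t - N, t - N) := by
    ext
    · show t + -N = t - N; ring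
    · show t + -N = t - N; ring
  rw [e1, e2] at h1
  exact h1.symm

omit [MeasurableSpace Ω] in
lemma fi_wgt_shift (α : ℝ) (N : ℤ) (E : ℤ × ℤ → Ω → ℝ) (ω : Ω) :
    wgt (cH α) (fun z => E (fi_sh N z)) ω = fun z => wgt (cH α) E ω (fi_sh N z) := by
  funext z
  simp only [wgt, cH, fi_sh, Prod.fst_add, Prod.snd_add, add_left_inj]

omit [MeasurableSpace Ω] in
lemma fi_resamp_shift (N : ℤ) (E : ℤ × ℤ → Ω → ℝ) :
    resamp (fun z => E (fi_sh N z)) = fun z => resamp E (fi_sh N z) := by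
  funext z
  simp only [resamp, fi_sh, Prod.fst_add, Prod.snd_add, add_left_inj]
  split_ifs with h
  · congr 1
    ext
    · rfl
    · show z.1 + 1 + -N = z.1 + -N + 1; ring
  · rfl

/-- the event as a set of configurations -/
def fi_ev (T : ℤ) (c α : ℝ) : Set (ℤ × ℤ → ℝ) :=
  {e | ∃ s t : ℤ, 0 ≤ s ∧ s < t ∧ t ≤ T ∧
      c < |X (fun z => cH α z * e z) s t
        - X (fun z => cH α z * (if z.1 = z.2 then e (z.1, z.1 + 1) else e z)) s t|}

lemma fi_ev_meas (T : ℤ) (c α : ℝ) : MeasurableSet (fi_ev T c α) := by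
  have h1 : fi_ev T c α = ⋃ s : ℤ, ⋃ t : ℤ, {e | (0 ≤ s ∧ s < t ∧ t ≤ T) ∧
      c < |X (fun z => cH α z * e z) s t
        - X (fun z => cH α z * (if z.1 = z.2 then e (z.1, z.1 + 1) else e z)) s t|} := by
    ext e
    simp only [fi_ev, Set.mem_ofPred_eq, Set.mem_iUnion]
    constructor
    · rintro ⟨s, t, h1, h2, h3, h4⟩; exact ⟨s, t, ⟨h1, h2, h3⟩, h4⟩
    · rintro ⟨s, t, ⟨h1, h2, h3⟩, h4⟩; exact ⟨s, t, h1, h2, h3, h4⟩
  rw [h1]
  refine MeasurableSet.iUnion fun s => MeasurableSet.iUnion fun t => ?_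
  have hX1 : Measurable fun e : ℤ × ℤ → ℝ => X (fun z => cH α z * e z) s t := by
    unfold X
    exact measurable_L (fun z => (measurable_pi_apply z).const_mul _) _ _ _
  have hX2 : Measurable fun e : ℤ × ℤ → ℝ =>
      X (fun z => cH α z * (if z.1 = z.2 then e (z.1, z.1 + 1) else e z)) s t := by
    unfold X
    refine measurable_L (fun z => ?_) _ _ _
    by_cases hz : z.1 = z.2
    · simp only [hz, if_true]
      exact (measurable_pi_apply _).const_mul _
    · simp only [hz, if_false]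
      exact (measurable_pi_apply z).const_mul _
  exact (MeasurableSet.const _).inter
    (measurableSet_lt measurable_const (by
      have := (hX1.sub hX2)
      exact measurable_norm.comp this))

lemma fi_law (h : Env P E) :
    Measure.map (fun ω z => E z ω) P = Measure.infinitePi (fun _ : ℤ × ℤ => expMeasure 1) := by
  have h1 := h.indep.map_fun_eq_infinitePi_map h.meas
  rw [h1]
  congr 1
  funext z
  exact h.law z

lemma fi_ev_real (h : Env P E) (T : ℤ) (c α : ℝ) :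
    P.real {ω | ∃ s t : ℤ, 0 ≤ s ∧ s < t ∧ t ≤ T ∧
      c < |X (wgt (cH α) E ω) s t - X (wgt (cH α) (resamp E) ω) s t|} =
    (Measure.infinitePi (fun _ : ℤ × ℤ => expMeasure 1)).real (fi_ev T c α) := by
  rw [← fi_law h, measureReal_def, measureReal_def,
    Measure.map_apply (measurable_pi_lambda _ h.meas) (fi_ev_meas T c α)]
  congr 2
  ext ω
  simp only [Set.mem_ofPred_eq, Set.mem_preimage, fi_ev]
  have e2 : (fun z => cH α z * (if z.1 = z.2 then E (z.1, z.1 + 1) ω else E z ω)) =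
      wgt (cH α) (resamp E) ω := by
    funext z
    simp only [wgt, resamp]
    split_ifs <;> rfl
  rw [e2]
  rfl

end

/-- TARGET -/
theorem t_Final (hAll : AllPairs) :
    ∀ (Ω : Type) [MeasurableSpace Ω] (P : Measure Ω) [IsProbabilityMeasure P]
      (E : ℤ × ℤ → Ω → ℝ),
      (∀ z, Measurable (E z)) → iIndepFun E P →
      (∀ z, Measure.map (E z) P = expMeasure 1) →
      ∀ (G : (ℤ × ℤ → ℝ) → ℤ × ℤ → ℤ × ℤ → ℝ),
      (∀ W a b, G W a b = sSup {w : ℝ | ∃ (m : ℕ) (π : ℕ → ℤ × ℤ), π 0 = a ∧ π m = b ∧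
          (∀ k < m, π (k + 1) = π k + (1, 0) ∨ π (k + 1) = π k + (0, 1)) ∧
          (∀ k ≤ m, (π k).2 ≤ (π k).1) ∧
          w = ∑ k ∈ Finset.range (m + 1), W (π k)}) →
      ∀ (U : ℕ → ℝ → ℝ → ℤ × ℤ),
      (∀ n x s, U n x s = (⌊(n : ℝ) * s + (2 : ℝ) ^ ((5 : ℝ) / 3) * (n : ℝ) ^ ((2 : ℝ) / 3) * x⌋,
          ⌊(n : ℝ) * s⌋)) →
      ∀ (h : ℕ → ℝ → ℝ → ℝ),
      (∀ n x s, h n x s = 4 * (n : ℝ) * s + (2 : ℝ) ^ ((8 : ℝ) / 3) * (n : ℝ) ^ ((2 : ℝ) / 3) * x) →
      ∀ (Lsc : ℕ → (ℤ × ℤ → ℝ) → ℝ × ℝ × ℝ × ℝ → ℝ),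
      (∀ n W p, Lsc n W p = (2 : ℝ) ^ (-(4 : ℝ) / 3) * (n : ℝ) ^ (-(1 : ℝ) / 3) *
          (G W (U n p.1 p.2.1) (U n p.2.2.1 p.2.2.2) - (h n p.2.2.1 p.2.2.2 - h n p.1 p.2.1))) →
      ∀ (ρ : ℝ) (K : Set (ℝ × ℝ × ℝ × ℝ)), IsCompact K →
      K ⊆ {p | 0 ≤ p.1 ∧ 0 ≤ p.2.2.1 ∧ p.2.1 < p.2.2.2} →
      ∀ ε : ℝ, 0 < ε →
      Tendsto (fun n : ℕ => P {ω | ∃ p ∈ K, U n p.1 p.2.1 ≤ U n p.2.2.1 p.2.2.2 ∧
          ε < |Lsc n (fun z => if z.1 = z.2
                then (1 / 2 - (2 : ℝ) ^ (-(4 : ℝ) / 3) * ρ * (n : ℝ) ^ (-(1 : ℝ) / 3))⁻¹ * E z ω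
                else E z ω) p
              - Lsc n (fun z => if z.1 = z.2
                then (1 / 2 - (2 : ℝ) ^ (-(4 : ℝ) / 3) * ρ * (n : ℝ) ^ (-(1 : ℝ) / 3))⁻¹ * E (z.1, z.1 + 1) ω
                else E z ω) p|})
        atTop (𝓝 0) := by
  intro Ω _ P _ E hmeas hindep hlaw G hG U hU h hh Lsc hLsc ρ K hK hKsub ε hε
  have hE : Env P E := ⟨inferInstance, hmeas, hindep, hlaw⟩
  obtain ⟨B, hB⟩ := hK.isBounded.exists_norm_le
  obtain ⟨T₀, hT₀⟩ := exists_nat_ge (B + 3)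
  have hB0 : ∀ p ∈ K, |p.2.1| ≤ T₀ - 3 ∧ |p.2.2.2| ≤ T₀ - 3 := by
    intro p hp
    have h1 := hB p hp
    have h2 : ‖p.2‖ ≤ ‖p‖ := norm_snd_le p
    have h3 : ‖p.2.1‖ ≤ ‖p.2‖ := norm_fst_le p.2
    have h4 : ‖p.2.2‖ ≤ ‖p.2‖ := norm_snd_le p.2
    have h5 : ‖p.2.2.2‖ ≤ ‖p.2.2‖ := norm_snd_le p.2.2
    rw [Real.norm_eq_abs] at h3 h5
    constructor <;> linarith
  set c₀ : ℝ := (2 : ℝ) ^ (-(4 : ℝ) / 3) with hc₀
  have hc₀pos : 0 < c₀ := Real.rpow_pos_of_pos (by norm_num) _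
  have hc₀1 : c₀ ≤ 1 := Real.rpow_le_one_of_one_le_of_nonpos (by norm_num) (by norm_num)
  have key := hAll (c₀ * ρ) (2 * T₀ + 1) (by omega) ε hε Ω P E hE
  have key2 : Tendsto (fun n : ℕ => ENNReal.ofReal (P.real {ω | ∃ s t : ℤ, 0 ≤ s ∧ s < t ∧
      t ≤ ((2 * T₀ + 1 : ℕ) : ℤ) * n ∧ ε * (n : ℝ) ^ ((1 : ℝ) / 3) <
      |X (wgt (cH (1 / 2 - c₀ * ρ * (n : ℝ) ^ (-(1 : ℝ) / 3))) E ω) s t
        - X (wgt (cH (1 / 2 - c₀ * ρ * (n : ℝ) ^ (-(1 : ℝ) / 3))) (resamp E) ω) s t|})) atTop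
      (𝓝 0) := by
    have := ENNReal.tendsto_ofReal key
    rw [ENNReal.ofReal_zero] at this
    exact this
  refine tendsto_of_tendsto_of_tendsto_of_le_of_le' tendsto_const_nhds key2
    (Eventually.of_forall fun n => bot_le) ?_
  filter_upwards [eventually_ge_atTop 1] with n hn
  have hnR : (1 : ℝ) ≤ n := by exact_mod_cast hn
  have hn0 : (0 : ℝ) < n := by linarith
  set α : ℝ := 1 / 2 - c₀ * ρ * (n : ℝ) ^ (-(1 : ℝ) / 3) with hα
  rw [fi_ev_real hE, ← fi_ev_real (hE.comp (fi_sh_inj ((T₀ : ℤ) * n))), ofReal_measureReal]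
  refine measure_mono ?_
  rintro ω ⟨p, hpK, hle, hlt⟩
  have hw1 : (fun z : ℤ × ℤ => if z.1 = z.2 then α⁻¹ * E z ω else E z ω) = wgt (cH α) E ω := by
    funext z
    simp only [wgt, cH]
    split_ifs
    · rfl
    · rw [one_mul]
  have hw2 : (fun z : ℤ × ℤ => if z.1 = z.2 then α⁻¹ * E (z.1, z.1 + 1) ω else E z ω) =
      wgt (cH α) (resamp E) ω := by
    funext z
    simp only [wgt, cH, resamp]
    split_ifs
    · rfl
    · rw [one_mul]
  rw [hw1, hw2, hLsc, hLsc, hG, hG, fi_G _ _ _ hle, fi_G _ _ _ hle] at hlt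
  set a := U n p.1 p.2.1 with ha
  set b := U n p.2.2.1 p.2.2.2 with hb
  set w := wgt (cH α) E ω with hw
  set w' := wgt (cH α) (resamp E) ω with hw'
  have hww : ∀ z : ℤ × ℤ, z.1 ≠ z.2 → w z = w' z := by
    intro z hz
    rw [hw, hw']
    simp only [wgt, resamp, if_neg hz]
  -- size of the difference
  have hd : ε * (n : ℝ) ^ ((1 : ℝ) / 3) < |L Hs w a b - L Hs w' a b| := by
    have e1 : c₀ * (n : ℝ) ^ (-(1 : ℝ) / 3) *
        (L Hs w a b - (h n p.2.2.1 p.2.2.2 - h n p.1 p.2.1)) - c₀ * (n : ℝ) ^ (-(1 : ℝ) / 3) *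
        (L Hs w' a b - (h n p.2.2.1 p.2.2.2 - h n p.1 p.2.1)) =
        c₀ * (n : ℝ) ^ (-(1 : ℝ) / 3) * (L Hs w a b - L Hs w' a b) := by ring
    rw [e1, abs_mul, abs_mul, abs_of_pos hc₀pos] at hlt
    have hpos : (0 : ℝ) < (n : ℝ) ^ (-(1 : ℝ) / 3) := Real.rpow_pos_of_pos hn0 _
    have hpos' : (0 : ℝ) < (n : ℝ) ^ ((1 : ℝ) / 3) := Real.rpow_pos_of_pos hn0 _
    rw [abs_of_pos hpos] at hlt
    have hmul : (n : ℝ) ^ (-(1 : ℝ) / 3) * (n : ℝ) ^ ((1 : ℝ) / 3) = 1 := by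
      rw [← Real.rpow_add hn0]
      norm_num
    have h2 : ε < (n : ℝ) ^ (-(1 : ℝ) / 3) * |L Hs w a b - L Hs w' a b| := by
      refine lt_of_lt_of_le hlt ?_
      rw [mul_assoc]
      exact mul_le_of_le_one_left (by positivity) hc₀1
    calc ε * (n : ℝ) ^ ((1 : ℝ) / 3)
        < ((n : ℝ) ^ (-(1 : ℝ) / 3) * |L Hs w a b - L Hs w' a b|) * (n : ℝ) ^ ((1 : ℝ) / 3) :=
          mul_lt_mul_of_pos_right h2 hpos'
      _ = ((n : ℝ) ^ (-(1 : ℝ) / 3) * (n : ℝ) ^ ((1 : ℝ) / 3)) * |L Hs w a b - L Hs w' a b| := by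
          ring
      _ = |L Hs w a b - L Hs w' a b| := by rw [hmul, one_mul]
  have hεn : 0 < ε * (n : ℝ) ^ ((1 : ℝ) / 3) := mul_pos hε (Real.rpow_pos_of_pos hn0 _)
  -- the pair
  have hpair : ∃ s t : ℤ, s < t ∧ a.1 - 1 ≤ s ∧ t ≤ b.2 ∧
      ε * (n : ℝ) ^ ((1 : ℝ) / 3) < |X w s t - X w' s t| := by
    rcases le_total (L Hs w' a b) (L Hs w a b) with h1 | h1
    · rw [abs_of_nonneg (sub_nonneg.2 h1)] at hd
      rcases fi_diag w w' hww a b hle with h2 | ⟨s, t, h3, h4, h5, h6⟩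
      · linarith
      · exact ⟨s, t, h3, h4, h5, lt_of_lt_of_le hd (h6.trans (le_abs_self _))⟩
    · rw [abs_sub_comm, abs_of_nonneg (sub_nonneg.2 h1)] at hd
      rcases fi_diag w' w (fun z hz => (hww z hz).symm) a b hle with h2 | ⟨s, t, h3, h4, h5, h6⟩
      · linarith
      · refine ⟨s, t, h3, h4, h5, lt_of_lt_of_le hd (h6.trans ?_)⟩
        rw [abs_sub_comm]
        exact le_abs_self _
  obtain ⟨s, t, hst, hs, ht, hX⟩ := hpair
  obtain ⟨hp1, hp2⟩ := hB0 p hpK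
  obtain ⟨hx0, hy0, hstlt⟩ := hKsub hpK
  -- bounds
  have hs1 : -((T₀ : ℤ) * n) ≤ s := by
    have h1 : a.1 = ⌊(n : ℝ) * p.2.1 + (2 : ℝ) ^ ((5 : ℝ) / 3) * (n : ℝ) ^ ((2 : ℝ) / 3) * p.1⌋ := by
      rw [ha, hU]
    have h2 : -((T₀ : ℤ) * n) + 1 ≤ a.1 := by
      rw [h1, Int.le_floor]
      push_cast
      have h3 : 0 ≤ (2 : ℝ) ^ ((5 : ℝ) / 3) * (n : ℝ) ^ ((2 : ℝ) / 3) * p.1 := by
        have : 0 ≤ p.1 := hx0
        positivity
      have h4 := (abs_le.1 hp1).1
      nlinarith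
    omega
  have ht1 : t ≤ (T₀ : ℤ) * n := by
    have h1 : b.2 = ⌊(n : ℝ) * p.2.2.2⌋ := by
      rw [hb, hU]
    have h2 : b.2 ≤ (T₀ : ℤ) * n := by
      rw [h1]
      have h3 : (⌊(n : ℝ) * p.2.2.2⌋ : ℝ) ≤ (n : ℝ) * p.2.2.2 := Int.floor_le _
      have h4 := (abs_le.1 hp2).2
      have h5 : (⌊(n : ℝ) * p.2.2.2⌋ : ℝ) ≤ (T₀ : ℝ) * n := by nlinarith
      exact_mod_cast h5
    omega
  refine ⟨s + (T₀ : ℤ) * n, t + (T₀ : ℤ) * n, by omega, by omega, ?_, ?_⟩
  · push_cast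
    nlinarith
  · rw [fi_resamp_shift, fi_wgt_shift, fi_wgt_shift, fi_X_shift, fi_X_shift]
    rw [add_sub_cancel_right, add_sub_cancel_right]
    exact hX

end Pool.Agent.H374
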