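import Pool.Agent.H374.Det
import Pool.Agent.H374.Stmts
import Pool.Agent.H374.Tools

/-!
# Full space: upper and lower tail of the point-to-point value (paper 3.4 and 6)
-/

set_option autoImplicit false
open MeasureTheory ProbabilityTheory

namespace Pool.Agent.H374

/-! ## Numerical inequalities -/

lemma full_h_le {x : ℝ} (h0 : 0 ≤ x) (h1 : x ≤ 1 / 4) :
    (1 + x) / (1 - x) ≤ Real.exp (2 * x + x ^ 3) := by
  have h2 : 0 < 1 - x := by linarith
  rw [div_le_iff₀ h2]
  have h3 := Real.sum_le_exp_of_nonneg (x := 2 * x + x ^ 3) (by positivity) 4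
  simp only [Finset.sum_range_succ, Finset.sum_range_zero, Nat.factorial] at h3
  norm_num at h3
  have p3 : x ^ 3 ≤ (1 / 4) ^ 3 := pow_le_pow_left₀ h0 h1 3
  have p5 : x ^ 5 ≤ (1 / 4) ^ 5 := pow_le_pow_left₀ h0 h1 5
  have p7 : x ^ 7 ≤ (1 / 4) ^ 7 := pow_le_pow_left₀ h0 h1 7
  have n4 : 0 ≤ x ^ 4 := by positivity
  have n6 : 0 ≤ x ^ 6 := by positivity
  have hQ : 0 ≤ 1 / 3 - x / 3 - 3 / 2 * x ^ 3 + x ^ 4 / 2 - x ^ 5 + x ^ 6 / 6 - x ^ 7 / 6 := by
    norm_num at p3 p5 p7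
    linarith
  have h4 : 1 + x ≤ (1 + (2 * x + x ^ 3) + (2 * x + x ^ 3) ^ 2 / 2 + (2 * x + x ^ 3) ^ 3 / 6)
      * (1 - x) := by
    have e : (1 + (2 * x + x ^ 3) + (2 * x + x ^ 3) ^ 2 / 2 + (2 * x + x ^ 3) ^ 3 / 6)
      * (1 - x) - (1 + x) = x ^ 3 * (1 / 3 - x / 3 - 3 / 2 * x ^ 3 + x ^ 4 / 2 - x ^ 5
        + x ^ 6 / 6 - x ^ 7 / 6) := by
      ring
    have h5 : 0 ≤ x ^ 3 * (1 / 3 - x / 3 - 3 / 2 * x ^ 3 + x ^ 4 / 2 - x ^ 5
        + x ^ 6 / 6 - x ^ 7 / 6) := mul_nonneg (by positivity) hQ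
    linarith
  refine h4.trans (mul_le_mul_of_nonneg_right h3 h2.le)

lemma full_h_ge {x : ℝ} (h0 : 0 ≤ x) (h1 : x < 1) :
    Real.exp (2 * x + 2 / 3 * x ^ 3) ≤ (1 + x) / (1 - x) := by
  have h2 : 0 < 1 - x := by linarith
  have h3 : 0 < 1 + x := by linarith
  have h4 := Real.hasSum_log_sub_log_of_abs_lt_one (x := x) (by rw [abs_of_nonneg h0]; exact h1)
  have h5 := sum_le_hasSum (Finset.range 2) (fun i _ => by positivity) h4
  simp only [Finset.sum_range_succ, Finset.sum_range_zero] at h5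
  norm_num at h5
  have h6 : 2 * x + 2 / 3 * x ^ 3 ≤ Real.log ((1 + x) / (1 - x)) := by
    rw [Real.log_div h3.ne' h2.ne']
    linarith
  calc Real.exp (2 * x + 2 / 3 * x ^ 3) ≤ Real.exp (Real.log ((1 + x) / (1 - x))) :=
        Real.exp_le_exp.2 h6
    _ = (1 + x) / (1 - x) := Real.exp_log (by positivity)

lemma full_log_ge {y : ℝ} (h0 : 0 ≤ y) (h1 : y < 1) :
    Real.exp (y + y ^ 2 / 2) ≤ (1 - y)⁻¹ := by
  have h2 : 0 < 1 - y := by linarith
  have h4 := Real.hasSum_pow_div_log_of_abs_lt_one (x := y) (by rw [abs_of_nonneg h0]; exact h1)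
  have h5 := sum_le_hasSum (Finset.range 2) (fun i _ => by positivity) h4
  simp only [Finset.sum_range_succ, Finset.sum_range_zero] at h5
  norm_num at h5
  calc Real.exp (y + y ^ 2 / 2) ≤ Real.exp (Real.log ((1 - y)⁻¹)) := by
        apply Real.exp_le_exp.2
        rw [Real.log_inv]
        exact h5
    _ = (1 - y)⁻¹ := Real.exp_log (by positivity)

/-! ## Markov inequality -/

lemma full_markov {Ω : Type} [MeasurableSpace Ω] {P : Measure Ω} [IsProbabilityMeasure P]
    {A : Ω → ℝ} (hA : Measurable A) {a x K : ℝ} (hK : 0 ≤ K)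
    (h : ∫⁻ ω, ENNReal.ofReal (Real.exp (a * A ω)) ∂P ≤ ENNReal.ofReal K) :
    P.real {ω | x ≤ a * A ω} ≤ K * Real.exp (-x) := by
  have h1 : {ω | x ≤ a * A ω} ⊆
      {ω | ENNReal.ofReal (Real.exp x) ≤ ENNReal.ofReal (Real.exp (a * A ω))} := by
    intro ω hω
    exact ENNReal.ofReal_le_ofReal (Real.exp_le_exp.2 hω)
  have h2 := meas_ge_le_lintegral_div (μ := P)
    (f := fun ω => ENNReal.ofReal (Real.exp (a * A ω))) (by fun_prop)
    (ε := ENNReal.ofReal (Real.exp x)) (by simp [Real.exp_pos]) ENNReal.ofReal_ne_top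
  have h3 : P {ω | x ≤ a * A ω} ≤ ENNReal.ofReal (K * Real.exp (-x)) := by
    refine (measure_mono h1).trans (h2.trans ?_)
    rw [Real.exp_neg, ← div_eq_mul_inv, ENNReal.ofReal_div_of_pos (Real.exp_pos x)]
    exact ENNReal.div_le_div_right h _
  rw [measureReal_def]
  exact ENNReal.toReal_le_of_le_ofReal (by positivity) h3

/-! ## Deterministic facts in the quadrant -/

/-- In the quadrant the domain plays no role. -/
lemma full_dom (w : ℤ × ℤ → ℝ) {u v : ℤ × ℤ} (hu : 0 ≤ u.1) :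
    L (Dl fun _ => 0) w u v = L Set.univ w u v := by
  have h : Path (Dl fun _ => 0) u v = Path Set.univ u v := by
    ext x
    constructor
    · rintro ⟨h1, h2, h3, _⟩
      exact ⟨h1, h2, h3, fun _ _ _ => trivial⟩
    · intro hx
      refine ⟨hx.1, hx.2.1, hx.2.2.1, fun k h1 _ => ?_⟩
      have := p_fst_ge hx h1
      show (0 : ℤ) ≤ (vert x k).1
      simp only [vert_fst]
      omega
  unfold L
  rw [h]

lemma full_ne {u v : ℤ × ℤ} (h1 : u.1 ≤ v.1) (h2 : u.2 ≤ v.2) :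
    (Path Set.univ u v).Nonempty :=
  path_nonempty RD_univ trivial trivial h1 h2

/-- Passage value along a row. -/
lemma full_row (w : ℤ × ℤ → ℝ) (a j : ℤ) (n : ℕ) :
    L Set.univ w (a, j) (a + n, j) = ∑ i ∈ Finset.range (n + 1), w (a + i, j) := by
  induction n with
  | zero => simp [L_self (D := Set.univ) (u := (a, j)) trivial]
  | succ n ih =>
    rw [Finset.sum_range_succ, ← ih,
      L_rec_left RD_univ (u := (a, j)) (v := (a + ((n + 1 : ℕ) : ℤ), j)) trivial
        (by simp only; push_cast; omega) rfl]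
    congr 2
    ext
    · push_cast; ring
    · rfl

/-- First exit from row `0`: through the column or at `c ≥ 1`. -/
lemma full_exit (w : ℤ × ℤ → ℝ) (h00 : w (0, 0) = 0) (m : ℕ) (hm : 1 ≤ m) :
    L Set.univ w (0, 0) (m, m) = L Set.univ w (0, 1) (m, m) ∨
    ∃ c : ℕ, 1 ≤ c ∧ c ≤ m ∧ L Set.univ w (0, 0) (m, m) =
      ∑ i ∈ Finset.range c, w ((i : ℤ) + 1, 0) + L Set.univ w ((c : ℤ), 1) (m, m) := by
  have hm' : (1 : ℤ) ≤ m := by exact_mod_cast hm
  obtain ⟨c, h1, h2, _, _, h5⟩ := L_row_split (D := Set.univ) (u := (0, 0)) (v := ((m : ℤ), (m : ℤ))) w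
    (full_ne (by simp) (by simp)) (j := 0) le_rfl (by simp only; omega)
    (by simp only [tm]; omega)
  simp only at h1 h2 h5
  rcases eq_or_lt_of_le h1 with h6 | h6
  · left
    rw [h5, ← h6, L_self (D := Set.univ) trivial, h00]
    simp
  · right
    obtain ⟨n, rfl⟩ : ∃ n : ℕ, c = (n : ℤ) + 1 := ⟨(c - 1).toNat, by omega⟩
    refine ⟨n + 1, by omega, by omega, ?_⟩
    rw [h5]
    have h7 := full_row w 0 0 (n + 1)
    rw [Finset.sum_range_succ', show ((0 : ℤ) + ((n + 1 : ℕ) : ℤ)) = (n : ℤ) + 1 by push_cast; ring]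
      at h7
    rw [h7]
    simp only [zero_add, Nat.cast_add, Nat.cast_one, Nat.cast_zero, h00, add_zero]

/-- The value from the origin is the larger one of the two first steps. -/
lemma full_first (w : ℤ × ℤ → ℝ) (h00 : w (0, 0) = 0) (m : ℕ) (hm : 1 ≤ m) :
    L Set.univ w (0, 0) (m, m) = L Set.univ w (0, 1) (m, m) ∨
      L Set.univ w (0, 0) (m, m) ≤ L Set.univ w (1, 0) (m, m) := by
  rcases full_exit w h00 m hm with h | ⟨c, h1, h2, h3⟩
  · exact Or.inl h
  · right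
    rw [h3]
    have h4 := full_row w 1 0 (c - 1)
    have h5 : ((1 : ℤ) + ((c - 1 : ℕ) : ℤ)) = c := by omega
    rw [h5, show c - 1 + 1 = c by omega] at h4
    have h6 : ∑ i ∈ Finset.range c, w ((i : ℤ) + 1, 0) = L Set.univ w (1, 0) ((c : ℤ), 0) := by
      rw [h4]
      exact Finset.sum_congr rfl fun i _ => by rw [add_comm]
    rw [h6]
    exact L_concat (D := Set.univ) (w := w) (u := (1, 0)) (z := ((c : ℤ), 0)) (z' := ((c : ℤ), 1))
      (v := ((m : ℤ), (m : ℤ))) (Or.inr (by simp)) (by simp only [tm]; omega)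
      (by simp only [tm]; omega) (full_ne (by simp only; omega) (by simp))
      (full_ne (by simp only; omega) (by simp only; omega))

lemma full_row_le (w : ℤ × ℤ → ℝ) (h00 : w (0, 0) = 0) {m h : ℤ} (hm : 1 ≤ m) (hh : 0 ≤ h) :
    L Set.univ w (1, 0) (m, h) ≤ L Set.univ w (0, 0) (m, h) := by
  have h1 := L_concat (D := Set.univ) (w := w) (u := (0, 0)) (z := (0, 0)) (z' := (1, 0))
      (v := (m, h)) (Or.inl (by simp)) le_rfl
      (by simp only [tm]; omega) (full_ne le_rfl le_rfl)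
      (full_ne (by simp only; omega) (by simp only; omega))
  rw [L_self (D := Set.univ) trivial, h00] at h1
  linarith

/-- The crossing inequality (1.5'), in reflected coordinates. -/
lemma full_cross (w : ℤ × ℤ → ℝ) {m h : ℤ} (h1 : 1 ≤ h) (h2 : h ≤ m) :
    L Set.univ w (1, 0) (m, m) + L Set.univ w (1, 1) (m, h)
      ≤ L Set.univ w (1, 0) (m, h) + L Set.univ w (1, 1) (m, m) := by
  obtain ⟨x, hx, hxe⟩ := exists_L (D := Set.univ) (u := (1, 0)) (v := (m, m)) w
    (full_ne (by simp only; omega) (by simp only; omega))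
  obtain ⟨y, hy, hye⟩ := exists_L (D := Set.univ) (u := (1, 1)) (v := (m, h)) w
    (full_ne (by simp only; omega) (by simp only; omega))
  have a1 : y 2 ≤ x 2 := by
    have e1 := p_fst_ge hx (k := 2) (by simp [tm])
    have e2 := hy.2.1
    simp only [tm] at e2
    norm_num at e2
    simp only at e1
    omega
  have a2 : x (m + h) ≤ y (m + h) := by
    have e1 := p_fst_le hx (k := m + h) (by simp only [tm]; omega)
    have e2 := hy.2.2.1
    simp only [tm] at e2
    simp only at e1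
    omega
  obtain ⟨r, r1, r2, r3⟩ := meet hy.1 hx.1 (by omega : (2 : ℤ) ≤ m + h) a1 a2
  have := cross w hx hy r3.symm (by simp only [tm]; omega) (by simp only [tm]; omega)
    (by simp only [tm]; omega) (by simp only [tm]; omega)
  rw [hxe, hye]
  linarith

/-! ## The quadrant weights -/

/-- Weights of the quadrant model with row rate `r` and column rate `c`, from the field `e`. -/
noncomputable def full_w (r c : ℝ) (e : ℤ × ℤ → ℝ) : ℤ × ℤ → ℝ :=
  fun z => cRow (fun _ => 0) r c z * e z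

lemma full_w_zero (r c : ℝ) (e : ℤ × ℤ → ℝ) : full_w r c e (0, 0) = 0 := by
  simp [full_w, cRow]

lemma full_w_row (r c : ℝ) (e : ℤ × ℤ → ℝ) {i : ℤ} (hi : 1 ≤ i) :
    full_w r c e (i, 0) = r⁻¹ * e (i, 0) := by
  have : ¬ ((i, (0 : ℤ)) = ((0 : ℤ), (0 : ℤ))) := by
    intro h
    have := congrArg Prod.fst h
    simp only at this
    omega
  simp [full_w, cRow, this]

lemma full_w_bulk (r c : ℝ) (e : ℤ × ℤ → ℝ) {z : ℤ × ℤ} (h1 : 1 ≤ z.1) (h2 : 1 ≤ z.2) :
    full_w r c e z = e z := by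
  have a1 : ¬ (z = (0, 0)) := by
    rintro rfl
    simp at h1
  have a2 : ¬ (z.2 = 0) := by omega
  have a3 : ¬ (z.1 = 0) := by omega
  simp [full_w, cRow, a1, a2, a3]

lemma full_w_nonneg {r c : ℝ} (hr : 0 < r) (hc : 0 < c) {e : ℤ × ℤ → ℝ} (he : ∀ z, 0 ≤ e z)
    (z : ℤ × ℤ) : 0 ≤ full_w r c e z := by
  unfold full_w
  refine mul_nonneg ?_ (he z)
  unfold cRow
  split_ifs <;> positivity

/-- Bulk values do not see the boundary. -/
lemma full_L_bulk (r c : ℝ) (e : ℤ × ℤ → ℝ) {u v : ℤ × ℤ} (h1 : 1 ≤ u.1) (h2 : 1 ≤ u.2) :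
    L Set.univ (full_w r c e) u v = L Set.univ e u v := by
  refine L_congr fun z hz _ => ?_
  rw [mem_rect] at hz
  exact full_w_bulk r c e (by omega) (by omega)

/-- Row values do not see the column. -/
lemma full_L_row (r c c' : ℝ) (e : ℤ × ℤ → ℝ) {u v : ℤ × ℤ} (h1 : 1 ≤ u.1) :
    L Set.univ (full_w r c e) u v = L Set.univ (full_w r c' e) u v := by
  refine L_congr fun z hz _ => ?_
  rw [mem_rect] at hz
  have a1 : ¬ (z = (0, 0)) := by
    rintro rfl
    simp only at hz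
    omega
  have a3 : ¬ (z.1 = 0) := by omega
  simp [full_w, cRow, a1, a3]

/-- The value through the column is at most the full value with a heavier column. -/
lemma full_col_le {r c r' c' : ℝ} (hr' : 0 < r') (hc' : 0 < c') (hcc : c' ≤ c)
    {e : ℤ × ℤ → ℝ} (he : ∀ z, 0 ≤ e z) (m : ℕ) (hm : 1 ≤ m) :
    L Set.univ (full_w r c e) (0, 1) (m, m) ≤ L Set.univ (full_w r' c' e) (0, 0) (m, m) := by
  have h1 : L Set.univ (full_w r c e) (0, 1) (m, m) ≤ L Set.univ (full_w r' c' e) (0, 1) (m, m) := by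
    refine L_mono fun z hz _ => ?_
    rw [mem_rect] at hz
    simp only at hz
    unfold full_w
    refine mul_le_mul_of_nonneg_right ?_ (he z)
    have a1 : ¬ (z = (0, 0)) := by
      rintro rfl
      simp only at hz
      omega
    have a2 : ¬ (z.2 = 0) := by omega
    simp only [cRow, if_neg a1, if_neg a2]
    split_ifs
    · exact inv_anti₀ hc' hcc
    · exact le_rfl
  refine h1.trans (L_mono_ends RD_univ trivial trivial trivial trivial le_rfl (by simp) le_rfl le_rfl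
    (by simp) (by simp only; omega) fun z _ _ => full_w_nonneg hr' hc' he z)

/-- The deterministic core of the lower tail. -/
lemma full_det (e : ℤ × ℤ → ℝ) (he : ∀ z, 0 ≤ e z) (m k : ℕ) (hm : 1 ≤ m) (b : ℝ) (hb : 0 < b)
    (hb' : b ≤ 1 / 112)
    (h1 : 4 * (m : ℝ) + 20 * b ^ 2 * m
      < L Set.univ (full_w (1 / 2 - 2 * b) (1 / 2 + b) e) (0, 0) (m, m))
    (h2 : L Set.univ (full_w (1 / 2) (1 / 2 + b) e) (0, 0) (m, m) < 4 * (m : ℝ) + 10 * b ^ 2 * m)
    (h1' : 4 * (m : ℝ) + 20 * b ^ 2 * m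
      < L Set.univ (full_w (1 / 2 - 2 * b) (1 / 2 + b) (fun z => e (refl ((m : ℤ) + 1) z)))
        (0, 0) (m, m))
    (h2' : L Set.univ (full_w (1 / 2) (1 / 2 + b) (fun z => e (refl ((m : ℤ) + 1) z)))
        (0, 0) (m, m) < 4 * (m : ℝ) + 10 * b ^ 2 * m)
    (h4 : k ≤ m → L Set.univ (full_w (1 / 2 - 2 * b) (1 / 2 + 14 * b)
        (fun z => e (z + ((k : ℤ), 0)))) (0, 0) (((m - k : ℕ) : ℤ), m)
        < 4 * (m : ℝ) - 2 * k - 20 * b * k)
    (h7 : ∀ z ≤ k, ∑ i ∈ Finset.range z, ((1 / 2 - 2 * b)⁻¹ * e ((i : ℤ) + 1, 0) - 2) < 20 * b * k)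
    (h8 : ∀ z ≤ min k m, ∑ i ∈ Finset.range z, (2 -
      (L Set.univ (full_w (1 / 2 - 2 * b) (1 / 2 + 2 * b) (fun z => e (refl ((m : ℤ) + 1) z)))
          (0, 0) (m, (m : ℤ) - i)
        - L Set.univ (full_w (1 / 2 - 2 * b) (1 / 2 + 2 * b) (fun z => e (refl ((m : ℤ) + 1) z)))
          (0, 0) (m, (m : ℤ) - i - 1))) < 20 * b * k) :
    4 * (m : ℝ) - (2 + 40 * b * k) < L Set.univ e (1, 1) (m, m) := by
  have hm' : (1 : ℤ) ≤ m := by exact_mod_cast hm
  have hbm : 0 ≤ b ^ 2 * m := by positivity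
  set e' : ℤ × ℤ → ℝ := fun z => e (refl ((m : ℤ) + 1) z) with he'
  have hen : ∀ z, 0 ≤ e' z := fun z => he _
  rcases full_exit _ (full_w_zero (1 / 2 - 2 * b) (1 / 2 + b) e) m hm with hc | ⟨c, c1, c2, c3⟩
  · exfalso
    have := full_col_le (r := 1 / 2 - 2 * b) (c := 1 / 2 + b) (r' := 1 / 2) (c' := 1 / 2 + b)
      (by norm_num) (by linarith) le_rfl he m hm
    rw [hc] at h1
    linarith
  have hc1 : (1 : ℤ) ≤ c := by exact_mod_cast c1
  have hc2 : (c : ℤ) ≤ m := by exact_mod_cast c2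
  have r1 : ∑ i ∈ Finset.range c, full_w (1 / 2 - 2 * b) (1 / 2 + b) e ((i : ℤ) + 1, 0)
      = ∑ i ∈ Finset.range c, (1 / 2 - 2 * b)⁻¹ * e ((i : ℤ) + 1, 0) :=
    Finset.sum_congr rfl fun i _ => full_w_row _ _ _ (by omega)
  rw [r1, full_L_bulk (1 / 2 - 2 * b) (1 / 2 + b) e (u := ((c : ℤ), 1)) (v := ((m : ℤ), (m : ℤ)))
    hc1 le_rfl] at c3
  rcases le_or_gt c k with hck | hck
  · -- exit at `c ≤ k`
    have f1 := h7 c hck
    rw [Finset.sum_sub_distrib, Finset.sum_const, Finset.card_range, nsmul_eq_mul] at f1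
    set w' := full_w (1 / 2 - 2 * b) (1 / 2 + 2 * b) e' with hw'
    have x1 := full_cross w' (m := (m : ℤ)) (h := (m : ℤ) + 1 - c) (by omega) (by omega)
    have x2 : L Set.univ w' (1, 1) (m, m) = L Set.univ e (1, 1) (m, m) := by
      rw [hw', full_L_bulk _ _ _ (by simp) (by simp), L_refl ((m : ℤ) + 1) Set.univ e]
      congr 1
      · ext <;> simp [refl]
      · ext <;> simp [refl]
    have x3 : L Set.univ w' (1, 1) (m, (m : ℤ) + 1 - c) = L Set.univ e ((c : ℤ), 1) (m, m) := by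
      rw [hw', full_L_bulk _ _ _ (by simp) (by simp), L_refl ((m : ℤ) + 1) Set.univ e]
      congr 1
      · ext <;> simp [refl]
      · ext <;> simp [refl]
    have x4 := full_row_le w' (full_w_zero _ _ _) (m := (m : ℤ)) (h := (m : ℤ) + 1 - c) hm'
      (by omega)
    -- the row part dominates
    have y1 : 4 * (m : ℝ) + 20 * b ^ 2 * m < L Set.univ w' (1, 0) (m, m) := by
      rcases full_first _ (full_w_zero (1 / 2 - 2 * b) (1 / 2 + b) e') m hm with hd | hd
      · exfalso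
        have := full_col_le (r := 1 / 2 - 2 * b) (c := 1 / 2 + b) (r' := 1 / 2) (c' := 1 / 2 + b)
          (by norm_num) (by linarith) le_rfl hen m hm
        rw [hd] at h1'
        linarith
      · rw [full_L_row (1 / 2 - 2 * b) (1 / 2 + b) (1 / 2 + 2 * b) e' (u := (1, 0))
          (v := ((m : ℤ), (m : ℤ))) le_rfl] at hd
        exact h1'.trans_le hd
    have y2 : L Set.univ w' (0, 0) (m, m) ≤ L Set.univ w' (1, 0) (m, m) := by
      rcases full_first w' (full_w_zero _ _ _) m hm with hd | hd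
      · exfalso
        have z1 := full_col_le (r := 1 / 2 - 2 * b) (c := 1 / 2 + 2 * b) (r' := 1 / 2)
          (c' := 1 / 2 + b) (by norm_num) (by linarith) (by linarith) hen m hm
        have z2 := full_row_le w' (full_w_zero _ _ _) (m := (m : ℤ)) (h := (m : ℤ)) hm' (by omega)
        rw [hd] at z2
        linarith
      · exact hd
    have g1 := h8 (c - 1) (by omega)
    rw [Finset.sum_sub_distrib, Finset.sum_const, Finset.card_range, nsmul_eq_mul] at g1
    have g2 : ∀ n : ℕ, ∑ i ∈ Finset.range n, (L Set.univ w' (0, 0) (m, (m : ℤ) - i)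
        - L Set.univ w' (0, 0) (m, (m : ℤ) - i - 1))
        = L Set.univ w' (0, 0) (m, m) - L Set.univ w' (0, 0) (m, (m : ℤ) - n) := by
      intro n
      induction n with
      | zero => simp
      | succ n ih =>
        rw [Finset.sum_range_succ, ih]
        push_cast
        rw [show (m : ℤ) - (n + 1) = (m : ℤ) - n - 1 by ring]
        ring
    rw [g2 (c - 1), show (m : ℤ) - ((c - 1 : ℕ) : ℤ) = (m : ℤ) + 1 - c by omega] at g1
    rw [x2, x3] at x1
    have hcc : (((c - 1 : ℕ)) : ℝ) = (c : ℝ) - 1 := by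
      rw [Nat.cast_sub c1]; simp
    rw [hcc] at g1
    linarith
  · -- exit at `c > k`
    exfalso
    have hkm : k ≤ m := by omega
    have hkm' : (k : ℤ) ≤ m := by exact_mod_cast hkm
    have hkc : (k : ℤ) < c := by exact_mod_cast hck
    have g := h4 hkm
    have f1 := h7 k le_rfl
    rw [Finset.sum_sub_distrib, Finset.sum_const, Finset.card_range, nsmul_eq_mul] at f1
    set w3 := full_w (1 / 2 - 2 * b) (1 / 2 + 14 * b) (fun z => e (z + ((k : ℤ), 0))) with hw3
    have q1 := full_row w3 0 0 (c - k)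
    rw [Finset.sum_range_succ'] at q1
    have q2 : w3 (0 + ((0 : ℕ) : ℤ), 0) = 0 := by
      simpa using full_w_zero _ _ _
    rw [q2, add_zero] at q1
    have q3 : ∑ i ∈ Finset.range (c - k), w3 (0 + ((i + 1 : ℕ) : ℤ), 0)
        = ∑ i ∈ Finset.range (c - k), (1 / 2 - 2 * b)⁻¹ * e (((k + i : ℕ) : ℤ) + 1, 0) := by
      refine Finset.sum_congr rfl fun i _ => ?_
      rw [hw3, full_w_row _ _ _ (by push_cast; omega)]
      congr 2
      ext
      · simp only [Prod.mk_add_mk]; push_cast; ring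
      · simp
    have q4 : ∑ i ∈ Finset.range c, (1 / 2 - 2 * b)⁻¹ * e ((i : ℤ) + 1, 0)
        = ∑ i ∈ Finset.range k, (1 / 2 - 2 * b)⁻¹ * e ((i : ℤ) + 1, 0)
          + ∑ i ∈ Finset.range (c - k), (1 / 2 - 2 * b)⁻¹ * e (((k + i : ℕ) : ℤ) + 1, 0) := by
      rw [← Finset.sum_range_add (fun i => (1 / 2 - 2 * b)⁻¹ * e ((i : ℤ) + 1, 0)) k (c - k)]
      congr 2
      omega
    have q5 : L Set.univ w3 (((c - k : ℕ) : ℤ), 1) (((m - k : ℕ) : ℤ), m)
        = L Set.univ e ((c : ℤ), 1) (m, m) := by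
      rw [hw3, full_L_bulk _ _ _ (by simp only; omega) (by simp)]
      have := L_shift Set.univ e ((k : ℤ), 0) (((c - k : ℕ) : ℤ), 1) (((m - k : ℕ) : ℤ), m)
      rw [show (((c - k : ℕ) : ℤ), (1 : ℤ)) + ((k : ℤ), 0) = ((c : ℤ), 1) by
        ext <;> simp; omega,
        show (((m - k : ℕ) : ℤ), (m : ℤ)) + ((k : ℤ), 0) = ((m : ℤ), (m : ℤ)) by
        ext <;> simp; omega] at this
      rw [this]
      rfl
    have q6 := L_concat (D := Set.univ) (w := w3) (u := (0, 0)) (z := (((c - k : ℕ) : ℤ), 0))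
      (z' := (((c - k : ℕ) : ℤ), 1)) (v := (((m - k : ℕ) : ℤ), (m : ℤ))) (Or.inr (by simp))
      (by simp only [tm]; omega) (by simp only [tm]; omega)
      (full_ne (by simp) (by simp)) (full_ne (by simp only; omega) (by simp only; omega))
    rw [show (0 : ℤ) + ((c - k : ℕ) : ℤ) = ((c - k : ℕ) : ℤ) by ring] at q1
    rw [q1, q3, q5] at q6
    rw [q4] at c3
    linarith

/-! ## Tail events -/

section
variable {Ω : Type} [MeasurableSpace Ω] {P : Measure Ω} {E : ℤ × ℤ → Ω → ℝ}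

lemma full_meas (h : Env P E) (r c : ℝ) (u v : ℤ × ℤ) :
    Measurable fun ω => L Set.univ (full_w r c (fun z => E z ω)) u v :=
  measurable_L (fun z => measurable_wgt h _ z) _ _ _

/-- Exponential Markov inequality for the quadrant model. -/
lemma full_tail (hM : ExpMom) (hE : Env P E) {r c : ℝ} (hr0 : 0 < r) (hr1 : r < 1) (hc0 : 0 < c)
    (hc1 : c < 1) (m n : ℕ) (x : ℝ) :
    P.real {ω | x ≤ (r + c - 1) * L Set.univ (full_w r c (fun z => E z ω)) (0, 0) (m, n)}
      ≤ (r / (1 - c)) ^ m * (c / (1 - r)) ^ n * Real.exp (-x) := by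
  have := hE.prob
  have h1 := hM Ω P E hE (fun _ => 0) monotone_const rfl r c hr0 hr1 hc0 hc1 m n (by positivity)
  refine full_markov (full_meas hE r c (0, 0) (m, n)) ?_ ?_
  · have : 0 < 1 - c := by linarith
    have : 0 < 1 - r := by linarith
    positivity
  · refine le_trans (le_of_eq ?_) h1
    refine lintegral_congr fun ω => ?_
    rw [full_dom _ (by simp)]
    rfl

lemma full_E1 (hM : ExpMom) (hE : Env P E) (m : ℕ) {b : ℝ} (hb : 0 < b) (hb' : b ≤ 1 / 112) :
    P.real {ω | L Set.univ (full_w (1 / 2 - 2 * b) (1 / 2 + b) (fun z => E z ω)) (0, 0) (m, m)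
      ≤ 4 * (m : ℝ) + 20 * b ^ 2 * m} ≤ Real.exp (-(b ^ 3 * m)) := by
  have := hE.prob
  have h1 := full_tail hM hE (r := 1 / 2 - 2 * b) (c := 1 / 2 + b) (by linarith) (by linarith)
    (by linarith) (by linarith) m m (-b * (4 * (m : ℝ) + 20 * b ^ 2 * m))
  refine (measureReal_mono ?_).trans (h1.trans ?_)
  · intro ω hω
    simp only [Set.mem_ofPred_eq] at hω ⊢
    rw [show (1 / 2 - 2 * b + (1 / 2 + b) - 1 : ℝ) = -b by ring]
    nlinarith
  · rw [← mul_pow]
    have q1 : 0 < 1 - 2 * b := by linarith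
    have q2 : 0 < 1 - 4 * b := by linarith
    have q3 : 0 < 1 + 4 * b := by linarith
    have e1 : (1 / 2 - 2 * b) / (1 - (1 / 2 + b)) * ((1 / 2 + b) / (1 - (1 / 2 - 2 * b)))
        = (1 + 2 * b) / (1 - 2 * b) / ((1 + 4 * b) / (1 - 4 * b)) := by
      rw [show (1 : ℝ) - (1 / 2 + b) = (1 - 2 * b) / 2 by ring,
        show (1 : ℝ) - (1 / 2 - 2 * b) = (1 + 4 * b) / 2 by ring,
        show (1 / 2 - 2 * b : ℝ) = (1 - 4 * b) / 2 by ring,
        show (1 / 2 + b : ℝ) = (1 + 2 * b) / 2 by ring]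
      field_simp
    have e2 := full_h_le (x := 2 * b) (by linarith) (by linarith)
    have e3 := full_h_ge (x := 4 * b) (by linarith) (by linarith)
    have e4 : (1 + 2 * b) / (1 - 2 * b) / ((1 + 4 * b) / (1 - 4 * b))
        ≤ Real.exp (-(4 * b) - 21 * b ^ 3) := by
      calc (1 + 2 * b) / (1 - 2 * b) / ((1 + 4 * b) / (1 - 4 * b))
          ≤ Real.exp (2 * (2 * b) + (2 * b) ^ 3) / Real.exp (2 * (4 * b) + 2 / 3 * (4 * b) ^ 3) := by
            gcongr
        _ = Real.exp (2 * (2 * b) + (2 * b) ^ 3 - (2 * (4 * b) + 2 / 3 * (4 * b) ^ 3)) := by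
            rw [Real.exp_sub]
        _ ≤ Real.exp (-(4 * b) - 21 * b ^ 3) := by
            apply Real.exp_le_exp.2
            have : 0 < b ^ 3 := by positivity
            nlinarith
    have e5 : 0 ≤ (1 + 2 * b) / (1 - 2 * b) / ((1 + 4 * b) / (1 - 4 * b)) := by positivity
    rw [e1]
    calc ((1 + 2 * b) / (1 - 2 * b) / ((1 + 4 * b) / (1 - 4 * b))) ^ m
          * Real.exp (-(-b * (4 * (m : ℝ) + 20 * b ^ 2 * m)))
        ≤ Real.exp (-(4 * b) - 21 * b ^ 3) ^ m
          * Real.exp (-(-b * (4 * (m : ℝ) + 20 * b ^ 2 * m))) := by gcongr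
      _ = Real.exp (-(b ^ 3 * m)) := by
          rw [← Real.exp_nat_mul, ← Real.exp_add]
          congr 1
          ring

lemma full_E2 (hM : ExpMom) (hE : Env P E) (m : ℕ) {b : ℝ} (hb : 0 < b) (hb' : b ≤ 1 / 112) :
    P.real {ω | 4 * (m : ℝ) + 10 * b ^ 2 * m
      ≤ L Set.univ (full_w (1 / 2) (1 / 2 + b) (fun z => E z ω)) (0, 0) (m, m)}
      ≤ Real.exp (-(b ^ 3 * m)) := by
  have := hE.prob
  have h1 := full_tail hM hE (r := 1 / 2) (c := 1 / 2 + b) (by linarith) (by linarith)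
    (by linarith) (by linarith) m m (b * (4 * (m : ℝ) + 10 * b ^ 2 * m))
  refine (measureReal_mono ?_).trans (h1.trans ?_)
  · intro ω hω
    simp only [Set.mem_ofPred_eq] at hω ⊢
    rw [show (1 / 2 + (1 / 2 + b) - 1 : ℝ) = b by ring]
    exact mul_le_mul_of_nonneg_left hω hb.le
  · rw [← mul_pow]
    have q1 : 0 < 1 - 2 * b := by linarith
    have e1 : (1 / 2) / (1 - (1 / 2 + b)) * ((1 / 2 + b) / (1 - 1 / 2))
        = (1 + 2 * b) / (1 - 2 * b) := by
      rw [show (1 : ℝ) - (1 / 2 + b) = (1 - 2 * b) / 2 by ring]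
      field_simp
      ring
    have e2 := full_h_le (x := 2 * b) (by linarith) (by linarith)
    rw [e1]
    calc ((1 + 2 * b) / (1 - 2 * b)) ^ m * Real.exp (-(b * (4 * (m : ℝ) + 10 * b ^ 2 * m)))
        ≤ Real.exp (2 * (2 * b) + (2 * b) ^ 3) ^ m
          * Real.exp (-(b * (4 * (m : ℝ) + 10 * b ^ 2 * m))) := by
          gcongr
      _ = Real.exp (-(2 * (b ^ 3 * m))) := by
          rw [← Real.exp_nat_mul, ← Real.exp_add]
          congr 1
          ring
      _ ≤ Real.exp (-(b ^ 3 * m)) := by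
          apply Real.exp_le_exp.2
          have : 0 ≤ b ^ 3 * m := by positivity
          linarith

lemma full_E4 (hM : ExpMom) (hE : Env P E) (m k : ℕ) (hkm : k ≤ m) {b : ℝ} (hb : 0 < b)
    (hb' : b ≤ 1 / 112) (hk : 500 * b * m ≤ k) :
    P.real {ω | 4 * (m : ℝ) - 2 * k - 20 * b * k
      ≤ L Set.univ (full_w (1 / 2 - 2 * b) (1 / 2 + 14 * b) (fun z => E z ω)) (0, 0)
        (((m - k : ℕ) : ℤ), m)}
      ≤ Real.exp (-(b ^ 3 * m)) := by
  have := hE.prob
  have h1 := full_tail hM hE (r := 1 / 2 - 2 * b) (c := 1 / 2 + 14 * b) (by linarith)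
    (by linarith) (by linarith) (by linarith) (m - k) m
    (12 * b * (4 * (m : ℝ) - 2 * k - 20 * b * k))
  refine (measureReal_mono ?_).trans (h1.trans ?_)
  · intro ω hω
    simp only [Set.mem_ofPred_eq] at hω ⊢
    rw [show (1 / 2 - 2 * b + (1 / 2 + 14 * b) - 1 : ℝ) = 12 * b by ring]
    exact mul_le_mul_of_nonneg_left hω (by positivity)
  · have q1 : 0 < 1 - 28 * b := by linarith
    have q2 : 0 < 1 - 4 * b := by linarith
    have q3 : 0 < 1 + 4 * b := by linarith
    set q : ℝ := (1 / 2 - 2 * b) / (1 - (1 / 2 + 14 * b)) with hq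
    have hq' : q = (1 - 4 * b) / (1 - 28 * b) := by
      rw [hq, show (1 : ℝ) - (1 / 2 + 14 * b) = (1 - 28 * b) / 2 by ring,
        show (1 / 2 - 2 * b : ℝ) = (1 - 4 * b) / 2 by ring]
      field_simp
    have hq0 : 0 < q := by rw [hq']; positivity
    -- lower bound of `q`
    have hqge : Real.exp (24 * b + 288 * b ^ 2) ≤ q := by
      have y0 : 24 * b ≤ 24 * b / (1 - 4 * b) := by
        rw [le_div_iff₀ q2]
        nlinarith
      have y1 : 24 * b / (1 - 4 * b) < 1 := by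
        rw [div_lt_one q2]
        linarith
      have y2 := full_log_ge (y := 24 * b / (1 - 4 * b)) (by positivity) y1
      have y3 : (1 - 24 * b / (1 - 4 * b))⁻¹ = q := by
        rw [hq']
        have : 1 - 24 * b / (1 - 4 * b) = (1 - 28 * b) / (1 - 4 * b) := by
          rw [eq_div_iff q2.ne', sub_mul, div_mul_cancel₀ _ q2.ne']
          ring
        rw [this, inv_div]
      rw [← y3]
      refine le_trans (Real.exp_le_exp.2 ?_) y2
      have : (24 * b) ^ 2 ≤ (24 * b / (1 - 4 * b)) ^ 2 := by gcongr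
      nlinarith
    have e1 : q * ((1 / 2 + 14 * b) / (1 - (1 / 2 - 2 * b)))
        = (1 + 28 * b) / (1 - 28 * b) / ((1 + 4 * b) / (1 - 4 * b)) := by
      rw [hq', show (1 : ℝ) - (1 / 2 - 2 * b) = (1 + 4 * b) / 2 by ring,
        show (1 / 2 + 14 * b : ℝ) = (1 + 28 * b) / 2 by ring]
      field_simp
    have e2 := full_h_le (x := 28 * b) (by linarith) (by linarith)
    have e3 := full_h_ge (x := 4 * b) (by linarith) (by linarith)
    have e4 : (1 + 28 * b) / (1 - 28 * b) / ((1 + 4 * b) / (1 - 4 * b))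
        ≤ Real.exp (48 * b + 21952 * b ^ 3) := by
      calc (1 + 28 * b) / (1 - 28 * b) / ((1 + 4 * b) / (1 - 4 * b))
          ≤ Real.exp (2 * (28 * b) + (28 * b) ^ 3)
            / Real.exp (2 * (4 * b) + 2 / 3 * (4 * b) ^ 3) := by
            gcongr
        _ = Real.exp (2 * (28 * b) + (28 * b) ^ 3 - (2 * (4 * b) + 2 / 3 * (4 * b) ^ 3)) := by
            rw [Real.exp_sub]
        _ ≤ Real.exp (48 * b + 21952 * b ^ 3) := by
            apply Real.exp_le_exp.2
            have : 0 < b ^ 3 := by positivity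
            nlinarith
    have e5 : q ^ (m - k) = q ^ m / q ^ k := by
      rw [eq_div_iff (by positivity), ← pow_add, Nat.sub_add_cancel hkm]
    have e6 : Real.exp (24 * b + 288 * b ^ 2) ^ k ≤ q ^ k := by gcongr
    have e7 : q ^ (m - k) * ((1 / 2 + 14 * b) / (1 - (1 / 2 - 2 * b))) ^ m
        ≤ Real.exp (48 * b + 21952 * b ^ 3) ^ m / Real.exp (24 * b + 288 * b ^ 2) ^ k := by
      rw [e5, div_mul_eq_mul_div, ← mul_pow, e1]
      have : 0 ≤ (1 + 28 * b) / (1 - 28 * b) / ((1 + 4 * b) / (1 - 4 * b)) := by positivity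
      gcongr
    calc q ^ (m - k) * ((1 / 2 + 14 * b) / (1 - (1 / 2 - 2 * b))) ^ m
          * Real.exp (-(12 * b * (4 * (m : ℝ) - 2 * k - 20 * b * k)))
        ≤ Real.exp (48 * b + 21952 * b ^ 3) ^ m / Real.exp (24 * b + 288 * b ^ 2) ^ k
          * Real.exp (-(12 * b * (4 * (m : ℝ) - 2 * k - 20 * b * k))) := by gcongr
      _ = Real.exp (21952 * b ^ 3 * m - 48 * b ^ 2 * k) := by
          rw [← Real.exp_nat_mul, ← Real.exp_nat_mul, ← Real.exp_sub, ← Real.exp_add]
          congr 1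
          ring
      _ ≤ Real.exp (-(b ^ 3 * m)) := by
          apply Real.exp_le_exp.2
          have h5 : b ^ 2 * (500 * b * m) ≤ b ^ 2 * k := by gcongr
          have h6 : 0 ≤ b ^ 3 * m := by positivity
          nlinarith

lemma full_E7 (hU : RWUp) (hE : Env P E) (m k : ℕ) {b : ℝ} (hb : 0 < b)
    (hb' : b ≤ 1 / 112) (hk : 500 * b * m ≤ k) :
    P.real {ω | ∃ z ≤ k, 20 * b * k
      ≤ ∑ i ∈ Finset.range z, ((1 / 2 - 2 * b)⁻¹ * E ((i : ℤ) + 1, 0) ω - 2)}
      ≤ Real.exp (-(b ^ 3 * m)) := by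
  have := hE.prob
  have hinj : Function.Injective (fun i : ℕ => (((i : ℤ) + 1, 0) : ℤ × ℤ)) := by
    intro i j hij
    have := congrArg Prod.fst hij
    simp only at this
    omega
  have h1 := hE.iid hinj (r := 1 / 2 - 2 * b) (by linarith) k
  have h2 := hU Ω P k _ (1 / 2 - 2 * b) b 2 (13 * b ^ 2) (20 * b * k) h1 hb (by linarith)
    (by positivity) (by
      have q : 0 < 1 / 2 - 3 * b := by linarith
      have e1 : (1 / 2 - 2 * b) / (1 / 2 - 2 * b - b) = b / (1 / 2 - 3 * b) + 1 := by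
        rw [show (1 / 2 - 2 * b - b : ℝ) = 1 / 2 - 3 * b by ring, div_add_one q.ne']
        ring
      have e2 := Real.add_one_le_exp (b / (1 / 2 - 3 * b))
      have e3 : b / (1 / 2 - 3 * b) ≤ 2 * b + 13 * b ^ 2 := by
        rw [div_le_iff₀ q]
        nlinarith [mul_pos hb hb, mul_nonneg (mul_pos hb hb).le (by linarith : 0 ≤ 1 / 78 - b)]
      rw [e1]
      calc (b / (1 / 2 - 3 * b) + 1) * Real.exp (-(b * 2))
          ≤ Real.exp (2 * b + 13 * b ^ 2) * Real.exp (-(b * 2)) := by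
            gcongr
            exact e2.trans (Real.exp_le_exp.2 e3)
        _ = Real.exp (13 * b ^ 2) := by
            rw [← Real.exp_add]
            congr 1
            ring)
  refine h2.trans (Real.exp_le_exp.2 ?_)
  have h5 : b ^ 2 * (500 * b * m) ≤ b ^ 2 * k := by gcongr
  have h6 : 0 ≤ b ^ 3 * m := by positivity
  nlinarith

/-- The reversed increments. -/
lemma full_incr (hB : BurkeGen) (hE : Env P E) (m k : ℕ) {b : ℝ} (hb : 0 < b)
    (hb' : b ≤ 1 / 112) (hkm : k ≤ m) :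
    IIDExp P k (fun i ω =>
      L Set.univ (full_w (1 / 2 - 2 * b) (1 / 2 + 2 * b) (fun z => E z ω)) (0, 0)
          ((m : ℤ), (((m - 1 - i : ℕ) : ℤ)) + 1)
        - L Set.univ (full_w (1 / 2 - 2 * b) (1 / 2 + 2 * b) (fun z => E z ω)) (0, 0)
          ((m : ℤ), ((m - 1 - i : ℕ) : ℤ))) (1 / 2 + 2 * b) := by
  have := hE.prob
  have hr : (0 : ℝ) < 1 / 2 - 2 * b := by linarith
  have hc : (0 : ℝ) < 1 / 2 + 2 * b := by linarith
  have := isProbabilityMeasure_expMeasure hr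
  have := isProbabilityMeasure_expMeasure hc
  have h1 := hB Ω P E hE (fun _ => 0) monotone_const rfl (1 / 2 - 2 * b) (1 / 2 + 2 * b) hr hc
    (by ring) m m
  have h2 : IIDExp P m (fun j ω =>
      L Set.univ (full_w (1 / 2 - 2 * b) (1 / 2 + 2 * b) (fun z => E z ω)) (0, 0)
          ((m : ℤ), (j : ℤ) + 1)
        - L Set.univ (full_w (1 / 2 - 2 * b) (1 / 2 + 2 * b) (fun z => E z ω)) (0, 0)
          ((m : ℤ), (j : ℤ))) (1 / 2 + 2 * b) := by
    refine ⟨fun i _ => (full_meas hE _ _ _ _).sub (full_meas hE _ _ _ _), ?_⟩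
    have h3 := congrArg (Measure.map Prod.fst) h1
    rw [Measure.map_fst_prod, Measure.map_map measurable_fst ?_] at h3
    · simp only [measure_univ, one_smul] at h3
      rw [← h3]
      congr 1
      ext ω j
      simp only [Function.comp_apply, zero_add]
      rw [full_dom _ (by simp), full_dom _ (by simp)]
      rfl
    · refine Measurable.prodMk ?_ ?_
      · exact measurable_pi_lambda _ fun j =>
          (measurable_L (fun z => measurable_wgt hE _ z) _ _ _).sub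
            (measurable_L (fun z => measurable_wgt hE _ z) _ _ _)
      · exact measurable_pi_lambda _ fun j =>
          (measurable_L (fun z => measurable_wgt hE _ z) _ _ _).sub
            (measurable_L (fun z => measurable_wgt hE _ z) _ _ _)
  exact h2.comp hc (fun i => m - 1 - i) (fun i hi j hj hij => by
    simp only [Set.mem_Iio] at hi hj hij
    omega) (fun i hi => by omega)

lemma full_E8 (hD : RWDown) (hB : BurkeGen) (hE : Env P E) (m k : ℕ) {b : ℝ} (hb : 0 < b)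
    (hb' : b ≤ 1 / 112) (hk : 500 * b * m ≤ k) :
    P.real {ω | ∃ z ≤ min k m, 20 * b * k
      ≤ ∑ i ∈ Finset.range z, (2 -
        (L Set.univ (full_w (1 / 2 - 2 * b) (1 / 2 + 2 * b) (fun z => E z ω)) (0, 0)
          ((m : ℤ), (m : ℤ) - i)
        - L Set.univ (full_w (1 / 2 - 2 * b) (1 / 2 + 2 * b) (fun z => E z ω)) (0, 0)
          ((m : ℤ), (m : ℤ) - i - 1)))}
      ≤ Real.exp (-(b ^ 3 * m)) := by
  have := hE.prob
  have h1 := full_incr hB hE m (min k m) hb hb' (min_le_right _ _)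
  have h2 := hD Ω P (min k m) _ (1 / 2 + 2 * b) b 2 (12 * b ^ 2) (20 * b * k) h1 hb (by linarith)
    (by positivity) (by
      have q : 0 < 1 / 2 + 3 * b := by linarith
      have e1 : (1 / 2 + 2 * b) / (1 / 2 + 2 * b + b) = -(b / (1 / 2 + 3 * b)) + 1 := by
        rw [show (1 / 2 + 2 * b + b : ℝ) = 1 / 2 + 3 * b by ring, ← neg_div, div_add_one q.ne']
        ring
      have e2 := Real.add_one_le_exp (-(b / (1 / 2 + 3 * b)))
      have e3 : 2 * b - 12 * b ^ 2 ≤ b / (1 / 2 + 3 * b) := by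
        rw [le_div_iff₀ q]
        have : 0 < b ^ 3 := by positivity
        nlinarith
      rw [e1]
      calc (-(b / (1 / 2 + 3 * b)) + 1) * Real.exp (b * 2)
          ≤ Real.exp (-(2 * b - 12 * b ^ 2)) * Real.exp (b * 2) := by
            gcongr
            exact e2.trans (Real.exp_le_exp.2 (by linarith))
        _ = Real.exp (12 * b ^ 2) := by
            rw [← Real.exp_add]
            congr 1
            ring)
  refine le_trans ?_ (h2.trans (Real.exp_le_exp.2 ?_))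
  · refine measureReal_mono ?_
    rintro ω ⟨z, hz, hω⟩
    refine ⟨z, hz, hω.trans (le_of_eq ?_)⟩
    refine Finset.sum_congr rfl fun i hi => ?_
    rw [Finset.mem_range] at hi
    have e1 : (((m - 1 - i : ℕ) : ℤ)) = (m : ℤ) - i - 1 := by omega
    rw [e1]
    simp only [sub_add_cancel]
  · have h5 : b ^ 2 * (500 * b * m) ≤ b ^ 2 * k := by gcongr
    have h6 : 0 ≤ b ^ 3 * m := by positivity
    have h7 : ((min k m : ℕ) : ℝ) ≤ k := by exact_mod_cast min_le_left _ _
    have h8 : b ^ 2 * ((min k m : ℕ) : ℝ) ≤ b ^ 2 * k := by gcongr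
    nlinarith

lemma full_refl_inj (N : ℤ) : Function.Injective (refl N) := fun a b h => by
  rw [← refl_refl N a, h, refl_refl]

lemma full_shift_inj (a : ℤ × ℤ) : Function.Injective (fun z : ℤ × ℤ => z + a) :=
  add_left_injective a

lemma full_union [IsProbabilityMeasure P] {S A0 A1 A2 A3 A4 A5 A6 A7 : Set Ω} {x : ℝ}
    (h : ∀ ω, ω ∉ A0 → ω ∉ A1 → ω ∉ A2 → ω ∉ A3 → ω ∉ A4 → ω ∉ A5 → ω ∉ A6 → ω ∉ A7 → ω ∉ S)
    (h0 : P.real A0 = 0) (h1 : P.real A1 ≤ x) (h2 : P.real A2 ≤ x) (h3 : P.real A3 ≤ x)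
    (h4 : P.real A4 ≤ x) (h5 : P.real A5 ≤ x) (h6 : P.real A6 ≤ x) (h7 : P.real A7 ≤ x) :
    P.real S ≤ 7 * x := by
  have hS : S ⊆ A0 ∪ (A1 ∪ (A2 ∪ (A3 ∪ (A4 ∪ (A5 ∪ (A6 ∪ A7)))))) := by
    intro ω hω
    by_contra hcon
    simp only [Set.mem_union, not_or] at hcon
    obtain ⟨c0, c1, c2, c3, c4, c5, c6, c7⟩ := hcon
    exact h ω c0 c1 c2 c3 c4 c5 c6 c7 hω
  have u0 := measureReal_mono (μ := P) hS
  have u1 := measureReal_union_le (μ := P) A0 (A1 ∪ (A2 ∪ (A3 ∪ (A4 ∪ (A5 ∪ (A6 ∪ A7))))))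
  have u2 := measureReal_union_le (μ := P) A1 (A2 ∪ (A3 ∪ (A4 ∪ (A5 ∪ (A6 ∪ A7)))))
  have u3 := measureReal_union_le (μ := P) A2 (A3 ∪ (A4 ∪ (A5 ∪ (A6 ∪ A7))))
  have u4 := measureReal_union_le (μ := P) A3 (A4 ∪ (A5 ∪ (A6 ∪ A7)))
  have u5 := measureReal_union_le (μ := P) A4 (A5 ∪ (A6 ∪ A7))
  have u6 := measureReal_union_le (μ := P) A5 (A6 ∪ A7)
  have u7 := measureReal_union_le (μ := P) A6 A7
  linarith

/-- The lower tail at the scale `b`. -/
lemma full_scale (hM : ExpMom) (hB : BurkeGen) (hU : RWUp) (hD : RWDown) (hE : Env P E) (m : ℕ)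
    (hm : 1 ≤ m) {b : ℝ} (hb : 0 < b) (hb' : b ≤ 1 / 112) (hbm : 1 ≤ b ^ 3 * m) :
    P.real {ω | L Set.univ (fun z => E z ω) (1, 1) (m, m) ≤ 4 * (m : ℝ) - 100000 * b ^ 2 * m}
      ≤ 7 * Real.exp (-(b ^ 3 * m)) := by
  have := hE.prob
  set k : ℕ := ⌈500 * b * m⌉₊ with hk
  have hk1 : 500 * b * m ≤ k := Nat.le_ceil _
  have hk2 : (k : ℝ) ≤ 500 * b * m + 1 := (Nat.ceil_lt_add_one (by positivity)).le
  have hE' := hE.comp (full_refl_inj ((m : ℤ) + 1))
  have hE'' := hE.comp (full_shift_inj ((k : ℤ), 0))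
  have b1 := full_E1 hM hE m hb hb'
  have b2 := full_E2 hM hE m hb hb'
  have b3 := full_E1 hM hE' m hb hb'
  have b4 := full_E2 hM hE' m hb hb'
  have b5 : P.real {ω | k ≤ m ∧ 4 * (m : ℝ) - 2 * k - 20 * b * k
      ≤ L Set.univ (full_w (1 / 2 - 2 * b) (1 / 2 + 14 * b) (fun z => E (z + ((k : ℤ), 0)) ω)) (0, 0)
        (((m - k : ℕ) : ℤ), m)} ≤ Real.exp (-(b ^ 3 * m)) := by
    by_cases hkm : k ≤ m
    · refine (measureReal_mono ?_).trans (full_E4 hM hE'' m k hkm hb hb' hk1)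
      rintro ω ⟨_, hω⟩
      exact hω
    · have : {ω | k ≤ m ∧ 4 * (m : ℝ) - 2 * k - 20 * b * k
        ≤ L Set.univ (full_w (1 / 2 - 2 * b) (1 / 2 + 14 * b) (fun z => E (z + ((k : ℤ), 0)) ω))
          (0, 0) (((m - k : ℕ) : ℤ), m)} = ∅ := by
        ext ω
        simp [hkm]
      rw [this]
      simp only [measureReal_empty]
      positivity
  have b6 := full_E7 hU hE m k hb hb' hk1
  have b7 := full_E8 hD hB hE' m k hb hb' hk1
  have b0 : P.real {ω | ¬ ∀ z, 0 ≤ E z ω} = 0 := by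
    rw [measureReal_def, ae_iff.1 hE.nonneg]
    rfl
  refine full_union (A0 := {ω | ¬ ∀ z, 0 ≤ E z ω}) ?_ b0 b1 b2 b3 b4 b5 b6 b7
  intro ω c0 c1 c2 c3 c4 c5 c6 c7 hω
  simp only [Set.mem_ofPred_eq, not_not, not_le, not_exists, not_and] at c0 c1 c2 c3 c4 c5 c6 c7 hω
  have key := full_det (fun z => E z ω) c0 m k hm b hb hb' c1 c2 c3 c4 c5 c6 c7
  have hb3 : b ^ 3 * m ≤ b ^ 2 * m := by
    have : b ^ 3 ≤ b ^ 2 := pow_le_pow_of_le_one hb.le (by linarith) (by norm_num)
    gcongr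
  nlinarith

end

lemma full_TF (e : ℤ × ℤ → ℝ) (s t : ℤ) (m : ℕ) (hm : t - s = m) :
    TF e s t = L Set.univ (fun z => e (z + (s, s))) (1, 1) (m, m) := by
  have h := L_shift Set.univ e (s, s) (1, 1) (m, m)
  unfold TF
  rw [show ((1 : ℤ), (1 : ℤ)) + (s, s) = (s + 1, s + 1) by ext <;> simp [add_comm],
    show ((m : ℤ), (m : ℤ)) + (s, s) = (t, t) by ext <;> simp <;> omega] at h
  rw [h]
  rfl

theorem t_FullLower (hM : ExpMom) (hB : BurkeGen) (hU : RWUp) (hD : RWDown) : FullLower := by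
  refine ⟨100000, by norm_num, ?_⟩
  intro Ω _ P E hE s t hst θ hθ
  have := hE.prob
  obtain ⟨m, hm⟩ : ∃ m : ℕ, t - s = m := ⟨(t - s).toNat, by omega⟩
  have hm1 : 1 ≤ m := by omega
  have hmr : (t : ℝ) - s = m := by exact_mod_cast hm
  have hm1r : (1 : ℝ) ≤ m := by exact_mod_cast hm1
  have hE' := hE.comp (full_shift_inj (s, s))
  have hset : {ω | TF (fun z => E z ω) s t ≤ 4 * ((t : ℝ) - s) - θ * ((t : ℝ) - s) ^ ((1 : ℝ) / 3)}
      = {ω | L Set.univ (fun z => E (z + (s, s)) ω) (1, 1) (m, m)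
        ≤ 4 * (m : ℝ) - θ * (m : ℝ) ^ ((1 : ℝ) / 3)} := by
    ext ω
    simp only [Set.mem_ofPred_eq]
    rw [full_TF _ s t m hm, hmr]
  rw [hset]
  set u : ℝ := (m : ℝ) ^ ((1 : ℝ) / 3) with hu
  have hu1 : 1 ≤ u := Real.one_le_rpow hm1r (by norm_num)
  have hu0 : 0 < u := by linarith
  have hu3 : u ^ 3 = m := by
    rw [hu, ← Real.rpow_natCast, ← Real.rpow_mul (by positivity)]
    norm_num
  rcases le_or_gt θ 100000 with h1 | h1
  · -- trivial for small `θ`
    have h2 : Real.exp (-1) ≤ Real.exp (-θ / 100000) := by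
      apply Real.exp_le_exp.2
      rw [le_div_iff₀ (by norm_num)]
      linarith
    have h3 : (0.36 : ℝ) < Real.exp (-1) := by
      have := Real.exp_neg_one_gt_d9
      linarith
    have h4 : P.real {ω | L Set.univ (fun z => E (z + (s, s)) ω) (1, 1) (m, m)
        ≤ 4 * (m : ℝ) - θ * u} ≤ 1 := measureReal_le_one
    linarith
  rcases le_or_gt θ (4 * u ^ 2) with h2 | h2
  · set b : ℝ := Real.sqrt (θ / 100000) / u with hb
    have hs0 : 0 < Real.sqrt (θ / 100000) := Real.sqrt_pos.2 (by positivity)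
    have hs1 : 1 ≤ Real.sqrt (θ / 100000) := by
      rw [Real.one_le_sqrt, le_div_iff₀ (by norm_num)]
      linarith
    have hsq : Real.sqrt (θ / 100000) ^ 2 = θ / 100000 := Real.sq_sqrt (by positivity)
    have hb0 : 0 < b := by positivity
    have hbu : b * u = Real.sqrt (θ / 100000) := by
      rw [hb]; field_simp
    have hb2 : b ≤ 1 / 112 := by
      rw [hb, div_le_iff₀ hu0]
      apply le_of_sq_le_sq
      · rw [hsq]
        have : (1 / 112 * u) ^ 2 = u ^ 2 / 12544 := by ring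
        rw [this]
        linarith
      · positivity
    have hb3 : b ^ 3 * m = Real.sqrt (θ / 100000) ^ 3 := by
      rw [← hu3, ← hbu]; ring
    have hb4 : θ / 100000 ≤ b ^ 3 * m := by
      rw [hb3, pow_succ, hsq]
      have : 0 ≤ θ / 100000 := by positivity
      nlinarith
    have hb5 : 1 ≤ b ^ 3 * m := by
      refine le_trans ?_ hb4
      rw [le_div_iff₀ (by norm_num)]
      linarith
    have hb6 : 100000 * b ^ 2 * m = θ * u := by
      have : b ^ 2 * m = (b * u) ^ 2 * u := by rw [← hu3]; ring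
      rw [mul_assoc, this, hbu, hsq]
      ring
    have key := full_scale hM hB hU hD hE' m hm1 hb0 hb2 hb5
    rw [hb6] at key
    refine key.trans ?_
    have h5 : Real.exp (-(b ^ 3 * m)) ≤ Real.exp (-θ / 100000) := by
      apply Real.exp_le_exp.2
      rw [neg_div]
      linarith
    have h6 := Real.exp_pos (-θ / 100000)
    linarith
  · -- the event is empty up to a null set
    have h3 : P.real {ω | L Set.univ (fun z => E (z + (s, s)) ω) (1, 1) (m, m)
        ≤ 4 * (m : ℝ) - θ * u} ≤ P.real {ω | ¬ ∀ z, 0 ≤ E z ω} := by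
      refine measureReal_mono ?_
      intro ω hω hcon
      simp only [Set.mem_ofPred_eq] at hω
      have h4 : 0 ≤ L Set.univ (fun z => E (z + (s, s)) ω) (1, 1) (m, m) :=
        L_nonneg fun z _ _ => hcon _
      have h5 : 4 * (m : ℝ) < θ * u := by
        rw [← hu3]
        nlinarith
      linarith
    refine h3.trans ?_
    rw [measureReal_def, ae_iff.1 hE.nonneg]
    simp only [ENNReal.toReal_zero]
    positivity

theorem t_FullUpper (hM : ExpMom) : FullUpper := by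
  refine ⟨8, by norm_num, ?_⟩
  intro Ω _ P E hE s t hst θ hθ
  have := hE.prob
  obtain ⟨m, hm⟩ : ∃ m : ℕ, t - s = m := ⟨(t - s).toNat, by omega⟩
  have hm1 : 1 ≤ m := by omega
  have hmr : (t : ℝ) - s = m := by exact_mod_cast hm
  have hm1r : (1 : ℝ) ≤ m := by exact_mod_cast hm1
  have hE' := hE.comp (full_shift_inj (s, s))
  set u : ℝ := (m : ℝ) ^ ((1 : ℝ) / 3) with hu
  have hu1 : 1 ≤ u := Real.one_le_rpow hm1r (by norm_num)
  have hu0 : 0 < u := by linarith
  have hu3 : u ^ 3 = m := by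
    rw [hu, ← Real.rpow_natCast, ← Real.rpow_mul (by positivity)]
    norm_num
  set a : ℝ := 1 / (8 * u) with ha
  have ha0 : 0 < a := by positivity
  have ha1 : a ≤ 1 / 8 := by
    rw [ha]
    exact one_div_le_one_div_of_le (by norm_num) (by linarith)
  have hau : a * u = 1 / 8 := by rw [ha]; field_simp
  have ham : a ^ 3 * m = 1 / 512 := by
    rw [← hu3, ← mul_pow, hau]; norm_num
  have h1 := full_tail hM hE' (r := 1 / 2) (c := 1 / 2 + a) (by norm_num) (by norm_num)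
    (by linarith) (by linarith) m m (a * (4 * (m : ℝ) + θ * u))
  have h2 : P.real {ω | 4 * ((t : ℝ) - s) + θ * ((t : ℝ) - s) ^ ((1 : ℝ) / 3)
        ≤ TF (fun z => E z ω) s t}
      ≤ P.real ({ω | ¬ ∀ z, 0 ≤ E z ω} ∪ {ω | a * (4 * (m : ℝ) + θ * u) ≤ (1 / 2 + (1 / 2 + a) - 1) *
        L Set.univ (full_w (1 / 2) (1 / 2 + a) (fun z => E (z + (s, s)) ω)) (0, 0) (m, m)}) := by
    refine measureReal_mono ?_
    intro ω hω
    by_cases hn : ∀ z, 0 ≤ E z ω
    · right
      simp only [Set.mem_ofPred_eq] at hω ⊢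
      rw [full_TF _ s t m hm, hmr] at hω
      rw [show (1 / 2 + (1 / 2 + a) - 1 : ℝ) = a by ring]
      refine mul_le_mul_of_nonneg_left (hω.trans ?_) ha0.le
      rw [← full_L_bulk (1 / 2) (1 / 2 + a) (fun z => E (z + (s, s)) ω) (u := (1, 1))
        (v := ((m : ℤ), (m : ℤ))) le_rfl le_rfl]
      have hm1z : (1 : ℤ) ≤ m := by exact_mod_cast hm1
      exact L_mono_ends RD_univ trivial trivial trivial trivial (by simp) (by simp) le_rfl le_rfl
        hm1z hm1z (fun z _ _ => full_w_nonneg (by norm_num) (by linarith) (fun z => hn _) z)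
    · left
      exact hn
  refine h2.trans ((measureReal_union_le _ _).trans ?_)
  have h3 : P.real {ω | ¬ ∀ z, 0 ≤ E z ω} = 0 := by
    rw [measureReal_def, ae_iff.1 hE.nonneg]
    rfl
  rw [h3, zero_add]
  refine h1.trans ?_
  rw [← mul_pow]
  have q1 : 0 < 1 - 2 * a := by linarith
  have e1 : (1 / 2) / (1 - (1 / 2 + a)) * ((1 / 2 + a) / (1 - 1 / 2))
      = (1 + 2 * a) / (1 - 2 * a) := by
    rw [show (1 : ℝ) - (1 / 2 + a) = (1 - 2 * a) / 2 by ring]
    field_simp
    ring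
  have e2 := full_h_le (x := 2 * a) (by linarith) (by linarith)
  rw [e1]
  calc ((1 + 2 * a) / (1 - 2 * a)) ^ m * Real.exp (-(a * (4 * (m : ℝ) + θ * u)))
      ≤ Real.exp (2 * (2 * a) + (2 * a) ^ 3) ^ m * Real.exp (-(a * (4 * (m : ℝ) + θ * u))) := by
        gcongr
    _ = Real.exp (8 * (a ^ 3 * m) - (a * u) * θ) := by
        rw [← Real.exp_nat_mul, ← Real.exp_add]
        congr 1
        ring
    _ = Real.exp (1 / 64) * Real.exp (-θ / 8) := by
        rw [ham, hau, ← Real.exp_add]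
        congr 1
        ring
    _ ≤ 8 * Real.exp (-θ / 8) := by
        have h5 : Real.exp (1 / 64) ≤ 8 := by
          have h6 : Real.exp (1 / 64) ≤ Real.exp 1 := Real.exp_le_exp.2 (by norm_num)
          have h7 := Real.exp_one_lt_d9
          linarith
        gcongr

end Pool.Agent.H374
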