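import Pool.Agent.H374.Det
import Pool.Agent.H374.Stmts

set_option autoImplicit false
open MeasureTheory ProbabilityTheory Filter Topology

namespace Pool.Agent.H374

section iid
variable {Ω : Type} [MeasurableSpace Ω] {P : Measure Ω} [IsProbabilityMeasure P]

lemma hf_iid_sub {k : ℕ} {g : ℕ → Ω → ℝ} {r : ℝ} (hr : 0 < r) (h : IIDExp P k g r) (a n : ℕ)
    (han : a + n ≤ k) : IIDExp P n (fun i => g (a + i)) r := by
  have := isProbabilityMeasure_expMeasure hr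
  have hm : ∀ i : Fin k, Measurable (g i) := fun i => h.meas i i.2
  have hmarg : ∀ i : Fin k, Measure.map (g i) P = expMeasure r := by
    intro i
    have := (measurePreserving_eval (fun _ : Fin k => expMeasure r) i).map_eq
    rw [← this, ← h.law, Measure.map_map (measurable_pi_apply i) (measurable_pi_lambda _ hm)]
    rfl
  have hind : iIndepFun (fun i : Fin k => g i) P := by
    rw [iIndepFun_iff_map_fun_eq_pi_map (fun i => (hm i).aemeasurable), h.law]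
    congr 1
    funext i
    exact (hmarg i).symm
  refine ⟨fun i hi => h.meas _ (by omega), ?_⟩
  have hind2 : iIndepFun (fun i : Fin n => g (a + i)) P := by
    have := hind.precomp (g := fun i : Fin n => (⟨a + i, by omega⟩ : Fin k))
      (fun i j hij => by simp only [Fin.mk.injEq] at hij; exact Fin.ext (by omega))
    exact this
  rw [iIndepFun_iff_map_fun_eq_pi_map (fun i : Fin n => (h.meas (a + i) (by omega)).aemeasurable)]
    at hind2
  rw [hind2]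
  congr 1
  funext i
  exact hmarg ⟨a + i, by omega⟩

lemma hf_scale {r : ℝ} (hr : 0 < r) :
    Measure.map (fun x : ℝ => r⁻¹ * x) (expMeasure 1) = expMeasure r := by
  have := isProbabilityMeasure_expMeasure hr
  have := isProbabilityMeasure_expMeasure one_pos
  have hmeas : Measurable (fun x : ℝ => r⁻¹ * x) := by fun_prop
  have : IsProbabilityMeasure (Measure.map (fun x : ℝ => r⁻¹ * x) (expMeasure 1)) :=
    Measure.isProbabilityMeasure_map hmeas.aemeasurable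
  apply Measure.eq_of_cdf
  ext x
  rw [cdf_expMeasure_eq hr, cdf_eq_real, map_measureReal_apply hmeas measurableSet_Iic]
  have : (fun x : ℝ => r⁻¹ * x) ⁻¹' Set.Iic x = Set.Iic (r * x) := by
    ext y
    simp only [Set.mem_preimage, Set.mem_Iic]
    rw [inv_mul_le_iff₀ hr]
  rw [this, ← cdf_eq_real, cdf_expMeasure_eq one_pos]
  simp only [one_mul]
  by_cases hx : 0 ≤ x
  · rw [if_pos hx, if_pos (by positivity)]
  · rw [if_neg hx, if_neg (by push Not at hx ⊢; nlinarith)]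

lemma hf_iid_env {E : ℤ × ℤ → Ω → ℝ} (hE : Env P E) (m : ℕ) {r : ℝ} (hr : 0 < r) :
    IIDExp P m (fun (i : ℕ) ω => r⁻¹ * E ((i : ℤ) + 1, 0) ω) r := by
  refine ⟨fun i _ => (hE.meas _).const_mul _, ?_⟩
  have h1 : iIndepFun (fun i : Fin m => E (((i : ℕ) : ℤ) + 1, 0)) P :=
    hE.indep.precomp (g := fun i : Fin m => ((((i : ℕ) : ℤ) + 1, 0) : ℤ × ℤ))
      (fun i j hij => by
        simp only [Prod.mk.injEq, add_left_inj, and_true] at hij
        exact Fin.ext (by exact_mod_cast hij))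
  have h2 : iIndepFun (fun (i : Fin m) ω => r⁻¹ * E (((i : ℕ) : ℤ) + 1, 0) ω) P :=
    h1.comp (fun _ x => r⁻¹ * x) (fun _ => by fun_prop)
  rw [iIndepFun_iff_map_fun_eq_pi_map (fun i => ((hE.meas _).const_mul _).aemeasurable)] at h2
  rw [h2]
  congr 1
  funext i
  rw [← hf_scale hr, ← hE.law (((i : ℕ) : ℤ) + 1, 0), Measure.map_map (by fun_prop) (hE.meas _)]
  rfl

end iid

/-! ## Elementary inequalities -/

lemma hf_an0 {x : ℝ} (h0 : 0 ≤ x) (h1 : x ≤ 1 / 5) : Real.exp (-(x + 2 * x ^ 2)) ≤ 1 - x := by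
  have h2 : |(-(x + 2 * x ^ 2))| ≤ 1 := by
    rw [abs_neg, abs_of_nonneg (by positivity)]; nlinarith
  have h3 := Real.abs_exp_sub_one_sub_id_le h2
  rw [abs_le] at h3
  nlinarith [h3.2, mul_nonneg h0 h0, mul_nonneg h0 (sub_nonneg.2 h1),
    mul_nonneg (mul_nonneg h0 h0) (sub_nonneg.2 h1),
    mul_nonneg (mul_nonneg (mul_nonneg h0 h0) h0) (sub_nonneg.2 h1)]

lemma hf_an0' {x : ℝ} (h0 : 0 ≤ x) (h1 : x ≤ 1 / 5) : Real.exp (x - x ^ 2) ≤ 1 + x := by
  have h2 : |x - x ^ 2| ≤ 1 := by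
    rw [abs_of_nonneg (by nlinarith)]; nlinarith
  have h3 := Real.abs_exp_sub_one_sub_id_le h2
  rw [abs_le] at h3
  nlinarith [h3.2, mul_nonneg h0 h0, mul_nonneg h0 (sub_nonneg.2 h1),
    mul_nonneg (mul_nonneg h0 h0) (sub_nonneg.2 h1),
    mul_nonneg (mul_nonneg (mul_nonneg h0 h0) h0) (sub_nonneg.2 h1)]

lemma hf_an1 {s p : ℝ} (h0 : 0 < s) (h1 : s ≤ 1 / 20) (hp : |p - 1 / 2| ≤ 2 * s) :
    p / (p - s) * Real.exp (-(s * 2)) ≤ Real.exp (32 * s ^ 2) := by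
  rw [abs_le] at hp
  have hp1 : 2 / 5 ≤ p := by linarith
  have hp0 : 0 < p := by linarith
  have hps : 0 < p - s := by linarith
  set x := s / p with hx
  have hx0 : 0 ≤ x := by positivity
  have hx1 : x ≤ 1 / 5 := by rw [hx, div_le_iff₀ hp0]; linarith
  have hsx : s = x * p := by rw [hx]; field_simp
  have hx2 : x ≤ 5 / 2 * s := by rw [hx, div_le_iff₀ hp0]; nlinarith
  have h2 := hf_an0 hx0 hx1
  have h3 : p / (p - s) ≤ Real.exp (x + 2 * x ^ 2) := by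
    have e1 : Real.exp (x + 2 * x ^ 2) * Real.exp (-(x + 2 * x ^ 2)) = 1 := by
      rw [← Real.exp_add]; simp
    have e2 : 1 ≤ Real.exp (x + 2 * x ^ 2) * (1 - x) := by
      calc (1 : ℝ) = Real.exp (x + 2 * x ^ 2) * Real.exp (-(x + 2 * x ^ 2)) := e1.symm
        _ ≤ _ := mul_le_mul_of_nonneg_left h2 (Real.exp_pos _).le
    rw [div_le_iff₀ hps]
    have e3 : p - s = p * (1 - x) := by rw [hsx]; ring
    rw [e3]
    nlinarith
  calc p / (p - s) * Real.exp (-(s * 2)) ≤ Real.exp (x + 2 * x ^ 2) * Real.exp (-(s * 2)) :=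
        mul_le_mul_of_nonneg_right h3 (Real.exp_pos _).le
    _ = Real.exp (x + 2 * x ^ 2 - s * 2) := by rw [← Real.exp_add]; ring_nf
    _ ≤ Real.exp (32 * s ^ 2) := by
        apply Real.exp_le_exp.2
        have e4 : x - s * 2 = x * (1 - 2 * p) := by rw [hsx]; ring
        have e5 : x * (1 - 2 * p) ≤ x * (4 * s) := mul_le_mul_of_nonneg_left (by linarith) hx0
        nlinarith [mul_le_mul_of_nonneg_right hx2 h0.le, mul_le_mul hx2 hx2 hx0 (by positivity)]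

lemma hf_an2 {s p : ℝ} (h0 : 0 < s) (h1 : s ≤ 1 / 20) (hp : |p - 1 / 2| ≤ 2 * s) :
    p / (p + s) * Real.exp (s * 2) ≤ Real.exp (32 * s ^ 2) := by
  rw [abs_le] at hp
  have hp1 : 2 / 5 ≤ p := by linarith
  have hp0 : 0 < p := by linarith
  have hps : 0 < p + s := by linarith
  set x := s / p with hx
  have hx0 : 0 ≤ x := by positivity
  have hx1 : x ≤ 1 / 5 := by rw [hx, div_le_iff₀ hp0]; linarith
  have hsx : s = x * p := by rw [hx]; field_simp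
  have hx2 : x ≤ 5 / 2 * s := by rw [hx, div_le_iff₀ hp0]; nlinarith
  have h2 := hf_an0' hx0 hx1
  have h3 : p / (p + s) ≤ Real.exp (-x + x ^ 2) := by
    have e1 : Real.exp (-x + x ^ 2) * Real.exp (x - x ^ 2) = 1 := by
      rw [← Real.exp_add]; simp
    have e2 : 1 ≤ Real.exp (-x + x ^ 2) * (1 + x) := by
      calc (1 : ℝ) = Real.exp (-x + x ^ 2) * Real.exp (x - x ^ 2) := e1.symm
        _ ≤ _ := mul_le_mul_of_nonneg_left h2 (Real.exp_pos _).le
    rw [div_le_iff₀ hps]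
    have e3 : p + s = p * (1 + x) := by rw [hsx]; ring
    rw [e3]
    nlinarith
  calc p / (p + s) * Real.exp (s * 2) ≤ Real.exp (-x + x ^ 2) * Real.exp (s * 2) :=
        mul_le_mul_of_nonneg_right h3 (Real.exp_pos _).le
    _ = Real.exp (-x + x ^ 2 + s * 2) := by rw [← Real.exp_add]
    _ ≤ Real.exp (32 * s ^ 2) := by
        apply Real.exp_le_exp.2
        have e4 : -x + s * 2 = x * (2 * p - 1) := by rw [hsx]; ring
        have e5 : x * (2 * p - 1) ≤ x * (4 * s) := mul_le_mul_of_nonneg_left (by linarith) hx0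
        nlinarith [mul_le_mul_of_nonneg_right hx2 h0.le, mul_le_mul hx2 hx2 hx0 (by positivity)]

section walks
variable {Ω : Type} [MeasurableSpace Ω] {P : Measure Ω} [IsProbabilityMeasure P]

/-- Upward maximal inequality at scale `u`. -/
lemma hf_up (hRW : RWUp) {n : ℕ} {g : ℕ → Ω → ℝ} {p ε u : ℝ} (y : ℝ) (hg : IIDExp P n g p)
    (hu : 1 ≤ u) (hε : 0 < ε) (hε' : ε ≤ 1 / 20) (hp : |p - 1 / 2| ≤ 2 * ε / u) :
    P.real {ω | ∃ z ≤ n, y ≤ ∑ i ∈ Finset.range z, (g i ω - 2)}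
      ≤ Real.exp (-(ε / u * y) + n * (32 * ε ^ 2 / u ^ 2)) := by
  have hu0 : 0 < u := by linarith
  have hs : 0 < ε / u := by positivity
  have hs1 : ε / u ≤ 1 / 20 := by
    rw [div_le_iff₀ hu0]; nlinarith
  have hp' : |p - 1 / 2| ≤ 2 * (ε / u) := by rw [← mul_div_assoc]; exact hp
  have hp2 := abs_le.1 hp'
  have e : 32 * ε ^ 2 / u ^ 2 = 32 * (ε / u) ^ 2 := by rw [div_pow, mul_div_assoc]
  rw [e]
  exact hRW Ω P n g p (ε / u) 2 _ y hg hs (by linarith) (by positivity) (hf_an1 hs hs1 hp')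

/-- Downward maximal inequality at scale `u`. -/
lemma hf_down (hRW : RWDown) {n : ℕ} {g : ℕ → Ω → ℝ} {p ε u : ℝ} (y : ℝ) (hg : IIDExp P n g p)
    (hu : 1 ≤ u) (hε : 0 < ε) (hε' : ε ≤ 1 / 20) (hp : |p - 1 / 2| ≤ 2 * ε / u) :
    P.real {ω | ∃ z ≤ n, y ≤ ∑ i ∈ Finset.range z, (2 - g i ω)}
      ≤ Real.exp (-(ε / u * y) + n * (32 * ε ^ 2 / u ^ 2)) := by
  have hu0 : 0 < u := by linarith
  have hs : 0 < ε / u := by positivity
  have hs1 : ε / u ≤ 1 / 20 := by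
    rw [div_le_iff₀ hu0]; nlinarith
  have hp' : |p - 1 / 2| ≤ 2 * (ε / u) := by rw [← mul_div_assoc]; exact hp
  have hp2 := abs_le.1 hp'
  have e : 32 * ε ^ 2 / u ^ 2 = 32 * (ε / u) ^ 2 := by rw [div_pow, mul_div_assoc]
  rw [e]
  exact hRW Ω P n g p (ε / u) 2 _ y hg hs (by linarith) (by positivity) (hf_an2 hs hs1 hp')

end walks

/-! ## Powers of `m` -/

lemma hf_pow {m : ℕ} (hm : 1 ≤ m) : ∃ u : ℝ, 1 ≤ u ∧ u ^ 3 = m ∧ (m : ℝ) ^ ((1 : ℝ) / 3) = u ∧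
    (m : ℝ) ^ (-(1 : ℝ) / 3) = u⁻¹ ∧ (m : ℝ) ^ ((2 : ℝ) / 3) = u ^ 2 ∧
    (m : ℝ) ^ (-(2 : ℝ) / 3) = (u ^ 2)⁻¹ := by
  have hm1 : (1 : ℝ) ≤ m := by exact_mod_cast hm
  have hm0 : (0 : ℝ) ≤ m := by linarith
  refine ⟨(m : ℝ) ^ ((1 : ℝ) / 3), Real.one_le_rpow hm1 (by norm_num), ?_, rfl, ?_, ?_, ?_⟩
  · rw [← Real.rpow_natCast, ← Real.rpow_mul hm0]; norm_num
  · rw [← Real.rpow_neg hm0]; norm_num
  · rw [← Real.rpow_natCast, ← Real.rpow_mul hm0]; norm_num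
  · rw [← Real.rpow_natCast, ← Real.rpow_mul hm0, ← Real.rpow_neg hm0]; norm_num

/-! ## Telescoping -/

lemma hf_tele {m : ℕ} {g G : ℕ → ℝ} (h : ∀ z, 1 ≤ z → z + 1 ≤ m → g (z - 1) ≤ G z - G (z + 1))
    {k : ℕ} (hk : 1 ≤ k) : ∀ d : ℕ, k + d ≤ m →
    ∑ i ∈ Finset.range d, g (k - 1 + i) ≤ G k - G (k + d) := by
  intro d
  induction d with
  | zero => intro _; simp
  | succ d ih =>
    intro hd
    rw [Finset.sum_range_succ]
    have h1 := ih (by omega)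
    have h2 := h (k + d) (by omega) (by omega)
    rw [show k + d - 1 = k - 1 + d by omega] at h2
    rw [show k + (d + 1) = k + d + 1 by ring]
    linarith

/-- Comparison of `f z + G z` with the value at `k ≤ z`. -/
lemma hf_cmp {m : ℕ} {g ξ G : ℕ → ℝ} (h : ∀ z, 1 ≤ z → z + 1 ≤ m → g (z - 1) ≤ G z - G (z + 1))
    {k z : ℕ} (hk : 1 ≤ k) (hkz : k ≤ z) (hz : z ≤ m) :
    ∑ i ∈ Finset.range z, ξ i + G z ≤ ∑ i ∈ Finset.range k, ξ i + G k
      + ∑ i ∈ Finset.range (z - k), (ξ (k + i) - 2)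
      + ∑ i ∈ Finset.range (z - k), (2 - g (k - 1 + i)) := by
  have h1 := hf_tele h hk (z - k) (by omega)
  rw [show k + (z - k) = z by omega] at h1
  have h2 : ∑ i ∈ Finset.range z, ξ i = ∑ i ∈ Finset.range k, ξ i
      + ∑ i ∈ Finset.range (z - k), ξ (k + i) := by
    rw [← Finset.sum_range_add]
    congr 2; omega
  rw [h2, Finset.sum_sub_distrib, Finset.sum_sub_distrib]
  linarith


/-! ## One ring -/

lemma hf_ring (hU : RWUp) (hD : RWDown) (hRI : RevIncr) {CU : ℝ} (hCU : 1 ≤ CU)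
    (hRev : ∀ (Ω : Type) [MeasurableSpace Ω] (P : Measure Ω) (E : ℤ × ℤ → Ω → ℝ), Env P E →
      ∀ m z : ℕ, 1 ≤ z → z ≤ m → ∀ α : ℝ, |α - 1 / 2| ≤ (m : ℝ) ^ (-(1 : ℝ) / 3) / 8 →
      ∀ s : ℝ, 0 ≤ s →
      P.real {ω | 4 * (m : ℝ) - 2 * z - (z : ℝ) * (m : ℝ) ^ (-(1 : ℝ) / 3) / CU + s
          ≤ G1 (wgt (cH α) E ω) m z}
        ≤ CU * Real.exp (-(s * (m : ℝ) ^ (-(1 : ℝ) / 3)) / CU
            - (z : ℝ) * (m : ℝ) ^ (-(2 : ℝ) / 3) / CU))
    {ε : ℝ} (hε : 0 < ε) (hε2 : ε * (512 * CU) ≤ 1)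
    {Ω : Type} [MeasurableSpace Ω] {P : Measure Ω} {E : ℤ × ℤ → Ω → ℝ} (hE : Env P E)
    {m : ℕ} (hm : 1 ≤ m) {u : ℝ} (hu : 1 ≤ u)
    (hum : (m : ℝ) ^ (-(1 : ℝ) / 3) = u⁻¹) (hum2 : (m : ℝ) ^ (-(2 : ℝ) / 3) = (u ^ 2)⁻¹)
    {α lam : ℝ} (hα : |α - 1 / 2| ≤ ε / u) (hlam : |lam - 1 / 2| ≤ 2 * ε / u)
    {ξ : ℕ → Ω → ℝ} (hξ : IIDExp P m ξ lam) {l : ℕ} (hl : 1 ≤ l) :
    P.real {ω | ∃ z : ℕ, (l : ℝ) * u ^ 2 ≤ z ∧ z ≤ m ∧ (z : ℝ) < ((l : ℝ) + 1) * u ^ 2 ∧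
        4 * (m : ℝ) - (z : ℝ) * u⁻¹ / (4 * CU)
          ≤ ∑ i ∈ Finset.range z, ξ i ω + G1 (wgt (cH α) E ω) m z}
      ≤ (CU + 7) * Real.exp (-(ε / (16 * CU)) * l) := by
  have := hE.prob
  have hu0 : 0 < u := by linarith
  have hCU0 : 0 < CU := by linarith
  have hu2 : 1 ≤ u ^ 2 := by nlinarith
  have hl1 : (1 : ℝ) ≤ l := by exact_mod_cast hl
  have hε512 : ε ≤ 1 / 512 := by nlinarith
  have hεu : ε / u ≤ ε := by rw [div_le_iff₀ hu0]; nlinarith
  have hα' := abs_le.1 hα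
  have h2εu : 2 * ε / u ≤ 2 * ε := by rw [div_le_iff₀ hu0]; nlinarith
  have hlam' := abs_le.1 hlam
  have hα0 : 0 < α := by linarith
  have hα1 : α < 1 := by linarith
  have hlam0 : 0 < lam := by linarith
  set k : ℕ := ⌈(l : ℝ) * u ^ 2⌉₊ with hk
  have hkl : (l : ℝ) * u ^ 2 ≤ k := Nat.le_ceil _
  have hk1 : 1 ≤ k := by
    rw [hk, Nat.one_le_ceil_iff]; positivity
  by_cases hkm : k ≤ m
  swap
  · have : {ω | ∃ z : ℕ, (l : ℝ) * u ^ 2 ≤ z ∧ z ≤ m ∧ (z : ℝ) < ((l : ℝ) + 1) * u ^ 2 ∧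
        4 * (m : ℝ) - (z : ℝ) * u⁻¹ / (4 * CU)
          ≤ ∑ i ∈ Finset.range z, ξ i ω + G1 (wgt (cH α) E ω) m z} = ∅ := by
      ext ω
      simp only [Set.mem_ofPred_eq, Set.mem_empty_iff_false, iff_false]
      rintro ⟨z, hz1, hz2, -, -⟩
      exact hkm ((Nat.ceil_le.2 hz1).trans hz2)
    rw [this, measureReal_empty]
    positivity
  obtain ⟨g, hg, hgae⟩ := hRI Ω P E hE m hm α hα0 hα1
  set n : ℕ := min (m - k) ⌊u ^ 2⌋₊ with hn
  have hnu : (n : ℝ) ≤ u ^ 2 :=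
    (Nat.cast_le.2 (min_le_right _ _)).trans (Nat.floor_le (by positivity))
  have hnm : n ≤ m - k := min_le_left _ _
  set y : ℝ := k * u⁻¹ / (8 * CU) with hy
  set N : Set Ω := {ω | ¬ ∀ z : ℕ, 1 ≤ z → z + 1 ≤ m →
      g (z - 1) ω ≤ G1 (wgt (cH α) E ω) m z - G1 (wgt (cH α) E ω) m (z + 1)} with hN
  have hN0 : P.real N = 0 := by
    rw [measureReal_def, hN]
    have : P {ω | ¬ ∀ z : ℕ, 1 ≤ z → z + 1 ≤ m →
      g (z - 1) ω ≤ G1 (wgt (cH α) E ω) m z - G1 (wgt (cH α) E ω) m (z + 1)} = 0 :=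
      ae_iff.1 hgae
    rw [this]; simp
  set A1 : Set Ω := {ω | 4 * (m : ℝ) - 2 * k - (k : ℝ) * (m : ℝ) ^ (-(1 : ℝ) / 3) / CU + 0
      ≤ G1 (wgt (cH α) E ω) m k} with hA1
  set A2 : Set Ω := {ω | ∃ z ≤ k, y ≤ ∑ i ∈ Finset.range z, (ξ (0 + i) ω - 2)} with hA2
  set A3 : Set Ω := {ω | ∃ z ≤ n, y ≤ ∑ i ∈ Finset.range z, (ξ (k + i) ω - 2)} with hA3
  set A4 : Set Ω := {ω | ∃ z ≤ n, y ≤ ∑ i ∈ Finset.range z, (2 - g (k - 1 + i) ω)} with hA4
  have hsub : {ω | ∃ z : ℕ, (l : ℝ) * u ^ 2 ≤ z ∧ z ≤ m ∧ (z : ℝ) < ((l : ℝ) + 1) * u ^ 2 ∧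
        4 * (m : ℝ) - (z : ℝ) * u⁻¹ / (4 * CU)
          ≤ ∑ i ∈ Finset.range z, ξ i ω + G1 (wgt (cH α) E ω) m z}
      ⊆ N ∪ (A1 ∪ (A2 ∪ (A3 ∪ A4))) := by
    rintro ω ⟨z, hz1, hz2, hz3, hz4⟩
    by_contra hcon
    simp only [Set.mem_union, not_or] at hcon
    obtain ⟨c0, c1, c2, c3, c4⟩ := hcon
    simp only [hN, Set.mem_ofPred_eq, not_not] at c0
    simp only [hA1, Set.mem_ofPred_eq, not_le, hum, add_zero] at c1
    simp only [hA2, Set.mem_ofPred_eq, not_exists, not_and, not_le, zero_add] at c2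
    simp only [hA3, Set.mem_ofPred_eq, not_exists, not_and, not_le] at c3
    simp only [hA4, Set.mem_ofPred_eq, not_exists, not_and, not_le] at c4
    have hkz : k ≤ z := Nat.ceil_le.2 hz1
    have hzk : z - k ≤ n := by
      rw [hn, le_min_iff]
      refine ⟨by omega, ?_⟩
      rw [Nat.le_floor_iff (by positivity), Nat.cast_sub hkz]
      nlinarith
    have d1 := hf_cmp (g := fun i => g i ω) (ξ := fun i => ξ i ω)
      (G := fun z => G1 (wgt (cH α) E ω) m z) c0 hk1 hkz hz2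
    have d2 := c2 k le_rfl
    have d3 := c3 _ hzk
    have d4 := c4 _ hzk
    rw [Finset.sum_sub_distrib, Finset.sum_const, Finset.card_range, nsmul_eq_mul] at d2
    have d5 : (z : ℝ) ≤ 2 * k := by nlinarith
    have hv : 0 < u⁻¹ := by positivity
    have d6 : (z : ℝ) * u⁻¹ / (4 * CU) ≤ 5 * y := by
      rw [hy, mul_div_assoc', div_le_div_iff₀ (by positivity) (by positivity)]
      have : (z : ℝ) * u⁻¹ ≤ 2 * k * u⁻¹ := mul_le_mul_of_nonneg_right d5 hv.le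
      have hk0 : (0 : ℝ) ≤ k * u⁻¹ := by positivity
      nlinarith
    have d7 : (k : ℝ) * u⁻¹ / CU = 8 * y := by rw [hy]; field_simp
    rw [d7] at c1
    linarith
  have hkd : (l : ℝ) ≤ k / u ^ 2 := by rw [le_div_iff₀ (by positivity)]; exact hkl
  have hyk : ε / u * y = (k / u ^ 2) * (ε / (8 * CU)) := by rw [hy]; field_simp
  have hc0 : 0 < ε / (16 * CU) := by positivity
  have hc8 : ε / (8 * CU) = 2 * (ε / (16 * CU)) := by field_simp; norm_num
  have h32 : 32 * ε ^ 2 ≤ ε / (16 * CU) := by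
    rw [le_div_iff₀ (by positivity)]; nlinarith
  have p1 : P.real A1 ≤ CU * Real.exp (-(ε / (16 * CU)) * l) := by
    have hα8 : |α - 1 / 2| ≤ (m : ℝ) ^ (-(1 : ℝ) / 3) / 8 := by
      rw [hum]
      refine hα.trans ?_
      rw [div_le_iff₀ hu0]
      field_simp
      linarith
    refine (hRev Ω P E hE m k hk1 hkm α hα8 0 le_rfl).trans ?_
    apply mul_le_mul_of_nonneg_left _ hCU0.le
    apply Real.exp_le_exp.2
    rw [hum2]
    have e1 : (k : ℝ) * (u ^ 2)⁻¹ / CU = (k / u ^ 2) * (1 / CU) := by field_simp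
    have e2 : ε / (16 * CU) ≤ 1 / CU := by
      rw [div_le_div_iff₀ (by positivity) hCU0]; nlinarith
    have e3 : ε / (16 * CU) * l ≤ (k / u ^ 2) * (1 / CU) := by
      rw [mul_comm]
      exact mul_le_mul hkd e2 hc0.le (by positivity)
    rw [e1]
    have : -(0 * (m : ℝ) ^ (-(1 : ℝ) / 3)) / CU = 0 := by simp
    rw [this]
    linarith
  have p2 : P.real A2 ≤ Real.exp (-(ε / (16 * CU)) * l) := by
    refine (hf_up hU y (hf_iid_sub hlam0 hξ 0 k (by omega)) hu hε (by linarith) hlam).trans ?_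
    apply Real.exp_le_exp.2
    rw [hyk]
    have e1 : (k : ℝ) * (32 * ε ^ 2 / u ^ 2) = (k / u ^ 2) * (32 * ε ^ 2) := by ring
    rw [e1, hc8]
    have e2 : (k / u ^ 2) * (32 * ε ^ 2) ≤ (k / u ^ 2) * (ε / (16 * CU)) :=
      mul_le_mul_of_nonneg_left h32 (by positivity)
    have e3 : (l : ℝ) * (ε / (16 * CU)) ≤ (k / u ^ 2) * (ε / (16 * CU)) :=
      mul_le_mul_of_nonneg_right hkd hc0.le
    nlinarith
  have p34 : Real.exp (-(ε / u * y) + n * (32 * ε ^ 2 / u ^ 2))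
      ≤ 3 * Real.exp (-(ε / (16 * CU)) * l) := by
    have e0 : -(ε / u * y) + n * (32 * ε ^ 2 / u ^ 2) ≤ 1 + -(ε / (16 * CU)) * l := by
      rw [hyk, hc8]
      have e1 : (n : ℝ) * (32 * ε ^ 2 / u ^ 2) = (n / u ^ 2) * (32 * ε ^ 2) := by ring
      have e2 : (n : ℝ) / u ^ 2 ≤ 1 := by rw [div_le_one (by positivity)]; exact hnu
      have e3 : (l : ℝ) * (ε / (16 * CU)) ≤ (k / u ^ 2) * (ε / (16 * CU)) :=
        mul_le_mul_of_nonneg_right hkd hc0.le
      have e4 : (0 : ℝ) ≤ (k / u ^ 2) * (ε / (16 * CU)) := by positivity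
      have e5 : (n / u ^ 2) * (32 * ε ^ 2) ≤ 1 * (32 * ε ^ 2) :=
        mul_le_mul_of_nonneg_right e2 (by positivity)
      rw [e1]
      nlinarith
    refine (Real.exp_le_exp.2 e0).trans ?_
    rw [Real.exp_add]
    exact mul_le_mul_of_nonneg_right (by linarith [Real.exp_one_lt_d9]) (Real.exp_pos _).le
  have p3 : P.real A3 ≤ 3 * Real.exp (-(ε / (16 * CU)) * l) :=
    (hf_up hU y (hf_iid_sub hlam0 hξ k n (by omega)) hu hε (by linarith) hlam).trans p34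
  have p4 : P.real A4 ≤ 3 * Real.exp (-(ε / (16 * CU)) * l) := by
    refine (hf_down hD y (hf_iid_sub hα0 hg (k - 1) n (by omega)) hu hε (by linarith)
      (hα.trans ?_)).trans p34
    rw [div_le_div_iff_of_pos_right hu0]; linarith
  calc P.real _ ≤ P.real (N ∪ (A1 ∪ (A2 ∪ (A3 ∪ A4)))) := measureReal_mono hsub
    _ ≤ P.real N + (P.real A1 + (P.real A2 + (P.real A3 + P.real A4))) := by
        refine (measureReal_union_le _ _).trans (add_le_add le_rfl ?_)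
        refine (measureReal_union_le _ _).trans (add_le_add le_rfl ?_)
        refine (measureReal_union_le _ _).trans (add_le_add le_rfl ?_)
        exact measureReal_union_le _ _
    _ ≤ (CU + 7) * Real.exp (-(ε / (16 * CU)) * l) := by
        rw [hN0]; linarith

lemma hf_trivial {C K B : ℝ} (hC : 1 + B ≤ C) (hB : 0 ≤ B) (hK : K ≤ B) :
    1 ≤ C * Real.exp (-K / C) := by
  have hC0 : 0 < C := by linarith
  have h1 : 1 - K / C ≤ Real.exp (-K / C) := by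
    have := Real.add_one_le_exp (-K / C)
    rw [neg_div] at this ⊢
    linarith
  have h2 : C * (1 - K / C) = C - K := by field_simp
  nlinarith [mul_le_mul_of_nonneg_left h1 hC0.le]

theorem t_ExitTail (hU : RWUp) (hD : RWDown) (hRev : UpperRev) (hRI : RevIncr) : ExitTail := by
  obtain ⟨CU, hCU, hRev⟩ := hRev
  have hCU0 : 0 < CU := by linarith
  set ε : ℝ := 1 / (512 * CU) with hεdef
  have hε : 0 < ε := by positivity
  have hε2 : ε * (512 * CU) ≤ 1 := by rw [hεdef]; field_simp; exact le_rfl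
  set c : ℝ := ε / (16 * CU) with hc
  have hc0 : 0 < c := by positivity
  set r : ℝ := Real.exp (-c) with hr
  have hr0 : 0 < r := Real.exp_pos _
  have hr1 : r < 1 := by rw [hr, Real.exp_lt_one_iff]; linarith
  set D : ℝ := (CU + 7) * Real.exp c / (1 - r) with hDdef
  have hD0 : 0 < D := by
    have : 0 < 1 - r := by linarith
    positivity
  set C : ℝ := 4 * CU + 1 / c + D + 2 with hCdef
  have hic : 0 < 1 / c := by positivity
  have hC0 : 0 < C := by linarith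
  refine ⟨ε, hε, C, hC0, ?_⟩
  intro Ω _ P E hE m hm α lam hα hlam ξ hξ K hK
  have := hE.prob
  obtain ⟨u, hu, hu3, hum13, hum, hum23, hum2⟩ := hf_pow hm
  have hu0 : 0 < u := by linarith
  have hu2 : 1 ≤ u ^ 2 := by nlinarith
  rw [hum] at hα hlam
  rw [hum, hum23]
  rw [← div_eq_mul_inv] at hα hlam
  rcases le_or_gt K 1 with hK1 | hK1
  · exact (measureReal_le_one).trans (hf_trivial (by linarith) zero_le_one hK1)
  set L0 : ℕ := ⌊K⌋₊ with hL0
  have hL01 : 1 ≤ L0 := by rw [hL0, Nat.one_le_floor_iff]; exact hK1.le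
  have hL0K : K - 1 ≤ L0 := by
    have := Nat.lt_floor_add_one K
    linarith
  set R : ℕ → Set Ω := fun l => {ω | ∃ z : ℕ, (l : ℝ) * u ^ 2 ≤ z ∧ z ≤ m ∧
      (z : ℝ) < ((l : ℝ) + 1) * u ^ 2 ∧
      4 * (m : ℝ) - (z : ℝ) * u⁻¹ / (4 * CU)
        ≤ ∑ i ∈ Finset.range z, ξ i ω + G1 (wgt (cH α) E ω) m z} with hR
  have hsub : {ω | ∃ z : ℕ, 1 ≤ z ∧ z ≤ m ∧ K * u ^ 2 ≤ z ∧
      4 * (m : ℝ) - (z : ℝ) * u⁻¹ / C
        ≤ ∑ i ∈ Finset.range z, ξ i ω + G1 (wgt (cH α) E ω) m z}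
      ⊆ ⋃ l ∈ Finset.Ico L0 (m + 1), R l := by
    rintro ω ⟨z, hz1, hz2, hz3, hz4⟩
    have hz0 : (0 : ℝ) ≤ z / u ^ 2 := by positivity
    simp only [Set.mem_iUnion]
    refine ⟨⌊(z : ℝ) / u ^ 2⌋₊, ?_, z, ?_, hz2, ?_, ?_⟩
    · rw [Finset.mem_Ico]
      constructor
      · apply Nat.floor_mono
        rw [le_div_iff₀ (by positivity)]; exact hz3
      · rw [Nat.lt_succ_iff]
        have h1 : (z : ℝ) / u ^ 2 ≤ m := by
          rw [div_le_iff₀ (by positivity)]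
          have : (z : ℝ) ≤ m := by exact_mod_cast hz2
          nlinarith [(Nat.cast_nonneg m : (0 : ℝ) ≤ m)]
        exact Nat.floor_le_of_le h1
    · have := Nat.floor_le hz0
      rwa [le_div_iff₀ (by positivity)] at this
    · have := Nat.lt_floor_add_one ((z : ℝ) / u ^ 2)
      rwa [div_lt_iff₀ (by positivity)] at this
    · refine le_trans ?_ hz4
      have : (z : ℝ) * u⁻¹ / C ≤ (z : ℝ) * u⁻¹ / (4 * CU) :=
        div_le_div_of_nonneg_left (by positivity) (by positivity) (by linarith)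
      linarith
  have hring : ∀ l ∈ Finset.Ico L0 (m + 1), P.real (R l) ≤ (CU + 7) * r ^ l := by
    intro l hl
    rw [Finset.mem_Ico] at hl
    have h1 := hf_ring hU hD hRI hCU hRev hε hε2 hE hm hu hum hum2 hα hlam hξ
      (l := l) (by omega)
    refine h1.trans (le_of_eq ?_)
    rw [hr, ← Real.exp_nat_mul]
    congr 2
    rw [hc]; ring
  calc P.real _ ≤ P.real (⋃ l ∈ Finset.Ico L0 (m + 1), R l) :=
        measureReal_mono hsub (measure_ne_top _ _)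
    _ ≤ ∑ l ∈ Finset.Ico L0 (m + 1), P.real (R l) := measureReal_biUnion_finset_le _ _
    _ ≤ ∑ l ∈ Finset.Ico L0 (m + 1), (CU + 7) * r ^ l := Finset.sum_le_sum hring
    _ = (CU + 7) * ∑ l ∈ Finset.Ico L0 (m + 1), r ^ l := by rw [Finset.mul_sum]
    _ ≤ (CU + 7) * (r ^ L0 / (1 - r)) :=
        mul_le_mul_of_nonneg_left (geom_sum_Ico_le_of_lt_one hr0.le hr1) (by linarith)
    _ ≤ (CU + 7) * (Real.exp c * Real.exp (-(c * K)) / (1 - r)) := by
        apply mul_le_mul_of_nonneg_left _ (by linarith)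
        apply div_le_div_of_nonneg_right _ (by linarith)
        rw [hr, ← Real.exp_nat_mul, ← Real.exp_add]
        apply Real.exp_le_exp.2
        nlinarith
    _ = D * Real.exp (-(c * K)) := by rw [hDdef]; ring
    _ ≤ C * Real.exp (-K / C) := by
        apply mul_le_mul (by linarith) _ (Real.exp_pos _).le hC0.le
        apply Real.exp_le_exp.2
        rw [neg_div, neg_le_neg_iff, div_le_iff₀ hC0]
        have : 1 ≤ c * C := by
          have h1 : c * (1 / c) = 1 := by field_simp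
          have h2 : 0 < c * (4 * CU + D + 2) := by positivity
          rw [hCdef]; nlinarith
        nlinarith


lemma hf_cmp1 {m : ℕ} {g ξ G : ℕ → ℝ} (h : ∀ z, 1 ≤ z → z + 1 ≤ m → g (z - 1) ≤ G z - G (z + 1))
    {z : ℕ} (hk : 1 ≤ z) (hz : z ≤ m) :
    ∑ i ∈ Finset.range z, ξ i + G z ≤ G 1 + 2 + ∑ i ∈ Finset.range z, (ξ i - 2)
      + ∑ i ∈ Finset.range (z - 1), (2 - g i) := by
  have h1 := hf_tele h le_rfl (z - 1) (by omega)
  rw [show 1 + (z - 1) = z by omega] at h1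
  simp only [le_refl, tsub_eq_zero_of_le, zero_add] at h1
  rw [Finset.sum_sub_distrib, Finset.sum_sub_distrib]
  simp only [Finset.sum_const, Finset.card_range, nsmul_eq_mul]
  rw [Nat.cast_sub hk]
  push_cast
  linarith

lemma hf_null {Ω : Type} [MeasurableSpace Ω] {P : Measure Ω} {p : Ω → Prop} (h : ∀ᵐ ω ∂P, p ω) :
    P.real {ω | ¬ p ω} = 0 := by
  rw [measureReal_def, ae_iff.1 h]; simp

lemma hf_exp_le {θ X C : ℝ} (hθ : 0 ≤ θ) (hX : 0 < X) (hC : X ≤ C) :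
    Real.exp (-θ / X) ≤ Real.exp (-θ / C) := by
  apply Real.exp_le_exp.2
  rw [neg_div, neg_div, neg_le_neg_iff]
  exact div_le_div_of_nonneg_left hθ hX hC

/-- The exponent of the walks run for `B u²` steps. -/
lemma hf_expo {κ u θ A : ℝ} {n : ℕ} (hu : 1 ≤ u) (hκ : 0 < κ) (hθ : 0 ≤ θ) (hA : 0 < A)
    (hκA : κ * (256 * A) ≤ 1) (hn : (n : ℝ) ≤ A * θ * u ^ 2) :
    Real.exp (-(κ / u * (θ * u / 4)) + n * (32 * κ ^ 2 / u ^ 2)) ≤ Real.exp (-θ / (8 / κ)) := by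
  have hu0 : 0 < u := by linarith
  apply Real.exp_le_exp.2
  have e1 : κ / u * (θ * u / 4) = κ * θ / 4 := by field_simp
  have e2 : (n : ℝ) * (32 * κ ^ 2 / u ^ 2) ≤ A * θ * u ^ 2 * (32 * κ ^ 2 / u ^ 2) :=
    mul_le_mul_of_nonneg_right hn (by positivity)
  have e3 : A * θ * u ^ 2 * (32 * κ ^ 2 / u ^ 2) = 32 * A * θ * κ ^ 2 := by field_simp
  have e4 : -θ / (8 / κ) = -(κ * θ / 8) := by field_simp
  rw [e1, e4]
  rw [e3] at e2
  nlinarith [mul_le_mul_of_nonneg_right hκA (mul_nonneg hκ.le hθ)]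

theorem t_StatUpper (hU : RWUp) (hD : RWDown) (hRev : UpperRev) (hRI : RevIncr)
    (hEx : ExitTail) : StatUpper := by
  obtain ⟨CU, hCU, hRev⟩ := hRev
  obtain ⟨κE, hκE, CE, hCE, hEx⟩ := hEx
  have hCU0 : 0 < CU := by linarith
  set κ : ℝ := min κE (1 / 256) with hκdef
  have hκ : 0 < κ := lt_min hκE (by norm_num)
  have hκ1 : κ ≤ κE := min_le_left _ _
  have hκ2 : κ ≤ 1 / 256 := min_le_right _ _
  have hiκ : 0 < 8 / κ := by positivity
  refine ⟨κ, hκ, CE + 4 * CU + 8 / κ + 2, by positivity, ?_⟩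
  intro Ω _ P E hE m hm α lam hα hlam ξ hξ θ hθ
  have := hE.prob
  obtain ⟨u, hu, hu3, hum13, hum, hum23, hum2⟩ := hf_pow hm
  have hu0 : 0 < u := by linarith
  have hv0 : 0 < u⁻¹ := by positivity
  have hv1 : u⁻¹ ≤ 1 := inv_le_one_of_one_le₀ hu
  have hαE : |α - 1 / 2| ≤ κE * (m : ℝ) ^ (-(1 : ℝ) / 3) := by
    refine hα.trans (mul_le_mul_of_nonneg_right hκ1 ?_)
    rw [hum]; exact hv0.le
  have hlamE : |lam - 1 / 2| ≤ 2 * κE * (m : ℝ) ^ (-(1 : ℝ) / 3) := by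
    refine hlam.trans (mul_le_mul_of_nonneg_right (by linarith) ?_)
    rw [hum]; exact hv0.le
  have hex := hEx Ω P E hE m hm α lam hαE hlamE ξ hξ θ hθ
  rw [hum, hum23] at hex
  rw [hum] at hα hlam
  rw [hum13]
  have hα' := abs_le.1 hα
  have hlam' := abs_le.1 hlam
  have hκv : κ * u⁻¹ ≤ κ := by nlinarith
  have h2κv : 2 * κ * u⁻¹ ≤ 2 * κ := by nlinarith
  have hα0 : 0 < α := by linarith
  have hα1 : α < 1 := by linarith
  have hlam0 : 0 < lam := by linarith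
  obtain ⟨g, hg, hgae⟩ := hRI Ω P E hE m hm α hα0 hα1
  have hr := hRev Ω P E hE m 1 le_rfl hm α (by rw [hum]; nlinarith) (θ * u / 4) (by positivity)
  rw [hum, hum2] at hr
  have hr2 : CU * Real.exp (-(θ * u / 4 * u⁻¹) / CU - ((1 : ℕ) : ℝ) * (u ^ 2)⁻¹ / CU)
      ≤ CU * Real.exp (-θ / (4 * CU)) := by
    apply mul_le_mul_of_nonneg_left _ hCU0.le
    apply Real.exp_le_exp.2
    have e1 : θ * u / 4 * u⁻¹ = θ / 4 := by field_simp
    have e2 : 0 ≤ ((1 : ℕ) : ℝ) * (u ^ 2)⁻¹ / CU := by positivity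
    have e3 : -(θ / 4) / CU = -θ / (4 * CU) := by field_simp
    rw [e1, e3]
    linarith
  set n : ℕ := min m ⌊θ * u ^ 2⌋₊ with hn
  have hnu : (n : ℝ) ≤ 1 * θ * u ^ 2 := by
    rw [one_mul]
    exact (Nat.cast_le.2 (min_le_right _ _)).trans (Nat.floor_le (by positivity))
  have hnm : n ≤ m := min_le_left _ _
  have hpx : P.real {ω | ∃ z ≤ n, θ * u / 4 ≤ ∑ i ∈ Finset.range z, (ξ (0 + i) ω - 2)}
      ≤ Real.exp (-θ / (8 / κ)) := by
    refine (hf_up hU _ (hf_iid_sub hlam0 hξ 0 n (by omega)) hu hκ (by linarith) ?_).trans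
      (hf_expo hu hκ hθ one_pos (by linarith) hnu)
    rw [div_eq_mul_inv]; exact hlam
  have hpg : P.real {ω | ∃ z ≤ n, θ * u / 4 ≤ ∑ i ∈ Finset.range z, (2 - g (0 + i) ω)}
      ≤ Real.exp (-θ / (8 / κ)) := by
    have hκu : κ * u⁻¹ ≤ 2 * κ / u := by rw [div_eq_mul_inv]; nlinarith [mul_pos hκ hv0]
    exact (hf_down hD _ (hf_iid_sub hα0 hg 0 n (by omega)) hu hκ (by linarith)
      (hα.trans hκu)).trans (hf_expo hu hκ hθ one_pos (by linarith) hnu)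
  have hsub : {ω | ∃ z : ℕ, 1 ≤ z ∧ z ≤ m ∧ 4 * (m : ℝ) + θ * u
        ≤ ∑ i ∈ Finset.range z, ξ i ω + G1 (wgt (cH α) E ω) m z}
      ⊆ {ω | ¬ ∀ z : ℕ, 1 ≤ z → z + 1 ≤ m →
          g (z - 1) ω ≤ G1 (wgt (cH α) E ω) m z - G1 (wgt (cH α) E ω) m (z + 1)} ∪
        ({ω | ∃ z : ℕ, 1 ≤ z ∧ z ≤ m ∧ θ * u ^ 2 ≤ z ∧ 4 * (m : ℝ) - (z : ℝ) * u⁻¹ / CE
          ≤ ∑ i ∈ Finset.range z, ξ i ω + G1 (wgt (cH α) E ω) m z} ∪
        ({ω | 4 * (m : ℝ) - 2 * ((1 : ℕ) : ℝ) - ((1 : ℕ) : ℝ) * u⁻¹ / CU + θ * u / 4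
          ≤ G1 (wgt (cH α) E ω) m 1} ∪
        ({ω | ∃ z ≤ n, θ * u / 4 ≤ ∑ i ∈ Finset.range z, (ξ (0 + i) ω - 2)} ∪
        {ω | ∃ z ≤ n, θ * u / 4 ≤ ∑ i ∈ Finset.range z, (2 - g (0 + i) ω)}))) := by
    rintro ω ⟨z, hz1, hz2, hz3⟩
    by_contra hcon
    simp only [Set.mem_union, not_or] at hcon
    obtain ⟨c0, c1, c2, c3, c4⟩ := hcon
    simp only [Set.mem_ofPred_eq, not_not] at c0
    simp only [Set.mem_ofPred_eq, not_exists, not_and, not_le] at c1 c3 c4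
    simp only [Set.mem_ofPred_eq, not_le] at c2
    simp only [zero_add] at c3 c4
    have hθu : 0 ≤ θ * u := by positivity
    rcases le_or_gt (θ * u ^ 2) z with h | h
    · have h1 := c1 z hz1 hz2 h
      have h2 : 0 ≤ (z : ℝ) * u⁻¹ / CE := by positivity
      linarith
    · have hzn : z ≤ n := by
        rw [hn, le_min_iff]
        exact ⟨hz2, Nat.le_floor h.le⟩
      have d1 := hf_cmp1 (g := fun i => g i ω) (ξ := fun i => ξ i ω)
        (G := fun z => G1 (wgt (cH α) E ω) m z) c0 hz1 hz2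
      have d2 := c3 z hzn
      have d3 := c4 (z - 1) (by omega)
      have h2 : 0 ≤ ((1 : ℕ) : ℝ) * u⁻¹ / CU := by positivity
      push_cast at c2 h2
      linarith
  have hN := hf_null hgae
  have e1 := hf_exp_le hθ hCE (show CE ≤ CE + 4 * CU + 8 / κ + 2 by linarith)
  have e2 := hf_exp_le hθ (show 0 < 4 * CU by linarith)
    (show 4 * CU ≤ CE + 4 * CU + 8 / κ + 2 by linarith)
  have e3 := hf_exp_le hθ hiκ (show 8 / κ ≤ CE + 4 * CU + 8 / κ + 2 by linarith)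
  have e0 : 0 < Real.exp (-θ / (CE + 4 * CU + 8 / κ + 2)) := Real.exp_pos _
  refine (measureReal_mono hsub (measure_ne_top _ _)).trans ?_
  refine (measureReal_union_le _ _).trans ?_
  rw [hN, zero_add]
  refine (measureReal_union_le _ _).trans ?_
  refine (add_le_add hex ((measureReal_union_le _ _).trans (add_le_add (hr.trans hr2)
    ((measureReal_union_le _ _).trans (add_le_add hpx hpg))))).trans ?_
  set F := Real.exp (-θ / (CE + 4 * CU + 8 / κ + 2)) with hF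
  have f1 := mul_le_mul_of_nonneg_left e1 hCE.le
  have f2 := mul_le_mul_of_nonneg_left e2 hCU0.le
  have f3 : 0 ≤ (3 * CU + 8 / κ) * F := by positivity
  nlinarith


lemma hf_env_shift {Ω : Type} [MeasurableSpace Ω] {P : Measure Ω} {E : ℤ × ℤ → Ω → ℝ}
    (hE : Env P E) (a : ℤ × ℤ) : Env P (fun z => E (z + a)) where
  prob := hE.prob
  meas := fun z => hE.meas _
  indep := hE.indep.precomp (g := fun z => z + a) (add_left_injective a)
  law := fun z => hE.law _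

lemma hf_X_shift {Ω : Type} (E : ℤ × ℤ → Ω → ℝ) (ω : Ω) (α : ℝ) (s t : ℤ) (m : ℕ)
    (hm : (m : ℤ) = t - s) :
    X (wgt (cH α) E ω) s t = G1 (wgt (cH α) (fun z => E (z + (s, s))) ω) m 1 := by
  unfold X G1
  have e1 : ((s + 1, s + 1) : ℤ × ℤ) = (((1 : ℕ) : ℤ), 1) + (s, s) := by
    simp only [Prod.mk_add_mk, Nat.cast_one]; ext <;> simp only <;> ring
  have e2 : ((t, t) : ℤ × ℤ) = ((m : ℤ), (m : ℤ)) + (s, s) := by
    simp only [Prod.mk_add_mk, hm]; ext <;> simp only <;> ring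
  rw [e1, e2, L_shift, shift_Hs]
  congr 1
  funext z
  simp only [wgt, cH, Prod.fst_add, Prod.snd_add, add_left_inj]

theorem t_LowerTail (hU : RWUp) (hD : RWDown) (hRI : RevIncr) (hHR : HeavyRow)
    (hEx : ExitTail) : LowerTail := by
  obtain ⟨κE, hκE, CE, hCE, hEx⟩ := hEx
  set A : ℝ := CE + 1 with hA
  have hA0 : 0 < A := by linarith
  set κ : ℝ := min κE (1 / (256 * A)) with hκdef
  have hκ : 0 < κ := lt_min hκE (by positivity)
  have hκ1 : κ ≤ κE := min_le_left _ _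
  have hκA : κ * (256 * A) ≤ 1 := by
    have := min_le_right κE (1 / (256 * A))
    rw [le_div_iff₀ (by positivity)] at this
    exact this
  have hκ2 : κ ≤ 1 / 256 := by nlinarith
  have hiκ : 0 < 8 / κ := by positivity
  refine ⟨κ, hκ, CE + 8 / κ + 12, by positivity, ?_⟩
  intro Ω _ P E hE s t hst α hα θ hθ
  obtain ⟨m, hmst⟩ : ∃ m : ℕ, (m : ℤ) = t - s := ⟨(t - s).toNat, by omega⟩
  have hm : 1 ≤ m := by omega
  have hmR : (t : ℝ) - s = m := by
    have : ((m : ℤ) : ℝ) = ((t - s : ℤ) : ℝ) := by rw [hmst]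
    push_cast at this; linarith
  rw [hmR] at hα ⊢
  have hset : {ω | X (wgt (cH α) E ω) s t ≤ 4 * (m : ℝ) - θ * (m : ℝ) ^ ((1 : ℝ) / 3)}
      = {ω | G1 (wgt (cH α) (fun z => E (z + (s, s))) ω) m 1
          ≤ 4 * (m : ℝ) - θ * (m : ℝ) ^ ((1 : ℝ) / 3)} := by
    ext ω
    simp only [Set.mem_ofPred_eq, hf_X_shift E ω α s t m hmst]
  rw [hset]
  replace hE : Env P (fun z => E (z + (s, s))) := hf_env_shift hE _
  generalize hE' : (fun z => E (z + (s, s))) = E' at hE ⊢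
  clear hset hE' hmst hmR
  have := hE.prob
  rcases le_or_gt θ 8 with hθ8 | hθ8
  · exact (measureReal_le_one).trans (hf_trivial (by linarith) (by norm_num) hθ8)
  obtain ⟨u, hu, hu3, hum13, hum, hum23, hum2⟩ := hf_pow hm
  have hu0 : 0 < u := by linarith
  have hv0 : 0 < u⁻¹ := by positivity
  have hv1 : u⁻¹ ≤ 1 := inv_le_one_of_one_le₀ hu
  have hαE : |α - 1 / 2| ≤ κE * (m : ℝ) ^ (-(1 : ℝ) / 3) := by
    refine hα.trans (mul_le_mul_of_nonneg_right hκ1 ?_)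
    rw [hum]; exact hv0.le
  rw [hum] at hα
  rw [hum13]
  have hα' := abs_le.1 hα
  have hκv : κ * u⁻¹ ≤ κ := by nlinarith
  have hα0 : 0 < α := by linarith
  have hα1 : α < 1 := by linarith
  set b : ℝ := κ * u⁻¹ with hb
  have hb0 : 0 < b := by positivity
  have hlam0 : 0 < 1 - α - b := by linarith
  have hlam : |1 - α - b - 1 / 2| ≤ 2 * κ * u⁻¹ := by
    rw [abs_le]; constructor <;> nlinarith
  have hlamE : |1 - α - b - 1 / 2| ≤ 2 * κE * (m : ℝ) ^ (-(1 : ℝ) / 3) := by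
    refine hlam.trans ?_
    rw [hum]
    exact mul_le_mul_of_nonneg_right (by linarith) hv0.le
  set ξ : ℕ → Ω → ℝ := fun i ω => (1 - α - b)⁻¹ * E' ((i : ℤ) + 1, 0) ω with hξdef
  have hξ : IIDExp P m ξ (1 - α - b) := hf_iid_env hE m hlam0
  have hex := hEx Ω P E' hE m hm α (1 - α - b) hαE hlamE ξ hξ (A * θ) (by positivity)
  rw [hum, hum23] at hex
  have hhr := hHR Ω P E' hE m hm α b hα0 hb0 (by linarith) (θ * u / 4)
  obtain ⟨g, hg, hgae⟩ := hRI Ω P E' hE m hm α hα0 hα1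
  set n : ℕ := min m ⌊A * θ * u ^ 2⌋₊ with hn
  have hnu : (n : ℝ) ≤ A * θ * u ^ 2 :=
    (Nat.cast_le.2 (min_le_right _ _)).trans (Nat.floor_le (by positivity))
  have hnm : n ≤ m := min_le_left _ _
  have hpx : P.real {ω | ∃ z ≤ n, θ * u / 4 ≤ ∑ i ∈ Finset.range z, (ξ (0 + i) ω - 2)}
      ≤ Real.exp (-θ / (8 / κ)) := by
    have h2 : 2 * κ * u⁻¹ ≤ 2 * κ / u := by rw [div_eq_mul_inv]
    exact (hf_up hU _ (hf_iid_sub hlam0 hξ 0 n (by omega)) hu hκ (by linarith)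
      (hlam.trans h2)).trans (hf_expo hu hκ hθ hA0 hκA hnu)
  have hpg : P.real {ω | ∃ z ≤ n, θ * u / 4 ≤ ∑ i ∈ Finset.range z, (2 - g (0 + i) ω)}
      ≤ Real.exp (-θ / (8 / κ)) := by
    have hκu : κ * u⁻¹ ≤ 2 * κ / u := by rw [div_eq_mul_inv]; nlinarith [mul_pos hκ hv0]
    exact (hf_down hD _ (hf_iid_sub hα0 hg 0 n (by omega)) hu hκ (by linarith)
      (hα.trans hκu)).trans (hf_expo hu hκ hθ hA0 hκA hnu)
  have hsub : {ω | G1 (wgt (cH α) E' ω) m 1 ≤ 4 * (m : ℝ) - θ * u}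
      ⊆ {ω | ¬ ∀ z : ℕ, 1 ≤ z → z + 1 ≤ m →
          g (z - 1) ω ≤ G1 (wgt (cH α) E' ω) m z - G1 (wgt (cH α) E' ω) m (z + 1)} ∪
        ({ω | ∃ z : ℕ, 1 ≤ z ∧ z ≤ m ∧ A * θ * u ^ 2 ≤ z ∧ 4 * (m : ℝ) - (z : ℝ) * u⁻¹ / CE
          ≤ ∑ i ∈ Finset.range z, ξ i ω + G1 (wgt (cH α) E' ω) m z} ∪
        ({ω | ∀ z : ℕ, 1 ≤ z → z ≤ m →
          ∑ i ∈ Finset.range z, (1 - α - b)⁻¹ * E' ((i : ℤ) + 1, 0) ω
            + G1 (wgt (cH α) E' ω) m z ≤ 4 * (m : ℝ) - θ * u / 4} ∪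
        ({ω | ∃ z ≤ n, θ * u / 4 ≤ ∑ i ∈ Finset.range z, (ξ (0 + i) ω - 2)} ∪
        {ω | ∃ z ≤ n, θ * u / 4 ≤ ∑ i ∈ Finset.range z, (2 - g (0 + i) ω)}))) := by
    rintro ω hω
    by_contra hcon
    simp only [Set.mem_union, not_or] at hcon
    obtain ⟨c0, c1, c2, c3, c4⟩ := hcon
    simp only [Set.mem_ofPred_eq, not_not] at c0
    simp only [Set.mem_ofPred_eq, not_exists, not_and, not_le] at c1 c3 c4
    simp only [Set.mem_ofPred_eq, not_forall, not_le] at c2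
    simp only [Set.mem_ofPred_eq] at hω
    simp only [zero_add] at c3 c4
    obtain ⟨z, hz1, hz2, hz3⟩ := c2
    have hθu : 0 ≤ θ * u := by positivity
    have hθu8 : 8 ≤ θ * u := by nlinarith
    rcases le_or_gt (A * θ * u ^ 2) z with h | h
    · have h1 := c1 z hz1 hz2 h
      have h2 : θ * u ≤ (z : ℝ) * u⁻¹ / CE := by
        rw [le_div_iff₀ hCE]
        have h3 : A * θ * u ^ 2 * u⁻¹ ≤ z * u⁻¹ := mul_le_mul_of_nonneg_right h hv0.le
        have h4 : A * θ * u ^ 2 * u⁻¹ = A * (θ * u) := by field_simp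
        rw [h4, hA] at h3
        nlinarith
      linarith
    · have hzn : z ≤ n := by
        rw [hn, le_min_iff]
        exact ⟨hz2, Nat.le_floor h.le⟩
      have d1 := hf_cmp1 (g := fun i => g i ω) (ξ := fun i => ξ i ω)
        (G := fun z => G1 (wgt (cH α) E' ω) m z) c0 hz1 hz2
      have d2 := c3 z hzn
      have d3 := c4 (z - 1) (by omega)
      have d4 : ∑ i ∈ Finset.range z, (1 - α - b)⁻¹ * E' ((i : ℤ) + 1, 0) ω
          = ∑ i ∈ Finset.range z, ξ i ω := rfl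
      rw [d4] at hz3
      linarith
  have hN := hf_null hgae
  set C : ℝ := CE + 8 / κ + 12 with hC
  have e1 : Real.exp (-(A * θ) / CE) ≤ Real.exp (-θ / C) := by
    refine le_trans ?_ (hf_exp_le hθ hCE (show CE ≤ C by linarith))
    apply Real.exp_le_exp.2
    rw [div_le_div_iff_of_pos_right hCE]
    nlinarith
  have e2 : Real.exp (-(b * (θ * u / 4))) ≤ Real.exp (-θ / C) := by
    refine le_trans ?_ (hf_exp_le hθ hiκ (show 8 / κ ≤ C by linarith))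
    apply Real.exp_le_exp.2
    have h1 : b * (θ * u / 4) = κ * θ / 4 := by rw [hb]; field_simp
    have h2 : -θ / (8 / κ) = -(κ * θ / 8) := by field_simp
    rw [h1, h2]
    nlinarith [mul_nonneg hκ.le hθ]
  have e3 := hf_exp_le hθ hiκ (show 8 / κ ≤ C by linarith)
  have e0 : 0 < Real.exp (-θ / C) := Real.exp_pos _
  refine (measureReal_mono hsub (measure_ne_top _ _)).trans ?_
  refine (measureReal_union_le _ _).trans ?_
  rw [hN, zero_add]
  refine (measureReal_union_le _ _).trans ?_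
  refine (add_le_add hex ((measureReal_union_le _ _).trans (add_le_add hhr
    ((measureReal_union_le _ _).trans (add_le_add hpx hpg))))).trans ?_
  set F := Real.exp (-θ / C) with hF
  have f1 := mul_le_mul_of_nonneg_left e1 hCE.le
  have f3 : 0 ≤ (9 + 8 / κ) * F := by positivity
  nlinarith

end Pool.Agent.H374
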