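import Pool.Agent.H374.JAbsD

/-!
# The abstract block lemma (helper146)
-/

set_option autoImplicit false
open MeasureTheory ProbabilityTheory Filter Topology

namespace Pool.Agent.H374

theorem jabs_summable {c : ℝ} (hc : 0 < c) (k : ℕ) :
    Summable fun r : ℕ => (r : ℝ) ^ k * Real.exp (-r / c) := by
  have h := Real.summable_pow_mul_exp_neg_nat_mul k (show 0 < 1 / c by positivity)
  refine h.congr fun r => ?_
  congr 2
  ring

theorem jabs_ev1 {C1 : ℝ} (hC1 : 0 < C1) {m : ℕ} (hm : 1 ≤ m) : ∀ᶠ n : ℕ in atTop,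
    ((n : ℝ) ^ 5) ^ 4 * (2 * C1 * Real.exp (-((n / (48 * m) : ℕ) : ℝ) / C1)) ≤ (n : ℝ)⁻¹ := by
  have hm0 : (0 : ℝ) < m := by exact_mod_cast hm
  obtain ⟨b, hb⟩ : ∃ b : ℝ, b = 1 / (48 * m * C1) := ⟨_, rfl⟩
  have hb0 : 0 < b := by rw [hb]; positivity
  obtain ⟨A, hA⟩ : ∃ A : ℝ, A = 2 * C1 * Real.exp (1 / C1) := ⟨_, rfl⟩
  have hA0 : 0 < A := by rw [hA]; positivity
  have h1 : Tendsto (fun n : ℕ => (b * (n : ℝ)) ^ 21 * Real.exp (-(b * (n : ℝ)))) atTop (𝓝 0) :=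
    (Real.tendsto_pow_mul_exp_neg_atTop_nhds_zero 21).comp
      (tendsto_natCast_atTop_atTop.const_mul_atTop hb0)
  have h2 : ∀ᶠ n : ℕ in atTop, (b * (n : ℝ)) ^ 21 * Real.exp (-(b * (n : ℝ))) < b ^ 21 / A :=
    h1.eventually (gt_mem_nhds (by positivity))
  filter_upwards [h2, eventually_ge_atTop 1] with n hn hn1
  have hn0 : (0 : ℝ) < n := by exact_mod_cast hn1
  have h3 : ((n : ℝ) / (48 * m) - 1) ≤ ((n / (48 * m) : ℕ) : ℝ) := by
    have h4 : n < (n / (48 * m) + 1) * (48 * m) := by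
      have := Nat.lt_div_mul_add (a := n) (b := 48 * m) (by omega)
      linarith
    have h5 : (n : ℝ) < (((n / (48 * m) : ℕ) : ℝ) + 1) * (48 * m) := by exact_mod_cast h4
    have h6 : (n : ℝ) / (48 * m) < ((n / (48 * m) : ℕ) : ℝ) + 1 := by
      rw [div_lt_iff₀ (by positivity)]; exact h5
    linarith
  have h4 : Real.exp (-((n / (48 * m) : ℕ) : ℝ) / C1) ≤
      Real.exp (1 / C1) * Real.exp (-(b * n)) := by
    rw [← Real.exp_add, Real.exp_le_exp, hb]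
    have h5 : (n : ℝ) / (48 * m) / C1 = 1 / (48 * m * C1) * n := by field_simp
    have h6 : ((n : ℝ) / (48 * m) - 1) / C1 ≤ ((n / (48 * m) : ℕ) : ℝ) / C1 :=
      div_le_div_of_nonneg_right h3 hC1.le
    rw [sub_div, h5] at h6
    rw [neg_div]
    linarith
  rw [lt_div_iff₀ hA0, mul_pow] at hn
  have h5 : (n : ℝ) ^ 21 * Real.exp (-(b * n)) * A ≤ 1 := by
    have h6 : b ^ 21 * ((n : ℝ) ^ 21 * Real.exp (-(b * n)) * A) ≤ b ^ 21 * 1 := by linarith
    exact le_of_mul_le_mul_left h6 (by positivity)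
  rw [← one_div, le_div_iff₀ hn0]
  calc ((n : ℝ) ^ 5) ^ 4 * (2 * C1 * Real.exp (-((n / (48 * m) : ℕ) : ℝ) / C1)) * n
      ≤ ((n : ℝ) ^ 5) ^ 4 * (2 * C1 * (Real.exp (1 / C1) * Real.exp (-(b * n)))) * n := by gcongr
    _ = (n : ℝ) ^ 21 * Real.exp (-(b * n)) * A := by rw [hA]; ring
    _ ≤ 1 := h5

theorem jabs_ev2 {K0 u : ℝ} : ∀ᶠ n : ℕ in atTop,
    K0 * (n : ℝ) ^ (-(1 : ℝ) / 3) * u ≤ 1 / 288 := by
  have h1 : Tendsto (fun n : ℕ => (n : ℝ) ^ (-(1 : ℝ) / 3)) atTop (𝓝 0) := by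
    have h2 := (tendsto_rpow_neg_atTop (show (0 : ℝ) < 1 / 3 by norm_num)).comp
      (tendsto_natCast_atTop_atTop (R := ℝ))
    refine h2.congr fun n => ?_
    simp only [Function.comp_apply]
    congr 1
    norm_num
  have h2 : Tendsto (fun n : ℕ => K0 * (n : ℝ) ^ (-(1 : ℝ) / 3) * u) atTop (𝓝 (K0 * 0 * u)) :=
    (h1.const_mul K0).mul_const u
  rw [mul_zero, zero_mul] at h2
  exact (h2.eventually (gt_mem_nhds (by norm_num))).mono fun n hn => hn.le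

theorem t_JAbstract (hS : RWSurv) (hU : RWUp) (hD : RWDown) : JAbstract := by
  intro K0 hK C1 hC1
  obtain ⟨CS, hCS, nS, hsurv⟩ := jabs_surv hS hK
  obtain ⟨c, hc⟩ : ∃ c : ℝ, c = 2 * C1 + 2304 := ⟨_, rfl⟩
  obtain ⟨C3, hC3⟩ : ∃ C3 : ℝ, C3 = (2 * C1 + 1) * Real.exp (1 / C1) := ⟨_, rfl⟩
  obtain ⟨C4, hC4⟩ : ∃ C4 : ℝ, C4 = C1 + 2 := ⟨_, rfl⟩
  have hc0 : 0 < c := by rw [hc]; positivity
  have hC30 : 0 < C3 := by rw [hC3]; positivity
  have hC40 : 0 < C4 := by rw [hC4]; positivity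
  obtain ⟨fa, hfa⟩ : ∃ fa : ℕ → ℝ, fa = fun j : ℕ =>
    (324 * CS * C3) * (((j + 1 : ℕ) : ℝ) ^ 5 * Real.exp (-((j + 1 : ℕ) : ℝ) / C1)) := ⟨_, rfl⟩
  obtain ⟨fb, hfb⟩ : ∃ fb : ℕ → ℝ, fb = fun j : ℕ =>
    (48 * CS * C4) * (((j + 1 : ℕ) : ℝ) ^ 0 * Real.exp (-((j + 1 : ℕ) : ℝ) / c)) := ⟨_, rfl⟩
  obtain ⟨fc, hfc⟩ : ∃ fc : ℕ → ℝ, fc = fun r : ℕ =>
    (r : ℝ) ^ 5 * Real.exp (-(r : ℝ) / (2 * c)) := ⟨_, rfl⟩
  have sa : Summable fa := by
    rw [hfa]
    exact ((summable_nat_add_iff 1).2 (jabs_summable hC1 5)).mul_left _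
  have sb : Summable fb := by
    rw [hfb]
    exact ((summable_nat_add_iff 1).2 (jabs_summable hc0 0)).mul_left _
  have sc : Summable fc := by
    rw [hfc]
    exact jabs_summable (by positivity) 5
  have fa0 : ∀ j, 0 ≤ fa j := fun j => by rw [hfa]; positivity
  have fb0 : ∀ j, 0 ≤ fb j := fun j => by rw [hfb]; positivity
  have fc0 : ∀ j, 0 ≤ fc j := fun j => by rw [hfc]; positivity
  have hK0 : 0 ≤ ∑' j, fa j + (∑' j, fb j) * ∑' r, fc r :=
    add_nonneg (tsum_nonneg fa0) (mul_nonneg (tsum_nonneg fb0) (tsum_nonneg fc0))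
  refine ⟨(∑' j, fa j + (∑' j, fb j) * ∑' r, fc r) + 1 + C1, by positivity, fun m hm => ?_⟩
  have hm0 : (0 : ℝ) < m := by exact_mod_cast hm
  have hm1 : (1 : ℝ) ≤ m := by exact_mod_cast hm
  obtain ⟨u, hu⟩ : ∃ u : ℝ, u = (m : ℝ) ^ ((1 : ℝ) / 3) := ⟨_, rfl⟩
  have hu1 : 1 ≤ u := by rw [hu]; exact Real.one_le_rpow hm1 (by norm_num)
  have hu0 : 0 < u := by linarith
  have hu3 : u ^ 3 = m := by
    rw [hu, ← Real.rpow_natCast, ← Real.rpow_mul hm0.le]; norm_num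
  have hu2 : (m : ℝ) ^ (-(2 : ℝ) / 3) = (u ^ 2)⁻¹ := by
    rw [hu, ← Real.rpow_natCast, ← Real.rpow_mul hm0.le, ← Real.rpow_neg hm0.le]; norm_num
  obtain ⟨n0, hn0⟩ := eventually_atTop.1 ((jabs_ev1 hC1 hm).and ((jabs_ev2 (K0 := K0) (u := u)).and
    (eventually_ge_atTop (max nS (48 * m)))))
  refine ⟨n0, fun n hn n' h3 hn' Sl _ ν _ Ups Z T hUm hZm hTm hmono => ?_⟩
  intro μ hZ0 hb hUt hTt hI hI8 q hq1 hq4
  obtain ⟨ev1, ev2, ev3⟩ := hn0 n hn
  have hnS : nS ≤ n := le_trans (le_max_left _ _) ev3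
  have hn48 : 48 * m ≤ n := le_trans (le_max_right _ _) ev3
  have hnpos : (0 : ℝ) < n := by
    have : 0 < n := by omega
    exact_mod_cast this
  have hn1 : (1 : ℝ) ≤ n := by
    have : 1 ≤ n := by omega
    exact_mod_cast this
  obtain ⟨t, ht⟩ : ∃ t : ℝ, t = (n : ℝ) ^ (-(1 : ℝ) / 3) := ⟨_, rfl⟩
  have ht0 : 0 < t := by rw [ht]; exact Real.rpow_pos_of_pos hnpos _
  have hδ0 : 0 ≤ K0 * (n : ℝ) ^ (-(1 : ℝ) / 3) := by positivity
  have hδ1 : K0 * (n : ℝ) ^ (-(1 : ℝ) / 3) ≤ 1 / 288 := by nlinarith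
  have pa := isProbabilityMeasure_expMeasure
    (show 0 < 1 / 2 + K0 * (n : ℝ) ^ (-(1 : ℝ) / 3) by linarith)
  have pb := isProbabilityMeasure_expMeasure
    (show 0 < 1 / 2 - K0 * (n : ℝ) ^ (-(1 : ℝ) / 3) by linarith)
  have pμ : IsProbabilityMeasure μ := by
    show IsProbabilityMeasure (((Measure.pi fun _ : Fin n' =>
      expMeasure (1 / 2 + K0 * (n : ℝ) ^ (-(1 : ℝ) / 3))).prod
      (Measure.pi fun _ : Fin n' => expMeasure (1 / 2 - K0 * (n : ℝ) ^ (-(1 : ℝ) / 3)))).prod ν)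
    infer_instance
  obtain ⟨M, hM⟩ : ∃ M : ℝ, M = 4 * (m : ℝ) := ⟨_, rfl⟩
  obtain ⟨N, hNdef⟩ : ∃ N : ℕ, N = n / (48 * m) := ⟨_, rfl⟩
  have hN1 : 1 ≤ N := by rw [hNdef]; exact (Nat.one_le_div_iff (by omega)).2 hn48
  have hXle : ∀ j : ℕ, 1 ≤ j → (jabsX u j : ℝ) ≤ 3 * (j * u ^ 2) := by
    intro j hj
    have h1 := jabs_X_le u j
    have h2 : (1 : ℝ) ≤ j := by exact_mod_cast hj
    have h4 : 1 ≤ (j : ℝ) * u ^ 2 := one_le_mul_of_one_le_of_one_le h2 (one_le_pow₀ hu1)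
    linarith
  have hN : ∀ j < N, jabsX u (j + 1) ≤ n' ∧ n ≤ 4 * (n' - jabsX u (j + 1)) := by
    intro j hj
    have h1 := hXle (j + 1) (by omega)
    have h2 : (j + 1) * (48 * m) ≤ n := by
      have h4 : j + 1 ≤ n / (48 * m) := by omega
      exact (Nat.le_div_iff_mul_le (by omega)).1 h4
    have h4 : (((j + 1 : ℕ) : ℝ)) * (48 * m) ≤ n := by exact_mod_cast h2
    have h5 : u ^ 2 ≤ m := by
      rw [← hu3]; exact pow_le_pow_right₀ hu1 (by norm_num)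
    have h6 : 16 * (jabsX u (j + 1) : ℝ) ≤ n := by
      have h7 : ((j + 1 : ℕ) : ℝ) * u ^ 2 ≤ ((j + 1 : ℕ) : ℝ) * m :=
        mul_le_mul_of_nonneg_left h5 (by positivity)
      linarith
    have h7 : 16 * jabsX u (j + 1) ≤ n := by exact_mod_cast h6
    omega
  have hTail : ∀ j : ℕ, 1 ≤ j → ∀ x : ℕ, jabsX u j ≤ x → x ≤ n' →
      ν.real {σ | T x σ ≤ M - j * u} ≤ 2 * C1 * Real.exp (-(j : ℝ) / C1) := by
    intro j hj x hx hxn
    have h1 := hTt x (le_trans (jabs_X_two hu1 hj) hx) hxn j (by positivity)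
    rw [hu2, ← hu, ← hM] at h1
    refine h1.trans ?_
    have h2 : (j : ℝ) ≤ x * (u ^ 2)⁻¹ := by
      rw [← div_eq_mul_inv, le_div_iff₀ (by positivity)]
      have h4 : (jabsX u j : ℝ) ≤ x := by exact_mod_cast hx
      exact (jabs_X_ge u j).trans h4
    have h4 : Real.exp (-((x : ℝ) * (u ^ 2)⁻¹) / C1) ≤ Real.exp (-(j : ℝ) / C1) := by
      rw [Real.exp_le_exp]
      exact div_le_div_of_nonneg_right (by linarith) hC1.le
    nlinarith
  have hEM : ∀ j < N, ∀ a : ℝ, 0 ≤ a → ((Measure.pi fun _ : Fin n' =>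
      expMeasure (1 / 2 + K0 * (n : ℝ) ^ (-(1 : ℝ) / 3))).prod
      (Measure.pi fun _ : Fin n' => expMeasure (1 / 2 - K0 * (n : ℝ) ^ (-(1 : ℝ) / 3)))).real
      (jabsEM (jabsX u (j + 1)) a) ≤ CS * t * (1 + a) := by
    intro j hj a ha
    rw [ht]
    exact hsurv n hnS n' (jabsX u (j + 1)) (hN j hj).1 (hN j hj).2 a ha (by linarith)
  have hBd : ∀ j : ℕ, 1 ≤ j → ∀ E : Set ((Fin n' → ℝ) × (Fin n' → ℝ)), MeasurableSet E →
      μ.real (jabsBd T u M j ∩ Prod.fst ⁻¹' E) ≤ 2 * C1 * Real.exp (-(j : ℝ) / C1) *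
      ((Measure.pi fun _ : Fin n' =>
      expMeasure (1 / 2 + K0 * (n : ℝ) ^ (-(1 : ℝ) / 3))).prod
      (Measure.pi fun _ : Fin n' => expMeasure (1 / 2 - K0 * (n : ℝ) ^ (-(1 : ℝ) / 3)))).real E := by
    intro j hj E hE
    have h1 : jabsBd (n := n') T u M j = jabsB T (jabsX u j) (M - j * u) := by
      unfold jabsBd
      rw [if_neg (by omega)]
    rw [h1]
    exact jabs_B_real _ ν T (by positivity) (hTail j hj) hE
  have hG1 : ∀ j < N, μ.real (jabsG1 T u M j) ≤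
      C3 * Real.exp (-((j + 1 : ℕ) : ℝ) / C1) * (CS * t * (1 + 3 * (j + 1 : ℕ) * u)) := by
    intro j hj
    have h1 := hEM j hj (3 * (j + 1 : ℕ) * u) (by positivity)
    rcases Nat.eq_zero_or_pos j with rfl | hj0
    · have h2 : jabsG1 (n := n') T u M 0 = Prod.fst ⁻¹' (jabsEM (jabsX u (0 + 1)) (3 * (0 + 1 : ℕ) * u)) := by
        unfold jabsG1 jabsBd
        rw [if_pos rfl, Set.univ_inter]
      rw [h2]
      have h4 : μ.real (Prod.fst ⁻¹' (jabsEM (n := n') (jabsX u (0 + 1)) (3 * (0 + 1 : ℕ) * u))) =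
        ((Measure.pi fun _ : Fin n' =>
        expMeasure (1 / 2 + K0 * (n : ℝ) ^ (-(1 : ℝ) / 3))).prod
        (Measure.pi fun _ : Fin n' => expMeasure (1 / 2 - K0 * (n : ℝ) ^ (-(1 : ℝ) / 3)))).real
          (jabsEM (jabsX u (0 + 1)) (3 * (0 + 1 : ℕ) * u)) :=
        (measurePreserving_fst (ν := ν)).measureReal_preimage
          (jabs_EM_meas _ _).nullMeasurableSet
      rw [h4]
      refine h1.trans ?_
      have h5 : 1 ≤ C3 * Real.exp (-((0 + 1 : ℕ) : ℝ) / C1) := by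
        rw [hC3, mul_assoc, ← Real.exp_add]
        have : 1 / C1 + -((0 + 1 : ℕ) : ℝ) / C1 = 0 := by push_cast; ring
        rw [this, Real.exp_zero]
        linarith
      exact le_mul_of_one_le_left (by positivity) h5
    · refine (hBd j hj0 _ (jabs_EM_meas _ _)).trans ?_
      refine mul_le_mul ?_ h1 measureReal_nonneg (by positivity)
      have h5 : C3 * Real.exp (-((j + 1 : ℕ) : ℝ) / C1) =
          (2 * C1 + 1) * Real.exp (-(j : ℝ) / C1) := by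
        rw [hC3, mul_assoc, ← Real.exp_add]
        congr 2
        push_cast
        ring
      rw [h5]
      exact mul_le_mul_of_nonneg_right (by linarith) (Real.exp_pos _).le
  have hF : ∀ j < N, ∀ r : ℕ, 2 * (j + 1) ≤ r →
      μ.real (jabsF Ups (jabsX u (j + 1)) (M + r * u)) ≤ C4 * Real.exp (-(r : ℝ) / c) := by
    intro j hj r hr
    have hr' : 2 * ((j + 1 : ℕ) : ℝ) ≤ r := by exact_mod_cast hr
    have h1 := hUt ((r : ℝ) / 2) (by positivity)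
    rw [← hu, ← hM] at h1
    have h2 := jabs_tail hU hD (hN j hj).1 hu1 hδ0 ev2 (show (0 : ℝ) ≤ r by positivity) (by
      have h4 := hXle (j + 1) (by omega)
      have h5 : ((j + 1 : ℕ) : ℝ) * u ^ 2 ≤ (r : ℝ) / 2 * u ^ 2 :=
        mul_le_mul_of_nonneg_right (by linarith) (by positivity)
      linarith)
    have h4 : MeasurableSet {p : (Fin n' → ℝ) × (Fin n' → ℝ) | (r : ℝ) * u / 2 ≤
        -jabsS (jabsX u (j + 1)) p} := measurableSet_le measurable_const (jabs_S_meas _).neg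
    have h5 : μ.real (Prod.fst ⁻¹' {p : (Fin n' → ℝ) × (Fin n' → ℝ) | (r : ℝ) * u / 2 ≤
        -jabsS (jabsX u (j + 1)) p}) ≤ 2 * Real.exp (-(r : ℝ) / 2304) := by
      refine le_trans (le_of_eq ?_) h2
      exact (measurePreserving_fst (ν := ν)).measureReal_preimage h4.nullMeasurableSet
    have h6 : μ.real (jabsF Ups (jabsX u (j + 1)) (M + r * u)) ≤
        μ.real {p | M + (r : ℝ) / 2 * u ≤ Ups p} +
        μ.real (Prod.fst ⁻¹' {p : (Fin n' → ℝ) × (Fin n' → ℝ) | (r : ℝ) * u / 2 ≤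
        -jabsS (jabsX u (j + 1)) p}) := by
      refine le_trans (measureReal_mono ?_) (measureReal_union_le _ _)
      intro p hp
      have hp' : M + r * u ≤ Ups p - jabsS (jabsX u (j + 1)) p.1 := hp
      by_cases h7 : M + (r : ℝ) / 2 * u ≤ Ups p
      · exact Or.inl h7
      · refine Or.inr ?_
        show (r : ℝ) * u / 2 ≤ -jabsS (jabsX u (j + 1)) p.1
        linarith
    have h7 : Real.exp (-((r : ℝ) / 2) / C1) ≤ Real.exp (-(r : ℝ) / c) := by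
      rw [Real.exp_le_exp, neg_div, neg_div, neg_le_neg_iff, div_div]
      refine div_le_div_of_nonneg_left (by positivity) (by positivity) ?_
      rw [hc]; linarith
    have h8 : Real.exp (-(r : ℝ) / 2304) ≤ Real.exp (-(r : ℝ) / c) := by
      rw [Real.exp_le_exp, neg_div, neg_div, neg_le_neg_iff]
      refine div_le_div_of_nonneg_left (by positivity) (by positivity) ?_
      rw [hc]; linarith
    rw [hC4]
    have h9 := mul_le_mul_of_nonneg_left h7 hC1.le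
    linarith
  have hG2 : ∀ j < N, ∀ r : ℕ, 2 * (j + 1) ≤ r → μ.real (jabsG2 Ups u M j r) ≤
      C4 * Real.exp (-(r : ℝ) / c) * (CS * t * (1 + 2 * r * u)) := by
    intro j hj r hr
    have h1 : jabsG2 Ups u M j r =
        jabsF Ups (jabsX u (j + 1)) (M + r * u) ∩ Prod.fst ⁻¹' (jabsEM (jabsX u (j + 1)) (2 * r * u)) := by
      unfold jabsG2
      rw [if_pos hr]
    rw [h1]
    refine (jabs_harris _ _ ν (jabsX u (j + 1)) hUm hmono (M + r * u) (2 * r * u)).trans ?_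
    exact mul_le_mul (hF j hj r hr) (hEM j hj _ (by positivity)) measureReal_nonneg (by positivity)
  have hxb : ∀ j < N, (3 * (j + 1 : ℕ) * u) ^ q * μ.real (jabsG1 T u M j) ≤
      (u ^ (q + 1) * t) * fa j := by
    intro j hj
    have h1 := jabs_pow (k := 3) (ψ := ((j + 1 : ℕ) : ℝ)) (by norm_num)
      (by exact_mod_cast (by omega : 1 ≤ j + 1)) hu1 hq4
    calc (3 * (j + 1 : ℕ) * u) ^ q * μ.real (jabsG1 T u M j)
        ≤ (3 * (j + 1 : ℕ) * u) ^ q * (C3 * Real.exp (-((j + 1 : ℕ) : ℝ) / C1) *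
          (CS * t * (1 + 3 * (j + 1 : ℕ) * u))) :=
          mul_le_mul_of_nonneg_left (hG1 j hj) (by positivity)
      _ = (C3 * Real.exp (-((j + 1 : ℕ) : ℝ) / C1) * CS * t) *
          ((3 * (j + 1 : ℕ) * u) ^ q * (1 + 3 * (j + 1 : ℕ) * u)) := by ring
      _ ≤ (C3 * Real.exp (-((j + 1 : ℕ) : ℝ) / C1) * CS * t) *
          (3 ^ 4 * (3 + 1) * ((j + 1 : ℕ) : ℝ) ^ 5 * u ^ (q + 1)) :=
          mul_le_mul_of_nonneg_left h1 (by positivity)
      _ = (u ^ (q + 1) * t) * fa j := by rw [hfa]; ring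
  have hyb : ∀ j < N, ∀ r : ℕ, (2 * (r : ℝ) * u) ^ q * μ.real (jabsG2 Ups u M j r) ≤
      (u ^ (q + 1) * t) * (fb j * fc r) := by
    intro j hj r
    by_cases hr : 2 * (j + 1) ≤ r
    · have hr1 : (1 : ℝ) ≤ r := by exact_mod_cast (by omega : 1 ≤ r)
      have hr' : 2 * ((j + 1 : ℕ) : ℝ) ≤ r := by exact_mod_cast hr
      have h1 := jabs_pow (k := 2) (ψ := (r : ℝ)) (by norm_num) hr1 hu1 hq4
      have h2 : Real.exp (-(r : ℝ) / c) ≤
          Real.exp (-((j + 1 : ℕ) : ℝ) / c) * Real.exp (-(r : ℝ) / (2 * c)) := by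
        rw [← Real.exp_add, Real.exp_le_exp]
        have h4 : -((j + 1 : ℕ) : ℝ) / c + -(r : ℝ) / (2 * c) =
          (-((j + 1 : ℕ) : ℝ) + -(r : ℝ) / 2) / c := by field_simp
        rw [h4]
        exact div_le_div_of_nonneg_right (by linarith) hc0.le
      calc (2 * (r : ℝ) * u) ^ q * μ.real (jabsG2 Ups u M j r)
          ≤ (2 * (r : ℝ) * u) ^ q * (C4 * Real.exp (-(r : ℝ) / c) *
            (CS * t * (1 + 2 * r * u))) :=
            mul_le_mul_of_nonneg_left (hG2 j hj r hr) (by positivity)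
        _ = (C4 * Real.exp (-(r : ℝ) / c) * CS * t) *
            ((2 * (r : ℝ) * u) ^ q * (1 + 2 * r * u)) := by ring
        _ ≤ (C4 * (Real.exp (-((j + 1 : ℕ) : ℝ) / c) * Real.exp (-(r : ℝ) / (2 * c))) * CS * t) *
            (2 ^ 4 * (2 + 1) * (r : ℝ) ^ 5 * u ^ (q + 1)) := by
            refine mul_le_mul ?_ h1 (by positivity) (by positivity)
            gcongr
        _ = (u ^ (q + 1) * t) * (fb j * fc r) := by rw [hfb, hfc]; ring
    · have h1 : jabsG2 Ups u M j r = ∅ := by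
        unfold jabsG2
        rw [if_neg hr]
      rw [h1, measureReal_empty, mul_zero]
      have := fb0 j
      have := fc0 r
      positivity
  have hb' : ∀ᵐ p ∂μ, 0 < Z p → ∀ x, 2 ≤ x → x ≤ n' → Z p ≤ Ups p - jabsS x p.1 - T x p.2 := by
    filter_upwards [hb] with p hp h0 x hx hxn
    have h1 := hp h0 x hx hxn
    rw [jabs_S_filter x hxn p.1] at h1
    exact h1
  have h1 := jabs_lint μ (M := M) hUm hTm hu1 (fun j hj => (hN j hj).1) hZm hZ0 hb' hq1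
  have h2 := jabs_sum N (D := u ^ (q + 1) * t) (by positivity) sa sb sc fa0 fb0 fc0 hxb hyb
  have h4 := jabs_last μ (jabs_Bd_meas hTm u M N) hZ0 hI
    (one_le_pow₀ (n := 5) hn1) hq4
  have h5 : μ.real (jabsBd T u M N) ≤ 2 * C1 * Real.exp (-(N : ℝ) / C1) := by
    have h6 := hBd N hN1 Set.univ MeasurableSet.univ
    rw [Set.preimage_univ, Set.inter_univ, probReal_univ, mul_one] at h6
    exact h6
  have h6 : ((n : ℝ) ^ 5) ^ 4 * μ.real (jabsBd T u M N) ≤ (n : ℝ)⁻¹ := by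
    refine le_trans (mul_le_mul_of_nonneg_left h5 (by positivity)) ?_
    rw [hNdef]
    exact ev1
  have h7 : ((n : ℝ) ^ 5)⁻¹ ^ 4 * ∫ p, Z p ^ 8 ∂μ ≤ C1 * (n : ℝ)⁻¹ := by
    calc ((n : ℝ) ^ 5)⁻¹ ^ 4 * ∫ p, Z p ^ 8 ∂μ ≤ ((n : ℝ) ^ 5)⁻¹ ^ 4 * (C1 * (n : ℝ) ^ 16) :=
          mul_le_mul_of_nonneg_left hI8 (by positivity)
      _ = C1 * ((n : ℝ)⁻¹) ^ 4 := by
          field_simp
      _ ≤ C1 * (n : ℝ)⁻¹ := by
          refine mul_le_mul_of_nonneg_left ?_ hC1.le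
          exact pow_le_of_le_one (by positivity) (inv_le_one_of_one_le₀ hn1) (by norm_num)
  have h8 : (n : ℝ)⁻¹ ≤ u ^ (q + 1) * t := by
    have h9 : (n : ℝ)⁻¹ ≤ t := by
      rw [ht, ← Real.rpow_neg_one]
      exact Real.rpow_le_rpow_of_exponent_le hn1 (by norm_num)
    calc (n : ℝ)⁻¹ ≤ t := h9
      _ ≤ u ^ (q + 1) * t := le_mul_of_one_le_left ht0.le (one_le_pow₀ hu1)
  have h9 : ∫⁻ p, ENNReal.ofReal (Z p ^ q) ∂μ ≤ ENNReal.ofReal
      ((u ^ (q + 1) * t) * ((∑' j, fa j + (∑' j, fb j) * ∑' r, fc r) + 1 + C1)) := by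
    calc _ ≤ _ := h1
      _ ≤ ENNReal.ofReal ((u ^ (q + 1) * t) * (∑' j, fa j + (∑' j, fb j) * ∑' r, fc r)) +
          (ENNReal.ofReal (u ^ (q + 1) * t) + ENNReal.ofReal (C1 * (u ^ (q + 1) * t))) := by
          refine add_le_add h2 (h4.trans (add_le_add ?_ ?_))
          · exact ENNReal.ofReal_le_ofReal (h6.trans h8)
          · exact ENNReal.ofReal_le_ofReal (h7.trans (mul_le_mul_of_nonneg_left h8 hC1.le))
      _ = _ := by
          rw [← ENNReal.ofReal_add (by positivity) (by positivity),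
            ← ENNReal.ofReal_add (by positivity) (by positivity)]
          congr 1
          ring
  rw [integral_eq_lintegral_of_nonneg_ae (hZ0.mono fun p hp => pow_nonneg hp q)
    (hZm.pow_const q).aestronglyMeasurable]
  refine (ENNReal.toReal_le_of_le_ofReal (by positivity) h9).trans (le_of_eq ?_)
  have e1 : (m : ℝ) ^ ((q : ℝ) / 3) = u ^ q := by
    rw [hu, ← Real.rpow_natCast, ← Real.rpow_mul hm0.le]
    congr 1
    ring
  have e2 : ((m : ℝ) / n) ^ ((1 : ℝ) / 3) = u * t := by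
    rw [Real.div_rpow hm0.le hnpos.le, ← hu, div_eq_mul_inv, ht, neg_div, Real.rpow_neg hnpos.le]
  rw [e1, e2]
  ring

end Pool.Agent.H374
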