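import Pool.Agent.H374.JBb

/-!
# The block estimate (J): assembly
-/

set_option autoImplicit false
open MeasureTheory ProbabilityTheory

namespace Pool.Agent.H374

lemma jb_phi_refl (n : ℕ) (w : ℤ × ℤ → ℝ) :
    Phi n w = Phi n (fun z => w (refl ((n : ℤ) + 1) z)) := by
  unfold Phi
  rw [L_refl ((n : ℤ) + 1) Hs w, refl_Hs]
  simp only [refl, sub_self, sub_zero]

lemma jb_cPhi_refl (n : ℕ) (δ α : ℝ) (z : ℤ × ℤ) :
    cPhi n δ α (refl ((n : ℤ) + 1) z) = cPhi n δ α z := by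
  obtain ⟨a, b⟩ := z
  unfold cPhi refl
  simp only [Prod.mk.injEq]
  have e1 : (((n : ℤ) + 1 - b = 0 ∧ (n : ℤ) + 1 - a = 0) ∨
      ((n : ℤ) + 1 - b = (n : ℤ) + 1 ∧ (n : ℤ) + 1 - a = 0) ∨
      ((n : ℤ) + 1 - b = (n : ℤ) + 1 ∧ (n : ℤ) + 1 - a = (n : ℤ) + 1)) ↔
      ((a = 0 ∧ b = 0) ∨ (a = (n : ℤ) + 1 ∧ b = 0) ∨ (a = (n : ℤ) + 1 ∧ b = (n : ℤ) + 1)) := by
    omega
  have e2 : ((n : ℤ) + 1 - a = 0 ∨ (n : ℤ) + 1 - b = (n : ℤ) + 1) ↔
      (b = 0 ∨ a = (n : ℤ) + 1) := by omega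
  have e3 : ((n : ℤ) + 1 - b = (n : ℤ) + 1 - a) ↔ (a = b) := by omega
  simp only [e1, e2, e3]

lemma jb_Zb_refl {Ω : Type} (n i m : ℕ) (him : i + m ≤ n) (δ α : ℝ) (E : ℤ × ℤ → Ω → ℝ) (ω : Ω) :
    Zb n i (i + m) (wgt (cPhi n δ α) E ω)
      = Zb n (n - i - m) (n - i - m + m)
        (wgt (cPhi n δ α) (fun z => E (refl ((n : ℤ) + 1) z)) ω) := by
  unfold Zb
  have e1 : (fun z => wgt (cPhi n δ α) E ω (refl ((n : ℤ) + 1) z))
      = wgt (cPhi n δ α) (fun z => E (refl ((n : ℤ) + 1) z)) ω := by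
    funext z
    simp only [wgt, jb_cPhi_refl]
  rw [jb_phi_refl n (wgt (cPhi n δ α) E ω), e1,
    jb_phi_refl n (zeroB i (i + m) (wgt (cPhi n δ α) E ω))]
  congr 2
  funext z
  obtain ⟨a, b⟩ := z
  simp only [zeroB]
  rw [← congrFun e1 (a, b)]
  simp only [refl]
  have e3 : ((n : ℤ) + 1 - b = (n : ℤ) + 1 - a ∧ (i : ℤ) < (n : ℤ) + 1 - b ∧
      (n : ℤ) + 1 - b ≤ ((i + m : ℕ) : ℤ)) ↔
      (a = b ∧ ((n - i - m : ℕ) : ℤ) < a ∧ a ≤ ((n - i - m + m : ℕ) : ℤ)) := by
    push_cast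
    omega
  simp only [e3]

lemma jb_Zb_congr {n i R : ℕ} {w w' : ℤ × ℤ → ℝ}
    (h : ∀ z ∈ rect (0, 0) ((n : ℤ) + 1, (n : ℤ) + 1), w z = w' z) : Zb n i R w = Zb n i R w' := by
  unfold Zb Phi
  congr 1
  · exact L_congr fun z hz _ => h z hz
  · refine L_congr fun z hz _ => ?_
    unfold zeroB
    rw [h z hz]

/-- Monotonicity in the diagonal rate. -/
lemma jb_Zb_rate {Ω : Type} {n i R : ℕ} (hR : R ≤ n) {δ α : ℝ} (h0 : 0 < 1 / 2 - δ)
    (hα : 1 / 2 - δ ≤ α) (E : ℤ × ℤ → Ω → ℝ) (ω : Ω) (hE : ∀ z, 0 ≤ E z ω) :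
    Zb n i R (wgt (cPhi n δ α) E ω) ≤ Zb n i R (wgt (cPhi n δ (1 / 2 - δ)) E ω) := by
  classical
  let w' : ℤ × ℤ → ℝ := fun z =>
    if z.1 = z.2 ∧ 0 < z.1 ∧ z.1 ≤ n then wgt (cPhi n δ (1 / 2 - δ)) E ω z
    else wgt (cPhi n δ α) E ω z
  have e1 : Zb n i R w' = Zb n i R (wgt (cPhi n δ (1 / 2 - δ)) E ω) := by
    refine jb_Zb_congr fun z hz => ?_
    simp only [w']
    split_ifs with h
    · rfl
    · unfold wgt
      congr 1
      have h1 := mem_rect.1 hz
      simp only at h1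
      unfold cPhi
      by_cases h2 : z = (0, 0) ∨ z = ((n : ℤ) + 1, 0) ∨ z = ((n : ℤ) + 1, (n : ℤ) + 1)
      · rw [if_pos h2, if_pos h2]
      · rw [if_neg h2, if_neg h2]
        by_cases h3 : z.2 = 0 ∨ z.1 = (n : ℤ) + 1
        · rw [if_pos h3, if_pos h3]
        · rw [if_neg h3, if_neg h3]
          by_cases h4 : z.1 = z.2
          · exfalso
            apply h
            rw [not_or] at h3
            omega
          · rw [if_neg h4, if_neg h4]
  have hcpos : ∀ c : ℤ, 0 < c → c ≤ n → ∀ β : ℝ, cPhi n δ β (c, c) = β⁻¹ := by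
    intro c h1 h2 β
    unfold cPhi
    rw [if_neg (by simp only [Prod.mk.injEq]; omega), if_neg (by simp only; omega), if_pos rfl]
  rw [← e1]
  refine jb_Zb_mono hR ?_ ?_ ?_
  · intro c h1 h2
    unfold wgt
    rw [hcpos c h1 h2]
    exact mul_nonneg (inv_nonneg.2 (h0.le.trans hα)) (hE _)
  · intro z hz
    simp only [w']
    rw [if_neg hz]
  · intro z
    simp only [w']
    split_ifs with h
    · have hz : z = (z.1, z.1) := by ext <;> simp [h.1]
      unfold wgt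
      rw [hz, hcpos _ h.2.1 h.2.2, hcpos _ h.2.1 h.2.2]
      exact mul_le_mul_of_nonneg_right (inv_anti₀ h0 hα) (hE _)
    · exact le_rfl

lemma jb_exp_mono {C C1 θ : ℝ} (hC : 0 < C) (h : C ≤ C1) (hθ : 0 ≤ θ) :
    C * Real.exp (-θ / C) ≤ C1 * Real.exp (-θ / C1) := by
  have h1 : Real.exp (-θ / C) ≤ Real.exp (-θ / C1) := by
    apply Real.exp_le_exp.2
    rw [neg_div, neg_div, neg_le_neg_iff]
    exact div_le_div_of_nonneg_left hθ hC h
  exact mul_le_mul h h1 (Real.exp_pos _).le (hC.le.trans h)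

lemma jb_exp_mono' {C C1 θ : ℝ} (hC : 0 < C) (h : C ≤ C1) (hθ : 0 ≤ θ) :
    Real.exp (-θ / C) ≤ Real.exp (-θ / C1) := by
  apply Real.exp_le_exp.2
  rw [neg_div, neg_div, neg_le_neg_iff]
  exact div_le_div_of_nonneg_left hθ hC h

/-- The case of a block which is not close to the upper end. -/
lemma jb_main (hJ : JAbstract) (hL : JLaw) (hMom : JMom) (hU : JUpsTail) (hT : JTTail)
    (K0 : ℝ) (hK0 : 0 < K0) : ∃ C > 0, ∀ m : ℕ, 2 ≤ m → ∃ n0 : ℕ, ∀ n : ℕ, n0 ≤ n →
    ∀ (Ω : Type) [MeasurableSpace Ω] (P : Measure Ω) (E : ℤ × ℤ → Ω → ℝ), Env P E →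
    ∀ i : ℕ, 3 * (i + m) ≤ 2 * n → ∀ Y : Ω → ℝ, (∀ᵐ ω ∂P, 0 ≤ Y ω) →
    (∀ᵐ ω ∂P, Y ω ≤ Zb n i (i + m)
      (wgt (cPhi n (K0 * (n : ℝ) ^ (-(1 : ℝ) / 3)) (1 / 2 - K0 * (n : ℝ) ^ (-(1 : ℝ) / 3))) E ω)) →
    ∀ q : ℕ, 1 ≤ q → q ≤ 4 →
      ∫ ω, Y ω ^ q ∂P ≤ C * (m : ℝ) ^ ((q : ℝ) / 3) * ((m : ℝ) / n) ^ ((1 : ℝ) / 3) := by
  obtain ⟨Cm, hCm, hMom⟩ := hMom
  obtain ⟨κ, hκ, Cu, hCu, hU⟩ := hU
  obtain ⟨Ct, hCt, hT⟩ := hT
  obtain ⟨C, hC, hJ⟩ := hJ K0 hK0 (Cm + Cu + Ct) (by positivity)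
  refine ⟨C, hC, fun m hm => ?_⟩
  obtain ⟨n1, hJ⟩ := hJ m (by omega)
  -- smallness of δ
  have hlim : Filter.Tendsto (fun n : ℕ => K0 * (n : ℝ) ^ (-(1 : ℝ) / 3)) Filter.atTop (nhds 0) := by
    have h1 : Filter.Tendsto (fun n : ℕ => (n : ℝ) ^ (-(1 / 3 : ℝ))) Filter.atTop (nhds 0) :=
      (tendsto_rpow_neg_atTop (by norm_num : (0 : ℝ) < 1 / 3)).comp tendsto_natCast_atTop_atTop
    have h2 := h1.const_mul K0
    rw [mul_zero] at h2
    refine h2.congr fun n => ?_
    norm_num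
  have hsm : ∀ᶠ n : ℕ in Filter.atTop,
      K0 * (n : ℝ) ^ (-(1 : ℝ) / 3) < min (1 / 4) (κ * (m : ℝ) ^ (-(1 : ℝ) / 3)) := by
    have hmpos : (0 : ℝ) < m := by exact_mod_cast (by omega : 0 < m)
    exact hlim.eventually (gt_mem_nhds (by
      refine lt_min (by norm_num) (by positivity)))
  obtain ⟨n2, hn2⟩ := Filter.eventually_atTop.1 hsm
  refine ⟨max (max n1 n2) (max (3 * m) 6), fun n hn Ω _ P E hE i him Y hY0 hY q hq1 hq4 => ?_⟩
  have hn1 : n1 ≤ n := by omega
  have hn2' : n2 ≤ n := by omega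
  have hn3 : 3 * m ≤ n := by omega
  have hn4 : 6 ≤ n := by omega
  have hδs := hn2 n hn2'
  set δ : ℝ := K0 * (n : ℝ) ^ (-(1 : ℝ) / 3) with hδ
  have hnpos : (0 : ℝ) < n := by exact_mod_cast (by omega : 0 < n)
  have hδ0 : 0 < δ := by positivity
  have hδ4 : δ < 1 / 4 := hδs.trans_le (min_le_left _ _)
  have hδκ : δ < κ * (m : ℝ) ^ (-(1 : ℝ) / 3) := hδs.trans_le (min_le_right _ _)
  have hδabs : |δ| ≤ 1 / 4 := by rw [abs_of_pos hδ0]; exact hδ4.le
  haveI := hE.prob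
  haveI i1 : IsProbabilityMeasure (expMeasure 1) := isProbabilityMeasure_expMeasure one_pos
  haveI i2 : IsProbabilityMeasure (expMeasure (1 / 2 - δ)) :=
    isProbabilityMeasure_expMeasure (by linarith)
  haveI i3 : IsProbabilityMeasure (expMeasure (1 / 2 + δ)) :=
    isProbabilityMeasure_expMeasure (by linarith)
  set R : ℕ := i + m with hR
  have hRn : R ≤ n := by omega
  have hiR : i + 2 ≤ R := by omega
  have hmn : R - i ≤ n - R := by omega
  have h2n : 2 ≤ n - R := by omega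
  have hRi : (R : ℝ) - i = m := by rw [hR]; push_cast; ring
  have law := hL Ω P E hE n i R (by omega) hRn δ (by rw [abs_of_pos hδ0]; linarith)
  change Measure.map (fun ω => jMap n i R δ E ω) P = _ at law
  obtain ⟨hint8, hmom8⟩ := hMom Ω P E hE n i R hiR hRn hmn h2n δ hδabs
  -- measurability of the map
  have hmap : Measurable (fun ω => jMap n i R δ E ω) := by
    have hw : ∀ z, Measurable fun ω => wgt (cPhi n δ (1 / 2 - δ)) E ω z :=
      fun z => measurable_wgt hE _ z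
    have hxi : ∀ u, Measurable fun ω => jXi i (wgt (cPhi n δ (1 / 2 - δ)) E ω) u := by
      intro u
      unfold jXi jA
      exact (measurable_L hw _ _ _).sub (measurable_L hw _ _ _)
    have heta : ∀ u, Measurable fun ω => jEta n R (wgt (cPhi n δ (1 / 2 - δ)) E ω) u := by
      intro u
      unfold jEta jB
      exact (measurable_L hw _ _ _).sub (measurable_L hw _ _ _)
    unfold jMap
    refine Measurable.prodMk (Measurable.prodMk ?_ ?_) (Measurable.prodMk ?_ (heta _))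
    · exact measurable_pi_lambda _ fun u => hxi u
    · exact measurable_pi_lambda _ fun u => heta u
    · exact measurable_pi_lambda _ fun z => hE.meas z
  have hsnd : Measure.map (fun ω => (jMap n i R δ E ω).2) P
      = (Measure.pi fun _ : slabSites n i R => expMeasure 1).prod (expMeasure (1 / 2 - δ)) := by
    have h1 : Measure.map Prod.snd (Measure.map (fun ω => jMap n i R δ E ω) P)
        = Measure.map (fun ω => (jMap n i R δ E ω).2) P := by
      rw [Measure.map_map measurable_snd hmap]; rfl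
    rw [← h1, law]
    exact Measure.snd_prod
  have key := hJ n hn1 (n - R) (by omega) (by omega) ((slabSites n i R → ℝ) × ℝ)
    ((Measure.pi fun _ : slabSites n i R => expMeasure 1).prod (expMeasure (1 / 2 - δ)))
    (jUps n i R δ) (jZ n i R δ) (fun x => jT n i R δ x)
    (measurable_jUps n i R δ) (measurable_jZ n i R δ) (fun x => measurable_jT n i R δ x)
    (fun ξ ξ' η η' σ h1 h2 => jUps_mono h1 h2)
  simp only at key
  rw [← law] at key
  have key2 := key (Filter.Eventually.of_forall fun p => le_max_left _ _)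
    (Filter.Eventually.of_forall fun p hp x hx1 hx2 => by
      have hne : (Finset.Icc 2 (n - R)).Nonempty := ⟨2, by rw [Finset.mem_Icc]; omega⟩
      have hmem : x ∈ Finset.Icc 2 (n - R) := Finset.mem_Icc.2 ⟨hx1, hx2⟩
      have e1 : jZ n i R δ p = (Finset.Icc 2 (n - R)).inf' hne
          (fun x : ℕ => jUps n i R δ p - (jSum p.1.1 x - jSum p.1.2 x) - jT n i R δ x p.2) := by
        unfold jZ at hp ⊢
        rw [dif_pos hne] at hp ⊢
        rcases lt_max_iff.1 hp with h | h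
        · exact absurd h (lt_irrefl _)
        · exact max_eq_right h.le
      rw [e1, Finset.sum_sub_distrib]
      exact Finset.inf'_le _ hmem)
    (fun θ hθ => by
      rw [map_measureReal_apply hmap
        (measurableSet_le measurable_const (measurable_jUps n i R δ))]
      have h1 := hU Ω P E hE n i R hiR hRn hmn δ hδ0 hδ4.le (by rw [hRi]; exact hδκ.le) θ hθ
      rw [hRi] at h1
      exact h1.trans (jb_exp_mono hCu (by linarith) hθ))
    (fun x hx1 hx2 θ hθ => by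
      rw [← hsnd, map_measureReal_apply (f := fun ω => (jMap n i R δ E ω).2) (measurable_snd.comp hmap)
        (measurableSet_le (measurable_jT n i R δ x) measurable_const)]
      have h1 := hT Ω P E hE n i R x hiR hx1 (by omega) δ hδabs θ hθ
      rw [hRi] at h1
      refine h1.trans ?_
      have a1 := jb_exp_mono' (θ := θ) hCt (by linarith : Ct ≤ Cm + Cu + Ct) hθ
      have a2 := jb_exp_mono' (θ := (x : ℝ) * (m : ℝ) ^ (-(2 : ℝ) / 3)) hCt
        (by linarith : Ct ≤ Cm + Cu + Ct) (by positivity)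
      have a3 := Real.exp_pos (-θ / Ct)
      have a4 := Real.exp_pos (-((x : ℝ) * (m : ℝ) ^ (-(2 : ℝ) / 3)) / Ct)
      exact mul_le_mul (by linarith) (by linarith) (by linarith) (by linarith))
    (by
      rw [integrable_map_measure (by
        exact ((measurable_jZ n i R δ).pow_const 8).aestronglyMeasurable) hmap.aemeasurable]
      exact hint8)
    (by
      rw [integral_map hmap.aemeasurable
        ((measurable_jZ n i R δ).pow_const 8).aestronglyMeasurable]
      refine hmom8.trans ?_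
      have : (0 : ℝ) ≤ (n : ℝ) ^ 16 := by positivity
      nlinarith)
    q hq1 hq4
  rw [integral_map hmap.aemeasurable
    ((measurable_jZ n i R δ).pow_const q).aestronglyMeasurable] at key2
  refine le_trans ?_ key2
  have hintq : Integrable (fun ω => (jZ n i R δ (jMap n i R δ E ω)) ^ q) P := by
    refine Integrable.mono' (hint8.add (integrable_const 1))
      (((measurable_jZ n i R δ).comp hmap).pow_const q).aestronglyMeasurable
      (Filter.Eventually.of_forall fun ω => ?_)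
    have hz : 0 ≤ jZ n i R δ (jMap n i R δ E ω) := le_max_left _ _
    rw [Real.norm_eq_abs, abs_of_nonneg (pow_nonneg hz q)]
    simp only [Pi.add_apply]
    rcases le_total (jZ n i R δ (jMap n i R δ E ω)) 1 with h | h
    · have h1 := pow_le_one₀ hz h (n := q)
      have h2 := pow_nonneg hz 8
      linarith
    · have h1 := pow_le_pow_right₀ h (by omega : q ≤ 8)
      linarith
  refine integral_mono_of_nonneg ?_ hintq ?_
  · filter_upwards [hY0] with ω h0
    exact pow_nonneg h0 q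
  · filter_upwards [hY0, hY] with ω h0 h1
    refine pow_le_pow_left₀ h0 (h1.trans ?_) q
    exact jZ_bound (δ := δ) E ω hiR hRn hmn h2n

theorem t_JBound (hJ : JAbstract) (hL : JLaw) (hMom : JMom) (hU : JUpsTail) (hT : JTTail) :
    JBound := by
  intro K0 hK0
  obtain ⟨C, hC, hmain⟩ := jb_main hJ hL hMom hU hT K0 hK0
  refine ⟨C, hC, 2, by norm_num, fun m hm => ?_⟩
  obtain ⟨n0, hmain⟩ := hmain m hm
  have hlim : Filter.Tendsto (fun n : ℕ => K0 * (n : ℝ) ^ (-(1 : ℝ) / 3)) Filter.atTop (nhds 0) := by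
    have h1 : Filter.Tendsto (fun n : ℕ => (n : ℝ) ^ (-(1 / 3 : ℝ))) Filter.atTop (nhds 0) :=
      (tendsto_rpow_neg_atTop (by norm_num : (0 : ℝ) < 1 / 3)).comp tendsto_natCast_atTop_atTop
    have h2 := h1.const_mul K0
    rw [mul_zero] at h2
    refine h2.congr fun n => ?_
    norm_num
  have hsm : ∀ᶠ n : ℕ in Filter.atTop, K0 * (n : ℝ) ^ (-(1 : ℝ) / 3) < 1 / 4 :=
    hlim.eventually (gt_mem_nhds (by norm_num))
  obtain ⟨n2, hn2⟩ := Filter.eventually_atTop.1 hsm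
  refine ⟨max (max n0 n2) (max (3 * m) 6), fun n hn α hα Ω _ P E hE i him q hq1 hq4 => ?_⟩
  have hδ4 := hn2 n (by omega)
  have hnpos : (0 : ℝ) < n := by exact_mod_cast (by omega : 0 < n)
  set δ : ℝ := K0 * (n : ℝ) ^ (-(1 : ℝ) / 3) with hδ
  have hδ0 : 0 < δ := by positivity
  have hα' : |α - 1 / 2| ≤ δ / 2 := by
    refine hα.trans (le_of_eq ?_); rw [hδ]; ring
  have hα1 : 1 / 2 - δ ≤ α := by
    have := (abs_le.1 hα').1; linarith
  have hα0 : 0 < α := by linarith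
  have hcn : ∀ z, 0 ≤ cPhi n δ α z := by
    intro z
    unfold cPhi
    split_ifs
    · exact le_rfl
    · exact inv_nonneg.2 (by linarith)
    · exact inv_nonneg.2 hα0.le
    · exact zero_le_one
  by_cases hcase : 3 * (i + m) ≤ 2 * n
  · refine hmain n (by omega) Ω P E hE i hcase _ ?_ ?_ q hq1 hq4
    · filter_upwards [hE.nonneg] with ω hω
      exact jb_Zb_nonneg fun c _ _ => wgt_nonneg hcn hω _
    · filter_upwards [hE.nonneg] with ω hω
      exact jb_Zb_rate him (by linarith) hα1 E ω hω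
  · have hinj : Function.Injective (refl ((n : ℤ) + 1)) := fun a b hab => by
      have := congrArg (refl ((n : ℤ) + 1)) hab
      simpa using this
    have hE' := hE.comp hinj
    have e : ∀ ω, Zb n i (i + m) (wgt (cPhi n δ α) E ω)
      = Zb n (n - i - m) (n - i - m + m)
        (wgt (cPhi n δ α) (fun z => E (refl ((n : ℤ) + 1) z)) ω) :=
      fun ω => jb_Zb_refl n i m him δ α E ω
    simp only [e]
    refine hmain n (by omega) Ω P (fun z => E (refl ((n : ℤ) + 1) z)) hE' (n - i - m)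
      (by omega) _ ?_ ?_ q hq1 hq4
    · filter_upwards [hE'.nonneg] with ω hω
      exact jb_Zb_nonneg fun c _ _ => wgt_nonneg hcn hω _
    · filter_upwards [hE'.nonneg] with ω hω
      exact jb_Zb_rate (by omega) (by linarith) hα1 _ ω hω

end Pool.Agent.H374
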