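import Pool.Agent.H374.JBStmts
import Pool.Agent.H374.Det
import Pool.Agent.H374.Tools

/-!
# The block estimate: joint law of the two walks and the slab
-/

set_option autoImplicit false
open MeasureTheory ProbabilityTheory

namespace Pool.Agent.H374

section
variable {Ω : Type} [MeasurableSpace Ω] {P : Measure Ω} {E : ℤ × ℤ → Ω → ℝ}

/-- Weights supported on a finite set. -/
noncomputable def jlW (c : ℤ × ℤ → ℝ) (S : Finset (ℤ × ℤ)) (x : S → ℝ) : ℤ × ℤ → ℝ := fun z =>
  if h : z ∈ S then c z * x ⟨z, h⟩ else 0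

lemma jl_meas (c : ℤ × ℤ → ℝ) (S : Finset (ℤ × ℤ)) (D : Set (ℤ × ℤ)) (u v : ℤ × ℤ) :
    Measurable (fun x : S → ℝ => L D (jlW c S x) u v) := by
  refine measurable_L (W := fun x : S → ℝ => jlW c S x) (fun z => ?_) D u v
  unfold jlW
  split_ifs with h
  · fun_prop
  · exact measurable_const

omit [MeasurableSpace Ω] in
lemma jl_congr (c : ℤ × ℤ → ℝ) (S : Finset (ℤ × ℤ)) (D : Set (ℤ × ℤ)) (ω : Ω) {u v : ℤ × ℤ}
    (h : rect u v ⊆ S) :
    L D (jlW c S (fun z => E z ω)) u v = L D (wgt c E ω) u v := by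
  refine L_congr fun z hz _ => ?_
  unfold jlW wgt
  rw [dif_pos (h hz)]

lemma jl_measL (hE : Env P E) (c : ℤ × ℤ → ℝ) (D : Set (ℤ × ℤ)) (u v : ℤ × ℤ) :
    Measurable (fun ω => L D (wgt c E ω) u v) :=
  measurable_L (W := fun ω => wgt c E ω) (fun z => measurable_wgt hE c z) D u v

/-- Law of the forward increments. -/
lemma jl_xi (hB : BurkeGen) (hE : Env P E) {n i R : ℕ} (hiR : i < R) (hRn : R ≤ n) {δ : ℝ}
    (hδ : |δ| < 1 / 2) :
    Measure.map (fun ω (u : Fin (n - R)) => jXi i (wgt (cPhi n δ (1 / 2 - δ)) E ω) u) P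
      = Measure.pi fun _ : Fin (n - R) => expMeasure (1 / 2 + δ) := by
  have hd := abs_lt.1 hδ
  have p1 : 0 < 1 / 2 + δ := by linarith
  have p2 : 0 < 1 / 2 - δ := by linarith
  have := isProbabilityMeasure_expMeasure p1
  have := isProbabilityMeasure_expMeasure p2
  have h := hB Ω P E hE id monotone_id rfl (1 / 2 + δ) (1 / 2 - δ) p1 p2 (by ring) i (n - R)
  have h2 := congrArg (Measure.map Prod.snd) h
  rw [Measure.map_map measurable_snd] at h2
  · rw [(measurePreserving_snd (μ := Measure.pi fun _ : Fin i => expMeasure (1 / 2 - δ))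
      (ν := Measure.pi fun _ : Fin (n - R) => expMeasure (1 / 2 + δ))).map_eq] at h2
    rw [← h2]
    congr 1
    funext ω u
    have key : ∀ x : ℤ, x ≤ n → L Hs (wgt (cPhi n δ (1 / 2 - δ)) E ω) (0, 0) (x, (i : ℤ))
        = L (Dl id) (wgt (cRow id (1 / 2 + δ) (1 / 2 - δ)) E ω) (0, 0) (x, (i : ℤ)) := by
      intro x hx
      rw [Hs_eq]
      refine L_congr fun z hz hz2 => ?_
      rw [mem_rect] at hz
      simp only at hz
      unfold wgt cPhi cRow
      congr 1
      have e1 : (z = (0, 0) ∨ z = ((n : ℤ) + 1, 0) ∨ z = ((n : ℤ) + 1, (n : ℤ) + 1)) ↔ z = (0, 0) := by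
        constructor
        · rintro (h | h | h)
          · exact h
          · rw [h] at hz; simp only at hz; omega
          · rw [h] at hz; simp only at hz; omega
        · exact Or.inl
      have e2 : (z.2 = 0 ∨ z.1 = (n : ℤ) + 1) ↔ z.2 = 0 := by
        constructor
        · rintro (h | h)
          · exact h
          · omega
        · exact Or.inl
      simp only [e1, e2, id]
    have hu := u.2
    simp only [Function.comp, jXi, jA, id]
    rw [key _ (by omega), key _ (by omega)]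
  · refine Measurable.prodMk ?_ ?_
    · exact measurable_pi_lambda _ fun u => (jl_measL hE _ _ _ _).sub (jl_measL hE _ _ _ _)
    · exact measurable_pi_lambda _ fun u => (jl_measL hE _ _ _ _).sub (jl_measL hE _ _ _ _)

lemma refl_inj (N : ℤ) : Function.Injective (refl N) := by
  intro a b h
  have := congrArg (refl N) h
  simpa using this

/-- Law of the backward increments. -/
lemma jl_eta (hB : BurkeGen) (hE : Env P E) {n i R : ℕ} (hiR : i < R) (hRn : R ≤ n) {δ : ℝ}
    (hδ : |δ| < 1 / 2) :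
    IIDExp P (n - R + 1) (fun u ω => jEta n R (wgt (cPhi n δ (1 / 2 - δ)) E ω) u) (1 / 2 - δ) := by
  have hd := abs_lt.1 hδ
  have p1 : 0 < 1 / 2 + δ := by linarith
  have p2 : 0 < 1 / 2 - δ := by linarith
  have := isProbabilityMeasure_expMeasure p1
  have := isProbabilityMeasure_expMeasure p2
  set k := n - R + 1 with hk
  have hE' : Env P (fun z => E (refl ((n : ℤ) + 1) z)) := hE.comp (refl_inj _)
  have h := hB Ω P _ hE' id monotone_id rfl (1 / 2 + δ) (1 / 2 - δ) p1 p2 (by ring) k 0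
  have h2 := congrArg (Measure.map Prod.fst) h
  have hm0 : ∀ j : ℕ, Measurable (fun ω =>
      L (Dl id) (wgt (cRow id (1 / 2 + δ) (1 / 2 - δ)) (fun z => E (refl ((n : ℤ) + 1) z)) ω) (0, 0)
        (id (k : ℤ) + (0 : ℕ), (j : ℤ) + 1)
      - L (Dl id) (wgt (cRow id (1 / 2 + δ) (1 / 2 - δ)) (fun z => E (refl ((n : ℤ) + 1) z)) ω) (0, 0)
        (id (k : ℤ) + (0 : ℕ), (j : ℤ))) :=
    fun j => (jl_measL hE' _ _ _ _).sub (jl_measL hE' _ _ _ _)
  rw [Measure.map_map measurable_fst] at h2
  · rw [(measurePreserving_fst (μ := Measure.pi fun _ : Fin k => expMeasure (1 / 2 - δ))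
      (ν := Measure.pi fun _ : Fin 0 => expMeasure (1 / 2 + δ))).map_eq] at h2
    have h3 : IIDExp P k (fun (j : ℕ) ω =>
        L (Dl id) (wgt (cRow id (1 / 2 + δ) (1 / 2 - δ)) (fun z => E (refl ((n : ℤ) + 1) z)) ω) (0, 0)
          (id (k : ℤ) + (0 : ℕ), (j : ℤ) + 1)
        - L (Dl id) (wgt (cRow id (1 / 2 + δ) (1 / 2 - δ)) (fun z => E (refl ((n : ℤ) + 1) z)) ω) (0, 0)
          (id (k : ℤ) + (0 : ℕ), (j : ℤ))) (1 / 2 - δ) := by
      refine ⟨fun j _ => hm0 j, ?_⟩
      rw [← h2]
      rfl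
    have h4 := h3.comp p2 (k := k) (fun u => k - 1 - u) (by
      intro a ha b hb hab
      simp only [Set.mem_Iio] at ha hb
      simp only at hab
      omega) (by intro a ha; omega)
    have key : ∀ (ω : Ω) (y : ℤ), 0 ≤ y → y ≤ k →
        L Hs (wgt (cPhi n δ (1 / 2 - δ)) E ω) ((n : ℤ) + 1 - y, (R : ℤ)) ((n : ℤ) + 1, (n : ℤ) + 1)
        = L (Dl id) (wgt (cRow id (1 / 2 + δ) (1 / 2 - δ)) (fun z => E (refl ((n : ℤ) + 1) z)) ω) (0, 0)
          (id (k : ℤ) + (0 : ℕ), y) := by
      intro ω y hy0 hy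
      rw [L_refl ((n : ℤ) + 1), refl_Hs, Hs_eq]
      have r1 : refl ((n : ℤ) + 1) ((n : ℤ) + 1, (n : ℤ) + 1) = (0, 0) := by simp [refl]
      have r2 : refl ((n : ℤ) + 1) ((n : ℤ) + 1 - y, (R : ℤ)) = (id (k : ℤ) + (0 : ℕ), y) := by
        simp only [refl, id]
        ext
        · simp only; push_cast; omega
        · simp only; ring
      rw [r1, r2]
      refine L_congr fun z hz hz2 => ?_
      rw [mem_rect] at hz
      simp only [id] at hz
      have hz3 : z.2 ≤ z.1 := hz2
      unfold wgt cPhi cRow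
      congr 1
      have e1 : (refl ((n : ℤ) + 1) z = (0, 0) ∨ refl ((n : ℤ) + 1) z = ((n : ℤ) + 1, 0)
          ∨ refl ((n : ℤ) + 1) z = ((n : ℤ) + 1, (n : ℤ) + 1)) ↔ z = (0, 0) := by
        simp only [refl, Prod.ext_iff]
        omega
      have e2 : ((refl ((n : ℤ) + 1) z).2 = 0 ∨ (refl ((n : ℤ) + 1) z).1 = (n : ℤ) + 1)
          ↔ z.2 = 0 := by
        simp only [refl]
        omega
      have e3 : ((refl ((n : ℤ) + 1) z).1 = (refl ((n : ℤ) + 1) z).2) ↔ z.1 = z.2 := by
        simp only [refl]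
        omega
      simp only [e1, e2, e3, id]
    have key2 : ∀ (ω : Ω) (u : ℕ), u < k → jEta n R (wgt (cPhi n δ (1 / 2 - δ)) E ω) u =
        L (Dl id) (wgt (cRow id (1 / 2 + δ) (1 / 2 - δ)) (fun z => E (refl ((n : ℤ) + 1) z)) ω) (0, 0)
          (id (k : ℤ) + (0 : ℕ), ((k - 1 - u : ℕ) : ℤ) + 1)
        - L (Dl id) (wgt (cRow id (1 / 2 + δ) (1 / 2 - δ)) (fun z => E (refl ((n : ℤ) + 1) z)) ω) (0, 0)
          (id (k : ℤ) + (0 : ℕ), ((k - 1 - u : ℕ) : ℤ)) := by
      intro ω u hu
      rw [← key ω _ (by omega) (by omega), ← key ω _ (by omega) (by omega)]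
      unfold jEta jB
      have q1 : (R : ℤ) + u = (n : ℤ) + 1 - (((k - 1 - u : ℕ) : ℤ) + 1) := by omega
      have q2 : (R : ℤ) + u + 1 = (n : ℤ) + 1 - ((k - 1 - u : ℕ) : ℤ) := by omega
      rw [q2, q1]
    refine ⟨fun u _ => (jl_measL hE _ _ _ _).sub (jl_measL hE _ _ _ _), ?_⟩
    rw [← h4.law]
    congr 1
    funext ω u
    exact key2 ω u u.2
  · refine Measurable.prodMk ?_ ?_
    · exact measurable_pi_lambda _ fun u => hm0 u
    · exact measurable_pi_lambda _ fun u => (jl_measL hE' _ _ _ _).sub (jl_measL hE' _ _ _ _)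

end

/-- Rearranging the factors of a product measure. -/
lemma jl_rearrange {A B C D : Type*} [MeasurableSpace A] [MeasurableSpace B] [MeasurableSpace C]
    [MeasurableSpace D] (μ : Measure A) (ν : Measure B) (κ : Measure C) (τ : Measure D)
    [IsProbabilityMeasure μ] [IsProbabilityMeasure ν] [IsProbabilityMeasure κ]
    [IsProbabilityMeasure τ] :
    Measure.map (fun p : A × (B × (C × D)) => ((p.1, p.2.2.2), (p.2.1, p.2.2.1)))
      (μ.prod (ν.prod (κ.prod τ))) = (μ.prod τ).prod (ν.prod κ) := by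
  have h0 := (measurePreserving_prodAssoc ν κ τ).symm
  have h1 : MeasurePreserving (Prod.swap : (B × C) × D → D × (B × C)) ((ν.prod κ).prod τ)
    (τ.prod (ν.prod κ)) := Measure.measurePreserving_swap
  have h2 := h1.comp h0
  have h3 := (MeasurePreserving.id μ).prod h2
  have h4 := (measurePreserving_prodAssoc μ τ (ν.prod κ)).symm
  have h5 := (h4.comp h3).map_eq
  exact h5

/-- Joint law. -/
theorem t_JLaw (hB : BurkeGen) : JLaw := by
  intro Ω _ P E hE n i R hiR hRn δ hδ
  have := hE.prob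
  have hd := abs_lt.1 hδ
  have p1 : 0 < 1 / 2 + δ := by linarith
  have p2 : 0 < 1 / 2 - δ := by linarith
  have := isProbabilityMeasure_expMeasure p1
  have := isProbabilityMeasure_expMeasure p2
  have : IsProbabilityMeasure (expMeasure 1) := isProbabilityMeasure_expMeasure one_pos
  set m := n - R with hm
  set c := cPhi n δ (1 / 2 - δ) with hc
  let S1 : Finset (ℤ × ℤ) := rect (0, 0) ((n : ℤ) + 1, (i : ℤ))
  let S2 : Finset (ℤ × ℤ) := slabSites n i R
  let S3 : Finset (ℤ × ℤ) := rect ((R : ℤ), (R : ℤ)) ((n : ℤ) + 1, (n : ℤ) + 1)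
  have m2 : ∀ z : ℤ × ℤ, z ∈ S2 → (i : ℤ) + 1 ≤ z.2 ∧ z.2 ≤ (R : ℤ) - 1 := by
    intro z hz
    simp only [S2, slabSites, Finset.mem_product, Finset.mem_Icc] at hz
    exact hz.2
  have hd1 : Disjoint S1 (S2 ∪ S3) := by
    rw [Finset.disjoint_left]
    intro z hz hz'
    rw [Finset.mem_union] at hz'
    simp only [S1, mem_rect] at hz
    rcases hz' with h | h
    · have := m2 z h; omega
    · simp only [S3, mem_rect] at h; omega
  have hd2 : Disjoint S2 S3 := by
    rw [Finset.disjoint_left]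
    intro z hz hz'
    have := m2 z hz
    simp only [S3, mem_rect] at hz'
    omega
  have hX : Measurable (fun ω (u : Fin m) => jXi i (wgt c E ω) u) :=
    measurable_pi_lambda _ fun u => (jl_measL hE _ _ _ _).sub (jl_measL hE _ _ _ _)
  have hY : Measurable (fun ω => (jEta n R (wgt c E ω) m, fun u : Fin m => jEta n R (wgt c E ω) u)) :=
    Measurable.prodMk ((jl_measL hE _ _ _ _).sub (jl_measL hE _ _ _ _))
      (measurable_pi_lambda _ fun u => (jl_measL hE _ _ _ _).sub (jl_measL hE _ _ _ _))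
  have hS : Measurable (fun ω (z : slabSites n i R) => E z ω) :=
    measurable_pi_lambda _ fun z => hE.meas z
  -- the backward increments are functions of the rows from `R` on
  have eta_eq : ∀ (S : Finset (ℤ × ℤ)), S3 ⊆ S → ∀ ω, ∀ u : ℕ,
      jEta n R (jlW c S (fun z => E z ω)) u = jEta n R (wgt c E ω) u := by
    intro S hSS ω u
    unfold jEta jB
    rw [jl_congr c S Hs ω, jl_congr c S Hs ω]
    · refine fun z hz => hSS ?_
      simp only [S3, mem_rect] at hz ⊢; omega
    · refine fun z hz => hSS ?_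
      simp only [S3, mem_rect] at hz ⊢; omega
  have I1 : IndepFun (fun ω (u : Fin m) => jXi i (wgt c E ω) u)
      (fun ω => ((fun z : slabSites n i R => E z ω),
        (jEta n R (wgt c E ω) m, fun u : Fin m => jEta n R (wgt c E ω) u))) P := by
    have h := hE.indep_of_disjoint hd1
      (F := fun x (u : Fin m) => jXi i (jlW c S1 x) u)
      (G := fun x => ((fun z : slabSites n i R => x ⟨z, Finset.mem_union_left _ z.2⟩),
        (jEta n R (jlW c (S2 ∪ S3) x) m, fun u : Fin m => jEta n R (jlW c (S2 ∪ S3) x) u)))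
      (measurable_pi_lambda _ fun u => (jl_meas _ _ _ _ _).sub (jl_meas _ _ _ _ _))
      (Measurable.prodMk (measurable_pi_lambda _ fun z => measurable_pi_apply _)
        (Measurable.prodMk ((jl_meas _ _ _ _ _).sub (jl_meas _ _ _ _ _))
          (measurable_pi_lambda _ fun u => (jl_meas _ _ _ _ _).sub (jl_meas _ _ _ _ _))))
    have e1 : (fun ω => (fun x (u : Fin m) => jXi i (jlW c S1 x) u) (fun z : S1 => E z ω))
        = (fun ω (u : Fin m) => jXi i (wgt c E ω) u) := by
      funext ω u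
      have hu := u.2
      simp only [jXi, jA]
      rw [jl_congr c S1 Hs ω, jl_congr c S1 Hs ω]
      · intro z hz
        simp only [S1, mem_rect] at hz ⊢; omega
      · intro z hz
        simp only [S1, mem_rect] at hz ⊢; omega
    have e2 : (fun ω => (fun x => ((fun z : slabSites n i R => x ⟨z, Finset.mem_union_left _ z.2⟩),
        (jEta n R (jlW c (S2 ∪ S3) x) m, fun u : Fin m => jEta n R (jlW c (S2 ∪ S3) x) u)))
          (fun z : (S2 ∪ S3 : Finset (ℤ × ℤ)) => E z ω))
        = (fun ω => ((fun z : slabSites n i R => E z ω),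
        (jEta n R (wgt c E ω) m, fun u : Fin m => jEta n R (wgt c E ω) u))) := by
      funext ω
      simp only [eta_eq (S2 ∪ S3) Finset.subset_union_right ω]
    rw [← e1, ← e2]
    exact h
  have I2 : IndepFun (fun ω (z : slabSites n i R) => E z ω)
      (fun ω => (jEta n R (wgt c E ω) m, fun u : Fin m => jEta n R (wgt c E ω) u)) P := by
    have h := hE.indep_of_disjoint hd2
      (F := fun x => x)
      (G := fun x => (jEta n R (jlW c S3 x) m, fun u : Fin m => jEta n R (jlW c S3 x) u))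
      measurable_id
      (Measurable.prodMk ((jl_meas _ _ _ _ _).sub (jl_meas _ _ _ _ _))
          (measurable_pi_lambda _ fun u => (jl_meas _ _ _ _ _).sub (jl_meas _ _ _ _ _)))
    have e2 : (fun ω => (fun x => (jEta n R (jlW c S3 x) m, fun u : Fin m => jEta n R (jlW c S3 x) u))
          (fun z : S3 => E z ω))
        = (fun ω => (jEta n R (wgt c E ω) m, fun u : Fin m => jEta n R (wgt c E ω) u)) := by
      funext ω
      simp only [eta_eq S3 (Finset.Subset.refl _) ω]
    rw [← e2]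
    exact h
  -- laws
  have L1 := jl_xi hB hE hiR hRn hδ
  rw [← hm, ← hc] at L1
  have L2 := hE.map_pi (fun z : slabSites n i R => (z : ℤ × ℤ)) Subtype.val_injective
  have L3 : Measure.map (fun ω => (jEta n R (wgt c E ω) m, fun u : Fin m => jEta n R (wgt c E ω) u)) P
      = (expMeasure (1 / 2 - δ)).prod (Measure.pi fun _ : Fin m => expMeasure (1 / 2 - δ)) := by
    have h := jl_eta hB hE hiR hRn hδ
    rw [← hm, ← hc] at h
    have h1 := (measurePreserving_piFinSuccAbove (fun _ : Fin (m + 1) => expMeasure (1 / 2 - δ))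
      (Fin.last m)).map_eq
    rw [← h1, ← h.law, Measure.map_map (MeasurableEquiv.measurable _)
      (measurable_pi_lambda _ fun u : Fin (m + 1) => h.meas u u.2)]
    congr 1
    funext ω
    simp only [Function.comp, MeasurableEquiv.piFinSuccAbove_apply, Fin.insertNthEquiv_symm_apply]
    refine Prod.ext ?_ ?_
    · simp
    · funext u
      simp [Fin.removeNth]
  have M1 := (indepFun_iff_map_prod_eq_prod_map_map hX.aemeasurable (hS.prodMk hY).aemeasurable).1 I1
  have M2 := (indepFun_iff_map_prod_eq_prod_map_map hS.aemeasurable hY.aemeasurable).1 I2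
  rw [M2, L1, L2, L3] at M1
  have M3 := congrArg (Measure.map (fun p : (Fin m → ℝ) × ((slabSites n i R → ℝ) × (ℝ × (Fin m → ℝ)))
      => ((p.1, p.2.2.2), (p.2.1, p.2.2.1)))) M1
  rw [jl_rearrange] at M3
  rw [← M3, Measure.map_map (by fun_prop) (hX.prodMk (hS.prodMk hY))]
  rfl

end Pool.Agent.H374
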