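import Pool.Agent.H374.Stmts

/-!
# Lemma A
-/

set_option autoImplicit false
open MeasureTheory ProbabilityTheory

namespace Pool.Agent.H374

theorem lemA_exp_low {u : ℝ} (hu : |u| ≤ 1) : 1 + u + u ^ 2 / 4 ≤ Real.exp u := by
  have h := Real.exp_bound hu (n := 3) (by norm_num)
  rw [abs_le] at h
  have h1 := h.1
  simp only [Finset.sum_range_succ, Finset.sum_range_zero, Nat.factorial] at h1
  norm_num at h1
  have h2 : |u| ^ 3 ≤ u ^ 2 := by
    have : |u| ^ 3 = |u| * u ^ 2 := by rw [← sq_abs u]; ring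
    rw [this]
    have := mul_le_mul_of_nonneg_right hu (sq_nonneg u)
    linarith
  nlinarith [sq_nonneg u]

theorem lemA_exp_up {u : ℝ} (hu : |u| ≤ 1) : Real.exp u ≤ 1 + u + u ^ 2 := by
  have h := Real.abs_exp_sub_one_sub_id_le hu
  rw [abs_le] at h
  linarith [h.2]

theorem lemA_sq_le_sinh_sq (y : ℝ) : y ^ 2 ≤ Real.sinh y ^ 2 := by
  rcases le_total 0 y with h | h
  · exact pow_le_pow_left₀ h (Real.self_le_sinh_iff.2 h) 2
  · have h1 : -y ≤ Real.sinh (-y) := Real.self_le_sinh_iff.2 (by linarith)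
    have h2 := pow_le_pow_left₀ (by linarith : 0 ≤ -y) h1 2
    rw [Real.sinh_neg] at h2
    nlinarith

theorem lemA_cosh_low (u : ℝ) : u ^ 4 ≤ 16 * (Real.exp u + Real.exp (-u) - 2) := by
  have e1 : Real.exp u + Real.exp (-u) = 2 * Real.cosh u := by
    rw [Real.cosh_eq]
    ring
  have e2 : Real.cosh u = 1 + 2 * Real.sinh (u / 2) ^ 2 := by
    have h1 := Real.cosh_two_mul (u / 2)
    have h2 := Real.cosh_sq (u / 2)
    rw [show 2 * (u / 2) = u by ring] at h1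
    linarith
  have e3 : Real.sinh (u / 2) = 2 * Real.sinh (u / 4) * Real.cosh (u / 4) := by
    have h1 := Real.sinh_two_mul (u / 4)
    rwa [show 2 * (u / 4) = u / 2 by ring] at h1
  have e4 := Real.cosh_sq (u / 4)
  have h1 := lemA_sq_le_sinh_sq (u / 4)
  have h2 : Real.sinh (u / 2) ^ 2 = 4 * Real.sinh (u / 4) ^ 2 * (Real.sinh (u / 4) ^ 2 + 1) := by
    rw [e3, ← e4]
    ring
  have h3 : (u / 4) ^ 4 ≤ Real.sinh (u / 4) ^ 4 := by
    have := pow_le_pow_left₀ (sq_nonneg (u / 4)) h1 2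
    calc (u / 4) ^ 4 = ((u / 4) ^ 2) ^ 2 := by ring
      _ ≤ (Real.sinh (u / 4) ^ 2) ^ 2 := this
      _ = _ := by ring
  rw [e1, e2, h2]
  have h4 : 0 ≤ Real.sinh (u / 4) ^ 2 := sq_nonneg _
  nlinarith

section
variable {Ω : Type} [MeasurableSpace Ω]

theorem lemA_integrable_of_bdd {P : Measure Ω} [IsProbabilityMeasure P] {X : Ω → ℝ}
    (hX : Measurable X) {B : ℝ} (hB : ∀ ω, |X ω| ≤ B) : Integrable X P :=
  Integrable.of_bound hX.aestronglyMeasurable B (Filter.Eventually.of_forall hB)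

theorem lemA_mgf_one {P : Measure Ω} [IsProbabilityMeasure P] {X : Ω → ℝ}
    (hX : Measurable X) {B x : ℝ} (hB : ∀ ω, |X ω| ≤ B) (hx : |x| * B ≤ 1)
    (h0 : ∫ ω, X ω ∂P = 0) :
    Real.exp (x ^ 2 * (∫ ω, X ω ^ 2 ∂P) / 8) ≤ mgf X P x ∧
      mgf X P x ≤ Real.exp (x ^ 2 * ∫ ω, X ω ^ 2 ∂P) := by
  have hu : ∀ ω, |x * X ω| ≤ 1 := by
    intro ω
    rw [abs_mul]
    exact (mul_le_mul_of_nonneg_left (hB ω) (abs_nonneg x)).trans hx
  have i1 : Integrable X P := lemA_integrable_of_bdd hX hB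
  have i2 : Integrable (fun ω => X ω ^ 2) P := by
    refine lemA_integrable_of_bdd (hX.pow_const 2) (B := B ^ 2) (fun ω => ?_)
    rw [abs_pow]
    exact pow_le_pow_left₀ (abs_nonneg _) (hB ω) 2
  have i3 : Integrable (fun ω => Real.exp (x * X ω)) P := by
    refine lemA_integrable_of_bdd (by fun_prop) (B := Real.exp 1) (fun ω => ?_)
    rw [abs_of_pos (Real.exp_pos _)]
    exact Real.exp_le_exp.2 ((le_abs_self _).trans (hu ω))
  set Q := ∫ ω, X ω ^ 2 ∂P with hQ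
  have hQ0 : 0 ≤ Q := integral_nonneg fun ω => sq_nonneg _
  have hq1 : x ^ 2 * Q ≤ 1 := by
    rw [hQ, ← integral_const_mul]
    have : ∫ ω, x ^ 2 * X ω ^ 2 ∂P ≤ ∫ _ω, (1 : ℝ) ∂P := by
      refine integral_mono (i2.const_mul _) (integrable_const _) (fun ω => ?_)
      show x ^ 2 * X ω ^ 2 ≤ 1
      have h := hu ω
      rw [← mul_pow, ← sq_abs]
      exact pow_le_one₀ (abs_nonneg _) h
    simpa using this
  have hq0 : 0 ≤ x ^ 2 * Q := by positivity
  have hmgf : mgf X P x = ∫ ω, Real.exp (x * X ω) ∂P := rfl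
  constructor
  · have h1 : ∫ ω, (1 + x * X ω + (x * X ω) ^ 2 / 4) ∂P ≤ mgf X P x := by
      rw [hmgf]
      refine integral_mono ?_ i3 (fun ω => lemA_exp_low (hu ω))
      refine ((integrable_const _).add (i1.const_mul x)).add ?_
      have : (fun ω => (x * X ω) ^ 2 / 4) = fun ω => (x ^ 2 / 4) * X ω ^ 2 := by
        funext ω
        ring
      rw [this]
      exact i2.const_mul _
    have h2 : ∫ ω, (1 + x * X ω + (x * X ω) ^ 2 / 4) ∂P = 1 + x ^ 2 * Q / 4 := by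
      have e : (fun ω => 1 + x * X ω + (x * X ω) ^ 2 / 4) =
          fun ω => (1 + x * X ω) + (x ^ 2 / 4) * X ω ^ 2 := by
        funext ω
        ring
      have k1 : Integrable (fun ω => 1 + x * X ω) P := (integrable_const _).add (i1.const_mul x)
      have k2 : Integrable (fun ω => (x ^ 2 / 4) * X ω ^ 2) P := i2.const_mul _
      have k3 : Integrable (fun ω => x * X ω) P := i1.const_mul x
      rw [e, integral_add k1 k2, integral_add (integrable_const _) k3, integral_const_mul,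
        integral_const_mul, h0]
      simp only [integral_const, probReal_univ, one_smul]
      ring
    rw [h2] at h1
    refine le_trans ?_ h1
    have h3 : |x ^ 2 * Q / 8| ≤ 1 := by
      rw [abs_of_nonneg (by positivity)]
      linarith
    have h4 := lemA_exp_up h3
    nlinarith
  · have h1 : mgf X P x ≤ ∫ ω, (1 + x * X ω + (x * X ω) ^ 2) ∂P := by
      rw [hmgf]
      refine integral_mono i3 ?_ (fun ω => lemA_exp_up (hu ω))
      refine ((integrable_const _).add (i1.const_mul x)).add ?_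
      have : (fun ω => (x * X ω) ^ 2) = fun ω => (x ^ 2) * X ω ^ 2 := by
        funext ω
        ring
      rw [this]
      exact i2.const_mul _
    have h2 : ∫ ω, (1 + x * X ω + (x * X ω) ^ 2) ∂P = 1 + x ^ 2 * Q := by
      have e : (fun ω => 1 + x * X ω + (x * X ω) ^ 2) =
          fun ω => (1 + x * X ω) + (x ^ 2) * X ω ^ 2 := by
        funext ω
        ring
      have k1 : Integrable (fun ω => 1 + x * X ω) P := (integrable_const _).add (i1.const_mul x)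
      have k2 : Integrable (fun ω => (x ^ 2) * X ω ^ 2) P := i2.const_mul _
      have k3 : Integrable (fun ω => x * X ω) P := i1.const_mul x
      rw [e, integral_add k1 k2, integral_add (integrable_const _) k3, integral_const_mul,
        integral_const_mul, h0]
      simp only [integral_const, probReal_univ, one_smul]
      ring
    rw [h2] at h1
    refine h1.trans ?_
    have := Real.add_one_le_exp (x ^ 2 * Q)
    linarith

/-- bounds for the moment generating function of a sum of bounded centred independent variables -/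
theorem lemA_mgf_sum {P : Measure Ω} [IsProbabilityMeasure P] {M : ℕ} {X : Fin M → Ω → ℝ}
    (hX : ∀ j, Measurable (X j)) {B x : ℝ} (hB : ∀ j ω, |X j ω| ≤ B) (hx : |x| * B ≤ 1)
    (h0 : ∀ j, ∫ ω, X j ω ∂P = 0) (hind : iIndepFun X P) :
    Real.exp (x ^ 2 * (∑ j, ∫ ω, X j ω ^ 2 ∂P) / 8) ≤ ∫ ω, Real.exp (x * ∑ j, X j ω) ∂P ∧
      ∫ ω, Real.exp (x * ∑ j, X j ω) ∂P ≤ Real.exp (x ^ 2 * ∑ j, ∫ ω, X j ω ^ 2 ∂P) := by
  have h1 : ∫ ω, Real.exp (x * ∑ j, X j ω) ∂P = ∏ j, mgf (X j) P x := by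
    rw [← hind.mgf_sum hX Finset.univ]
    unfold mgf
    refine integral_congr_ae (Filter.Eventually.of_forall fun ω => ?_)
    simp [Finset.sum_apply]
  rw [h1]
  constructor
  · rw [Finset.mul_sum, Finset.sum_div, Real.exp_sum]
    exact Finset.prod_le_prod (fun j _ => (Real.exp_pos _).le)
      (fun j _ => (lemA_mgf_one (hX j) (hB j) hx (h0 j)).1)
  · rw [Finset.mul_sum, Real.exp_sum]
    exact Finset.prod_le_prod (fun j _ => mgf_nonneg)
      (fun j _ => (lemA_mgf_one (hX j) (hB j) hx (h0 j)).2)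

/-- fourth moment from the moment generating function -/
theorem lemA_fourth {P : Measure Ω} [IsProbabilityMeasure P] {Y : Ω → ℝ} (hY : Measurable Y)
    {b B s : ℝ} (hb : ∀ ω, |Y ω| ≤ b) (hB : 0 < B) (hs : 0 ≤ s)
    (hm : ∀ x : ℝ, |x| * B ≤ 1 → ∫ ω, Real.exp (x * Y ω) ∂P ≤ Real.exp (x ^ 2 * s ^ 2)) :
    ∫ ω, Y ω ^ 4 ∂P ≤ 64 * s ^ 2 * (s ^ 2 + B ^ 2) := by
  set m := max s B with hmdef
  have hm0 : 0 < m := lt_of_lt_of_le hB (le_max_right _ _)
  set x := 1 / m with hx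
  have hx0 : 0 < x := by positivity
  have hxB : |x| * B ≤ 1 := by
    rw [abs_of_pos hx0, hx, one_div, inv_mul_le_iff₀ hm0, mul_one]
    exact le_max_right _ _
  have hxB' : |(-x)| * B ≤ 1 := by rwa [abs_neg]
  have hxs : x ^ 2 * s ^ 2 ≤ 1 := by
    rw [← mul_pow]
    apply pow_le_one₀ (by positivity)
    rw [hx, one_div, inv_mul_le_iff₀ hm0, mul_one]
    exact le_max_left _ _
  have iexp : ∀ y : ℝ, Integrable (fun ω => Real.exp (y * Y ω)) P := by
    intro y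
    refine lemA_integrable_of_bdd (by fun_prop) (B := Real.exp (|y| * b)) (fun ω => ?_)
    rw [abs_of_pos (Real.exp_pos _)]
    apply Real.exp_le_exp.2
    refine (le_abs_self _).trans ?_
    rw [abs_mul]
    exact mul_le_mul_of_nonneg_left (hb ω) (abs_nonneg _)
  have i4 : Integrable (fun ω => Y ω ^ 4) P := by
    refine lemA_integrable_of_bdd (hY.pow_const 4) (B := b ^ 4) (fun ω => ?_)
    rw [abs_pow]
    exact pow_le_pow_left₀ (abs_nonneg _) (hb ω) 4
  have h1 : ∫ ω, x ^ 4 * Y ω ^ 4 ∂P ≤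
      ∫ ω, 16 * (Real.exp (x * Y ω) + Real.exp (-x * Y ω) - 2) ∂P := by
    refine integral_mono (i4.const_mul _)
      ((((iexp x).add (iexp (-x))).sub (integrable_const _)).const_mul _) (fun ω => ?_)
    show x ^ 4 * Y ω ^ 4 ≤ 16 * (Real.exp (x * Y ω) + Real.exp (-x * Y ω) - 2)
    have := lemA_cosh_low (x * Y ω)
    rw [mul_pow, ← neg_mul] at this
    exact this
  have k1 : Integrable (fun ω => Real.exp (x * Y ω) + Real.exp (-x * Y ω)) P :=
    (iexp x).add (iexp (-x))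
  rw [integral_const_mul, integral_const_mul, integral_sub k1 (integrable_const _),
    integral_add (iexp x) (iexp (-x))] at h1
  have h2 := hm x hxB
  have h3 := hm (-x) hxB'
  rw [neg_sq] at h3
  simp only [integral_const, probReal_univ, one_smul] at h1
  have h4 : Real.exp (x ^ 2 * s ^ 2) ≤ 1 + 2 * (x ^ 2 * s ^ 2) := by
    have hq : 0 ≤ x ^ 2 * s ^ 2 := by positivity
    have := lemA_exp_up (u := x ^ 2 * s ^ 2) (by rwa [abs_of_nonneg hq])
    nlinarith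
  have h5 : x ^ 4 * ∫ ω, Y ω ^ 4 ∂P ≤ 64 * (x ^ 2 * s ^ 2) := by linarith
  have hxm : x * m = 1 := by rw [hx, one_div, inv_mul_cancel₀ hm0.ne']
  have h6 : ∫ ω, Y ω ^ 4 ∂P ≤ 64 * s ^ 2 * m ^ 2 := by
    have e1 : ∫ ω, Y ω ^ 4 ∂P = m ^ 4 * (x ^ 4 * ∫ ω, Y ω ^ 4 ∂P) := by
      rw [← mul_assoc, ← mul_pow, mul_comm m x, hxm, one_pow, one_mul]
    rw [e1]
    calc m ^ 4 * (x ^ 4 * ∫ ω, Y ω ^ 4 ∂P) ≤ m ^ 4 * (64 * (x ^ 2 * s ^ 2)) :=
          mul_le_mul_of_nonneg_left h5 (by positivity)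
      _ = 64 * s ^ 2 * m ^ 2 * (x * m) ^ 2 := by ring
      _ = _ := by rw [hxm]; ring
  have h7 : m ^ 2 ≤ s ^ 2 + B ^ 2 := by
    rcases le_total s B with h | h
    · rw [hmdef, max_eq_right h]
      nlinarith [sq_nonneg s]
    · rw [hmdef, max_eq_left h]
      nlinarith [sq_nonneg B]
  calc ∫ ω, Y ω ^ 4 ∂P ≤ 64 * s ^ 2 * m ^ 2 := h6
    _ ≤ _ := mul_le_mul_of_nonneg_left h7 (by positivity)

/-- Case A: small mean -/
theorem lemA_caseA {P : Measure Ω} [IsProbabilityMeasure P] {Y Z : Ω → ℝ} (hY : Measurable Y)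
    (hZ : Measurable Z) {b s w a e : ℝ} (hb : ∀ ω, |Y ω| ≤ b)
    (hw : 0 < w) (ha : 0 < a) (he : 0 < e) (he1 : e ≤ 1) (hwe : w = e ^ 2 / 100)
    (h0 : ∫ ω, Y ω ∂P = 0) (h2 : ∫ ω, Y ω ^ 2 ∂P = s ^ 2)
    (h4 : ∫ ω, Y ω ^ 4 ∂P ≤ 64 * s ^ 2 * (s ^ 2 + w ^ 4 * a ^ 2))
    (hZ0 : ∀ᵐ ω ∂P, 0 ≤ Z ω) (hZ2 : Integrable (fun ω => Z ω ^ 2) P)
    (hmu : ∫ ω, Z ω ∂P ≤ w ^ 4 * a) :
    s ^ 2 ≤ e * (∫ ω, Z ω ^ 2 ∂P + a * ∫ ω, Z ω ∂P) +
      2 * ∫ ω, (Z ω - ∫ ω', Z ω' ∂P - Y ω) ^ 2 ∂P := by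
  set μ := ∫ ω, Z ω ∂P with hμ
  have hμ0 : 0 ≤ μ := integral_nonneg_of_ae hZ0
  have hZL2 : MemLp Z 2 P := (memLp_two_iff_integrable_sq hZ.aestronglyMeasurable).2 hZ2
  have iZ : Integrable Z P := hZL2.integrable one_le_two
  have iY : Integrable Y P := lemA_integrable_of_bdd hY hb
  have iY2 : Integrable (fun ω => Y ω ^ 2) P := by
    refine lemA_integrable_of_bdd (hY.pow_const 2) (B := b ^ 2) (fun ω => ?_)
    rw [abs_pow]
    exact pow_le_pow_left₀ (abs_nonneg _) (hb ω) 2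
  have iY4 : Integrable (fun ω => Y ω ^ 4) P := by
    refine lemA_integrable_of_bdd (hY.pow_const 4) (B := b ^ 4) (fun ω => ?_)
    rw [abs_pow]
    exact pow_le_pow_left₀ (abs_nonneg _) (hb ω) 4
  have hYL2 : MemLp Y 2 P := (memLp_two_iff_integrable_sq hY.aestronglyMeasurable).2 iY2
  have iYZ : Integrable (fun ω => Y ω * Z ω) P := hYL2.integrable_mul hZL2
  have iR : Integrable (fun ω => (Z ω - μ - Y ω) ^ 2) P := by
    have : MemLp (fun ω => Z ω - μ - Y ω) 2 P := (hZL2.sub (memLp_const μ)).sub hYL2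
    exact this.integrable_sq
  set R2 := ∫ ω, (Z ω - μ - Y ω) ^ 2 ∂P with hR2
  have hR20 : 0 ≤ R2 := integral_nonneg fun ω => sq_nonneg _
  -- lower bound for E[YZ]
  have hlow : 3 / 4 * s ^ 2 ≤ (∫ ω, Y ω * Z ω ∂P) + R2 := by
    have h1 : ∫ ω, (3 / 4 * Y ω ^ 2 + μ * Y ω) ∂P ≤
        ∫ ω, (Y ω * Z ω + (Z ω - μ - Y ω) ^ 2) ∂P := by
      refine integral_mono ((iY2.const_mul _).add (iY.const_mul _)) (iYZ.add iR) (fun ω => ?_)
      show 3 / 4 * Y ω ^ 2 + μ * Y ω ≤ Y ω * Z ω + (Z ω - μ - Y ω) ^ 2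
      nlinarith [sq_nonneg ((Z ω - μ - Y ω) + Y ω / 2)]
    rw [integral_add (iY2.const_mul _) (iY.const_mul _), integral_const_mul, integral_const_mul,
      integral_add iYZ iR, h0, h2] at h1
    linarith
  -- the parameter beta
  have key : ∀ β : ℝ, 0 < β → ∫ ω, Y ω * Z ω ∂P ≤ (w / 2) * (s ^ 2 + a * μ) +
      (e / 2) * (∫ ω, Z ω ^ 2 ∂P) + (1 / (2 * e)) * (β * (32 * s ^ 2 * (s ^ 2 + w ^ 4 * a ^ 2)) +
        μ / (2 * β * (w ^ 2 * a))) := by
    intro β hβ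
    have hτ : 0 < w ^ 2 * a := by positivity
    have hpt : ∀ᵐ ω ∂P, Y ω * Z ω ≤ (w / 2) * Y ω ^ 2 + (w * a / 2) * Z ω + (e / 2) * Z ω ^ 2 +
        (1 / (2 * e)) * (β / 2 * Y ω ^ 4 + (1 / (2 * β * (w ^ 2 * a))) * Z ω) := by
      filter_upwards [hZ0] with ω hz
      have p1 : 0 ≤ (w / 2) * Y ω ^ 2 := by positivity
      have p2 : 0 ≤ (w * a / 2) * Z ω := by positivity
      have p3 : 0 ≤ (e / 2) * Z ω ^ 2 := by positivity
      have p4 : 0 ≤ (1 / (2 * e)) * (β / 2 * Y ω ^ 4 + (1 / (2 * β * (w ^ 2 * a))) * Z ω) := by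
        positivity
      rcases le_total (Z ω) (w ^ 2 * a) with hle | hge
      · have q1 : Y ω * Z ω ≤ (w / 2) * Y ω ^ 2 + (1 / (2 * w)) * Z ω ^ 2 := by
          have h1 : 0 ≤ (w * Y ω - Z ω) ^ 2 / (2 * w) := by positivity
          have h2 : (w * Y ω - Z ω) ^ 2 / (2 * w) =
              (w / 2) * Y ω ^ 2 + (1 / (2 * w)) * Z ω ^ 2 - Y ω * Z ω := by
            field_simp
            ring
          linarith
        have q2 : (1 / (2 * w)) * Z ω ^ 2 ≤ (w * a / 2) * Z ω := by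
          have h1 : Z ω ^ 2 ≤ (w ^ 2 * a) * Z ω := by nlinarith
          have h2 : (1 / (2 * w)) * Z ω ^ 2 ≤ (1 / (2 * w)) * ((w ^ 2 * a) * Z ω) :=
            mul_le_mul_of_nonneg_left h1 (by positivity)
          have h3 : (1 / (2 * w)) * ((w ^ 2 * a) * Z ω) = (w * a / 2) * Z ω := by
            field_simp
          linarith
        linarith
      · have q1 : Y ω * Z ω ≤ (e / 2) * Z ω ^ 2 + (1 / (2 * e)) * Y ω ^ 2 := by
          have h1 : 0 ≤ (e * Z ω - Y ω) ^ 2 / (2 * e) := by positivity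
          have h2 : (e * Z ω - Y ω) ^ 2 / (2 * e) =
              (e / 2) * Z ω ^ 2 + (1 / (2 * e)) * Y ω ^ 2 - Y ω * Z ω := by
            field_simp
            ring
          linarith
        have q2 : Y ω ^ 2 ≤ β / 2 * Y ω ^ 4 + 1 / (2 * β) := by
          have h1 : 0 ≤ (β * Y ω ^ 2 - 1) ^ 2 / (2 * β) := by positivity
          have h2 : (β * Y ω ^ 2 - 1) ^ 2 / (2 * β) =
              β / 2 * Y ω ^ 4 + 1 / (2 * β) - Y ω ^ 2 := by
            field_simp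
            ring
          linarith
        have q3 : 1 / (2 * β) ≤ (1 / (2 * β * (w ^ 2 * a))) * Z ω := by
          have h1 : 1 / (2 * β) = (1 / (2 * β * (w ^ 2 * a))) * (w ^ 2 * a) := by
            field_simp
          rw [h1]
          exact mul_le_mul_of_nonneg_left hge (by positivity)
        have q4 : (1 / (2 * e)) * Y ω ^ 2 ≤
            (1 / (2 * e)) * (β / 2 * Y ω ^ 4 + (1 / (2 * β * (w ^ 2 * a))) * Z ω) :=
          mul_le_mul_of_nonneg_left (by linarith) (by positivity)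
        linarith
    have j1 : Integrable (fun ω => (w / 2) * Y ω ^ 2) P := iY2.const_mul _
    have j2 : Integrable (fun ω => (w * a / 2) * Z ω) P := iZ.const_mul _
    have j3 : Integrable (fun ω => (e / 2) * Z ω ^ 2) P := hZ2.const_mul _
    have j4 : Integrable (fun ω => β / 2 * Y ω ^ 4) P := iY4.const_mul _
    have j5 : Integrable (fun ω => (1 / (2 * β * (w ^ 2 * a))) * Z ω) P := iZ.const_mul _
    have j12 : Integrable (fun ω => (w / 2) * Y ω ^ 2 + (w * a / 2) * Z ω) P := j1.add j2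
    have j123 : Integrable (fun ω => (w / 2) * Y ω ^ 2 + (w * a / 2) * Z ω + (e / 2) * Z ω ^ 2) P :=
      j12.add j3
    have j45 : Integrable (fun ω => β / 2 * Y ω ^ 4 + (1 / (2 * β * (w ^ 2 * a))) * Z ω) P :=
      j4.add j5
    have j6 : Integrable (fun ω => (1 / (2 * e)) * (β / 2 * Y ω ^ 4 +
      (1 / (2 * β * (w ^ 2 * a))) * Z ω)) P := j45.const_mul _
    have h1 := integral_mono_ae iYZ (j123.add j6) hpt
    have h3 : ∫ ω, ((w / 2) * Y ω ^ 2 + (w * a / 2) * Z ω + (e / 2) * Z ω ^ 2 +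
        (1 / (2 * e)) * (β / 2 * Y ω ^ 4 + (1 / (2 * β * (w ^ 2 * a))) * Z ω)) ∂P =
        (w / 2) * s ^ 2 + (w * a / 2) * μ + (e / 2) * (∫ ω, Z ω ^ 2 ∂P) +
          (1 / (2 * e)) * (β / 2 * (∫ ω, Y ω ^ 4 ∂P) + (1 / (2 * β * (w ^ 2 * a))) * μ) := by
      rw [integral_add j123 j6, integral_add j12 j3, integral_add j1 j2, integral_const_mul,
        integral_const_mul, integral_const_mul, integral_const_mul, integral_add j4 j5,
        integral_const_mul, integral_const_mul, h2]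
    have h5 := h1.trans_eq h3
    have h6 : β / 2 * (∫ ω, Y ω ^ 4 ∂P) ≤ β * (32 * s ^ 2 * (s ^ 2 + w ^ 4 * a ^ 2)) := by
      have := mul_le_mul_of_nonneg_left h4 (by positivity : 0 ≤ β / 2)
      linarith
    have h7 : (1 / (2 * β * (w ^ 2 * a))) * μ = μ / (2 * β * (w ^ 2 * a)) := by
      rw [one_div_mul_eq_div]
    have h8 : (1 / (2 * e)) * (β / 2 * (∫ ω, Y ω ^ 4 ∂P) + (1 / (2 * β * (w ^ 2 * a))) * μ) ≤
        (1 / (2 * e)) * (β * (32 * s ^ 2 * (s ^ 2 + w ^ 4 * a ^ 2)) + μ / (2 * β * (w ^ 2 * a))) := by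
      rw [h7]
      exact mul_le_mul_of_nonneg_left (by linarith) (by positivity)
    nlinarith
  -- choice of beta
  have hbeta : ∃ β : ℝ, 0 < β ∧ β * (32 * s ^ 2 * (s ^ 2 + w ^ 4 * a ^ 2)) +
        μ / (2 * β * (w ^ 2 * a)) ≤ 33 * w * s ^ 2 + w * (a * μ) := by
    rcases le_total (s ^ 2) (w ^ 4 * a ^ 2) with hle | hge
    · refine ⟨1 / (2 * w ^ 3 * a ^ 2), by positivity, ?_⟩
      have e1 : μ / (2 * (1 / (2 * w ^ 3 * a ^ 2)) * (w ^ 2 * a)) = w * (a * μ) := by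
        field_simp
      have e2 : 1 / (2 * w ^ 3 * a ^ 2) * (32 * s ^ 2 * (s ^ 2 + w ^ 4 * a ^ 2)) ≤ 32 * w * s ^ 2 := by
        have h1 : 1 / (2 * w ^ 3 * a ^ 2) * (32 * s ^ 2 * (s ^ 2 + w ^ 4 * a ^ 2)) ≤
            1 / (2 * w ^ 3 * a ^ 2) * (32 * s ^ 2 * (2 * (w ^ 4 * a ^ 2))) := by
          apply mul_le_mul_of_nonneg_left _ (by positivity)
          apply mul_le_mul_of_nonneg_left _ (by positivity)
          linarith
        have h2 : 1 / (2 * w ^ 3 * a ^ 2) * (32 * s ^ 2 * (2 * (w ^ 4 * a ^ 2))) =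
            32 * w * s ^ 2 := by
          field_simp
        linarith
      have e3 : 0 ≤ w * s ^ 2 := by positivity
      rw [e1]
      linarith
    · have hspos : 0 < s ^ 2 + w ^ 4 * a ^ 2 := by positivity
      refine ⟨w / (s ^ 2 + w ^ 4 * a ^ 2), by positivity, ?_⟩
      have e1 : w / (s ^ 2 + w ^ 4 * a ^ 2) * (32 * s ^ 2 * (s ^ 2 + w ^ 4 * a ^ 2)) =
          32 * w * s ^ 2 := by
        field_simp
      have e2 : μ / (2 * (w / (s ^ 2 + w ^ 4 * a ^ 2)) * (w ^ 2 * a)) ≤ w * s ^ 2 := by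
        have h1 : μ / (2 * (w / (s ^ 2 + w ^ 4 * a ^ 2)) * (w ^ 2 * a)) =
            μ * (s ^ 2 + w ^ 4 * a ^ 2) / (2 * w ^ 3 * a) := by
          field_simp
        rw [h1, div_le_iff₀ (by positivity)]
        calc μ * (s ^ 2 + w ^ 4 * a ^ 2) ≤ (w ^ 4 * a) * (2 * s ^ 2) :=
              mul_le_mul hmu (by linarith) hspos.le (by positivity)
          _ = w * s ^ 2 * (2 * w ^ 3 * a) := by ring
      have e3 : 0 ≤ w * (a * μ) := by positivity
      rw [e1]
      linarith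
  obtain ⟨β, hβ, hβ2⟩ := hbeta
  have hk := key β hβ
  have h5 : (1 / (2 * e)) * (β * (32 * s ^ 2 * (s ^ 2 + w ^ 4 * a ^ 2)) +
        μ / (2 * β * (w ^ 2 * a))) ≤ (1 / (2 * e)) * (33 * w * s ^ 2 + w * (a * μ)) :=
    mul_le_mul_of_nonneg_left hβ2 (by positivity)
  have h6 : (1 / (2 * e)) * (33 * w * s ^ 2 + w * (a * μ)) =
      (33 * e / 200) * s ^ 2 + (e / 200) * (a * μ) := by
    rw [hwe]
    field_simp
    ring
  have haμ : 0 ≤ a * μ := by positivity
  have hs2 : 0 ≤ s ^ 2 := sq_nonneg s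
  have h7 : (w / 2) * (s ^ 2 + a * μ) ≤ (e / 200) * (s ^ 2 + a * μ) := by
    apply mul_le_mul_of_nonneg_right _ (by positivity)
    rw [hwe]
    nlinarith
  have h8 : (e / 200) * s ^ 2 + (33 * e / 200) * s ^ 2 ≤ (1 / 4) * s ^ 2 := by
    nlinarith
  have h9 : 0 ≤ e * (a * μ) := by positivity
  nlinarith

/-- Case B3: mean and standard deviation are comparable -/
theorem lemA_caseB {P : Measure Ω} [IsProbabilityMeasure P] {Y Z : Ω → ℝ} (hY : Measurable Y)
    (hZ : Measurable Z) {b s t B : ℝ} (hb : ∀ ω, |Y ω| ≤ b) (hs : 0 < s) (ht : 0 ≤ t)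
    (hB : 2 * (16 * (t + 1)) * B ≤ s)
    (hm : ∀ x : ℝ, |x| * B ≤ 1 → Real.exp (x ^ 2 * s ^ 2 / 8) ≤ ∫ ω, Real.exp (x * Y ω) ∂P ∧
      ∫ ω, Real.exp (x * Y ω) ∂P ≤ Real.exp (x ^ 2 * s ^ 2))
    (hZ0 : ∀ᵐ ω ∂P, 0 ≤ Z ω) (hZ2 : Integrable (fun ω => Z ω ^ 2) P)
    (hmu : ∫ ω, Z ω ∂P ≤ t * s) :
    s ^ 2 ≤ Real.exp (4 * (16 * (t + 1)) ^ 2) * ∫ ω, (Z ω - ∫ ω', Z ω' ∂P - Y ω) ^ 2 ∂P := by
  set μ := ∫ ω, Z ω ∂P with hμ
  set θ := 16 * (t + 1) with hθ
  have hθ0 : 0 < θ := by rw [hθ]; linarith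
  have hZL2 : MemLp Z 2 P := (memLp_two_iff_integrable_sq hZ.aestronglyMeasurable).2 hZ2
  have iY2 : Integrable (fun ω => Y ω ^ 2) P := by
    refine lemA_integrable_of_bdd (hY.pow_const 2) (B := b ^ 2) (fun ω => ?_)
    rw [abs_pow]
    exact pow_le_pow_left₀ (abs_nonneg _) (hb ω) 2
  have hYL2 : MemLp Y 2 P := (memLp_two_iff_integrable_sq hY.aestronglyMeasurable).2 iY2
  have iR : Integrable (fun ω => (Z ω - μ - Y ω) ^ 2) P := by
    have : MemLp (fun ω => Z ω - μ - Y ω) 2 P := (hZL2.sub (memLp_const μ)).sub hYL2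
    exact this.integrable_sq
  have iexp : ∀ y : ℝ, Integrable (fun ω => Real.exp (y * Y ω)) P := by
    intro y
    refine lemA_integrable_of_bdd (by fun_prop) (B := Real.exp (|y| * b)) (fun ω => ?_)
    rw [abs_of_pos (Real.exp_pos _)]
    apply Real.exp_le_exp.2
    refine (le_abs_self _).trans ?_
    rw [abs_mul]
    exact mul_le_mul_of_nonneg_left (hb ω) (abs_nonneg _)
  set x := -(θ / s) with hx
  have hxabs : |x| = θ / s := by rw [hx, abs_neg, abs_of_pos (by positivity)]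
  have hxs : x ^ 2 * s ^ 2 = θ ^ 2 := by
    rw [hx]
    field_simp
  have hx1 : |x| * B ≤ 1 := by
    rw [hxabs, div_mul_eq_mul_div, div_le_one hs]
    nlinarith
  have hx2 : |2 * x| * B ≤ 1 := by
    rw [abs_mul, hxabs, abs_two, ← mul_div_assoc, div_mul_eq_mul_div, div_le_one hs]
    exact hB
  have m1 := (hm x hx1).1
  have m2 := (hm (2 * x) hx2).2
  rw [hxs] at m1
  have e2 : (2 * x) ^ 2 * s ^ 2 = 4 * θ ^ 2 := by rw [mul_pow, mul_assoc, hxs]; ring
  rw [e2] at m2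
  set T := θ * (t + 1) with hT
  have hT16 : 16 ≤ T := by
    rw [hT, hθ]
    nlinarith
  have e1 : θ ^ 2 / 8 = 2 * T := by
    rw [hT, hθ]
    ring
  rw [e1] at m1
  set ρ := Real.exp (4 * θ ^ 2) with hρ
  have hρ0 : 0 < ρ := Real.exp_pos _
  set R2 := ∫ ω, (Z ω - μ - Y ω) ^ 2 ∂P with hR2
  have hpt : ∀ᵐ ω ∂P, Real.exp (x * Y ω) ≤ Real.exp T +
      ((1 / (2 * ρ)) * Real.exp (2 * x * Y ω) + (ρ / (2 * s ^ 2)) * (Z ω - μ - Y ω) ^ 2) := by
    filter_upwards [hZ0] with ω hz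
    have p1 : 0 ≤ (1 / (2 * ρ)) * Real.exp (2 * x * Y ω) := by positivity
    have p2 : 0 ≤ (ρ / (2 * s ^ 2)) * (Z ω - μ - Y ω) ^ 2 := by positivity
    rcases le_total (Z ω - μ - Y ω) s with hle | hge
    · have h1 : x * Y ω ≤ T := by
        have h2 : -Y ω ≤ (t + 1) * s := by nlinarith
        have h3 : x * Y ω = (θ / s) * (-Y ω) := by rw [hx]; ring
        rw [h3]
        calc (θ / s) * (-Y ω) ≤ (θ / s) * ((t + 1) * s) :=
              mul_le_mul_of_nonneg_left h2 (by positivity)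
          _ = T := by
              rw [hT]
              field_simp
      have h4 := Real.exp_le_exp.2 h1
      linarith
    · have h1 : Real.exp (x * Y ω) ≤ (1 / (2 * ρ)) * Real.exp (2 * x * Y ω) + ρ / 2 := by
        have h2 : Real.exp (2 * x * Y ω) = Real.exp (x * Y ω) ^ 2 := by
          rw [← Real.exp_nat_mul]
          congr 1
          push_cast
          ring
        rw [h2]
        have h3 : 0 ≤ (Real.exp (x * Y ω) - ρ) ^ 2 / (2 * ρ) := by positivity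
        have h4 : (Real.exp (x * Y ω) - ρ) ^ 2 / (2 * ρ) =
            (1 / (2 * ρ)) * Real.exp (x * Y ω) ^ 2 + ρ / 2 - Real.exp (x * Y ω) := by
          field_simp
          ring
        linarith
      have h5 : ρ / 2 ≤ (ρ / (2 * s ^ 2)) * (Z ω - μ - Y ω) ^ 2 := by
        have h6 : s ^ 2 ≤ (Z ω - μ - Y ω) ^ 2 := pow_le_pow_left₀ hs.le hge 2
        have h7 : ρ / 2 = (ρ / (2 * s ^ 2)) * s ^ 2 := by
          field_simp
        rw [h7]
        exact mul_le_mul_of_nonneg_left h6 (by positivity)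
      have h8 := Real.exp_pos T
      linarith
  have j1 : Integrable (fun ω => (1 / (2 * ρ)) * Real.exp (2 * x * Y ω)) P := (iexp (2 * x)).const_mul _
  have j2 : Integrable (fun ω => (ρ / (2 * s ^ 2)) * (Z ω - μ - Y ω) ^ 2) P := iR.const_mul _
  have h1 : ∫ ω, Real.exp (x * Y ω) ∂P ≤ ∫ ω, (Real.exp T +
      ((1 / (2 * ρ)) * Real.exp (2 * x * Y ω) + (ρ / (2 * s ^ 2)) * (Z ω - μ - Y ω) ^ 2)) ∂P :=
    integral_mono_ae (iexp x) ((integrable_const _).add (j1.add j2)) hpt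
  have j12 : Integrable (fun ω => (1 / (2 * ρ)) * Real.exp (2 * x * Y ω) +
      (ρ / (2 * s ^ 2)) * (Z ω - μ - Y ω) ^ 2) P := j1.add j2
  rw [integral_add (integrable_const _) j12] at h1
  have h2 : ∫ ω, ((1 / (2 * ρ)) * Real.exp (2 * x * Y ω) +
      (ρ / (2 * s ^ 2)) * (Z ω - μ - Y ω) ^ 2) ∂P =
      (1 / (2 * ρ)) * (∫ ω, Real.exp (2 * x * Y ω) ∂P) + (ρ / (2 * s ^ 2)) * R2 := by
    rw [integral_add j1 j2, integral_const_mul, integral_const_mul]
  have h3 : (1 / (2 * ρ)) * (∫ ω, Real.exp (2 * x * Y ω) ∂P) ≤ 1 / 2 := by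
    calc (1 / (2 * ρ)) * (∫ ω, Real.exp (2 * x * Y ω) ∂P) ≤ (1 / (2 * ρ)) * ρ :=
          mul_le_mul_of_nonneg_left m2 (by positivity)
      _ = 1 / 2 := by
          field_simp
  simp only [integral_const, probReal_univ, one_smul] at h1
  have h4 : Real.exp (2 * T) ≤ Real.exp T + 1 / 2 + (ρ / (2 * s ^ 2)) * R2 := by
    have := m1.trans h1
    linarith [h2, h3]
  have h5 : Real.exp (2 * T) = Real.exp T ^ 2 := by
    rw [← Real.exp_nat_mul]
    congr 1
  have h6 : 2 ≤ Real.exp T := by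
    have := Real.add_one_le_exp T
    linarith
  have h7 : 1 / 2 ≤ (ρ / (2 * s ^ 2)) * R2 := by
    rw [h5] at h4
    nlinarith
  have h8 : (ρ / (2 * s ^ 2)) * R2 = (ρ * R2) / (2 * s ^ 2) := by ring
  rw [h8, le_div_iff₀ (by positivity)] at h7
  linarith


/-- second moment of a sum of centred independent variables -/
theorem lemA_sq_sum {P : Measure Ω} [IsProbabilityMeasure P] {M : ℕ} {W : Fin M → Ω → ℝ}
    (hm : ∀ j, Measurable (W j)) (hL : ∀ j, MemLp (W j) 2 P) (h0 : ∀ j, ∫ ω, W j ω ∂P = 0)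
    (hind : iIndepFun W P) :
    ∫ ω, (∑ j, W j ω) ^ 2 ∂P = ∑ j, ∫ ω, W j ω ^ 2 ∂P := by
  have h1 : Var[∑ j, W j; P] = ∑ j, Var[W j; P] :=
    IndepFun.variance_sum (fun j _ => hL j) (fun i _ j _ hij => hind.indepFun hij)
  have h2 : ∀ j, Var[W j; P] = ∫ ω, W j ω ^ 2 ∂P := fun j =>
    variance_of_integral_eq_zero (hm j).aemeasurable (h0 j)
  have h3 : ∫ ω, (∑ j, W j) ω ∂P = 0 := by
    simp only [Finset.sum_apply]
    rw [integral_finsetSum _ (fun j _ => (hL j).integrable one_le_two)]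
    simp [h0]
  have hmeas : Measurable (∑ j, W j) := by
    have h4 : (∑ j, W j) = fun ω => ∑ j, W j ω := by
      funext ω
      simp [Finset.sum_apply]
    rw [h4]
    exact Finset.measurable_sum _ (fun j _ => hm j)
  rw [variance_of_integral_eq_zero hmeas.aemeasurable h3] at h1
  simp only [Finset.sum_apply, h2] at h1
  exact h1

/-- the truncation -/
noncomputable def lemA_phi (v x : ℝ) : ℝ := if |x| ≤ v then x else 0

theorem lemA_phi_meas (v : ℝ) : Measurable (lemA_phi v) := by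
  unfold lemA_phi
  exact Measurable.ite (measurableSet_le (by fun_prop) measurable_const) measurable_id
    measurable_const

theorem lemA_phi_le {v : ℝ} (hv : 0 ≤ v) (x : ℝ) : |lemA_phi v x| ≤ v := by
  unfold lemA_phi
  split_ifs with h
  · exact h
  · simpa using hv

theorem lemA_phi_rest {v : ℝ} (hv : 0 < v) (x : ℝ) :
    (x - lemA_phi v x) ^ 2 ≤ (1 / v ^ 2) * x ^ 4 := by
  unfold lemA_phi
  split_ifs with h
  · rw [sub_self]
    have : 0 ≤ 1 / v ^ 2 * x ^ 4 := by positivity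
    simpa using this
  · rw [sub_zero]
    push Not at h
    have h1 : v ^ 2 ≤ x ^ 2 := by
      rw [← sq_abs x]
      exact pow_le_pow_left₀ hv.le h.le 2
    rw [one_div_mul_eq_div, le_div_iff₀ (by positivity)]
    nlinarith [sq_nonneg x]

/-- the bound for the variance of the truncated sum, all cases -/
theorem lemA_cases {P : Measure Ω} [IsProbabilityMeasure P] {Y Z : Ω → ℝ} (hY : Measurable Y)
    (hZ : Measurable Z) {b s a e r κ w B θ : ℝ} (hb : ∀ ω, |Y ω| ≤ b) (hs : 0 ≤ s)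
    (ha : 0 < a) (hr : 0 < r) (hr1 : r ≤ 1) (he : e = r ^ 2) (hw : w = e ^ 2 / 100)
    (hθ : θ = 16 * (1 / r + 1)) (hκ : κ = r / (4 * θ)) (hB : B = 2 * (κ * w ^ 2 * a))
    (h0 : ∫ ω, Y ω ∂P = 0) (h2 : ∫ ω, Y ω ^ 2 ∂P = s ^ 2)
    (hm : ∀ x : ℝ, |x| * B ≤ 1 → Real.exp (x ^ 2 * s ^ 2 / 8) ≤ ∫ ω, Real.exp (x * Y ω) ∂P ∧
      ∫ ω, Real.exp (x * Y ω) ∂P ≤ Real.exp (x ^ 2 * s ^ 2))
    (hZ0 : ∀ᵐ ω ∂P, 0 ≤ Z ω) (hZ2 : Integrable (fun ω => Z ω ^ 2) P) :
    s ^ 2 ≤ e * (∫ ω, Z ω ^ 2 ∂P + a * ∫ ω, Z ω ∂P) +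
      Real.exp (4 * θ ^ 2) * ∫ ω, (Z ω - ∫ ω', Z ω' ∂P - Y ω) ^ 2 ∂P := by
  have he0 : 0 < e := by rw [he]; positivity
  have he1 : e ≤ 1 := by rw [he]; exact pow_le_one₀ hr.le hr1
  have hw0 : 0 < w := by rw [hw]; positivity
  have hrinv : 1 ≤ 1 / r := by rw [le_div_iff₀ hr]; linarith
  have hθ32 : 32 ≤ θ := by rw [hθ]; linarith
  have hκ0 : 0 < κ := by rw [hκ]; positivity
  have hκ1 : κ ≤ 1 / 128 := by
    rw [hκ, div_le_div_iff₀ (by positivity) (by norm_num)]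
    linarith
  have hB0 : 0 < B := by rw [hB]; positivity
  set μ := ∫ ω, Z ω ∂P with hμ
  have hμ0 : 0 ≤ μ := integral_nonneg_of_ae hZ0
  set R2 := ∫ ω, (Z ω - μ - Y ω) ^ 2 ∂P with hR2
  have hR20 : 0 ≤ R2 := integral_nonneg fun ω => sq_nonneg _
  have hm20 : 0 ≤ ∫ ω, Z ω ^ 2 ∂P := integral_nonneg fun ω => sq_nonneg _
  have hexp : 2 ≤ Real.exp (4 * θ ^ 2) := by
    have := Real.add_one_le_exp (4 * θ ^ 2)
    nlinarith
  have hexp0 : 0 ≤ Real.exp (4 * θ ^ 2) * R2 := by positivity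
  have hZL2 : MemLp Z 2 P := (memLp_two_iff_integrable_sq hZ.aestronglyMeasurable).2 hZ2
  rcases le_or_gt μ (w ^ 4 * a) with hcA | hcB
  · -- case A
    have h4 : ∫ ω, Y ω ^ 4 ∂P ≤ 64 * s ^ 2 * (s ^ 2 + w ^ 4 * a ^ 2) := by
      refine (lemA_fourth hY hb hB0 hs (fun x hx => (hm x hx).2)).trans ?_
      apply mul_le_mul_of_nonneg_left _ (by positivity)
      have : B ^ 2 ≤ w ^ 4 * a ^ 2 := by
        rw [hB]
        have h1 : (2 * (κ * w ^ 2 * a)) ^ 2 = (4 * κ ^ 2) * (w ^ 4 * a ^ 2) := by ring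
        rw [h1]
        have h2 : 4 * κ ^ 2 ≤ 1 := by nlinarith
        have h3 : 0 ≤ w ^ 4 * a ^ 2 := by positivity
        nlinarith
      linarith
    have hA := lemA_caseA hY hZ hb hw0 ha he0 he1 hw h0 h2 h4 hZ0 hZ2 hcA
    rw [← hμ, ← hR2] at hA
    nlinarith
  · by_cases hB1 : s ^ 2 ≤ e * (w ^ 4 * a ^ 2)
    · -- case B1
      have h1 : e * (w ^ 4 * a ^ 2) ≤ e * (a * μ) := by
        apply mul_le_mul_of_nonneg_left _ he0.le
        nlinarith
      have h5 : 0 ≤ e * ∫ ω, Z ω ^ 2 ∂P := by positivity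
      nlinarith
    · push Not at hB1
      have hs0 : 0 < s := by
        rcases hs.lt_or_eq with h | h
        · exact h
        · exfalso
          rw [← h] at hB1
          have : 0 ≤ e * (w ^ 4 * a ^ 2) := by positivity
          nlinarith
      by_cases hB2 : μ ≤ (1 / r) * s
      · -- case B3
        have hsr : r * w ^ 2 * a ≤ s := by
          have h1 : (r * w ^ 2 * a) ^ 2 ≤ s ^ 2 := by
            calc (r * w ^ 2 * a) ^ 2 = e * (w ^ 4 * a ^ 2) := by rw [he]; ring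
              _ ≤ s ^ 2 := hB1.le
          exact le_of_sq_le_sq h1 hs0.le
        have hBs : 2 * (16 * (1 / r + 1)) * B ≤ s := by
          rw [← hθ, hB]
          calc 2 * θ * (2 * (κ * w ^ 2 * a)) = (κ * (4 * θ)) * w ^ 2 * a := by ring
            _ = r * w ^ 2 * a := by
                rw [hκ, div_mul_cancel₀]
                positivity
            _ ≤ s := hsr
        have h3 := lemA_caseB hY hZ hb hs0 (by positivity : (0 : ℝ) ≤ 1 / r) hBs hm hZ0 hZ2 hB2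
        rw [← hμ, ← hR2, ← hθ] at h3
        have h5 : 0 ≤ e * (∫ ω, Z ω ^ 2 ∂P + a * μ) := by positivity
        linarith
      · -- case B2
        push Not at hB2
        have h1 : s ≤ r * μ := by
          have := mul_le_mul_of_nonneg_left hB2.le hr.le
          have h2 : r * (1 / r * s) = s := by field_simp
          linarith
        have h2' : s ^ 2 ≤ e * μ ^ 2 := by
          rw [he, ← mul_pow]
          exact pow_le_pow_left₀ hs h1 2
        have h3 : μ ^ 2 ≤ ∫ ω, Z ω ^ 2 ∂P := by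
          have hv := variance_nonneg Z P
          rw [variance_eq_sub hZL2] at hv
          simp only [Pi.pow_apply] at hv
          linarith
        have h5 : e * μ ^ 2 ≤ e * ∫ ω, Z ω ^ 2 ∂P := mul_le_mul_of_nonneg_left h3 he0.le
        have h6 : 0 ≤ e * (a * μ) := by positivity
        linarith

theorem t_LemmaA : LemmaA := by
  intro ε hε
  set e0 : ℝ := min (ε / 2) 1 with he0
  have he0pos : 0 < e0 := lt_min (by positivity) one_pos
  set r := Real.sqrt e0 with hr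
  have hrpos : 0 < r := Real.sqrt_pos.2 he0pos
  have hr2 : r ^ 2 = e0 := Real.sq_sqrt he0pos.le
  have hr1 : r ≤ 1 := by
    rw [hr, Real.sqrt_le_left one_pos.le, one_pow]
    exact min_le_right _ _
  set e := r ^ 2 with he
  have hepos : 0 < e := by positivity
  have heε : 2 * e ≤ ε := by
    rw [hr2]
    have := min_le_left (ε / 2) 1
    linarith
  set w := e ^ 2 / 100 with hw
  have hwpos : 0 < w := by positivity
  set θ := 16 * (1 / r + 1) with hθ
  have hθpos : 0 < θ := by positivity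
  set κ := r / (4 * θ) with hκ
  have hκpos : 0 < κ := by positivity
  set C1 := Real.exp (4 * θ ^ 2) with hC1
  have hC1pos : 0 < C1 := Real.exp_pos _
  set D := 1 / (κ * w ^ 2) ^ 2 with hD
  have hDpos : 0 < D := by positivity
  refine ⟨(4 * C1 + 2) * (1 + D), by positivity, ?_⟩
  intro Ω _ P _ M Z g a ha hZ hg hZ0 hind hg0 hZ2 hg4
  set v := κ * w ^ 2 * a with hv
  have hvpos : 0 < v := by positivity
  -- integrability
  have hgL2 : ∀ j, MemLp (g j) 2 P := by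
    intro j
    rw [memLp_two_iff_integrable_sq (hg j).aestronglyMeasurable]
    refine ((integrable_const (1 : ℝ)).add (hg4 j)).mono' ((hg j).pow_const 2).aestronglyMeasurable
      (Filter.Eventually.of_forall fun ω => ?_)
    show ‖g j ω ^ 2‖ ≤ 1 + g j ω ^ 4
    rw [Real.norm_of_nonneg (sq_nonneg _)]
    nlinarith [sq_nonneg (g j ω ^ 2 - 1)]
  have hg1 : ∀ j, Integrable (g j) P := fun j => (hgL2 j).integrable one_le_two
  have hZL2 : MemLp Z 2 P := (memLp_two_iff_integrable_sq hZ.aestronglyMeasurable).2 hZ2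
  have hhm : ∀ j, Measurable (fun ω => lemA_phi v (g j ω)) := fun j => (lemA_phi_meas v).comp (hg j)
  have hhi : ∀ j, Integrable (fun ω => lemA_phi v (g j ω)) P := fun j =>
    lemA_integrable_of_bdd (hhm j) (fun ω => lemA_phi_le hvpos.le _)
  set c : Fin M → ℝ := fun j => ∫ ω, lemA_phi v (g j ω) ∂P with hc
  have hcle : ∀ j, |c j| ≤ v := by
    intro j
    have h1 := norm_integral_le_of_norm_le_const (μ := P) (f := fun ω => lemA_phi v (g j ω)) (C := v)
      (Filter.Eventually.of_forall fun ω => lemA_phi_le hvpos.le _)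
    simpa using h1
  -- the truncated and centred variables
  let Yj : Fin M → Ω → ℝ := fun j ω => lemA_phi v (g j ω) - c j
  let Hj : Fin M → Ω → ℝ := fun j ω => g j ω - lemA_phi v (g j ω) + c j
  have hYm : ∀ j, Measurable (Yj j) := fun j => (hhm j).sub_const _
  have hHm : ∀ j, Measurable (Hj j) := fun j => ((hg j).sub (hhm j)).add_const _
  have hYb : ∀ j ω, |Yj j ω| ≤ 2 * v := by
    intro j ω
    have h1 := abs_sub (lemA_phi v (g j ω)) (c j)
    have h2 := lemA_phi_le hvpos.le (g j ω)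
    have h3 := hcle j
    show |lemA_phi v (g j ω) - c j| ≤ 2 * v
    rw [abs_le] at h2 h3 ⊢
    constructor <;> linarith [h2.1, h2.2, h3.1, h3.2]
  have hYind : iIndepFun Yj P :=
    hind.comp (fun j x => lemA_phi v x - c j) (fun j => (lemA_phi_meas v).sub_const _)
  have hHind : iIndepFun Hj P :=
    hind.comp (fun j x => x - lemA_phi v x + c j)
      (fun j => (measurable_id.sub (lemA_phi_meas v)).add_const _)
  have hY0 : ∀ j, ∫ ω, Yj j ω ∂P = 0 := by
    intro j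
    show ∫ ω, (lemA_phi v (g j ω) - c j) ∂P = 0
    rw [integral_sub (hhi j) (integrable_const _)]
    simp [hc]
  have hH0 : ∀ j, ∫ ω, Hj j ω ∂P = 0 := by
    intro j
    show ∫ ω, (g j ω - lemA_phi v (g j ω) + c j) ∂P = 0
    have k1 : Integrable (fun ω => g j ω - lemA_phi v (g j ω)) P := (hg1 j).sub (hhi j)
    rw [integral_add k1 (integrable_const _), integral_sub (hg1 j) (hhi j), hg0 j]
    simp [hc]
  have hhL2 : ∀ j, MemLp (fun ω => lemA_phi v (g j ω)) 2 P := fun j =>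
    MemLp.of_bound (hhm j).aestronglyMeasurable v (Filter.Eventually.of_forall fun ω =>
      lemA_phi_le hvpos.le _)
  have hYL2 : ∀ j, MemLp (Yj j) 2 P := fun j => (hhL2 j).sub (memLp_const _)
  have hHL2 : ∀ j, MemLp (Hj j) 2 P := fun j => ((hgL2 j).sub (hhL2 j)).add (memLp_const _)
  have hYsq := lemA_sq_sum hYm hYL2 hY0 hYind
  have hHsq := lemA_sq_sum hHm hHL2 hH0 hHind
  set F := (1 / v ^ 2) * ∑ j, ∫ ω, g j ω ^ 4 ∂P with hF
  have hG4 : 0 ≤ ∑ j, ∫ ω, g j ω ^ 4 ∂P := Finset.sum_nonneg fun j _ =>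
    integral_nonneg fun ω => by positivity
  have hHF : ∫ ω, (∑ j, Hj j ω) ^ 2 ∂P ≤ F := by
    rw [hHsq, hF, Finset.mul_sum]
    refine Finset.sum_le_sum fun j _ => ?_
    have hKm : Measurable (fun ω => g j ω - lemA_phi v (g j ω)) := (hg j).sub (hhm j)
    have hKi : Integrable (fun ω => g j ω - lemA_phi v (g j ω)) P := (hg1 j).sub (hhi j)
    have h1 : ∫ ω, Hj j ω ^ 2 ∂P = Var[fun ω => g j ω - lemA_phi v (g j ω); P] := by
      rw [variance_eq_integral hKm.aemeasurable]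
      have h2 : ∫ ω, (g j ω - lemA_phi v (g j ω)) ∂P = - c j := by
        rw [integral_sub (hg1 j) (hhi j), hg0 j]
        simp [hc]
      rw [h2]
      refine integral_congr_ae (Filter.Eventually.of_forall fun ω => ?_)
      show (g j ω - lemA_phi v (g j ω) + c j) ^ 2 = (g j ω - lemA_phi v (g j ω) - -c j) ^ 2
      ring
    rw [h1]
    refine (variance_le_expectation_sq hKm.aestronglyMeasurable).trans ?_
    rw [← integral_const_mul]
    refine integral_mono ?_ ((hg4 j).const_mul _) (fun ω => ?_)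
    · exact ((hgL2 j).sub (hhL2 j)).integrable_sq
    · exact lemA_phi_rest hvpos (g j ω)
  -- the sum of the truncated variables
  set s := Real.sqrt (∑ j, ∫ ω, Yj j ω ^ 2 ∂P) with hs
  have hsnn : 0 ≤ ∑ j, ∫ ω, Yj j ω ^ 2 ∂P := Finset.sum_nonneg fun j _ =>
    integral_nonneg fun ω => sq_nonneg _
  have hs2 : s ^ 2 = ∑ j, ∫ ω, Yj j ω ^ 2 ∂P := Real.sq_sqrt hsnn
  let Y : Ω → ℝ := fun ω => ∑ j, Yj j ω
  have hYmeas : Measurable Y := Finset.measurable_sum _ (fun j _ => hYm j)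
  have hYbd : ∀ ω, |Y ω| ≤ M * (2 * v) := by
    intro ω
    refine (Finset.abs_sum_le_sum_abs _ _).trans ?_
    refine (Finset.sum_le_sum (fun j _ => hYb j ω)).trans ?_
    simp
  have hYint : ∫ ω, Y ω ∂P = 0 := by
    show ∫ ω, ∑ j, Yj j ω ∂P = 0
    rw [integral_finsetSum _ (fun j _ => (hYL2 j).integrable one_le_two)]
    simp [hY0]
  have hmg : ∀ x : ℝ, |x| * (2 * v) ≤ 1 →
      Real.exp (x ^ 2 * s ^ 2 / 8) ≤ ∫ ω, Real.exp (x * Y ω) ∂P ∧
      ∫ ω, Real.exp (x * Y ω) ∂P ≤ Real.exp (x ^ 2 * s ^ 2) := by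
    intro x hx
    rw [hs2]
    exact lemA_mgf_sum hYm hYb hx hY0 hYind
  have hmain := lemA_cases (θ := θ) (κ := κ) (w := w) (B := 2 * v) hYmeas hZ hYbd
    (Real.sqrt_nonneg _) ha hrpos hr1 he hw hθ hκ (by rw [hv]) hYint (hYsq.trans hs2.symm) hmg
    hZ0 hZ2
  -- comparison of the remainders
  set μ := ∫ ω, Z ω ∂P with hμ
  have hSplit : ∀ ω, ∑ j, g j ω = Y ω + ∑ j, Hj j ω := by
    intro ω
    show ∑ j, g j ω = ∑ j, Yj j ω + ∑ j, Hj j ω
    rw [← Finset.sum_add_distrib]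
    refine Finset.sum_congr rfl fun j _ => ?_
    show g j ω = (lemA_phi v (g j ω) - c j) + (g j ω - lemA_phi v (g j ω) + c j)
    ring
  have hYL : MemLp Y 2 P := memLp_finsetSum _ (fun j _ => hYL2 j)
  have hHL : MemLp (fun ω => ∑ j, Hj j ω) 2 P := memLp_finsetSum _ (fun j _ => hHL2 j)
  have hgL : MemLp (fun ω => ∑ j, g j ω) 2 P := memLp_finsetSum _ (fun j _ => hgL2 j)
  have iH : Integrable (fun ω => (∑ j, Hj j ω) ^ 2) P := hHL.integrable_sq
  have iY : Integrable (fun ω => Y ω ^ 2) P := hYL.integrable_sq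
  have iR : Integrable (fun ω => (Z ω - μ - ∑ j, g j ω) ^ 2) P :=
    ((hZL2.sub (memLp_const μ)).sub hgL).integrable_sq
  have iR' : Integrable (fun ω => (Z ω - μ - Y ω) ^ 2) P :=
    ((hZL2.sub (memLp_const μ)).sub hYL).integrable_sq
  have iG : Integrable (fun ω => (∑ j, g j ω) ^ 2) P := hgL.integrable_sq
  have hR' : ∫ ω, (Z ω - μ - Y ω) ^ 2 ∂P ≤ 2 * (∫ ω, (Z ω - μ - ∑ j, g j ω) ^ 2 ∂P) + 2 * F := by
    have h1 : ∫ ω, (Z ω - μ - Y ω) ^ 2 ∂P ≤
        ∫ ω, (2 * (Z ω - μ - ∑ j, g j ω) ^ 2 + 2 * (∑ j, Hj j ω) ^ 2) ∂P := by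
      refine integral_mono iR' ((iR.const_mul 2).add (iH.const_mul 2)) (fun ω => ?_)
      show (Z ω - μ - Y ω) ^ 2 ≤ 2 * (Z ω - μ - ∑ j, g j ω) ^ 2 + 2 * (∑ j, Hj j ω) ^ 2
      have h2 : Z ω - μ - Y ω = (Z ω - μ - ∑ j, g j ω) + ∑ j, Hj j ω := by
        rw [hSplit ω]
        ring
      rw [h2]
      nlinarith [sq_nonneg ((Z ω - μ - ∑ j, g j ω) - ∑ j, Hj j ω)]
    rw [integral_add (iR.const_mul 2) (iH.const_mul 2), integral_const_mul, integral_const_mul] at h1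
    linarith
  have hS : ∫ ω, (∑ j, g j ω) ^ 2 ∂P ≤ 2 * s ^ 2 + 2 * F := by
    have h1 : ∫ ω, (∑ j, g j ω) ^ 2 ∂P ≤ ∫ ω, (2 * Y ω ^ 2 + 2 * (∑ j, Hj j ω) ^ 2) ∂P := by
      refine integral_mono iG ((iY.const_mul 2).add (iH.const_mul 2)) (fun ω => ?_)
      show (∑ j, g j ω) ^ 2 ≤ 2 * Y ω ^ 2 + 2 * (∑ j, Hj j ω) ^ 2
      rw [hSplit ω]
      nlinarith [sq_nonneg (Y ω - ∑ j, Hj j ω)]
    rw [integral_add (iY.const_mul 2) (iH.const_mul 2), integral_const_mul, integral_const_mul] at h1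
    have h2 : ∫ ω, Y ω ^ 2 ∂P = s ^ 2 := hYsq.trans hs2.symm
    rw [h2] at h1
    linarith
  have hFe : F = D * (a⁻¹ ^ 2 * ∑ j, ∫ ω, g j ω ^ 4 ∂P) := by
    rw [hF, hD, hv]
    field_simp
  set R2 := ∫ ω, (Z ω - μ - ∑ j, g j ω) ^ 2 ∂P with hR2
  have hR20 : 0 ≤ R2 := integral_nonneg fun ω => sq_nonneg _
  set G4 := a⁻¹ ^ 2 * ∑ j, ∫ ω, g j ω ^ 4 ∂P with hG4'
  have hG40 : 0 ≤ G4 := by positivity
  have hZ2n : 0 ≤ ∫ ω, Z ω ^ 2 ∂P := integral_nonneg fun ω => sq_nonneg _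
  have hμ0 : 0 ≤ μ := integral_nonneg_of_ae hZ0
  have hE : 0 ≤ ∫ ω, Z ω ^ 2 ∂P + a * μ := by positivity
  have hm1 : C1 * ∫ ω, (Z ω - μ - Y ω) ^ 2 ∂P ≤ C1 * (2 * R2 + 2 * F) :=
    mul_le_mul_of_nonneg_left hR' hC1pos.le
  have hm2 : s ^ 2 ≤ e * (∫ ω, Z ω ^ 2 ∂P + a * μ) + C1 * (2 * R2 + 2 * F) := by linarith
  have hm3 : 2 * e * (∫ ω, Z ω ^ 2 ∂P + a * μ) ≤ ε * (∫ ω, Z ω ^ 2 ∂P + a * μ) :=
    mul_le_mul_of_nonneg_right heε hE
  calc ∫ ω, (∑ j, g j ω) ^ 2 ∂P ≤ 2 * s ^ 2 + 2 * F := hS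
    _ ≤ 2 * e * (∫ ω, Z ω ^ 2 ∂P + a * μ) + 4 * C1 * R2 + (4 * C1 + 2) * F := by linarith
    _ ≤ ε * (∫ ω, Z ω ^ 2 ∂P + a * μ) + (4 * C1 + 2) * (1 + D) * (R2 + G4) := by
        rw [hFe]
        have k1 : 0 ≤ C1 * D * R2 := by positivity
        have k2 : 0 ≤ D * R2 := by positivity
        have k3 : 0 ≤ C1 * G4 := by positivity
        nlinarith

end

end Pool.Agent.H374
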