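import Pool.Agent.H374.Det
import Pool.Agent.H374.Stmts
import Pool.Agent.H374.Tools

/-!
# Resampling for one pair of diagonal sites
-/

set_option autoImplicit false
open MeasureTheory ProbabilityTheory

namespace Pool.Agent.H374

section
variable {Ω : Type} [MeasurableSpace Ω] {P : Measure Ω}

lemma pa_memLp_entry {f : Ω → ℝ} (hm : Measurable f) (hl : Measure.map f P = expMeasure 1) :
    MemLp f 2 P := by
  rw [memLp_two_iff_integrable_sq hm.aestronglyMeasurable]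
  have h1 := integrable_pow_expMeasure (r := 1) one_pos 2
  rw [← hl] at h1
  exact h1.comp_measurable hm

lemma pa_memLp_L {F : ℤ × ℤ → Ω → ℝ} (hm : ∀ z, Measurable (F z))
    (hl : ∀ z, Measure.map (F z) P = expMeasure 1) (D : Set (ℤ × ℤ)) (c : ℤ × ℤ → ℝ)
    (u v : ℤ × ℤ) : MemLp (fun ω => L D (wgt c F ω) u v) 2 P := by
  have h1 : MemLp (fun ω => ∑ z ∈ rect u v, |wgt c F ω z|) 2 P :=
    memLp_finsetSum _ fun z _ => ((pa_memLp_entry (hm z) (hl z)).const_mul (c z)).abs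
  refine h1.mono (measurable_L (fun z => (hm z).const_mul (c z)) D u v).aestronglyMeasurable
    (Filter.Eventually.of_forall fun ω => ?_)
  have h2 : 0 ≤ ∑ z ∈ rect u v, |wgt c F ω z| := Finset.sum_nonneg fun z _ => abs_nonneg _
  rw [Real.norm_eq_abs, Real.norm_eq_abs, abs_of_nonneg h2]
  exact abs_L_le D _ u v

/-- reindexing which realises the resampled diagonal in the half-space -/
def pa_sig (z : ℤ × ℤ) : ℤ × ℤ := if z.1 ≤ z.2 then (z.1, z.2 + 1) else z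

lemma pa_sig_inj : Function.Injective pa_sig := by
  rintro ⟨a, b⟩ ⟨c, d⟩ h
  unfold pa_sig at h
  simp only at h
  split_ifs at h with h1 h2 h2 <;> simp only [Prod.mk.injEq] at h ⊢ <;> omega

omit [MeasurableSpace Ω] in
lemma pa_resamp_Hs (E : ℤ × ℤ → Ω → ℝ) (c : ℤ × ℤ → ℝ) (ω : Ω) (u v : ℤ × ℤ) :
    L Hs (wgt c (resamp E) ω) u v = L Hs (wgt c (fun z => E (pa_sig z)) ω) u v := by
  refine L_congr fun z _ hz => ?_
  simp only [Hs, Set.mem_ofPred_eq] at hz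
  simp only [wgt, resamp, pa_sig]
  by_cases h : z.1 = z.2
  · rw [if_pos h, if_pos h.le, h]
  · rw [if_neg h, if_neg (by omega)]

lemma pa_X_shift (w : ℤ × ℤ → ℝ) (s t : ℤ) :
    X w s t = X (fun z => w (z + (s, s))) 0 (t - s) := by
  unfold X
  have h1 := L_shift Hs w (s, s) (0 + 1, 0 + 1) (t - s, t - s)
  rw [shift_Hs] at h1
  rw [← h1]
  congr 1
  · ext <;> simp [add_comm]
  · ext <;> simp

lemma pa_cH_shift (α : ℝ) (z : ℤ × ℤ) (s : ℤ) : cH α (z + (s, s)) = cH α z := by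
  unfold cH
  simp

lemma pa_L1 {f : Ω → ℝ} [IsProbabilityMeasure P] (hf : MemLp f 2 P) {l : ℝ} (hl : 0 < l)
    (h : ∫ ω, f ω ^ 2 ∂P ≤ l ^ 2) : ∫ ω, |f ω| ∂P ≤ l := by
  have hi : Integrable (fun ω => f ω ^ 2) P := hf.integrable_sq
  have h1 : ∫ ω, |f ω| ∂P ≤ ∫ ω, (f ω ^ 2 * (2 * l)⁻¹ + l / 2) ∂P := by
    refine integral_mono (hf.integrable (by norm_num)).abs
      ((hi.mul_const _).add (integrable_const _)) fun ω => ?_
    have h2 : 0 ≤ (|f ω| - l) ^ 2 := sq_nonneg _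
    have h3 : |f ω| * (2 * l) ≤ f ω ^ 2 + l ^ 2 := by
      have h4 : |f ω| ^ 2 = f ω ^ 2 := sq_abs _
      nlinarith
    have h5 : |f ω| ≤ (f ω ^ 2 + l ^ 2) / (2 * l) := by
      rw [le_div_iff₀ (by positivity)]; exact h3
    refine h5.trans (le_of_eq ?_)
    field_simp
  rw [integral_add (hi.mul_const _) (integrable_const _), integral_mul_const] at h1
  simp only [integral_const, probReal_univ, smul_eq_mul, one_mul] at h1
  have h2 : (∫ ω, f ω ^ 2 ∂P) * (2 * l)⁻¹ ≤ l ^ 2 * (2 * l)⁻¹ := by gcongr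
  have h3 : l ^ 2 * (2 * l)⁻¹ = l / 2 := by field_simp
  linarith

end

theorem t_PairResample (h1 : PhiResample) (h2 : PhiClose) : PairResample := by
  intro κ η hκ hη
  obtain ⟨C, hC, hclose⟩ := h2
  obtain ⟨K0, hK1, hK2, hK3⟩ : ∃ K0 : ℝ, 1 ≤ K0 ∧ 2 * κ ≤ K0 ∧ 4 * C / η ≤ K0 :=
    ⟨max 1 (max (2 * κ) (4 * C / η)), le_max_left _ _,
      (le_max_left _ _).trans (le_max_right _ _), (le_max_right _ _).trans (le_max_right _ _)⟩
  have hK0 : 0 < K0 := by linarith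
  obtain ⟨N, hN, n1, hres⟩ := h1 K0 (η ^ 2 / 4) hK0 (by positivity)
  obtain ⟨n2, hcl⟩ := hclose K0 hK1
  refine ⟨N, hN, max n1 n2, ?_⟩
  intro Ω _ P E hE s t hn0 hst hdvd α hα
  have := hE.prob
  obtain ⟨n, hn⟩ : ∃ n : ℕ, t - s = n := ⟨(t - s).toNat, by omega⟩
  have hnR : (t : ℝ) - s = n := by
    have := congrArg (fun k : ℤ => (k : ℝ)) hn
    push_cast at this
    exact this
  rw [hn] at hn0 hdvd
  have hnn : max n1 n2 ≤ n := by exact_mod_cast hn0
  have hn1 : n1 ≤ n := (le_max_left _ _).trans hnn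
  have hn2 : n2 ≤ n := (le_max_right _ _).trans hnn
  have hnpos : 0 < n := by omega
  have hnposR : (0 : ℝ) < n := by exact_mod_cast hnpos
  rw [hnR] at hα ⊢
  have hα' : |α - 1 / 2| ≤ K0 / 2 * (n : ℝ) ^ (-(1 : ℝ) / 3) := by
    refine hα.trans ?_
    have : 0 ≤ (n : ℝ) ^ (-(1 : ℝ) / 3) := by positivity
    gcongr
    linarith
  -- the shifted environment
  set E' : ℤ × ℤ → Ω → ℝ := fun z => E (z + (s, s)) with hE'def
  have hE' : Env P E' := hE.comp (σ := fun z => z + (s, s)) (add_left_injective _)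
  set E'' : ℤ × ℤ → Ω → ℝ := fun z => E' (pa_sig z) with hE''def
  have hE'' : Env P E'' := hE'.comp pa_sig_inj
  have hX1 : ∀ ω, X (wgt (cH α) E ω) s t = X (wgt (cH α) E' ω) 0 n := by
    intro ω
    rw [pa_X_shift, hn]
    congr 1
    funext z
    simp only [wgt, pa_cH_shift, hE'def]
  have hX2 : ∀ ω, X (wgt (cH α) (resamp E) ω) s t = X (wgt (cH α) E'' ω) 0 n := by
    intro ω
    rw [pa_X_shift, hn]
    have h3 : (fun z => wgt (cH α) (resamp E) ω (z + (s, s))) = wgt (cH α) (resamp E') ω := by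
      funext z
      simp only [wgt, pa_cH_shift, hE'def, resamp, Prod.fst_add, Prod.snd_add]
      by_cases h : z.1 = z.2
      · have h5 : ((z.1 + s, z.1 + s + 1) : ℤ × ℤ) = (z.1, z.1 + 1) + (s, s) := by
          refine Prod.ext rfl ?_
          simp only [Prod.snd_add]
          ring
        rw [if_pos h, if_pos (by omega), h5]
      · rw [if_neg h, if_neg (by omega)]
    rw [h3]
    exact pa_resamp_Hs E' (cH α) ω _ _
  simp only [hX1, hX2]
  set c : ℤ × ℤ → ℝ := cPhi n (K0 * (n : ℝ) ^ (-(1 : ℝ) / 3)) α with hc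
  have hP2 : ∀ ω, Phi n (wgt c (resamp E') ω) = Phi n (wgt c E'' ω) := fun ω =>
    pa_resamp_Hs E' c ω _ _
  have hA := hcl n hn2 α hα' Ω P E' hE'
  have hB := hcl n hn2 α hα' Ω P E'' hE''
  have hD := hres n hn1 (by exact_mod_cast hdvd) α hα' Ω P E' hE'
  rw [← hc] at hA hB hD
  simp only [hP2] at hD
  -- integrability
  have m1 : MemLp (fun ω => Phi n (wgt c E' ω)) 2 P :=
    pa_memLp_L hE'.meas hE'.law Hs c _ _
  have m2 : MemLp (fun ω => Phi n (wgt c E'' ω)) 2 P :=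
    pa_memLp_L hE''.meas hE''.law Hs c _ _
  have m3 : MemLp (fun ω => X (wgt (cH α) E' ω) 0 n) 2 P :=
    pa_memLp_L hE'.meas hE'.law Hs (cH α) _ _
  have m4 : MemLp (fun ω => X (wgt (cH α) E'' ω) 0 n) 2 P :=
    pa_memLp_L hE''.meas hE''.law Hs (cH α) _ _
  have i1 : Integrable (fun ω => |Phi n (wgt c E' ω) - X (wgt (cH α) E' ω) 0 n|) P :=
    ((m1.sub m3).integrable (by norm_num)).abs
  have i2 : Integrable (fun ω => |Phi n (wgt c E'' ω) - X (wgt (cH α) E'' ω) 0 n|) P :=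
    ((m2.sub m4).integrable (by norm_num)).abs
  have i3 : Integrable (fun ω => |Phi n (wgt c E' ω) - Phi n (wgt c E'' ω)|) P :=
    ((m1.sub m2).integrable (by norm_num)).abs
  have hl : 0 < η / 2 * (n : ℝ) ^ ((1 : ℝ) / 3) := by positivity
  have hcube : ((n : ℝ) ^ ((1 : ℝ) / 3)) ^ 2 = (n : ℝ) ^ ((2 : ℝ) / 3) := by
    rw [← Real.rpow_natCast, ← Real.rpow_mul hnposR.le]
    norm_num
  have hF := pa_L1 (m1.sub m2) hl (by
    rw [mul_pow, hcube]
    refine le_trans hD (le_of_eq ?_)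
    ring)
  have hG : ∫ ω, |X (wgt (cH α) E' ω) 0 n - X (wgt (cH α) E'' ω) 0 n| ∂P ≤
      ∫ ω, ((|Phi n (wgt c E' ω) - X (wgt (cH α) E' ω) 0 n| +
        |Phi n (wgt c E'' ω) - X (wgt (cH α) E'' ω) 0 n|) +
        |Phi n (wgt c E' ω) - Phi n (wgt c E'' ω)|) ∂P := by
    refine integral_mono ((m3.sub m4).integrable (by norm_num)).abs ((i1.add i2).add i3) fun ω => ?_
    simp only
    have e1 := abs_sub_le (X (wgt (cH α) E' ω) 0 n) (Phi n (wgt c E' ω))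
      (X (wgt (cH α) E'' ω) 0 n)
    have e2 := abs_sub_le (Phi n (wgt c E' ω)) (Phi n (wgt c E'' ω))
      (X (wgt (cH α) E'' ω) 0 n)
    rw [abs_sub_comm (X (wgt (cH α) E' ω) 0 n) (Phi n (wgt c E' ω))] at e1
    linarith
  have e3 : ∫ ω, ((|Phi n (wgt c E' ω) - X (wgt (cH α) E' ω) 0 n| +
        |Phi n (wgt c E'' ω) - X (wgt (cH α) E'' ω) 0 n|) +
        |Phi n (wgt c E' ω) - Phi n (wgt c E'' ω)|) ∂P =
      ∫ ω, (|Phi n (wgt c E' ω) - X (wgt (cH α) E' ω) 0 n| +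
        |Phi n (wgt c E'' ω) - X (wgt (cH α) E'' ω) 0 n|) ∂P +
      ∫ ω, |Phi n (wgt c E' ω) - Phi n (wgt c E'' ω)| ∂P := integral_add (i1.add i2) i3
  rw [e3, integral_add i1 i2] at hG
  have hCK : C / K0 ≤ η / 4 := by
    rw [div_le_iff₀ hK0]
    rw [div_le_iff₀ hη] at hK3
    linarith
  have hn3 : 0 ≤ (n : ℝ) ^ ((1 : ℝ) / 3) := by positivity
  have hCK' : C / K0 * (n : ℝ) ^ ((1 : ℝ) / 3) ≤ η / 4 * (n : ℝ) ^ ((1 : ℝ) / 3) := by gcongr
  have hF' : ∫ ω, |Phi n (wgt c E' ω) - Phi n (wgt c E'' ω)| ∂P ≤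
      η / 2 * (n : ℝ) ^ ((1 : ℝ) / 3) := hF
  linarith

end Pool.Agent.H374
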