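import Pool.Agent.H374.Det
import Pool.Agent.H374.Stmts
import Pool.Agent.H374.Tools

set_option autoImplicit false
open MeasureTheory ProbabilityTheory

namespace Pool.Agent.H374

/-! ## Deterministic part -/

lemma pc_end_mem {D : Set (ℤ × ℤ)} {u v : ℤ × ℤ} {x : ℤ → ℤ} (hx : x ∈ Path D u v)
    (h : tm u ≤ tm v) : v ∈ D := by
  have h1 := p_mem hx h le_rfl
  have e : vert x (tm v) = v := by
    ext
    · exact hx.2.2.1
    · show tm v - x (tm v) = v.2
      rw [hx.2.2.1]; simp only [tm]; ring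
  rwa [e] at h1

lemma pc_start_mem {D : Set (ℤ × ℤ)} {u v : ℤ × ℤ} {x : ℤ → ℤ} (hx : x ∈ Path D u v)
    (h : tm u ≤ tm v) : u ∈ D := by
  have h1 := p_mem hx le_rfl h
  have e : vert x (tm u) = u := by
    ext
    · exact hx.2.1
    · show tm u - x (tm u) = u.2
      rw [hx.2.1]; simp only [tm]; ring
  rwa [e] at h1

lemma pc_row (w : ℤ × ℤ → ℝ) (z : ℕ) :
    L Hs w (0, 0) ((z : ℤ), 0) = w (0, 0) + ∑ i ∈ Finset.range z, w ((i : ℤ) + 1, 0) := by
  induction z with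
  | zero =>
    have := L_self (w := w) (D := Hs) (u := (0, 0)) (diag_mem_Hs 0)
    simpa using this
  | succ z ih =>
    rw [L_rec_left (v := (((z + 1 : ℕ) : ℤ), (0 : ℤ))) RD_Hs (diag_mem_Hs 0)
      (by simp only; push_cast; omega) rfl]
    have e : (((z + 1 : ℕ) : ℤ), (0 : ℤ)).1 - 1 = (z : ℤ) := by push_cast; ring
    rw [e]
    simp only at ih ⊢
    rw [ih, Finset.sum_range_succ]
    push_cast
    ring

lemma pc_colsum (w : ℤ × ℤ → ℝ) (N c : ℤ) (m : ℕ) (h : c + m ≤ N) :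
    L Hs w (N, c) (N, c + m) = ∑ i ∈ Finset.range (m + 1), w (N, c + i) := by
  induction m with
  | zero =>
    have hm : ((N, c) : ℤ × ℤ) ∈ Hs := by simp only [Hs, Set.mem_ofPred_eq]; simpa using h
    have := L_self (w := w) (D := Hs) hm
    simpa using this
  | succ m ih =>
    have hu : ((N, c) : ℤ × ℤ) ∈ Hs := by
      simp only [Hs, Set.mem_ofPred_eq]; push_cast at h; omega
    have hv : ((N, c + ((m + 1 : ℕ) : ℤ)) : ℤ × ℤ) ∈ Hs := by
      simp only [Hs, Set.mem_ofPred_eq]; exact h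
    rw [L_rec_down RD_Hs hu hv le_rfl (by simp only; push_cast; omega) (Or.inl rfl)]
    have e : ((N, c + ((m + 1 : ℕ) : ℤ)) : ℤ × ℤ).2 - 1 = c + m := by
      simp only; push_cast; ring
    rw [e]
    simp only
    rw [ih (by push_cast at h; omega), Finset.sum_range_succ _ (m + 1)]

lemma pc_cross (n : ℕ) (w wg : ℤ × ℤ → ℝ)
    (hag : ∀ z : ℤ × ℤ, 1 ≤ z.2 → z.1 ≤ n → w z = wg z)
    (hrow : ∀ i : ℤ, 0 ≤ i → i ≤ n → w (i, 0) ≤ wg (i, 0)) (j : ℤ) (hj : 1 ≤ j)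
    (hjn : j + 1 ≤ n) :
    L Hs wg (0, 0) ((n : ℤ), j + 1) + L Hs w (0, 0) ((n : ℤ), j) ≤
      L Hs w (0, 0) ((n : ℤ), j + 1) + L Hs wg (0, 0) ((n : ℤ), j) := by
  have hm1 : (((n : ℤ), j + 1) : ℤ × ℤ) ∈ Hs := by simp only [Hs, Set.mem_ofPred_eq]; omega
  have hm2 : (((n : ℤ), j) : ℤ × ℤ) ∈ Hs := by simp only [Hs, Set.mem_ofPred_eq]; omega
  obtain ⟨x, hx, hxe⟩ := exists_L wg
    (path_nonempty RD_Hs (diag_mem_Hs 0) hm1 (by simp) (by simp only; omega))
  obtain ⟨y, hy, hye⟩ := exists_L w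
    (path_nonempty RD_Hs (diag_mem_Hs 0) hm2 (by simp) (by simp only; omega))
  have t0 : tm (0, 0) = 0 := by simp [tm]
  have t1 : tm ((n : ℤ), j + 1) = n + (j + 1) := by simp only [tm]
  have t2 : tm ((n : ℤ), j) = n + j := by simp only [tm]
  obtain ⟨c, a1, a2, a3, a4, a5, a6⟩ := row_exit hx (j := 0) le_rfl (by simp only; omega)
    (by rw [t0, t1]; omega)
  obtain ⟨d, b1, b2, b3, b4, b5, b6⟩ := row_exit hy (j := 0) le_rfl (by simp only; omega)
    (by rw [t0, t2]; omega)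
  simp only [add_zero] at a3 a4 a5 a6 b3 b4 b5 b6
  simp only at a1 a2 b1 b2
  rw [t0] at a5 b5
  rw [t1] at a6
  rw [t2] at b6
  have xrow : ∀ k, 0 ≤ k → k ≤ c → x k = k := by
    intro k h1 h2
    have h3 := p_snd_ge hx (k := k) (by rw [t0]; exact h1)
    have h4 := hx.1.le_add h2
    simp only at h3
    omega
  have yrow : ∀ k, 0 ≤ k → k ≤ d → y k = k := by
    intro k h1 h2
    have h3 := p_snd_ge hy (k := k) (by rw [t0]; exact h1)
    have h4 := hy.1.le_add h2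
    simp only at h3
    omega
  have xup : ∀ k, c + 1 ≤ k → 1 ≤ k - x k := by
    intro k h1
    have := hx.1.le_add h1
    omega
  have yup : ∀ k, d + 1 ≤ k → 1 ≤ k - y k := by
    intro k h1
    have := hy.1.le_add h1
    omega
  rw [hxe, hye]
  by_cases hcd : c ≤ d
  · have e1 := le_L (w := w) hx
    have e2 := le_L (w := wg) hy
    rw [t0, t1] at e1
    rw [t0, t2] at e2
    rw [t0, t1, t2]
    rw [wsum_split wg x (r := c + 1) (by omega) (by omega),
      wsum_split w y (r := d + 1) (by omega) (by omega)]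
    rw [wsum_split w x (r := c + 1) (by omega) (by omega)] at e1
    rw [wsum_split wg y (r := d + 1) (by omega) (by omega)] at e2
    have f1 : wsum w x (c + 1) (n + (j + 1)) = wsum wg x (c + 1) (n + (j + 1)) := by
      refine wsum_congr fun k k1 k2 => ?_
      exact hag _ (xup k k1) (by
        have := p_fst_le hx (k := k) (by rw [t1]; exact k2)
        exact this)
    have f2 : wsum w y (d + 1) (n + j) = wsum wg y (d + 1) (n + j) := by
      refine wsum_congr fun k k1 k2 => ?_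
      exact hag _ (yup k k1) (by
        have := p_fst_le hy (k := k) (by rw [t2]; exact k2)
        exact this)
    rw [show c + 1 - 1 = c by ring] at e1 ⊢
    rw [show d + 1 - 1 = d by ring] at e2 ⊢
    have f3 : wsum wg x 0 c = wsum wg y 0 c := by
      refine wsum_congr fun k k1 k2 => ?_
      simp only [vert, xrow k k1 k2, yrow k k1 (k2.trans hcd)]
    have f4 : wsum w x 0 c = wsum w y 0 c := by
      refine wsum_congr fun k k1 k2 => ?_
      simp only [vert, xrow k k1 k2, yrow k k1 (k2.trans hcd)]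
    have f5 : wsum w y 0 d = wsum w y 0 c + wsum w y (c + 1) d := by
      rw [wsum_split w y (r := c + 1) (by omega) (by omega), show c + 1 - 1 = c by ring]
    have f6 : wsum wg y 0 d = wsum wg y 0 c + wsum wg y (c + 1) d := by
      rw [wsum_split wg y (r := c + 1) (by omega) (by omega), show c + 1 - 1 = c by ring]
    have f7 : wsum w y (c + 1) d ≤ wsum wg y (c + 1) d := by
      refine wsum_le fun k k1 k2 => ?_
      have e3 : vert y k = (k, 0) := by
        simp only [vert, yrow k (by omega) k2, sub_self]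
      rw [e3]
      exact hrow k (by omega) (by omega)
    linarith
  · push Not at hcd
    obtain ⟨r, r1, r2, r3⟩ := meet hy.1 hx.1 (s := d + 1) (t := n + j) (by omega)
      (by rw [b4, xrow (d + 1) (by omega) (by omega)]; omega)
      (by
        have h1 := p_fst_le hx (k := n + j) (by rw [t1]; omega)
        have h2 := hy.2.2.1
        rw [t2] at h2
        rw [h2]
        exact h1)
    have e1 := le_L (w := w) (splice_mem hy hx r3 (by rw [t0]; omega) (by rw [t2]; exact r2)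
      (by rw [t0]; omega) (by rw [t1]; omega))
    have e2 := le_L (w := wg) (splice_mem hx hy r3.symm (by rw [t0]; omega) (by rw [t1]; omega)
      (by rw [t0]; omega) (by rw [t2]; exact r2))
    rw [t0, t1, wsum_splice w y x (by omega) (by omega)] at e1
    rw [t0, t2, wsum_splice wg x y (by omega) (by omega)] at e2
    rw [t0, t1, t2, wsum_split wg x (r := r) (by omega) (by omega),
      wsum_split w y (r := r) (by omega) (by omega)]
    have xup' : ∀ k, r ≤ k → 1 ≤ k - x k := by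
      intro k h1
      have h2 := hx.1.le_add h1
      have h3 := yup r r1
      omega
    have f1 : wsum w x r (n + (j + 1)) = wsum wg x r (n + (j + 1)) := by
      refine wsum_congr fun k k1 k2 => ?_
      exact hag _ (xup' k k1) (by
        have := p_fst_le hx (k := k) (by rw [t1]; exact k2)
        exact this)
    have f2 : wsum w y r (n + j) = wsum wg y r (n + j) := by
      refine wsum_congr fun k k1 k2 => ?_
      exact hag _ (yup k (by omega)) (by
        have := p_fst_le hy (k := k) (by rw [t2]; exact k2)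
        exact this)
    linarith

lemma pc_incr (n : ℕ) (w wg : ℤ × ℤ → ℝ)
    (hag : ∀ z : ℤ × ℤ, 1 ≤ z.2 → z.1 ≤ n → w z = wg z)
    (hrow : ∀ i : ℤ, 0 ≤ i → i ≤ n → w (i, 0) ≤ wg (i, 0)) (c : ℕ) (hc : 1 ≤ c) (m : ℕ)
    (hm : c + m ≤ n) :
    L Hs wg (0, 0) ((n : ℤ), (c : ℤ) + m) + L Hs w (0, 0) ((n : ℤ), (c : ℤ)) ≤
      L Hs w (0, 0) ((n : ℤ), (c : ℤ) + m) + L Hs wg (0, 0) ((n : ℤ), (c : ℤ)) := by
  induction m with
  | zero =>
    simp only [Nat.cast_zero, add_zero]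
    linarith
  | succ m ih =>
    have h1 := ih (by omega)
    have h2 := pc_cross n w wg hag hrow ((c : ℤ) + m) (by omega) (by omega)
    have e : (c : ℤ) + ((m + 1 : ℕ) : ℤ) = (c : ℤ) + m + 1 := by push_cast; ring
    rw [e]
    linarith

lemma pc_det (n : ℕ) (hn : 1 ≤ n) (w wg : ℤ × ℤ → ℝ) (hw : ∀ z, 0 ≤ w z)
    (h00 : w (0, 0) = 0) (h1 : w ((n : ℤ) + 1, 0) = 0) (h2 : w ((n : ℤ) + 1, (n : ℤ) + 1) = 0)
    (hag : ∀ z : ℤ × ℤ, 1 ≤ z.2 → z.1 ≤ n → w z = wg z)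
    (hrow : ∀ i : ℤ, 0 ≤ i → i ≤ n → w (i, 0) ≤ wg (i, 0)) :
    ∃ z c : ℕ, 1 ≤ z ∧ z ≤ n ∧ 1 ≤ c ∧ c ≤ n ∧ Phi n w ≤
      ∑ i ∈ Finset.range z, w ((i : ℤ) + 1, 0) + L Hs w ((z : ℤ), 1) ((n : ℤ), (n : ℤ)) +
      (∑ i ∈ Finset.range (n - c + 1), w ((n : ℤ) + 1, (n : ℤ) - i) -
        (L Hs wg (0, 0) ((n : ℤ), (n : ℤ)) - L Hs wg (0, 0) ((n : ℤ), (c : ℤ)))) := by
  have hnn : (((n : ℤ), (n : ℤ)) : ℤ × ℤ) ∈ Hs := diag_mem_Hs n
  -- last column
  have key1 : ∃ c : ℕ, 1 ≤ c ∧ c ≤ n ∧ Phi n w ≤ L Hs w (0, 0) ((n : ℤ), (c : ℤ)) +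
      L Hs w ((n : ℤ) + 1, (c : ℤ)) ((n : ℤ) + 1, (n : ℤ) + 1) := by
    unfold Phi
    obtain ⟨c, a1, a2, ⟨x, a3⟩, ⟨x', a4⟩, a5⟩ := L_col_split w (u := (0, 0))
      (v := ((n : ℤ) + 1, (n : ℤ) + 1)) (i := n)
      (path_nonempty RD_Hs (diag_mem_Hs 0) (diag_mem_Hs _) (by simp only; omega)
        (by simp only; omega)) (by simp only; omega) (by simp only; omega)
      (by simp only [tm]; omega)
    simp only at a1 a2
    have hcH := pc_end_mem a3 (by simp only [tm]; omega)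
    have hcn : c ≤ n := by simpa only [Hs, Set.mem_ofPred_eq] using hcH
    obtain ⟨c', rfl⟩ : ∃ c' : ℕ, c = c' := ⟨c.toNat, by omega⟩
    by_cases hc0 : c' = 0
    · subst hc0
      refine ⟨1, le_rfl, hn, ?_⟩
      rw [a5]
      have hm1 : (((n : ℤ), (0 : ℤ)) : ℤ × ℤ) ∈ Hs := by
        simp only [Hs, Set.mem_ofPred_eq]; omega
      have hm2 : (((n : ℤ), (1 : ℤ)) : ℤ × ℤ) ∈ Hs := by
        simp only [Hs, Set.mem_ofPred_eq]; omega
      have b1 : L Hs w (0, 0) ((n : ℤ), ((0 : ℕ) : ℤ)) ≤ L Hs w (0, 0) ((n : ℤ), ((1 : ℕ) : ℤ)) := by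
        simp only [Nat.cast_zero, Nat.cast_one]
        exact L_mono_ends RD_Hs (diag_mem_Hs 0) hm2 (diag_mem_Hs 0) hm1 le_rfl le_rfl le_rfl
          (by simp) (by simp) (by simp) (fun z _ _ => hw z)
      have b2 : L Hs w ((n : ℤ) + 1, ((0 : ℕ) : ℤ)) ((n : ℤ) + 1, (n : ℤ) + 1) =
          L Hs w ((n : ℤ) + 1, ((1 : ℕ) : ℤ)) ((n : ℤ) + 1, (n : ℤ) + 1) := by
        have c1 := pc_colsum w ((n : ℤ) + 1) 0 (n + 1) (by push_cast; omega)
        have c2 := pc_colsum w ((n : ℤ) + 1) 1 n (by omega)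
        rw [Finset.sum_range_succ'] at c1
        simp only [Nat.cast_zero, add_zero, zero_add, h1] at c1
        simp only [Nat.cast_zero, Nat.cast_one]
        rw [show (n : ℤ) + 1 = ((n + 1 : ℕ) : ℤ) by push_cast; ring] at c1 c2 ⊢
        rw [c1]
        rw [show (1 : ℤ) + n = ((n + 1 : ℕ) : ℤ) by push_cast; ring] at c2
        rw [c2]
        refine Finset.sum_congr rfl fun i _ => ?_
        congr 2
        push_cast; ring
      linarith
    · exact ⟨c', by omega, by omega, a5.le⟩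
  obtain ⟨c, hc1, hcn, hPhi⟩ := key1
  -- the column sum
  have key2 : L Hs w ((n : ℤ) + 1, (c : ℤ)) ((n : ℤ) + 1, (n : ℤ) + 1) =
      ∑ i ∈ Finset.range (n - c + 1), w ((n : ℤ) + 1, (n : ℤ) - i) := by
    have c1 := pc_colsum w ((n : ℤ) + 1) c (n - c + 1) (by omega)
    have e : (c : ℤ) + ((n - c + 1 : ℕ) : ℤ) = (n : ℤ) + 1 := by omega
    rw [e] at c1
    rw [c1, Finset.sum_range_succ, e, h2, add_zero, ← Finset.sum_range_reflect]
    refine Finset.sum_congr rfl fun i hi => ?_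
    rw [Finset.mem_range] at hi
    congr 2
    omega
  -- first row
  have key3 : ∃ z : ℕ, 1 ≤ z ∧ z ≤ n ∧ L Hs w (0, 0) ((n : ℤ), (n : ℤ)) =
      ∑ i ∈ Finset.range z, w ((i : ℤ) + 1, 0) + L Hs w ((z : ℤ), 1) ((n : ℤ), (n : ℤ)) := by
    obtain ⟨z, a1, a2, ⟨x, a3⟩, ⟨x', a4⟩, a5⟩ := L_row_split w (u := (0, 0))
      (v := ((n : ℤ), (n : ℤ))) (j := 0)
      (path_nonempty RD_Hs (diag_mem_Hs 0) (diag_mem_Hs _) (by simp) (by simp)) le_rfl
      (by simp only; omega) (by simp only [tm]; omega)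
    simp only at a1 a2
    have hz := pc_start_mem a4 (by simp only [tm]; omega)
    have hz1 : 1 ≤ z := by simpa only [Hs, Set.mem_ofPred_eq, zero_add] using hz
    obtain ⟨z', rfl⟩ : ∃ z' : ℕ, z = z' := ⟨z.toNat, by omega⟩
    refine ⟨z', by omega, by omega, ?_⟩
    rw [a5, pc_row, h00, zero_add, zero_add]
  obtain ⟨z, hz1, hzn, hz⟩ := key3
  refine ⟨z, c, hz1, hzn, hc1, hcn, ?_⟩
  have key4 := pc_incr n w wg hag hrow c hc1 (n - c) (by omega)
  have e : (c : ℤ) + ((n - c : ℕ) : ℤ) = (n : ℤ) := by omega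
  rw [e] at key4
  rw [key2] at hPhi
  rw [← hz]
  linarith

/-! ## Probability part -/

section
variable {Ω : Type} [MeasurableSpace Ω] {P : Measure Ω}

lemma pc_tail [IsProbabilityMeasure P] {S : Ω → ℝ} (hS : Measurable S) (h0 : ∀ ω, 0 ≤ S ω)
    {s : ℝ} (hs : 0 < s)
    (ht : ∀ y, 0 < y → P.real {ω | y ≤ S ω} ≤ Real.exp (-(s * y))) :
    Integrable S P ∧ ∫ ω, S ω ∂P ≤ 1 / s := by
  have h1 : ∫⁻ ω, ENNReal.ofReal (S ω) ∂P ≤ ENNReal.ofReal (1 / s) := by
    rw [lintegral_eq_lintegral_meas_le P (Filter.Eventually.of_forall h0) hS.aemeasurable]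
    calc ∫⁻ t in Set.Ioi (0 : ℝ), P {a | t ≤ S a}
        ≤ ∫⁻ t in Set.Ioi (0 : ℝ), ENNReal.ofReal (Real.exp (-s * t)) := by
          refine setLIntegral_mono' measurableSet_Ioi fun t ht' => ?_
          have h2 := ht t ht'
          have h3 : P {a | t ≤ S a} = ENNReal.ofReal (P.real {a | t ≤ S a}) := by
            rw [measureReal_def, ENNReal.ofReal_toReal (measure_ne_top P _)]
          rw [h3]
          refine ENNReal.ofReal_le_ofReal ?_
          rw [neg_mul]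
          exact h2
      _ = ENNReal.ofReal (1 / s) := by
          rw [← ofReal_integral_eq_lintegral_ofReal (integrableOn_exp_mul_Ioi (by linarith) 0)
            (Filter.Eventually.of_forall fun x => (Real.exp_pos _).le),
            integral_exp_mul_Ioi (by linarith) 0]
          congr 1
          simp
  have hI : Integrable S P := by
    refine ⟨hS.aestronglyMeasurable, ?_⟩
    rw [hasFiniteIntegral_iff_ofReal (Filter.Eventually.of_forall h0)]
    exact lt_of_le_of_lt h1 ENNReal.ofReal_lt_top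
  refine ⟨hI, ?_⟩
  rw [integral_eq_lintegral_of_nonneg_ae (Filter.Eventually.of_forall h0)
    hS.aestronglyMeasurable]
  exact ENNReal.toReal_le_of_le_ofReal (by positivity) h1

/-- running maximum -/
noncomputable def pcS (n : ℕ) (T : ℕ → Ω → ℝ) (ω : Ω) : ℝ :=
  (Finset.range (n + 1)).sup' (Finset.nonempty_range_iff.2 (Nat.succ_ne_zero n)) (fun z => T z ω)

lemma pcS_meas {n : ℕ} {T : ℕ → Ω → ℝ} (h : ∀ z ≤ n, Measurable (T z)) :
    Measurable (pcS n T) := by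
  have h1 : Measurable ((Finset.range (n + 1)).sup' (Finset.nonempty_range_iff.2 (Nat.succ_ne_zero n)) T) :=
    Finset.measurable_sup' _ fun z hz => h z (by rw [Finset.mem_range] at hz; omega)
  have e : pcS n T = (Finset.range (n + 1)).sup' (Finset.nonempty_range_iff.2 (Nat.succ_ne_zero n)) T := by
    funext ω
    unfold pcS
    rw [Finset.sup'_apply]
  rw [e]
  exact h1

omit [MeasurableSpace Ω] in
lemma pcS_ge {n : ℕ} (T : ℕ → Ω → ℝ) {z : ℕ} (hz : z ≤ n) (ω : Ω) : T z ω ≤ pcS n T ω := by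
  unfold pcS
  exact Finset.le_sup' (fun z => T z ω) (Finset.mem_range.2 (by omega))

omit [MeasurableSpace Ω] in
lemma pcS_iff {n : ℕ} (T : ℕ → Ω → ℝ) (y : ℝ) (ω : Ω) :
    y ≤ pcS n T ω ↔ ∃ z ≤ n, y ≤ T z ω := by
  unfold pcS
  rw [Finset.le_sup'_iff]
  constructor
  · rintro ⟨z, hz, h⟩
    exact ⟨z, by rw [Finset.mem_range] at hz; omega, h⟩
  · rintro ⟨z, hz, h⟩
    exact ⟨z, Finset.mem_range.2 (by omega), h⟩

lemma pc_up (h2 : RWUp) [IsProbabilityMeasure P] {n : ℕ} {g : ℕ → Ω → ℝ} {p s c : ℝ}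
    (hg : IIDExp P n g p) (hs : 0 < s) (hsp : s < p)
    (hc : p / (p - s) * Real.exp (-(s * c)) ≤ 1) :
    ∃ S : Ω → ℝ, Integrable S P ∧ ∫ ω, S ω ∂P ≤ 1 / s ∧
      ∀ ω, ∀ z ≤ n, ∑ i ∈ Finset.range z, (g i ω - c) ≤ S ω := by
  obtain ⟨T, hT⟩ : ∃ T : ℕ → Ω → ℝ, T = fun z ω => ∑ i ∈ Finset.range z, (g i ω - c) :=
    ⟨_, rfl⟩
  have hTm : ∀ z ≤ n, Measurable (T z) := by
    intro z hz
    rw [hT]
    refine Finset.measurable_fun_sum _ fun i hi => ?_
    rw [Finset.mem_range] at hi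
    exact (hg.meas i (by omega)).sub_const c
  have h0 : ∀ ω, 0 ≤ pcS n T ω := by
    intro ω
    have := pcS_ge T (Nat.zero_le n) ω
    rw [hT] at this ⊢
    simpa using this
  have key := pc_tail (P := P) (pcS_meas hTm) h0 hs (fun y hy => by
    have h3 := h2 Ω P n g p s c 0 y hg hs hsp le_rfl (by rw [Real.exp_zero]; exact hc)
    have e : {ω | y ≤ pcS n T ω} = {ω | ∃ z ≤ n, y ≤ ∑ i ∈ Finset.range z, (g i ω - c)} := by
      ext ω
      rw [Set.mem_ofPred_eq, Set.mem_ofPred_eq, pcS_iff, hT]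
    rw [e]
    simpa using h3)
  refine ⟨pcS n T, key.1, key.2, ?_⟩
  intro ω z hz
  have := pcS_ge T hz ω
  rw [hT] at this ⊢
  exact this

lemma pc_down (h3 : RWDown) [IsProbabilityMeasure P] {n : ℕ} {g : ℕ → Ω → ℝ} {p s c : ℝ}
    (hg : IIDExp P n g p) (hs : 0 < s) (hp : 0 < p)
    (hc : p / (p + s) * Real.exp (s * c) ≤ 1) :
    ∃ S : Ω → ℝ, Integrable S P ∧ ∫ ω, S ω ∂P ≤ 1 / s ∧
      ∀ ω, ∀ z ≤ n, ∑ i ∈ Finset.range z, (c - g i ω) ≤ S ω := by
  obtain ⟨T, hT⟩ : ∃ T : ℕ → Ω → ℝ, T = fun z ω => ∑ i ∈ Finset.range z, (c - g i ω) :=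
    ⟨_, rfl⟩
  have hTm : ∀ z ≤ n, Measurable (T z) := by
    intro z hz
    rw [hT]
    refine Finset.measurable_fun_sum _ fun i hi => ?_
    rw [Finset.mem_range] at hi
    exact (hg.meas i (by omega)).const_sub c
  have h0 : ∀ ω, 0 ≤ pcS n T ω := by
    intro ω
    have := pcS_ge T (Nat.zero_le n) ω
    rw [hT] at this ⊢
    simpa using this
  have key := pc_tail (P := P) (pcS_meas hTm) h0 hs (fun y hy => by
    have h3 := h3 Ω P n g p s c 0 y hg hs hp le_rfl (by rw [Real.exp_zero]; exact hc)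
    have e : {ω | y ≤ pcS n T ω} = {ω | ∃ z ≤ n, y ≤ ∑ i ∈ Finset.range z, (c - g i ω)} := by
      ext ω
      rw [Set.mem_ofPred_eq, Set.mem_ofPred_eq, pcS_iff, hT]
    rw [e]
    simpa using h3)
  refine ⟨pcS n T, key.1, key.2, ?_⟩
  intro ω z hz
  have := pcS_ge T hz ω
  rw [hT] at this ⊢
  exact this

end

lemma pc_num_up {δ : ℝ} (h0 : 0 < δ) (h1 : δ ≤ 1 / 16) :
    (1 / 2 + δ) / (1 / 2 + δ - δ / 8) * Real.exp (-(δ / 8 * (2 - 3 * δ))) ≤ 1 := by
  have h2 : 0 < 1 / 2 + δ - δ / 8 := by linarith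
  rw [Real.exp_neg, ← div_eq_mul_inv, div_le_one (Real.exp_pos _), div_le_iff₀ h2]
  have h3 := Real.add_one_le_exp (δ / 8 * (2 - 3 * δ))
  calc 1 / 2 + δ ≤ (δ / 8 * (2 - 3 * δ) + 1) * (1 / 2 + δ - δ / 8) := by
        nlinarith [mul_pos h0 h0, mul_pos h0 (mul_pos h0 h0)]
    _ ≤ _ := by gcongr

lemma pc_num_down {δ α : ℝ} (h0 : 0 < δ) (h1 : δ ≤ 1 / 16) (hα : |α - 1 / 2| ≤ δ / 2) :
    α / (α + δ / 8) * Real.exp (δ / 8 * (2 - 3 * δ)) ≤ 1 := by
  rw [abs_le] at hα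
  have hα0 : 0 < α := by linarith
  have h2 : 0 < α + δ / 8 := by linarith
  have h3 := Real.add_one_le_exp (-(δ / 8 * (2 - 3 * δ)))
  have h4 : Real.exp (δ / 8 * (2 - 3 * δ)) * Real.exp (-(δ / 8 * (2 - 3 * δ))) = 1 := by
    rw [← Real.exp_add]; simp
  have h5 := Real.exp_pos (δ / 8 * (2 - 3 * δ))
  rw [div_mul_eq_mul_div, div_le_one h2]
  -- α e ≤ α + s, from e (1 - s c) ≤ 1
  have h6 : Real.exp (δ / 8 * (2 - 3 * δ)) * (1 - δ / 8 * (2 - 3 * δ)) ≤ 1 := by
    rw [← h4]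
    gcongr
    linarith
  have h7 : α ≤ (α + δ / 8) * (1 - δ / 8 * (2 - 3 * δ)) := by
    have h8 : (2 - 3 * δ) * (α + δ / 8) ≤ 1 := by nlinarith [mul_pos h0 h0]
    nlinarith
  calc α * Real.exp (δ / 8 * (2 - 3 * δ))
      ≤ ((α + δ / 8) * (1 - δ / 8 * (2 - 3 * δ))) * Real.exp (δ / 8 * (2 - 3 * δ)) := by gcongr
    _ = (α + δ / 8) * (Real.exp (δ / 8 * (2 - 3 * δ)) * (1 - δ / 8 * (2 - 3 * δ))) := by ring
    _ ≤ (α + δ / 8) * 1 := by gcongr
    _ = α + δ / 8 := mul_one _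

lemma pc_cPhi_nonneg (n : ℕ) {δ α : ℝ} (hδ : 0 < δ) (hα : 0 < α) (z : ℤ × ℤ) :
    0 ≤ cPhi n δ α z := by
  unfold cPhi
  split_ifs <;> positivity

lemma pc_cPhi_row (n : ℕ) (δ α : ℝ) (i : ℕ) (hi : i < n) :
    cPhi n δ α ((i : ℤ) + 1, 0) = (1 / 2 + δ)⁻¹ := by
  unfold cPhi
  rw [if_neg, if_pos (Or.inl rfl)]
  simp only [Prod.mk.injEq, not_or, not_and]
  refine ⟨?_, ?_, ?_⟩ <;> omega

lemma pc_cPhi_col (n : ℕ) (δ α : ℝ) (i : ℕ) (hi : i < n) :
    cPhi n δ α ((n : ℤ) + 1, (n : ℤ) - i) = (1 / 2 + δ)⁻¹ := by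
  unfold cPhi
  rw [if_neg, if_pos (Or.inr rfl)]
  simp only [Prod.mk.injEq, not_or, not_and]
  refine ⟨?_, ?_, ?_⟩ <;> omega

lemma pc_cPhi_in (n : ℕ) (δ α : ℝ) (z : ℤ × ℤ) (h1 : 1 ≤ z.2) (h2 : z.1 ≤ n) :
    cPhi n δ α z = cH α z := by
  unfold cPhi cH
  rw [if_neg, if_neg]
  · omega
  · obtain ⟨a, b⟩ := z
    simp only at h1 h2
    simp only [Prod.mk.injEq, not_or, not_and]
    refine ⟨?_, ?_, ?_⟩ <;> omega

lemma pc_cRow_in (lam α : ℝ) (z : ℤ × ℤ) (h1 : 1 ≤ z.2) :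
    cRow id lam α z = cH α z := by
  unfold cRow cH
  rw [if_neg, if_neg]
  · rfl
  · omega
  · obtain ⟨a, b⟩ := z
    simp only at h1
    simp only [Prod.mk.injEq, not_and]
    omega

section
variable {Ω : Type} [MeasurableSpace Ω] {P : Measure Ω} {E : ℤ × ℤ → Ω → ℝ}

/-- increments of the stationary process on column `n`, from top to bottom -/
lemma pc_burke (h1 : BurkeGen) (hE : Env P E) (n : ℕ) {α : ℝ} (hα0 : 0 < α) (hα1 : α < 1) :
    IIDExp P n (fun i ω =>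
      L Hs (wgt (cRow id (1 - α) α) E ω) (0, 0) ((n : ℤ), (n : ℤ) - i) -
        L Hs (wgt (cRow id (1 - α) α) E ω) (0, 0) ((n : ℤ), (n : ℤ) - i - 1)) α := by
  have hb := h1 Ω P E hE id monotone_id rfl (1 - α) α (by linarith) hα0 (by ring) n 0
  obtain ⟨B, hB⟩ : ∃ B : ℤ → Ω → ℝ, B = fun j ω =>
    L Hs (wgt (cRow id (1 - α) α) E ω) (0, 0) ((n : ℤ), j) := ⟨_, rfl⟩
  have hBm : ∀ j, Measurable (B j) := by
    intro j
    rw [hB]
    exact measurable_L (fun z => measurable_wgt hE _ z) Hs _ _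
  have hprob := isProbabilityMeasure_expMeasure (r := 1 - α) (by linarith : (0 : ℝ) < 1 - α)
  have hprob' := isProbabilityMeasure_expMeasure hα0
  have hI : IIDExp P n (fun i ω => B ((i : ℤ) + 1) ω - B (i : ℤ) ω) α := by
    refine ⟨fun i _ => (hBm _).sub (hBm _), ?_⟩
    have h2 := congrArg (Measure.map Prod.fst) hb
    rw [Measure.map_map measurable_fst, (measurePreserving_fst).map_eq] at h2
    · rw [← h2]
      congr 1
      funext ω i
      simp only [Function.comp_apply, hB, id_eq, Nat.cast_zero, add_zero, Hs_eq]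
    · refine Measurable.prodMk ?_ ?_
      · refine measurable_pi_lambda _ fun j => ?_
        exact (measurable_L (fun z => measurable_wgt hE _ z) _ _ _).sub
          (measurable_L (fun z => measurable_wgt hE _ z) _ _ _)
      · refine measurable_pi_lambda _ fun j => ?_
        exact (measurable_L (fun z => measurable_wgt hE _ z) _ _ _).sub
          (measurable_L (fun z => measurable_wgt hE _ z) _ _ _)
  have hI2 := hI.comp (k := n) hα0 (fun i => n - 1 - i) (by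
    intro a ha b hb hab
    simp only [Set.mem_Iio] at ha hb
    simp only at hab
    omega) (by intro i hi; omega)
  refine ⟨fun i _ => ?_, ?_⟩
  · have := (hBm ((n : ℤ) - i)).sub (hBm ((n : ℤ) - i - 1))
    rw [hB] at this
    exact this
  · rw [← hI2.law]
    congr 1
    funext ω i
    have hi := i.2
    have e1 : ((n - 1 - (i : ℕ) : ℕ) : ℤ) + 1 = (n : ℤ) - (i : ℕ) := by omega
    have e2 : ((n - 1 - (i : ℕ) : ℕ) : ℤ) = (n : ℤ) - (i : ℕ) - 1 := by omega
    simp only [hB, e1]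
    rw [e2]

lemma pc_G1_chain (n : ℕ) {w : ℤ × ℤ → ℝ} {g : ℕ → ℝ}
    (h : ∀ z : ℕ, 1 ≤ z → z + 1 ≤ n → g (z - 1) ≤ G1 w n z - G1 w n (z + 1)) (z : ℕ)
    (hz : z + 1 ≤ n) : G1 w n (z + 1) ≤ G1 w n 1 - ∑ i ∈ Finset.range z, g i := by
  induction z with
  | zero => simp
  | succ z ih =>
    have h1 := ih (by omega)
    have h2 := h (z + 1) (by omega) hz
    rw [Nat.add_sub_cancel] at h2
    rw [Finset.sum_range_succ]
    linarith

end

theorem t_PhiClose (h1 : BurkeGen) (h2 : RWUp) (h3 : RWDown) (h4 : RevIncr) : PhiClose := by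
  refine ⟨33, by norm_num, ?_⟩
  intro K0 hK0
  obtain ⟨n0, hn0⟩ := exists_nat_ge ((16 * K0) ^ 3)
  refine ⟨max n0 1, ?_⟩
  intro n hn α hα Ω _ P E hE
  have hprob : IsProbabilityMeasure P := hE.prob
  have hn1 : 1 ≤ n := le_trans (le_max_right _ _) hn
  have hnn0 : n0 ≤ n := le_trans (le_max_left _ _) hn
  have hn1' : (1 : ℝ) ≤ n := by exact_mod_cast hn1
  obtain ⟨N, hN⟩ : ∃ N : ℝ, N = (n : ℝ) ^ ((1 : ℝ) / 3) := ⟨_, rfl⟩
  have hNK : 16 * K0 ≤ N := by
    have h5 : (16 * K0) ^ 3 ≤ (n : ℝ) := hn0.trans (by exact_mod_cast hnn0)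
    have h6 : ((16 * K0) ^ 3) ^ ((1 : ℝ) / 3) ≤ (n : ℝ) ^ ((1 : ℝ) / 3) :=
      Real.rpow_le_rpow (by positivity) h5 (by norm_num)
    have h7 : ((16 * K0) ^ 3) ^ ((1 : ℝ) / 3) = 16 * K0 := by
      rw [← Real.rpow_natCast (16 * K0) 3, ← Real.rpow_mul (by positivity)]
      norm_num
    rw [h7] at h6
    rw [hN]
    exact h6
  have hN0 : 0 < N := by linarith
  have hpow : (n : ℝ) ^ (-(1 : ℝ) / 3) = N⁻¹ := by
    rw [hN, ← Real.rpow_neg (by positivity)]
    congr 1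
    ring
  obtain ⟨δ, hδ⟩ : ∃ δ : ℝ, δ = K0 * (n : ℝ) ^ (-(1 : ℝ) / 3) := ⟨_, rfl⟩
  have hδN : δ = K0 / N := by rw [hδ, hpow]; rfl
  have hδ0 : 0 < δ := by rw [hδN]; positivity
  have hδ1 : δ ≤ 1 / 16 := by
    rw [hδN, div_le_iff₀ hN0]
    linarith
  have hα' : |α - 1 / 2| ≤ δ / 2 := by
    refine hα.trans (le_of_eq ?_)
    rw [hδ]; ring
  have hαb := abs_le.1 hα'
  have hα0 : 0 < α := by linarith [hαb.1]
  have hα1 : α < 1 := by linarith [hαb.2]
  rw [← hδ, ← hN]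
  -- the four processes
  have i1 : IIDExp P n (fun i ω => (1 / 2 + δ)⁻¹ * E ((i : ℤ) + 1, 0) ω) (1 / 2 + δ) :=
    hE.iid (f := fun i => ((i : ℤ) + 1, 0)) (by
      intro a b hab
      simp only [Prod.mk.injEq] at hab
      omega) (by linarith) n
  have i3 : IIDExp P n (fun i ω => (1 / 2 + δ)⁻¹ * E ((n : ℤ) + 1, (n : ℤ) - i) ω) (1 / 2 + δ) :=
    hE.iid (f := fun i => ((n : ℤ) + 1, (n : ℤ) - i)) (by
      intro a b hab
      simp only [Prod.mk.injEq] at hab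
      omega) (by linarith) n
  obtain ⟨g, i2, hg⟩ := h4 Ω P E hE n hn1 α hα0 hα1
  have i4 := pc_burke h1 hE n hα0 hα1
  have hs : 0 < δ / 8 := by positivity
  obtain ⟨S1, I1, J1, K1⟩ := pc_up h2 (c := 2 - 3 * δ) i1 hs (by linarith) (pc_num_up hδ0 hδ1)
  obtain ⟨S2, I2, J2, K2⟩ := pc_down h3 (c := 2 - 3 * δ) i2 hs hα0 (pc_num_down hδ0 hδ1 hα')
  obtain ⟨S3, I3, J3, K3⟩ := pc_up h2 (c := 2 - 3 * δ) i3 hs (by linarith) (pc_num_up hδ0 hδ1)
  obtain ⟨S4, I4, J4, K4⟩ := pc_down h3 (c := 2 - 3 * δ) i4 hs hα0 (pc_num_down hδ0 hδ1 hα')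
  have hIint : Integrable (fun ω => S1 ω + S2 ω + (S3 ω + S4 ω) + 4) P :=
    ((I1.add I2).add (I3.add I4)).add (integrable_const 4)
  have hbound : ∀ᵐ ω ∂P, |Phi n (wgt (cPhi n δ α) E ω) - X (wgt (cH α) E ω) 0 n| ≤
      S1 ω + S2 ω + (S3 ω + S4 ω) + 4 := by
    filter_upwards [hE.nonneg, hg] with ω hEω hgω
    obtain ⟨w, hw⟩ : ∃ w, w = wgt (cPhi n δ α) E ω := ⟨_, rfl⟩
    obtain ⟨wg, hwg⟩ : ∃ wg, wg = wgt (cRow id (1 - α) α) E ω := ⟨_, rfl⟩
    obtain ⟨wH, hwH⟩ : ∃ wH, wH = wgt (cH α) E ω := ⟨_, rfl⟩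
    rw [← hw, ← hwH]
    have hw0 : ∀ z, 0 ≤ w z := by
      intro z
      rw [hw]
      exact wgt_nonneg (pc_cPhi_nonneg n hδ0 hα0) hEω z
    have hin : ∀ z : ℤ × ℤ, 1 ≤ z.2 → z.1 ≤ n → w z = wH z := by
      intro z a b
      rw [hw, hwH]
      unfold wgt
      rw [pc_cPhi_in n δ α z a b]
    have hin' : ∀ z : ℤ × ℤ, 1 ≤ z.2 → z.1 ≤ n → w z = wg z := by
      intro z a b
      rw [hw, hwg]
      unfold wgt
      rw [pc_cPhi_in n δ α z a b, pc_cRow_in (1 - α) α z a]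
    have hrow : ∀ i : ℤ, 0 ≤ i → i ≤ n → w (i, 0) ≤ wg (i, 0) := by
      intro i a b
      rw [hw, hwg]
      unfold wgt
      by_cases hi : i = 0
      · subst hi
        simp [cPhi, cRow]
      · obtain ⟨i', rfl⟩ : ∃ i' : ℕ, i = (i' : ℤ) + 1 := ⟨(i - 1).toNat, by omega⟩
        rw [pc_cPhi_row n δ α i' (by omega)]
        have e : cRow id (1 - α) α ((i' : ℤ) + 1, 0) = (1 - α)⁻¹ := by
          unfold cRow
          rw [if_neg, if_pos rfl]
          simp only [Prod.mk.injEq, not_and]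
          omega
        rw [e]
        have h5 : (1 / 2 + δ)⁻¹ ≤ (1 - α)⁻¹ := by
          apply inv_anti₀
          · linarith
          · linarith [hαb.1]
        exact mul_le_mul_of_nonneg_right h5 (hEω _)
    have hXe : ∀ z : ℕ, L Hs w ((z : ℤ), 1) ((n : ℤ), (n : ℤ)) = G1 wH n z := by
      intro z
      unfold G1
      refine L_congr fun z' hz' _ => ?_
      have := mem_rect.1 hz'
      exact hin z' this.2.1 this.1.2
    have hX : X wH 0 n = G1 wH n 1 := by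
      unfold X G1
      simp
    have hlow : X wH 0 n ≤ Phi n w := by
      rw [hX, ← hXe 1]
      unfold Phi
      exact L_mono_ends RD_Hs (diag_mem_Hs 0) (diag_mem_Hs _) (diag_mem_Hs 1) (diag_mem_Hs _)
        (by simp) (by simp) (by simp) (by simp) (by simp only; push_cast; omega)
        (by simp only; omega) (fun z _ _ => hw0 z)
    rw [abs_of_nonneg (by linarith)]
    obtain ⟨z, c, z1, zn, c1, cn, hdet⟩ := pc_det n hn1 w wg hw0
      (by rw [hw]; simp [wgt, cPhi]) (by rw [hw]; simp [wgt, cPhi])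
      (by rw [hw]; simp [wgt, cPhi]) hin' hrow
    obtain ⟨z', rfl⟩ : ∃ z', z = z' + 1 := ⟨z - 1, by omega⟩
    rw [hXe] at hdet
    have hchain := pc_G1_chain n (w := wH) (g := fun i => g i ω) (by
      intro z a b
      rw [hwH]
      exact hgω z a b) z' zn
    -- row sums
    have r1 : ∑ i ∈ Finset.range (z' + 1), w ((i : ℤ) + 1, 0) =
        ∑ i ∈ Finset.range (z' + 1), ((1 / 2 + δ)⁻¹ * E ((i : ℤ) + 1, 0) ω - (2 - 3 * δ)) +
          (z' + 1) * (2 - 3 * δ) := by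
      rw [Finset.sum_sub_distrib]
      simp only [Finset.sum_const, Finset.card_range, nsmul_eq_mul]
      push_cast
      rw [sub_add_cancel]
      refine Finset.sum_congr rfl fun i hi => ?_
      rw [Finset.mem_range] at hi
      rw [hw]
      unfold wgt
      rw [pc_cPhi_row n δ α i (by omega)]
    have r2 : ∑ i ∈ Finset.range z', g i ω =
        z' * (2 - 3 * δ) - ∑ i ∈ Finset.range z', ((2 - 3 * δ) - g i ω) := by
      rw [Finset.sum_sub_distrib]
      simp only [Finset.sum_const, Finset.card_range, nsmul_eq_mul]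
      ring
    have r3 : ∑ i ∈ Finset.range (n - c + 1), w ((n : ℤ) + 1, (n : ℤ) - i) =
        ∑ i ∈ Finset.range (n - c + 1),
          ((1 / 2 + δ)⁻¹ * E ((n : ℤ) + 1, (n : ℤ) - i) ω - (2 - 3 * δ)) +
          ((n - c : ℕ) + 1) * (2 - 3 * δ) := by
      rw [Finset.sum_sub_distrib]
      simp only [Finset.sum_const, Finset.card_range, nsmul_eq_mul]
      push_cast
      rw [sub_add_cancel]
      refine Finset.sum_congr rfl fun i hi => ?_
      rw [Finset.mem_range] at hi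
      rw [hw]
      unfold wgt
      rw [pc_cPhi_col n δ α i (by omega)]
    have r4 : L Hs wg (0, 0) ((n : ℤ), (n : ℤ)) - L Hs wg (0, 0) ((n : ℤ), (c : ℤ)) =
        (n - c : ℕ) * (2 - 3 * δ) - ∑ i ∈ Finset.range (n - c), ((2 - 3 * δ) -
          (L Hs (wgt (cRow id (1 - α) α) E ω) (0, 0) ((n : ℤ), (n : ℤ) - i) -
            L Hs (wgt (cRow id (1 - α) α) E ω) (0, 0) ((n : ℤ), (n : ℤ) - i - 1))) := by
      rw [Finset.sum_sub_distrib]
      simp only [Finset.sum_const, Finset.card_range, nsmul_eq_mul]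
      rw [← hwg]
      have h5 := Finset.sum_range_sub' (fun i : ℕ => L Hs wg (0, 0) ((n : ℤ), (n : ℤ) - i)) (n - c)
      have h6 : ∀ i ∈ Finset.range (n - c), L Hs wg (0, 0) ((n : ℤ), (n : ℤ) - i) -
          L Hs wg (0, 0) ((n : ℤ), (n : ℤ) - i - 1) =
          L Hs wg (0, 0) ((n : ℤ), (n : ℤ) - i) -
          L Hs wg (0, 0) ((n : ℤ), (n : ℤ) - ((i + 1 : ℕ) : ℤ)) := by
        intro i _
        congr 3
        push_cast; ring
      rw [Finset.sum_congr rfl h6, h5]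
      have e : (n : ℤ) - ((n - c : ℕ) : ℤ) = (c : ℤ) := by omega
      rw [e]
      simp
    have b1 := K1 ω (z' + 1) zn
    have b2 := K2 ω z' (by omega)
    have b3 := K3 ω (n - c + 1) (by omega)
    have b4 := K4 ω (n - c) (by omega)
    rw [hX]
    rw [r1, r3, r4] at hdet
    rw [r2] at hchain
    nlinarith
  have hint : ∫ ω, |Phi n (wgt (cPhi n δ α) E ω) - X (wgt (cH α) E ω) 0 n| ∂P ≤
      ∫ ω, (S1 ω + S2 ω + (S3 ω + S4 ω) + 4) ∂P :=
    integral_mono_of_nonneg (Filter.Eventually.of_forall fun ω => abs_nonneg _) hIint hbound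
  refine hint.trans ?_
  have a1 : Integrable (fun ω => S1 ω + S2 ω) P := I1.add I2
  have a2 : Integrable (fun ω => S3 ω + S4 ω) P := I3.add I4
  have a3 : Integrable (fun ω => S1 ω + S2 ω + (S3 ω + S4 ω)) P := a1.add a2
  rw [integral_add a3 (integrable_const 4),
    integral_add a1 a2, integral_add I1 I2, integral_add I3 I4]
  simp only [integral_const, probReal_univ, smul_eq_mul, one_mul]
  have hs8 : 1 / (δ / 8) = 8 / K0 * N := by
    rw [hδN]; field_simp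
  rw [hs8] at J1 J2 J3 J4
  have h9 : 4 ≤ 1 / K0 * N := by
    rw [one_div, inv_mul_eq_div, le_div_iff₀ (by linarith)]
    linarith
  have h10 : 33 / K0 * N = 8 / K0 * N + 8 / K0 * N + 8 / K0 * N + 8 / K0 * N + 1 / K0 * N := by
    ring
  rw [h10]
  linarith

end Pool.Agent.H374
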