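import Pool.Agent.H374.Stmts
import Pool.Agent.H374.Det
import Pool.Agent.H374.Tools

/-!
# Resampling of the diagonal for the functional `Φ`
-/

set_option autoImplicit false
open MeasureTheory ProbabilityTheory Filter Topology

namespace Pool.Agent.H374

/-- Sites of the triangle `0 ≤ j ≤ i ≤ n+1`. -/
noncomputable def pr_tri (n : ℕ) : Finset (ℤ × ℤ) :=
  (rect (0, 0) ((n : ℤ) + 1, (n : ℤ) + 1)).filter (fun z => z.2 ≤ z.1)

lemma pr_mem_tri {n : ℕ} {z : ℤ × ℤ} :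
    z ∈ pr_tri n ↔ 0 ≤ z.2 ∧ z.2 ≤ z.1 ∧ z.1 ≤ (n : ℤ) + 1 := by
  rw [pr_tri, Finset.mem_filter, mem_rect]
  constructor
  · rintro ⟨⟨⟨h1, h2⟩, h3, h4⟩, h5⟩; exact ⟨h3, h5, h2⟩
  · rintro ⟨h1, h2, h3⟩
    exact ⟨⟨⟨le_trans h1 h2, h3⟩, h1, le_trans h2 h3⟩, h2⟩

/-- Scaling and extension by zero. -/
noncomputable def pr_ext (n : ℕ) (c : ℤ × ℤ → ℝ) (x : pr_tri n → ℝ) : ℤ × ℤ → ℝ :=
  fun z => if h : z ∈ pr_tri n then c z * x ⟨z, h⟩ else 0

/-- The functional as a function of the finite family. -/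
noncomputable def pr_Psi (n : ℕ) (c : ℤ × ℤ → ℝ) (x : pr_tri n → ℝ) : ℝ := Phi n (pr_ext n c x)

lemma pr_Psi_eq {n : ℕ} {c : ℤ × ℤ → ℝ} {x : pr_tri n → ℝ} {w : ℤ × ℤ → ℝ}
    (h : ∀ z (hz : z ∈ pr_tri n), w z = c z * x ⟨z, hz⟩) : Phi n w = pr_Psi n c x := by
  unfold pr_Psi Phi
  refine L_congr fun z hz hzD => ?_
  have hm : z ∈ pr_tri n := by
    rw [pr_tri, Finset.mem_filter]; exact ⟨hz, hzD⟩
  rw [h z hm, pr_ext, dif_pos hm]

lemma pr_ext_meas (n : ℕ) (c : ℤ × ℤ → ℝ) (z : ℤ × ℤ) :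
    Measurable fun x : pr_tri n → ℝ => pr_ext n c x z := by
  unfold pr_ext
  by_cases h : z ∈ pr_tri n
  · simp only [dif_pos h]; fun_prop
  · simp only [dif_neg h]; fun_prop

lemma pr_Psi_meas (n : ℕ) (c : ℤ × ℤ → ℝ) : Measurable (pr_Psi n c) :=
  measurable_L (pr_ext_meas n c) _ _ _

lemma pr_lin (n : ℕ) (c : ℤ × ℤ → ℝ) : LinGrowth (pr_Psi n c) := by
  refine ⟨pr_Psi_meas n c, ∑ z ∈ rect (0, 0) ((n : ℤ) + 1, (n : ℤ) + 1), |c z|, fun x => ?_⟩
  refine le_trans (abs_L_le _ _ _ _) ?_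
  rw [Finset.sum_mul]
  refine Finset.sum_le_sum fun z _ => ?_
  have hs : 0 ≤ ∑ i, |x i| := Finset.sum_nonneg fun i _ => abs_nonneg _
  unfold pr_ext
  split_ifs with h
  · rw [abs_mul]
    refine mul_le_mul_of_nonneg_left ?_ (abs_nonneg _)
    have := Finset.single_le_sum (f := fun i => |x i|) (fun i _ => abs_nonneg _)
      (Finset.mem_univ (⟨z, h⟩ : pr_tri n))
    linarith
  · rw [abs_zero]
    exact mul_nonneg (abs_nonneg _) (by linarith)

lemma pr_mono {n : ℕ} {c : ℤ × ℤ → ℝ} (hc : ∀ z, 0 ≤ c z) {x : pr_tri n → ℝ} (hx : ∀ i, 0 ≤ x i)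
    (A : Finset (pr_tri n)) : pr_Psi n c (mix A 0 x) ≤ pr_Psi n c x := by
  unfold pr_Psi Phi
  refine L_mono fun z _ _ => ?_
  unfold pr_ext
  split_ifs with h
  · refine mul_le_mul_of_nonneg_left ?_ (hc z)
    unfold mix
    split_ifs with h2
    · exact hx _
    · exact le_rfl
  · exact le_rfl

/-- The diagonal sites. -/
noncomputable def pr_D (n : ℕ) (j : ℕ) : pr_tri n :=
  ⟨(((min (j + 1) (n + 1) : ℕ) : ℤ), ((min (j + 1) (n + 1) : ℕ) : ℤ)), by
    rw [pr_mem_tri]; simp only; omega⟩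

lemma pr_D_val {n j : ℕ} (h : j < n) : ((pr_D n j : pr_tri n) : ℤ × ℤ) = ((j : ℤ) + 1, (j : ℤ) + 1) := by
  simp only [pr_D]
  ext <;> simp only <;> omega

lemma pr_D_inj (n : ℕ) : Set.InjOn (pr_D n) (Set.Iio n) := by
  intro a ha b hb hab
  have h1 := congrArg (Subtype.val) hab
  rw [pr_D_val ha, pr_D_val hb] at h1
  have h2 := congrArg Prod.fst h1
  simp only at h2
  omega

lemma pr_mem_image {n i R : ℕ} (hR : R ≤ n) {z : ℤ × ℤ} (hz : z ∈ pr_tri n) :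
    (⟨z, hz⟩ : pr_tri n) ∈ (Finset.Ico i R).image (pr_D n)
      ↔ z.1 = z.2 ∧ (i : ℤ) < z.1 ∧ z.1 ≤ (R : ℤ) := by
  rw [Finset.mem_image]
  constructor
  · rintro ⟨j, hj, he⟩
    rw [Finset.mem_Ico] at hj
    have h1 := congrArg Subtype.val he
    rw [pr_D_val (by omega)] at h1
    simp only at h1
    rw [← h1]
    refine ⟨rfl, ?_, ?_⟩
    · show (i : ℤ) < (j : ℤ) + 1
      omega
    · show (j : ℤ) + 1 ≤ (R : ℤ)
      omega
  · rintro ⟨h1, h2, h3⟩
    refine ⟨(z.1 - 1).toNat, ?_, ?_⟩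
    · rw [Finset.mem_Ico]; omega
    · apply Subtype.ext
      rw [pr_D_val (by omega)]
      ext <;> simp only <;> omega

lemma pr_mix_meas {ι : Type} [Fintype ι] (A : Finset ι) :
    Measurable fun p : (ι → ℝ) × (ι → ℝ) => mix A p.2 p.1 := by
  refine measurable_pi_lambda _ fun i => ?_
  unfold mix
  split_ifs <;> fun_prop

lemma pr_mix_meas0 {ι : Type} [Fintype ι] (A : Finset ι) :
    Measurable fun x : ι → ℝ => mix A 0 x := by
  refine measurable_pi_lambda _ fun i => ?_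
  unfold mix
  split_ifs <;> fun_prop

section
variable {Ω : Type} [MeasurableSpace Ω] {P : Measure Ω} {E : ℤ × ℤ → Ω → ℝ}

omit [MeasurableSpace Ω] in
lemma pr_Zb (n : ℕ) (c : ℤ × ℤ → ℝ) (i R : ℕ) (hR : R ≤ n) (ω : Ω) :
    pr_Psi n c (fun z => E z ω)
      - pr_Psi n c (mix ((Finset.Ico i R).image (pr_D n)) 0 (fun z => E z ω))
      = Zb n i R (wgt c E ω) := by
  unfold Zb
  congr 1
  · exact (pr_Psi_eq fun z hz => rfl).symm
  · refine (pr_Psi_eq fun z hz => ?_).symm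
    unfold zeroB mix wgt
    by_cases h : z.1 = z.2 ∧ (i : ℤ) < z.1 ∧ z.1 ≤ (R : ℤ)
    · rw [if_pos h, if_pos ((pr_mem_image hR hz).2 h)]
      simp
    · rw [if_neg h, if_neg (fun h' => h ((pr_mem_image hR hz).1 h'))]

/-- The index map of the independent copy. -/
def pr_f (n : ℕ) : (pr_tri n) ⊕ (pr_tri n) → ℤ × ℤ
  | Sum.inl z => z
  | Sum.inr z => if (z : ℤ × ℤ).1 = (z : ℤ × ℤ).2 then ((z : ℤ × ℤ).1, (z : ℤ × ℤ).1 + 1)
      else (-1 - (z : ℤ × ℤ).1, (z : ℤ × ℤ).2)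

lemma pr_f_inj (n : ℕ) : Function.Injective (pr_f n) := by
  rintro (⟨a, ha⟩ | ⟨a, ha⟩) (⟨b, hb⟩ | ⟨b, hb⟩) h
  · simp only [pr_f] at h
    subst h; rfl
  · exfalso
    simp only [pr_f] at h
    rw [pr_mem_tri] at ha hb
    split_ifs at h with h1
    · rw [h] at ha; simp only at ha; omega
    · rw [h] at ha; simp only at ha; omega
  · exfalso
    simp only [pr_f] at h
    rw [pr_mem_tri] at ha hb
    split_ifs at h with h1
    · rw [← h] at hb; simp only at hb; omega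
    · rw [← h] at hb; simp only at hb; omega
  · simp only [pr_f] at h
    rw [pr_mem_tri] at ha hb
    congr 1
    apply Subtype.ext
    split_ifs at h with h1 h2 h2
    · have := congrArg Prod.fst h; ext <;> simp only at * <;> omega
    · exfalso; have := congrArg Prod.fst h; simp only at *; omega
    · exfalso; have := congrArg Prod.fst h; simp only at *; omega
    · have e1 := congrArg Prod.fst h; have e2 := congrArg Prod.snd h
      ext <;> simp only at * <;> omega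

lemma pr_law (h : Env P E) (n : ℕ) :
    Measure.map (fun ω => ((fun i : pr_tri n => E i ω), (fun i : pr_tri n => E (pr_f n (Sum.inr i)) ω))) P
      = (Measure.pi fun _ : pr_tri n => expMeasure 1).prod
          (Measure.pi fun _ : pr_tri n => expMeasure 1) := by
  have := isProbabilityMeasure_expMeasure (r := 1) one_pos
  have h1 := h.map_pi (pr_f n) (pr_f_inj n)
  have h2 := (measurePreserving_sumPiEquivProdPi
    (fun _ : (pr_tri n) ⊕ (pr_tri n) => expMeasure 1)).map_eq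
  rw [← h2, ← h1, Measure.map_map (by fun_prop) (measurable_pi_lambda _ fun i => h.meas _)]
  rfl

lemma pr_int1 (h : Env P E) (n : ℕ) {F : (pr_tri n → ℝ) → ℝ} (hF : Measurable F) :
    ∫ x, F x ∂(Measure.pi fun _ : pr_tri n => expMeasure 1) = ∫ ω, F (fun z => E z ω) ∂P := by
  rw [← h.map_pi (fun z : pr_tri n => (z : ℤ × ℤ)) Subtype.val_injective,
    integral_map (measurable_pi_lambda _ fun i => h.meas _).aemeasurable hF.aestronglyMeasurable]

omit [MeasurableSpace Ω] in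
lemma pr_resamp (n : ℕ) (c : ℤ × ℤ → ℝ) (h0 : c (0, 0) = 0)
    (h1 : c ((n : ℤ) + 1, (n : ℤ) + 1) = 0) (ω : Ω) :
    Phi n (wgt c (resamp E) ω)
      = pr_Psi n c (mix ((Finset.range n).image (pr_D n))
          (fun i : pr_tri n => E (pr_f n (Sum.inr i)) ω) (fun i : pr_tri n => E i ω)) := by
  refine pr_Psi_eq fun z hz => ?_
  unfold wgt mix resamp
  rw [Finset.range_eq_Ico]
  simp only [pr_f]
  by_cases hd : z.1 = z.2
  · by_cases h2 : ((0 : ℕ) : ℤ) < z.1 ∧ z.1 ≤ (n : ℤ)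
    · rw [if_pos hd, if_pos ((pr_mem_image le_rfl hz).2 ⟨hd, h2⟩), if_pos hd]
    · have hz' := pr_mem_tri.1 hz
      have : c z = 0 := by
        by_cases h3 : z.1 = 0
        · have : z = (0, 0) := by ext <;> simp only <;> omega
          rw [this, h0]
        · have : z = ((n : ℤ) + 1, (n : ℤ) + 1) := by ext <;> simp only <;> omega
          rw [this, h1]
      rw [this, zero_mul, zero_mul]
  · rw [if_neg hd, if_neg (fun h => hd ((pr_mem_image le_rfl hz).1 h).1)]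

end

lemma pr_cPhi_nonneg (n : ℕ) {δ α : ℝ} (hδ : 0 ≤ δ) (hα : 0 ≤ α) (z : ℤ × ℤ) : 0 ≤ cPhi n δ α z := by
  unfold cPhi
  split_ifs
  · exact le_rfl
  · positivity
  · positivity
  · exact zero_le_one

lemma pr_arith {C m B n : ℝ} (hm : 0 < m) (hB : 0 < B) (hn : n = m * B) (q : ℕ) :
    B * (C * m ^ ((q : ℝ) / 3) * (m / n) ^ ((1 : ℝ) / 3))
      = C * n ^ ((2 : ℝ) / 3) * m ^ (((q : ℝ) - 2) / 3) := by
  subst hn
  have e1 : m / (m * B) = B⁻¹ := by field_simp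
  rw [e1, Real.inv_rpow hB.le, Real.mul_rpow hm.le hB.le]
  have e2 : m ^ ((q : ℝ) / 3) = m ^ ((2 : ℝ) / 3) * m ^ (((q : ℝ) - 2) / 3) := by
    rw [← Real.rpow_add hm]; congr 1; ring
  have e3 : B * (B ^ ((1 : ℝ) / 3))⁻¹ = B ^ ((2 : ℝ) / 3) := by
    rw [← Real.rpow_neg hB.le]
    nth_rewrite 1 [← Real.rpow_one B]
    rw [← Real.rpow_add hB]; congr 1; ring
  rw [e2]
  calc B * (C * (m ^ ((2 : ℝ) / 3) * m ^ (((q : ℝ) - 2) / 3)) * (B ^ ((1 : ℝ) / 3))⁻¹)
      = C * (m ^ ((2 : ℝ) / 3) * m ^ (((q : ℝ) - 2) / 3)) * (B * (B ^ ((1 : ℝ) / 3))⁻¹) := by ring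
    _ = _ := by rw [e3]; ring

lemma pr_alpha {K0 : ℝ} (hK : 0 < K0) {n : ℕ} (hn : ⌈K0 ^ 3⌉₊ + 1 ≤ n) {α : ℝ}
    (hα : |α - 1 / 2| ≤ K0 / 2 * (n : ℝ) ^ (-(1 : ℝ) / 3)) : 0 ≤ α := by
  have h1 : K0 ^ 3 ≤ (n : ℝ) := by
    have := Nat.le_ceil (K0 ^ 3)
    have h2 : ((⌈K0 ^ 3⌉₊ : ℕ) : ℝ) ≤ n := by exact_mod_cast (by omega : ⌈K0 ^ 3⌉₊ ≤ n)
    linarith
  have hn0 : (0 : ℝ) < n := lt_of_lt_of_le (by positivity) h1
  have h3 : K0 ≤ (n : ℝ) ^ ((1 : ℝ) / 3) := by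
    have h4 : K0 = (K0 ^ 3) ^ ((1 : ℝ) / 3) := by
      rw [← Real.rpow_natCast, ← Real.rpow_mul hK.le]; norm_num
    rw [h4]
    exact Real.rpow_le_rpow (by positivity) h1 (by norm_num)
  have h5 : K0 * (n : ℝ) ^ (-(1 : ℝ) / 3) ≤ 1 := by
    have h6 : (n : ℝ) ^ (-(1 : ℝ) / 3) = ((n : ℝ) ^ ((1 : ℝ) / 3))⁻¹ := by
      rw [← Real.rpow_neg hn0.le]; congr 1; ring
    rw [h6, ← div_eq_mul_inv, div_le_one (by positivity)]
    exact h3
  have h7 := (abs_le.1 hα).1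
  nlinarith

theorem t_PhiResample (h1 : JBound) (h2 : CoreStmt) : PhiResample := by
  intro K0 η hK0 hη
  obtain ⟨C, hC, m0, hm0, hJ⟩ := h1 K0 hK0
  obtain ⟨M, K, hM, hK, hcore⟩ := h2 C η hC hη
  choose! nf hnf using hJ
  have hM0 : 0 < M := by omega
  have hNk : ∀ k, m0 ≤ m0 * M ^ k := fun k => Nat.le_mul_of_pos_right _ (pow_pos hM0 k)
  refine ⟨m0 * M ^ K, Nat.mul_pos hm0 (pow_pos hM0 K),
    (Finset.range (K + 1)).sup (fun k => nf (m0 * M ^ k)) + (⌈K0 ^ 3⌉₊ + 1), ?_⟩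
  intro n hn hdvd α hα Ω _ P E hE
  obtain ⟨r, hr⟩ := hdvd
  have hn1 : 1 ≤ n := by omega
  have hr1 : 1 ≤ r := by
    rcases Nat.eq_zero_or_pos r with h | h
    · rw [h, mul_zero] at hr; omega
    · exact h
  have hα0 : 0 ≤ α := pr_alpha hK0 (by omega) hα
  have hnk : ∀ k ≤ K, nf (m0 * M ^ k) ≤ n := by
    intro k hk
    have : nf (m0 * M ^ k) ≤ (Finset.range (K + 1)).sup (fun k => nf (m0 * M ^ k)) :=
      Finset.le_sup (f := fun k => nf (m0 * M ^ k)) (Finset.mem_range.2 (Nat.lt_succ_of_le hk))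
    omega
  have := hE.prob
  have := isProbabilityMeasure_expMeasure (r := 1) one_pos
  set δ : ℝ := K0 * (n : ℝ) ^ (-(1 : ℝ) / 3) with hδ
  have hδ0 : 0 ≤ δ := by positivity
  have hnpos : (0 : ℝ) < n := by exact_mod_cast hn1
  have key := hcore m0 hm0 r hr1 ((n : ℝ) ^ ((2 : ℝ) / 3)) (by positivity) (pr_tri n) (expMeasure 1)
    (ae_nonneg_expMeasure 1) (integrable_pow_expMeasure one_pos 4) (pr_D n)
    (by rw [← hr]; exact pr_D_inj n) (pr_Psi n (cPhi n δ α)) (pr_lin n _)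
    (fun x hx A => pr_mono (pr_cPhi_nonneg n hδ0 hα0) hx A) ?_
  · rw [← hr] at key
    refine le_trans (le_of_eq ?_) key
    rw [← pr_law hE n, integral_map]
    · refine integral_congr_ae (Eventually.of_forall fun ω => ?_)
      simp only
      rw [pr_resamp n (cPhi n δ α) (by simp [cPhi]) (by simp [cPhi]) ω]
      congr 2
      exact pr_Psi_eq fun z hz => rfl
    · exact ((measurable_pi_lambda _ fun i => hE.meas _).prodMk
        (measurable_pi_lambda _ fun i => hE.meas _)).aemeasurable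
    · exact ((((pr_Psi_meas n _).comp measurable_fst).sub
        ((pr_Psi_meas n _).comp (pr_mix_meas _))).pow_const 2).aestronglyMeasurable
  · intro k hk q hq
    have hq14 : 1 ≤ q ∧ q ≤ 4 := by omega
    have hB : n = (m0 * M ^ k) * (M ^ (K - k) * r) := by
      rw [hr]
      have : M ^ K = M ^ k * M ^ (K - k) := by rw [← pow_add]; congr 1; omega
      rw [this]; ring
    have hmpos : 0 < m0 * M ^ k := Nat.mul_pos hm0 (pow_pos hM0 k)
    have hBpos : 0 < M ^ (K - k) * r := Nat.mul_pos (pow_pos hM0 _) hr1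
    have hterm : ∀ j ∈ Finset.range (M ^ (K - k) * r),
        ∫ x, (pr_Psi n (cPhi n δ α) x - pr_Psi n (cPhi n δ α)
          (mix ((Finset.Ico (j * (m0 * M ^ k)) ((j + 1) * (m0 * M ^ k))).image (pr_D n)) 0 x)) ^ q
        ∂(Measure.pi fun _ : pr_tri n => expMeasure 1)
        ≤ C * ((m0 * M ^ k : ℕ) : ℝ) ^ ((q : ℝ) / 3)
            * (((m0 * M ^ k : ℕ) : ℝ) / n) ^ ((1 : ℝ) / 3) := by
      intro j hj
      rw [Finset.mem_range] at hj
      have hR : (j + 1) * (m0 * M ^ k) ≤ n := by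
        rw [hB, mul_comm (m0 * M ^ k)]
        exact Nat.mul_le_mul_right _ hj
      have e1 : (j + 1) * (m0 * M ^ k) = j * (m0 * M ^ k) + m0 * M ^ k := by ring
      rw [pr_int1 hE n]
      · have e2 : (fun ω => (pr_Psi n (cPhi n δ α) (fun z => E z ω) - pr_Psi n (cPhi n δ α)
          (mix ((Finset.Ico (j * (m0 * M ^ k)) ((j + 1) * (m0 * M ^ k))).image (pr_D n)) 0
            (fun z => E z ω))) ^ q)
            = fun ω => (Zb n (j * (m0 * M ^ k)) (j * (m0 * M ^ k) + m0 * M ^ k)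
              (wgt (cPhi n δ α) E ω)) ^ q := by
          ext ω
          rw [pr_Zb n _ _ _ hR, e1]
        rw [e2]
        exact hnf (m0 * M ^ k) (hNk k) n (hnk k hk) α hα Ω P E hE (j * (m0 * M ^ k))
          (by rw [← e1]; exact hR) q hq14.1 hq14.2
      · exact ((pr_Psi_meas n _).sub ((pr_Psi_meas n _).comp (pr_mix_meas0 _))).pow_const q
    refine le_trans (Finset.sum_le_sum hterm) ?_
    rw [Finset.sum_const, Finset.card_range, nsmul_eq_mul]
    apply le_of_eq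
    refine pr_arith (by exact_mod_cast hmpos) (by exact_mod_cast hBpos) ?_ q
    rw [hB]; push_cast; ring

end Pool.Agent.H374
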