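import Pool.Agent.H374.Stmts
import Pool.Agent.H374.Tools

/-!
# Survival bound for the walk with exponential increments
-/

set_option autoImplicit false
open MeasureTheory ProbabilityTheory Filter Topology

namespace Pool.Agent.H374

/-- law of one increment -/
noncomputable def rws_nu (a b : ℝ) : Measure ℝ :=
  Measure.map (fun p : ℝ × ℝ => p.1 - p.2) ((expMeasure a).prod (expMeasure b))

/-- the harmonic function -/
noncomputable def rws_h (a b x : ℝ) : ℝ := 1 - b / a * Real.exp (-((a - b) * x))

/-- sums of the first terms -/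
noncomputable def rws_S (k : ℕ) (f : Fin k → ℝ) (z : ℕ) : ℝ :=
  ∑ i ∈ Finset.range z, if h : i < k then f ⟨i, h⟩ else 0

/-- survival event -/
def rws_A (k : ℕ) (t : ℝ) : Set (Fin k → ℝ) := {f | ∀ z ≤ k, rws_S k f z ≤ t}

lemma rws_prob {a b : ℝ} (ha : 0 < a) (hb : 0 < b) : IsProbabilityMeasure (rws_nu a b) := by
  have := isProbabilityMeasure_expMeasure ha
  have := isProbabilityMeasure_expMeasure hb
  exact Measure.isProbabilityMeasure_map (by fun_prop)

/-- tails of exponential moments -/
lemma rws_tail {a s r : ℝ} (ha : 0 < a) (hs : s < a) (hr : 0 ≤ r) :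
    ∫ x in Set.Ioi r, Real.exp (s * x) ∂(expMeasure a) =
      a / (a - s) * Real.exp (-((a - s) * r)) := by
  have has : 0 < a - s := sub_pos.2 hs
  have h0 : ∫⁻ x in Set.Ioi r, ENNReal.ofReal (Real.exp (s * x)) ∂(expMeasure a) =
      ENNReal.ofReal (a / (a - s) * Real.exp (-((a - s) * r))) := by
    rw [← lintegral_indicator measurableSet_Ioi, lintegral_expMeasure,
      ← lintegral_indicator measurableSet_Ici]
    have h1 : ∀ x : ℝ, (Set.Ici (0 : ℝ)).indicator (fun x => ENNReal.ofReal (a * Real.exp (-(a * x))) *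
        (Set.Ioi r).indicator (fun x => ENNReal.ofReal (Real.exp (s * x))) x) x =
        (Set.Ioi r).indicator (fun x => ENNReal.ofReal (a * Real.exp (-(a - s) * x))) x := by
      intro x
      by_cases hx : x ∈ Set.Ioi r
      · have hx0 : x ∈ Set.Ici (0 : ℝ) := by
          rw [Set.mem_Ioi] at hx
          rw [Set.mem_Ici]; linarith
        rw [Set.indicator_of_mem hx0, Set.indicator_of_mem hx, Set.indicator_of_mem hx,
          ← ENNReal.ofReal_mul (by positivity)]
        congr 1
        rw [mul_assoc, ← Real.exp_add]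
        congr 2
        ring
      · rw [Set.indicator_of_notMem hx, Set.indicator_apply, Set.indicator_of_notMem hx]
        simp
    simp_rw [h1]
    rw [lintegral_indicator measurableSet_Ioi, ← ofReal_integral_eq_lintegral_ofReal]
    · congr 1
      rw [integral_const_mul, integral_exp_mul_Ioi (by linarith)]
      have : -(a - s) ≠ 0 := by linarith
      field_simp
    · exact (integrableOn_exp_mul_Ioi (by linarith) r).const_mul a
    · filter_upwards with x
      positivity
  rw [integral_eq_lintegral_of_nonneg_ae (Filter.Eventually.of_forall fun x => (Real.exp_pos _).le)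
    (by fun_prop), h0, ENNReal.toReal_ofReal]
  positivity

lemma rws_inner {a b r : ℝ} (hb : 0 < b) (hab : b < a) (hr : 0 ≤ r) :
    ∫ x in Set.Ioi r, rws_h a b (r - x) ∂(expMeasure a) = 0 := by
  have ha : 0 < a := hb.trans hab
  have := isProbabilityMeasure_expMeasure ha
  have e : ∀ x : ℝ, rws_h a b (r - x) = Real.exp (0 * x) -
      b / a * Real.exp (-((a - b) * r)) * Real.exp ((a - b) * x) := by
    intro x
    rw [rws_h, zero_mul, Real.exp_zero, mul_assoc, ← Real.exp_add]
    congr 3
    ring
  simp_rw [e]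
  rw [integral_sub, integral_const_mul, rws_tail ha ha hr, rws_tail ha (by linarith) hr]
  · have e2 : Real.exp (-((a - 0) * r)) = Real.exp (-((a - b) * r)) *
        Real.exp (-((a - (a - b)) * r)) := by
      rw [← Real.exp_add]
      congr 1
      ring
    rw [e2]
    have h1 : a - (a - b) = b := by ring
    rw [h1, sub_zero]
    field_simp
    ring
  · exact (integrable_exp_mul_expMeasure ha ha).integrableOn
  · exact ((integrable_exp_mul_expMeasure ha (by linarith)).const_mul _).integrableOn

lemma rws_h_meas (a b : ℝ) : Measurable (rws_h a b) := by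
  unfold rws_h
  fun_prop

lemma rws_int {a b : ℝ} (hb : 0 < b) (hab : b < a) (t : ℝ) :
    Integrable (fun p : ℝ × ℝ => rws_h a b (t - (p.1 - p.2)))
      ((expMeasure a).prod (expMeasure b)) ∧
    ∫ p : ℝ × ℝ, rws_h a b (t - (p.1 - p.2)) ∂((expMeasure a).prod (expMeasure b)) =
      rws_h a b t := by
  have ha : 0 < a := hb.trans hab
  have := isProbabilityMeasure_expMeasure ha
  have := isProbabilityMeasure_expMeasure hb
  have e : ∀ p : ℝ × ℝ, rws_h a b (t - (p.1 - p.2)) = 1 -
      b / a * Real.exp (-((a - b) * t)) *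
        (Real.exp ((a - b) * p.1) * Real.exp (-(a - b) * p.2)) := by
    intro p
    rw [rws_h, mul_assoc (b / a), ← Real.exp_add, ← Real.exp_add]
    congr 3
    ring
  simp_rw [e]
  have i1 := (integrable_exp_mul_expMeasure (s := a - b) ha (by linarith))
  have i2 := (integrable_exp_mul_expMeasure (s := -(a - b)) hb (by linarith))
  have i3 := (i1.mul_prod i2).const_mul (b / a * Real.exp (-((a - b) * t)))
  refine ⟨(integrable_const _).sub i3, ?_⟩
  rw [integral_sub (integrable_const _) i3, integral_const_mul,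
    integral_prod_mul (fun x => Real.exp ((a - b) * x)) (fun x => Real.exp (-(a - b) * x)),
    integral_exp_mul_expMeasure ha (by linarith), integral_exp_mul_expMeasure hb (by linarith)]
  simp only [integral_const, probReal_univ, smul_eq_mul, mul_one]
  rw [rws_h]
  have h1 : a - (a - b) = b := by ring
  have h2 : b - -(a - b) = a := by ring
  rw [h1, h2]
  field_simp

lemma rws_step {a b t : ℝ} (hb : 0 < b) (hab : b < a) (ht : 0 ≤ t) :
    ∫⁻ u in Set.Iic t, ENNReal.ofReal (rws_h a b (t - u)) ∂(rws_nu a b) ≤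
      ENNReal.ofReal (rws_h a b t) := by
  have ha : 0 < a := hb.trans hab
  have := isProbabilityMeasure_expMeasure ha
  have := isProbabilityMeasure_expMeasure hb
  have := rws_prob ha hb
  have hm : Measurable (fun p : ℝ × ℝ => p.1 - p.2) := by fun_prop
  have hhm : Measurable (fun u : ℝ => rws_h a b (t - u)) :=
    (rws_h_meas a b).comp (by fun_prop)
  obtain ⟨hi, hI⟩ := rws_int hb hab t
  have hi' : Integrable (fun u => rws_h a b (t - u)) (rws_nu a b) := by
    rw [rws_nu, integrable_map_measure hhm.aestronglyMeasurable hm.aemeasurable]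
    exact hi
  have hI' : ∫ u, rws_h a b (t - u) ∂(rws_nu a b) = rws_h a b t := by
    rw [rws_nu, integral_map hm.aemeasurable hhm.aestronglyMeasurable]
    exact hI
  have h2 : ∫ u in Set.Ioi t, rws_h a b (t - u) ∂(rws_nu a b) = 0 := by
    rw [← integral_indicator measurableSet_Ioi, rws_nu, integral_map hm.aemeasurable
      (hhm.indicator measurableSet_Ioi).aestronglyMeasurable, integral_prod_symm]
    · apply integral_eq_zero_of_ae
      filter_upwards [ae_nonneg_expMeasure b] with y hy
      have h3 := rws_inner hb hab (add_nonneg ht hy)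
      rw [← integral_indicator measurableSet_Ioi] at h3
      rw [Pi.zero_apply, ← h3]
      apply integral_congr_ae
      filter_upwards with x
      have e1 : t - (x - y) = t + y - x := by ring
      have e2 : x - y ∈ Set.Ioi t ↔ x ∈ Set.Ioi (t + y) := by
        rw [Set.mem_Ioi, Set.mem_Ioi]
        constructor <;> intro h <;> linarith
      by_cases hx : x ∈ Set.Ioi (t + y)
      · rw [Set.indicator_of_mem hx, Set.indicator_of_mem (e2.2 hx), e1]
      · rw [Set.indicator_of_notMem hx, Set.indicator_of_notMem (fun h => hx (e2.1 h))]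
    · have h4 : MeasurableSet {p : ℝ × ℝ | t < p.1 - p.2} := measurableSet_lt measurable_const hm
      have h5 := hi.indicator h4
      refine h5.congr ?_
      filter_upwards with p
      by_cases hp : t < p.1 - p.2
      · rw [Set.indicator_of_mem (by exact hp), Set.indicator_of_mem (by exact hp)]
      · rw [Set.indicator_of_notMem (by exact hp), Set.indicator_of_notMem (by exact hp)]
  have h3 : ∫ u in Set.Iic t, rws_h a b (t - u) ∂(rws_nu a b) = rws_h a b t := by
    have h4 := integral_add_compl (measurableSet_Iic (a := t)) hi'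
    rw [Set.compl_Iic, h2, add_zero, hI'] at h4
    exact h4
  rw [← h3, ofReal_integral_eq_lintegral_ofReal hi'.integrableOn]
  rw [EventuallyLE, ae_restrict_iff' measurableSet_Iic]
  filter_upwards with u hu
  rw [Set.mem_Iic] at hu
  rw [Pi.zero_apply, rws_h, sub_nonneg]
  have h5 : Real.exp (-((a - b) * (t - u))) ≤ 1 := by
    rw [Real.exp_le_one_iff]
    have : 0 ≤ (a - b) * (t - u) := mul_nonneg (by linarith) (by linarith)
    linarith
  have h6 : b / a ≤ 1 := (div_le_one ha).2 hab.le
  have h7 : 0 ≤ b / a := by positivity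
  nlinarith [Real.exp_pos (-((a - b) * (t - u)))]

/-! ### splitting off the first coordinate -/

lemma rws_lint {ν : Measure ℝ} [IsProbabilityMeasure ν] (k : ℕ) (F : (Fin (k + 1) → ℝ) → ENNReal)
    (hF : Measurable F) : ∫⁻ f, F f ∂(Measure.pi fun _ : Fin (k + 1) => ν) =
      ∫⁻ u, ∫⁻ g, F (Fin.cons u g) ∂(Measure.pi fun _ : Fin k => ν) ∂ν := by
  have h1 := (measurePreserving_piFinSuccAbove (fun _ : Fin (k + 1) => ν) 0).symm
  rw [← h1.lintegral_comp hF, lintegral_prod]
  · have e : ∀ (u : ℝ) (g : Fin k → ℝ), (MeasurableEquiv.piFinSuccAbove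
        (fun _ : Fin (k + 1) => ℝ) 0).symm (u, g) = (Fin.cons u g : Fin (k + 1) → ℝ) := by
      intro u g
      exact Fin.insertNth_zero' u g
    simp_rw [e]
  · exact (hF.comp (MeasurableEquiv.measurable _)).aemeasurable

lemma rws_S_cons (k : ℕ) (u : ℝ) (g : Fin k → ℝ) (z : ℕ) :
    rws_S (k + 1) (Fin.cons u g : Fin (k + 1) → ℝ) (z + 1) = u + rws_S k g z := by
  rw [rws_S, Finset.sum_range_succ', add_comm]
  congr 1
  unfold rws_S
  apply Finset.sum_congr rfl
  intro i _
  by_cases h : i < k
  · rw [dif_pos h, dif_pos (by omega)]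
    exact Fin.cons_succ (α := fun _ => ℝ) u g ⟨i, h⟩
  · rw [dif_neg h, dif_neg (by omega)]

lemma rws_S_meas (k z : ℕ) : Measurable (fun f : Fin k → ℝ => rws_S k f z) := by
  unfold rws_S
  apply Finset.measurable_sum
  intro i _
  by_cases h : i < k
  · simp only [dif_pos h]; fun_prop
  · simp only [dif_neg h]; fun_prop

lemma rws_A_meas (k : ℕ) (t : ℝ) : MeasurableSet (rws_A k t) := by
  have : rws_A k t = ⋂ z ∈ Set.Iic k, {f | rws_S k f z ≤ t} := by
    ext f; simp [rws_A]
  rw [this]
  exact MeasurableSet.biInter (Set.to_countable _) fun z _ =>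
    measurableSet_le (rws_S_meas k z) measurable_const

lemma rws_A_cons (k : ℕ) (t u : ℝ) (g : Fin k → ℝ) :
    (Fin.cons u g : Fin (k + 1) → ℝ) ∈ rws_A (k + 1) t ↔ 0 ≤ t ∧ g ∈ rws_A k (t - u) := by
  constructor
  · intro h
    refine ⟨?_, fun z hz => ?_⟩
    · have := h 0 (by omega)
      simpa [rws_S] using this
    · have := h (z + 1) (by omega)
      rw [rws_S_cons] at this
      linarith
  · rintro ⟨h0, h⟩ z hz
    rcases z with _ | z
    · simpa [rws_S] using h0
    · rw [rws_S_cons]
      have := h z (by omega)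
      linarith

lemma rws_super {a b : ℝ} (hb : 0 < b) (hab : b < a) (k : ℕ) : ∀ t : ℝ, 0 ≤ t →
    ∫⁻ f in rws_A k t, ENNReal.ofReal (rws_h a b (t - rws_S k f k))
      ∂(Measure.pi fun _ : Fin k => rws_nu a b) ≤ ENNReal.ofReal (rws_h a b t) := by
  have ha : 0 < a := hb.trans hab
  have := rws_prob ha hb
  induction k with
  | zero =>
    intro t ht
    refine (setLIntegral_le_lintegral _ _).trans ?_
    simp [rws_S]
  | succ k ih =>
    intro t ht
    have hm : Measurable fun f : Fin (k + 1) → ℝ =>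
        ENNReal.ofReal (rws_h a b (t - rws_S (k + 1) f (k + 1))) :=
      ((rws_h_meas a b).comp (measurable_const.sub (rws_S_meas _ _))).ennreal_ofReal
    rw [← lintegral_indicator (rws_A_meas _ _), rws_lint k _ (hm.indicator (rws_A_meas _ _))]
    refine le_trans ?_ (rws_step hb hab ht)
    rw [← lintegral_indicator measurableSet_Iic]
    apply lintegral_mono
    intro u
    by_cases hu : u ≤ t
    · rw [Set.indicator_of_mem (by exact hu)]
      refine le_trans ?_ (ih (t - u) (by linarith))
      rw [← lintegral_indicator (rws_A_meas _ _)]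
      apply lintegral_mono
      intro g
      beta_reduce
      by_cases hg : g ∈ rws_A k (t - u)
      · rw [Set.indicator_of_mem hg, Set.indicator_of_mem ((rws_A_cons k t u g).2 ⟨ht, hg⟩),
          rws_S_cons]
        apply le_of_eq
        congr 2
        ring
      · rw [Set.indicator_of_notMem (fun h => hg ((rws_A_cons k t u g).1 h).2)]
        exact zero_le
    · rw [Set.indicator_of_notMem (by exact hu)]
      rw [nonpos_iff_eq_zero]
      convert lintegral_zero with g
      rw [Set.indicator_of_notMem]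
      intro h
      have := ((rws_A_cons k t u g).1 h).2 0 (by omega)
      simp only [rws_S, Finset.range_zero, Finset.sum_empty] at this
      exact hu (by linarith)

/-! ### exponential moment of the end point -/

lemma rws_mgf1 {a b s : ℝ} (ha : 0 < a) (hb : 0 < b) (hs : s < a) (hs' : -s < b) :
    ∫⁻ u, ENNReal.ofReal (Real.exp (s * u)) ∂(rws_nu a b) =
      ENNReal.ofReal (a / (a - s) * (b / (b + s))) := by
  have := isProbabilityMeasure_expMeasure ha
  have := isProbabilityMeasure_expMeasure hb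
  have h1 : 0 < a - s := sub_pos.2 hs
  have h2 : 0 < b + s := by linarith
  rw [rws_nu, lintegral_map (by fun_prop) (by fun_prop)]
  have e : ∀ p : ℝ × ℝ, ENNReal.ofReal (Real.exp (s * (p.1 - p.2))) =
      ENNReal.ofReal (Real.exp (s * p.1)) * ENNReal.ofReal (Real.exp (-s * p.2)) := by
    intro p
    rw [← ENNReal.ofReal_mul (Real.exp_pos _).le, ← Real.exp_add]
    congr 2
    ring
  simp_rw [e]
  rw [lintegral_prod_mul (f := fun x => ENNReal.ofReal (Real.exp (s * x)))
    (g := fun x => ENNReal.ofReal (Real.exp (-s * x))) (by fun_prop) (by fun_prop),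
    lintegral_exp_mul_expMeasure ha hs, lintegral_exp_mul_expMeasure hb hs',
    ← ENNReal.ofReal_mul (by positivity)]
  rw [sub_neg_eq_add]

lemma rws_mgf {a b s : ℝ} (ha : 0 < a) (hb : 0 < b) (hs : s < a) (hs' : -s < b) (k : ℕ) :
    ∫⁻ f, ENNReal.ofReal (Real.exp (s * rws_S k f k))
      ∂(Measure.pi fun _ : Fin k => rws_nu a b) =
      ENNReal.ofReal ((a / (a - s) * (b / (b + s))) ^ k) := by
  have := rws_prob ha hb
  have h1 : 0 < a - s := sub_pos.2 hs
  have h2 : 0 < b + s := by linarith
  induction k with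
  | zero => simp [rws_S]
  | succ k ih =>
    rw [rws_lint k]
    · simp_rw [rws_S_cons]
      have e : ∀ (u : ℝ) (g : Fin k → ℝ), ENNReal.ofReal (Real.exp (s * (u + rws_S k g k))) =
          ENNReal.ofReal (Real.exp (s * u)) * ENNReal.ofReal (Real.exp (s * rws_S k g k)) := by
        intro u g
        rw [← ENNReal.ofReal_mul (Real.exp_pos _).le, ← Real.exp_add, mul_add]
      simp_rw [e]
      have hm : Measurable fun g : Fin k → ℝ => ENNReal.ofReal (Real.exp (s * rws_S k g k)) := by
        have := rws_S_meas k k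
        fun_prop
      simp_rw [lintegral_const_mul _ hm, ih]
      rw [lintegral_mul_const _ (by fun_prop), rws_mgf1 ha hb hs hs',
        ← ENNReal.ofReal_mul (by positivity), pow_succ, mul_comm]
    · have := rws_S_meas (k + 1) (k + 1)
      fun_prop

/-- the bound for the product law -/
lemma rws_bound {a b s x y : ℝ} (hb : 0 < b) (hab : b < a) (hs0 : 0 < s) (hs : s < a)
    (hx : 0 ≤ x) (hh : 1 / 2 ≤ rws_h a b (x + y)) (k : ℕ) :
    (Measure.pi fun _ : Fin k => rws_nu a b).real (rws_A k x) ≤
      2 * rws_h a b x + Real.exp (s * y) * (a / (a - s) * (b / (b + s))) ^ k := by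
  have ha : 0 < a := hb.trans hab
  have := rws_prob ha hb
  have h1 : 0 < a - s := sub_pos.2 hs
  have h2 : 0 < b + s := by linarith
  set π := (Measure.pi fun _ : Fin k => rws_nu a b) with hπ
  have hx0 : 0 ≤ rws_h a b x := by
    rw [rws_h, sub_nonneg]
    have h5 : Real.exp (-((a - b) * x)) ≤ 1 := by
      rw [Real.exp_le_one_iff]
      have : 0 ≤ (a - b) * x := mul_nonneg (by linarith) hx
      linarith
    have h6 : b / a ≤ 1 := (div_le_one ha).2 hab.le
    have h7 : 0 ≤ b / a := by positivity
    nlinarith [Real.exp_pos (-((a - b) * x))]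
  set E1 : Set (Fin k → ℝ) := rws_A k x ∩ {f | rws_S k f k ≤ -y} with hE1
  set E2 : Set (Fin k → ℝ) := {f | -y < rws_S k f k} with hE2
  have hsub : rws_A k x ⊆ E1 ∪ E2 := by
    intro f hf
    by_cases h : rws_S k f k ≤ -y
    · exact Or.inl ⟨hf, h⟩
    · exact Or.inr (not_le.1 h)
  have hE1m : MeasurableSet E1 :=
    (rws_A_meas k x).inter (measurableSet_le (rws_S_meas k k) measurable_const)
  have b1 : π E1 ≤ ENNReal.ofReal (2 * rws_h a b x) := by
    have h3 : ENNReal.ofReal (1 / 2) * π E1 ≤ ENNReal.ofReal (rws_h a b x) := by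
      refine le_trans ?_ (rws_super hb hab k x hx)
      calc ENNReal.ofReal (1 / 2) * π E1 = ∫⁻ _ in E1, ENNReal.ofReal (1 / 2) ∂π := by
            rw [setLIntegral_const]
        _ ≤ ∫⁻ f in E1, ENNReal.ofReal (rws_h a b (x - rws_S k f k)) ∂π := by
            apply setLIntegral_mono' hE1m
            intro f hf
            apply ENNReal.ofReal_le_ofReal
            refine hh.trans ?_
            unfold rws_h
            have h4 : rws_S k f k ≤ -y := hf.2
            have h5 : Real.exp (-((a - b) * (x - rws_S k f k))) ≤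
                Real.exp (-((a - b) * (x + y))) := by
              apply Real.exp_le_exp.2
              have : (a - b) * (x + y) ≤ (a - b) * (x - rws_S k f k) :=
                mul_le_mul_of_nonneg_left (by linarith) (by linarith)
              linarith
            have h7 : 0 ≤ b / a := by positivity
            have := mul_le_mul_of_nonneg_left h5 h7
            linarith
        _ ≤ _ := lintegral_mono_set Set.inter_subset_left
    have h4 : π E1 = ENNReal.ofReal 2 * (ENNReal.ofReal (1 / 2) * π E1) := by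
      rw [← mul_assoc, ← ENNReal.ofReal_mul (by norm_num)]
      norm_num
    rw [h4, ENNReal.ofReal_mul (by norm_num)]
    exact mul_le_mul_right h3 _
  have b2 : π E2 ≤ ENNReal.ofReal (Real.exp (s * y) * (a / (a - s) * (b / (b + s))) ^ k) := by
    have hm : Measurable fun f : Fin k → ℝ => ENNReal.ofReal (Real.exp (s * rws_S k f k)) := by
      have := rws_S_meas k k
      fun_prop
    have h3 := mul_meas_ge_le_lintegral (μ := π) hm (ENNReal.ofReal (Real.exp (-(s * y))))
    rw [hπ, rws_mgf ha hb hs (by linarith) k, ← hπ] at h3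
    have h4 : π E2 ≤ π {f | ENNReal.ofReal (Real.exp (-(s * y))) ≤
        ENNReal.ofReal (Real.exp (s * rws_S k f k))} := by
      apply measure_mono
      intro f hf
      apply ENNReal.ofReal_le_ofReal
      apply Real.exp_le_exp.2
      have h5 : -y < rws_S k f k := hf
      nlinarith
    have h5 : π E2 = ENNReal.ofReal (Real.exp (s * y)) *
        (ENNReal.ofReal (Real.exp (-(s * y))) * π E2) := by
      rw [← mul_assoc, ← ENNReal.ofReal_mul (Real.exp_pos _).le, ← Real.exp_add]
      simp
    rw [h5, ENNReal.ofReal_mul (Real.exp_pos _).le]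
    exact mul_le_mul_right ((mul_le_mul_right h4 _).trans h3) _
  have h3 : π.real (rws_A k x) ≤ π.real E1 + π.real E2 :=
    (measureReal_mono hsub).trans (measureReal_union_le _ _)
  have c1 : π.real E1 ≤ 2 * rws_h a b x := by
    rw [Measure.real]
    exact ENNReal.toReal_le_of_le_ofReal (by positivity) b1
  have c2 : π.real E2 ≤ Real.exp (s * y) * (a / (a - s) * (b / (b + s))) ^ k := by
    rw [Measure.real]
    exact ENNReal.toReal_le_of_le_ofReal (by positivity) b2
  linarith

/-- the law of the increments -/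
lemma rws_law {Ω : Type} [MeasurableSpace Ω] {P : Measure Ω} {k : ℕ} {ξ η : ℕ → Ω → ℝ} {a b : ℝ}
    (ha : 0 < a) (hb : 0 < b) (h : IIDPair P k ξ η a b) :
    Measure.map (fun ω (i : Fin k) => ξ i ω - η i ω) P =
      Measure.pi (fun _ : Fin k => rws_nu a b) := by
  have := isProbabilityMeasure_expMeasure ha
  have := isProbabilityMeasure_expMeasure hb
  have := rws_prob ha hb
  have hm1 : Measurable fun ω => ((fun i : Fin k => ξ i ω), (fun i : Fin k => η i ω)) :=
    (measurable_pi_lambda (fun ω (i : Fin k) => ξ i ω) fun i => h.meas₁ i i.2).prodMk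
      (measurable_pi_lambda (fun ω (i : Fin k) => η i ω) fun i => h.meas₂ i i.2)
  have hm2 : Measurable fun (p : (Fin k → ℝ) × (Fin k → ℝ)) (i : Fin k) => p.1 i - p.2 i := by
    fun_prop
  have e1 : (fun ω (i : Fin k) => ξ i ω - η i ω) =
      (fun (p : (Fin k → ℝ) × (Fin k → ℝ)) (i : Fin k) => p.1 i - p.2 i) ∘
        (fun ω => ((fun i : Fin k => ξ i ω), (fun i : Fin k => η i ω))) := rfl
  rw [e1, ← Measure.map_map hm2 hm1, h.law]
  have h2 := measurePreserving_arrowProdEquivProdArrow ℝ ℝ (Fin k)
    (fun _ => expMeasure a) (fun _ => expMeasure b)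
  rw [← h2.map_eq, Measure.map_map hm2 h2.measurable]
  have e2 : ((fun (p : (Fin k → ℝ) × (Fin k → ℝ)) (i : Fin k) => p.1 i - p.2 i) ∘
      (MeasurableEquiv.arrowProdEquivProdArrow ℝ ℝ (Fin k))) =
      fun (q : Fin k → ℝ × ℝ) i => (fun p : ℝ × ℝ => p.1 - p.2) (q i) := rfl
  rw [e2]
  have h3 : SigmaFinite (Measure.map (fun p : ℝ × ℝ => p.1 - p.2)
      ((expMeasure a).prod (expMeasure b))) := by
    change SigmaFinite (rws_nu a b)
    infer_instance
  exact Measure.pi_map_pi (μ := fun _ : Fin k => (expMeasure a).prod (expMeasure b))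
    (f := fun _ (p : ℝ × ℝ) => p.1 - p.2)
    (hμ := fun _ => h3) (fun _ => by fun_prop)

lemma rws_event {Ω : Type} [MeasurableSpace Ω] {P : Measure Ω} {k : ℕ} {ξ η : ℕ → Ω → ℝ} {a b : ℝ}
    (ha : 0 < a) (hb : 0 < b) (h : IIDPair P k ξ η a b) (x : ℝ) :
    P.real {ω | ∀ z ≤ k, ∑ i ∈ Finset.range z, (ξ i ω - η i ω) ≤ x} =
      (Measure.pi fun _ : Fin k => rws_nu a b).real (rws_A k x) := by
  rw [← rws_law ha hb h, Measure.real, Measure.real, Measure.map_apply _ (rws_A_meas k x)]
  · congr 2
    ext ω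
    simp only [Set.mem_ofPred_eq, Set.mem_preimage, rws_A]
    have e : ∀ z ≤ k, rws_S k (fun i : Fin k => ξ i ω - η i ω) z =
        ∑ i ∈ Finset.range z, (ξ i ω - η i ω) := by
      intro z hz
      unfold rws_S
      apply Finset.sum_congr rfl
      intro i hi
      rw [Finset.mem_range] at hi
      rw [dif_pos (by omega)]
    constructor
    · intro h1 z hz
      rw [e z hz]; exact h1 z hz
    · intro h1 z hz
      rw [← e z hz]; exact h1 z hz
  · exact measurable_pi_lambda _ fun i => (h.meas₁ i i.2).sub (h.meas₂ i i.2)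

theorem t_RWSurv : RWSurv := by
  intro K0 hK0
  refine ⟨8 * K0 + 2 / K0 ^ 2, by positivity, ⌈(4 * K0 + 1 + 1 / K0 ^ 2) ^ 3⌉₊, ?_⟩
  intro n hn k hk Ω _ P _ ξ η h x hx
  set R : ℝ := 4 * K0 + 1 + 1 / K0 ^ 2 with hR
  have hR0 : 0 < R := by positivity
  set N : ℝ := (n : ℝ) ^ ((1 : ℝ) / 3) with hN
  have hnR : R ^ 3 ≤ (n : ℝ) := (Nat.le_ceil _).trans (by exact_mod_cast hn)
  have hn0 : (0 : ℝ) < n := lt_of_lt_of_le (by positivity) hnR
  have hNR : R ≤ N := by
    rw [hN]
    have h1 : R = (R ^ 3) ^ ((1 : ℝ) / 3) := by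
      rw [← Real.rpow_natCast R 3, ← Real.rpow_mul hR0.le]
      norm_num
    rw [h1]
    exact Real.rpow_le_rpow (by positivity) hnR (by norm_num)
  have hN0 : 0 < N := lt_of_lt_of_le hR0 hNR
  have hN3 : N ^ 3 = n := by
    rw [hN, ← Real.rpow_natCast, ← Real.rpow_mul hn0.le]
    norm_num
  have hNi : (n : ℝ) ^ (-(1 : ℝ) / 3) = 1 / N := by
    rw [hN, show -(1 : ℝ) / 3 = -(1 / 3) by ring, Real.rpow_neg hn0.le]
    exact (one_div _).symm
  rw [hNi] at h ⊢
  set δ : ℝ := K0 * (1 / N) with hδ
  have hδ0 : 0 < δ := by positivity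
  have hδN : δ * N = K0 := by rw [hδ]; field_simp
  have hK2 : 0 < 1 / K0 ^ 2 := by positivity
  have hδ4 : δ < 1 / 4 := by
    have h1 : 4 * K0 < N := by rw [hR] at hNR; linarith
    nlinarith
  have hKN : 1 ≤ K0 ^ 2 * N := by
    have h1 : 1 / K0 ^ 2 ≤ N := by rw [hR] at hNR; linarith
    rw [div_le_iff₀ (by positivity)] at h1
    linarith
  set a : ℝ := 1 / 2 + δ with had
  set b : ℝ := 1 / 2 - δ with hbd
  have hb : 0 < b := by linarith
  have hab : b < a := by linarith
  have ha : 0 < a := by linarith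
  rw [rws_event ha hb h x]
  set y : ℝ := K0 / 2 * N ^ 2 with hy
  have hy0 : 0 ≤ y := by positivity
  have hba : b / a ≤ 1 := (div_le_one ha).2 hab.le
  have hba0 : 0 ≤ b / a := by positivity
  have hdy : δ * y = K0 ^ 2 * N / 2 := by
    rw [hδ, hy]; field_simp
  have hh : 1 / 2 ≤ rws_h a b (x + y) := by
    rw [rws_h]
    have h1 : Real.exp (-((a - b) * (x + y))) ≤ Real.exp (-1) := by
      apply Real.exp_le_exp.2
      have h2 : (a - b) * (x + y) = 2 * δ * x + 2 * (δ * y) := by
        rw [had, hbd]; ring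
      rw [h2, hdy]
      have : 0 ≤ 2 * δ * x := by positivity
      linarith
    have h2 : Real.exp (-1) ≤ 1 / 2 := by
      have := Real.exp_one_gt_d9
      rw [Real.exp_neg, inv_le_comm₀ (Real.exp_pos _) (by norm_num)]
      linarith
    nlinarith [Real.exp_pos (-((a - b) * (x + y)))]
  have hmain := rws_bound hb hab hδ0 (by linarith : δ < a) hx hh k
  have hr : a / (a - δ) * (b / (b + δ)) = 1 - 4 * δ ^ 2 := by
    have h1 : a - δ = 1 / 2 := by rw [had]; ring
    have h2 : b + δ = 1 / 2 := by rw [hbd]; ring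
    rw [h1, h2, had, hbd]; ring
  rw [hr] at hmain
  have hp : Real.exp (δ * y) * (1 - 4 * δ ^ 2) ^ k ≤ 2 / K0 ^ 2 * (1 / N) := by
    have h0 : 0 ≤ 1 - 4 * δ ^ 2 := by nlinarith
    have h1 : 1 - 4 * δ ^ 2 ≤ Real.exp (-(4 * δ ^ 2)) := Real.one_sub_le_exp_neg _
    have h2 : (1 - 4 * δ ^ 2) ^ k ≤ Real.exp (-(K0 ^ 2 * N)) := by
      refine (pow_le_pow_left₀ h0 h1 k).trans ?_
      rw [← Real.exp_nat_mul]
      apply Real.exp_le_exp.2
      have h3 : (n : ℝ) ≤ 4 * k := by exact_mod_cast hk
      have h4 : δ ^ 2 * n = K0 ^ 2 * N := by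
        rw [← hN3, ← hδN]; ring
      nlinarith [sq_nonneg δ, mul_le_mul_of_nonneg_left h3 (sq_nonneg δ)]
    calc Real.exp (δ * y) * (1 - 4 * δ ^ 2) ^ k
        ≤ Real.exp (K0 ^ 2 * N / 2) * Real.exp (-(K0 ^ 2 * N)) := by
          rw [hdy]
          exact mul_le_mul_of_nonneg_left h2 (Real.exp_pos _).le
      _ = Real.exp (-(K0 ^ 2 * N / 2)) := by
          rw [← Real.exp_add]; congr 1; ring
      _ ≤ 2 / K0 ^ 2 * (1 / N) := by
          have h5 : 0 < K0 ^ 2 * N / 2 := by positivity
          have h6 : K0 ^ 2 * N / 2 ≤ Real.exp (K0 ^ 2 * N / 2) := by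
            have := Real.add_one_le_exp (K0 ^ 2 * N / 2)
            linarith
          rw [Real.exp_neg]
          calc (Real.exp (K0 ^ 2 * N / 2))⁻¹ ≤ (K0 ^ 2 * N / 2)⁻¹ := inv_anti₀ h5 h6
            _ = 2 / K0 ^ 2 * (1 / N) := by field_simp
  have hhx : 2 * rws_h a b x ≤ 8 * K0 * (1 / N) * (1 + x) := by
    rw [rws_h]
    have h1 : 1 - (a - b) * x ≤ Real.exp (-((a - b) * x)) := Real.one_sub_le_exp_neg _
    have h2 : 1 - b / a * Real.exp (-((a - b) * x)) ≤ 1 - b / a * (1 - (a - b) * x) := by
      have := mul_le_mul_of_nonneg_left h1 hba0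
      linarith
    have h3 : a - b = 2 * δ := by rw [had, hbd]; ring
    have h4 : 1 - b / a ≤ 4 * δ := by
      have : 1 - b / a = 2 * δ / a := by
        rw [eq_div_iff ha.ne', sub_mul, div_mul_cancel₀ _ ha.ne']; linarith
      rw [this, div_le_iff₀ ha]
      have : 1 / 2 ≤ a := by linarith
      nlinarith
    have h5 : b / a * (2 * δ * x) ≤ 4 * δ * x := by
      have : 0 ≤ 2 * δ * x := by positivity
      nlinarith
    have h6 : 8 * K0 * (1 / N) * (1 + x) = 8 * δ * (1 + x) := by rw [hδ]; ring
    rw [h6]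
    have h7 : 1 - b / a * (1 - (a - b) * x) = (1 - b / a) + b / a * (2 * δ * x) := by
      rw [h3]; ring
    rw [h7] at h2
    have h8 : 8 * δ * (1 + x) = 2 * (4 * δ + 4 * δ * x) := by ring
    rw [h8]
    linarith
  have hx1 : 2 / K0 ^ 2 * (1 / N) ≤ 2 / K0 ^ 2 * (1 / N) * (1 + x) := by
    have h9 : 0 ≤ 2 / K0 ^ 2 * (1 / N) := by positivity
    exact le_mul_of_one_le_right h9 (by linarith)
  calc (Measure.pi fun _ : Fin k => rws_nu a b).real (rws_A k x)
      ≤ 8 * K0 * (1 / N) * (1 + x) + 2 / K0 ^ 2 * (1 / N) * (1 + x) :=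
        hmain.trans (add_le_add hhx (hp.trans hx1))
    _ = (8 * K0 + 2 / K0 ^ 2) * (1 / N) * (1 + x) := by ring

end Pool.Agent.H374
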