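import Pool.Agent.H374.RW1
import Pool.Agent.H374.RW2
import Pool.Agent.H374.Burke
import Pool.Agent.H374.ExpMom
import Pool.Agent.H374.Curv
import Pool.Agent.H374.Half
import Pool.Agent.H374.Full
import Pool.Agent.H374.Diag
import Pool.Agent.H374.LemA
import Pool.Agent.H374.JB
import Pool.Agent.H374.PhiRes
import Pool.Agent.H374.PhiCl
import Pool.Agent.H374.Pair
import Pool.Agent.H374.All
import Pool.Agent.H374.Final
import Pool.Agent.H374.Core
import Pool.Agent.H374.JAbs
import Pool.Agent.H374.JBmom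
import Pool.Agent.H374.JBlaw
import Pool.Agent.H374.Far

/-!
# Assembly
-/

set_option autoImplicit false

namespace Pool.Agent.H374

theorem a_ExpMom : ExpMom := t_ExpMom t_Burke
theorem a_RevIncr : RevIncr := t_RevIncr t_Burke
theorem a_HeavyRow : HeavyRow := t_HeavyRow a_ExpMom
theorem a_UpperCurv : UpperCurv := t_UpperCurv a_ExpMom
theorem a_UpperRev : UpperRev := t_UpperRev a_UpperCurv
theorem a_ExitTail : ExitTail := t_ExitTail t_RWUp t_RWDown a_UpperRev a_RevIncr
theorem a_StatUpper : StatUpper := t_StatUpper t_RWUp t_RWDown a_UpperRev a_RevIncr a_ExitTail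
theorem a_LowerTail : LowerTail := t_LowerTail t_RWUp t_RWDown a_RevIncr a_HeavyRow a_ExitTail
theorem a_DiagMinus : DiagMinus := t_DiagMinus t_Burke a_StatUpper
theorem a_DiagPlus : DiagPlus := t_DiagPlus a_DiagMinus
theorem a_FullUpper : FullUpper := t_FullUpper a_ExpMom
theorem a_FullLower : FullLower := t_FullLower a_ExpMom t_Burke t_RWUp t_RWDown
theorem a_PhiClose : PhiClose := t_PhiClose t_Burke t_RWUp t_RWDown a_RevIncr

theorem a_Core : CoreStmt := t_Core t_LemmaA
theorem a_JAbstract : JAbstract := t_JAbstract t_RWSurv t_RWUp t_RWDown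

theorem a_FarPairs : FarPairs :=
  t_FarPairs a_FullLower a_FullUpper a_LowerTail a_UpperCurv a_UpperRev t_Dyadic

theorem a_AllPairs' (hU : JUpsTail) (hT : JTTail) : AllPairs :=
  t_AllPairs (t_PairResample (t_PhiResample
    (t_JBound a_JAbstract (t_JLaw t_Burke) t_JMom hU hT) a_Core)
    a_PhiClose) a_DiagMinus a_DiagPlus a_LowerTail t_Dyadic

end Pool.Agent.H374
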