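import Pool.Agent.H374.Stmts

/-!
# Abstract algebra of commuting averaging projections (section 10 of the paper)
-/

set_option autoImplicit false
open Finset

namespace Pool.Agent.H374
namespace CoreP

variable {ι : Type} [DecidableEq ι] {E : Type} [AddCommGroup E] [Module ℝ E]

/-- A system of self-adjoint averaging operators. -/
structure ProjSys (B : E →ₗ[ℝ] E →ₗ[ℝ] ℝ) (P : Finset ι → E →ₗ[ℝ] E) : Prop where
  symm : ∀ f g, B f g = B g f
  nonneg : ∀ f, 0 ≤ B f f
  sa : ∀ A f g, B (P A f) g = B f (P A g)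
  comp : ∀ A C f, P A (P C f) = P (A ∪ C) f
  empty : ∀ f, P ∅ f = f

variable {B : E →ₗ[ℝ] E →ₗ[ℝ] ℝ} {P : Finset ι → E →ₗ[ℝ] E}

theorem core_pp (h : ProjSys B P) (A C : Finset ι) (f g : E) :
    B (P A f) (P C g) = B f (P (A ∪ C) g) := by
  rw [h.sa, h.comp]

/-- `V A = |f|^2 - <f, P_A f>`. -/
def VV (B : E →ₗ[ℝ] E →ₗ[ℝ] ℝ) (P : Finset ι → E →ₗ[ℝ] E) (f : E) (A : Finset ι) : ℝ :=
  B f f - B f (P A f)

theorem core_V_eq (h : ProjSys B P) (f : E) (A : Finset ι) :
    VV B P f A = B (f - P A f) (f - P A f) := by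
  have h1 : B (P A f) (P A f) = B f (P A f) := by rw [core_pp h, Finset.union_self]
  have h2 : B (P A f) f = B f (P A f) := h.sa A f f
  simp only [VV, map_sub, LinearMap.sub_apply]
  rw [h1, h2]; ring

theorem core_V_nonneg (h : ProjSys B P) (f : E) (A : Finset ι) : 0 ≤ VV B P f A := by
  rw [core_V_eq h]; exact h.nonneg _

theorem core_a_sub (h : ProjSys B P) (f : E) (A C : Finset ι) :
    B (f - P C f) (P A (f - P C f)) = B f (P A f) - B f (P (A ∪ C) f) := by
  simp only [map_sub, LinearMap.sub_apply]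
  rw [h.comp, core_pp h, core_pp h]
  rw [show C ∪ A = A ∪ C from Finset.union_comm _ _,
    show C ∪ (A ∪ C) = A ∪ C by rw [Finset.union_comm A C, ← Finset.union_assoc, Finset.union_self]]
  ring

theorem core_a_sub0 (h : ProjSys B P) (f : E) (C : Finset ι) :
    B (f - P C f) (f - P C f) = B f f - B f (P C f) := by
  have := core_a_sub h f ∅ C
  rwa [h.empty, h.empty, Finset.empty_union] at this

theorem core_two (h : ProjSys B P) (f : E) (A C : Finset ι) :
    0 ≤ B f f - B f (P A f) - B f (P C f) + B f (P (A ∪ C) f) := by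
  have h1 := core_V_nonneg h (f - P C f) A
  rw [VV, core_a_sub0 h, core_a_sub h] at h1
  linarith

theorem core_three (h : ProjSys B P) (f : E) (A C D : Finset ι) :
    0 ≤ B f f - B f (P A f) - B f (P C f) - B f (P D f) + B f (P (A ∪ C) f) + B f (P (A ∪ D) f)
      + B f (P (C ∪ D) f) - B f (P (A ∪ C ∪ D) f) := by
  have h1 := core_two h (f - P D f) A C
  rw [core_a_sub0 h, core_a_sub h, core_a_sub h, core_a_sub h] at h1
  linarith

theorem core_V_union (h : ProjSys B P) (f : E) (A C : Finset ι) :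
    VV B P f (A ∪ C) ≤ VV B P f A + VV B P f C := by
  have := core_two h f A C
  simp only [VV]; linarith

theorem core_V_biUnion (h : ProjSys B P) (f : E) (b : ℕ → Finset ι) (M : ℕ) :
    VV B P f ((range M).biUnion b) ≤ ∑ l ∈ range M, VV B P f (b l) := by
  induction M with
  | zero => simp [VV, h.empty]
  | succ n ih =>
    rw [Finset.range_add_one, Finset.biUnion_insert, Finset.sum_insert (by simp), Finset.union_comm]
    have := core_V_union h f ((range n).biUnion b) (b n)
    linarith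

/-- All the blocks except `b l`. -/
def CC (b : ℕ → Finset ι) (M l : ℕ) : Finset ι := (range l).biUnion b ∪ (Ico (l + 1) M).biUnion b

theorem core_CC_union (b : ℕ → Finset ι) (M l : ℕ) (hl : l < M) :
    CC b M l ∪ b l = (range M).biUnion b := by
  ext i
  simp only [CC, Finset.mem_union, Finset.mem_biUnion, Finset.mem_range, Finset.mem_Ico]
  constructor
  · rintro ((⟨m, hm, hi⟩ | ⟨m, hm, hi⟩) | hi)
    · exact ⟨m, by omega, hi⟩
    · exact ⟨m, by omega, hi⟩
    · exact ⟨l, hl, hi⟩
  · rintro ⟨m, hm, hi⟩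
    rcases lt_trichotomy m l with hml | hml | hml
    · exact Or.inl (Or.inl ⟨m, hml, hi⟩)
    · subst hml; exact Or.inr hi
    · exact Or.inl (Or.inr ⟨m, ⟨hml, hm⟩, hi⟩)

theorem core_mem_CC (b : ℕ → Finset ι) (M l : ℕ) (hl : l < M) (i : ι) :
    i ∈ CC b M l ↔ ∃ m, m < M ∧ m ≠ l ∧ i ∈ b m := by
  simp only [CC, Finset.mem_union, Finset.mem_biUnion, Finset.mem_range, Finset.mem_Ico]
  constructor
  · rintro (⟨m, hm, hi⟩ | ⟨m, hm, hi⟩)
    · exact ⟨m, by omega, by omega, hi⟩
    · exact ⟨m, by omega, by omega, hi⟩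
  · rintro ⟨m, hm, hml, hi⟩
    rcases lt_or_gt_of_ne hml with h | h
    · exact Or.inl ⟨m, h, hi⟩
    · exact Or.inr ⟨m, ⟨h, hm⟩, hi⟩

theorem core_CC_CC (b : ℕ → Finset ι) (M l m : ℕ) (hl : l < M) (hm : m < M) (hlm : l ≠ m) :
    CC b M l ∪ CC b M m = (range M).biUnion b := by
  ext i
  simp only [Finset.mem_union, core_mem_CC b M l hl, core_mem_CC b M m hm, Finset.mem_biUnion,
    Finset.mem_range]
  constructor
  · rintro (⟨k, hk, _, hi⟩ | ⟨k, hk, _, hi⟩)
    · exact ⟨k, hk, hi⟩
    · exact ⟨k, hk, hi⟩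
  · rintro ⟨k, hk, hi⟩
    by_cases hkl : k = l
    · right; exact ⟨k, hk, by omega, hi⟩
    · left; exact ⟨k, hk, hkl, hi⟩

theorem core_CC_sub (b : ℕ → Finset ι) (M l : ℕ) (hl : l < M) :
    CC b M l ∪ (range M).biUnion b = (range M).biUnion b := by
  rw [← core_CC_union b M l hl, ← Finset.union_assoc, Finset.union_self]

/-- The first-order pieces. -/
def GG (P : Finset ι → E →ₗ[ℝ] E) (f : E) (b : ℕ → Finset ι) (M l : ℕ) : E :=
  P (CC b M l) f - P ((range M).biUnion b) f

/-- The remainder. -/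
def RR (P : Finset ι → E →ₗ[ℝ] E) (f : E) (b : ℕ → Finset ι) (M : ℕ) : E :=
  f - P ((range M).biUnion b) f - ∑ l ∈ range M, GG P f b M l

theorem core_f_GG (f : E) (b : ℕ → Finset ι) (M l : ℕ) :
    B f (GG P f b M l) = B f (P (CC b M l) f) - B f (P ((range M).biUnion b) f) := by
  simp only [GG, map_sub]

theorem core_P_GG (h : ProjSys B P) (f : E) (b : ℕ → Finset ι) (M l : ℕ) (hl : l < M) :
    P ((range M).biUnion b) (GG P f b M l) = 0 := by
  simp only [GG, map_sub]
  rw [h.comp, h.comp, Finset.union_self, Finset.union_comm, core_CC_sub b M l hl, sub_self]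

theorem core_GG_GG (h : ProjSys B P) (f : E) (b : ℕ → Finset ι) (M l m : ℕ) (hl : l < M)
    (hm : m < M) :
    B (GG P f b M l) (GG P f b M m)
      = if l = m then B f (P (CC b M l) f) - B f (P ((range M).biUnion b) f) else 0 := by
  have e1 : B (GG P f b M l) (GG P f b M m) = B (P (CC b M l) f) (GG P f b M m) := by
    have : B (P ((range M).biUnion b) f) (GG P f b M m) = 0 := by
      rw [h.sa, core_P_GG h f b M m hm, map_zero]
    conv_lhs => rw [GG]
    simp only [map_sub, LinearMap.sub_apply]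
    rw [this, sub_zero]
  rw [e1]
  simp only [GG, map_sub]
  rw [core_pp h, core_pp h, core_CC_sub b M l hl]
  split_ifs with hlm
  · subst hlm; rw [Finset.union_self]
  · rw [core_CC_CC b M l m hl hm hlm, sub_self]

theorem core_R_GG (h : ProjSys B P) (f : E) (b : ℕ → Finset ι) (M l : ℕ) (hl : l < M) :
    B (RR P f b M) (GG P f b M l) = 0 := by
  simp only [RR, map_sub, LinearMap.sub_apply, map_sum, LinearMap.sum_apply]
  rw [h.sa, core_P_GG h f b M l hl, map_zero, core_f_GG]
  rw [Finset.sum_eq_single_of_mem l (Finset.mem_range.2 hl)]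
  · rw [core_GG_GG h f b M l l hl hl, if_pos rfl]; ring
  · intro m hm hml
    rw [core_GG_GG h f b M m l (Finset.mem_range.1 hm) hl, if_neg hml]

theorem core_V_split (h : ProjSys B P) (f : E) (b : ℕ → Finset ι) (M : ℕ) :
    VV B P f ((range M).biUnion b) = B (RR P f b M) (RR P f b M)
      + B (∑ l ∈ range M, GG P f b M l) (∑ l ∈ range M, GG P f b M l) := by
  have e : f - P ((range M).biUnion b) f = RR P f b M + ∑ l ∈ range M, GG P f b M l := by
    simp only [RR]; abel
  rw [core_V_eq h, e]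
  have z : B (RR P f b M) (∑ l ∈ range M, GG P f b M l) = 0 := by
    rw [map_sum]
    exact Finset.sum_eq_zero fun l hl => core_R_GG h f b M l (Finset.mem_range.1 hl)
  have z' : B (∑ l ∈ range M, GG P f b M l) (RR P f b M) = 0 := by rw [h.symm, z]
  simp only [map_add, LinearMap.add_apply]
  rw [z, z']; ring

theorem core_GG_sum (h : ProjSys B P) (f : E) (b : ℕ → Finset ι) (M : ℕ) :
    B (∑ l ∈ range M, GG P f b M l) (∑ l ∈ range M, GG P f b M l)
      = ∑ l ∈ range M, (B f (P (CC b M l) f) - B f (P ((range M).biUnion b) f)) := by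
  rw [map_sum]
  refine Finset.sum_congr rfl fun l hl => ?_
  rw [map_sum, LinearMap.sum_apply, Finset.sum_eq_single_of_mem l hl]
  · rw [core_GG_GG h f b M l l (Finset.mem_range.1 hl) (Finset.mem_range.1 hl), if_pos rfl]
  · intro m hm hml
    rw [core_GG_GG h f b M m l (Finset.mem_range.1 hm) (Finset.mem_range.1 hl), if_neg hml]

theorem core_R_le (h : ProjSys B P) (f : E) (b : ℕ → Finset ι) (M : ℕ) :
    B (RR P f b M) (RR P f b M)
      ≤ ∑ l ∈ range M, VV B P f (b l) - VV B P f ((range M).biUnion b) := by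
  have e := core_V_split h f b M
  rw [core_GG_sum h] at e
  -- the telescoping inequality
  obtain ⟨U, hU⟩ : ∃ U : ℕ → Finset ι, U = fun l => (range l).biUnion b := ⟨_, rfl⟩
  obtain ⟨T, hT⟩ : ∃ T : ℕ → Finset ι, T = fun l => (Ico l M).biUnion b := ⟨_, rfl⟩
  have key : ∀ l ∈ range M, 0 ≤ VV B P f (b l)
      + (B f (P (CC b M l) f) - B f (P ((range M).biUnion b) f))
      + (B f (P (U (l + 1)) f) - B f (P (U l) f)) - (B f (P (T (l + 1)) f) - B f (P (T l) f)) := by
    intro l hl
    have hl' := Finset.mem_range.1 hl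
    have h3 := core_three h f (U l) (T (l + 1)) (b l)
    have e1 : U l ∪ T (l + 1) = CC b M l := by rw [hU, hT]; rfl
    have e2 : U l ∪ b l = U (l + 1) := by
      simp only [hU]
      rw [Finset.range_add_one, Finset.biUnion_insert, Finset.union_comm]
    have e3 : T (l + 1) ∪ b l = T l := by
      simp only [hT]
      rw [← Finset.insert_Ico_add_one_left_eq_Ico hl', Finset.biUnion_insert, Finset.union_comm]
    have e4 : U l ∪ T (l + 1) ∪ b l = (range M).biUnion b := by
      rw [e1]; exact core_CC_union b M l hl'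
    rw [e4, e1, e2, e3] at h3
    simp only [VV]
    linarith
  have hs := Finset.sum_nonneg key
  rw [Finset.sum_sub_distrib, Finset.sum_add_distrib, Finset.sum_add_distrib,
    Finset.sum_range_sub (fun l => B f (P (U l) f)), Finset.sum_range_sub (fun l => B f (P (T l) f))]
    at hs
  have u0 : U 0 = ∅ := by simp [hU]
  have uM : U M = (range M).biUnion b := by rw [hU]
  have tM : T M = ∅ := by simp [hT]
  have t0 : T 0 = (range M).biUnion b := by rw [hT, Finset.range_eq_Ico]
  rw [u0, uM, tM, t0, h.empty] at hs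
  rw [VV] at e ⊢
  linarith

/-- Monotonicity used for `V_b ≤ |Z_b|^2`: if `P_b W = W` then `V_b(f) ≤ |f - W|^2`. -/
theorem core_V_le (h : ProjSys B P) (f W : E) (A : Finset ι) (hW : P A W = W) :
    VV B P f A ≤ B (f - W) (f - W) := by
  have e : f - P A f = (f - W) - P A (f - W) := by rw [map_sub, hW]; abel
  rw [core_V_eq h, e, ← core_V_eq h, VV]
  have : 0 ≤ B (f - W) (P A (f - W)) := by
    have h1 : B (P A (f - W)) (P A (f - W)) = B (f - W) (P A (f - W)) := by
      rw [core_pp h, Finset.union_self]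
    rw [← h1]; exact h.nonneg _
  linarith

end CoreP
end Pool.Agent.H374
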