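import Pool.Agent.H374.CoreSys

/-!
# The estimate for one block
-/

set_option autoImplicit false
set_option linter.unusedSectionVars false
open MeasureTheory ProbabilityTheory Finset

namespace Pool.Agent.H374
namespace CoreP

variable {ι : Type} [Fintype ι] {ν : Measure ℝ} [IsProbabilityMeasure ν]

/-- Functions of disjoint groups of coordinates are independent. -/
theorem core_indep {M : ℕ} (b : ℕ → Finset ι)
    (hb : ∀ l m, l < M → m < M → l ≠ m → Disjoint (b l) (b m)) (g : Fin M → (ι → ℝ) → ℝ)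
    (hg : ∀ l, Measurable (g l)) (hd : ∀ (l : Fin M) y z, g l (mix (b l) y z) = g l y) :
    iIndepFun g (Measure.pi fun _ : ι => ν) := by
  classical
  rw [iIndepFun_iff_measure_inter_preimage_eq_mul]
  intro S
  induction S using Finset.induction_on with
  | empty => intro s _; simp
  | insert l S hl ih =>
    intro s hs
    have ih' := ih (sets := s) fun i hi => hs i (Finset.mem_insert_of_mem hi)
    rw [Finset.prod_insert hl, ← ih', Finset.set_biInter_insert]
    have hm1 : MeasurableSet (g l ⁻¹' s l) := hg l (hs l (Finset.mem_insert_self _ _))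
    have hm2 : MeasurableSet (⋂ i ∈ S, g i ⁻¹' s i) :=
      Finset.measurableSet_biInter S fun i hi => hg i (hs i (Finset.mem_insert_of_mem hi))
    have hp := (core_mix_mp (ν := ν) (b l)).measure_preimage (hm1.inter hm2).nullMeasurableSet
    rw [← hp, ← Measure.prod_prod]
    congr 1
    ext ⟨y, z⟩
    simp only [Set.mem_preimage, Set.mem_inter_iff, Set.mem_iInter, Set.mem_prod]
    rw [hd]
    refine and_congr Iff.rfl ?_
    refine forall₂_congr fun m hm => ?_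
    have hlm : m ≠ l := fun h => hl (h ▸ hm)
    have hdis := hb m l m.2 l.2 (fun h => hlm (Fin.ext h))
    have e : mix (b m) (mix (b l) y z) z = z := by
      funext i
      by_cases hi : i ∈ b m
      · rw [core_mix_mem hi, core_mix_not (Finset.disjoint_left.1 hdis hi)]
      · rw [core_mix_not hi]
    rw [← hd m (mix (b l) y z) z, e]

theorem core_PA_congr (A : Finset ι) (f : (ι → ℝ) → ℝ) {w w' : ι → ℝ}
    (h : ∀ i, i ∉ A → w i = w' i) : PA ν A f w = PA ν A f w' := by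
  have e : ∀ y : ι → ℝ, mix A y w = mix A y w' := by
    intro y
    funext i
    by_cases hi : i ∈ A
    · rw [core_mix_mem hi, core_mix_mem hi]
    · rw [core_mix_not hi, core_mix_not hi, h i hi]
  simp only [PA, e]

theorem core_ae_nonneg (h0 : ∀ᵐ x ∂ν, 0 ≤ x) :
    ∀ᵐ x : ι → ℝ ∂(Measure.pi fun _ : ι => ν), ∀ i, 0 ≤ x i := by
  rw [ae_all_iff]
  intro i
  exact (measurePreserving_eval (fun _ : ι => ν) i).quasiMeasurePreserving.ae h0

/-- The gain of the block `A`. -/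
noncomputable def ZZ (f : (ι → ℝ) → ℝ) (A : Finset ι) : (ι → ℝ) → ℝ :=
  fun x => f x - f (mix A 0 x)

theorem core_LG_sub {f g : (ι → ℝ) → ℝ} (hf : LinGrowth f) (hg : LinGrowth g) :
    LinGrowth (fun x => f x - g x) := by
  have := core_LG_add hf (core_LG_smul (-1) hg)
  refine (congrArg LinGrowth ?_).mp this
  funext x; ring

theorem core_LG_ZZ {f : (ι → ℝ) → ℝ} (hf : LinGrowth f) (A : Finset ι) : LinGrowth (ZZ f A) :=
  core_LG_sub hf (core_LG_mix_right hf A 0)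

theorem core_mix_self (A : Finset ι) (z y x : ι → ℝ) : mix A z (mix A y x) = mix A z x := by
  funext i
  by_cases hi : i ∈ A
  · rw [core_mix_mem hi, core_mix_mem hi]
  · rw [core_mix_not hi, core_mix_not hi, core_mix_not hi]

theorem core_V_le_Z [DecidableEq ι] (hν : Integrable (fun x : ℝ => x ^ 4) ν) (f : LGs ι)
    (A : Finset ι) :
    VV (BL (ι := ι) hν) (PL (ι := ι) hν) f A
      ≤ ∫ x, ZZ f.1 A x ^ 2 ∂(Measure.pi fun _ : ι => ν) := by
  set W : LGs ι := ⟨fun x => f.1 (mix A 0 x), core_LG_mix_right f.2 A 0⟩ with hW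
  have h := core_V_le (core_sys hν) f W A (by
    refine Subtype.ext (funext fun x => ?_)
    show ∫ y, f.1 (mix A 0 (mix A y x)) ∂(Measure.pi fun _ : ι => ν) = f.1 (mix A 0 x)
    simp only [core_mix_self]
    simp)
  rw [core_BL_self] at h
  exact h

theorem core_LGs_sum (s : Finset ℕ) (G : ℕ → LGs ι) (x : ι → ℝ) :
    (∑ l ∈ s, G l).1 x = ∑ l ∈ s, (G l).1 x := by
  classical
  induction s using Finset.induction_on with
  | empty => simp
  | insert l s hl ih =>
    rw [Finset.sum_insert hl, Finset.sum_insert hl, ← ih]; rfl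

/-- The statement of Lemma A for fixed `ε` and `C`. -/
def LemmaAt (ε C : ℝ) : Prop :=
  ∀ (Ω : Type) [MeasurableSpace Ω] (P : Measure Ω) [IsProbabilityMeasure P] (M : ℕ)
    (Z : Ω → ℝ) (g : Fin M → Ω → ℝ) (a : ℝ), 0 < a → Measurable Z → (∀ j, Measurable (g j)) →
  (∀ᵐ ω ∂P, 0 ≤ Z ω) → iIndepFun g P → (∀ j, ∫ ω, g j ω ∂P = 0) →
  Integrable (fun ω => Z ω ^ 2) P → (∀ j, Integrable (fun ω => g j ω ^ 4) P) →
  ∫ ω, (∑ j, g j ω) ^ 2 ∂P ≤ ε * (∫ ω, Z ω ^ 2 ∂P + a * ∫ ω, Z ω ∂P)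
    + C * (∫ ω, (Z ω - ∫ ω', Z ω' ∂P - ∑ j, g j ω) ^ 2 ∂P
        + a⁻¹ ^ 2 * ∑ j, ∫ ω, g j ω ^ 4 ∂P)

/-- The pieces have fourth moments bounded by those of the gains. -/
theorem core_GG_pow4 [DecidableEq ι] (hν : Integrable (fun x : ℝ => x ^ 4) ν) (f : LGs ι)
    (b : ℕ → Finset ι) (M l : ℕ) (hl : l < M) :
    ∫ x, (GG (PL (ι := ι) hν) f b M l).1 x ^ 4 ∂(Measure.pi fun _ : ι => ν)
      ≤ 16 * ∫ x, ZZ f.1 (b l) x ^ 4 ∂(Measure.pi fun _ : ι => ν) := by
  set W : LGs ι := ⟨fun x => f.1 (mix (b l) 0 x), core_LG_mix_right f.2 (b l) 0⟩ with hW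
  have hPW : PL hν (b l) W = W := by
    refine Subtype.ext (funext fun x => ?_)
    show ∫ y, f.1 (mix (b l) 0 (mix (b l) y x)) ∂(Measure.pi fun _ : ι => ν) = f.1 (mix (b l) 0 x)
    simp only [core_mix_self]
    simp
  have h1 : PL hν ((range M).biUnion b) W = PL hν (CC b M l) W := by
    rw [← core_CC_union b M l hl, ← (core_sys hν).comp, hPW]
  have h2 : GG (PL (ι := ι) hν) f b M l
      = PL hν (CC b M l) (f - W) - PL hν ((range M).biUnion b) (f - W) := by
    rw [GG, map_sub, map_sub, h1]; abel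
  rw [h2]
  exact core_diff_pow4 hν (f - W).2 (CC b M l) ((range M).biUnion b)

theorem core_fixed [DecidableEq ι] (hν : Integrable (fun x : ℝ => x ^ 4) ν)
    (h0 : ∀ᵐ x ∂ν, 0 ≤ x) (f : LGs ι)
    (hmono : ∀ x : ι → ℝ, (∀ i, 0 ≤ x i) → ∀ A : Finset ι, f.1 (mix A 0 x) ≤ f.1 x)
    {ε C : ℝ} (hLA : LemmaAt ε C) (M : ℕ) (b : ℕ → Finset ι)
    (hb : ∀ l m, l < M → m < M → l ≠ m → Disjoint (b l) (b m)) (a : ℝ) (ha : 0 < a)
    (x : ι → ℝ) (hx : ∀ i, 0 ≤ x i) :
    ∫ y, (∑ l ∈ range M, GG (PL (ι := ι) hν) f b M l).1 (mix ((range M).biUnion b) y x) ^ 2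
        ∂(Measure.pi fun _ : ι => ν)
      ≤ ε * (∫ y, ZZ f.1 ((range M).biUnion b) (mix ((range M).biUnion b) y x) ^ 2
            ∂(Measure.pi fun _ : ι => ν)
          + a * ∫ y, ZZ f.1 ((range M).biUnion b) (mix ((range M).biUnion b) y x)
            ∂(Measure.pi fun _ : ι => ν))
        + C * (∫ y, (RR (PL (ι := ι) hν) f b M).1 (mix ((range M).biUnion b) y x) ^ 2
            ∂(Measure.pi fun _ : ι => ν)
          + a⁻¹ ^ 2 * ∑ l ∈ range M, ∫ y, (GG (PL (ι := ι) hν) f b M l).1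
            (mix ((range M).biUnion b) y x) ^ 4 ∂(Measure.pi fun _ : ι => ν)) := by
  set U := (range M).biUnion b with hU
  set G : ℕ → LGs ι := fun l => GG (PL (ι := ι) hν) f b M l with hG
  have hG' : ∀ l, GG (PL (ι := ι) hν) f b M l = G l := fun l => rfl
  simp only [hG']
  have hZ := core_LG_mix_left (core_LG_ZZ f.2 U) U x
  have hGl : ∀ l, LinGrowth (fun y => (G l).1 (mix U y x)) := fun l =>
    core_LG_mix_left (G l).2 U x
  have key := hLA (ι → ℝ) (Measure.pi fun _ : ι => ν) M (fun y => ZZ f.1 U (mix U y x))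
    (fun l y => (G l).1 (mix U y x)) a ha hZ.1 (fun l => (hGl l).1) ?_ ?_ ?_
    (core_LG_sq_int hν hZ) (fun l => core_LG_pow4_int hν (hGl l))
  · have e1 : ∀ y, (∑ l ∈ range M, G l).1 (mix U y x) = ∑ j : Fin M, (G j).1 (mix U y x) := by
      intro y
      rw [core_LGs_sum, Finset.sum_range]
    have e2 : ∀ y, (RR (PL (ι := ι) hν) f b M).1 (mix U y x)
        = ZZ f.1 U (mix U y x)
          - ∫ y', ZZ f.1 U (mix U y' x) ∂(Measure.pi fun _ : ι => ν)
          - ∑ j : Fin M, (G j).1 (mix U y x) := by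
      intro y
      have r1 : (RR (PL (ι := ι) hν) f b M).1 (mix U y x)
          = f.1 (mix U y x) - PA ν U f.1 (mix U y x) - (∑ l ∈ range M, G l).1 (mix U y x) := rfl
      have r2 : PA ν U f.1 (mix U y x) = PA ν U f.1 x :=
        core_PA_congr U f.1 fun i hi => core_mix_not hi y x
      have r3 : ∫ y', ZZ f.1 U (mix U y' x) ∂(Measure.pi fun _ : ι => ν)
          = PA ν U f.1 x - f.1 (mix U 0 x) := by
        have : ∀ y', ZZ f.1 U (mix U y' x) = f.1 (mix U y' x) - f.1 (mix U 0 x) := by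
          intro y'; rw [ZZ, core_mix_self]
        simp only [this]
        rw [integral_sub (core_LG_integrable hν (core_LG_mix_left f.2 U x)) (integrable_const _)]
        simp [PA]
      rw [r1, r2, r3, e1, ZZ, core_mix_self]
      ring
    simp only [e1, e2]
    rw [Finset.sum_range (fun l => ∫ y, (G l).1 (mix U y x) ^ 4 ∂(Measure.pi fun _ : ι => ν))]
    exact key
  · -- nonnegativity
    filter_upwards [core_ae_nonneg (ι := ι) h0] with y hy
    have hm : ∀ i, 0 ≤ mix U y x i := by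
      intro i
      by_cases hi : i ∈ U
      · rw [core_mix_mem hi]; exact hy i
      · rw [core_mix_not hi]; exact hx i
    exact sub_nonneg.2 (hmono _ hm U)
  · -- independence
    refine core_indep b hb _ (fun l => (hGl l).1) fun l y z => ?_
    have hlU : b l ⊆ U := Finset.subset_biUnion_of_mem b (Finset.mem_range.2 l.2)
    have g1 : ∀ w, (G l).1 w = PA ν (CC b M l) f.1 w - PA ν U f.1 w := fun w => rfl
    rw [g1, g1]
    congr 1
    · refine core_PA_congr _ _ fun i hi => ?_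
      by_cases hiU : i ∈ U
      · have hil : i ∈ b l := by
          rw [hU, ← core_CC_union b M l l.2, Finset.mem_union] at hiU
          exact hiU.resolve_left hi
        rw [core_mix_mem hiU, core_mix_mem hiU, core_mix_mem hil]
      · rw [core_mix_not hiU, core_mix_not hiU]
    · refine core_PA_congr _ _ fun i hi => ?_
      rw [core_mix_not hi, core_mix_not hi]
  · -- centred
    intro l
    have := congrArg (fun h : LGs ι => h.1 x) (core_P_GG (core_sys hν) f b M l l.2)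
    exact this

theorem core_block [DecidableEq ι] (hν : Integrable (fun x : ℝ => x ^ 4) ν)
    (h0 : ∀ᵐ x ∂ν, 0 ≤ x) (f : LGs ι)
    (hmono : ∀ x : ι → ℝ, (∀ i, 0 ≤ x i) → ∀ A : Finset ι, f.1 (mix A 0 x) ≤ f.1 x)
    {ε C : ℝ} (hC : 0 < C) (hLA : LemmaAt ε C) (M : ℕ) (b : ℕ → Finset ι)
    (hb : ∀ l m, l < M → m < M → l ≠ m → Disjoint (b l) (b m)) (a : ℝ) (ha : 0 < a) :
    VV (BL (ι := ι) hν) (PL (ι := ι) hν) f ((range M).biUnion b)
      ≤ ε * (∫ x, ZZ f.1 ((range M).biUnion b) x ^ 2 ∂(Measure.pi fun _ : ι => ν)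
          + a * ∫ x, ZZ f.1 ((range M).biUnion b) x ∂(Measure.pi fun _ : ι => ν))
        + (C + 1) * (∑ l ∈ range M, VV (BL (ι := ι) hν) (PL (ι := ι) hν) f (b l)
            - VV (BL (ι := ι) hν) (PL (ι := ι) hν) f ((range M).biUnion b))
        + C * a⁻¹ ^ 2 * (16 * ∑ l ∈ range M, ∫ x, ZZ f.1 (b l) x ^ 4
            ∂(Measure.pi fun _ : ι => ν)) := by
  have hsys := core_sys (ι := ι) hν
  have hsplit := core_V_split hsys f b M
  have hR := core_R_le hsys f b M
  have hG4 : ∑ l ∈ range M, ∫ x, (GG (PL (ι := ι) hν) f b M l).1 x ^ 4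
      ∂(Measure.pi fun _ : ι => ν)
      ≤ 16 * ∑ l ∈ range M, ∫ x, ZZ f.1 (b l) x ^ 4 ∂(Measure.pi fun _ : ι => ν) := by
    rw [Finset.mul_sum]
    exact Finset.sum_le_sum fun l hl => core_GG_pow4 hν f b M l (Finset.mem_range.1 hl)
  set U := (range M).biUnion b with hU
  set S : LGs ι := ∑ l ∈ range M, GG (PL (ι := ι) hν) f b M l with hS
  set R : LGs ι := RR (PL (ι := ι) hν) f b M with hRdef
  -- integrate the inequality for fixed outside variables
  obtain ⟨iS, eS⟩ := core_int_mix (core_LG_sq_int hν S.2) (S.2.1.pow_const 2) U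
  obtain ⟨iR, eR⟩ := core_int_mix (core_LG_sq_int hν R.2) (R.2.1.pow_const 2) U
  have hZ := core_LG_ZZ f.2 U
  obtain ⟨iZ2, eZ2⟩ := core_int_mix (core_LG_sq_int hν hZ) (hZ.1.pow_const 2) U
  obtain ⟨iZ, eZ⟩ := core_int_mix (core_LG_integrable hν hZ) hZ.1 U
  have iG : ∀ l, Integrable (fun x => ∫ y, (GG (PL (ι := ι) hν) f b M l).1 (mix U y x) ^ 4
      ∂(Measure.pi fun _ : ι => ν)) (Measure.pi fun _ : ι => ν) := fun l =>
    (core_int_mix (core_LG_pow4_int hν (GG (PL (ι := ι) hν) f b M l).2)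
      ((GG (PL (ι := ι) hν) f b M l).2.1.pow_const 4) U).1
  have eG : ∀ l, ∫ x, (∫ y, (GG (PL (ι := ι) hν) f b M l).1 (mix U y x) ^ 4
      ∂(Measure.pi fun _ : ι => ν)) ∂(Measure.pi fun _ : ι => ν)
      = ∫ x, (GG (PL (ι := ι) hν) f b M l).1 x ^ 4 ∂(Measure.pi fun _ : ι => ν) := fun l =>
    (core_int_mix (core_LG_pow4_int hν (GG (PL (ι := ι) hν) f b M l).2)
      ((GG (PL (ι := ι) hν) f b M l).2.1.pow_const 4) U).2
  have iGs : Integrable (fun x => ∑ l ∈ range M, ∫ y, (GG (PL (ι := ι) hν) f b M l).1 (mix U y x) ^ 4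
      ∂(Measure.pi fun _ : ι => ν)) (Measure.pi fun _ : ι => ν) :=
    integrable_finsetSum _ fun l _ => iG l
  have i1 : Integrable (fun x => ε * (∫ y, ZZ f.1 U (mix U y x) ^ 2 ∂(Measure.pi fun _ : ι => ν)
      + a * ∫ y, ZZ f.1 U (mix U y x) ∂(Measure.pi fun _ : ι => ν)))
      (Measure.pi fun _ : ι => ν) := (iZ2.add (iZ.const_mul a)).const_mul ε
  have i2 : Integrable (fun x => C * (∫ y, R.1 (mix U y x) ^ 2 ∂(Measure.pi fun _ : ι => ν)
      + a⁻¹ ^ 2 * ∑ l ∈ range M, ∫ y, (GG (PL (ι := ι) hν) f b M l).1 (mix U y x) ^ 4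
      ∂(Measure.pi fun _ : ι => ν))) (Measure.pi fun _ : ι => ν) :=
    (iR.add (iGs.const_mul _)).const_mul C
  have hint := integral_mono_ae iS (i1.add i2) (by
    filter_upwards [core_ae_nonneg (ι := ι) h0] with x hx
    exact core_fixed hν h0 f hmono hLA M b hb a ha x hx)
  have e1 : ∫ x, (ε * (∫ y, ZZ f.1 U (mix U y x) ^ 2 ∂(Measure.pi fun _ : ι => ν)
      + a * ∫ y, ZZ f.1 U (mix U y x) ∂(Measure.pi fun _ : ι => ν)))
      ∂(Measure.pi fun _ : ι => ν)
      = ε * (∫ x, ZZ f.1 U x ^ 2 ∂(Measure.pi fun _ : ι => ν)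
        + a * ∫ x, ZZ f.1 U x ∂(Measure.pi fun _ : ι => ν)) := by
    rw [integral_const_mul, integral_add iZ2 (iZ.const_mul a), integral_const_mul, eZ2, eZ]
  have e2 : ∫ x, (C * (∫ y, R.1 (mix U y x) ^ 2 ∂(Measure.pi fun _ : ι => ν)
      + a⁻¹ ^ 2 * ∑ l ∈ range M, ∫ y, (GG (PL (ι := ι) hν) f b M l).1 (mix U y x) ^ 4
      ∂(Measure.pi fun _ : ι => ν))) ∂(Measure.pi fun _ : ι => ν)
      = C * (∫ x, R.1 x ^ 2 ∂(Measure.pi fun _ : ι => ν)
        + a⁻¹ ^ 2 * ∑ l ∈ range M, ∫ x, (GG (PL (ι := ι) hν) f b M l).1 x ^ 4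
          ∂(Measure.pi fun _ : ι => ν)) := by
    rw [integral_const_mul, integral_add iR (iGs.const_mul _), integral_const_mul, eR,
      integral_finsetSum _ fun l _ => iG l]
    simp only [eG]
  have e3 : ∫ x, ((fun x => ε * (∫ y, ZZ f.1 U (mix U y x) ^ 2 ∂(Measure.pi fun _ : ι => ν)
      + a * ∫ y, ZZ f.1 U (mix U y x) ∂(Measure.pi fun _ : ι => ν)))
      + fun x => C * (∫ y, R.1 (mix U y x) ^ 2 ∂(Measure.pi fun _ : ι => ν)
      + a⁻¹ ^ 2 * ∑ l ∈ range M, ∫ y, (GG (PL (ι := ι) hν) f b M l).1 (mix U y x) ^ 4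
      ∂(Measure.pi fun _ : ι => ν))) x ∂(Measure.pi fun _ : ι => ν)
      = ε * (∫ x, ZZ f.1 U x ^ 2 ∂(Measure.pi fun _ : ι => ν)
        + a * ∫ x, ZZ f.1 U x ∂(Measure.pi fun _ : ι => ν))
      + C * (∫ x, R.1 x ^ 2 ∂(Measure.pi fun _ : ι => ν)
        + a⁻¹ ^ 2 * ∑ l ∈ range M, ∫ x, (GG (PL (ι := ι) hν) f b M l).1 x ^ 4
          ∂(Measure.pi fun _ : ι => ν)) := by
    rw [integral_add' i1 i2, e1, e2]
  rw [e3, eS] at hint
  rw [core_BL_self, core_BL_self] at hsplit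
  rw [core_BL_self] at hR
  have hCa : 0 ≤ C * a⁻¹ ^ 2 := by positivity
  have h4 := mul_le_mul_of_nonneg_left hG4 hCa
  have h5 := mul_le_mul_of_nonneg_left hR (show 0 ≤ C + 1 by linarith)
  linarith

end CoreP
end Pool.Agent.H374
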