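import Pool.Agent.H374.CoreAlg

/-!
# Replacing coordinates of a product measure by independent copies
-/

set_option autoImplicit false
set_option linter.unusedSectionVars false
open MeasureTheory ProbabilityTheory Finset

namespace Pool.Agent.H374
namespace CoreP

variable {ι : Type} [Fintype ι] {ν : Measure ℝ} [IsProbabilityMeasure ν]

/-- Measurability of functions built with `mix`. -/
theorem core_meas_mix {β : Type} [MeasurableSpace β] (A : Finset ι) {u v : β → ι → ℝ}
    (hu : Measurable u) (hv : Measurable v) : Measurable fun p => mix A (u p) (v p) := by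
  classical
  refine measurable_pi_lambda _ fun i => ?_
  by_cases h : i ∈ A
  · simp only [mix, h, if_true]; exact (measurable_pi_apply i).comp hu
  · simp only [mix, h, if_false]; exact (measurable_pi_apply i).comp hv

theorem core_mix_mem {A : Finset ι} {i : ι} (h : i ∈ A) (y x : ι → ℝ) : mix A y x i = y i := by
  simp [mix, h]

theorem core_mix_not {A : Finset ι} {i : ι} (h : i ∉ A) (y x : ι → ℝ) : mix A y x i = x i := by
  simp [mix, h]

/-- Exchange of the coordinates in `A` between two independent copies. -/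
noncomputable def Tw (A : Finset ι) (p : (ι → ℝ) × (ι → ℝ)) : (ι → ℝ) × (ι → ℝ) := (mix A p.2 p.1, mix A p.1 p.2)

theorem core_Tw_mp (A : Finset ι) :
    MeasurePreserving (Tw A) ((Measure.pi fun _ : ι => ν).prod (Measure.pi fun _ : ι => ν))
      ((Measure.pi fun _ : ι => ν).prod (Measure.pi fun _ : ι => ν)) := by
  classical
  have h1 := measurePreserving_arrowProdEquivProdArrow ℝ ℝ ι (fun _ => ν) (fun _ => ν)
  have h2 : MeasurePreserving (fun (z : ι → ℝ × ℝ) i =>
      (if i ∈ A then Prod.swap else id : ℝ × ℝ → ℝ × ℝ) (z i))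
      (Measure.pi fun _ : ι => ν.prod ν) (Measure.pi fun _ : ι => ν.prod ν) := by
    refine measurePreserving_pi _ _ fun i => ?_
    by_cases h : i ∈ A
    · simp only [h, if_true]; exact Measure.measurePreserving_swap
    · simp only [h, if_false]; exact MeasurePreserving.id _
  have h3 := (h1.comp h2).comp (MeasurePreserving.symm _ h1)
  convert h3 using 1
  funext p
  simp only [Function.comp_apply, Tw]
  have e : (MeasurableEquiv.arrowProdEquivProdArrow ℝ ℝ ι).symm p = fun i => (p.1 i, p.2 i) := rfl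
  rw [e]
  have e2 : ∀ z : ι → ℝ × ℝ, (MeasurableEquiv.arrowProdEquivProdArrow ℝ ℝ ι) z
    = ((fun i => (z i).1), (fun i => (z i).2)) := fun z => rfl
  rw [e2]
  refine Prod.ext (funext fun i => ?_) (funext fun i => ?_)
  · by_cases h : i ∈ A
    · simp [mix, h]
    · simp [mix, h]
  · by_cases h : i ∈ A
    · simp [mix, h]
    · simp [mix, h]

theorem core_Tw_Tw (A : Finset ι) (p : (ι → ℝ) × (ι → ℝ)) : Tw A (Tw A p) = p := by
  classical
  refine Prod.ext (funext fun i => ?_) (funext fun i => ?_)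
  · by_cases h : i ∈ A
    · simp [Tw, mix, h]
    · simp [Tw, mix, h]
  · by_cases h : i ∈ A
    · simp [Tw, mix, h]
    · simp [Tw, mix, h]

theorem core_Tw_meas (A : Finset ι) : Measurable (Tw (ι := ι) A) :=
  (core_meas_mix A measurable_snd measurable_fst).prodMk
    (core_meas_mix A measurable_fst measurable_snd)

/-- `Tw` as a measurable equivalence. -/
noncomputable def TwE (A : Finset ι) : (ι → ℝ) × (ι → ℝ) ≃ᵐ (ι → ℝ) × (ι → ℝ) where
  toFun := Tw A
  invFun := Tw A
  left_inv := core_Tw_Tw A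
  right_inv := core_Tw_Tw A
  measurable_toFun := core_Tw_meas A
  measurable_invFun := core_Tw_meas A

theorem core_Tw_integral (A : Finset ι) (F : (ι → ℝ) × (ι → ℝ) → ℝ) :
    ∫ p, F (Tw A p) ∂((Measure.pi fun _ : ι => ν).prod (Measure.pi fun _ : ι => ν))
      = ∫ p, F p ∂((Measure.pi fun _ : ι => ν).prod (Measure.pi fun _ : ι => ν)) :=
  MeasurePreserving.integral_comp' (f := TwE A) (core_Tw_mp A) F

/-- `(y, x) ↦ mix A y x` sends the product law to the law. -/
theorem core_mix_mp (A : Finset ι) :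
    MeasurePreserving (fun p : (ι → ℝ) × (ι → ℝ) => mix A p.1 p.2)
      ((Measure.pi fun _ : ι => ν).prod (Measure.pi fun _ : ι => ν)) (Measure.pi fun _ : ι => ν) :=
  measurePreserving_snd.comp (core_Tw_mp A)

/-- `(x, y) ↦ mix A y x` sends the product law to the law. -/
theorem core_mix_mp' (A : Finset ι) :
    MeasurePreserving (fun p : (ι → ℝ) × (ι → ℝ) => mix A p.2 p.1)
      ((Measure.pi fun _ : ι => ν).prod (Measure.pi fun _ : ι => ν)) (Measure.pi fun _ : ι => ν) :=
  measurePreserving_fst.comp (core_Tw_mp A)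

/-! ## Linear growth -/

theorem core_LG_C {f : (ι → ℝ) → ℝ} (hf : LinGrowth f) :
    ∃ C : ℝ, 0 ≤ C ∧ ∀ x, |f x| ≤ C * (1 + ∑ i, |x i|) := by
  obtain ⟨_, C, hC⟩ := hf
  refine ⟨C, ?_, hC⟩
  have := hC 0
  simp only [Pi.zero_apply, abs_zero, Finset.sum_const_zero, add_zero, mul_one] at this
  exact (abs_nonneg _).trans this

theorem core_LG_zero : LinGrowth (ι := ι) (fun _ => 0) :=
  ⟨measurable_const, 0, fun x => by simp⟩

theorem core_LG_add {f g : (ι → ℝ) → ℝ} (hf : LinGrowth f) (hg : LinGrowth g) :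
    LinGrowth (fun x => f x + g x) := by
  obtain ⟨C, hC0, hC⟩ := core_LG_C hf
  obtain ⟨D, hD0, hD⟩ := core_LG_C hg
  refine ⟨hf.1.add hg.1, C + D, fun x => ?_⟩
  calc |f x + g x| ≤ |f x| + |g x| := abs_add_le _ _
    _ ≤ _ := by rw [add_mul]; exact add_le_add (hC x) (hD x)

theorem core_LG_smul {f : (ι → ℝ) → ℝ} (c : ℝ) (hf : LinGrowth f) :
    LinGrowth (fun x => c * f x) := by
  obtain ⟨C, hC0, hC⟩ := core_LG_C hf
  refine ⟨hf.1.const_mul c, |c| * C, fun x => ?_⟩
  rw [abs_mul, mul_assoc]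
  exact mul_le_mul_of_nonneg_left (hC x) (abs_nonneg _)

/-- Composition with a map of linear growth. -/
theorem core_LG_mix_left {f : (ι → ℝ) → ℝ} (hf : LinGrowth f) (A : Finset ι) (x : ι → ℝ) :
    LinGrowth (fun y => f (mix A y x)) := by
  classical
  obtain ⟨C, hC0, hC⟩ := core_LG_C hf
  refine ⟨hf.1.comp (core_meas_mix A measurable_id measurable_const), C * (1 + ∑ i, |x i|), ?_⟩
  intro y
  have h1 : ∀ i, |mix A y x i| ≤ |y i| + |x i| := by
    intro i
    by_cases h : i ∈ A
    · rw [core_mix_mem h]; linarith [abs_nonneg (x i)]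
    · rw [core_mix_not h]; linarith [abs_nonneg (y i)]
  have h2 : ∑ i, |mix A y x i| ≤ ∑ i, |y i| + ∑ i, |x i| := by
    rw [← Finset.sum_add_distrib]; exact Finset.sum_le_sum fun i _ => h1 i
  have hx : 0 ≤ ∑ i, |x i| := Finset.sum_nonneg fun i _ => abs_nonneg _
  have hy : 0 ≤ ∑ i, |y i| := Finset.sum_nonneg fun i _ => abs_nonneg _
  calc |f (mix A y x)| ≤ C * (1 + ∑ i, |mix A y x i|) := hC _
    _ ≤ C * ((1 + ∑ i, |x i|) * (1 + ∑ i, |y i|)) := by
        refine mul_le_mul_of_nonneg_left ?_ hC0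
        nlinarith
    _ = _ := by ring

theorem core_LG_mix_right {f : (ι → ℝ) → ℝ} (hf : LinGrowth f) (A : Finset ι) (y : ι → ℝ) :
    LinGrowth (fun x => f (mix A y x)) := by
  classical
  obtain ⟨C, hC0, hC⟩ := core_LG_C hf
  refine ⟨hf.1.comp (core_meas_mix A measurable_const measurable_id), C * (1 + ∑ i, |y i|), ?_⟩
  intro x
  have h1 : ∀ i, |mix A y x i| ≤ |y i| + |x i| := by
    intro i
    by_cases h : i ∈ A
    · rw [core_mix_mem h]; linarith [abs_nonneg (x i)]
    · rw [core_mix_not h]; linarith [abs_nonneg (y i)]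
  have h2 : ∑ i, |mix A y x i| ≤ ∑ i, |y i| + ∑ i, |x i| := by
    rw [← Finset.sum_add_distrib]; exact Finset.sum_le_sum fun i _ => h1 i
  have hx : 0 ≤ ∑ i, |x i| := Finset.sum_nonneg fun i _ => abs_nonneg _
  have hy : 0 ≤ ∑ i, |y i| := Finset.sum_nonneg fun i _ => abs_nonneg _
  calc |f (mix A y x)| ≤ C * (1 + ∑ i, |mix A y x i|) := hC _
    _ ≤ C * ((1 + ∑ i, |y i|) * (1 + ∑ i, |x i|)) := by
        refine mul_le_mul_of_nonneg_left ?_ hC0
        nlinarith
    _ = _ := by ring

/-- The coordinates have four moments. -/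
theorem core_coord_memLp (hν : Integrable (fun x : ℝ => x ^ 4) ν) (i : ι) :
    MemLp (fun x : ι → ℝ => x i) 4 (Measure.pi fun _ : ι => ν) := by
  have h1 : MemLp (fun x : ℝ => x) 4 ν := by
    have h4 : (4 : ENNReal) ≠ 0 := by norm_num
    have h4' : (4 : ENNReal) ≠ ⊤ := by norm_num
    refine (integrable_norm_rpow_iff (μ := ν) (f := fun x : ℝ => x)
      measurable_id.aestronglyMeasurable h4 h4').1 ?_
    refine hν.congr (ae_of_all _ fun x => ?_)
    have : (4 : ENNReal).toReal = ((4 : ℕ) : ℝ) := by norm_num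
    simp only [this, Real.rpow_natCast, Real.norm_eq_abs]
    exact (Even.pow_abs (by decide) x).symm
  exact h1.comp_measurePreserving (measurePreserving_eval (fun _ : ι => ν) i)

theorem core_LG_memLp (hν : Integrable (fun x : ℝ => x ^ 4) ν) {f : (ι → ℝ) → ℝ}
    (hf : LinGrowth f) : MemLp f 4 (Measure.pi fun _ : ι => ν) := by
  obtain ⟨C, hC0, hC⟩ := core_LG_C hf
  have h1 : MemLp (fun x : ι → ℝ => C * (1 + ∑ i, |x i|)) 4 (Measure.pi fun _ : ι => ν) := by
    have h2 : MemLp (fun x : ι → ℝ => ∑ i, |x i|) 4 (Measure.pi fun _ : ι => ν) :=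
      memLp_finsetSum _ fun i _ => (core_coord_memLp hν i).abs
    exact ((memLp_const (1 : ℝ)).add h2).const_mul C
  refine h1.mono hf.1.aestronglyMeasurable (ae_of_all _ fun x => ?_)
  rw [Real.norm_eq_abs, Real.norm_eq_abs]
  exact (hC x).trans (le_abs_self _)

theorem core_LG_integrable (hν : Integrable (fun x : ℝ => x ^ 4) ν) {f : (ι → ℝ) → ℝ}
    (hf : LinGrowth f) : Integrable f (Measure.pi fun _ : ι => ν) :=
  (core_LG_memLp hν hf).integrable (by norm_num)

theorem core_LG_memLp2 (hν : Integrable (fun x : ℝ => x ^ 4) ν) {f : (ι → ℝ) → ℝ}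
    (hf : LinGrowth f) : MemLp f 2 (Measure.pi fun _ : ι => ν) :=
  (core_LG_memLp hν hf).mono_exponent (by norm_num)

theorem core_LG_mul_int (hν : Integrable (fun x : ℝ => x ^ 4) ν) {f g : (ι → ℝ) → ℝ}
    (hf : LinGrowth f) (hg : LinGrowth g) :
    Integrable (fun x => f x * g x) (Measure.pi fun _ : ι => ν) :=
  MemLp.integrable_mul (p := 2) (q := 2) (core_LG_memLp2 hν hf) (core_LG_memLp2 hν hg)

theorem core_LG_pow4_int (hν : Integrable (fun x : ℝ => x ^ 4) ν) {f : (ι → ℝ) → ℝ}
    (hf : LinGrowth f) : Integrable (fun x => f x ^ 4) (Measure.pi fun _ : ι => ν) := by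
  have h := (core_LG_memLp hν hf).integrable_norm_pow (p := 4) (by norm_num)
  refine h.congr (ae_of_all _ fun x => ?_)
  simp only [Real.norm_eq_abs]
  exact Even.pow_abs (by decide) _

theorem core_LG_sq_int (hν : Integrable (fun x : ℝ => x ^ 4) ν) {f : (ι → ℝ) → ℝ}
    (hf : LinGrowth f) : Integrable (fun x => f x ^ 2) (Measure.pi fun _ : ι => ν) := by
  have h := core_LG_mul_int hν hf hf
  refine h.congr (ae_of_all _ fun x => ?_)
  simp only [sq]

/-! ## The averaging operators -/

/-- Integrate out the coordinates in `A`. -/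
noncomputable def PA (ν : Measure ℝ) (A : Finset ι) (f : (ι → ℝ) → ℝ) : (ι → ℝ) → ℝ :=
  fun x => ∫ y, f (mix A y x) ∂(Measure.pi fun _ : ι => ν)

theorem core_PA_LG (hν : Integrable (fun x : ℝ => x ^ 4) ν) {f : (ι → ℝ) → ℝ}
    (hf : LinGrowth f) (A : Finset ι) : LinGrowth (PA ν A f) := by
  classical
  obtain ⟨C, hC0, hC⟩ := core_LG_C hf
  have hm : Measurable fun p : (ι → ℝ) × (ι → ℝ) => f (mix A p.2 p.1) :=
    hf.1.comp (core_meas_mix A measurable_snd measurable_fst)
  refine ⟨(StronglyMeasurable.integral_prod_right (ν := Measure.pi fun _ : ι => ν)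
    (f := fun x y => f (mix A y x)) hm.stronglyMeasurable).measurable, ?_⟩
  have hI : Integrable (fun y : ι → ℝ => 1 + ∑ i, |y i|) (Measure.pi fun _ : ι => ν) := by
    refine (integrable_const _).add (integrable_finsetSum _ fun i _ => ?_)
    exact ((core_coord_memLp hν i).integrable (by norm_num)).abs
  refine ⟨C * ∫ y : ι → ℝ, (1 + ∑ i, |y i|) ∂(Measure.pi fun _ : ι => ν), fun x => ?_⟩
  have hx : 0 ≤ ∑ i, |x i| := Finset.sum_nonneg fun i _ => abs_nonneg _
  have key : ∀ y : ι → ℝ, |f (mix A y x)| ≤ C * (1 + ∑ i, |x i|) * (1 + ∑ i, |y i|) := by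
    intro y
    have h1 : ∀ i, |mix A y x i| ≤ |y i| + |x i| := by
      intro i
      by_cases h : i ∈ A
      · rw [core_mix_mem h]; linarith [abs_nonneg (x i)]
      · rw [core_mix_not h]; linarith [abs_nonneg (y i)]
    have h2 : ∑ i, |mix A y x i| ≤ ∑ i, |y i| + ∑ i, |x i| := by
      rw [← Finset.sum_add_distrib]; exact Finset.sum_le_sum fun i _ => h1 i
    have hy : 0 ≤ ∑ i, |y i| := Finset.sum_nonneg fun i _ => abs_nonneg _
    calc |f (mix A y x)| ≤ C * (1 + ∑ i, |mix A y x i|) := hC _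
      _ ≤ C * ((1 + ∑ i, |x i|) * (1 + ∑ i, |y i|)) := by
          refine mul_le_mul_of_nonneg_left ?_ hC0
          nlinarith
      _ = _ := by ring
  calc |PA ν A f x| ≤ ∫ y, |f (mix A y x)| ∂(Measure.pi fun _ : ι => ν) := abs_integral_le_integral_abs
    _ ≤ ∫ y, C * (1 + ∑ i, |x i|) * (1 + ∑ i, |y i|) ∂(Measure.pi fun _ : ι => ν) := by
        refine integral_mono (core_LG_integrable hν (core_LG_mix_left hf A x)).abs
          (hI.const_mul _) key
    _ = _ := by rw [integral_const_mul]; ring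

theorem core_PA_add (hν : Integrable (fun x : ℝ => x ^ 4) ν) {f g : (ι → ℝ) → ℝ}
    (hf : LinGrowth f) (hg : LinGrowth g) (A : Finset ι) :
    PA ν A (fun x => f x + g x) = fun x => PA ν A f x + PA ν A g x := by
  funext x
  exact integral_add (core_LG_integrable hν (core_LG_mix_left hf A x))
    (core_LG_integrable hν (core_LG_mix_left hg A x))

theorem core_PA_smul (c : ℝ) (f : (ι → ℝ) → ℝ) (A : Finset ι) :
    PA ν A (fun x => c * f x) = fun x => c * PA ν A f x := by
  funext x
  exact integral_const_mul _ _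

theorem core_PA_empty (f : (ι → ℝ) → ℝ) : PA ν ∅ f = f := by
  funext x
  have : ∀ y : ι → ℝ, mix ∅ y x = x := fun y => funext fun i => core_mix_not (by simp) y x
  simp only [PA, this]
  simp

theorem core_mix_mix [DecidableEq ι] (A C : Finset ι) (z y x : ι → ℝ) :
    mix C z (mix A y x) = mix (A ∪ C) (mix C z y) x := by
  funext i
  by_cases hC : i ∈ C
  · rw [core_mix_mem hC, core_mix_mem (Finset.mem_union_right _ hC), core_mix_mem hC]
  · rw [core_mix_not hC]
    by_cases hA : i ∈ A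
    · rw [core_mix_mem hA, core_mix_mem (Finset.mem_union_left _ hA), core_mix_not hC]
    · rw [core_mix_not hA, core_mix_not (by simp [hA, hC])]

theorem core_LG_comp_mp {f : (ι → ℝ) → ℝ} (hν : Integrable (fun x : ℝ => x ^ 4) ν)
    (hf : LinGrowth f) {β : Type} [MeasurableSpace β] {m : Measure β} {u : β → ι → ℝ}
    (hu : MeasurePreserving u m (Measure.pi fun _ : ι => ν)) : MemLp (fun p => f (u p)) 4 m :=
  (core_LG_memLp hν hf).comp_measurePreserving hu

theorem core_PA_comp [DecidableEq ι] (hν : Integrable (fun x : ℝ => x ^ 4) ν) {f : (ι → ℝ) → ℝ}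
    (hf : LinGrowth f) (A C : Finset ι) : PA ν A (PA ν C f) = PA ν (A ∪ C) f := by
  funext x
  simp only [PA]
  have hg := core_LG_mix_left hf (A ∪ C) x
  have h1 : Integrable (fun p : (ι → ℝ) × (ι → ℝ) => f (mix (A ∪ C) (mix C p.2 p.1) x))
      ((Measure.pi fun _ : ι => ν).prod (Measure.pi fun _ : ι => ν)) :=
    (core_mix_mp' C).integrable_comp_of_integrable (core_LG_integrable hν hg)
  have h2 : ∫ p : (ι → ℝ) × (ι → ℝ), f (mix (A ∪ C) (mix C p.2 p.1) x)
      ∂((Measure.pi fun _ : ι => ν).prod (Measure.pi fun _ : ι => ν))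
      = ∫ w, f (mix (A ∪ C) w x) ∂(Measure.pi fun _ : ι => ν) := by
    have := (core_mix_mp' (ν := ν) C).map_eq
    conv_rhs => rw [← this]
    rw [integral_map (core_mix_mp' (ν := ν) C).measurable.aemeasurable
      hg.1.aestronglyMeasurable]
  rw [← h2, integral_prod _ h1]
  refine integral_congr_ae (ae_of_all _ fun y => ?_)
  refine integral_congr_ae (ae_of_all _ fun z => ?_)
  simp only [core_mix_mix]

theorem core_PA_sa (hν : Integrable (fun x : ℝ => x ^ 4) ν) {f g : (ι → ℝ) → ℝ}
    (hf : LinGrowth f) (hg : LinGrowth g) (A : Finset ι) :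
    ∫ x, PA ν A f x * g x ∂(Measure.pi fun _ : ι => ν)
      = ∫ x, f x * PA ν A g x ∂(Measure.pi fun _ : ι => ν) := by
  classical
  have e1 : ∫ p : (ι → ℝ) × (ι → ℝ), f (mix A p.2 p.1) * g p.1
      ∂((Measure.pi fun _ : ι => ν).prod (Measure.pi fun _ : ι => ν))
      = ∫ x, PA ν A f x * g x ∂(Measure.pi fun _ : ι => ν) := by
    have hi : Integrable (fun p : (ι → ℝ) × (ι → ℝ) => f (mix A p.2 p.1) * g p.1)
        ((Measure.pi fun _ : ι => ν).prod (Measure.pi fun _ : ι => ν)) :=
      MemLp.integrable_mul (p := 2) (q := 2)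
        ((core_LG_comp_mp hν hf (core_mix_mp' A)).mono_exponent (by norm_num))
        ((core_LG_comp_mp hν hg measurePreserving_fst).mono_exponent (by norm_num))
    rw [integral_prod _ hi]
    refine integral_congr_ae (ae_of_all _ fun x => ?_)
    exact integral_mul_const (g x) (fun y => f (mix A y x))
  have e2 : ∫ p : (ι → ℝ) × (ι → ℝ), f p.1 * g (mix A p.2 p.1)
      ∂((Measure.pi fun _ : ι => ν).prod (Measure.pi fun _ : ι => ν))
      = ∫ x, f x * PA ν A g x ∂(Measure.pi fun _ : ι => ν) := by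
    have hi : Integrable (fun p : (ι → ℝ) × (ι → ℝ) => f p.1 * g (mix A p.2 p.1))
        ((Measure.pi fun _ : ι => ν).prod (Measure.pi fun _ : ι => ν)) :=
      MemLp.integrable_mul (p := 2) (q := 2)
        ((core_LG_comp_mp hν hf measurePreserving_fst).mono_exponent (by norm_num))
        ((core_LG_comp_mp hν hg (core_mix_mp' A)).mono_exponent (by norm_num))
    rw [integral_prod _ hi]
    refine integral_congr_ae (ae_of_all _ fun x => ?_)
    exact integral_const_mul (f x) (fun y => g (mix A y x))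
  rw [← e1, ← e2, ← core_Tw_integral A (fun p => f p.1 * g (mix A p.2 p.1))]
  refine integral_congr_ae (ae_of_all _ fun p => ?_)
  have : mix A (Tw A p).2 (Tw A p).1 = p.1 := congrArg Prod.fst (core_Tw_Tw A p)
  show f (mix A p.2 p.1) * g p.1 = f (mix A p.2 p.1) * g (mix A (Tw A p).2 (Tw A p).1)
  rw [this]

end CoreP
end Pool.Agent.H374
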