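import Pool.Agent.H374.CoreMix

/-!
# The concrete system of averaging projections
-/

set_option autoImplicit false
set_option linter.unusedSectionVars false
open MeasureTheory ProbabilityTheory Finset

namespace Pool.Agent.H374
namespace CoreP

variable {ι : Type} [Fintype ι] {ν : Measure ℝ} [IsProbabilityMeasure ν]

/-- The space of functions of linear growth. -/
def LGs (ι : Type) [Fintype ι] : Submodule ℝ ((ι → ℝ) → ℝ) where
  carrier := {f | LinGrowth f}
  add_mem' := fun hf hg => core_LG_add hf hg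
  zero_mem' := core_LG_zero
  smul_mem' := fun c _ hf => core_LG_smul c hf

/-- The averaging operators on `LGs`. -/
noncomputable def PL (hν : Integrable (fun x : ℝ => x ^ 4) ν) (A : Finset ι) :
    LGs ι →ₗ[ℝ] LGs ι where
  toFun f := ⟨PA ν A f.1, core_PA_LG hν f.2 A⟩
  map_add' f g := Subtype.ext (core_PA_add hν f.2 g.2 A)
  map_smul' c f := Subtype.ext (core_PA_smul c f.1 A)

/-- The inner product on `LGs`. -/
noncomputable def BL (hν : Integrable (fun x : ℝ => x ^ 4) ν) :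
    LGs ι →ₗ[ℝ] LGs ι →ₗ[ℝ] ℝ :=
  LinearMap.mk₂ ℝ (fun f g => ∫ x, f.1 x * g.1 x ∂(Measure.pi fun _ : ι => ν))
    (fun f f' g => by
      rw [← integral_add (core_LG_mul_int hν f.2 g.2) (core_LG_mul_int hν f'.2 g.2)]
      refine integral_congr_ae (ae_of_all _ fun x => ?_)
      exact add_mul _ _ _)
    (fun c f g => by
      rw [smul_eq_mul, ← integral_const_mul]
      refine integral_congr_ae (ae_of_all _ fun x => ?_)
      exact mul_assoc _ _ _)
    (fun f g g' => by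
      rw [← integral_add (core_LG_mul_int hν f.2 g.2) (core_LG_mul_int hν f.2 g'.2)]
      refine integral_congr_ae (ae_of_all _ fun x => ?_)
      exact mul_add _ _ _)
    (fun c f g => by
      rw [smul_eq_mul, ← integral_const_mul]
      refine integral_congr_ae (ae_of_all _ fun x => ?_)
      exact mul_left_comm _ _ _)

theorem core_BL (hν : Integrable (fun x : ℝ => x ^ 4) ν) (f g : LGs ι) :
    BL hν f g = ∫ x, f.1 x * g.1 x ∂(Measure.pi fun _ : ι => ν) := rfl

theorem core_BL_self (hν : Integrable (fun x : ℝ => x ^ 4) ν) (f : LGs ι) :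
    BL hν f f = ∫ x, f.1 x ^ 2 ∂(Measure.pi fun _ : ι => ν) := by
  rw [core_BL]
  refine integral_congr_ae (ae_of_all _ fun x => ?_)
  exact (sq _).symm

theorem core_sys [DecidableEq ι] (hν : Integrable (fun x : ℝ => x ^ 4) ν) :
    ProjSys (BL (ι := ι) hν) (PL (ι := ι) hν) where
  symm f g := by
    rw [core_BL, core_BL]
    refine integral_congr_ae (ae_of_all _ fun x => ?_)
    exact mul_comm _ _
  nonneg f := by
    rw [core_BL_self]
    exact integral_nonneg fun x => sq_nonneg _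
  sa A f g := core_PA_sa hν f.2 g.2 A
  comp A C f := Subtype.ext (core_PA_comp hν f.2 A C)
  empty f := Subtype.ext (core_PA_empty f.1)

/-- The resampling integral is `2 V`. -/
theorem core_goal_eq [DecidableEq ι] (hν : Integrable (fun x : ℝ => x ^ 4) ν) (f : LGs ι)
    (A : Finset ι) :
    ∫ p : (ι → ℝ) × (ι → ℝ), (f.1 p.1 - f.1 (mix A p.2 p.1)) ^ 2
        ∂((Measure.pi fun _ : ι => ν).prod (Measure.pi fun _ : ι => ν))
      = 2 * VV (BL (ι := ι) hν) (PL (ι := ι) hν) f A := by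
  have m1 : MemLp (fun p : (ι → ℝ) × (ι → ℝ) => f.1 p.1) 2
      ((Measure.pi fun _ : ι => ν).prod (Measure.pi fun _ : ι => ν)) :=
    (core_LG_comp_mp hν f.2 measurePreserving_fst).mono_exponent (by norm_num)
  have m2 : MemLp (fun p : (ι → ℝ) × (ι → ℝ) => f.1 (mix A p.2 p.1)) 2
      ((Measure.pi fun _ : ι => ν).prod (Measure.pi fun _ : ι => ν)) :=
    (core_LG_comp_mp hν f.2 (core_mix_mp' A)).mono_exponent (by norm_num)
  have i1 := m1.integrable_sq
  have i2 := m2.integrable_sq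
  have i3 : Integrable (fun p : (ι → ℝ) × (ι → ℝ) => f.1 p.1 * f.1 (mix A p.2 p.1))
      ((Measure.pi fun _ : ι => ν).prod (Measure.pi fun _ : ι => ν)) :=
    MemLp.integrable_mul (p := 2) (q := 2) m1 m2
  have e0 : ∀ p : (ι → ℝ) × (ι → ℝ), (f.1 p.1 - f.1 (mix A p.2 p.1)) ^ 2
      = (f.1 p.1 ^ 2 + f.1 (mix A p.2 p.1) ^ 2) - 2 * (f.1 p.1 * f.1 (mix A p.2 p.1)) := by
    intro p; ring
  simp only [e0]
  have i12 : Integrable (fun p : (ι → ℝ) × (ι → ℝ) => f.1 p.1 ^ 2 + f.1 (mix A p.2 p.1) ^ 2)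
      ((Measure.pi fun _ : ι => ν).prod (Measure.pi fun _ : ι => ν)) := i1.add i2
  rw [integral_sub i12 (i3.const_mul 2), integral_add i1 i2, integral_const_mul]
  have e1 : ∫ p : (ι → ℝ) × (ι → ℝ), f.1 p.1 ^ 2
      ∂((Measure.pi fun _ : ι => ν).prod (Measure.pi fun _ : ι => ν))
      = ∫ x, f.1 x ^ 2 ∂(Measure.pi fun _ : ι => ν) := by
    rw [integral_prod _ i1]; simp
  have e2 : ∫ p : (ι → ℝ) × (ι → ℝ), f.1 (mix A p.2 p.1) ^ 2
      ∂((Measure.pi fun _ : ι => ν).prod (Measure.pi fun _ : ι => ν))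
      = ∫ x, f.1 x ^ 2 ∂(Measure.pi fun _ : ι => ν) := by
    rw [← e1]
    exact core_Tw_integral A (fun p => f.1 p.1 ^ 2)
  have e3 : ∫ p : (ι → ℝ) × (ι → ℝ), f.1 p.1 * f.1 (mix A p.2 p.1)
      ∂((Measure.pi fun _ : ι => ν).prod (Measure.pi fun _ : ι => ν))
      = BL hν f (PL hν A f) := by
    rw [integral_prod _ i3, core_BL]
    refine integral_congr_ae (ae_of_all _ fun x => ?_)
    exact integral_const_mul (f.1 x) (fun y => f.1 (mix A y x))
  rw [e1, e2, e3, VV, core_BL_self]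
  ring

/-- Averages of integrable functions of `mix A y x`. -/
theorem core_int_mix {h : (ι → ℝ) → ℝ} (hi : Integrable h (Measure.pi fun _ : ι => ν))
    (hm : Measurable h) (A : Finset ι) :
    Integrable (fun x => ∫ y, h (mix A y x) ∂(Measure.pi fun _ : ι => ν))
      (Measure.pi fun _ : ι => ν) ∧
    ∫ x, (∫ y, h (mix A y x) ∂(Measure.pi fun _ : ι => ν)) ∂(Measure.pi fun _ : ι => ν)
      = ∫ x, h x ∂(Measure.pi fun _ : ι => ν) := by
  have h1 : Integrable (fun p : (ι → ℝ) × (ι → ℝ) => h (mix A p.2 p.1))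
      ((Measure.pi fun _ : ι => ν).prod (Measure.pi fun _ : ι => ν)) :=
    (core_mix_mp' A).integrable_comp_of_integrable hi
  refine ⟨h1.integral_prod_left, ?_⟩
  rw [← integral_prod _ h1]
  have h2 := integral_map
    (μ := (Measure.pi fun _ : ι => ν).prod (Measure.pi fun _ : ι => ν))
    (core_mix_mp' (ν := ν) A).measurable.aemeasurable
    (f := h) (hm.aestronglyMeasurable)
  rw [(core_mix_mp' (ν := ν) A).map_eq] at h2
  exact h2.symm

/-- Jensen for fourth powers. -/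
theorem core_pow4_le {Ω : Type} [MeasurableSpace Ω] (P : Measure Ω) [IsProbabilityMeasure P]
    (h : Ω → ℝ) (h1 : Integrable h P) (h2 : Integrable (fun x => h x ^ 2) P)
    (h4 : Integrable (fun x => h x ^ 4) P) : (∫ x, h x ∂P) ^ 4 ≤ ∫ x, h x ^ 4 ∂P := by
  have gen : ∀ u : Ω → ℝ, Integrable u P → Integrable (fun x => u x ^ 2) P →
      (∫ x, u x ∂P) ^ 2 ≤ ∫ x, u x ^ 2 ∂P := by
    intro u hu hu2
    have h0 : 0 ≤ ∫ x, (u x - ∫ y, u y ∂P) ^ 2 ∂P := integral_nonneg fun x => sq_nonneg _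
    have e : ∀ x, (u x - ∫ y, u y ∂P) ^ 2
        = u x ^ 2 - (2 * ∫ y, u y ∂P) * u x + (∫ y, u y ∂P) ^ 2 := by intro x; ring
    simp only [e] at h0
    have i12 : Integrable (fun x => u x ^ 2 - (2 * ∫ y, u y ∂P) * u x) P :=
      hu2.sub (hu.const_mul _)
    rw [integral_add i12 (integrable_const _),
      integral_sub hu2 (hu.const_mul _), integral_const_mul] at h0
    simp only [integral_const, probReal_univ, one_smul] at h0
    nlinarith
  have a1 := gen h h1 h2
  have h4' : Integrable (fun x => (h x ^ 2) ^ 2) P := by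
    refine h4.congr (ae_of_all _ fun x => ?_)
    ring
  have a2 := gen (fun x => h x ^ 2) h2 h4'
  have e4 : ∫ x, (h x ^ 2) ^ 2 ∂P = ∫ x, h x ^ 4 ∂P := by
    refine integral_congr_ae (ae_of_all _ fun x => ?_)
    ring
  rw [e4] at a2
  have a3 : ((∫ x, h x ∂P) ^ 2) ^ 2 ≤ (∫ x, h x ^ 2 ∂P) ^ 2 :=
    pow_le_pow_left₀ (sq_nonneg _) a1 2
  calc (∫ x, h x ∂P) ^ 4 = ((∫ x, h x ∂P) ^ 2) ^ 2 := by ring
    _ ≤ _ := a3
    _ ≤ _ := a2

theorem core_PA_pow4 (hν : Integrable (fun x : ℝ => x ^ 4) ν) {f : (ι → ℝ) → ℝ}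
    (hf : LinGrowth f) (A : Finset ι) :
    ∫ x, PA ν A f x ^ 4 ∂(Measure.pi fun _ : ι => ν) ≤ ∫ x, f x ^ 4 ∂(Measure.pi fun _ : ι => ν) := by
  obtain ⟨i1, e1⟩ := core_int_mix (core_LG_pow4_int hν hf) (hf.1.pow_const 4) A
  rw [← e1]
  refine integral_mono (core_LG_pow4_int hν (core_PA_LG hν hf A)) i1 fun x => ?_
  have hx := core_LG_mix_left hf A x
  exact core_pow4_le _ (fun y => f (mix A y x)) (core_LG_integrable hν hx)
    (core_LG_sq_int hν hx) (core_LG_pow4_int hν hx)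

theorem core_diff_pow4 (hν : Integrable (fun x : ℝ => x ^ 4) ν) {f : (ι → ℝ) → ℝ}
    (hf : LinGrowth f) (A C : Finset ι) :
    ∫ x, (PA ν A f x - PA ν C f x) ^ 4 ∂(Measure.pi fun _ : ι => ν)
      ≤ 16 * ∫ x, f x ^ 4 ∂(Measure.pi fun _ : ι => ν) := by
  have iA := core_LG_pow4_int hν (core_PA_LG hν hf A)
  have iC := core_LG_pow4_int hν (core_PA_LG hν hf C)
  have hAC : LinGrowth (fun x => PA ν A f x - PA ν C f x) := by
    have := core_LG_add (core_PA_LG hν hf A) (core_LG_smul (-1) (core_PA_LG hν hf C))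
    refine (congrArg LinGrowth ?_).mp this
    funext x; ring
  have i3 := core_LG_pow4_int hν hAC
  have h1 : ∀ a b : ℝ, (a - b) ^ 4 ≤ 8 * a ^ 4 + 8 * b ^ 4 := by
    intro a b
    nlinarith [sq_nonneg (a + b), sq_nonneg (a ^ 2 - b ^ 2), sq_nonneg (a * (a + b)),
      sq_nonneg (b * (a + b)), sq_nonneg ((a + b) ^ 2), sq_nonneg (a ^ 2 + b ^ 2),
      sq_nonneg (a - b), sq_nonneg ((a - b) * (a + b)), sq_nonneg (a * b)]
  calc _ ≤ ∫ x, (8 * PA ν A f x ^ 4 + 8 * PA ν C f x ^ 4) ∂(Measure.pi fun _ : ι => ν) :=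
        integral_mono i3 ((iA.const_mul 8).add (iC.const_mul 8)) fun x => h1 _ _
    _ = 8 * ∫ x, PA ν A f x ^ 4 ∂(Measure.pi fun _ : ι => ν)
        + 8 * ∫ x, PA ν C f x ^ 4 ∂(Measure.pi fun _ : ι => ν) := by
        rw [integral_add (iA.const_mul 8) (iC.const_mul 8), integral_const_mul, integral_const_mul]
    _ ≤ _ := by
        have := core_PA_pow4 hν hf A
        have := core_PA_pow4 hν hf C
        linarith

end CoreP
end Pool.Agent.H374
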