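import Mathlib

/-!
# Half-space last passage percolation: definitions

Paths are parametrised by absolute time `t = i + j`; the vertex at time `t` of the path `x` is
`(x t, t - x t)`.  `L D w u v` is the passage value from `u` to `v` inside the domain `D`, with both
ends counted.
-/

set_option autoImplicit false
open MeasureTheory ProbabilityTheory

namespace Pool.Agent.H374

/-- An up-right path in absolute time. -/
def IsPath (x : ℤ → ℤ) : Prop := ∀ t, x (t + 1) = x t ∨ x (t + 1) = x t + 1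

/-- The vertex of the path `x` at time `t`. -/
def vert (x : ℤ → ℤ) (t : ℤ) : ℤ × ℤ := (x t, t - x t)

/-- The time of a vertex. -/
def tm (u : ℤ × ℤ) : ℤ := u.1 + u.2

/-- Up-right paths from `u` to `v` which stay in `D` between these two vertices. -/
def Path (D : Set (ℤ × ℤ)) (u v : ℤ × ℤ) : Set (ℤ → ℤ) :=
  {x | IsPath x ∧ x (tm u) = u.1 ∧ x (tm v) = v.1 ∧ ∀ k, tm u ≤ k → k ≤ tm v → vert x k ∈ D}

/-- Weight collected by `x` at the times `s, s+1, ..., t`. -/
noncomputable def wsum (w : ℤ × ℤ → ℝ) (x : ℤ → ℤ) (s t : ℤ) : ℝ :=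
  ∑ k ∈ Finset.Icc s t, w (vert x k)

/-- Passage value from `u` to `v` in the domain `D`, both ends counted. -/
noncomputable def L (D : Set (ℤ × ℤ)) (w : ℤ × ℤ → ℝ) (u v : ℤ × ℤ) : ℝ :=
  sSup ((fun x => wsum w x (tm u) (tm v)) '' Path D u v)

/-- The half-space. -/
def Hs : Set (ℤ × ℤ) := {z | z.2 ≤ z.1}

/-- The strict half-space (no diagonal sites). -/
def St : Set (ℤ × ℤ) := {z | z.2 < z.1}

/-- Domain to the right of a staircase. -/
def Dl (ℓ : ℤ → ℤ) : Set (ℤ × ℤ) := {z | ℓ z.2 ≤ z.1}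

section
variable {Ω : Type} [MeasurableSpace Ω]

/-- An environment: iid `Exp(1)` variables indexed by the lattice. -/
structure Env (P : Measure Ω) (E : ℤ × ℤ → Ω → ℝ) : Prop where
  prob : IsProbabilityMeasure P
  meas : ∀ z, Measurable (E z)
  indep : iIndepFun E P
  law : ∀ z, Measure.map (E z) P = expMeasure 1

/-- The first `k` members of `g` are iid `Exp(r)`. -/
structure IIDExp (P : Measure Ω) (k : ℕ) (g : ℕ → Ω → ℝ) (r : ℝ) : Prop where
  meas : ∀ i, i < k → Measurable (g i)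
  law : Measure.map (fun ω (i : Fin k) => g i ω) P = Measure.pi (fun _ : Fin k => expMeasure r)

/-- Two independent iid sequences of length `k`, `Exp(a)` and `Exp(b)`. -/
structure IIDPair (P : Measure Ω) (k : ℕ) (ξ η : ℕ → Ω → ℝ) (a b : ℝ) : Prop where
  meas₁ : ∀ i, i < k → Measurable (ξ i)
  meas₂ : ∀ i, i < k → Measurable (η i)
  law : Measure.map (fun ω => ((fun i : Fin k => ξ i ω), (fun i : Fin k => η i ω))) P
    = (Measure.pi (fun _ : Fin k => expMeasure a)).prod (Measure.pi (fun _ : Fin k => expMeasure b))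

/-- Weights with scale `c`. -/
def wgt (c : ℤ × ℤ → ℝ) (E : ℤ × ℤ → Ω → ℝ) (ω : Ω) : ℤ × ℤ → ℝ := fun z => c z * E z ω

end

/-- Scale of the half-space model: rate `α` on the diagonal. -/
noncomputable def cH (α : ℝ) : ℤ × ℤ → ℝ := fun z => if z.1 = z.2 then α⁻¹ else 1

/-- Scale with row data of rate `lam` on row `0` and rate `α` on the staircase `ℓ`;
`ℓ = id` is the half-space, `ℓ = 0` is the quadrant. -/
noncomputable def cRow (ℓ : ℤ → ℤ) (lam α : ℝ) : ℤ × ℤ → ℝ := fun z =>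
  if z = (0, 0) then 0 else if z.2 = 0 then lam⁻¹ else if z.1 = ℓ z.2 then α⁻¹ else 1

/-- Half-space scale with data of rate `lam` on row `r` (start `(r,r)`). -/
noncomputable def cMinus (r : ℤ) (lam α : ℝ) : ℤ × ℤ → ℝ := fun z =>
  if z = (r, r) then 0 else if z.2 = r then lam⁻¹ else if z.1 = z.2 then α⁻¹ else 1

/-- Half-space scale with data of rate `lam` on column `N` (end `(N,N)`). -/
noncomputable def cPlus (N : ℤ) (lam α : ℝ) : ℤ × ℤ → ℝ := fun z =>
  if z = (N, N) then 0 else if z.1 = N then lam⁻¹ else if z.1 = z.2 then α⁻¹ else 1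

/-- Scale of the functional `Φ`: rate `1/2+δ` on row `0` and on column `n+1`, rate `α` on the
diagonal, weight `0` at the three corners. -/
noncomputable def cPhi (n : ℕ) (δ α : ℝ) : ℤ × ℤ → ℝ := fun z =>
  if z = (0, 0) ∨ z = ((n : ℤ) + 1, 0) ∨ z = ((n : ℤ) + 1, (n : ℤ) + 1) then 0
  else if z.2 = 0 ∨ z.1 = (n : ℤ) + 1 then (1 / 2 + δ)⁻¹
  else if z.1 = z.2 then α⁻¹ else 1

/-- The functional `Φ` of a weight field. -/
noncomputable def Phi (n : ℕ) (w : ℤ × ℤ → ℝ) : ℝ := L Hs w (0, 0) ((n : ℤ) + 1, (n : ℤ) + 1)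

/-- Set the diagonal weights with index in `(i, R]` to zero. -/
noncomputable def zeroB (i R : ℕ) (w : ℤ × ℤ → ℝ) : ℤ × ℤ → ℝ := fun z =>
  if z.1 = z.2 ∧ (i : ℤ) < z.1 ∧ z.1 ≤ (R : ℤ) then 0 else w z

/-- The gain `Z_b` of the block `b = (i, R]`. -/
noncomputable def Zb (n i R : ℕ) (w : ℤ × ℤ → ℝ) : ℝ := Phi n w - Phi n (zeroB i R w)

/-- Point-to-point value between diagonal sites: sites `s+1, ..., t`. -/
noncomputable def X (w : ℤ × ℤ → ℝ) (s t : ℤ) : ℝ := L Hs w (s + 1, s + 1) (t, t)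

/-- Full-space point-to-point value. -/
noncomputable def TF (w : ℤ × ℤ → ℝ) (s t : ℤ) : ℝ := L Set.univ w (s + 1, s + 1) (t, t)

/-- `G1 w m z`: half-space value from `(z,1)` to `(m,m)`. -/
noncomputable def G1 (w : ℤ × ℤ → ℝ) (m z : ℕ) : ℝ := L Hs w ((z : ℤ), 1) ((m : ℤ), (m : ℤ))

/-- Resampled diagonal: the diagonal entry `(i,i)` is replaced by the entry `(i,i+1)`. -/
def resamp {Ω : Type} (E : ℤ × ℤ → Ω → ℝ) : ℤ × ℤ → Ω → ℝ :=
  fun z => if z.1 = z.2 then E (z.1, z.1 + 1) else E z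

end Pool.Agent.H374
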