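import Pool.Agent.H374.JBb

/-!
# The block estimate: tails of `Υ` and of `T` (helper146)
-/

set_option autoImplicit false
open MeasureTheory ProbabilityTheory

namespace Pool.Agent.H374

lemma jt_exp {a b θ : ℝ} (ha : 0 < a) (hab : a ≤ b) (hθ : 0 ≤ θ) :
    Real.exp (-θ / a) ≤ Real.exp (-θ / b) := by
  rw [Real.exp_le_exp, neg_div, neg_div, neg_le_neg_iff]
  exact div_le_div_of_nonneg_left hθ ha hab

lemma jt_minus {Ω : Type} (E : ℤ × ℤ → Ω → ℝ) (ω : Ω) (n : ℕ) (δ : ℝ) {a : ℤ} (h : a ≤ n) :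
    L Hs (wgt (cPhi n δ (1 / 2 - δ)) E ω) (0, 0) (a, a) =
      L Hs (wgt (cMinus 0 (1 - (1 / 2 - δ)) (1 / 2 - δ)) E ω) (0, 0) (a, a) := by
  refine L_congr fun z hz _ => ?_
  have h1 := mem_rect.1 hz
  simp only at h1
  have e : (1 : ℝ) - (1 / 2 - δ) = 1 / 2 + δ := by ring
  have e1 : z.1 ≠ (n : ℤ) + 1 := by omega
  have e2 : z ≠ ((n : ℤ) + 1, 0) := fun h => e1 (by rw [h])
  have e3 : z ≠ ((n : ℤ) + 1, (n : ℤ) + 1) := fun h => e1 (by rw [h])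
  simp only [wgt, cPhi, cMinus, e, e1, e2, e3, or_false]

lemma jt_plus {Ω : Type} (E : ℤ × ℤ → Ω → ℝ) (ω : Ω) (n : ℕ) (δ : ℝ) {a : ℤ} (h : 1 ≤ a) :
    L Hs (wgt (cPhi n δ (1 / 2 - δ)) E ω) (a, a) ((n : ℤ) + 1, (n : ℤ) + 1) =
      L Hs (wgt (cPlus ((n : ℤ) + 1) (1 - (1 / 2 - δ)) (1 / 2 - δ)) E ω) (a, a)
        ((n : ℤ) + 1, (n : ℤ) + 1) := by
  refine L_congr fun z hz _ => ?_
  have h1 := mem_rect.1 hz
  simp only at h1
  have e : (1 : ℝ) - (1 / 2 - δ) = 1 / 2 + δ := by ring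
  have e1 : z.2 ≠ 0 := by omega
  have e2 : z ≠ ((n : ℤ) + 1, 0) := fun h => e1 (by rw [h])
  have e3 : z ≠ (0, 0) := fun h => e1 (by rw [h])
  simp only [wgt, cPhi, cPlus, e, e1, e2, e3, false_or]

lemma jt_X {Ω : Type} (E : ℤ × ℤ → Ω → ℝ) (ω : Ω) (n : ℕ) (δ : ℝ) {a b : ℤ} (h : 0 ≤ a)
    (hb : b ≤ n) :
    L Hs (wgt (cPhi n δ (1 / 2 - δ)) E ω) (a + 1, a + 1) (b, b) =
      X (wgt (cH (1 / 2 - δ)) E ω) a b := by
  unfold X
  refine L_congr fun z hz _ => ?_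
  have h1 := mem_rect.1 hz
  simp only at h1
  have e1 : z.2 ≠ 0 := by omega
  have e1' : z.1 ≠ (n : ℤ) + 1 := by omega
  have e2 : z ≠ ((n : ℤ) + 1, 0) := fun h => e1 (by rw [h])
  have e3 : z ≠ (0, 0) := fun h => e1 (by rw [h])
  have e4 : z ≠ ((n : ℤ) + 1, (n : ℤ) + 1) := fun h => e1' (by rw [h])
  simp only [wgt, cPhi, cH, e1, e1', e2, e3, e4, or_self, if_false]

theorem t_JUpsTail (h1 : DiagMinus) (h2 : DiagPlus) (h3 : LowerTail) : JUpsTail := by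
  obtain ⟨κ1, hκ1, C1, hC1, H1⟩ := h1
  obtain ⟨κ2, hκ2, C2, hC2, H2⟩ := h2
  obtain ⟨κ3, hκ3, C3, hC3, H3⟩ := h3
  refine ⟨min κ1 (min κ2 κ3), by positivity, 3 * (C1 + C2 + C3), by positivity, ?_⟩
  intro Ω _ P E hE n i R hi hR hm δ hδ hδ4 hδκ θ hθ
  have := hE.prob
  have hm2 : (2 : ℝ) ≤ (R : ℝ) - i := by
    have : ((i + 2 : ℕ) : ℝ) ≤ R := by exact_mod_cast hi
    push_cast at this
    linarith
  obtain ⟨m, hmdef⟩ : ∃ m : ℝ, m = (R : ℝ) - i := ⟨_, rfl⟩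
  rw [← hmdef] at hδκ hm2 ⊢
  have hmp : 0 < m ^ (-(1 : ℝ) / 3) := Real.rpow_pos_of_pos (by linarith) _
  have hmp' : m ^ (-(1 : ℝ) / 3) ≤ (m - 1) ^ (-(1 : ℝ) / 3) :=
    Real.rpow_le_rpow_of_nonpos (by linarith) (by linarith) (by norm_num)
  have hmq : (m - 1) ^ ((1 : ℝ) / 3) ≤ m ^ ((1 : ℝ) / 3) :=
    Real.rpow_le_rpow (by linarith) (by linarith) (by norm_num)
  have hα : |(1 / 2 - δ) - 1 / 2| = δ := by
    rw [show (1 / 2 - δ) - 1 / 2 = -δ by ring, abs_neg, abs_of_pos hδ]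
  have k1 : δ ≤ κ1 * m ^ (-(1 : ℝ) / 3) :=
    hδκ.trans (mul_le_mul_of_nonneg_right (min_le_left _ _) hmp.le)
  have k2 : δ ≤ κ2 * (m - 1) ^ (-(1 : ℝ) / 3) :=
    (hδκ.trans (mul_le_mul_of_nonneg_right ((min_le_right _ _).trans (min_le_left _ _)) hmp.le)).trans
      (mul_le_mul_of_nonneg_left hmp' hκ2.le)
  have k3 : δ ≤ κ3 * m ^ (-(1 : ℝ) / 3) :=
    hδκ.trans (mul_le_mul_of_nonneg_right ((min_le_right _ _).trans (min_le_right _ _)) hmp.le)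
  have c1 : (((R : ℤ) : ℝ) - ((i : ℤ) : ℝ)) = m := by rw [hmdef]; push_cast; ring
  have c2 : ((((R : ℤ) - 1 : ℤ) : ℝ) - ((i : ℤ) : ℝ)) = m - 1 := by rw [hmdef]; push_cast; ring
  have A1 := H1 Ω P E hE 0 (i : ℤ) (R : ℤ) (by omega) (by omega) (1 / 2 - δ)
    (by rw [hα, c1]; exact k1) (θ / 3) (by positivity)
  have A2 := H2 Ω P E hE ((n : ℤ) + 1) (i : ℤ) ((R : ℤ) - 1) (by omega) (by omega) (1 / 2 - δ)
    (by rw [hα, c2]; exact k2) (θ / 3) (by positivity)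
  have A3 := H3 Ω P E hE (i : ℤ) (R : ℤ) (by omega) (1 / 2 - δ)
    (by rw [hα, c1]; exact k3) (θ / 3) (by positivity)
  rw [c1] at A1 A3
  rw [c2] at A2
  rw [sub_add_cancel] at A2
  have hsub : {ω | 4 * m + θ * m ^ ((1 : ℝ) / 3) ≤ jUps n i R δ (jMap n i R δ E ω)} ⊆
      {ω | 4 * m + θ / 3 * m ^ ((1 : ℝ) / 3)
      ≤ L Hs (wgt (cMinus 0 (1 - (1 / 2 - δ)) (1 / 2 - δ)) E ω) (0, 0) ((R : ℤ), (R : ℤ))
        - L Hs (wgt (cMinus 0 (1 - (1 / 2 - δ)) (1 / 2 - δ)) E ω) (0, 0) ((i : ℤ), (i : ℤ))} ∪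
      ({ω | 4 * (m - 1) + θ / 3 * (m - 1) ^ ((1 : ℝ) / 3)
      ≤ L Hs (wgt (cPlus ((n : ℤ) + 1) (1 - (1 / 2 - δ)) (1 / 2 - δ)) E ω) ((i : ℤ) + 1, (i : ℤ) + 1)
          ((n : ℤ) + 1, (n : ℤ) + 1)
        - L Hs (wgt (cPlus ((n : ℤ) + 1) (1 - (1 / 2 - δ)) (1 / 2 - δ)) E ω) ((R : ℤ), (R : ℤ))
          ((n : ℤ) + 1, (n : ℤ) + 1)} ∪
      {ω | X (wgt (cH (1 / 2 - δ)) E ω) i R ≤ 4 * m - θ / 3 * m ^ ((1 : ℝ) / 3)}) := by
    intro ω hω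
    have e := jUps_eq (n := n) (i := i) (R := R) (δ := δ) E ω hi hR hm
    simp only at e
    have hω' : 4 * m + θ * m ^ ((1 : ℝ) / 3) ≤ jUps n i R δ (jMap n i R δ E ω) := hω
    unfold jMap at hω'
    rw [e] at hω'
    unfold jA jB at hω'
    rw [jt_minus E ω n δ (by omega : (R : ℤ) ≤ n), jt_minus E ω n δ (by omega : (i : ℤ) ≤ n),
      jt_plus E ω n δ (by omega : 1 ≤ (i : ℤ) + 1), jt_plus E ω n δ (by omega : 1 ≤ (R : ℤ)),
      jt_X E ω n δ (by omega : 0 ≤ (i : ℤ)) (by omega : (R : ℤ) ≤ n)] at hω'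
    by_contra hcon
    simp only [Set.mem_union, Set.mem_ofPred_eq, not_or, not_le] at hcon
    obtain ⟨n1, n2, n3⟩ := hcon
    have h4 : θ / 3 * (m - 1) ^ ((1 : ℝ) / 3) ≤ θ / 3 * m ^ ((1 : ℝ) / 3) :=
      mul_le_mul_of_nonneg_left hmq (by positivity)
    linarith
  have B1 : Real.exp (-(θ / 3) / C1) ≤ Real.exp (-θ / (3 * (C1 + C2 + C3))) := by
    rw [show -(θ / 3) / C1 = -θ / (3 * C1) by field_simp]
    exact jt_exp (by positivity) (by linarith) hθ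
  have B2 : Real.exp (-(θ / 3) / C2) ≤ Real.exp (-θ / (3 * (C1 + C2 + C3))) := by
    rw [show -(θ / 3) / C2 = -θ / (3 * C2) by field_simp]
    exact jt_exp (by positivity) (by linarith) hθ
  have B3 : Real.exp (-(θ / 3) / C3) ≤ Real.exp (-θ / (3 * (C1 + C2 + C3))) := by
    rw [show -(θ / 3) / C3 = -θ / (3 * C3) by field_simp]
    exact jt_exp (by positivity) (by linarith) hθ
  have hE0 := Real.exp_pos (-θ / (3 * (C1 + C2 + C3)))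
  calc P.real {ω | 4 * m + θ * m ^ ((1 : ℝ) / 3) ≤ jUps n i R δ (jMap n i R δ E ω)}
      ≤ C1 * Real.exp (-(θ / 3) / C1) + (C2 * Real.exp (-(θ / 3) / C2) +
        C3 * Real.exp (-(θ / 3) / C3)) := by
        refine (measureReal_mono hsub).trans ((measureReal_union_le _ _).trans (add_le_add A1
          ((measureReal_union_le _ _).trans (add_le_add A2 A3))))
    _ ≤ C1 * Real.exp (-θ / (3 * (C1 + C2 + C3))) + (C2 * Real.exp (-θ / (3 * (C1 + C2 + C3))) +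
        C3 * Real.exp (-θ / (3 * (C1 + C2 + C3)))) := by gcongr
    _ ≤ 3 * (C1 + C2 + C3) * Real.exp (-θ / (3 * (C1 + C2 + C3))) := by nlinarith

lemma jt_T {Ω : Type} (E : ℤ × ℤ → Ω → ℝ) (ω : Ω) {n i k x : ℕ} (δ : ℝ) (hk : 1 ≤ k)
    (hx : 1 ≤ x) (hn : i + 1 + k + (x + 1) ≤ n) (hE : ∀ z, 0 ≤ E z ω) :
    L St (fun z => E (z + ((i : ℤ), (i : ℤ))) ω) ((x : ℤ) + 1, 1) ((x : ℤ) + k, (k : ℤ)) ≤
      jT n i (i + 1 + k) δ (x + 1) (jMap n i (i + 1 + k) δ E ω).2 := by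
  have e0 : jT n i (i + 1 + k) δ (x + 1) (jMap n i (i + 1 + k) δ E ω).2 =
      L St (wgt (cPhi n δ (1 / 2 - δ)) E ω) ((i : ℤ) + (x + 1 : ℕ), (i : ℤ) + 1)
        (((i + 1 + k : ℕ) : ℤ) + (x + 1 : ℕ), ((i + 1 + k : ℕ) : ℤ) - 1) :=
    jb_slab_congr E ω St (by simp only; omega) (by simp only; omega) le_rfl le_rfl
  have e1 : L St (wgt (cPhi n δ (1 / 2 - δ)) E ω) ((i : ℤ) + (x + 1 : ℕ), (i : ℤ) + 1)
        (((i + 1 + k : ℕ) : ℤ) + (x + 1 : ℕ), ((i + 1 + k : ℕ) : ℤ) - 1) =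
      L St (fun z => wgt (cPhi n δ (1 / 2 - δ)) E ω (z + ((i : ℤ), (i : ℤ)))) ((x : ℤ) + 1, 1)
        ((x : ℤ) + k + 2, (k : ℤ)) := by
    have := L_shift St (wgt (cPhi n δ (1 / 2 - δ)) E ω) ((i : ℤ), (i : ℤ)) ((x : ℤ) + 1, 1)
        ((x : ℤ) + k + 2, (k : ℤ))
    rw [shift_St] at this
    rw [← this]
    congr 1
    · ext
      · simp only [Prod.fst_add]; push_cast; ring
      · simp only [Prod.snd_add]; ring
    · ext
      · simp only [Prod.fst_add]; push_cast; ring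
      · simp only [Prod.snd_add]; push_cast; ring
  have e2 : L St (fun z => wgt (cPhi n δ (1 / 2 - δ)) E ω (z + ((i : ℤ), (i : ℤ)))) ((x : ℤ) + 1, 1)
        ((x : ℤ) + k + 2, (k : ℤ)) =
      L St (fun z => E (z + ((i : ℤ), (i : ℤ))) ω) ((x : ℤ) + 1, 1) ((x : ℤ) + k + 2, (k : ℤ)) := by
    refine L_congr fun z hz hzD => ?_
    have h1 := mem_rect.1 hz
    simp only at h1
    have h2 : z.2 < z.1 := hzD
    have e1 : (z + ((i : ℤ), (i : ℤ))).2 ≠ 0 := by simp only [Prod.snd_add]; omega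
    have e1' : (z + ((i : ℤ), (i : ℤ))).1 ≠ (n : ℤ) + 1 := by simp only [Prod.fst_add]; omega
    have e2 : z + ((i : ℤ), (i : ℤ)) ≠ ((n : ℤ) + 1, 0) := fun h => e1 (by rw [h])
    have e3 : z + ((i : ℤ), (i : ℤ)) ≠ (0, 0) := fun h => e1 (by rw [h])
    have e4 : z + ((i : ℤ), (i : ℤ)) ≠ ((n : ℤ) + 1, (n : ℤ) + 1) := fun h => e1' (by rw [h])
    have e5 : (z + ((i : ℤ), (i : ℤ))).1 ≠ (z + ((i : ℤ), (i : ℤ))).2 := by
      simp only [Prod.fst_add, Prod.snd_add]; omega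
    simp only [wgt, cPhi, e1, e1', e2, e3, e4, e5, or_self, if_false, one_mul]
  rw [e0, e1, e2]
  refine L_mono_ends RD_St ?_ ?_ ?_ ?_ le_rfl le_rfl ?_ le_rfl ?_ ?_ fun z _ _ => hE _
  · simp only [St, Set.mem_ofPred_eq]; omega
  · simp only [St, Set.mem_ofPred_eq]; omega
  · simp only [St, Set.mem_ofPred_eq]; omega
  · simp only [St, Set.mem_ofPred_eq]; omega
  · simp only; omega
  · simp only; omega
  · simp only; omega

theorem t_JTTail (h : FarPairs) : JTTail := by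
  obtain ⟨C, hC, H⟩ := h
  obtain ⟨C', hC'⟩ : ∃ C' : ℝ, C' = 2 * C + C * Real.exp (4 / C) + 5 := ⟨_, rfl⟩
  have hCe : 0 < C * Real.exp (4 / C) := by positivity
  have hC'0 : 0 < C' := by rw [hC']; positivity
  refine ⟨C', hC'0, ?_⟩
  intro Ω _ P E hE n i R x hi hx hR δ hδ θ hθ
  have := hE.prob
  obtain ⟨k, rfl⟩ : ∃ k, R = i + 1 + k := ⟨R - (i + 1), by omega⟩
  obtain ⟨y, rfl⟩ : ∃ y, x = y + 1 := ⟨x - 1, by omega⟩
  have hk : 1 ≤ k := by omega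
  have hy : 1 ≤ y := by omega
  have hk1 : (1 : ℝ) ≤ k := by exact_mod_cast hk
  have hy1 : (1 : ℝ) ≤ y := by exact_mod_cast hy
  have hm : (((i + 1 + k : ℕ) : ℝ) - i) = k + 1 := by push_cast; ring
  rw [hm]
  by_cases hθ4 : θ < 4
  · have h1 : 1 ≤ C' * Real.exp (-θ / C') := by
      have h2 := Real.add_one_le_exp (-θ / C')
      have h3 : C' * (-θ / C' + 1) ≤ C' * Real.exp (-θ / C') :=
        mul_le_mul_of_nonneg_left h2 hC'0.le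
      have h4 : C' * (-θ / C' + 1) = C' - θ := by field_simp; ring
      have h5 : 5 ≤ C' := by rw [hC']; linarith
      linarith
    have h2 : 0 < C' * Real.exp (-(((y + 1 : ℕ) : ℝ) * ((k : ℝ) + 1) ^ (-(2 : ℝ) / 3)) / C') := by
      positivity
    have h3 := measureReal_le_one (μ := P) (s := {ω | jT n i (i + 1 + k) δ (y + 1)
      (jMap n i (i + 1 + k) δ E ω).2 ≤ 4 * ((k : ℝ) + 1) - θ * ((k : ℝ) + 1) ^ ((1 : ℝ) / 3)})
    refine h3.trans ?_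
    rw [mul_add]
    linarith
  · have hθ4' : 4 ≤ θ := not_lt.1 hθ4
    have hE' : Env P (fun z => E (z + ((i : ℤ), (i : ℤ)))) :=
      hE.comp (add_left_injective ((i : ℤ), (i : ℤ)))
    have A := H Ω P _ hE' k y hk hy (θ - 4) (by linarith)
    have hk3 : (1 : ℝ) ≤ (k : ℝ) ^ ((1 : ℝ) / 3) := Real.one_le_rpow hk1 (by norm_num)
    have hk4 : (k : ℝ) ^ ((1 : ℝ) / 3) ≤ ((k : ℝ) + 1) ^ ((1 : ℝ) / 3) :=
      Real.rpow_le_rpow (by linarith) (by linarith) (by norm_num)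
    have hsub : P {ω | jT n i (i + 1 + k) δ (y + 1) (jMap n i (i + 1 + k) δ E ω).2 ≤
        4 * ((k : ℝ) + 1) - θ * ((k : ℝ) + 1) ^ ((1 : ℝ) / 3)} ≤
        P {ω | L St (fun z => E (z + ((i : ℤ), (i : ℤ))) ω) ((y : ℤ) + 1, 1)
          ((y : ℤ) + k, (k : ℤ)) ≤ 4 * (k : ℝ) - (θ - 4) * (k : ℝ) ^ ((1 : ℝ) / 3)} := by
      refine measure_mono_ae ?_
      filter_upwards [hE.nonneg] with ω hω hω1
      have h1 := jt_T E ω (n := n) (i := i) (k := k) (x := y) δ hk hy (by omega) hω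
      have h2 : jT n i (i + 1 + k) δ (y + 1) (jMap n i (i + 1 + k) δ E ω).2 ≤
        4 * ((k : ℝ) + 1) - θ * ((k : ℝ) + 1) ^ ((1 : ℝ) / 3) := hω1
      show L St (fun z => E (z + ((i : ℤ), (i : ℤ))) ω) ((y : ℤ) + 1, 1)
          ((y : ℤ) + k, (k : ℤ)) ≤ 4 * (k : ℝ) - (θ - 4) * (k : ℝ) ^ ((1 : ℝ) / 3)
      have h3 : θ * (k : ℝ) ^ ((1 : ℝ) / 3) ≤ θ * ((k : ℝ) + 1) ^ ((1 : ℝ) / 3) :=
        mul_le_mul_of_nonneg_left hk4 hθ
      linarith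
    have hsub' := ENNReal.toReal_mono (measure_ne_top _ _) hsub
    refine (hsub'.trans A).trans ?_
    have B1 : C * Real.exp (-(θ - 4) / C) ≤ C' * Real.exp (-θ / C') := by
      have e1 : Real.exp (-(θ - 4) / C) = Real.exp (4 / C) * Real.exp (-θ / C) := by
        rw [← Real.exp_add]; congr 1; ring
      rw [e1, ← mul_assoc]
      have h1 : Real.exp (-θ / C) ≤ Real.exp (-θ / C') := jt_exp hC (by rw [hC']; linarith) hθ
      exact mul_le_mul (by rw [hC']; linarith) h1 (Real.exp_pos _).le hC'0.le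
    have B2 : C * Real.exp (-((y : ℝ) * (k : ℝ) ^ (-(2 : ℝ) / 3)) / C) ≤
        C' * Real.exp (-(((y + 1 : ℕ) : ℝ) * ((k : ℝ) + 1) ^ (-(2 : ℝ) / 3)) / C') := by
      have h1 : ((k : ℝ) + 1) ^ (-(2 : ℝ) / 3) ≤ (k : ℝ) ^ (-(2 : ℝ) / 3) :=
        Real.rpow_le_rpow_of_nonpos (by linarith) (by linarith) (by norm_num)
      have h0 : 0 < ((k : ℝ) + 1) ^ (-(2 : ℝ) / 3) := Real.rpow_pos_of_pos (by linarith) _
      have h2 : ((y + 1 : ℕ) : ℝ) * ((k : ℝ) + 1) ^ (-(2 : ℝ) / 3) ≤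
          2 * ((y : ℝ) * (k : ℝ) ^ (-(2 : ℝ) / 3)) := by
        push_cast
        have h3 : ((y : ℝ) + 1) * ((k : ℝ) + 1) ^ (-(2 : ℝ) / 3) ≤
            (2 * y) * (k : ℝ) ^ (-(2 : ℝ) / 3) :=
          mul_le_mul (by linarith) h1 h0.le (by positivity)
        linarith
      refine mul_le_mul (by rw [hC']; linarith) ?_ (Real.exp_pos _).le hC'0.le
      have h4 : ((y + 1 : ℕ) : ℝ) * ((k : ℝ) + 1) ^ (-(2 : ℝ) / 3) / C' ≤
          (y : ℝ) * (k : ℝ) ^ (-(2 : ℝ) / 3) / C := by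
        calc ((y + 1 : ℕ) : ℝ) * ((k : ℝ) + 1) ^ (-(2 : ℝ) / 3) / C'
            ≤ 2 * ((y : ℝ) * (k : ℝ) ^ (-(2 : ℝ) / 3)) / (2 * C) :=
              div_le_div₀ (by positivity) h2 (by positivity) (by rw [hC']; linarith)
          _ = (y : ℝ) * (k : ℝ) ^ (-(2 : ℝ) / 3) / C := by field_simp
      have e1 : -((y : ℝ) * (k : ℝ) ^ (-(2 : ℝ) / 3)) / C =
        -((y : ℝ) * (k : ℝ) ^ (-(2 : ℝ) / 3) / C) := neg_div _ _
      have e2 : -(((y + 1 : ℕ) : ℝ) * ((k : ℝ) + 1) ^ (-(2 : ℝ) / 3)) / C' =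
        -(((y + 1 : ℕ) : ℝ) * ((k : ℝ) + 1) ^ (-(2 : ℝ) / 3) / C') := neg_div _ _
      refine Real.exp_le_exp.2 ?_
      rw [e1, e2]
      exact neg_le_neg h4
    rw [mul_add, mul_add]
    exact add_le_add B1 B2

end Pool.Agent.H374
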