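import Pool.Agent.H374.Asm
import Pool.Agent.H374.JBtail

/-!
# The uniform statement, without hypotheses
-/

set_option autoImplicit false

namespace Pool.Agent.H374

theorem a_AllPairs : AllPairs :=
  a_AllPairs' (t_JUpsTail a_DiagMinus a_DiagPlus a_LowerTail) (t_JTTail a_FarPairs)

end Pool.Agent.H374
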