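import Pool.Agent.H374.Stmts

/-!
# Harris inequality for products, marginals of products (helper146)
-/

set_option autoImplicit false
open MeasureTheory ProbabilityTheory Filter Topology

namespace Pool.Agent.H374

/-- Marginals of a product of equal probability measures. -/
theorem jabs_pi_comp {k n : ℕ} (φ : Fin k → Fin n) (hφ : Function.Injective φ) (ν : Measure ℝ)
    [IsProbabilityMeasure ν] :
    Measure.map (fun (x : Fin n → ℝ) (i : Fin k) => x (φ i)) (Measure.pi fun _ => ν) =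
      Measure.pi fun _ => ν := by
  have h1 : iIndepFun (fun (i : Fin n) (x : Fin n → ℝ) => x i) (Measure.pi fun _ => ν) := by
    have := iIndepFun_pi (μ := fun _ : Fin n => ν) (X := fun _ x => x)
      (fun i => aemeasurable_id)
    exact this
  have h2 := h1.precomp hφ
  have h3 := h2.map_fun_eq_pi_map (fun i => (measurable_pi_apply (φ i)).aemeasurable)
  have h4 : ∀ i : Fin n, Measure.map (fun x : Fin n → ℝ => x i) (Measure.pi fun _ => ν) = ν :=
    fun i => (measurePreserving_eval (fun _ : Fin n => ν) i).map_eq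
  simp only [h4] at h3
  exact h3

/-- Negative correlation of functions which are monotone for `r` and antitone for `r'`. -/
def JabsHR {α : Type} [MeasurableSpace α] (μ : Measure α) (r r' : α → α → Prop) : Prop :=
  ∀ f g : α → ℝ, Measurable f → Measurable g → (∀ x, 0 ≤ f x ∧ f x ≤ 1) →
    (∀ x, 0 ≤ g x ∧ g x ≤ 1) → (∀ x y, r x y → f x ≤ f y) → (∀ x y, r' x y → g y ≤ g x) →
    ∫ x, f x * g x ∂μ ≤ (∫ x, f x ∂μ) * ∫ x, g x ∂μ

theorem jabs_int {α : Type} [MeasurableSpace α] {μ : Measure α} [IsProbabilityMeasure μ]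
    {f : α → ℝ} (hf : Measurable f) (h : ∀ x, 0 ≤ f x ∧ f x ≤ 1) : Integrable f μ :=
  Integrable.mono' (integrable_const (1 : ℝ)) hf.aestronglyMeasurable
    (Eventually.of_forall fun x => by
      rw [Real.norm_eq_abs, abs_of_nonneg (h x).1]; exact (h x).2)

theorem jabs_int_mem {α : Type} [MeasurableSpace α] {μ : Measure α} [IsProbabilityMeasure μ]
    {f : α → ℝ} (hf : Measurable f) (h : ∀ x, 0 ≤ f x ∧ f x ≤ 1) :
    0 ≤ ∫ x, f x ∂μ ∧ ∫ x, f x ∂μ ≤ 1 := by
  refine ⟨integral_nonneg fun x => (h x).1, ?_⟩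
  calc ∫ x, f x ∂μ ≤ ∫ _, (1 : ℝ) ∂μ := integral_mono (jabs_int hf h) (integrable_const _)
        fun x => (h x).2
    _ = 1 := by simp

theorem jabs_mul_mem {α : Type} {f g : α → ℝ} (hf : ∀ x, 0 ≤ f x ∧ f x ≤ 1)
    (hg : ∀ x, 0 ≤ g x ∧ g x ≤ 1) : ∀ x, 0 ≤ f x * g x ∧ f x * g x ≤ 1 := fun x =>
  ⟨mul_nonneg (hf x).1 (hg x).1, mul_le_one₀ (hf x).2 (hg x).1 (hg x).2⟩

/-- Chebyshev's inequality on a totally ordered space. -/
theorem JabsHR.total {α : Type} [MeasurableSpace α] (μ : Measure α) [IsProbabilityMeasure μ]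
    (r r' : α → α → Prop) (h : ∀ x y, (r x y ∧ r' x y) ∨ (r y x ∧ r' y x)) : JabsHR μ r r' := by
  intro f g hf hg hf1 hg1 hr hr'
  have hI : ∀ {k : α × α → ℝ}, Measurable k → (∀ x, 0 ≤ k x ∧ k x ≤ 1) →
      Integrable k (μ.prod μ) := fun hk h => jabs_int hk h
  have hff : Measurable fun p : α × α => f p.1 * g p.1 := by fun_prop
  have hgg : Measurable fun p : α × α => f p.2 * g p.2 := by fun_prop
  have hfg : Measurable fun p : α × α => f p.1 * g p.2 := by fun_prop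
  have hgf : Measurable fun p : α × α => f p.2 * g p.1 := by fun_prop
  have i1 := hI hff fun p => jabs_mul_mem hf1 hg1 p.1
  have i2 := hI hgg fun p => jabs_mul_mem hf1 hg1 p.2
  have i3 : Integrable (fun p : α × α => f p.1 * g p.2) (μ.prod μ) := hI hfg fun p =>
    ⟨mul_nonneg (hf1 _).1 (hg1 _).1, mul_le_one₀ (hf1 _).2 (hg1 _).1 (hg1 _).2⟩
  have i4 : Integrable (fun p : α × α => f p.2 * g p.1) (μ.prod μ) := hI hgf fun p =>
    ⟨mul_nonneg (hf1 _).1 (hg1 _).1, mul_le_one₀ (hf1 _).2 (hg1 _).1 (hg1 _).2⟩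
  have key : 0 ≤ ∫ p : α × α, ((f p.1 * g p.2 + f p.2 * g p.1) - (f p.1 * g p.1 + f p.2 * g p.2))
      ∂(μ.prod μ) := by
    refine integral_nonneg fun p => ?_
    have h1 : (f p.1 * g p.2 + f p.2 * g p.1) - (f p.1 * g p.1 + f p.2 * g p.2) =
        (f p.1 - f p.2) * (g p.2 - g p.1) := by ring
    rw [Pi.zero_apply, h1]
    rcases h p.1 p.2 with ⟨h2, h3⟩ | ⟨h2, h3⟩
    · exact mul_nonneg_of_nonpos_of_nonpos (sub_nonpos.2 (hr _ _ h2)) (sub_nonpos.2 (hr' _ _ h3))
    · exact mul_nonneg (sub_nonneg.2 (hr _ _ h2)) (sub_nonneg.2 (hr' _ _ h3))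
  have i34 : Integrable (fun p : α × α => f p.1 * g p.2 + f p.2 * g p.1) (μ.prod μ) := i3.add i4
  have i12 : Integrable (fun p : α × α => f p.1 * g p.1 + f p.2 * g p.2) (μ.prod μ) := i1.add i2
  rw [integral_sub i34 i12, integral_add i3 i4, integral_add i1 i2] at key
  have e3 : ∫ p : α × α, f p.1 * g p.2 ∂(μ.prod μ) = (∫ x, f x ∂μ) * ∫ x, g x ∂μ :=
    integral_prod_mul f g
  have e4 : ∫ p : α × α, f p.2 * g p.1 ∂(μ.prod μ) = (∫ x, f x ∂μ) * ∫ x, g x ∂μ := by
    have := integral_prod_mul (μ := μ) (ν := μ) g f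
    rw [mul_comm (∫ x, f x ∂μ), ← this]
    refine integral_congr_ae (Eventually.of_forall fun p => ?_)
    exact mul_comm _ _
  have e1 : ∫ p : α × α, f p.1 * g p.1 ∂(μ.prod μ) = ∫ x, f x * g x ∂μ := by
    have := integral_prod_mul (μ := μ) (ν := μ) (fun x => f x * g x) (fun _ => (1 : ℝ))
    simpa using this
  have e2 : ∫ p : α × α, f p.2 * g p.2 ∂(μ.prod μ) = ∫ x, f x * g x ∂μ := by
    have := integral_prod_mul (μ := μ) (ν := μ) (fun _ => (1 : ℝ)) (fun x => f x * g x)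
    simpa using this
  rw [e1, e2, e3, e4] at key
  linarith

/-- A space on which `g` is constant. -/
theorem JabsHR.const {α : Type} [MeasurableSpace α] (μ : Measure α) [IsProbabilityMeasure μ]
    (r r' : α → α → Prop) (h : ∀ x y, r' x y) : JabsHR μ r r' := by
  intro f g hf hg hf1 hg1 hr hr'
  have : Nonempty α := nonempty_of_isProbabilityMeasure μ
  obtain ⟨x0⟩ := this
  have hg0 : ∀ x, g x = g x0 := fun x => le_antisymm (hr' _ _ (h _ _)) (hr' _ _ (h _ _))
  simp only [hg0]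
  rw [integral_mul_const]
  simp

theorem JabsHR.prod {α β : Type} [MeasurableSpace α] [MeasurableSpace β] {μ : Measure α}
    {ν : Measure β} [IsProbabilityMeasure μ] [IsProbabilityMeasure ν] {r r' : α → α → Prop}
    {s s' : β → β → Prop} (hμ : JabsHR μ r r') (hν : JabsHR ν s s') (h1 : ∀ x, r x x)
    (h2 : ∀ x, r' x x) (h3 : ∀ x, s x x) (h4 : ∀ x, s' x x) :
    JabsHR (μ.prod ν) (fun p q => r p.1 q.1 ∧ s p.2 q.2) (fun p q => r' p.1 q.1 ∧ s' p.2 q.2) := by
  intro f g hf hg hf1 hg1 hr hr'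
  have hfx : ∀ x, Measurable fun y => f (x, y) := fun x => hf.comp measurable_prodMk_left
  have hgx : ∀ x, Measurable fun y => g (x, y) := fun x => hg.comp measurable_prodMk_left
  have hF : Measurable fun x => ∫ y, f (x, y) ∂ν :=
    (hf.stronglyMeasurable.integral_prod_right').measurable
  have hG : Measurable fun x => ∫ y, g (x, y) ∂ν :=
    (hg.stronglyMeasurable.integral_prod_right').measurable
  have i1 : Integrable f (μ.prod ν) := jabs_int hf hf1
  have i2 : Integrable g (μ.prod ν) := jabs_int hg hg1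
  have i3 : Integrable (fun p => f p * g p) (μ.prod ν) :=
    jabs_int (hf.mul hg) (jabs_mul_mem hf1 hg1)
  rw [integral_prod _ i3, integral_prod _ i1, integral_prod _ i2]
  have hF1 : ∀ x, 0 ≤ ∫ y, f (x, y) ∂ν ∧ ∫ y, f (x, y) ∂ν ≤ 1 := fun x =>
    jabs_int_mem (hfx x) fun y => hf1 _
  have hG1 : ∀ x, 0 ≤ ∫ y, g (x, y) ∂ν ∧ ∫ y, g (x, y) ∂ν ≤ 1 := fun x =>
    jabs_int_mem (hgx x) fun y => hg1 _
  calc ∫ x, ∫ y, f (x, y) * g (x, y) ∂ν ∂μ
      ≤ ∫ x, (∫ y, f (x, y) ∂ν) * ∫ y, g (x, y) ∂ν ∂μ := by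
        refine integral_mono i3.integral_prod_left
          (jabs_int (hF.mul hG) (jabs_mul_mem hF1 hG1)) fun x => ?_
        exact hν _ _ (hfx x) (hgx x) (fun y => hf1 _) (fun y => hg1 _)
          (fun y y' h => hr _ _ ⟨h1 x, h⟩) (fun y y' h => hr' _ _ ⟨h2 x, h⟩)
    _ ≤ (∫ x, ∫ y, f (x, y) ∂ν ∂μ) * ∫ x, ∫ y, g (x, y) ∂ν ∂μ := by
        refine hμ _ _ hF hG hF1 hG1 (fun x x' h => ?_) (fun x x' h => ?_)
        · exact integral_mono (jabs_int (hfx x) fun y => hf1 _) (jabs_int (hfx x') fun y => hf1 _)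
            fun y => hr _ _ ⟨h, h3 y⟩
        · exact integral_mono (jabs_int (hgx x') fun y => hg1 _) (jabs_int (hgx x) fun y => hg1 _)
            fun y => hr' _ _ ⟨h, h4 y⟩

theorem JabsHR.map {α β : Type} [MeasurableSpace α] [MeasurableSpace β] {μ : Measure α}
    {ν : Measure β} {r r' : α → α → Prop} {s s' : β → β → Prop} (hμ : JabsHR μ r r')
    (e : α → β) (he : MeasurePreserving e μ ν) (h1 : ∀ x y, r x y → s (e x) (e y))
    (h2 : ∀ x y, r' x y → s' (e x) (e y)) : JabsHR ν s s' := by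
  intro f g hf hg hf1 hg1 hr hr'
  have key : ∀ k : β → ℝ, Measurable k → ∫ y, k y ∂ν = ∫ x, k (e x) ∂μ := by
    intro k hk
    rw [← he.map_eq, integral_map he.measurable.aemeasurable hk.aestronglyMeasurable]
  rw [key (fun y => f y * g y) (hf.mul hg), key _ hf, key _ hg]
  exact hμ _ _ (hf.comp he.measurable) (hg.comp he.measurable) (fun x => hf1 _) (fun x => hg1 _)
    (fun x y h => hr _ _ (h1 _ _ h)) (fun x y h => hr' _ _ (h2 _ _ h))

theorem JabsHR.pi (n : ℕ) (ν : Measure ℝ) [IsProbabilityMeasure ν] (r r' : Fin n → ℝ → ℝ → Prop)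
    (h : ∀ i, JabsHR ν (r i) (r' i)) (hr : ∀ i x, r i x x) (hr' : ∀ i x, r' i x x) :
    JabsHR (Measure.pi fun _ : Fin n => ν) (fun x y => ∀ i, r i (x i) (y i))
      (fun x y => ∀ i, r' i (x i) (y i)) := by
  induction n with
  | zero =>
    refine JabsHR.total _ _ _ fun x y => Or.inl ⟨fun i => i.elim0, fun i => i.elim0⟩
  | succ n ih =>
    have h1 := ih (fun i => r i.succ) (fun i => r' i.succ) (fun i => h _) (fun i => hr _)
      (fun i => hr' _)
    have h2 := (h 0).prod h1 (hr 0) (hr' 0) (fun x i => hr _ _) (fun x i => hr' _ _)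
    refine h2.map (MeasurableEquiv.piFinSuccAbove (fun _ => ℝ) 0).symm
      ((measurePreserving_piFinSuccAbove (fun _ : Fin (n + 1) => ν) 0).symm _) ?_ ?_
    · rintro ⟨x, x'⟩ ⟨y, y'⟩ ⟨h3, h4⟩ i
      refine Fin.cases ?_ (fun j => ?_) i
      · simpa using h3
      · simpa using h4 j
    · rintro ⟨x, x'⟩ ⟨y, y'⟩ ⟨h3, h4⟩ i
      refine Fin.cases ?_ (fun j => ?_) i
      · simpa using h3
      · simpa using h4 j

end Pool.Agent.H374
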