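import Pool.Agent.H374.JAbsA

/-!
# The walk in the abstract block lemma (helper146)
-/

set_option autoImplicit false
open MeasureTheory ProbabilityTheory Filter Topology

namespace Pool.Agent.H374

/-- extension by zero of a finite family -/
noncomputable def jabsXv {n : ℕ} (x : Fin n → ℝ) (i : ℕ) : ℝ := if h : i < n then x ⟨i, h⟩ else 0

theorem jabs_xv_meas {n : ℕ} (i : ℕ) : Measurable fun x : Fin n → ℝ => jabsXv x i := by
  unfold jabsXv
  split_ifs with h
  · exact measurable_pi_apply _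
  · exact measurable_const

/-- the walk -/
noncomputable def jabsS {n : ℕ} (x : ℕ) (p : (Fin n → ℝ) × (Fin n → ℝ)) : ℝ :=
  ∑ i ∈ Finset.range x, (jabsXv p.1 i - jabsXv p.2 i)

theorem jabs_S_meas {n : ℕ} (x : ℕ) : Measurable (jabsS (n := n) x) := by
  unfold jabsS
  refine Finset.measurable_sum _ fun i _ => ?_
  exact ((jabs_xv_meas i).comp measurable_fst).sub ((jabs_xv_meas i).comp measurable_snd)

theorem jabs_S_filter {n : ℕ} (x : ℕ) (hx : x ≤ n) (p : (Fin n → ℝ) × (Fin n → ℝ)) :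
    ∑ i ∈ Finset.univ.filter (fun i : Fin n => (i : ℕ) < x), (p.1 i - p.2 i) = jabsS x p := by
  rw [Finset.sum_filter]
  have h1 : ∀ i : Fin n, (if (i : ℕ) < x then p.1 i - p.2 i else 0) =
      (fun j : ℕ => if j < x then jabsXv p.1 j - jabsXv p.2 j else 0) (i : ℕ) := by
    intro i
    simp only [jabsXv, i.2, dif_pos]
  rw [Finset.sum_congr rfl fun i _ => h1 i, Fin.sum_univ_eq_sum_range
    (fun j : ℕ => if j < x then jabsXv p.1 j - jabsXv p.2 j else 0) n, ← Finset.sum_filter]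
  unfold jabsS
  refine Finset.sum_congr ?_ fun _ _ => rfl
  ext j
  simp only [Finset.mem_filter, Finset.mem_range]
  omega

theorem jabs_S_add {n : ℕ} (x z : ℕ) (p : (Fin n → ℝ) × (Fin n → ℝ)) :
    jabsS (x + z) p = jabsS x p + ∑ i ∈ Finset.range z, (jabsXv p.1 (x + i) - jabsXv p.2 (x + i)) := by
  unfold jabsS
  rw [Finset.sum_range_add]

/-- the walk stays below `S X + a` after `X` -/
def jabsEM {n : ℕ} (X : ℕ) (a : ℝ) : Set ((Fin n → ℝ) × (Fin n → ℝ)) :=
  {p | ∀ x, X ≤ x → x ≤ n → jabsS x p - jabsS X p ≤ a}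

theorem jabs_EM_meas {n : ℕ} (X : ℕ) (a : ℝ) : MeasurableSet (jabsEM (n := n) X a) := by
  unfold jabsEM
  simp only [Set.ofPred_forall]
  refine MeasurableSet.iInter fun x => MeasurableSet.iInter fun _ => MeasurableSet.iInter fun _ => ?_
  exact measurableSet_le ((jabs_S_meas x).sub (jabs_S_meas X)) measurable_const

theorem jabs_EM_mono {n : ℕ} (X : ℕ) {a b : ℝ} (h : a ≤ b) : jabsEM (n := n) X a ⊆ jabsEM X b :=
  fun _ hp x h1 h2 => (hp x h1 h2).trans h

theorem jabs_EM_real {n X : ℕ} (hX : X ≤ n) {a b C : ℝ}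
    [IsProbabilityMeasure (expMeasure a)] [IsProbabilityMeasure (expMeasure b)] {x : ℝ}
    (hs : ∀ (Ω : Type) [MeasurableSpace Ω] (P : Measure Ω) [IsProbabilityMeasure P]
      (ξ η : ℕ → Ω → ℝ), IIDPair P (n - X) ξ η a b →
      P.real {ω | ∀ z ≤ n - X, ∑ i ∈ Finset.range z, (ξ i ω - η i ω) ≤ x} ≤ C) :
    ((Measure.pi fun _ : Fin n => expMeasure a).prod
      (Measure.pi fun _ : Fin n => expMeasure b)).real (jabsEM X x) ≤ C := by
  have hφ : Function.Injective (fun i : Fin (n - X) => (⟨X + i, by omega⟩ : Fin n)) := by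
    intro i j h
    simp only [Fin.mk.injEq] at h
    exact Fin.ext (by omega)
  have m1 : ∀ i, Measurable fun ω : (Fin n → ℝ) × (Fin n → ℝ) => jabsXv ω.1 (X + i) := fun i =>
    (jabs_xv_meas (X + i)).comp measurable_fst
  have m2 : ∀ i, Measurable fun ω : (Fin n → ℝ) × (Fin n → ℝ) => jabsXv ω.2 (X + i) := fun i =>
    (jabs_xv_meas (X + i)).comp measurable_snd
  refine le_trans (measureReal_mono ?_) (hs _ _ (fun i ω => jabsXv ω.1 (X + i))
    (fun i ω => jabsXv ω.2 (X + i)) ⟨fun i _ => m1 i, fun i _ => m2 i, ?_⟩)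
  · intro p hp z hz
    have := hp (X + z) (by omega) (by omega)
    rw [jabs_S_add] at this
    linarith
  · have h1 := jabs_pi_comp _ hφ (expMeasure a)
    have h2 := jabs_pi_comp _ hφ (expMeasure b)
    have h3 : ∀ (x : Fin n → ℝ) (i : Fin (n - X)), jabsXv x (X + i) = x ⟨X + i, by omega⟩ := by
      intro x i
      have : X + (i : ℕ) < n := by omega
      simp only [jabsXv, this, dif_pos]
    simp only [h3]
    have hm : Measurable (fun (x : Fin n → ℝ) (i : Fin (n - X)) => x ⟨X + i, by omega⟩) :=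
      measurable_pi_iff.2 fun i => measurable_pi_apply _
    have h4 := Measure.map_prod_map (Measure.pi fun _ : Fin n => expMeasure a)
      (Measure.pi fun _ : Fin n => expMeasure b) hm hm
    rw [h1, h2] at h4
    rw [h4]
    rfl

theorem jabs_surv (hS : RWSurv) {K0 : ℝ} (hK : 0 < K0) : ∃ C > 0, ∃ n0 : ℕ, ∀ n : ℕ, n0 ≤ n →
    ∀ n' X : ℕ, X ≤ n' → n ≤ 4 * (n' - X) → ∀ x : ℝ, 0 ≤ x →
    K0 * (n : ℝ) ^ (-(1 : ℝ) / 3) < 1 / 2 →
    ((Measure.pi fun _ : Fin n' => expMeasure (1 / 2 + K0 * (n : ℝ) ^ (-(1 : ℝ) / 3))).prod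
      (Measure.pi fun _ : Fin n' => expMeasure (1 / 2 - K0 * (n : ℝ) ^ (-(1 : ℝ) / 3)))).real
        (jabsEM X x) ≤ C * (n : ℝ) ^ (-(1 : ℝ) / 3) * (1 + x) := by
  obtain ⟨C, hC, n0, h⟩ := hS K0 hK
  refine ⟨C, hC, n0, fun n hn n' X hX hnX x hx hδ => ?_⟩
  have h0 : 0 ≤ K0 * (n : ℝ) ^ (-(1 : ℝ) / 3) := by positivity
  have := isProbabilityMeasure_expMeasure
    (show 0 < 1 / 2 + K0 * (n : ℝ) ^ (-(1 : ℝ) / 3) by linarith)
  have := isProbabilityMeasure_expMeasure
    (show 0 < 1 / 2 - K0 * (n : ℝ) ^ (-(1 : ℝ) / 3) by linarith)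
  refine jabs_EM_real hX ?_
  intro Ω _ P _ ξ η hp
  exact h n hn (n' - X) hnX Ω P ξ η hp x hx

theorem jabs_log1 {x : ℝ} (h0 : 0 ≤ x) (h1 : x ≤ 1 / 2) : (1 - x)⁻¹ ≤ Real.exp (x + x ^ 2) := by
  have h2 : 1 + (x + x ^ 2) ≤ Real.exp (x + x ^ 2) := by
    have := Real.add_one_le_exp (x + x ^ 2); linarith
  rw [inv_le_comm₀ (by linarith) (Real.exp_pos _), ← Real.exp_neg]
  have h3 := Real.quadratic_le_exp_of_nonneg (show 0 ≤ x + x ^ 2 by positivity)
  rw [Real.exp_neg, inv_le_comm₀ (Real.exp_pos _) (by linarith)]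
  refine le_trans ?_ h3
  rw [inv_le_iff_one_le_mul₀ (by linarith)]
  nlinarith [mul_nonneg h0 h0, mul_nonneg (mul_nonneg h0 h0) h0, mul_nonneg (mul_nonneg h0 h0)
    (mul_nonneg h0 h0), mul_nonneg (mul_nonneg h0 h0) (sub_nonneg.2 h1)]

theorem jabs_log2 {x : ℝ} (h0 : 0 ≤ x) : (1 + x)⁻¹ ≤ Real.exp (-x + x ^ 2) := by
  have h2 : 1 + x ≤ Real.exp x := by
    have := Real.add_one_le_exp x; linarith
  by_cases h1 : x ≤ 1
  · have h3 : 1 + (-x + x ^ 2) ≤ Real.exp (-x + x ^ 2) := by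
      have := Real.add_one_le_exp (-x + x ^ 2); linarith
    refine le_trans ?_ h3
    rw [inv_le_iff_one_le_mul₀ (by linarith)]
    nlinarith [mul_nonneg h0 h0, mul_nonneg (mul_nonneg h0 h0) h0]
  · have h3 : 1 + (-x + x ^ 2) ≤ Real.exp (-x + x ^ 2) := by
      have := Real.add_one_le_exp (-x + x ^ 2); linarith
    refine le_trans (inv_le_one_of_one_le₀ (by linarith)) (le_trans ?_ h3)
    nlinarith

theorem jabs_xv_law {n X : ℕ} (hX : X ≤ n) (a : ℝ) [IsProbabilityMeasure (expMeasure a)] :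
    Measurable (fun (x : Fin n → ℝ) (i : Fin X) => jabsXv x i) ∧
    Measure.map (fun (x : Fin n → ℝ) (i : Fin X) => jabsXv x i) (Measure.pi fun _ => expMeasure a) =
      Measure.pi fun _ => expMeasure a := by
  have hφ : Function.Injective (fun i : Fin X => (⟨i, by omega⟩ : Fin n)) := by
    intro i j h
    simp only [Fin.mk.injEq] at h
    exact Fin.ext (by omega)
  have h3 : ∀ (x : Fin n → ℝ) (i : Fin X), jabsXv x i = x ⟨i, by omega⟩ := by
    intro x i
    have : (i : ℕ) < n := by omega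
    simp only [jabsXv, this, dif_pos]
  refine ⟨measurable_pi_iff.2 fun i => jabs_xv_meas _, ?_⟩
  simp only [h3]
  exact jabs_pi_comp _ hφ (expMeasure a)

theorem jabs_iid_fst {n X : ℕ} (hX : X ≤ n) (a b : ℝ) [IsProbabilityMeasure (expMeasure a)]
    [IsProbabilityMeasure (expMeasure b)] :
    IIDExp ((Measure.pi fun _ : Fin n => expMeasure a).prod
      (Measure.pi fun _ : Fin n => expMeasure b)) X (fun i ω => jabsXv ω.1 i) a := by
  have m1 : ∀ i, Measurable fun ω : (Fin n → ℝ) × (Fin n → ℝ) => jabsXv ω.1 i := fun i =>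
    (jabs_xv_meas i).comp measurable_fst
  refine ⟨fun i _ => m1 i, ?_⟩
  obtain ⟨h1, h2⟩ := jabs_xv_law hX a
  have h4 : (fun (ω : (Fin n → ℝ) × (Fin n → ℝ)) (i : Fin X) => jabsXv ω.1 i) =
    (fun (x : Fin n → ℝ) (i : Fin X) => jabsXv x i) ∘ Prod.fst := rfl
  rw [h4, ← Measure.map_map h1 measurable_fst, measurePreserving_fst.map_eq, h2]

theorem jabs_iid_snd {n X : ℕ} (hX : X ≤ n) (a b : ℝ) [IsProbabilityMeasure (expMeasure a)]
    [IsProbabilityMeasure (expMeasure b)] :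
    IIDExp ((Measure.pi fun _ : Fin n => expMeasure a).prod
      (Measure.pi fun _ : Fin n => expMeasure b)) X (fun i ω => jabsXv ω.2 i) b := by
  have m1 : ∀ i, Measurable fun ω : (Fin n → ℝ) × (Fin n → ℝ) => jabsXv ω.2 i := fun i =>
    (jabs_xv_meas i).comp measurable_snd
  refine ⟨fun i _ => m1 i, ?_⟩
  obtain ⟨h1, h2⟩ := jabs_xv_law hX b
  have h4 : (fun (ω : (Fin n → ℝ) × (Fin n → ℝ)) (i : Fin X) => jabsXv ω.2 i) =
    (fun (x : Fin n → ℝ) (i : Fin X) => jabsXv x i) ∘ Prod.snd := rfl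
  rw [h4, ← Measure.map_map h1 measurable_snd, measurePreserving_snd.map_eq, h2]

theorem jabs_tail (hU : RWUp) (hD : RWDown) {n X : ℕ} (hX : X ≤ n) {δ u r : ℝ} (hu : 1 ≤ u)
    (h0 : 0 ≤ δ) (h1 : δ * u ≤ 1 / 288) (hr : 0 ≤ r) (hXr : (X : ℝ) ≤ 3 / 2 * (r * u ^ 2)) :
    ((Measure.pi fun _ : Fin n => expMeasure (1 / 2 + δ)).prod
      (Measure.pi fun _ : Fin n => expMeasure (1 / 2 - δ))).real {p | r * u / 2 ≤ -jabsS X p}
      ≤ 2 * Real.exp (-r / 2304) := by
  have hδ : δ ≤ 1 / 288 := by nlinarith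
  have ha : 0 < 1 / 2 + δ := by linarith
  have hb : 0 < 1 / 2 - δ := by linarith
  have := isProbabilityMeasure_expMeasure ha
  have := isProbabilityMeasure_expMeasure hb
  obtain ⟨s, hs⟩ : ∃ s : ℝ, s = 1 / (288 * u) := ⟨_, rfl⟩
  have hs0 : 0 < s := by rw [hs]; positivity
  have hsu : s * u = 1 / 288 := by rw [hs]; field_simp
  have hs1 : s ≤ 1 / 288 := by nlinarith
  have hδs : δ ≤ s := by
    have : δ * u ≤ s * u := by rw [hsu]; exact h1
    exact le_of_mul_le_mul_right this (by linarith)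
  have hθ : 0 ≤ 16 * s ^ 2 + 8 * s * δ := by positivity
  have hexp : Real.exp (-(s * (r * u / 4)) + (X : ℝ) * (16 * s ^ 2 + 8 * s * δ)) ≤
      Real.exp (-r / 2304) := by
    rw [Real.exp_le_exp]
    have e1 : s * (r * u / 4) = r / 1152 := by
      calc s * (r * u / 4) = (s * u) * r / 4 := by ring
        _ = r / 1152 := by rw [hsu]; ring
    have e2 : 16 * s ^ 2 + 8 * s * δ ≤ 24 * s ^ 2 := by nlinarith
    have e3 : (X : ℝ) * (16 * s ^ 2 + 8 * s * δ) ≤ (3 / 2 * (r * u ^ 2)) * (24 * s ^ 2) :=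
      mul_le_mul hXr e2 hθ (by positivity)
    have e4 : (3 / 2 * (r * u ^ 2)) * (24 * s ^ 2) = r / 2304 := by
      calc (3 / 2 * (r * u ^ 2)) * (24 * s ^ 2) = 36 * r * (s * u) ^ 2 := by ring
        _ = r / 2304 := by rw [hsu]; ring
    rw [e1]
    linarith
  have hA := hU _ ((Measure.pi fun _ : Fin n => expMeasure (1 / 2 + δ)).prod
      (Measure.pi fun _ : Fin n => expMeasure (1 / 2 - δ))) X (fun i ω => jabsXv ω.2 i) (1 / 2 - δ) s 2
      (16 * s ^ 2 + 8 * s * δ) (r * u / 4) (jabs_iid_snd hX _ _) hs0 (by linarith) hθ (by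
        have hx0 : 0 ≤ s / (1 / 2 - δ) := by positivity
        have hx4 : s / (1 / 2 - δ) ≤ 4 * s := by
          rw [div_le_iff₀ hb]; nlinarith
        have e1 : (1 / 2 - δ) / (1 / 2 - δ - s) = (1 - s / (1 / 2 - δ))⁻¹ := by
          have : 1 / 2 - δ - s ≠ 0 := by linarith
          rw [one_sub_div hb.ne', inv_div]
        rw [e1]
        have e2 := jabs_log1 hx0 (by linarith)
        have e3 : s / (1 / 2 - δ) - 2 * s = 2 * δ * (s / (1 / 2 - δ)) := by
          linear_combination 2 * div_mul_cancel₀ s hb.ne'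
        calc (1 - s / (1 / 2 - δ))⁻¹ * Real.exp (-(s * 2))
            ≤ Real.exp (s / (1 / 2 - δ) + (s / (1 / 2 - δ)) ^ 2) * Real.exp (-(s * 2)) :=
              mul_le_mul_of_nonneg_right e2 (Real.exp_pos _).le
          _ = Real.exp ((s / (1 / 2 - δ) - 2 * s) + (s / (1 / 2 - δ)) ^ 2) := by
              rw [← Real.exp_add]; congr 1; ring
          _ ≤ Real.exp (16 * s ^ 2 + 8 * s * δ) := by
              rw [Real.exp_le_exp, e3]
              have e4 : 2 * δ * (s / (1 / 2 - δ)) ≤ 2 * δ * (4 * s) :=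
                mul_le_mul_of_nonneg_left hx4 (by positivity)
              have e5 : (s / (1 / 2 - δ)) ^ 2 ≤ (4 * s) ^ 2 := pow_le_pow_left₀ hx0 hx4 2
              nlinarith)
  have hB := hD _ ((Measure.pi fun _ : Fin n => expMeasure (1 / 2 + δ)).prod
      (Measure.pi fun _ : Fin n => expMeasure (1 / 2 - δ))) X (fun i ω => jabsXv ω.1 i) (1 / 2 + δ) s 2
      (16 * s ^ 2 + 8 * s * δ) (r * u / 4) (jabs_iid_fst hX _ _) hs0 ha hθ (by
        have hx0 : 0 ≤ s / (1 / 2 + δ) := by positivity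
        have hx4 : s / (1 / 2 + δ) ≤ 2 * s := by
          rw [div_le_iff₀ ha]; nlinarith
        have e1 : (1 / 2 + δ) / (1 / 2 + δ + s) = (1 + s / (1 / 2 + δ))⁻¹ := by
          have : 1 / 2 + δ + s ≠ 0 := by positivity
          rw [one_add_div ha.ne', inv_div]
        rw [e1]
        have e2 := jabs_log2 hx0
        have e3 : 2 * s - s / (1 / 2 + δ) = 2 * δ * (s / (1 / 2 + δ)) := by
          linear_combination (-2) * div_mul_cancel₀ s ha.ne'
        calc (1 + s / (1 / 2 + δ))⁻¹ * Real.exp (s * 2)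
            ≤ Real.exp (-(s / (1 / 2 + δ)) + (s / (1 / 2 + δ)) ^ 2) * Real.exp (s * 2) :=
              mul_le_mul_of_nonneg_right e2 (Real.exp_pos _).le
          _ = Real.exp ((2 * s - s / (1 / 2 + δ)) + (s / (1 / 2 + δ)) ^ 2) := by
              rw [← Real.exp_add]; congr 1; ring
          _ ≤ Real.exp (16 * s ^ 2 + 8 * s * δ) := by
              rw [Real.exp_le_exp, e3]
              have e4 : 2 * δ * (s / (1 / 2 + δ)) ≤ 2 * δ * (2 * s) :=
                mul_le_mul_of_nonneg_left hx4 (by positivity)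
              have e5 : (s / (1 / 2 + δ)) ^ 2 ≤ (2 * s) ^ 2 := pow_le_pow_left₀ hx0 hx4 2
              nlinarith)
  have hA' := hA.trans hexp
  have hB' := hB.trans hexp
  calc _ ≤ ((Measure.pi fun _ : Fin n => expMeasure (1 / 2 + δ)).prod
      (Measure.pi fun _ : Fin n => expMeasure (1 / 2 - δ))).real
        ({ω | ∃ z ≤ X, r * u / 4 ≤ ∑ i ∈ Finset.range z, (jabsXv ω.2 i - 2)} ∪
          {ω | ∃ z ≤ X, r * u / 4 ≤ ∑ i ∈ Finset.range z, (2 - jabsXv ω.1 i)}) := by
        refine measureReal_mono ?_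
        intro p hp
        have e1 : -jabsS X p = ∑ i ∈ Finset.range X, (jabsXv p.2 i - 2) +
            ∑ i ∈ Finset.range X, (2 - jabsXv p.1 i) := by
          unfold jabsS
          rw [← Finset.sum_add_distrib, ← Finset.sum_neg_distrib]
          exact Finset.sum_congr rfl fun i _ => by ring
        have hp' : r * u / 2 ≤ -jabsS X p := hp
        rw [e1] at hp'
        by_cases h : r * u / 4 ≤ ∑ i ∈ Finset.range X, (jabsXv p.2 i - 2)
        · exact Or.inl ⟨X, le_rfl, h⟩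
        · exact Or.inr ⟨X, le_rfl, by linarith⟩
    _ ≤ _ := measureReal_union_le _ _
    _ ≤ 2 * Real.exp (-r / 2304) := by linarith

end Pool.Agent.H374
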