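import Pool.Agent.H374.JAbsB

/-!
# Harris inequality and the slab event in the abstract block lemma (helper146)
-/

set_option autoImplicit false
open MeasureTheory ProbabilityTheory Filter Topology

namespace Pool.Agent.H374

/-- coordinate relation for the increasing event -/
def jabsR (X : ℕ) (n : ℕ) (i : Fin n) (x y : ℝ) : Prop := x ≤ y ∧ ((i : ℕ) < X → x = y)

/-- coordinate relation for the decreasing event -/
def jabsR' (X : ℕ) (n : ℕ) (i : Fin n) (x y : ℝ) : Prop := (i : ℕ) < X ∨ x ≤ y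

theorem jabs_coord (X n : ℕ) (i : Fin n) (ν : Measure ℝ) [IsProbabilityMeasure ν] :
    JabsHR ν (jabsR X n i) (jabsR' X n i) := by
  by_cases h : (i : ℕ) < X
  · exact JabsHR.const _ _ _ fun x y => Or.inl h
  · refine JabsHR.total _ _ _ fun x y => ?_
    rcases le_total x y with h1 | h1
    · exact Or.inl ⟨⟨h1, fun h2 => absurd h2 h⟩, Or.inr h1⟩
    · exact Or.inr ⟨⟨h1, fun h2 => absurd h2 h⟩, Or.inr h1⟩

theorem jabs_coord' (X n : ℕ) (i : Fin n) (ν : Measure ℝ) [IsProbabilityMeasure ν] :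
    JabsHR ν (fun x y => jabsR X n i y x) (fun x y => jabsR' X n i y x) := by
  by_cases h : (i : ℕ) < X
  · exact JabsHR.const _ _ _ fun x y => Or.inl h
  · refine JabsHR.total _ _ _ fun x y => ?_
    rcases le_total x y with h1 | h1
    · exact Or.inr ⟨⟨h1, fun h2 => absurd h2 h⟩, Or.inr h1⟩
    · exact Or.inl ⟨⟨h1, fun h2 => absurd h2 h⟩, Or.inr h1⟩

theorem jabs_hr (n X : ℕ) (μ1 μ2 : Measure ℝ) [IsProbabilityMeasure μ1] [IsProbabilityMeasure μ2]
    {Sl : Type} [MeasurableSpace Sl] (ν : Measure Sl) [IsProbabilityMeasure ν] :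
    JabsHR (((Measure.pi fun _ : Fin n => μ1).prod (Measure.pi fun _ : Fin n => μ2)).prod ν)
      (fun p q => ((∀ i, jabsR X n i (p.1.1 i) (q.1.1 i)) ∧ (∀ i, jabsR X n i (q.1.2 i) (p.1.2 i))) ∧
        p.2 = q.2)
      (fun p q => ((∀ i, jabsR' X n i (p.1.1 i) (q.1.1 i)) ∧ (∀ i, jabsR' X n i (q.1.2 i) (p.1.2 i))) ∧
        True) := by
  have hr : ∀ i x, jabsR X n i x x := fun i x => ⟨le_rfl, fun _ => rfl⟩
  have hr' : ∀ i x, jabsR' X n i x x := fun i x => Or.inr le_rfl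
  have h1 := JabsHR.pi n μ1 (jabsR X n) (jabsR' X n) (fun i => jabs_coord X n i μ1) hr hr'
  have h2 := JabsHR.pi n μ2 (fun i x y => jabsR X n i y x) (fun i x y => jabsR' X n i y x)
    (fun i => jabs_coord' X n i μ2) hr hr'
  have h3 := h1.prod h2 (fun x i => hr i _) (fun x i => hr' i _) (fun x i => hr i _)
    (fun x i => hr' i _)
  have h4 : JabsHR ν (fun x y => x = y) (fun _ _ => True) := JabsHR.const _ _ _ fun _ _ => trivial
  exact h3.prod h4 (fun x => ⟨fun i => hr i _, fun i => hr i _⟩)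
    (fun x => ⟨fun i => hr' i _, fun i => hr' i _⟩) (fun _ => rfl) (fun _ => trivial)

/-- Harris inequality for sets. -/
theorem JabsHR.sets {α : Type} [MeasurableSpace α] {μ : Measure α} [IsProbabilityMeasure μ]
    {r r' : α → α → Prop} (h : JabsHR μ r r') {F G : Set α} (hF : MeasurableSet F)
    (hG : MeasurableSet G) (h1 : ∀ x y, r x y → x ∈ F → y ∈ F)
    (h2 : ∀ x y, r' x y → y ∈ G → x ∈ G) : μ.real (F ∩ G) ≤ μ.real F * μ.real G := by
  classical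
  have hm : ∀ S : Set α, ∀ x, 0 ≤ S.indicator (fun _ => (1 : ℝ)) x ∧
      S.indicator (fun _ => (1 : ℝ)) x ≤ 1 := by
    intro S x
    by_cases hx : x ∈ S <;> simp [hx]
  have h3 := h (F.indicator fun _ => 1) (G.indicator fun _ => 1) (measurable_const.indicator hF)
    (measurable_const.indicator hG) (hm F) (hm G) (fun x y hxy => by
      by_cases hx : x ∈ F
      · simp [hx, h1 x y hxy hx]
      · rw [Set.indicator_of_notMem hx]; exact (hm F y).1) (fun x y hxy => by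
      by_cases hy : y ∈ G
      · simp [hy, h2 x y hxy hy]
      · rw [Set.indicator_of_notMem hy]; exact (hm G x).1)
  have h4 : ∀ x, F.indicator (fun _ => (1 : ℝ)) x * G.indicator (fun _ => (1 : ℝ)) x =
      (F ∩ G).indicator (fun _ => (1 : ℝ)) x := by
    intro x
    by_cases hx : x ∈ F <;> by_cases hy : x ∈ G <;> simp [hx, hy]
  simp only [h4] at h3
  have h5 : ∀ S : Set α, MeasurableSet S → ∫ x, S.indicator (fun _ => (1 : ℝ)) x ∂μ = μ.real S := by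
    intro S hS
    rw [integral_indicator hS]
    simp
  rwa [h5 _ (hF.inter hG), h5 _ hF, h5 _ hG] at h3

theorem jabs_S_mono {n X : ℕ} {p q : (Fin n → ℝ) × (Fin n → ℝ)}
    (h1 : ∀ i, jabsR' X n i (p.1 i) (q.1 i)) (h2 : ∀ i, jabsR' X n i (q.2 i) (p.2 i)) (x : ℕ)
    (hx : X ≤ x) : jabsS x p - jabsS X p ≤ jabsS x q - jabsS X q := by
  obtain ⟨z, rfl⟩ := Nat.exists_eq_add_of_le hx
  rw [jabs_S_add, jabs_S_add, add_sub_cancel_left, add_sub_cancel_left]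
  refine Finset.sum_le_sum fun i _ => ?_
  unfold jabsXv
  split_ifs with h
  · have h3 := (h1 ⟨X + i, h⟩).resolve_left (by simp)
    have h4 := (h2 ⟨X + i, h⟩).resolve_left (by simp)
    linarith
  · exact le_rfl

theorem jabs_S_eq {n X : ℕ} {p q : (Fin n → ℝ) × (Fin n → ℝ)}
    (h1 : ∀ i, jabsR X n i (p.1 i) (q.1 i)) (h2 : ∀ i, jabsR X n i (q.2 i) (p.2 i)) :
    jabsS X p = jabsS X q := by
  unfold jabsS
  refine Finset.sum_congr rfl fun i hi => ?_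
  have hi' := Finset.mem_range.1 hi
  unfold jabsXv
  split_ifs with h
  · rw [(h1 ⟨i, h⟩).2 hi', (h2 ⟨i, h⟩).2 hi']
  · rfl

section
variable {n : ℕ} {Sl : Type} [MeasurableSpace Sl]

/-- the event `Y ≥ r` -/
def jabsF (Ups : ((Fin n → ℝ) × (Fin n → ℝ)) × Sl → ℝ) (X : ℕ) (c : ℝ) :
    Set (((Fin n → ℝ) × (Fin n → ℝ)) × Sl) := {p | c ≤ Ups p - jabsS X p.1}

theorem jabs_F_meas {Ups : ((Fin n → ℝ) × (Fin n → ℝ)) × Sl → ℝ} (hU : Measurable Ups) (X : ℕ)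
    (c : ℝ) : MeasurableSet (jabsF Ups X c) :=
  measurableSet_le measurable_const (hU.sub ((jabs_S_meas X).comp measurable_fst))

theorem jabs_harris (μ1 μ2 : Measure ℝ) [IsProbabilityMeasure μ1] [IsProbabilityMeasure μ2]
    (ν : Measure Sl) [IsProbabilityMeasure ν] (X : ℕ)
    {Ups : ((Fin n → ℝ) × (Fin n → ℝ)) × Sl → ℝ} (hU : Measurable Ups)
    (hm : ∀ ξ ξ' η η' : Fin n → ℝ, ∀ σ : Sl, ξ ≤ ξ' → η' ≤ η → Ups ((ξ, η), σ) ≤ Ups ((ξ', η'), σ))
    (c a : ℝ) :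
    (((Measure.pi fun _ : Fin n => μ1).prod (Measure.pi fun _ : Fin n => μ2)).prod ν).real
      (jabsF Ups X c ∩ Prod.fst ⁻¹' (jabsEM X a)) ≤
    (((Measure.pi fun _ : Fin n => μ1).prod (Measure.pi fun _ : Fin n => μ2)).prod ν).real
      (jabsF Ups X c) *
    ((Measure.pi fun _ : Fin n => μ1).prod (Measure.pi fun _ : Fin n => μ2)).real (jabsEM X a) := by
  have h1 := (jabs_hr n X μ1 μ2 ν).sets (F := jabsF Ups X c) (G := Prod.fst ⁻¹' (jabsEM X a))
    (jabs_F_meas hU X c) (measurable_fst (jabs_EM_meas X a)) ?_ ?_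
  · rw [(measurePreserving_fst (μ := (Measure.pi fun _ : Fin n => μ1).prod
      (Measure.pi fun _ : Fin n => μ2)) (ν := ν)).measureReal_preimage
      (jabs_EM_meas X a).nullMeasurableSet] at h1
    exact h1
  · rintro ⟨⟨ξ, η⟩, σ⟩ ⟨⟨ξ', η'⟩, σ'⟩ ⟨⟨h2, h3⟩, h4⟩ h5
    simp only at h2 h3 h4
    subst h4
    have h6 : Ups ((ξ, η), σ) ≤ Ups ((ξ', η'), σ) :=
      hm _ _ _ _ _ (fun i => (h2 i).1) (fun i => (h3 i).1)
    have h7 : jabsS X (ξ, η) = jabsS X (ξ', η') := jabs_S_eq h2 h3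
    have h8 : c ≤ Ups ((ξ, η), σ) - jabsS X (ξ, η) := h5
    show c ≤ Ups ((ξ', η'), σ) - jabsS X (ξ', η')
    linarith
  · rintro ⟨⟨ξ, η⟩, σ⟩ ⟨⟨ξ', η'⟩, σ'⟩ ⟨⟨h2, h3⟩, h4⟩ h5
    simp only at h2 h3 h4
    intro x hx hxn
    exact (jabs_S_mono h2 h3 x hx).trans (h5 x hx hxn)

/-- `x` is the first maximiser of the walk on `[X, n]` -/
def jabsA (n X x : ℕ) : Set ((Fin n → ℝ) × (Fin n → ℝ)) :=
  {w | (∀ y, X ≤ y → y ≤ n → jabsS y w ≤ jabsS x w) ∧ (∀ y, X ≤ y → y < x → jabsS y w < jabsS x w)}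

theorem jabs_A_meas (X x : ℕ) : MeasurableSet (jabsA n X x) := by
  have h1 : jabsA n X x = (⋂ y, ⋂ _ : X ≤ y, ⋂ _ : y ≤ n, {w | jabsS y w ≤ jabsS x w}) ∩
      (⋂ y, ⋂ _ : X ≤ y, ⋂ _ : y < x, {w | jabsS y w < jabsS x w}) := by
    ext w
    simp only [jabsA, Set.mem_ofPred_eq, Set.mem_inter_iff, Set.mem_iInter]
  rw [h1]
  refine MeasurableSet.inter ?_ ?_
  · exact MeasurableSet.iInter fun y => MeasurableSet.iInter fun _ => MeasurableSet.iInter fun _ =>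
      measurableSet_le (jabs_S_meas _) (jabs_S_meas _)
  · exact MeasurableSet.iInter fun y => MeasurableSet.iInter fun _ => MeasurableSet.iInter fun _ =>
      measurableSet_lt (jabs_S_meas _) (jabs_S_meas _)

theorem jabs_A_disj (X : ℕ) {x y : ℕ} (hx : X ≤ x) (hyn : y ≤ n) (h : x < y) :
    Disjoint (jabsA n X x) (jabsA n X y) := by
  rw [Set.disjoint_left]
  intro w h1 h2
  exact absurd (h2.2 x hx h) (not_lt.2 (h1.1 y (by omega) hyn))

theorem jabs_A_cover {X : ℕ} (hX : X ≤ n) (w : (Fin n → ℝ) × (Fin n → ℝ)) :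
    ∃ x, X ≤ x ∧ x ≤ n ∧ w ∈ jabsA n X x := by
  classical
  obtain ⟨x0, hx0, hx1⟩ := Finset.exists_max_image (Finset.Icc X n) (fun x => jabsS x w)
    ⟨X, Finset.mem_Icc.2 ⟨le_rfl, hX⟩⟩
  have hex : ∃ x, X ≤ x ∧ x ≤ n ∧ ∀ y, X ≤ y → y ≤ n → jabsS y w ≤ jabsS x w :=
    ⟨x0, (Finset.mem_Icc.1 hx0).1, (Finset.mem_Icc.1 hx0).2, fun y h1 h2 =>
      hx1 y (Finset.mem_Icc.2 ⟨h1, h2⟩)⟩
  obtain ⟨h1, h2, h3⟩ := Nat.find_spec hex
  refine ⟨Nat.find hex, h1, h2, h3, fun y hy hyx => ?_⟩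
  have h4 := Nat.find_min hex hyx
  by_contra hcon
  exact h4 ⟨hy, by omega, fun z hz hzn => (h3 z hz hzn).trans (not_lt.1 hcon)⟩

/-- the slab value at the maximiser is small -/
def jabsB (T : ℕ → Sl → ℝ) (X : ℕ) (c : ℝ) : Set (((Fin n → ℝ) × (Fin n → ℝ)) × Sl) :=
  ⋃ x ∈ Finset.Icc X n, jabsA n X x ×ˢ {σ | T x σ ≤ c}

theorem jabs_B_meas {T : ℕ → Sl → ℝ} (hT : ∀ x, Measurable (T x)) (X : ℕ) (c : ℝ) :
    MeasurableSet (jabsB (n := n) T X c) := by
  unfold jabsB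
  exact Finset.measurableSet_biUnion _ fun x _ => (jabs_A_meas X x).prod
    (measurableSet_le (hT x) measurable_const)

theorem jabs_B_real (P : Measure ((Fin n → ℝ) × (Fin n → ℝ))) [IsProbabilityMeasure P]
    (ν : Measure Sl) [IsProbabilityMeasure ν] (T : ℕ → Sl → ℝ) {X : ℕ} {c ε : ℝ}
    (hε : 0 ≤ ε) (h : ∀ x, X ≤ x → x ≤ n → ν.real {σ | T x σ ≤ c} ≤ ε)
    {E : Set ((Fin n → ℝ) × (Fin n → ℝ))} (hE : MeasurableSet E) :
    (P.prod ν).real (jabsB T X c ∩ Prod.fst ⁻¹' E) ≤ ε * P.real E := by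
  have h1 : jabsB T X c ∩ Prod.fst ⁻¹' E =
      ⋃ x ∈ Finset.Icc X n, (jabsA n X x ∩ E) ×ˢ {σ | T x σ ≤ c} := by
    ext ⟨w, σ⟩
    simp only [jabsB, Set.mem_inter_iff, Set.mem_iUnion, Set.mem_prod, Set.mem_preimage,
      exists_prop]
    constructor
    · rintro ⟨⟨x, hx, h2, h3⟩, h4⟩
      exact ⟨x, hx, ⟨h2, h4⟩, h3⟩
    · rintro ⟨x, hx, ⟨h2, h4⟩, h3⟩
      exact ⟨⟨x, hx, h2, h3⟩, h4⟩
  rw [h1]
  calc (P.prod ν).real (⋃ x ∈ Finset.Icc X n, (jabsA n X x ∩ E) ×ˢ {σ | T x σ ≤ c})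
      ≤ ∑ x ∈ Finset.Icc X n, (P.prod ν).real ((jabsA n X x ∩ E) ×ˢ {σ | T x σ ≤ c}) :=
        measureReal_biUnion_finset_le _ _
    _ ≤ ∑ x ∈ Finset.Icc X n, P.real (jabsA n X x ∩ E) * ε := by
        refine Finset.sum_le_sum fun x hx => ?_
        rw [measureReal_prod_prod]
        exact mul_le_mul_of_nonneg_left (h x (Finset.mem_Icc.1 hx).1 (Finset.mem_Icc.1 hx).2)
          measureReal_nonneg
    _ = P.real (⋃ x ∈ Finset.Icc X n, (jabsA n X x ∩ E)) * ε := by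
        rw [← Finset.sum_mul, measureReal_biUnion_finset]
        · intro x hx y hy hxy
          have hx' := Finset.mem_Icc.1 (Finset.mem_coe.1 hx)
          have hy' := Finset.mem_Icc.1 (Finset.mem_coe.1 hy)
          have h5 : Disjoint (jabsA n X x) (jabsA n X y) := by
            rcases lt_or_gt_of_ne hxy with h6 | h6
            · exact jabs_A_disj X hx'.1 hy'.2 h6
            · exact (jabs_A_disj X hy'.1 hx'.2 h6).symm
          exact h5.mono Set.inter_subset_left Set.inter_subset_left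
        · intro x _
          exact (jabs_A_meas X x).inter hE
    _ ≤ P.real E * ε := by
        refine mul_le_mul_of_nonneg_right (measureReal_mono ?_) hε
        exact Set.iUnion₂_subset fun x _ => Set.inter_subset_right
    _ = ε * P.real E := mul_comm _ _

omit [MeasurableSpace Sl] in
/-- Outside the bad event the walk stays low after `X` and `Z` is controlled by `Y`. -/
theorem jabs_point {T : ℕ → Sl → ℝ} {X : ℕ} (hX : X ≤ n) {p : ((Fin n → ℝ) × (Fin n → ℝ)) × Sl}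
    {Z U c : ℝ} (hZ : 0 < Z) (hb : ∀ x, X ≤ x → x ≤ n → Z ≤ U - jabsS x p.1 - T x p.2)
    (hB : p ∉ jabsB T X c) : Z ≤ U - jabsS X p.1 - c ∧ p.1 ∈ jabsEM X (U - jabsS X p.1 - c) := by
  obtain ⟨x, hx, hxn, hA⟩ := jabs_A_cover hX p.1
  have h1 : c < T x p.2 := by
    by_contra hcon
    refine hB ?_
    simp only [jabsB, Set.mem_iUnion, Set.mem_prod, exists_prop]
    exact ⟨x, Finset.mem_Icc.2 ⟨hx, hxn⟩, hA, not_lt.1 hcon⟩
  have h2 := hb x hx hxn
  have h3 := hA.1 X le_rfl hX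
  refine ⟨by linarith, fun y hy hyn => ?_⟩
  have h4 := hA.1 y hy hyn
  linarith

end

end Pool.Agent.H374
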