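import Pool.Agent.H374.JAbsC

/-!
# The decomposition in the abstract block lemma (helper146)
-/

set_option autoImplicit false
open MeasureTheory ProbabilityTheory Filter Topology

namespace Pool.Agent.H374

/-- position of level `ψ` -/
noncomputable def jabsX (u : ℝ) (ψ : ℕ) : ℕ := ⌈(ψ : ℝ) * u ^ 2⌉₊ + 1

theorem jabs_X_ge (u : ℝ) (ψ : ℕ) : (ψ : ℝ) * u ^ 2 ≤ jabsX u ψ := by
  unfold jabsX
  push_cast
  have := Nat.le_ceil ((ψ : ℝ) * u ^ 2)
  linarith

theorem jabs_X_le (u : ℝ) (ψ : ℕ) : (jabsX u ψ : ℝ) ≤ (ψ : ℝ) * u ^ 2 + 2 := by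
  unfold jabsX
  push_cast
  have := Nat.ceil_lt_add_one (show 0 ≤ (ψ : ℝ) * u ^ 2 by positivity)
  linarith

theorem jabs_X_two {u : ℝ} (hu : 1 ≤ u) {ψ : ℕ} (h : 1 ≤ ψ) : 2 ≤ jabsX u ψ := by
  unfold jabsX
  have h1 : (0 : ℝ) < (ψ : ℝ) * u ^ 2 := by
    have : (1 : ℝ) ≤ ψ := by exact_mod_cast h
    positivity
  have := Nat.ceil_pos.2 h1
  omega

section
variable {n : ℕ} {Sl : Type} [MeasurableSpace Sl]

/-- bad event of level `ψ` -/
def jabsBd (T : ℕ → Sl → ℝ) (u M : ℝ) (ψ : ℕ) : Set (((Fin n → ℝ) × (Fin n → ℝ)) × Sl) :=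
  if ψ = 0 then Set.univ else jabsB T (jabsX u ψ) (M - ψ * u)

/-- first family of events -/
def jabsG1 (T : ℕ → Sl → ℝ) (u M : ℝ) (j : ℕ) : Set (((Fin n → ℝ) × (Fin n → ℝ)) × Sl) :=
  jabsBd T u M j ∩ Prod.fst ⁻¹' (jabsEM (jabsX u (j + 1)) (3 * (j + 1 : ℕ) * u))

/-- second family of events -/
def jabsG2 (Ups : ((Fin n → ℝ) × (Fin n → ℝ)) × Sl → ℝ) (u M : ℝ) (j r : ℕ) :
    Set (((Fin n → ℝ) × (Fin n → ℝ)) × Sl) :=
  if 2 * (j + 1) ≤ r then
    jabsF Ups (jabsX u (j + 1)) (M + r * u) ∩ Prod.fst ⁻¹' (jabsEM (jabsX u (j + 1)) (2 * r * u))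
  else ∅

theorem jabs_Bd_meas {T : ℕ → Sl → ℝ} (hT : ∀ x, Measurable (T x)) (u M : ℝ) (ψ : ℕ) :
    MeasurableSet (jabsBd (n := n) T u M ψ) := by
  unfold jabsBd
  split_ifs
  · exact MeasurableSet.univ
  · exact jabs_B_meas hT _ _

theorem jabs_G1_meas {T : ℕ → Sl → ℝ} (hT : ∀ x, Measurable (T x)) (u M : ℝ) (j : ℕ) :
    MeasurableSet (jabsG1 (n := n) T u M j) :=
  (jabs_Bd_meas hT u M j).inter (measurable_fst (jabs_EM_meas _ _))

theorem jabs_G2_meas {Ups : ((Fin n → ℝ) × (Fin n → ℝ)) × Sl → ℝ} (hU : Measurable Ups) (u M : ℝ)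
    (j r : ℕ) : MeasurableSet (jabsG2 Ups u M j r) := by
  unfold jabsG2
  split_ifs
  · exact (jabs_F_meas hU _ _).inter (measurable_fst (jabs_EM_meas _ _))
  · exact MeasurableSet.empty

omit [MeasurableSpace Sl] in
theorem jabs_decomp {T : ℕ → Sl → ℝ} {Ups : ((Fin n → ℝ) × (Fin n → ℝ)) × Sl → ℝ} {u M : ℝ}
    (hu : 1 ≤ u) {N : ℕ} (hN : ∀ j < N, jabsX u (j + 1) ≤ n)
    {p : ((Fin n → ℝ) × (Fin n → ℝ)) × Sl} {Z : ℝ} (hZ0 : 0 ≤ Z)
    (hb : 0 < Z → ∀ x, 2 ≤ x → x ≤ n → Z ≤ Ups p - jabsS x p.1 - T x p.2) {q : ℕ} (hq : 1 ≤ q) :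
    ENNReal.ofReal (Z ^ q) ≤ ∑ j ∈ Finset.range N,
      ((jabsG1 T u M j).indicator (fun _ => ENNReal.ofReal ((3 * (j + 1 : ℕ) * u) ^ q)) p +
        ∑' r : ℕ, (jabsG2 Ups u M j r).indicator (fun _ => ENNReal.ofReal ((2 * r * u) ^ q)) p) +
      (jabsBd T u M N).indicator (fun _ => ENNReal.ofReal (Z ^ q)) p := by
  classical
  rcases hZ0.eq_or_lt with h0 | h0
  · rw [← h0, zero_pow (by omega), ENNReal.ofReal_zero]
    exact zero_le
  · have hb' := hb h0
    by_cases hall : ∀ j ≤ N, p ∈ jabsBd T u M j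
    · rw [Set.indicator_of_mem (hall N le_rfl)]
      exact le_add_self
    · push Not at hall
      have hex : ∃ j, j ≤ N ∧ p ∉ jabsBd T u M j := hall
      obtain ⟨h1, h2⟩ := Nat.find_spec hex
      have h3 := fun j (hj : j < Nat.find hex) => Nat.find_min hex hj
      obtain ⟨k, hk⟩ : ∃ k, k = Nat.find hex := ⟨_, rfl⟩
      rw [← hk] at h1 h2 h3
      have hk0 : k ≠ 0 := by
        rintro rfl
        exact h2 (by simp [jabsBd])
      obtain ⟨j, rfl⟩ := Nat.exists_eq_succ_of_ne_zero hk0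
      have h4 : p ∈ jabsBd T u M j := by
        by_contra hcon
        exact h3 j (by omega) ⟨by omega, hcon⟩
      have hjN : j < N := by omega
      have h5 : p ∉ jabsB T (jabsX u (j + 1)) (M - (j + 1 : ℕ) * u) := by
        simpa only [jabsBd, Nat.succ_eq_add_one, Nat.add_eq_zero_iff, one_ne_zero, and_false,
          if_false] using h2
      obtain ⟨h6, h7⟩ := jabs_point (hN j hjN) h0 (fun x hx hxn => hb' x
        (le_trans (jabs_X_two hu (by omega)) hx) hxn) h5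
      refine le_trans ?_ le_self_add
      refine le_trans ?_ (Finset.single_le_sum (f := fun j : ℕ =>
        ((jabsG1 T u M j).indicator (fun _ => ENNReal.ofReal ((3 * (j + 1 : ℕ) * u) ^ q)) p +
        ∑' r : ℕ, (jabsG2 Ups u M j r).indicator (fun _ => ENNReal.ofReal ((2 * r * u) ^ q)) p))
        (fun _ _ => zero_le) (Finset.mem_range.2 hjN))
      have hψ : (1 : ℝ) ≤ ((j + 1 : ℕ) : ℝ) := by exact_mod_cast (by omega : 1 ≤ j + 1)
      by_cases hy : Ups p - jabsS (jabsX u (j + 1)) p.1 - M < 2 * (j + 1 : ℕ) * u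
      · refine le_trans ?_ le_self_add
        have h8 : p ∈ jabsG1 T u M j := by
          refine ⟨h4, jabs_EM_mono _ ?_ h7⟩
          linarith
        rw [Set.indicator_of_mem h8]
        exact ENNReal.ofReal_le_ofReal (pow_le_pow_left₀ h0.le (by linarith) q)
      · refine le_trans ?_ le_add_self
        have hu0 : 0 < u := by linarith
        have hy0 : 2 * ((j + 1 : ℕ) : ℝ) ≤ (Ups p - jabsS (jabsX u (j + 1)) p.1 - M) / u := by
          rw [le_div_iff₀ hu0]; linarith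
        obtain ⟨r, hr⟩ : ∃ r, r = ⌊(Ups p - jabsS (jabsX u (j + 1)) p.1 - M) / u⌋₊ := ⟨_, rfl⟩
        have hr1 : (r : ℝ) ≤ (Ups p - jabsS (jabsX u (j + 1)) p.1 - M) / u := by
          rw [hr]; exact Nat.floor_le (by linarith)
        have hr2 : (Ups p - jabsS (jabsX u (j + 1)) p.1 - M) / u < r + 1 := by
          rw [hr]; exact Nat.lt_floor_add_one _
        have hr3 : 2 * (j + 1) ≤ r := by
          rw [hr]
          refine Nat.le_floor ?_
          push_cast at hy0 ⊢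
          exact hy0
        have hr3' : 2 * ((j + 1 : ℕ) : ℝ) ≤ r := by exact_mod_cast hr3
        rw [le_div_iff₀ hu0] at hr1
        rw [div_lt_iff₀ hu0] at hr2
        have h9 : Ups p - jabsS (jabsX u (j + 1)) p.1 - (M - (j + 1 : ℕ) * u) ≤ 2 * r * u := by
          nlinarith
        have h8 : p ∈ jabsG2 Ups u M j r := by
          unfold jabsG2
          rw [if_pos hr3]
          refine ⟨?_, jabs_EM_mono _ h9 h7⟩
          show M + r * u ≤ Ups p - jabsS (jabsX u (j + 1)) p.1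
          linarith
        refine le_trans ?_ (ENNReal.le_tsum r)
        rw [Set.indicator_of_mem h8]
        exact ENNReal.ofReal_le_ofReal (pow_le_pow_left₀ h0.le (by linarith) q)

theorem jabs_lint_ind {α : Type} [MeasurableSpace α] (μ : Measure α) [IsProbabilityMeasure μ]
    {G : Set α} (hG : MeasurableSet G) {c : ℝ} (hc : 0 ≤ c) :
    ∫⁻ p, G.indicator (fun _ => ENNReal.ofReal c) p ∂μ = ENNReal.ofReal (c * μ.real G) := by
  rw [lintegral_indicator_const hG, ENNReal.ofReal_mul hc, ofReal_measureReal]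

theorem jabs_lint (μ : Measure (((Fin n → ℝ) × (Fin n → ℝ)) × Sl)) [IsProbabilityMeasure μ]
    {T : ℕ → Sl → ℝ} {Ups : ((Fin n → ℝ) × (Fin n → ℝ)) × Sl → ℝ} {u M : ℝ}
    (hUm : Measurable Ups) (hTm : ∀ x, Measurable (T x))
    (hu : 1 ≤ u) {N : ℕ} (hN : ∀ j < N, jabsX u (j + 1) ≤ n)
    {Z : ((Fin n → ℝ) × (Fin n → ℝ)) × Sl → ℝ} (hZ : Measurable Z) (hZ0 : ∀ᵐ p ∂μ, 0 ≤ Z p)
    (hb : ∀ᵐ p ∂μ, 0 < Z p → ∀ x, 2 ≤ x → x ≤ n → Z p ≤ Ups p - jabsS x p.1 - T x p.2)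
    {q : ℕ} (hq : 1 ≤ q) :
    ∫⁻ p, ENNReal.ofReal (Z p ^ q) ∂μ ≤ ∑ j ∈ Finset.range N,
      (ENNReal.ofReal ((3 * (j + 1 : ℕ) * u) ^ q * μ.real (jabsG1 T u M j)) +
        ∑' r : ℕ, ENNReal.ofReal ((2 * r * u) ^ q * μ.real (jabsG2 Ups u M j r))) +
      ∫⁻ p, (jabsBd T u M N).indicator (fun p => ENNReal.ofReal (Z p ^ q)) p ∂μ := by
  have h1 : ∀ j : ℕ, Measurable fun p : ((Fin n → ℝ) × (Fin n → ℝ)) × Sl =>
      (jabsG1 T u M j).indicator (fun _ => ENNReal.ofReal ((3 * (j + 1 : ℕ) * u) ^ q)) p := fun j =>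
    measurable_const.indicator (jabs_G1_meas hTm u M j)
  have h2 : ∀ j r : ℕ, Measurable fun p : ((Fin n → ℝ) × (Fin n → ℝ)) × Sl =>
      (jabsG2 Ups u M j r).indicator (fun _ => ENNReal.ofReal ((2 * r * u) ^ q)) p := fun j r =>
    measurable_const.indicator (jabs_G2_meas hUm u M j r)
  have h3 : ∀ j : ℕ, Measurable fun p : ((Fin n → ℝ) × (Fin n → ℝ)) × Sl =>
      ∑' r : ℕ, (jabsG2 Ups u M j r).indicator (fun _ => ENNReal.ofReal ((2 * r * u) ^ q)) p :=
    fun j => Measurable.tsum (h2 j)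
  have h4 : Measurable fun p : ((Fin n → ℝ) × (Fin n → ℝ)) × Sl =>
      (jabsBd T u M N).indicator (fun p => ENNReal.ofReal (Z p ^ q)) p :=
    (ENNReal.measurable_ofReal.comp (hZ.pow_const q)).indicator (jabs_Bd_meas hTm u M N)
  calc ∫⁻ p, ENNReal.ofReal (Z p ^ q) ∂μ
      ≤ ∫⁻ p, (∑ j ∈ Finset.range N,
      ((jabsG1 T u M j).indicator (fun _ => ENNReal.ofReal ((3 * (j + 1 : ℕ) * u) ^ q)) p +
        ∑' r : ℕ, (jabsG2 Ups u M j r).indicator (fun _ => ENNReal.ofReal ((2 * r * u) ^ q)) p) +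
      (jabsBd T u M N).indicator (fun p => ENNReal.ofReal (Z p ^ q)) p) ∂μ := by
        refine lintegral_mono_ae ?_
        filter_upwards [hZ0, hb] with p hp1 hp2
        exact jabs_decomp hu hN hp1 hp2 hq
    _ = _ := by
        have h5 : ∀ j ∈ Finset.range N, Measurable fun p : ((Fin n → ℝ) × (Fin n → ℝ)) × Sl =>
          ((jabsG1 T u M j).indicator (fun _ => ENNReal.ofReal ((3 * (j + 1 : ℕ) * u) ^ q)) p +
          ∑' r : ℕ, (jabsG2 Ups u M j r).indicator (fun _ => ENNReal.ofReal ((2 * r * u) ^ q)) p) :=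
            fun j _ => (h1 j).add (h3 j)
        rw [lintegral_add_right _ h4, lintegral_finsetSum _ h5]
        congr 1
        refine Finset.sum_congr rfl fun j _ => ?_
        rw [lintegral_add_left (h1 j), lintegral_tsum fun r => (h2 j r).aemeasurable,
          jabs_lint_ind μ (jabs_G1_meas hTm u M j) (by positivity)]
        congr 1
        refine tsum_congr fun r => ?_
        rw [jabs_lint_ind μ (jabs_G2_meas hUm u M j r) (by positivity)]

end

/-- Summation of the bounds. -/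
theorem jabs_sum (N : ℕ) {x : ℕ → ℝ} {y : ℕ → ℕ → ℝ} {a b c : ℕ → ℝ} {D : ℝ} (hD : 0 ≤ D)
    (ha : Summable a) (hb : Summable b) (hc : Summable c) (ha0 : ∀ j, 0 ≤ a j) (hb0 : ∀ j, 0 ≤ b j)
    (hc0 : ∀ j, 0 ≤ c j) (hx : ∀ j < N, x j ≤ D * a j) (hy : ∀ j < N, ∀ r, y j r ≤ D * (b j * c r)) :
    ∑ j ∈ Finset.range N, (ENNReal.ofReal (x j) + ∑' r, ENNReal.ofReal (y j r)) ≤
      ENNReal.ofReal (D * (∑' j, a j + (∑' j, b j) * ∑' r, c r)) := by
  have hct : 0 ≤ ∑' r, c r := tsum_nonneg hc0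
  calc ∑ j ∈ Finset.range N, (ENNReal.ofReal (x j) + ∑' r, ENNReal.ofReal (y j r))
      ≤ ∑ j ∈ Finset.range N, ENNReal.ofReal (D * (a j + b j * ∑' r, c r)) := by
        refine Finset.sum_le_sum fun j hj => ?_
        have hj' := Finset.mem_range.1 hj
        have h1 : ∑' r, ENNReal.ofReal (y j r) ≤ ENNReal.ofReal (D * (b j * ∑' r, c r)) := by
          calc ∑' r, ENNReal.ofReal (y j r) ≤ ∑' r, ENNReal.ofReal (D * (b j * c r)) :=
                ENNReal.tsum_le_tsum fun r => ENNReal.ofReal_le_ofReal (hy j hj' r)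
            _ = ENNReal.ofReal (∑' r, D * (b j * c r)) :=
                (ENNReal.ofReal_tsum_of_nonneg (fun r => mul_nonneg hD (mul_nonneg (hb0 j) (hc0 r)))
                  ((hc.mul_left _).mul_left _)).symm
            _ = _ := by rw [tsum_mul_left, tsum_mul_left]
        calc ENNReal.ofReal (x j) + ∑' r, ENNReal.ofReal (y j r)
            ≤ ENNReal.ofReal (D * a j) + ENNReal.ofReal (D * (b j * ∑' r, c r)) :=
              add_le_add (ENNReal.ofReal_le_ofReal (hx j hj')) h1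
          _ = ENNReal.ofReal (D * (a j + b j * ∑' r, c r)) := by
              rw [← ENNReal.ofReal_add (mul_nonneg hD (ha0 j))
                (mul_nonneg hD (mul_nonneg (hb0 j) hct)), mul_add]
    _ = ENNReal.ofReal (∑ j ∈ Finset.range N, D * (a j + b j * ∑' r, c r)) := by
        rw [ENNReal.ofReal_sum_of_nonneg]
        intro j _
        exact mul_nonneg hD (add_nonneg (ha0 j) (mul_nonneg (hb0 j) hct))
    _ ≤ _ := by
        refine ENNReal.ofReal_le_ofReal ?_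
        rw [← Finset.mul_sum, Finset.sum_add_distrib, ← Finset.sum_mul]
        refine mul_le_mul_of_nonneg_left ?_ hD
        refine add_le_add (ha.sum_le_tsum _ fun j _ => ha0 j) ?_
        exact mul_le_mul_of_nonneg_right (hb.sum_le_tsum _ fun j _ => hb0 j) hct

/-- The part on the last bad event. -/
theorem jabs_last {α : Type} [MeasurableSpace α] (μ : Measure α) [IsProbabilityMeasure μ]
    {B : Set α} (hB : MeasurableSet B) {Z : α → ℝ} (hZ0 : ∀ᵐ p ∂μ, 0 ≤ Z p)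
    (hI : Integrable (fun p => Z p ^ 8) μ) {L : ℝ} (hL : 1 ≤ L) {q : ℕ} (hq : q ≤ 4) :
    ∫⁻ p, B.indicator (fun p => ENNReal.ofReal (Z p ^ q)) p ∂μ ≤
      ENNReal.ofReal (L ^ 4 * μ.real B) + ENNReal.ofReal (L⁻¹ ^ 4 * ∫ p, Z p ^ 8 ∂μ) := by
  have hL0 : 0 < L := by linarith
  have h1 : ∀ᵐ p ∂μ, B.indicator (fun p => ENNReal.ofReal (Z p ^ q)) p ≤
      B.indicator (fun _ => ENNReal.ofReal (L ^ 4)) p + ENNReal.ofReal (L⁻¹ ^ 4 * Z p ^ 8) := by
    filter_upwards [hZ0] with p hp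
    by_cases hpB : p ∈ B
    · rw [Set.indicator_of_mem hpB, Set.indicator_of_mem hpB]
      by_cases h : Z p ≤ L
      · refine le_trans ?_ le_self_add
        exact ENNReal.ofReal_le_ofReal ((pow_le_pow_left₀ hp h q).trans (pow_le_pow_right₀ hL hq))
      · refine le_trans ?_ le_add_self
        have h' : L ≤ Z p := (not_le.1 h).le
        refine ENNReal.ofReal_le_ofReal ?_
        calc Z p ^ q ≤ Z p ^ 4 := pow_le_pow_right₀ (hL.trans h') hq
          _ = L⁻¹ ^ 4 * (L ^ 4 * Z p ^ 4) := by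
              rw [← mul_assoc, ← mul_pow, inv_mul_cancel₀ hL0.ne', one_pow, one_mul]
          _ ≤ L⁻¹ ^ 4 * (Z p ^ 4 * Z p ^ 4) := by
              refine mul_le_mul_of_nonneg_left ?_ (by positivity)
              exact mul_le_mul_of_nonneg_right (pow_le_pow_left₀ hL0.le h' 4) (by positivity)
          _ = L⁻¹ ^ 4 * Z p ^ 8 := by ring
    · rw [Set.indicator_of_notMem hpB]
      exact zero_le
  have h2 : Measurable fun p => B.indicator (fun _ => ENNReal.ofReal (L ^ 4)) p :=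
    measurable_const.indicator hB
  calc _ ≤ ∫⁻ p, (B.indicator (fun _ => ENNReal.ofReal (L ^ 4)) p +
        ENNReal.ofReal (L⁻¹ ^ 4 * Z p ^ 8)) ∂μ := lintegral_mono_ae h1
    _ = _ := by
        rw [lintegral_add_left h2, jabs_lint_ind μ hB (by positivity)]
        congr 1
        rw [← integral_const_mul, ofReal_integral_eq_lintegral_ofReal (hI.const_mul _)]
        exact Eventually.of_forall fun p => by positivity

theorem jabs_pow {k ψ u : ℝ} (hk : 1 ≤ k) (hψ : 1 ≤ ψ) (hu : 1 ≤ u) {q : ℕ} (hq : q ≤ 4) :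
    (k * ψ * u) ^ q * (1 + k * ψ * u) ≤ k ^ 4 * (k + 1) * ψ ^ 5 * u ^ (q + 1) := by
  have h1 : (k * ψ * u) ^ q ≤ k ^ 4 * ψ ^ 4 * u ^ q := by
    rw [mul_pow, mul_pow]
    refine mul_le_mul_of_nonneg_right ?_ (by positivity)
    exact mul_le_mul (pow_le_pow_right₀ hk hq) (pow_le_pow_right₀ hψ hq) (by positivity)
      (by positivity)
  have h2 : 1 + k * ψ * u ≤ (k + 1) * ψ * u := by
    have : 1 ≤ ψ * u := one_le_mul_of_one_le_of_one_le hψ hu
    nlinarith
  calc (k * ψ * u) ^ q * (1 + k * ψ * u) ≤ (k ^ 4 * ψ ^ 4 * u ^ q) * ((k + 1) * ψ * u) :=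
        mul_le_mul h1 h2 (by positivity) (by positivity)
    _ = k ^ 4 * (k + 1) * ψ ^ 5 * u ^ (q + 1) := by ring

end Pool.Agent.H374
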