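import Pool.Agent.H374.Stmts

/-!
# The block estimate: joint law of the walks and the slab
-/

set_option autoImplicit false
open MeasureTheory ProbabilityTheory

namespace Pool.Agent.H374

/-- Sites of the slab, rows `i+1, ..., R-1`, columns `0, ..., n+1`. -/
noncomputable def slabSites (n i R : ℕ) : Finset (ℤ × ℤ) :=
  Finset.Icc (0 : ℤ) ((n : ℤ) + 1) ×ˢ Finset.Icc ((i : ℤ) + 1) ((R : ℤ) - 1)

/-- Forward value. -/
noncomputable def jA (w : ℤ × ℤ → ℝ) (v : ℤ × ℤ) : ℝ := L Hs w (0, 0) v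

/-- Backward value. -/
noncomputable def jB (n : ℕ) (w : ℤ × ℤ → ℝ) (v : ℤ × ℤ) : ℝ :=
  L Hs w v ((n : ℤ) + 1, (n : ℤ) + 1)

/-- Horizontal increments of the forward process on row `i`. -/
noncomputable def jXi (i : ℕ) (w : ℤ × ℤ → ℝ) (u : ℕ) : ℝ :=
  jA w ((i : ℤ) + u + 1, (i : ℤ)) - jA w ((i : ℤ) + u, (i : ℤ))

/-- Horizontal increments of the backward process on row `R`. -/
noncomputable def jEta (n R : ℕ) (w : ℤ × ℤ → ℝ) (u : ℕ) : ℝ :=
  jB n w ((R : ℤ) + u, (R : ℤ)) - jB n w ((R : ℤ) + u + 1, (R : ℤ))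

/-- Joint law: the two walks (length `n' = n - R`), the slab, and the last backward increment. -/
def JLaw : Prop := ∀ (Ω : Type) [MeasurableSpace Ω] (P : Measure Ω) (E : ℤ × ℤ → Ω → ℝ), Env P E →
  ∀ (n i R : ℕ), i < R → R ≤ n → ∀ δ : ℝ, |δ| < 1 / 2 →
  Measure.map (fun ω =>
      (((fun u : Fin (n - R) => jXi i (wgt (cPhi n δ (1 / 2 - δ)) E ω) u),
        (fun u : Fin (n - R) => jEta n R (wgt (cPhi n δ (1 / 2 - δ)) E ω) u)),
       ((fun z : slabSites n i R => E z ω),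
         jEta n R (wgt (cPhi n δ (1 / 2 - δ)) E ω) (n - R)))) P
    = ((Measure.pi fun _ : Fin (n - R) => expMeasure (1 / 2 + δ)).prod
        (Measure.pi fun _ : Fin (n - R) => expMeasure (1 / 2 - δ))).prod
      ((Measure.pi fun _ : slabSites n i R => expMeasure 1).prod (expMeasure (1 / 2 - δ)))

end Pool.Agent.H374
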