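import Pool.Agent.H374.JBdet
import Pool.Agent.H374.JBStmts
import Pool.Agent.H374.Tools

/-!
# The block estimate: the slab functional
-/

set_option autoImplicit false
open MeasureTheory ProbabilityTheory

namespace Pool.Agent.H374

lemma jb_meas_sup' {δ : Type*} [MeasurableSpace δ] {s : Finset ℕ} (hs : s.Nonempty)
    {f : ℕ → δ → ℝ} (hf : ∀ n ∈ s, Measurable (f n)) :
    Measurable (fun x => s.sup' hs (fun n => f n x)) := by
  have h := Finset.measurable_sup' hs hf
  have e : (fun x => s.sup' hs (fun n => f n x)) = s.sup' hs f := by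
    funext x; rw [Finset.sup'_apply]
  rw [e]; exact h

lemma jb_meas_inf' {δ : Type*} [MeasurableSpace δ] {s : Finset ℕ} (hs : s.Nonempty)
    {f : ℕ → δ → ℝ} (hf : ∀ n ∈ s, Measurable (f n)) :
    Measurable (fun x => s.inf' hs (fun n => f n x)) := by
  have h : Measurable (s.inf' hs f) :=
    Finset.inf'_induction hs f (p := Measurable) (fun a ha b hb => ha.inf hb) hf
  have e : (fun x => s.inf' hs (fun n => f n x)) = s.inf' hs f := by
    funext x; rw [Finset.inf'_apply]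
  rw [e]; exact h

/-- Slab weights. -/
noncomputable def jSlabW (n i R : ℕ) (δ : ℝ) (σ : slabSites n i R → ℝ) : ℤ × ℤ → ℝ := fun z =>
  if h : z ∈ slabSites n i R then cPhi n δ (1 / 2 - δ) z * σ ⟨z, h⟩ else 0

/-- Partial sums of a finite list. -/
noncomputable def jSum {k : ℕ} (f : Fin k → ℝ) (x : ℕ) : ℝ :=
  ∑ i ∈ Finset.univ.filter (fun i : Fin k => (i : ℕ) < x), f i

lemma jSum_coe {k : ℕ} (f : ℕ → ℝ) {x : ℕ} (hx : x ≤ k) :
    jSum (fun i : Fin k => f i) x = ∑ i ∈ Finset.range x, f i := by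
  unfold jSum
  rw [Finset.sum_filter]
  rw [Fin.sum_univ_eq_sum_range (fun i => if i < x then f i else 0) k]
  rw [← Finset.sum_filter]
  congr 1
  ext j
  simp only [Finset.mem_filter, Finset.mem_range]
  omega

lemma jSum_mono {k : ℕ} {f g : Fin k → ℝ} (h : f ≤ g) (x : ℕ) : jSum f x ≤ jSum g x :=
  Finset.sum_le_sum fun i _ => h i

lemma measurable_jSum {k : ℕ} (x : ℕ) : Measurable (fun f : Fin k → ℝ => jSum f x) := by
  unfold jSum
  fun_prop

/-- The functional `Υ` on the canonical space. -/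
noncomputable def jUps (n i R : ℕ) (δ : ℝ)
    (p : ((Fin (n - R) → ℝ) × (Fin (n - R) → ℝ)) × ((slabSites n i R → ℝ) × ℝ)) : ℝ :=
  (if h : (Finset.Icc 1 (R - i)).Nonempty then (Finset.Icc 1 (R - i)).sup' h
      (fun x : ℕ => jSum p.1.1 x
        + L Hs (jSlabW n i R δ p.2.1) ((i : ℤ) + x, (i : ℤ) + 1) ((R : ℤ), (R : ℤ) - 1)) else 0)
  + (Finset.range (n - R + 2)).sup' ⟨0, by simp⟩
      (fun y : ℕ => L Hs (jSlabW n i R δ p.2.1) ((i : ℤ) + 1, (i : ℤ) + 1) ((R : ℤ) + y, (R : ℤ) - 1)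
        - (jSum p.1.2 y + if y = n - R + 1 then p.2.2 else 0))
  - L Hs (jSlabW n i R δ p.2.1) ((i : ℤ) + 1, (i : ℤ) + 1) ((R : ℤ), (R : ℤ) - 1)

/-- Far values through the slab. -/
noncomputable def jT (n i R : ℕ) (δ : ℝ) (x : ℕ) (σ : (slabSites n i R → ℝ) × ℝ) : ℝ :=
  L St (jSlabW n i R δ σ.1) ((i : ℤ) + x, (i : ℤ) + 1) ((R : ℤ) + x, (R : ℤ) - 1)

/-- The bound for the gain on the canonical space. -/
noncomputable def jZ (n i R : ℕ) (δ : ℝ)
    (p : ((Fin (n - R) → ℝ) × (Fin (n - R) → ℝ)) × ((slabSites n i R → ℝ) × ℝ)) : ℝ :=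
  max 0 (if h : (Finset.Icc 2 (n - R)).Nonempty then (Finset.Icc 2 (n - R)).inf' h
    (fun x : ℕ => jUps n i R δ p - (jSum p.1.1 x - jSum p.1.2 x) - jT n i R δ x p.2) else 0)

lemma measurable_jSlabW (n i R : ℕ) (δ : ℝ) (z : ℤ × ℤ) :
    Measurable (fun σ : slabSites n i R → ℝ => jSlabW n i R δ σ z) := by
  unfold jSlabW
  split_ifs with h
  · fun_prop
  · exact measurable_const

lemma measurable_jT (n i R : ℕ) (δ : ℝ) (x : ℕ) : Measurable (jT n i R δ x) := by
  unfold jT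
  exact (measurable_L (W := fun σ : slabSites n i R → ℝ => jSlabW n i R δ σ)
    (fun z => measurable_jSlabW n i R δ z) _ _ _).comp measurable_fst

lemma measurable_jUps (n i R : ℕ) (δ : ℝ) : Measurable (jUps n i R δ) := by
  have hL : ∀ u v : ℤ × ℤ, Measurable
      (fun p : ((Fin (n - R) → ℝ) × (Fin (n - R) → ℝ)) × ((slabSites n i R → ℝ) × ℝ) =>
        L Hs (jSlabW n i R δ p.2.1) u v) := by
    intro u v
    exact (measurable_L (W := fun σ : slabSites n i R → ℝ => jSlabW n i R δ σ)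
      (fun z => measurable_jSlabW n i R δ z) Hs u v).comp (measurable_fst.comp measurable_snd)
  have h1 : ∀ x : ℕ, Measurable
      (fun p : ((Fin (n - R) → ℝ) × (Fin (n - R) → ℝ)) × ((slabSites n i R → ℝ) × ℝ) =>
        jSum p.1.1 x) := fun x => (measurable_jSum x).comp (measurable_fst.comp measurable_fst)
  have h2 : ∀ x : ℕ, Measurable
      (fun p : ((Fin (n - R) → ℝ) × (Fin (n - R) → ℝ)) × ((slabSites n i R → ℝ) × ℝ) =>
        jSum p.1.2 x) := fun x => (measurable_jSum x).comp (measurable_snd.comp measurable_fst)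
  unfold jUps
  refine (Measurable.add ?_ ?_).sub (hL _ _)
  · split_ifs with h
    · exact jb_meas_sup' h (fun x _ => (h1 x).add (hL _ _))
    · exact measurable_const
  · refine jb_meas_sup' _ (fun y _ => (hL _ _).sub ((h2 y).add ?_))
    split_ifs
    · exact measurable_snd.comp measurable_snd
    · exact measurable_const

lemma measurable_jZ (n i R : ℕ) (δ : ℝ) : Measurable (jZ n i R δ) := by
  unfold jZ
  refine measurable_const.max ?_
  split_ifs with h
  · refine jb_meas_inf' h (fun x _ => ((measurable_jUps n i R δ).sub ?_).sub ?_)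
    · exact ((measurable_jSum x).comp (measurable_fst.comp measurable_fst)).sub
        ((measurable_jSum x).comp (measurable_snd.comp measurable_fst))
    · exact (measurable_jT n i R δ x).comp measurable_snd
  · exact measurable_const

lemma jUps_mono {n i R : ℕ} {δ : ℝ} {ξ ξ' η η' : Fin (n - R) → ℝ}
    {σ : (slabSites n i R → ℝ) × ℝ} (h1 : ξ ≤ ξ') (h2 : η' ≤ η) :
    jUps n i R δ ((ξ, η), σ) ≤ jUps n i R δ ((ξ', η'), σ) := by
  unfold jUps
  have a1 : ∀ x, jSum ξ x ≤ jSum ξ' x := fun x => jSum_mono h1 x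
  have a2 : ∀ x, jSum η' x ≤ jSum η x := fun x => jSum_mono h2 x
  refine sub_le_sub_right (add_le_add ?_ ?_) _
  · split_ifs with h
    · refine Finset.sup'_le h _ fun x hx => ?_
      refine le_trans ?_ (Finset.le_sup' _ hx)
      simp only
      linarith [a1 x]
    · exact le_rfl
  · refine Finset.sup'_le _ _ fun y hy => ?_
    refine le_trans ?_ (Finset.le_sup' _ hy)
    simp only
    linarith [a2 y]

/-! ## Identities on the sample space -/

section
variable {n i R : ℕ} {δ : ℝ} {w : ℤ × ℤ → ℝ}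

/-- Telescoping of the forward increments. -/
lemma jXi_sum (i : ℕ) (w : ℤ × ℤ → ℝ) (x : ℕ) :
    ∑ u ∈ Finset.range x, jXi i w u = jA w ((i : ℤ) + x, (i : ℤ)) - jA w ((i : ℤ), (i : ℤ)) := by
  induction x with
  | zero => simp
  | succ x ih =>
    rw [Finset.sum_range_succ, ih]
    unfold jXi
    have : ((i : ℤ) + (x + 1 : ℕ), (i : ℤ)) = ((i : ℤ) + x + 1, (i : ℤ)) := by
      push_cast; ring_nf
    rw [this]; ring

lemma jEta_sum (n R : ℕ) (w : ℤ × ℤ → ℝ) (x : ℕ) :
    ∑ u ∈ Finset.range x, jEta n R w u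
      = jB n w ((R : ℤ), (R : ℤ)) - jB n w ((R : ℤ) + x, (R : ℤ)) := by
  induction x with
  | zero => simp
  | succ x ih =>
    rw [Finset.sum_range_succ, ih]
    unfold jEta
    have : ((R : ℤ) + (x + 1 : ℕ), (R : ℤ)) = ((R : ℤ) + x + 1, (R : ℤ)) := by
      push_cast; ring_nf
    rw [this]; ring

/-- Weights given by the model. -/
lemma jSlabW_eq {Ω : Type} (E : ℤ × ℤ → Ω → ℝ) (ω : Ω) {z : ℤ × ℤ} (hz : z ∈ slabSites n i R) :
    jSlabW n i R δ (fun z => E z ω) z = wgt (cPhi n δ (1 / 2 - δ)) E ω z := by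
  unfold jSlabW wgt
  rw [dif_pos hz]

lemma jb_slab_congr {Ω : Type} (E : ℤ × ℤ → Ω → ℝ) (ω : Ω) (D : Set (ℤ × ℤ)) {u v : ℤ × ℤ}
    (h1 : 0 ≤ u.1) (h2 : v.1 ≤ n + 1) (h3 : (i : ℤ) + 1 ≤ u.2) (h4 : v.2 ≤ (R : ℤ) - 1) :
    L D (jSlabW n i R δ (fun z => E z ω)) u v = L D (wgt (cPhi n δ (1 / 2 - δ)) E ω) u v := by
  refine L_congr fun z hz _ => jSlabW_eq E ω ?_
  have := mem_rect.1 hz
  simp only [slabSites, Finset.mem_product, Finset.mem_Icc]
  omega

/-- Forward splitting at row `i`. -/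
lemma jb_fwd (hi : i + 2 ≤ R) (hne : (Finset.Icc 1 (R - i)).Nonempty) (w : ℤ × ℤ → ℝ) :
    jA w ((R : ℤ), (R : ℤ)) - jA w ((i : ℤ), (i : ℤ)) = w (R, R) +
      (Finset.Icc 1 (R - i)).sup' hne (fun x : ℕ =>
        (jA w ((i : ℤ) + x, (i : ℤ)) - jA w ((i : ℤ), (i : ℤ)))
        + L Hs w ((i : ℤ) + x, (i : ℤ) + 1) ((R : ℤ), (R : ℤ) - 1)) := by
  unfold jA
  have e1 : L Hs w (0, 0) ((R : ℤ), (R : ℤ)) = L Hs w (0, 0) ((R : ℤ), (R : ℤ) - 1) + w (R, R) :=
    L_rec_down RD_Hs (by simp [Hs]) (by simp [Hs]) (by simp) (by simp only; omega)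
      (Or.inr (by simp [Hs]))
  have hne' : (Path Hs (0, 0) ((R : ℤ), (R : ℤ) - 1)).Nonempty :=
    jb_nonempty le_rfl (by simp) (by simp) (by simp only; omega)
  have e2 : L Hs w (0, 0) ((R : ℤ), (R : ℤ) - 1) - L Hs w (0, 0) ((i : ℤ), (i : ℤ)) =
      (Finset.Icc 1 (R - i)).sup' hne (fun x : ℕ =>
        (L Hs w (0, 0) ((i : ℤ) + x, (i : ℤ)) - L Hs w (0, 0) ((i : ℤ), (i : ℤ)))
        + L Hs w ((i : ℤ) + x, (i : ℤ) + 1) ((R : ℤ), (R : ℤ) - 1)) := by
    apply le_antisymm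
    · obtain ⟨c, c1, c2, c3, c4, c5⟩ := L_row_split w hne' (j := (i : ℤ)) (by simp) (by simp only; omega)
        (by simp only [tm]; omega)
      obtain ⟨y, hy⟩ := c4
      have hc : (i : ℤ) + 1 ≤ c := by
        have h5 := p_mem hy (k := tm (c, (i : ℤ) + 1)) le_rfl (by
          have h6 := p_fst_le hy (k := tm (c, (i : ℤ) + 1))
          simp only [tm] at *; omega)
        rw [show vert y (tm (c, (i : ℤ) + 1)) = (c, (i : ℤ) + 1) by
          ext
          · exact hy.2.1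
          · show tm (c, (i : ℤ) + 1) - y (tm (c, (i : ℤ) + 1)) = _
            rw [hy.2.1]; simp only [tm]; ring] at h5
        exact h5
      simp only at c2
      have hx : ∃ x : ℕ, c = (i : ℤ) + x := ⟨(c - i).toNat, by omega⟩
      obtain ⟨x, rfl⟩ := hx
      have hmem : x ∈ Finset.Icc 1 (R - i) := by
        rw [Finset.mem_Icc]; omega
      refine le_trans (le_of_eq ?_) (Finset.le_sup' _ hmem)
      rw [c5]; ring
    · refine Finset.sup'_le hne _ fun x hx => ?_
      rw [Finset.mem_Icc] at hx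
      have := L_concat (w := w) (D := Hs) (z := ((i : ℤ) + x, (i : ℤ)))
        (z' := ((i : ℤ) + x, (i : ℤ) + 1)) (u := (0, 0)) (v := ((R : ℤ), (R : ℤ) - 1))
        (Or.inr rfl) (by simp only [tm]; omega) (by simp only [tm]; omega)
        (jb_nonempty le_rfl (by simp) (by simp only; omega) (by simp only; omega))
        (jb_nonempty (by simp only; omega) (by simp) (by simp only; omega) (by simp only; omega))
      linarith
  rw [e1, ← e2]
  ring

/-- Backward splitting at row `R`. -/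
lemma jb_bwd (hi : i + 2 ≤ R) (hR : R ≤ n) (w : ℤ × ℤ → ℝ) :
    jB n w ((i : ℤ) + 1, (i : ℤ) + 1) - jB n w ((R : ℤ), (R : ℤ)) =
      (Finset.range (n - R + 2)).sup' ⟨0, by simp⟩ (fun y : ℕ =>
        L Hs w ((i : ℤ) + 1, (i : ℤ) + 1) ((R : ℤ) + y, (R : ℤ) - 1)
          - (jB n w ((R : ℤ), (R : ℤ)) - jB n w ((R : ℤ) + y, (R : ℤ)))) := by
  unfold jB
  have hne' : (Path Hs ((i : ℤ) + 1, (i : ℤ) + 1) ((n : ℤ) + 1, (n : ℤ) + 1)).Nonempty :=
    jb_nonempty le_rfl le_rfl (by simp only; omega) (by simp only; omega)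
  apply le_antisymm
  · obtain ⟨c, c1, c2, c3, c4, c5⟩ := L_row_split w hne' (j := (R : ℤ) - 1) (by simp only; omega)
      (by simp only; omega) (by simp only [tm]; omega)
    rw [sub_add_cancel] at c4 c5
    obtain ⟨y, hy⟩ := c4
    have hc : (R : ℤ) ≤ c := by
      have h5 := p_mem hy (k := tm (c, (R : ℤ))) le_rfl (by
        simp only [tm] at *; omega)
      rw [show vert y (tm (c, (R : ℤ))) = (c, (R : ℤ)) by
        ext
        · exact hy.2.1
        · show tm (c, (R : ℤ)) - y (tm (c, (R : ℤ))) = _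
          rw [hy.2.1]; simp only [tm]; ring] at h5
      exact h5
    simp only at c2
    have hx : ∃ x : ℕ, c = (R : ℤ) + x := ⟨(c - R).toNat, by omega⟩
    obtain ⟨x, rfl⟩ := hx
    have hmem : x ∈ Finset.range (n - R + 2) := by
      rw [Finset.mem_range]; omega
    refine le_trans (le_of_eq ?_) (Finset.le_sup' _ hmem)
    rw [c5]; ring
  · refine Finset.sup'_le _ _ fun x hx => ?_
    rw [Finset.mem_range] at hx
    have := L_concat (w := w) (D := Hs) (z := ((R : ℤ) + x, (R : ℤ) - 1))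
      (z' := ((R : ℤ) + x, (R : ℤ))) (u := ((i : ℤ) + 1, (i : ℤ) + 1))
      (v := ((n : ℤ) + 1, (n : ℤ) + 1))
      (Or.inr (by simp)) (by simp only [tm]; omega) (by simp only [tm]; omega)
      (jb_nonempty le_rfl (by simp only; omega) (by simp only; omega) (by simp only; omega))
      (jb_nonempty (by simp only; omega) le_rfl (by simp only; omega) (by simp only; omega))
    linarith

/-- The functional `Υ` on the sample space. -/
lemma jUps_eq {Ω : Type} (E : ℤ × ℤ → Ω → ℝ) (ω : Ω) (hi : i + 2 ≤ R) (hR : R ≤ n)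
    (hm : R - i ≤ n - R) :
    let w := wgt (cPhi n δ (1 / 2 - δ)) E ω
    jUps n i R δ (((fun u : Fin (n - R) => jXi i w u), (fun u : Fin (n - R) => jEta n R w u)),
        ((fun z : slabSites n i R => E z ω), jEta n R w (n - R)))
      = (jA w ((R : ℤ), (R : ℤ)) - jA w ((i : ℤ), (i : ℤ)))
        + (jB n w ((i : ℤ) + 1, (i : ℤ) + 1) - jB n w ((R : ℤ), (R : ℤ)))
        - L Hs w ((i : ℤ) + 1, (i : ℤ) + 1) ((R : ℤ), (R : ℤ)) := by
  intro w
  have hne : (Finset.Icc 1 (R - i)).Nonempty := ⟨1, by rw [Finset.mem_Icc]; omega⟩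
  rw [jb_fwd hi hne, jb_bwd hi hR]
  have e3 : L Hs w ((i : ℤ) + 1, (i : ℤ) + 1) ((R : ℤ), (R : ℤ))
      = L Hs w ((i : ℤ) + 1, (i : ℤ) + 1) ((R : ℤ), (R : ℤ) - 1) + w (R, R) :=
    L_rec_down RD_Hs (by simp [Hs]) (by simp [Hs]) (by simp only; omega) (by simp only; omega)
      (Or.inr (by simp [Hs]))
  rw [e3]
  unfold jUps
  rw [dif_pos hne]
  have s1 : (Finset.Icc 1 (R - i)).sup' hne (fun x : ℕ =>
        jSum (fun u : Fin (n - R) => jXi i w u) x
        + L Hs (jSlabW n i R δ (fun z => E z ω)) ((i : ℤ) + x, (i : ℤ) + 1) ((R : ℤ), (R : ℤ) - 1))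
      = (Finset.Icc 1 (R - i)).sup' hne (fun x : ℕ =>
        (jA w ((i : ℤ) + x, (i : ℤ)) - jA w ((i : ℤ), (i : ℤ)))
        + L Hs w ((i : ℤ) + x, (i : ℤ) + 1) ((R : ℤ), (R : ℤ) - 1)) := by
    refine Finset.sup'_congr hne rfl fun x hx => ?_
    rw [Finset.mem_Icc] at hx
    rw [jSum_coe (fun u => jXi i w u) (by omega : x ≤ n - R), jXi_sum,
      jb_slab_congr E ω Hs (by simp only; omega) (by simp only; omega) le_rfl le_rfl]
  have s2 : (Finset.range (n - R + 2)).sup' ⟨0, by simp⟩ (fun y : ℕ =>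
        L Hs (jSlabW n i R δ (fun z => E z ω)) ((i : ℤ) + 1, (i : ℤ) + 1) ((R : ℤ) + y, (R : ℤ) - 1)
          - (jSum (fun u : Fin (n - R) => jEta n R w u) y
            + if y = n - R + 1 then jEta n R w (n - R) else 0))
      = (Finset.range (n - R + 2)).sup' ⟨0, by simp⟩ (fun y : ℕ =>
        L Hs w ((i : ℤ) + 1, (i : ℤ) + 1) ((R : ℤ) + y, (R : ℤ) - 1)
          - (jB n w ((R : ℤ), (R : ℤ)) - jB n w ((R : ℤ) + y, (R : ℤ)))) := by
    refine Finset.sup'_congr _ rfl fun y hy => ?_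
    rw [Finset.mem_range] at hy
    rw [jb_slab_congr E ω Hs (by simp only; omega) (by simp only; omega) le_rfl le_rfl]
    congr 1
    by_cases hy2 : y = n - R + 1
    · rw [if_pos hy2]
      have e4 : jSum (fun u : Fin (n - R) => jEta n R w u) y
          = ∑ u ∈ Finset.range (n - R), jEta n R w u := by
        rw [← jSum_coe (fun u => jEta n R w u) (le_refl (n - R))]
        unfold jSum
        congr 1
        ext j
        simp only [Finset.mem_filter, Finset.mem_univ, true_and]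
        have := j.2
        omega
      rw [e4, ← Finset.sum_range_succ, jEta_sum, hy2]
    · rw [if_neg hy2, add_zero, jSum_coe (fun u => jEta n R w u) (by omega : y ≤ n - R), jEta_sum]
  have s3 : L Hs (jSlabW n i R δ (fun z => E z ω)) ((i : ℤ) + 1, (i : ℤ) + 1) ((R : ℤ), (R : ℤ) - 1)
      = L Hs w ((i : ℤ) + 1, (i : ℤ) + 1) ((R : ℤ), (R : ℤ) - 1) :=
    jb_slab_congr E ω Hs (by simp only; omega) (by simp only; omega) le_rfl le_rfl
  simp only
  rw [s1, s2, s3]
  ring

/-- The gain is bounded by the functional on the canonical space. -/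
lemma jZ_bound {Ω : Type} (E : ℤ × ℤ → Ω → ℝ) (ω : Ω) (hi : i + 2 ≤ R) (hR : R ≤ n)
    (hm : R - i ≤ n - R) (h2 : 2 ≤ n - R) :
    let w := wgt (cPhi n δ (1 / 2 - δ)) E ω
    Zb n i R w ≤ jZ n i R δ (((fun u : Fin (n - R) => jXi i w u),
        (fun u : Fin (n - R) => jEta n R w u)),
        ((fun z : slabSites n i R => E z ω), jEta n R w (n - R))) := by
  intro w
  rcases le_or_gt (Zb n i R w) 0 with h0 | h0
  · exact h0.trans (le_max_left _ _)
  · have hne : (Finset.Icc 2 (n - R)).Nonempty := ⟨2, by rw [Finset.mem_Icc]; omega⟩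
    unfold jZ
    rw [dif_pos hne]
    refine le_trans ?_ (le_max_right _ _)
    refine Finset.le_inf' hne _ fun x hx => ?_
    rw [Finset.mem_Icc] at hx
    have e1 := jUps_eq (δ := δ) E ω hi hR hm
    simp only at e1
    rw [e1]
    simp only
    rw [jSum_coe (fun u => jXi i w u) hx.2, jSum_coe (fun u => jEta n R w u) hx.2, jXi_sum,
      jEta_sum]
    have e2 : jT n i R δ x ((fun z : slabSites n i R => E z ω), jEta n R w (n - R))
        = L St w ((i : ℤ) + x, (i : ℤ) + 1) ((R : ℤ) + x, (R : ℤ) - 1) :=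
      jb_slab_congr E ω St (by simp only; omega) (by simp only; omega) le_rfl le_rfl
    rw [e2]
    have u1 := jb_upper (by omega : i + 1 ≤ R) hR h0
    have u2 := jb_lower (x := x) hi hx.1 (by omega : R + x ≤ n) w
    unfold jA jB Zb at *
    linarith

end

end Pool.Agent.H374
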