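import Pool.Agent.H374.JBa

/-!
# Statements of the remaining pieces of the block estimate
-/

set_option autoImplicit false
open MeasureTheory ProbabilityTheory

namespace Pool.Agent.H374

/-- The canonical point of the sample space. -/
noncomputable def jMap {Ω : Type} (n i R : ℕ) (δ : ℝ) (E : ℤ × ℤ → Ω → ℝ) (ω : Ω) :
    ((Fin (n - R) → ℝ) × (Fin (n - R) → ℝ)) × ((slabSites n i R → ℝ) × ℝ) :=
  (((fun u : Fin (n - R) => jXi i (wgt (cPhi n δ (1 / 2 - δ)) E ω) u),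
    (fun u : Fin (n - R) => jEta n R (wgt (cPhi n δ (1 / 2 - δ)) E ω) u)),
   ((fun z : slabSites n i R => E z ω),
     jEta n R (wgt (cPhi n δ (1 / 2 - δ)) E ω) (n - R)))

/-- Crude eighth moment of the bound `jZ`. -/
def JMom : Prop := ∃ C > 0, ∀ (Ω : Type) [MeasurableSpace Ω] (P : Measure Ω) (E : ℤ × ℤ → Ω → ℝ),
  Env P E → ∀ n i R : ℕ, i + 2 ≤ R → R ≤ n → R - i ≤ n - R → 2 ≤ n - R → ∀ δ : ℝ, |δ| ≤ 1 / 4 →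
  Integrable (fun ω => (jZ n i R δ (jMap n i R δ E ω)) ^ 8) P ∧
    ∫ ω, (jZ n i R δ (jMap n i R δ E ω)) ^ 8 ∂P ≤ C * (n : ℝ) ^ 16

/-- Tail of `Υ`. -/
def JUpsTail : Prop := ∃ κ > 0, ∃ C > 0,
  ∀ (Ω : Type) [MeasurableSpace Ω] (P : Measure Ω) (E : ℤ × ℤ → Ω → ℝ), Env P E →
  ∀ n i R : ℕ, i + 2 ≤ R → R ≤ n → R - i ≤ n - R → ∀ δ : ℝ, 0 < δ → δ ≤ 1 / 4 →
  δ ≤ κ * ((R : ℝ) - i) ^ (-(1 : ℝ) / 3) → ∀ θ : ℝ, 0 ≤ θ →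
  P.real {ω | 4 * ((R : ℝ) - i) + θ * ((R : ℝ) - i) ^ ((1 : ℝ) / 3) ≤ jUps n i R δ (jMap n i R δ E ω)}
    ≤ C * Real.exp (-θ / C)

/-- Tail of `T`. -/
def JTTail : Prop := ∃ C > 0,
  ∀ (Ω : Type) [MeasurableSpace Ω] (P : Measure Ω) (E : ℤ × ℤ → Ω → ℝ), Env P E →
  ∀ n i R x : ℕ, i + 2 ≤ R → 2 ≤ x → R + x ≤ n → ∀ δ : ℝ, |δ| ≤ 1 / 4 → ∀ θ : ℝ, 0 ≤ θ →
  P.real {ω | jT n i R δ x (jMap n i R δ E ω).2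
      ≤ 4 * ((R : ℝ) - i) - θ * ((R : ℝ) - i) ^ ((1 : ℝ) / 3)}
    ≤ C * (Real.exp (-θ / C) + Real.exp (-((x : ℝ) * ((R : ℝ) - i) ^ (-(2 : ℝ) / 3)) / C))

end Pool.Agent.H374
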