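import Pool.Agent.H374.Det

/-!
# The functional `Φ` and the block gain: deterministic part (paper 1.7)
-/

set_option autoImplicit false
open MeasureTheory ProbabilityTheory

namespace Pool.Agent.H374

lemma jb_nonempty {u v : ℤ × ℤ} (hu : u.2 ≤ u.1) (hv : v.2 ≤ v.1) (h1 : u.1 ≤ v.1)
    (h2 : u.2 ≤ v.2) : (Path Hs u v).Nonempty := path_nonempty RD_Hs hu hv h1 h2

lemma jb_zero_le {i R : ℕ} {w : ℤ × ℤ → ℝ}
    (hw : ∀ c : ℤ, (i : ℤ) < c → c ≤ R → 0 ≤ w (c, c)) (z : ℤ × ℤ) : zeroB i R w z ≤ w z := by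
  unfold zeroB
  split_ifs with h
  · have e : z = (z.1, z.1) := by ext <;> simp [h.1]
    rw [e]; exact hw _ h.2.1 h.2.2
  · exact le_rfl

lemma jb_zero_eq {i R : ℕ} {w : ℤ × ℤ → ℝ} {x : ℤ → ℤ} {k : ℤ}
    (h : ∀ c : ℤ, (i : ℤ) < c → c ≤ R → x (2 * c) ≠ c ∨ k ≠ 2 * c) :
    zeroB i R w (vert x k) = w (vert x k) := by
  unfold zeroB
  rw [if_neg]
  rintro ⟨h1, h2, h3⟩
  simp only [vert] at h1 h2 h3
  have e : k = 2 * x k := by omega
  rcases h (x k) h2 h3 with h4 | h4
  · exact h4 (by rw [← e])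
  · exact h4 e

/-- Termwise comparison of two pairs of path sums over the same times. -/
lemma jb_termwise {w₁ w₂ w₃ w₄ : ℤ × ℤ → ℝ} {x₁ x₂ x₃ x₄ : ℤ → ℤ} {s t : ℤ}
    (h : ∀ k, s ≤ k → k ≤ t →
      w₁ (vert x₁ k) + w₂ (vert x₂ k) ≤ w₃ (vert x₃ k) + w₄ (vert x₄ k)) :
    wsum w₁ x₁ s t + wsum w₂ x₂ s t ≤ wsum w₃ x₃ s t + wsum w₄ x₄ s t := by
  unfold wsum
  rw [← Finset.sum_add_distrib, ← Finset.sum_add_distrib]
  refine Finset.sum_le_sum fun k hk => ?_
  rw [Finset.mem_Icc] at hk
  exact h k hk.1 hk.2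

lemma jb_diag {x : ℤ → ℤ} {k : ℤ} {u v : ℤ × ℤ} (hx : x ∈ Path Hs u v) (h1 : tm u ≤ k)
    (h2 : k ≤ tm v) : k ≤ 2 * x k := p_two_mul_ge hx h1 h2

/-- Supermodularity, changes below the block. -/
lemma jb_super_below {n i R : ℕ} (hR : R ≤ n) {w w' : ℤ × ℤ → ℝ}
    (hb : ∀ c : ℤ, (i : ℤ) < c → c ≤ R → 0 ≤ w' (c, c))
    (hoff : ∀ z : ℤ × ℤ, ¬ (z.1 = z.2 ∧ 0 < z.1 ∧ z.1 ≤ i) → w z = w' z)
    (hle : ∀ z, w z ≤ w' z) :
    Phi n w + Phi n (zeroB i R w') ≤ Phi n w' + Phi n (zeroB i R w) := by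
  have hne : (Path Hs (0, 0) ((n : ℤ) + 1, (n : ℤ) + 1)).Nonempty :=
    jb_nonempty le_rfl le_rfl (by simp only; omega) (by simp only; omega)
  have t0 : tm ((0 : ℤ), (0 : ℤ)) = 0 := rfl
  have t1 : tm ((n : ℤ) + 1, (n : ℤ) + 1) = 2 * n + 2 := by simp only [tm]; ring
  obtain ⟨p, hp, hpe⟩ := exists_L w hne
  obtain ⟨q, hq, hqe⟩ := exists_L (zeroB i R w') hne
  have zle : ∀ z, zeroB i R w' z ≤ w' z := jb_zero_le hb
  by_cases hpb : ∃ c : ℤ, (i : ℤ) < c ∧ c ≤ R ∧ p (2 * c) = c
  · by_cases hqb : ∃ c : ℤ, 0 < c ∧ c ≤ i ∧ q (2 * c) = c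
    · -- first touch of `b` by `p`, last touch below by `q`
      classical
      obtain ⟨b0, hb0, hb0min⟩ := Finset.exists_min_image
        ((Finset.Ioc (i : ℤ) R).filter (fun c => p (2 * c) = c)) id (by
          obtain ⟨c, h1, h2, h3⟩ := hpb
          exact ⟨c, by simp [h1, h2, h3]⟩)
      obtain ⟨c0, hc0, hc0max⟩ := Finset.exists_max_image
        ((Finset.Ioc (0 : ℤ) i).filter (fun c => q (2 * c) = c)) id (by
          obtain ⟨c, h1, h2, h3⟩ := hqb
          exact ⟨c, by simp [h1, h2, h3]⟩)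
      simp only [Finset.mem_filter, Finset.mem_Ioc, id_eq] at hb0 hc0 hb0min hc0max
      have g1 : 2 * c0 ≤ 2 * p (2 * c0) := jb_diag hp (by rw [t0]; omega) (by rw [t1]; omega)
      have g2 : 2 * b0 ≤ 2 * q (2 * b0) := jb_diag hq (by rw [t0]; omega) (by rw [t1]; omega)
      obtain ⟨r, r1, r2, r3⟩ := meet hq.1 hp.1 (by omega : 2 * c0 ≤ 2 * b0) (by omega) (by omega)
      have m1 := splice_mem hq hp (r := r) r3 (by rw [t0]; omega) (by rw [t1]; omega)
        (by rw [t0]; omega) (by rw [t1]; omega)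
      have m2 := splice_mem hp hq (r := r) r3.symm (by rw [t0]; omega) (by rw [t1]; omega)
        (by rw [t0]; omega) (by rw [t1]; omega)
      have l1 := le_L (w := w') m1
      have l2 := le_L (w := zeroB i R w) m2
      have key : wsum w p 0 (2 * n + 2) + wsum (zeroB i R w') q 0 (2 * n + 2)
          ≤ wsum w' (splice q p r) 0 (2 * n + 2) + wsum (zeroB i R w) (splice p q r) 0 (2 * n + 2) := by
        refine jb_termwise fun k k1 k2 => ?_
        rcases lt_or_ge k r with hk | hk
        · have e1 : vert (splice q p r) k = vert q k := by simp only [vert, splice_lt hk]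
          have e2 : vert (splice p q r) k = vert p k := by simp only [vert, splice_lt hk]
          rw [e1, e2]
          have e3 : zeroB i R w (vert p k) = w (vert p k) := by
            refine jb_zero_eq fun c hc1 hc2 => ?_
            by_contra hcon
            rw [not_or, not_not, not_not] at hcon
            have := hb0min c ⟨⟨hc1, hc2⟩, hcon.1⟩
            omega
          rw [e3]
          have := zle (vert q k)
          linarith
        · have e1 : vert (splice q p r) k = vert p k := by simp only [vert, splice_ge hk]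
          have e2 : vert (splice p q r) k = vert q k := by simp only [vert, splice_ge hk]
          rw [e1, e2]
          by_cases hd : (vert q k).1 = (vert q k).2 ∧ 0 < (vert q k).1 ∧ (vert q k).1 ≤ i
          · -- then k = r is a common vertex
            have hd' := hd
            simp only [vert] at hd'
            have hk2 : k = 2 * q k := by omega
            have hqk : q (2 * q k) = q k := by rw [← hk2]
            have := hc0max (q k) ⟨⟨hd'.2.1, hd'.2.2⟩, hqk⟩
            have hkr : k = r := by omega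
            subst hkr
            have e4 : vert q k = vert p k := by simp only [vert, r3]
            rw [e4] at hd
            rw [e4]
            have hnb : ∀ f : ℤ × ℤ → ℝ, zeroB i R f (vert p k) = f (vert p k) := by
              intro f
              unfold zeroB
              rw [if_neg]
              rintro ⟨_, h5, _⟩
              omega
            rw [hnb, hnb]
            linarith
          · have e5 : zeroB i R w (vert q k) = zeroB i R w' (vert q k) := by
              unfold zeroB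
              split_ifs with h6
              · rfl
              · exact hoff _ hd
            rw [e5]
            have := hle (vert p k)
            linarith
      unfold Phi
      rw [hpe, hqe, t0, t1]
      rw [t0, t1] at l1 l2
      linarith
    · -- `q` does not touch below the block
      have e : wsum (zeroB i R w') q (tm (0, 0)) (tm ((n : ℤ) + 1, (n : ℤ) + 1))
          = wsum (zeroB i R w) q (tm (0, 0)) (tm ((n : ℤ) + 1, (n : ℤ) + 1)) := by
        refine wsum_congr fun k _ _ => ?_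
        unfold zeroB
        split_ifs with h6
        · rfl
        · refine (hoff _ fun hd => hqb ?_).symm
          simp only [vert] at hd
          refine ⟨q k, hd.2.1, hd.2.2, ?_⟩
          have hk2 : k = 2 * q k := by omega
          rw [← hk2]
      have l1 := le_L (w := zeroB i R w) hq
      have l2 : Phi n w ≤ Phi n w' := L_mono fun z _ _ => hle z
      unfold Phi at *
      rw [hqe, e]
      linarith
  · -- `p` does not touch the block
    have e : wsum w p (tm (0, 0)) (tm ((n : ℤ) + 1, (n : ℤ) + 1))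
        = wsum (zeroB i R w) p (tm (0, 0)) (tm ((n : ℤ) + 1, (n : ℤ) + 1)) := by
      refine wsum_congr fun k _ _ => ?_
      refine (jb_zero_eq fun c hc1 hc2 => ?_).symm
      left
      intro h
      exact hpb ⟨c, hc1, hc2, h⟩
    have l1 := le_L (w := zeroB i R w) hp
    have l2 : Phi n (zeroB i R w') ≤ Phi n w' := L_mono fun z _ _ => zle z
    unfold Phi at *
    rw [hpe, e]
    linarith

/-- Supermodularity, changes above the block. -/
lemma jb_super_above {n i R : ℕ} {w w' : ℤ × ℤ → ℝ}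
    (hb : ∀ c : ℤ, (i : ℤ) < c → c ≤ R → 0 ≤ w' (c, c))
    (hoff : ∀ z : ℤ × ℤ, ¬ (z.1 = z.2 ∧ (R : ℤ) < z.1 ∧ z.1 ≤ n) → w z = w' z)
    (hle : ∀ z, w z ≤ w' z) :
    Phi n w + Phi n (zeroB i R w') ≤ Phi n w' + Phi n (zeroB i R w) := by
  have hne : (Path Hs (0, 0) ((n : ℤ) + 1, (n : ℤ) + 1)).Nonempty :=
    jb_nonempty le_rfl le_rfl (by simp only; omega) (by simp only; omega)
  have t0 : tm ((0 : ℤ), (0 : ℤ)) = 0 := rfl
  have t1 : tm ((n : ℤ) + 1, (n : ℤ) + 1) = 2 * n + 2 := by simp only [tm]; ring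
  obtain ⟨p, hp, hpe⟩ := exists_L w hne
  obtain ⟨q, hq, hqe⟩ := exists_L (zeroB i R w') hne
  have zle : ∀ z, zeroB i R w' z ≤ w' z := jb_zero_le hb
  by_cases hpb : ∃ c : ℤ, (i : ℤ) < c ∧ c ≤ R ∧ p (2 * c) = c
  · by_cases hqb : ∃ c : ℤ, (R : ℤ) < c ∧ c ≤ n ∧ q (2 * c) = c
    · classical
      obtain ⟨b0, hb0, hb0max⟩ := Finset.exists_max_image
        ((Finset.Ioc (i : ℤ) R).filter (fun c => p (2 * c) = c)) id (by
          obtain ⟨c, h1, h2, h3⟩ := hpb
          exact ⟨c, by simp [h1, h2, h3]⟩)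
      obtain ⟨c0, hc0, hc0min⟩ := Finset.exists_min_image
        ((Finset.Ioc (R : ℤ) n).filter (fun c => q (2 * c) = c)) id (by
          obtain ⟨c, h1, h2, h3⟩ := hqb
          exact ⟨c, by simp [h1, h2, h3]⟩)
      simp only [Finset.mem_filter, Finset.mem_Ioc, id_eq] at hb0 hc0 hb0max hc0min
      have g1 : 2 * c0 ≤ 2 * p (2 * c0) := jb_diag hp (by rw [t0]; omega) (by rw [t1]; omega)
      have g2 : 2 * b0 ≤ 2 * q (2 * b0) := jb_diag hq (by rw [t0]; omega) (by rw [t1]; omega)
      obtain ⟨r, r1, r2, r3⟩ := meet hp.1 hq.1 (by omega : 2 * b0 ≤ 2 * c0) (by omega) (by omega)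
      have m1 := splice_mem hp hq (r := r) r3 (by rw [t0]; omega) (by rw [t1]; omega)
        (by rw [t0]; omega) (by rw [t1]; omega)
      have m2 := splice_mem hq hp (r := r) r3.symm (by rw [t0]; omega) (by rw [t1]; omega)
        (by rw [t0]; omega) (by rw [t1]; omega)
      have l1 := le_L (w := w') m1
      have l2 := le_L (w := zeroB i R w) m2
      have key : wsum w p 0 (2 * n + 2) + wsum (zeroB i R w') q 0 (2 * n + 2)
          ≤ wsum w' (splice p q r) 0 (2 * n + 2) + wsum (zeroB i R w) (splice q p r) 0 (2 * n + 2) := by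
        refine jb_termwise fun k k1 k2 => ?_
        rcases lt_or_ge k r with hk | hk
        · have e1 : vert (splice p q r) k = vert p k := by simp only [vert, splice_lt hk]
          have e2 : vert (splice q p r) k = vert q k := by simp only [vert, splice_lt hk]
          rw [e1, e2]
          have hd : ¬ ((vert q k).1 = (vert q k).2 ∧ (R : ℤ) < (vert q k).1 ∧ (vert q k).1 ≤ n) := by
            intro hd
            simp only [vert] at hd
            have hk2 : k = 2 * q k := by omega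
            have hqk : q (2 * q k) = q k := by rw [← hk2]
            have := hc0min (q k) ⟨⟨hd.2.1, hd.2.2⟩, hqk⟩
            omega
          have e5 : zeroB i R w (vert q k) = zeroB i R w' (vert q k) := by
            unfold zeroB
            split_ifs with h6
            · rfl
            · exact hoff _ hd
          rw [e5]
          have := hle (vert p k)
          linarith
        · have e1 : vert (splice p q r) k = vert q k := by simp only [vert, splice_ge hk]
          have e2 : vert (splice q p r) k = vert p k := by simp only [vert, splice_ge hk]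
          rw [e1, e2]
          by_cases hd : (vert p k).1 = (vert p k).2 ∧ (i : ℤ) < (vert p k).1 ∧ (vert p k).1 ≤ R
          · have hd' := hd
            simp only [vert] at hd'
            have hk2 : k = 2 * p k := by omega
            have hpk : p (2 * p k) = p k := by rw [← hk2]
            have := hb0max (p k) ⟨⟨hd'.2.1, hd'.2.2⟩, hpk⟩
            have hkr : k = r := by omega
            subst hkr
            have e4 : vert q k = vert p k := by simp only [vert, r3]
            rw [e4]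
            have hz : ∀ f : ℤ × ℤ → ℝ, zeroB i R f (vert p k) = 0 := by
              intro f; unfold zeroB; rw [if_pos hd]
            rw [hz, hz]
            have := hle (vert p k)
            linarith
          · have e3 : zeroB i R w (vert p k) = w (vert p k) := by
              unfold zeroB; rw [if_neg hd]
            rw [e3]
            have := zle (vert q k)
            linarith
      unfold Phi
      rw [hpe, hqe, t0, t1]
      rw [t0, t1] at l1 l2
      linarith
    · have e : wsum (zeroB i R w') q (tm (0, 0)) (tm ((n : ℤ) + 1, (n : ℤ) + 1))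
          = wsum (zeroB i R w) q (tm (0, 0)) (tm ((n : ℤ) + 1, (n : ℤ) + 1)) := by
        refine wsum_congr fun k _ _ => ?_
        unfold zeroB
        split_ifs with h6
        · rfl
        · refine (hoff _ fun hd => hqb ?_).symm
          simp only [vert] at hd
          refine ⟨q k, hd.2.1, hd.2.2, ?_⟩
          have hk2 : k = 2 * q k := by omega
          rw [← hk2]
      have l1 := le_L (w := zeroB i R w) hq
      have l2 : Phi n w ≤ Phi n w' := L_mono fun z _ _ => hle z
      unfold Phi at *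
      rw [hqe, e]
      linarith
  · have e : wsum w p (tm (0, 0)) (tm ((n : ℤ) + 1, (n : ℤ) + 1))
        = wsum (zeroB i R w) p (tm (0, 0)) (tm ((n : ℤ) + 1, (n : ℤ) + 1)) := by
      refine wsum_congr fun k _ _ => ?_
      refine (jb_zero_eq fun c hc1 hc2 => ?_).symm
      left
      intro h
      exact hpb ⟨c, hc1, hc2, h⟩
    have l1 := le_L (w := zeroB i R w) hp
    have l2 : Phi n (zeroB i R w') ≤ Phi n w' := L_mono fun z _ _ => zle z
    unfold Phi at *
    rw [hpe, e]
    linarith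

/-- (1.7 c) The gain of a block is nondecreasing in the diagonal weights. -/
lemma jb_Zb_mono {n i R : ℕ} (hR : R ≤ n) {w w' : ℤ × ℤ → ℝ}
    (h0 : ∀ c : ℤ, 0 < c → c ≤ n → 0 ≤ w (c, c))
    (hoff : ∀ z : ℤ × ℤ, ¬ (z.1 = z.2 ∧ 0 < z.1 ∧ z.1 ≤ n) → w z = w' z)
    (hle : ∀ z, w z ≤ w' z) : Zb n i R w ≤ Zb n i R w' := by
  classical
  let w1 : ℤ × ℤ → ℝ := fun z => if z.1 = z.2 ∧ 0 < z.1 ∧ z.1 ≤ i then w' z else w z
  let w2 : ℤ × ℤ → ℝ := fun z => if z.1 = z.2 ∧ (R : ℤ) < z.1 ∧ z.1 ≤ n then w' z else w1 z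
  have a1 : ∀ z, w z ≤ w1 z := by
    intro z; simp only [w1]; split_ifs; exacts [hle z, le_rfl]
  have a1' : ∀ z, w1 z ≤ w' z := by
    intro z; simp only [w1]; split_ifs; exacts [le_rfl, hle z]
  have a2 : ∀ z, w1 z ≤ w2 z := by
    intro z; simp only [w2]; split_ifs; exacts [a1' z, le_rfl]
  have a3 : ∀ z, w2 z ≤ w' z := by
    intro z; simp only [w2]; split_ifs; exacts [le_rfl, a1' z]
  have b0 : ∀ c : ℤ, (i : ℤ) < c → c ≤ R → 0 ≤ w (c, c) := fun c h1 h2 =>
    h0 c (by omega) (by omega)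
  have s1 := jb_super_below (n := n) (i := i) (R := R) hR (w := w) (w' := w1)
    (fun c h1 h2 => (b0 c h1 h2).trans (a1 _)) (by
      intro z hz; simp only [w1]; rw [if_neg hz]) a1
  have s2 := jb_super_above (n := n) (i := i) (R := R) (w := w1) (w' := w2)
    (fun c h1 h2 => ((b0 c h1 h2).trans (a1 _)).trans (a2 _)) (by
      intro z hz; simp only [w2]; rw [if_neg hz]) a2
  have s3 : Phi n w2 ≤ Phi n w' := L_mono fun z _ _ => a3 z
  have s4 : zeroB i R w2 = zeroB i R w' := by
    funext z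
    unfold zeroB
    split_ifs with h6
    · rfl
    · simp only [w2, w1]
      split_ifs with h7 h8
      · rfl
      · rfl
      · refine hoff z ?_
        rintro ⟨c1, c2, c3⟩
        rcases le_or_gt z.1 i with h9 | h9
        · exact h8 ⟨c1, c2, h9⟩
        · rcases le_or_gt z.1 R with h10 | h10
          · exact h6 ⟨c1, h9, h10⟩
          · exact h7 ⟨c1, h10, c3⟩
  unfold Zb
  rw [s4] at s2
  linarith

lemma jb_Zb_nonneg {n i R : ℕ} {w : ℤ × ℤ → ℝ}
    (h0 : ∀ c : ℤ, (i : ℤ) < c → c ≤ R → 0 ≤ w (c, c)) : 0 ≤ Zb n i R w := by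
  unfold Zb
  have : Phi n (zeroB i R w) ≤ Phi n w := L_mono fun z _ _ => jb_zero_le h0 z
  linarith

/-- (1.7 a,b) -/
lemma jb_upper {n i R : ℕ} (hi : i + 1 ≤ R) (hR : R ≤ n) {w : ℤ × ℤ → ℝ} (hZ : 0 < Zb n i R w) :
    Phi n w + L Hs w ((i : ℤ) + 1, (i : ℤ) + 1) (R, R)
      ≤ L Hs w (0, 0) (R, R) + L Hs w ((i : ℤ) + 1, (i : ℤ) + 1) ((n : ℤ) + 1, (n : ℤ) + 1) := by
  have hne : (Path Hs (0, 0) ((n : ℤ) + 1, (n : ℤ) + 1)).Nonempty :=
    jb_nonempty le_rfl le_rfl (by simp only; omega) (by simp only; omega)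
  obtain ⟨p, hp, hpe⟩ := exists_L w hne
  have hpb : ∃ c : ℤ, (i : ℤ) < c ∧ c ≤ R ∧ p (2 * c) = c := by
    by_contra hpb
    have e : wsum w p (tm (0, 0)) (tm ((n : ℤ) + 1, (n : ℤ) + 1))
        = wsum (zeroB i R w) p (tm (0, 0)) (tm ((n : ℤ) + 1, (n : ℤ) + 1)) := by
      refine wsum_congr fun k _ _ => ?_
      refine (jb_zero_eq fun c hc1 hc2 => ?_).symm
      left
      intro h
      exact hpb ⟨c, hc1, hc2, h⟩
    have l1 := le_L (w := zeroB i R w) hp
    unfold Zb Phi at hZ
    rw [hpe, e] at hZ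
    linarith
  obtain ⟨c, c1, c2, c3⟩ := hpb
  obtain ⟨q, hq, hqe⟩ := exists_L w
    (jb_nonempty (u := ((i : ℤ) + 1, (i : ℤ) + 1)) (v := ((R : ℤ), (R : ℤ))) le_rfl le_rfl
      (by simp only; omega) (by simp only; omega))
  have t0 : tm ((0 : ℤ), (0 : ℤ)) = 0 := rfl
  have t1 : tm ((n : ℤ) + 1, (n : ℤ) + 1) = 2 * n + 2 := by simp only [tm]; ring
  have t2 : tm ((i : ℤ) + 1, (i : ℤ) + 1) = 2 * i + 2 := by simp only [tm]; ring
  have t3 : tm ((R : ℤ), (R : ℤ)) = 2 * R := by simp only [tm]; ring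
  have g1 : (2 * i + 2 : ℤ) ≤ 2 * p (2 * i + 2) :=
    jb_diag hp (by rw [t0]; omega) (by rw [t1]; omega)
  have g2 : 2 * c ≤ 2 * q (2 * c) := jb_diag hq (by rw [t2]; omega) (by rw [t3]; omega)
  have g3 : q (2 * i + 2) = i + 1 := by have := hq.2.1; rwa [t2] at this
  obtain ⟨r, r1, r2, r3⟩ := meet hq.1 hp.1 (by omega : (2 * i + 2 : ℤ) ≤ 2 * c) (by omega)
    (by omega)
  have := cross w hp hq r3.symm (by rw [t0]; omega) (by rw [t1]; omega) (by rw [t2]; omega)
    (by rw [t3]; omega)
  unfold Phi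
  rw [hpe, hqe]
  linarith

/-- Lower bound for `Φ` with the block removed, through a path in the strict half-space. -/
lemma jb_lower {n i R x : ℕ} (hi : i + 2 ≤ R) (hx : 2 ≤ x) (hR : R + x ≤ n) (w : ℤ × ℤ → ℝ) :
    L Hs w (0, 0) ((i : ℤ) + x, (i : ℤ)) + L St w ((i : ℤ) + x, (i : ℤ) + 1) ((R : ℤ) + x, (R : ℤ) - 1)
      + L Hs w ((R : ℤ) + x, (R : ℤ)) ((n : ℤ) + 1, (n : ℤ) + 1) ≤ Phi n (zeroB i R w) := by
  have n1 : (Path Hs (0, 0) ((i : ℤ) + x, (i : ℤ))).Nonempty :=
    jb_nonempty le_rfl (by simp only; omega) (by simp only; omega) (by simp only; omega)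
  have n2 : (Path St ((i : ℤ) + x, (i : ℤ) + 1) ((R : ℤ) + x, (R : ℤ) - 1)).Nonempty :=
    path_nonempty RD_St (by simp only [St, Set.mem_ofPred_eq]; omega)
      (by simp only [St, Set.mem_ofPred_eq]; omega) (by simp only; omega) (by simp only; omega)
  have n2' : (Path Hs ((i : ℤ) + x, (i : ℤ) + 1) ((R : ℤ) + x, (R : ℤ) - 1)).Nonempty :=
    jb_nonempty (by simp only; omega) (by simp only; omega) (by simp only; omega)
      (by simp only; omega)
  have n3 : (Path Hs ((R : ℤ) + x, (R : ℤ)) ((n : ℤ) + 1, (n : ℤ) + 1)).Nonempty :=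
    jb_nonempty (by simp only; omega) le_rfl (by simp only; omega) (by simp only; omega)
  have n4 : (Path Hs ((i : ℤ) + x, (i : ℤ) + 1) ((n : ℤ) + 1, (n : ℤ) + 1)).Nonempty :=
    jb_nonempty (by simp only; omega) le_rfl (by simp only; omega) (by simp only; omega)
  have e1 : L Hs w (0, 0) ((i : ℤ) + x, (i : ℤ)) = L Hs (zeroB i R w) (0, 0) ((i : ℤ) + x, (i : ℤ)) := by
    refine L_congr fun z hz _ => ?_
    have := mem_rect.1 hz
    unfold zeroB
    rw [if_neg]
    rintro ⟨h1, h2, h3⟩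
    simp only at this
    omega
  have e3 : L Hs w ((R : ℤ) + x, (R : ℤ)) ((n : ℤ) + 1, (n : ℤ) + 1)
      = L Hs (zeroB i R w) ((R : ℤ) + x, (R : ℤ)) ((n : ℤ) + 1, (n : ℤ) + 1) := by
    refine L_congr fun z hz _ => ?_
    have := mem_rect.1 hz
    unfold zeroB
    rw [if_neg]
    rintro ⟨h1, h2, h3⟩
    simp only at this
    omega
  have e2 : L St w ((i : ℤ) + x, (i : ℤ) + 1) ((R : ℤ) + x, (R : ℤ) - 1)
      ≤ L Hs (zeroB i R w) ((i : ℤ) + x, (i : ℤ) + 1) ((R : ℤ) + x, (R : ℤ) - 1) := by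
    have e4 : L St w ((i : ℤ) + x, (i : ℤ) + 1) ((R : ℤ) + x, (R : ℤ) - 1)
        = L St (zeroB i R w) ((i : ℤ) + x, (i : ℤ) + 1) ((R : ℤ) + x, (R : ℤ) - 1) := by
      refine L_congr fun z _ hz => ?_
      simp only [St, Set.mem_ofPred_eq] at hz
      unfold zeroB
      rw [if_neg]
      rintro ⟨h1, h2, h3⟩
      omega
    rw [e4]
    refine L_mono_dom ?_ n2
    intro z hz
    simp only [St, Hs, Set.mem_ofPred_eq] at *
    omega
  have c1 := L_concat (w := zeroB i R w) (D := Hs) (z := ((R : ℤ) + x, (R : ℤ) - 1))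
    (z' := ((R : ℤ) + x, (R : ℤ))) (u := ((i : ℤ) + x, (i : ℤ) + 1))
    (v := ((n : ℤ) + 1, (n : ℤ) + 1)) (Or.inr (by simp)) (by simp only [tm]; omega)
    (by simp only [tm]; omega) n2' n3
  have c2 := L_concat (w := zeroB i R w) (D := Hs) (z := ((i : ℤ) + x, (i : ℤ)))
    (z' := ((i : ℤ) + x, (i : ℤ) + 1)) (u := (0, 0))
    (v := ((n : ℤ) + 1, (n : ℤ) + 1)) (Or.inr rfl) (by simp only [tm]; omega)
    (by simp only [tm]; omega) n1 n4
  unfold Phi
  rw [e1, e3]
  linarith

end Pool.Agent.H374
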