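import Pool.Agent.H374.JBb

/-!
# The block estimate: crude eighth moment
-/

set_option autoImplicit false
open MeasureTheory ProbabilityTheory

namespace Pool.Agent.H374

section
variable {n i R : ℕ} {δ : ℝ}

lemma jmom_abs_cPhi (hδ : |δ| ≤ 1 / 4) (z : ℤ × ℤ) : |cPhi n δ (1 / 2 - δ) z| ≤ 4 := by
  have h1 := abs_le.1 hδ
  have a1 : |(1 / 2 + δ)⁻¹| ≤ 4 := by
    rw [abs_of_nonneg (by apply inv_nonneg.2; linarith)]
    rw [inv_le_comm₀ (by linarith) (by norm_num)]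
    linarith
  have a2 : |(1 / 2 - δ)⁻¹| ≤ 4 := by
    rw [abs_of_nonneg (by apply inv_nonneg.2; linarith)]
    rw [inv_le_comm₀ (by linarith) (by norm_num)]
    linarith
  unfold cPhi
  split_ifs
  · norm_num
  · exact a1
  · exact a2
  · norm_num

/-- All sites. -/
noncomputable def jmomQ {Ω : Type} (n : ℕ) (E : ℤ × ℤ → Ω → ℝ) (ω : Ω) : ℝ :=
  ∑ z ∈ rect (0, 0) ((n : ℤ) + 1, (n : ℤ) + 1), |E z ω|

lemma jmom_card (n : ℕ) : (rect (0, 0) ((n : ℤ) + 1, (n : ℤ) + 1)).card = (n + 2) ^ 2 := by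
  unfold rect
  rw [Finset.card_product]
  simp only [Int.card_Icc]
  have : ((n : ℤ) + 1 + 1 - 0).toNat = n + 2 := by omega
  rw [this]; ring

lemma jmom_L {Ω : Type} (hδ : |δ| ≤ 1 / 4) (E : ℤ × ℤ → Ω → ℝ) (ω : Ω) (D : Set (ℤ × ℤ))
    {u v : ℤ × ℤ} (h1 : 0 ≤ u.1) (h2 : 0 ≤ u.2) (h3 : v.1 ≤ n + 1) (h4 : v.2 ≤ n + 1) :
    |L D (wgt (cPhi n δ (1 / 2 - δ)) E ω) u v| ≤ 4 * jmomQ n E ω := by
  refine (abs_L_le D _ u v).trans ?_
  unfold jmomQ
  rw [Finset.mul_sum]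
  refine (Finset.sum_le_sum_of_subset_of_nonneg (t := rect (0, 0) ((n : ℤ) + 1, (n : ℤ) + 1))
    ?_ fun z _ _ => abs_nonneg _).trans (Finset.sum_le_sum fun z _ => ?_)
  · intro z hz
    rw [mem_rect] at hz ⊢
    simp only
    omega
  · unfold wgt
    rw [abs_mul]
    exact mul_le_mul_of_nonneg_right (jmom_abs_cPhi hδ z) (abs_nonneg _)

lemma jmom_bound {Ω : Type} (hδ : |δ| ≤ 1 / 4) (E : ℤ × ℤ → Ω → ℝ) (ω : Ω) (hi : i + 2 ≤ R)
    (hR : R ≤ n) (hm : R - i ≤ n - R) (h2 : 2 ≤ n - R) :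
    jZ n i R δ (jMap n i R δ E ω) ≤ 40 * jmomQ n E ω := by
  have hQ : 0 ≤ jmomQ n E ω := Finset.sum_nonneg fun z _ => abs_nonneg _
  have hne : (Finset.Icc 2 (n - R)).Nonempty := ⟨2, by rw [Finset.mem_Icc]; omega⟩
  unfold jZ
  rw [dif_pos hne]
  refine max_le (by positivity) ?_
  refine (Finset.inf'_le (b := 2) _ (by rw [Finset.mem_Icc]; omega)).trans ?_
  have e1 := jUps_eq (δ := δ) E ω hi hR hm
  simp only at e1
  unfold jMap
  rw [e1]
  simp only
  rw [jSum_coe (fun u => jXi i (wgt (cPhi n δ (1 / 2 - δ)) E ω) u) h2,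
    jSum_coe (fun u => jEta n R (wgt (cPhi n δ (1 / 2 - δ)) E ω) u) h2, jXi_sum, jEta_sum]
  have e2 : jT n i R δ 2 ((fun z : slabSites n i R => E z ω),
        jEta n R (wgt (cPhi n δ (1 / 2 - δ)) E ω) (n - R))
      = L St (wgt (cPhi n δ (1 / 2 - δ)) E ω) ((i : ℤ) + (2 : ℕ), (i : ℤ) + 1)
          ((R : ℤ) + (2 : ℕ), (R : ℤ) - 1) :=
    jb_slab_congr E ω St (by simp only; omega) (by simp only; omega) le_rfl le_rfl
  rw [e2]
  unfold jA jB
  have b1 := abs_le.1 (jmom_L (n := n) hδ E ω Hs (u := (0, 0)) (v := ((R : ℤ), (R : ℤ)))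
    le_rfl le_rfl (by simp only; omega) (by simp only; omega))
  have b2 := abs_le.1 (jmom_L (n := n) hδ E ω Hs (u := (0, 0)) (v := ((i : ℤ), (i : ℤ)))
    le_rfl le_rfl (by simp only; omega) (by simp only; omega))
  have b3 := abs_le.1 (jmom_L (n := n) hδ E ω Hs (u := ((i : ℤ) + 1, (i : ℤ) + 1))
    (v := ((n : ℤ) + 1, (n : ℤ) + 1)) (by simp only; omega) (by simp only; omega) le_rfl le_rfl)
  have b4 := abs_le.1 (jmom_L (n := n) hδ E ω Hs (u := ((R : ℤ), (R : ℤ)))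
    (v := ((n : ℤ) + 1, (n : ℤ) + 1)) (by simp only; omega) (by simp only; omega) le_rfl le_rfl)
  have b5 := abs_le.1 (jmom_L (n := n) hδ E ω Hs (u := ((i : ℤ) + 1, (i : ℤ) + 1))
    (v := ((R : ℤ), (R : ℤ))) (by simp only; omega) (by simp only; omega)
    (by simp only; omega) (by simp only; omega))
  have b6 := abs_le.1 (jmom_L (n := n) hδ E ω Hs (u := (0, 0))
    (v := ((i : ℤ) + (2 : ℕ), (i : ℤ)))
    le_rfl le_rfl (by simp only; omega) (by simp only; omega))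
  have b7 := abs_le.1 (jmom_L (n := n) hδ E ω Hs (u := ((R : ℤ) + (2 : ℕ), (R : ℤ)))
    (v := ((n : ℤ) + 1, (n : ℤ) + 1)) (by simp only; omega) (by simp only; omega) le_rfl le_rfl)
  have b8 := abs_le.1 (jmom_L (n := n) hδ E ω St (u := ((i : ℤ) + (2 : ℕ), (i : ℤ) + 1))
    (v := ((R : ℤ) + (2 : ℕ), (R : ℤ) - 1)) (by simp only; omega) (by simp only; omega)
    (by simp only; omega) (by simp only; omega))
  linarith [b1.1, b1.2, b2.1, b2.2, b3.1, b3.2, b4.1, b4.2, b5.1, b5.2, b6.1, b6.2, b7.1, b7.2,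
    b8.1, b8.2]

lemma measurable_jMap {Ω : Type} [MeasurableSpace Ω] {P : Measure Ω} {E : ℤ × ℤ → Ω → ℝ}
    (h : Env P E) (n i R : ℕ) (δ : ℝ) : Measurable (jMap n i R δ E) := by
  have hL : ∀ (D : Set (ℤ × ℤ)) (u v : ℤ × ℤ), Measurable
      (fun ω => L D (wgt (cPhi n δ (1 / 2 - δ)) E ω) u v) := fun D u v =>
    measurable_L (W := fun ω => wgt (cPhi n δ (1 / 2 - δ)) E ω) (fun z => measurable_wgt h _ z) D u v
  unfold jMap
  refine Measurable.prodMk (Measurable.prodMk ?_ ?_) (Measurable.prodMk ?_ ?_)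
  · refine measurable_pi_lambda _ fun u => ?_
    exact (hL _ _ _).sub (hL _ _ _)
  · refine measurable_pi_lambda _ fun u => ?_
    exact (hL _ _ _).sub (hL _ _ _)
  · exact measurable_pi_lambda _ fun z => h.meas z
  · exact (hL _ _ _).sub (hL _ _ _)

end

/-- Crude eighth moment of the bound `jZ`. -/
theorem t_JMom : JMom := by
  haveI : IsProbabilityMeasure (expMeasure 1) := isProbabilityMeasure_expMeasure one_pos
  set M : ℝ := ∫ x, x ^ 8 ∂(expMeasure 1) with hM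
  have hM0 : 0 ≤ M := integral_nonneg fun x => by positivity
  refine ⟨40 ^ 8 * 2 ^ 16 * (M + 1), by positivity, ?_⟩
  intro Ω _ P E hE n i R hi hR hm h2 δ hδ
  haveI := hE.prob
  set S := rect (0, 0) ((n : ℤ) + 1, (n : ℤ) + 1) with hS
  -- integrability of each term
  have i1 : ∀ z, Integrable (fun ω => |E z ω| ^ 8) P := by
    intro z
    have h1 := integrable_pow_expMeasure (r := 1) one_pos 8
    rw [← hE.law z] at h1
    have h3 := h1.comp_measurable (hE.meas z)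
    refine h3.congr (Filter.Eventually.of_forall fun ω => ?_)
    simp only [Function.comp]
    rw [← abs_pow, abs_of_nonneg (by positivity)]
  have i2 : ∀ z, ∫ ω, |E z ω| ^ 8 ∂P = M := by
    intro z
    rw [hM, ← hE.law z, integral_map (hE.meas z).aemeasurable (by fun_prop)]
    refine integral_congr_ae (Filter.Eventually.of_forall fun ω => ?_)
    simp only
    rw [← abs_pow, abs_of_nonneg (by positivity)]
  have hcard : (S.card : ℝ) = ((n : ℝ) + 2) ^ 2 := by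
    rw [hS, jmom_card]; push_cast; ring
  -- the pointwise bound
  have hpt : ∀ ω, (jZ n i R δ (jMap n i R δ E ω)) ^ 8
      ≤ 40 ^ 8 * ((S.card : ℝ) ^ 7 * ∑ z ∈ S, |E z ω| ^ 8) := by
    intro ω
    have h1 := jmom_bound hδ E ω hi hR hm h2
    have h0 : 0 ≤ jZ n i R δ (jMap n i R δ E ω) := le_max_left _ _
    have h3 : (∑ z ∈ S, |E z ω|) ^ 8 ≤ (S.card : ℝ) ^ 7 * ∑ z ∈ S, |E z ω| ^ 8 := by
      have h4 := pow_sum_div_card_le_sum_pow (s := S) (f := fun z => |E z ω|)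
        (fun z _ => abs_nonneg _) 7
      rcases S.eq_empty_or_nonempty with h5 | h5
      · rw [h5]; simp
      · have h6 : (0 : ℝ) < (S.card : ℝ) ^ 7 := by
          have : 0 < S.card := Finset.card_pos.2 h5
          positivity
        rw [div_le_iff₀ h6] at h4
        rw [mul_comm]
        exact h4
    calc (jZ n i R δ (jMap n i R δ E ω)) ^ 8 ≤ (40 * jmomQ n E ω) ^ 8 :=
          pow_le_pow_left₀ h0 h1 8
      _ = 40 ^ 8 * (∑ z ∈ S, |E z ω|) ^ 8 := by unfold jmomQ; ring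
      _ ≤ _ := by gcongr
  have hint : Integrable (fun ω => 40 ^ 8 * ((S.card : ℝ) ^ 7 * ∑ z ∈ S, |E z ω| ^ 8)) P :=
    ((integrable_finset_sum _ fun z _ => i1 z).const_mul _).const_mul _
  have hmeas : AEStronglyMeasurable (fun ω => (jZ n i R δ (jMap n i R δ E ω)) ^ 8) P :=
    (((measurable_jZ n i R δ).comp (measurable_jMap hE n i R δ)).pow_const 8).aestronglyMeasurable
  have hI : Integrable (fun ω => (jZ n i R δ (jMap n i R δ E ω)) ^ 8) P := by
    refine hint.mono' hmeas (Filter.Eventually.of_forall fun ω => ?_)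
    rw [Real.norm_eq_abs, abs_of_nonneg (by positivity)]
    exact hpt ω
  refine ⟨hI, ?_⟩
  refine (integral_mono hI hint hpt).trans ?_
  rw [integral_const_mul, integral_const_mul, integral_finset_sum _ fun z _ => i1 z]
  simp only [i2, Finset.sum_const, nsmul_eq_mul]
  have hn : (2 : ℝ) ≤ n := by
    have : 2 ≤ n := by omega
    exact_mod_cast this
  have e1 : (40 : ℝ) ^ 8 * ((S.card : ℝ) ^ 7 * ((S.card : ℝ) * M)) = 40 ^ 8 * (((n : ℝ) + 2) ^ 16 * M) := by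
    rw [hcard]; ring
  rw [e1]
  have e2 : ((n : ℝ) + 2) ^ 16 ≤ 2 ^ 16 * (n : ℝ) ^ 16 := by
    rw [← mul_pow]
    exact pow_le_pow_left₀ (by positivity) (by linarith) 16
  calc (40 : ℝ) ^ 8 * (((n : ℝ) + 2) ^ 16 * M) ≤ 40 ^ 8 * ((2 ^ 16 * (n : ℝ) ^ 16) * (M + 1)) := by
        gcongr
        linarith
    _ = _ := by ring

end Pool.Agent.H374
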