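import Pool.Agent.H374.Stmts
import Pool.Agent.H374.Tools

/-!
# Exponential maximal inequalities for random walks with exponential increments
-/

set_option autoImplicit false
open MeasureTheory ProbabilityTheory

namespace Pool.Agent.H374

/-- Partial sums on `Fin k → ℝ`. -/
noncomputable def rw_S (φ : ℝ → ℝ) {k : ℕ} (z : ℕ) (x : Fin k → ℝ) : ℝ :=
  ∑ i : Fin k, if (i : ℕ) < z then φ (x i) else 0

lemma rw_S_measurable {φ : ℝ → ℝ} (hφ : Measurable φ) {k : ℕ} (z : ℕ) :
    Measurable (fun x : Fin k → ℝ => rw_S φ z x) := by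
  unfold rw_S
  refine Finset.measurable_sum _ fun i _ => ?_
  by_cases h : (i : ℕ) < z
  · simp only [h, if_true]
    exact hφ.comp (measurable_pi_apply i)
  · simp only [h, if_false]
    exact measurable_const

lemma rw_S_zero (φ : ℝ → ℝ) {k : ℕ} (x : Fin k → ℝ) : rw_S φ 0 x = 0 := by
  simp [rw_S]

lemma rw_S_succ (φ : ℝ → ℝ) {k : ℕ} (z : ℕ) (x : Fin (k + 1) → ℝ) :
    rw_S φ (z + 1) x = φ (x 0) + rw_S φ z (fun i => x i.succ) := by
  unfold rw_S
  rw [Fin.sum_univ_succ]
  simp

/-- The event. -/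
def rw_A (φ : ℝ → ℝ) (k : ℕ) (y : ℝ) : Set (Fin k → ℝ) := {x | ∃ z ≤ k, y ≤ rw_S φ z x}

lemma rw_A_measurable {φ : ℝ → ℝ} (hφ : Measurable φ) (k : ℕ) (y : ℝ) :
    MeasurableSet (rw_A φ k y) := by
  have : rw_A φ k y = ⋃ z ∈ Finset.range (k + 1), {x : Fin k → ℝ | y ≤ rw_S φ z x} := by
    ext x
    simp only [rw_A, Set.mem_iUnion, Finset.mem_range, exists_prop, Nat.lt_succ_iff]
    rfl
  rw [this]
  exact Finset.measurableSet_biUnion _ fun z _ =>
    measurableSet_le measurable_const (rw_S_measurable hφ z)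

lemma rw_max (μ : Measure ℝ) [IsProbabilityMeasure μ] (φ : ℝ → ℝ) (hφ : Measurable φ) (s θ : ℝ)
    (hs : 0 < s) (hθ : 0 ≤ θ)
    (h : ∫⁻ x, ENNReal.ofReal (Real.exp (s * φ x)) ∂μ ≤ ENNReal.ofReal (Real.exp θ)) :
    ∀ (k : ℕ) (y : ℝ), Measure.pi (fun _ : Fin k => μ) (rw_A φ k y) ≤
      ENNReal.ofReal (Real.exp (-(s * y) + k * θ)) := by
  intro k
  induction k with
  | zero =>
    intro y
    by_cases hy : y ≤ 0
    · refine le_trans prob_le_one ?_
      rw [← ENNReal.ofReal_one]
      apply ENNReal.ofReal_le_ofReal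
      rw [Nat.cast_zero, zero_mul, add_zero]
      apply Real.one_le_exp
      nlinarith
    · have : rw_A φ 0 y = ∅ := by
        ext x
        simp only [rw_A, rw_S, Set.mem_empty_iff_false, iff_false]
        rintro ⟨z, _, hz⟩
        simp at hz
        exact hy hz
      rw [this]; simp
  | succ k ih =>
    intro y
    by_cases hy : y ≤ 0
    · refine le_trans prob_le_one ?_
      rw [← ENNReal.ofReal_one]
      apply ENNReal.ofReal_le_ofReal
      apply Real.one_le_exp
      have : 0 ≤ ((k + 1 : ℕ) : ℝ) * θ := by positivity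
      nlinarith
    · push Not at hy
      have hmp := measurePreserving_piFinSuccAbove (fun _ : Fin (k + 1) => μ) 0
      set A' : Set (ℝ × (Fin k → ℝ)) := {q | ∃ z ≤ k, y - φ q.1 ≤ rw_S φ z q.2} with hA'
      have hA'm : MeasurableSet A' := by
        have : A' = ⋃ z ∈ Finset.range (k + 1),
            {q : ℝ × (Fin k → ℝ) | y - φ q.1 ≤ rw_S φ z q.2} := by
          ext x
          simp only [hA', Set.mem_iUnion, Finset.mem_range, exists_prop, Nat.lt_succ_iff]
          rfl
        rw [this]
        exact Finset.measurableSet_biUnion _ fun z _ =>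
          measurableSet_le (measurable_const.sub (hφ.comp measurable_fst))
            ((rw_S_measurable hφ z).comp measurable_snd)
      have hpre : rw_A φ (k + 1) y =
          (MeasurableEquiv.piFinSuccAbove (fun _ : Fin (k + 1) => ℝ) 0) ⁻¹' A' := by
        ext x
        constructor
        · rintro ⟨z, hz, hxy⟩
          cases z with
          | zero => rw [rw_S_zero] at hxy; linarith
          | succ z =>
            refine ⟨z, by omega, ?_⟩
            rw [rw_S_succ] at hxy
            have : y - φ (x 0) ≤ rw_S φ z (fun i => x i.succ) := by linarith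
            exact this
        · rintro ⟨z, hz, hxy⟩
          refine ⟨z + 1, by omega, ?_⟩
          rw [rw_S_succ]
          have : y - φ (x 0) ≤ rw_S φ z (fun i => x i.succ) := hxy
          linarith
      rw [hpre, hmp.measure_preimage hA'm.nullMeasurableSet, Measure.prod_apply hA'm]
      calc ∫⁻ a, Measure.pi (fun _ : Fin k => μ) (Prod.mk a ⁻¹' A') ∂μ
          ≤ ∫⁻ a, ENNReal.ofReal (Real.exp (-(s * y) + k * θ)) *
              ENNReal.ofReal (Real.exp (s * φ a)) ∂μ := by
            refine lintegral_mono fun a => ?_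
            refine (ih (y - φ a)).trans ?_
            rw [← ENNReal.ofReal_mul (Real.exp_pos _).le, ← Real.exp_add]
            apply ENNReal.ofReal_le_ofReal
            apply Real.exp_le_exp.mpr
            linarith
        _ = ENNReal.ofReal (Real.exp (-(s * y) + k * θ)) *
              ∫⁻ a, ENNReal.ofReal (Real.exp (s * φ a)) ∂μ := by
            rw [lintegral_const_mul]
            exact ((Real.measurable_exp.comp (hφ.const_mul s))).ennreal_ofReal
        _ ≤ ENNReal.ofReal (Real.exp (-(s * y) + k * θ)) * ENNReal.ofReal (Real.exp θ) := by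
            gcongr
        _ = ENNReal.ofReal (Real.exp (-(s * y) + (k + 1 : ℕ) * θ)) := by
            rw [← ENNReal.ofReal_mul (Real.exp_pos _).le, ← Real.exp_add]
            congr 2
            push_cast; ring

lemma rw_trans {Ω : Type} [MeasurableSpace Ω] (P : Measure Ω) [IsProbabilityMeasure P]
    (k : ℕ) (g : ℕ → Ω → ℝ) (p : ℝ) (hp : 0 < p) (hg : IIDExp P k g p) (φ : ℝ → ℝ)
    (hφ : Measurable φ) (s θ y : ℝ) (hs : 0 < s) (hθ : 0 ≤ θ)
    (h : ∫⁻ x, ENNReal.ofReal (Real.exp (s * φ x)) ∂(expMeasure p) ≤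
      ENNReal.ofReal (Real.exp θ)) :
    P.real {ω | ∃ z ≤ k, y ≤ ∑ i ∈ Finset.range z, φ (g i ω)} ≤
      Real.exp (-(s * y) + k * θ) := by
  have := isProbabilityMeasure_expMeasure hp
  have hX : Measurable (fun ω (i : Fin k) => g i ω) :=
    measurable_pi_lambda _ fun i => hg.meas i i.2
  have hset : {ω | ∃ z ≤ k, y ≤ ∑ i ∈ Finset.range z, φ (g i ω)} =
      (fun ω (i : Fin k) => g i ω) ⁻¹' rw_A φ k y := by
    have key : ∀ z ≤ k, ∀ ω, rw_S φ z (fun i : Fin k => g i ω) =
        ∑ i ∈ Finset.range z, φ (g i ω) := by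
      intro z hz ω
      unfold rw_S
      rw [Fin.sum_univ_eq_sum_range (fun i => if i < z then φ (g i ω) else 0) k,
        ← Finset.sum_filter]
      congr 1
      ext i
      simp only [Finset.mem_filter, Finset.mem_range]
      omega
    ext ω
    constructor
    · rintro ⟨z, hz, hh⟩
      exact ⟨z, hz, by rw [key z hz]; exact hh⟩
    · rintro ⟨z, hz, hh⟩
      rw [key z hz] at hh
      exact ⟨z, hz, hh⟩
  rw [hset, measureReal_def, ← Measure.map_apply hX (rw_A_measurable hφ k y), hg.law]
  refine ENNReal.toReal_le_of_le_ofReal (Real.exp_pos _).le ?_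
  exact rw_max (expMeasure p) φ hφ s θ hs hθ h k y

theorem t_RWUp : RWUp := by
  intro Ω _ P _ k g p s c θ y hg hs hsp hθ hle
  have hp : 0 < p := hs.trans hsp
  refine rw_trans P k g p hp hg (fun x => x - c) (measurable_id.sub_const c) s θ y hs hθ ?_
  have h1 : ∀ x : ℝ, ENNReal.ofReal (Real.exp (s * (x - c))) =
      ENNReal.ofReal (Real.exp (-(s * c))) * ENNReal.ofReal (Real.exp (s * x)) := by
    intro x
    rw [← ENNReal.ofReal_mul (Real.exp_pos _).le, ← Real.exp_add]
    congr 2; ring
  simp_rw [h1]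
  rw [lintegral_const_mul _ (by fun_prop), lintegral_exp_mul_expMeasure hp hsp,
    ← ENNReal.ofReal_mul (Real.exp_pos _).le]
  apply ENNReal.ofReal_le_ofReal
  rw [mul_comm]; exact hle

theorem t_RWDown : RWDown := by
  intro Ω _ P _ k g p s c θ y hg hs hp hθ hle
  refine rw_trans P k g p hp hg (fun x => c - x) (measurable_const.sub measurable_id) s θ y hs
    hθ ?_
  have h1 : ∀ x : ℝ, ENNReal.ofReal (Real.exp (s * (c - x))) =
      ENNReal.ofReal (Real.exp (s * c)) * ENNReal.ofReal (Real.exp (-s * x)) := by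
    intro x
    rw [← ENNReal.ofReal_mul (Real.exp_pos _).le, ← Real.exp_add]
    congr 2; ring
  simp_rw [h1]
  rw [lintegral_const_mul _ (by fun_prop), lintegral_exp_mul_expMeasure hp (by linarith),
    ← ENNReal.ofReal_mul (Real.exp_pos _).le, sub_neg_eq_add]
  apply ENNReal.ofReal_le_ofReal
  rw [mul_comm]; exact hle

end Pool.Agent.H374
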